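import Mathlib

set_option autoImplicit false

namespace Pool.Agent.Lib.MP_5a2675_co.D7

open Finset
open Classical

noncomputable section

/-- neighbours of `v` inside `S` -/
def N (G : SimpleGraph ℕ) (S : Finset ℕ) (v : ℕ) : Finset ℕ := S.filter (G.Adj v)

def deg (G : SimpleGraph ℕ) (S : Finset ℕ) (v : ℕ) : ℕ := (N G S v).card

/-- `D` dominates the unmarked vertices of the graph induced on `S` -/
def Dom (G : SimpleGraph ℕ) (S M D : Finset ℕ) : Prop :=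
  D ⊆ S ∧ ∀ v ∈ S, v ∉ M → v ∈ D ∨ ∃ u ∈ D, G.Adj v u

def gam (G : SimpleGraph ℕ) (S M : Finset ℕ) : ℕ := sInf {k | ∃ D, Dom G S M D ∧ D.card = k}

def Closed (G : SimpleGraph ℕ) (S X : Finset ℕ) : Prop :=
  X ⊆ S ∧ ∀ v ∈ X, ∀ w ∈ S, G.Adj v w → w ∈ X

def Conn (G : SimpleGraph ℕ) (S : Finset ℕ) : Prop :=
  ∀ X, Closed G S X → X.Nonempty → X = S

def comp (G : SimpleGraph ℕ) (S : Finset ℕ) (v : ℕ) : Finset ℕ :=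
  S.filter (fun w => Relation.ReflTransGen (fun a b => a ∈ S ∧ b ∈ S ∧ G.Adj a b) v w)

/-- number of edges from `X` to `S \ X` -/
def cut (G : SimpleGraph ℕ) (S X : Finset ℕ) : ℕ := ∑ v ∈ X, (N G (S \ X) v).card

structure Pat where
  k : ℕ
  con : List ℕ
  E : List (ℕ × ℕ)

def Emb (G : SimpleGraph ℕ) (S : Finset ℕ) (P : Pat) (g : ℕ → ℕ) : Prop :=
  (∀ i < P.k, g i ∈ S) ∧ (∀ i < P.k, ∀ j < P.k, g i = g j → i = j) ∧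
    (∀ e ∈ P.E, G.Adj (g e.1) (g e.2)) ∧
    ∀ i < P.k, P.con.getD i 0 ≠ 0 → deg G S (g i) = P.con.getD i 0

def eK : List (ℕ × ℕ) := [(0,1),(0,2),(1,3),(2,3),(1,4),(2,4)]
def eP : List (ℕ × ℕ) := [(0,1),(0,2),(1,3),(1,4),(2,5),(3,5),(4,5),(3,6),(4,6),(6,7),(2,7)]
def PK : Pat := ⟨5, [0,3,3,0,0], eK⟩
def T0 : Pat := ⟨5, [2,3,3,0,0], eK⟩
def PP : Pat := ⟨8, [0,3,3,3,3,3,3,0], eP⟩
def T3 : Pat := ⟨8, [2,3,3,3,3,3,3,0], eP⟩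
def T1 : Pat := ⟨11, [2,0,0,3,3,3,3,3,3,3,3],
  [(0,1),(0,2),(1,3),(2,4),(3,5),(4,5),(3,6),(4,7),(5,8),(6,9),(7,9),(8,9),(6,10),(7,10),(8,10)]⟩
def eA : List (ℕ × ℕ) := [(0,1),(0,2),(1,3),(2,3),(1,4),(2,4),(3,4)]
def eB : List (ℕ × ℕ) := [(0,1),(0,2),(1,3),(2,3),(1,4),(2,4),(3,5),(4,6),(5,6)]
def eE : List (ℕ × ℕ) := [(0,1),(0,2),(1,3),(2,3),(1,4),(2,4),(3,5),(4,6),(5,7),(6,7)]
def Ta : Pat := ⟨5, [2,3,3,3,3], eA⟩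
def Tb : Pat := ⟨7, [2,3,3,3,3,0,0], eB⟩
def Te : Pat := ⟨8, [2,3,3,3,3,0,0,0], eE⟩
def Pa : Pat := ⟨5, [0,3,3,3,3], eA⟩
def Pb : Pat := ⟨7, [0,3,3,3,3,0,0], eB⟩
def Pe : Pat := ⟨8, [0,3,3,3,3,0,0,0], eE⟩
def H4 : Pat := ⟨4, [2,2,2,2], [(0,1),(0,2),(1,3),(2,3)]⟩
def H7 : Pat := ⟨7, [2,3,3,3,3,2,2], [(0,1),(0,2),(1,3),(2,3),(1,4),(2,4),(3,5),(4,6),(5,6)]⟩
def H10 : Pat := ⟨10, [2,3,3,3,3,3,3,3,3,2],
  [(0,1),(0,2),(1,3),(2,3),(1,4),(2,4),(3,5),(4,6),(5,7),(6,7),(5,8),(6,8),(7,9),(8,9)]⟩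

/-- `v` is the root of one of the five critical patterns -/
def CritP (G : SimpleGraph ℕ) (S : Finset ℕ) (v : ℕ) : Prop :=
  ∃ P ∈ [Ta, Tb, Te, T3, T1], ∃ g, Emb G S P g ∧ g 0 = v

/-- one of the three patterns that occur in every critical pattern -/
def KX (G : SimpleGraph ℕ) (S : Finset ℕ) : Prop := ∃ P ∈ [Pa, Pb, Pe], ∃ g, Emb G S P g

def Heavy (G : SimpleGraph ℕ) (S : Finset ℕ) : Prop :=
  ∃ P ∈ [H4, H7, H10], ∃ g, Emb G S P g ∧ ∀ v ∈ S, ∃ i < P.k, g i = v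

def W0 : ℕ → ℕ
  | 0 => 20
  | 1 => 13
  | 2 => 9
  | _ => 7

def W1 : ℕ → ℕ
  | 0 => 0
  | 1 => 7
  | _ => 8

def wt (G : SimpleGraph ℕ) (S M : Finset ℕ) (v : ℕ) : ℕ :=
  if v ∈ M then W1 (deg G S v) else W0 (deg G S v) + if CritP G S v then 1 else 0

def Phi (G : SimpleGraph ℕ) (S M : Finset ℕ) : ℕ := ∑ v ∈ S, wt G S M v

def cc (G : SimpleGraph ℕ) (S M : Finset ℕ) : ℕ :=
  if ∃ v ∈ S, v ∈ M then 0 else if Heavy G S then 4 else 2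

def Good (G : SimpleGraph ℕ) (S M : Finset ℕ) : Prop :=
  ∀ v ∈ S, deg G S v ≤ 3 ∧ (v ∈ M → deg G S v ≤ 2)

def NonCub (G : SimpleGraph ℕ) (S : Finset ℕ) : Prop := ∃ v ∈ S, deg G S v < 3

def val (G : SimpleGraph ℕ) (S M : Finset ℕ) : ℤ := 20 * (gam G S M : ℤ) - Phi G S M

def Claim (G : SimpleGraph ℕ) (S M : Finset ℕ) : Prop :=
  Conn G S → Good G S M → NonCub G S → val G S M ≤ cc G S M

def IH (n : ℕ) : Prop := ∀ G S M, S.card < n → Claim G S M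

/-- a minimal counterexample -/
structure MC (G : SimpleGraph ℕ) (S M : Finset ℕ) : Prop where
  conn : Conn G S
  good : Good G S M
  noncub : NonCub G S
  ih : IH S.card
  bad : (cc G S M : ℤ) < val G S M

def NoMark (S M : Finset ℕ) : Prop := ∀ v ∈ S, v ∉ M

def NoBridge (G : SimpleGraph ℕ) (S : Finset ℕ) : Prop :=
  ∀ X ⊆ S, X.Nonempty → X ≠ S → 2 ≤ cut G S X

/-- connected pieces with at most two edges leaving and no leaf are not bad -/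
def TwoCut (G : SimpleGraph ℕ) (S : Finset ℕ) : Prop :=
  ∀ X ⊆ S, X.Nonempty → X ≠ S → Conn G X → cut G S X ≤ 2 → (∀ v ∈ X, 2 ≤ deg G X v) →
    val G X ∅ ≤ 0

end

end Pool.Agent.Lib.MP_5a2675_co.D7
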