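import Mathlib
import Pool.Agent.Lib.MP_5a2675_co.D7.Base

set_option autoImplicit false

namespace Pool.Agent.Lib.MP_5a2675_co.D7

/-! bit sets -/

def tb (m i : ℕ) : Bool := Nat.beq (Nat.land (Nat.shiftRight m i) 1) 1
def bit (i : ℕ) : ℕ := Nat.shiftLeft 1 i
def dif (a b : ℕ) : ℕ := Nat.xor a (Nat.land a b)
def sub (a b : ℕ) : Bool := Nat.beq (Nat.land a b) a
def dj (a b : ℕ) : Bool := Nat.beq (Nat.land a b) 0
def ones (n : ℕ) : ℕ := Nat.sub (Nat.shiftLeft 1 n) 1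
def row (A i : ℕ) : ℕ :=
  Nat.land (Nat.shiftRight A (Nat.shiftLeft i 6)) 18446744073709551615
def fld (t o w : ℕ) : ℕ := Nat.land (Nat.shiftRight t o) (ones w)
def ln (x : ℕ) : ℕ := Nat.land x 1171221845949812801
def pop (x : ℕ) : ℕ :=
  cond (Nat.beq x 0) 0
    (Nat.mod (Nat.add (Nat.add (Nat.add (ln x) (ln (Nat.shiftRight x 1)))
      (Nat.add (ln (Nat.shiftRight x 2)) (ln (Nat.shiftRight x 3))))
      (Nat.add (ln (Nat.shiftRight x 4)) (ln (Nat.shiftRight x 5)))) 63)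

def loopS {α : Type} (f : ℕ → α → α) (ih : ℕ → α → α) (m i : ℕ) (a : α) : α :=
  ih (Nat.xor m (bit i)) (f i a)

/-- fold over the set bits of a mask, from the top -/
def loopB {α : Type} (f : ℕ → α → α) (fuel : ℕ) : ℕ → α → α :=
  Nat.rec (fun _ a => a)
    (fun _ ih m a => cond (Nat.beq m 0) a (loopS f ih m (Nat.log2 m) a)) fuel

def nb (A m : ℕ) : ℕ := loopB (fun i a => Nat.lor a (row A i)) 64 m 0

def nb3s (r a : ℕ) : ℕ :=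
  Nat.lor (Nat.lor a r) (Nat.shiftLeft (Nat.land a (Nat.lor r (Nat.shiftLeft r 64))) 64)

/-- rows 0, 1, 2 of the result: vertices with at least 1, 2, 3 known neighbours in `m` -/
def nb3 (A m : ℕ) : ℕ := loopB (fun i a => nb3s (row A i) a) 64 m 0

def cnt3 (t m : ℕ) : ℕ :=
  Nat.add (Nat.add (pop (Nat.land (row t 0) m)) (pop (Nat.land (row t 1) m)))
    (pop (Nat.land (row t 2) m))

def cloS (ih : ℕ → ℕ → ℕ) (todo seen new : ℕ) : ℕ := ih (Nat.lor todo new) (Nat.lor seen new)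

def cloL (adj : ℕ → ℕ) (reg : ℕ) (fuel : ℕ) : ℕ → ℕ → ℕ :=
  Nat.rec (fun _ s => s)
    (fun _ ih todo seen => cond (Nat.beq todo 0) seen
      (cloS ih (Nat.xor todo (bit (Nat.log2 todo))) seen
        (dif (Nat.land (adj (Nat.log2 todo)) reg) seen))) fuel

/-- the seed together with everything reached from it inside `reg` -/
def clo (adj : ℕ → ℕ) (reg seed : ℕ) : ℕ := cloL adj reg 64 seed seed

def allL {α : Type} (p : α → Bool) (l : List α) : Bool :=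
  List.rec true (fun a _ ih => cond (p a) ih false) l
def anyL {α : Type} (p : α → Bool) (l : List α) : Bool :=
  List.rec false (fun a _ ih => cond (p a) true ih) l
def orL {α : Type} (p : α → ℕ) (l : List α) : ℕ :=
  List.rec 0 (fun a _ ih => Nat.lor (p a) ih) l
def sumL {α : Type} (p : α → ℕ) (l : List α) : ℕ :=
  List.rec 0 (fun a _ ih => Nat.add (p a) ih) l
def mapL {α β : Type} (p : α → β) (l : List α) : List β :=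
  List.rec [] (fun a _ ih => p a :: ih) l
def appL {α : Type} (l r : List α) : List α := List.rec r (fun a _ ih => a :: ih) l
def eqL {α : Type} (e : α → α → Bool) (l : List α) : List α → Bool :=
  List.rec (fun r => List.rec true (fun _ _ _ => false) r)
    (fun a _ ih r => List.rec false (fun b r' _ => cond (e a b) (ih r') false) r) l
def okI {α : Type} (l : List α) (i : ℕ) : Bool := Nat.ble (Nat.succ i) l.length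
def mn (a b : ℕ) : ℕ := cond (Nat.ble a b) a b

/-! joins: four indices of six bits, 63 marks an absent pair -/

def NOJ : ℕ := 16777215
def ja0 (J : ℕ) : ℕ := Nat.land J 63
def jb0 (J : ℕ) : ℕ := Nat.land (Nat.shiftRight J 6) 63
def ja1 (J : ℕ) : ℕ := Nat.land (Nat.shiftRight J 12) 63
def jb1 (J : ℕ) : ℕ := Nat.land (Nat.shiftRight J 18) 63
def jp1 (a b i : ℕ) : ℕ := cond (Nat.beq i a) (bit b) (cond (Nat.beq i b) (bit a) 0)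
def jp (J i : ℕ) : ℕ :=
  cond (Nat.beq J NOJ) 0 (Nat.lor (jp1 (ja0 J) (jb0 J) i) (jp1 (ja1 J) (jb1 J) i))
def jm (J all : ℕ) : ℕ :=
  Nat.land all (Nat.lor (Nat.lor (bit (ja0 J)) (bit (jb0 J))) (Nat.lor (bit (ja1 J)) (bit (jb1 J))))
def jwf1 (n a b : ℕ) : Bool :=
  cond (Nat.beq a 63) (Nat.beq b 63)
    (cond (Nat.beq a b) false (cond (Nat.ble (Nat.succ a) n) (Nat.ble (Nat.succ b) n) false))
def jwf (n J : ℕ) : Bool :=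
  jwf1 n (ja0 J) (jb0 J) && jwf1 n (ja1 J) (jb1 J) &&
    (Nat.beq (ja0 J) 63 ||
      !((Nat.beq (ja0 J) (ja1 J) && Nat.beq (jb0 J) (jb1 J)) ||
        (Nat.beq (ja0 J) (jb1 J) && Nat.beq (jb0 J) (ja1 J))))
/-- the common end of the two joins -/
def jd (J all : ℕ) : ℕ :=
  Nat.land all (Nat.land (Nat.lor (bit (ja0 J)) (bit (jb0 J))) (Nat.lor (bit (ja1 J)) (bit (jb1 J))))
/-- row 0: the join ends; row 1: the common end -/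
def jx (J all : ℕ) : ℕ := Nat.lor (jm J all) (Nat.shiftLeft (jd J all) 64)
def adjJ (A J i : ℕ) : ℕ := Nat.lor (row A i) (jp J i)

/-! configurations -/

structure Blob where
  R : ℕ
  In : ℕ
  Out : ℕ
  a : ℕ
  lo : ℕ
  hi : ℕ
  J : ℕ

structure PF where
  R : ℕ
  Dd : ℕ
  P0 : ℕ
  J : ℕ
  p : ℕ
  th : ℕ

structure JV where
  R : ℕ
  J : ℕ
  k : ℕ

structure Cfg where
  n : ℕ
  A : ℕ
  d1 : ℕ
  d2 : ℕ
  ms : ℕ
  r1 : ℕ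
  r2 : ℕ
  r3 : ℕ
  kc : ℕ
  ht : ℕ
  bl : List Blob
  nc : List (ℕ × ℕ)
  pf : List PF
  jv : List JV

inductive PT where
  | leaf (P : Pat) : PT
  | node (l r : PT) : PT

structure Gam where
  ty : ℕ
  j0 : ℕ
  nok : Bool
  nop : Bool
  tg : ℕ
  pats : PT

noncomputable def PT.get (T : PT) : ℕ → Pat :=
  PT.rec (fun P _ => P)
    (fun _ _ il ir i => cond (Nat.beq (Nat.land i 1) 0) (il (Nat.shiftRight i 1))
      (ir (Nat.shiftRight i 1))) T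

def Gam.nomark (Γ : Gam) : Bool := dj Γ.ty 96
def Gam.noleaf (Γ : Gam) : Bool := dj Γ.ty 98

def beqB (a b : Blob) : Bool :=
  Nat.beq a.In b.In && Nat.beq a.Out b.Out && Nat.beq a.R b.R && Nat.beq a.a b.a &&
    Nat.beq a.lo b.lo && Nat.beq a.hi b.hi && Nat.beq a.J b.J
def beqF (a b : PF) : Bool :=
  Nat.beq a.R b.R && Nat.beq a.Dd b.Dd && Nat.beq a.P0 b.P0 && Nat.beq a.J b.J &&
    Nat.beq a.p b.p && Nat.beq a.th b.th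
def beqJ (a b : JV) : Bool := Nat.beq a.R b.R && Nat.beq a.J b.J && Nat.beq a.k b.k
def ceq (a b : Cfg) : Bool :=
  Nat.beq a.A b.A && Nat.beq a.n b.n && Nat.beq a.d1 b.d1 && Nat.beq a.d2 b.d2 &&
    Nat.beq a.ms b.ms && Nat.beq a.r1 b.r1 && Nat.beq a.r2 b.r2 && Nat.beq a.r3 b.r3 &&
    Nat.beq a.kc b.kc && Nat.beq a.ht b.ht && eqL beqB a.bl b.bl &&
    eqL (fun x y => Nat.beq x.1 y.1 && Nat.beq x.2 y.2) a.nc b.nc && eqL beqF a.pf b.pf &&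
    eqL beqJ a.jv b.jv
def dd (l : List Cfg) : List Cfg :=
  List.rec [] (fun c _ ih => cond (anyL (ceq c) ih) ih (c :: ih)) l

def unkB (all : ℕ) (b : Blob) : ℕ := dif all (Nat.lor b.In b.Out)
def growIn (A all : ℕ) (b : Blob) (s : ℕ) : Blob :=
  ⟨b.R, Nat.lor b.In (clo (adjJ A b.J) (unkB all b) (dif s b.In)), b.Out, b.a, b.lo, b.hi, b.J⟩
def growOut (A all : ℕ) (b : Blob) (s : ℕ) : Blob :=
  ⟨b.R, b.In, Nat.lor b.Out (clo (adjJ A b.J) (unkB all b) (dif s b.Out)), b.a, b.lo, b.hi, b.J⟩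
def lab1 (A all e : ℕ) (b : Blob) : Blob :=
  cond (dj e b.R)
    (cond (dj e b.In) (cond (dj e b.Out) b (growOut A all b e)) (growIn A all b e))
    (growOut A all b e)
def clash (C : Cfg) : Bool := anyL (fun b => !(dj b.In b.Out)) C.bl

def addE (C : Cfg) (A e : ℕ) : Cfg :=
  ⟨C.n, A, C.d1, C.d2, C.ms, Nat.lor (dif C.r1 e) (Nat.land C.r2 e),
    Nat.lor (dif C.r2 e) (Nat.land C.r3 e), dif C.r3 e, C.kc, C.ht,
    mapL (lab1 A (ones C.n) e) C.bl, C.nc, C.pf, C.jv⟩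
/-- record a new edge between the known vertices `a` and `b` -/
def addEdge (C : Cfg) (a b : ℕ) : Cfg :=
  addE C (Nat.lor C.A (Nat.lor (Nat.shiftLeft (bit b) (Nat.shiftLeft a 6))
    (Nat.shiftLeft (bit a) (Nat.shiftLeft b 6)))) (Nat.lor (bit a) (bit b))

def orIf (c : Bool) (m x : ℕ) : ℕ := cond c (Nat.lor m x) m
def newW (C : Cfg) (dg : ℕ) (mk : Bool) (x : ℕ) : Cfg :=
  ⟨Nat.succ C.n, C.A, orIf (Nat.beq dg 1) C.d1 x, orIf (Nat.beq dg 2) C.d2 x, orIf mk C.ms x,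
    Nat.lor C.r1 x, orIf (Nat.ble 2 dg) C.r2 x, orIf (Nat.ble 3 dg) C.r3 x, C.kc, C.ht,
    cond mk (mapL (fun b => ⟨b.R, b.In, Nat.lor b.Out x, b.a, b.lo, b.hi, b.J⟩) C.bl) C.bl,
    C.nc, C.pf, C.jv⟩
/-- a new vertex of degree `dg` -/
def newV (C : Cfg) (dg : ℕ) (mk : Bool) : Cfg := newW C dg mk (bit C.n)

def empty : Cfg := ⟨0, 0, 0, 0, 0, 0, 0, 0, 0, 0, [], [], [], []⟩
def types : List (ℕ × Bool) := [(1, false), (2, false), (3, false), (1, true), (2, true)]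
def tyOK (ty dg : ℕ) (mk : Bool) : Bool := tb ty (cond mk (Nat.add dg 4) dg)
def keep (C : Cfg) (acc : List Cfg) : List Cfg := cond (clash C) acc (C :: acc)

/-! degrees after deleting a set; `t` is `nb3 C.A Z`, `j` is `jx` of the joins -/

def low0 (C : Cfg) (t : ℕ) : ℕ :=
  Nat.lor (Nat.lor (Nat.land C.d1 (row t 0)) (Nat.land C.d2 (row t 1))) (row t 2)
def low1 (C : Cfg) (t : ℕ) : ℕ := Nat.lor (Nat.lor C.d1 (Nat.land C.d2 (row t 0))) (row t 1)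
def low2 (C : Cfg) (t : ℕ) : ℕ := Nat.lor (Nat.lor C.d1 C.d2) (row t 0)
def e0 (C : Cfg) (t j : ℕ) : ℕ := dif (low0 C t) j
def e1 (C : Cfg) (t j : ℕ) : ℕ :=
  Nat.lor (dif (low1 C t) j) (dif (Nat.land (low0 C t) j) (Nat.shiftRight j 64))
def e2 (C : Cfg) (t j : ℕ) : ℕ :=
  Nat.lor (Nat.lor (dif (low2 C t) j) (dif (Nat.land (low1 C t) j) (Nat.shiftRight j 64)))
    (Nat.land (low0 C t) (Nat.shiftRight j 64))

/-! enumeration of the embeddings of a pattern -/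

def gm (mp q : ℕ) : ℕ := Nat.land (Nat.shiftRight mp (Nat.mul 7 q)) 127
def sm (mp q z : ℕ) : ℕ := Nat.lor mp (Nat.shiftLeft (Nat.succ z) (Nat.mul 7 q))
def sel (k m0 m2 m3 : ℕ) : ℕ := cond (Nat.beq k 2) m2 (cond (Nat.beq k 3) m3 m0)

def PK' : Type := Cfg → ℕ → ℕ → ℕ → ℕ → ℕ → List Cfg → List Cfg

def peGo (ih : PK') (C : Cfg) (mp used m0 m2 m3 : ℕ) (acc : List Cfg) : List Cfg :=
  cond (clash C) acc (ih C mp used m0 m2 m3 acc)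

def peOld (J : ℕ) (ih : PK') (C : Cfg) (x y mp used m0 m2 m3 : ℕ) (acc : List Cfg) : List Cfg :=
  cond (tb (adjJ C.A J x) y) (ih C mp used m0 m2 m3 acc)
    (cond (tb C.r1 x && tb C.r1 y) (peGo ih (addEdge C x y) mp used m0 m2 m3 acc) acc)

def peNewV (ty k : ℕ) (ih : PK') (C : Cfg) (x q mp used m0 m2 m3 : ℕ) (acc : List Cfg) :
    List Cfg :=
  List.rec acc (fun τ _ r => cond (tyOK ty τ.1 τ.2 && (Nat.beq k 0 || Nat.beq k τ.1))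
    (peGo ih (addEdge (newV C τ.1 τ.2) x C.n) (sm mp q C.n) (Nat.lor used (bit C.n))
      (Nat.lor m0 (bit C.n)) (orIf (Nat.beq τ.1 2) m2 (bit C.n))
      (orIf (Nat.beq τ.1 3) m3 (bit C.n)) r) r) types

def peNew (ty k : ℕ) (ih : PK') (C : Cfg) (x q al kn mp used m0 m2 m3 : ℕ) (acc : List Cfg) :
    List Cfg :=
  loopB (fun z r => ih C (sm mp q z) (Nat.lor used (bit z)) m0 m2 m3 r) 64 (Nat.land kn al)
    (cond (tb C.r1 x)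
      (loopB (fun z r => peGo ih (addEdge C x z) (sm mp q z) (Nat.lor used (bit z)) m0 m2 m3 r) 64
        (dif (Nat.land C.r1 al) kn) (peNewV ty k ih C x q mp used m0 m2 m3 acc))
      acc)

def pe (ty J : ℕ) (con : List ℕ) (es : List (ℕ × ℕ)) : PK' :=
  List.rec (fun C _ _ _ _ _ acc => C :: acc)
    (fun e _ ih C mp used m0 m2 m3 acc =>
      cond (Nat.beq (gm mp e.2) 0)
        (peNew ty (con.getD e.2 0) ih C (Nat.pred (gm mp e.1)) e.2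
          (dif (sel (con.getD e.2 0) m0 m2 m3) used) (adjJ C.A J (Nat.pred (gm mp e.1)))
          mp used m0 m2 m3 acc)
        (peOld J ih C (Nat.pred (gm mp e.1)) (Nat.pred (gm mp e.2)) mp used m0 m2 m3 acc)) es

/-- a pattern with one or two anchored vertices and an order of the remaining edges -/
structure RP where
  con : List ℕ
  p : ℕ
  q : ℕ
  es : List (ℕ × ℕ)

def pe1 (ty J : ℕ) (C : Cfg) (v m0 m2 m3 : ℕ) (l : List RP) (acc : List Cfg) : List Cfg :=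
  List.rec acc (fun Q _ r => cond (tb (sel (Q.con.getD Q.p 0) m0 m2 m3) v)
    (pe ty J Q.con Q.es C (sm 0 Q.p v) (bit v) m0 m2 m3 r) r) l

def pe2 (ty J : ℕ) (C : Cfg) (a b m0 m2 m3 : ℕ) (l : List RP) (acc : List Cfg) : List Cfg :=
  List.rec acc (fun Q _ r =>
    cond (tb (sel (Q.con.getD Q.p 0) m0 m2 m3) a && tb (sel (Q.con.getD Q.q 0) m0 m2 m3) b)
      (pe ty J Q.con Q.es C (sm (sm 0 Q.p a) Q.q b) (Nat.lor (bit a) (bit b)) m0 m2 m3 r) r) l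

def rT0 : RP := ⟨T0.con, 0, 0, [(0,1),(0,2),(1,3),(2,3),(1,4),(2,4)]⟩
def rT3 : RP := ⟨T3.con, 0, 0, [(0,1),(0,2),(1,3),(2,5),(3,5),(1,4),(5,4),(3,6),(4,6),(2,7),(6,7)]⟩
def rT1 : RP := ⟨T1.con, 0, 0, [(0,1),(0,2),(1,3),(2,4),(3,5),(4,5),(3,6),(4,7),(6,9),(7,9),(5,8),(9,8),(6,10),(7,10),(8,10)]⟩
def jK : List RP :=
  [⟨PK.con, 0, 1, [(0,2),(1,3),(2,3),(1,4),(2,4)]⟩,
   ⟨PK.con, 1, 0, [(1,3),(0,2),(3,2),(1,4),(2,4)]⟩]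
def rTa : RP := ⟨Ta.con, 0, 0, [(0,1),(0,2),(1,3),(2,3),(1,4),(2,4),(3,4)]⟩
def rTb : RP := ⟨Tb.con, 0, 0, [(0,1),(0,2),(1,3),(2,3),(1,4),(2,4),(3,5),(4,6),(5,6)]⟩
def rTe : RP := ⟨Te.con, 0, 0, [(0,1),(0,2),(1,3),(2,3),(1,4),(2,4),(3,5),(4,6),(5,7),(6,7)]⟩
def jA : List RP :=
  [⟨Ta.con, 0, 1, [(0,2),(1,3),(2,3),(1,4),(2,4),(3,4)]⟩,
   ⟨Ta.con, 1, 0, [(1,3),(1,4),(3,4),(0,2),(3,2),(4,2)]⟩,
   ⟨Ta.con, 1, 3, [(1,4),(3,4),(3,2),(4,2),(1,0),(2,0)]⟩,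
   ⟨Ta.con, 3, 1, [(3,4),(1,4),(3,2),(4,2),(1,0),(2,0)]⟩,
   ⟨Ta.con, 3, 4, [(3,1),(4,1),(3,2),(4,2),(1,0),(2,0)]⟩]
def jB : List RP :=
  [⟨Tb.con, 0, 1, [(0,2),(1,3),(2,3),(1,4),(2,4),(3,5),(4,6),(5,6)]⟩,
   ⟨Tb.con, 1, 0, [(1,3),(0,2),(3,2),(1,4),(2,4),(3,5),(4,6),(5,6)]⟩,
   ⟨Tb.con, 1, 3, [(1,0),(3,2),(0,2),(1,4),(2,4),(3,5),(4,6),(5,6)]⟩,
   ⟨Tb.con, 3, 1, [(3,2),(1,0),(2,0),(1,4),(2,4),(3,5),(4,6),(5,6)]⟩,
   ⟨Tb.con, 3, 5, [(3,1),(3,2),(1,0),(2,0),(1,4),(2,4),(5,6),(4,6)]⟩,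
   ⟨Tb.con, 5, 3, [(5,6),(3,1),(6,4),(1,4),(3,2),(4,2),(1,0),(2,0)]⟩,
   ⟨Tb.con, 5, 6, [(5,3),(6,4),(3,1),(4,1),(3,2),(4,2),(1,0),(2,0)]⟩]
def jE : List RP :=
  [⟨Te.con, 0, 1, [(0,2),(1,3),(2,3),(1,4),(2,4),(3,5),(4,6),(5,7),(6,7)]⟩,
   ⟨Te.con, 1, 0, [(1,3),(0,2),(3,2),(1,4),(2,4),(3,5),(4,6),(5,7),(6,7)]⟩,
   ⟨Te.con, 1, 3, [(1,0),(3,2),(0,2),(1,4),(2,4),(3,5),(4,6),(5,7),(6,7)]⟩,
   ⟨Te.con, 3, 1, [(3,2),(1,0),(2,0),(1,4),(2,4),(3,5),(4,6),(5,7),(6,7)]⟩,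
   ⟨Te.con, 3, 5, [(3,1),(3,2),(1,0),(2,0),(1,4),(2,4),(5,7),(4,6),(7,6)]⟩,
   ⟨Te.con, 5, 3, [(5,7),(3,1),(3,2),(1,0),(2,0),(1,4),(2,4),(7,6),(4,6)]⟩,
   ⟨Te.con, 5, 7, [(5,3),(7,6),(3,1),(6,4),(1,4),(3,2),(4,2),(1,0),(2,0)]⟩,
   ⟨Te.con, 7, 5, [(7,6),(5,3),(6,4),(3,1),(4,1),(3,2),(4,2),(1,0),(2,0)]⟩]
def jT3 : List RP :=
  [⟨T3.con, 0, 1, [(0,2),(1,3),(2,5),(3,5),(1,4),(5,4),(3,6),(4,6),(2,7),(6,7)]⟩,
   ⟨T3.con, 1, 0, [(1,3),(1,4),(3,5),(4,5),(0,2),(5,2),(3,6),(4,6),(2,7),(6,7)]⟩,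
   ⟨T3.con, 0, 2, [(0,1),(2,5),(1,3),(5,3),(1,4),(5,4),(3,6),(4,6),(2,7),(6,7)]⟩,
   ⟨T3.con, 2, 0, [(2,5),(2,7),(0,1),(5,3),(1,3),(5,4),(1,4),(7,6),(3,6),(4,6)]⟩,
   ⟨T3.con, 1, 3, [(1,0),(1,4),(3,5),(4,5),(3,6),(4,6),(0,2),(5,2),(6,7),(2,7)]⟩,
   ⟨T3.con, 3, 1, [(3,5),(1,4),(5,4),(3,6),(4,6),(1,0),(5,2),(0,2),(6,7),(2,7)]⟩,
   ⟨T3.con, 2, 5, [(2,0),(2,7),(5,3),(0,1),(3,1),(5,4),(1,4),(7,6),(3,6),(4,6)]⟩,
   ⟨T3.con, 5, 2, [(5,3),(5,4),(3,1),(4,1),(2,0),(1,0),(3,6),(4,6),(2,7),(6,7)]⟩,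
   ⟨T3.con, 3, 5, [(3,1),(5,4),(1,4),(3,6),(4,6),(5,2),(1,0),(2,0),(6,7),(2,7)]⟩,
   ⟨T3.con, 5, 3, [(5,2),(5,4),(3,1),(4,1),(3,6),(4,6),(2,0),(1,0),(2,7),(6,7)]⟩,
   ⟨T3.con, 3, 6, [(3,1),(6,4),(1,4),(3,5),(4,5),(6,7),(5,2),(7,2),(1,0),(2,0)]⟩,
   ⟨T3.con, 6, 3, [(6,4),(3,1),(4,1),(3,5),(4,5),(6,7),(5,2),(7,2),(1,0),(2,0)]⟩,
   ⟨T3.con, 6, 7, [(6,3),(6,4),(3,1),(4,1),(3,5),(4,5),(7,2),(5,2),(1,0),(2,0)]⟩,
   ⟨T3.con, 7, 6, [(7,2),(6,3),(2,5),(3,5),(6,4),(5,4),(3,1),(4,1),(2,0),(1,0)]⟩,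
   ⟨T3.con, 2, 7, [(2,0),(2,5),(7,6),(5,3),(6,3),(0,1),(3,1),(5,4),(6,4),(1,4)]⟩,
   ⟨T3.con, 7, 2, [(7,6),(2,0),(2,5),(6,3),(5,3),(6,4),(5,4),(0,1),(3,1),(4,1)]⟩]
def jT1 : List RP :=
  [⟨T1.con, 0, 1, [(0,2),(1,3),(2,4),(3,5),(4,5),(3,6),(4,7),(6,9),(7,9),(5,8),(9,8),(6,10),(7,10),(8,10)]⟩,
   ⟨T1.con, 1, 0, [(1,3),(0,2),(3,5),(2,4),(5,4),(3,6),(5,8),(6,9),(8,9),(4,7),(9,7),(6,10),(8,10),(7,10)]⟩,
   ⟨T1.con, 1, 3, [(1,0),(3,5),(3,6),(0,2),(5,4),(2,4),(5,8),(6,9),(8,9),(6,10),(8,10),(4,7),(9,7),(10,7)]⟩,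
   ⟨T1.con, 3, 1, [(3,5),(3,6),(1,0),(5,4),(0,2),(4,2),(5,8),(6,9),(8,9),(6,10),(8,10),(4,7),(9,7),(10,7)]⟩,
   ⟨T1.con, 3, 5, [(3,1),(3,6),(5,4),(5,8),(6,9),(8,9),(6,10),(8,10),(4,7),(9,7),(10,7),(1,0),(4,2),(0,2)]⟩,
   ⟨T1.con, 5, 3, [(5,4),(5,8),(3,1),(3,6),(8,9),(6,9),(4,7),(9,7),(8,10),(6,10),(7,10),(4,2),(1,0),(2,0)]⟩,
   ⟨T1.con, 3, 6, [(3,1),(3,5),(6,9),(5,8),(9,8),(6,10),(8,10),(9,7),(10,7),(5,4),(7,4),(1,0),(4,2),(0,2)]⟩,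
   ⟨T1.con, 6, 3, [(6,9),(6,10),(9,7),(10,7),(9,8),(10,8),(3,5),(8,5),(7,4),(5,4),(3,1),(4,2),(1,0),(2,0)]⟩,
   ⟨T1.con, 5, 8, [(5,3),(5,4),(8,9),(3,6),(9,6),(8,10),(6,10),(4,7),(9,7),(10,7),(3,1),(4,2),(1,0),(2,0)]⟩,
   ⟨T1.con, 8, 5, [(8,9),(8,10),(9,6),(10,6),(5,3),(6,3),(9,7),(10,7),(5,4),(7,4),(3,1),(4,2),(1,0),(2,0)]⟩,
   ⟨T1.con, 6, 9, [(6,3),(6,10),(9,7),(10,7),(9,8),(10,8),(3,5),(8,5),(7,4),(5,4),(3,1),(4,2),(1,0),(2,0)]⟩,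
   ⟨T1.con, 9, 6, [(9,7),(6,10),(7,10),(9,8),(10,8),(6,3),(8,5),(3,5),(7,4),(5,4),(3,1),(4,2),(1,0),(2,0)]⟩,
   ⟨T1.con, 8, 9, [(8,5),(8,10),(9,6),(10,6),(9,7),(10,7),(5,3),(6,3),(5,4),(7,4),(3,1),(4,2),(1,0),(2,0)]⟩,
   ⟨T1.con, 9, 8, [(9,6),(8,10),(6,10),(9,7),(10,7),(8,5),(6,3),(5,3),(7,4),(5,4),(3,1),(4,2),(1,0),(2,0)]⟩]
def jPP : List RP :=
  [⟨PP.con, 0, 1, [(0,2),(1,3),(2,5),(3,5),(1,4),(5,4),(3,6),(4,6),(2,7),(6,7)]⟩,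
   ⟨PP.con, 1, 0, [(1,3),(1,4),(3,5),(4,5),(0,2),(5,2),(3,6),(4,6),(2,7),(6,7)]⟩,
   ⟨PP.con, 0, 2, [(0,1),(2,5),(1,3),(5,3),(1,4),(5,4),(3,6),(4,6),(2,7),(6,7)]⟩,
   ⟨PP.con, 2, 0, [(2,5),(2,7),(0,1),(5,3),(1,3),(5,4),(1,4),(7,6),(3,6),(4,6)]⟩,
   ⟨PP.con, 1, 3, [(1,0),(1,4),(3,5),(4,5),(3,6),(4,6),(0,2),(5,2),(6,7),(2,7)]⟩,
   ⟨PP.con, 3, 1, [(3,5),(1,4),(5,4),(3,6),(4,6),(1,0),(5,2),(0,2),(6,7),(2,7)]⟩,
   ⟨PP.con, 2, 5, [(2,0),(2,7),(5,3),(0,1),(3,1),(5,4),(1,4),(7,6),(3,6),(4,6)]⟩,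
   ⟨PP.con, 5, 2, [(5,3),(5,4),(3,1),(4,1),(2,0),(1,0),(3,6),(4,6),(2,7),(6,7)]⟩,
   ⟨PP.con, 3, 5, [(3,1),(5,4),(1,4),(3,6),(4,6),(5,2),(1,0),(2,0),(6,7),(2,7)]⟩,
   ⟨PP.con, 5, 3, [(5,2),(5,4),(3,1),(4,1),(3,6),(4,6),(2,0),(1,0),(2,7),(6,7)]⟩]
def hH4 : List RP :=
  [⟨H4.con, 0, 0, [(0,1),(0,2),(1,3),(2,3)]⟩]
def hH7 : List RP :=
  [⟨H7.con, 0, 0, [(0,1),(0,2),(1,3),(2,3),(1,4),(2,4),(3,5),(4,6),(5,6)]⟩,
   ⟨H7.con, 1, 0, [(1,0),(1,3),(0,2),(3,2),(1,4),(2,4),(3,5),(4,6),(5,6)]⟩,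
   ⟨H7.con, 3, 0, [(3,1),(3,2),(1,0),(2,0),(1,4),(2,4),(3,5),(4,6),(5,6)]⟩,
   ⟨H7.con, 5, 0, [(5,3),(5,6),(3,1),(6,4),(1,4),(3,2),(4,2),(1,0),(2,0)]⟩]
def hH10 : List RP :=
  [⟨H10.con, 0, 0, [(0,1),(0,2),(1,3),(2,3),(1,4),(2,4),(3,5),(4,6),(5,7),(6,7),(5,8),(6,8),(7,9),(8,9)]⟩,
   ⟨H10.con, 1, 0, [(1,0),(1,3),(0,2),(3,2),(1,4),(2,4),(3,5),(4,6),(5,7),(6,7),(5,8),(6,8),(7,9),(8,9)]⟩,
   ⟨H10.con, 3, 0, [(3,1),(3,2),(1,0),(2,0),(1,4),(2,4),(3,5),(4,6),(5,7),(6,7),(5,8),(6,8),(7,9),(8,9)]⟩]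

/-- the known edges of `C` contain a copy of `P` along the map `mp` -/
def kembV (C : Cfg) (con : List ℕ) (mp : ℕ) (k : ℕ) : ℕ → Bool :=
  Nat.rec (fun _ => true)
    (fun q ih used => Nat.ble 1 (gm mp q) && Nat.ble (gm mp q) C.n &&
      !(tb used (Nat.pred (gm mp q))) &&
      (Nat.beq (con.getD q 0) 0 ||
        (Nat.beq (con.getD q 0) 2 && tb C.d2 (Nat.pred (gm mp q)) &&
          !(tb C.d1 (Nat.pred (gm mp q)))) ||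
        (Nat.beq (con.getD q 0) 3 && !(tb (Nat.lor C.d1 C.d2) (Nat.pred (gm mp q))))) &&
      ih (Nat.lor used (bit (Nat.pred (gm mp q))))) k
def kemb (C : Cfg) (P : Pat) (mp : ℕ) : Bool :=
  allL (fun e => tb (row C.A (Nat.pred (gm mp e.1))) (Nat.pred (gm mp e.2))) P.E &&
    kembV C P.con mp P.k 0

def badB : Blob := ⟨0, 0, 0, 0, 0, 0, 0⟩
def gb (C : Cfg) (l : ℕ) : Blob := C.bl.getD l badB
def gf (C : Cfg) (i : ℕ) : PF := C.pf.getD i ⟨0, 0, 0, 0, 0, 0⟩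
def setBl (C : Cfg) (bl : List Blob) : Cfg :=
  ⟨C.n, C.A, C.d1, C.d2, C.ms, C.r1, C.r2, C.r3, C.kc, C.ht, bl, C.nc, C.pf, C.jv⟩
def setB (C : Cfg) (l : ℕ) (b : Blob) : Cfg := setBl C (C.bl.set l b)
def setLo (b : Blob) (x : ℕ) : Blob := ⟨b.R, b.In, b.Out, b.a, x, b.hi, b.J⟩
def setHi (b : Blob) (x : ℕ) : Blob := ⟨b.R, b.In, b.Out, b.a, b.lo, x, b.J⟩
def hasJV (C : Cfg) (R J : ℕ) : Bool := anyL (fun x => Nat.beq x.R R && Nat.beq x.J J) C.jv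
/-- there are no joins and the graph has none of the patterns `Pa`, `Pb`, `Pe` -/
def kfree (Γ : Gam) (J : ℕ) : Bool := Nat.beq J NOJ && Γ.nok

/-! the rules: `none` is a failed check, `some l` says that one member of `l` occurs -/

def chk (b : Bool) (l : List Cfg) : Option (List Cfg) := cond b (some l) none

def rRev (Γ : Gam) (C : Cfg) (v : ℕ) : Option (List Cfg) :=
  chk (tb C.r1 v && Nat.ble C.n 61)
    (loopB (fun z r => keep (addEdge C v z) r) 64 (dif C.r1 (Nat.lor (row C.A v) (bit v)))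
      (List.rec [] (fun τ _ r => cond (tyOK Γ.ty τ.1 τ.2)
        (keep (addEdge (newV C τ.1 τ.2) v C.n) r) r) types))

def addNC (C : Cfg) (R m : ℕ) : Cfg :=
  ⟨C.n, C.A, C.d1, C.d2, C.ms, C.r1, C.r2, C.r3, C.kc, C.ht, C.bl, (R, m) :: C.nc, C.pf, C.jv⟩

def rNC' (Γ : Gam) (C : Cfg) (R v m0 l2 : ℕ) : Option (List Cfg) :=
  chk (sub R (ones C.n) && tb m0 v && tb l2 v && Nat.ble C.n 47)
    (addNC C R (bit v) ::
      dd (pe1 Γ.ty NOJ C v m0 m0 (dif m0 l2) (cond Γ.nop [rT0] [rT0, rT3, rT1]) []))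
def rNC (Γ : Gam) (C : Cfg) (R v : ℕ) : Option (List Cfg) :=
  rNC' Γ C R v (dif (ones C.n) R) (low2 C (nb3 C.A R))

def rNF' (Γ : Gam) (C : Cfg) (R v m0 l2 : ℕ) : Option (List Cfg) :=
  chk (sub R (ones C.n) && tb m0 v && tb l2 v && Nat.ble C.n 47)
    (addNC C R (bit v) ::
      dd (pe1 Γ.ty NOJ C v m0 m0 (dif m0 l2)
        (cond Γ.nop [rTa, rTb, rTe] [rTa, rTb, rTe, rT3, rT1]) []))
def rNF (Γ : Gam) (C : Cfg) (R v : ℕ) : Option (List Cfg) :=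
  rNF' Γ C R v (dif (ones C.n) R) (low2 C (nb3 C.A R))

def rNQ' (Γ : Gam) (C : Cfg) (R m lw : ℕ) : Option (List Cfg) :=
  chk (Γ.nop && sub R (ones C.n) && sub m lw && sub m (nb C.A lw)) [addNC C R m]
def rNQ (Γ : Gam) (C : Cfg) (R m : ℕ) : Option (List Cfg) :=
  rNQ' Γ C R m (Nat.land (dif (ones C.n) R) (low2 C (nb3 C.A R)))

/-- every vertex of `Z` with unknown edges is in `Dd` or in one of the blobs `dl`, and these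
blobs cannot be reached from the vertices of `s` outside `Z` -/
def ctxOK (C : Cfg) (Z Dd : ℕ) (dl : List ℕ) (s : ℕ) : Bool :=
  sub (Nat.land Z C.r1) (Nat.lor Dd (orL (fun l => (gb C l).In) dl)) &&
    allL (fun l => Nat.beq (gb C l).J NOJ && sub s (gb C l).Out &&
      sub (nb C.A (dif (gb C l).R Z)) (Nat.lor (gb C l).Out Z)) dl

def joinE (C : Cfg) (a b : ℕ) (acc : List Cfg) : List Cfg :=
  cond (tb C.r1 a && tb C.r1 b) (keep (addEdge C a b) acc) acc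
def addJV (C : Cfg) (x : JV) : Cfg :=
  ⟨C.n, C.A, C.d1, C.d2, C.ms, C.r1, C.r2, C.r3, C.kc, C.ht, C.bl, C.nc, C.pf, x :: C.jv⟩

def jvTab (Γ : Gam) : List RP := appL jA (appL jB (appL jE (cond Γ.nop jPP (appL jT3 jT1))))
def rJV2 (Γ : Gam) (C : Cfg) (J m0 m2 m3 : ℕ) : List Cfg :=
  joinE C (ja0 J) (jb0 J) (joinE C (ja1 J) (jb1 J)
    (dd (pe2 Γ.ty J C (ja0 J) (jb0 J) m0 m2 m3 (jvTab Γ)
      (pe2 Γ.ty J C (ja1 J) (jb1 J) m0 m2 m3 (jvTab Γ) []))))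
def rJV1 (Γ : Gam) (C : Cfg) (R J : ℕ) (dl : List ℕ) (t j x m0 : ℕ) : Option (List Cfg) :=
  chk (sub R (ones C.n) && jwf C.n J && Nat.ble C.n 47 && sub j (Nat.land m0 (row t 0)) &&
      sub (Nat.shiftRight x 64) (row t 1) &&
      !(tb (row C.A (ja0 J)) (jb0 J)) && !(tb (row C.A (ja1 J)) (jb1 J)) && ctxOK C R 0 dl j)
    (addJV C ⟨R, J, 0⟩ ::
      rJV2 Γ C J m0 (Nat.land m0 (dif (e2 C t x) (e1 C t x))) (dif m0 (e2 C t x)))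
def rJV (Γ : Gam) (C : Cfg) (R J : ℕ) (dl : List ℕ) : Option (List Cfg) :=
  rJV1 Γ C R J dl (nb3 C.A R) (jm J (ones C.n)) (jx J (ones C.n)) (dif (ones C.n) R)

def addPF (C : Cfg) (x : PF) : Cfg :=
  ⟨C.n, C.A, C.d1, C.d2, C.ms, C.r1, C.r2, C.r3, C.kc, C.ht, C.bl, C.nc, x :: C.pf, C.jv⟩
def rBlob (C : Cfg) (x : PF) (dl : List ℕ) : Option (List Cfg) :=
  chk (sub x.R (ones C.n) && !(Nat.beq x.R 0) && sub x.Dd x.R && sub x.P0 (ones C.n) &&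
      tb (dif (ones C.n) x.R) x.p && (Nat.beq x.J NOJ || hasJV C x.R x.J) &&
      ctxOK C x.R x.Dd dl (Nat.lor (bit x.p) (jm x.J (ones C.n))))
    (addPF C x :: keep (setBl C (appL C.bl [growOut C.A (ones C.n)
      (growIn C.A (ones C.n) ⟨x.R, 0, x.R, x.p, x.th, 104, x.J⟩ (bit x.p))
      (Nat.lor x.P0 C.ms)])) [])

def rWin (C : Cfg) (l th : ℕ) : Option (List Cfg) :=
  chk (okI C.bl l && Nat.ble 1 th) [setB C l (setLo (gb C l) th), setB C l (setHi (gb C l) th)]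

def rLab (C : Cfg) (l v : ℕ) : Option (List Cfg) :=
  chk (okI C.bl l && tb (unkB (ones C.n) (gb C l)) v)
    [setB C l (growIn C.A (ones C.n) (gb C l) (bit v)),
      setB C l (growOut C.A (ones C.n) (gb C l) (bit v))]

def rXL' (C : Cfg) (m : ℕ) (a b : Blob) : Option (List Cfg) :=
  chk (Nat.beq a.J NOJ && okI C.bl m && sub b.R a.Out && !(dj a.In (Nat.lor b.In b.Out)))
    (keep (setB C m (cond (dj a.In b.In) (growOut C.A (ones C.n) b a.In)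
      (growIn C.A (ones C.n) b a.In))) [])
def rXL (C : Cfg) (l m : ℕ) : Option (List Cfg) := rXL' C m (gb C l) (gb C m)

def rPFL' (C : Cfg) (l : ℕ) (b : Blob) (x : PF) : Option (List Cfg) :=
  cond (Nat.beq x.R b.R && Nat.beq x.J b.J && sub x.P0 b.Out && sub (nb C.A x.Dd) b.Out)
    (cond (Nat.ble x.th b.lo) (some (keep (setB C l (growOut C.A (ones C.n) b (bit x.p))) []))
      (chk (tb b.In x.p) [setB C l (setHi b x.th)])) none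
def rPFL (C : Cfg) (l i : ℕ) : Option (List Cfg) :=
  cond (okI C.bl l && okI C.pf i) (rPFL' C l (gb C l) (gf C i)) none

def rTight2 (Γ : Gam) (C : Cfg) (l : ℕ) (b : Blob) (t j : ℕ) : Option (List Cfg) :=
  chk (okI C.bl l && (!(dj b.In (e1 C t j)) || Nat.ble 11 (pop b.In) ||
      (kfree Γ b.J && !(sub b.In (e2 C t j)))))
    [setB C l (setHi b 102)]
def rT2 (Γ : Gam) (C : Cfg) (l : ℕ) : Option (List Cfg) :=
  rTight2 Γ C l (gb C l) (nb3 C.A (gb C l).R) (jx (gb C l).J (ones C.n))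

def rTight0 (Γ : Gam) (C : Cfg) (l : ℕ) (b : Blob) (t u : ℕ) : Option (List Cfg) :=
  chk (Nat.beq b.J NOJ && Nat.ble 2 Γ.j0 && Γ.noleaf && Nat.ble (cnt3 t u) Γ.j0 &&
      dj u (low1 C t))
    [setB C l (setHi b 100)]
def rT0' (Γ : Gam) (C : Cfg) (l : ℕ) : Option (List Cfg) :=
  rTight0 Γ C l (gb C l) (nb3 C.A (gb C l).R) (dif (ones C.n) (gb C l).Out)

def rDead (C : Cfg) (l : ℕ) : Option (List Cfg) :=
  chk (okI C.bl l && Nat.ble 1 (gb C l).lo && Nat.ble (gb C l).hi (gb C l).lo) []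

def rDrop (C : Cfg) (l : ℕ) : Option (List Cfg) := some [setBl C (C.bl.eraseIdx l)]

def rHC' (Γ : Gam) (C : Cfg) (l v : ℕ) (b : Blob) (t j m0 : ℕ) : Option (List Cfg) :=
  chk (okI C.bl l && Nat.ble 102 b.lo && tb b.In v && Nat.ble C.n 47)
    (dd (mapL (fun D => setBl D (D.bl.eraseIdx l))
      (pe1 Γ.ty b.J C v m0 (Nat.land m0 (dif (e2 C t j) (e1 C t j))) (dif m0 (e2 C t j))
        (cond (kfree Γ b.J) hH4 (appL hH4 (appL hH7 hH10))) [])))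
def rHC (Γ : Gam) (C : Cfg) (l v : ℕ) : Option (List Cfg) :=
  rHC' Γ C l v (gb C l) (nb3 C.A (gb C l).R) (jx (gb C l).J (ones C.n))
    (dif (ones C.n) (gb C l).R)

def rKC (C : Cfg) (i mp : ℕ) : Option (List Cfg) :=
  chk (kemb C ([Ta, Tb, Te, T3].getD i T1) mp)
    [⟨C.n, C.A, C.d1, C.d2, C.ms, C.r1, C.r2, C.r3, Nat.lor C.kc (bit (Nat.pred (gm mp 0))), C.ht,
      C.bl, C.nc, C.pf, C.jv⟩]

def rHT (C : Cfg) (i mp : ℕ) : Option (List Cfg) :=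
  chk (Nat.beq C.r1 0 && Nat.beq C.ms 0 && Nat.beq C.n ([H4, H7].getD i H10).k &&
      kemb C ([H4, H7].getD i H10) mp)
    [⟨C.n, C.A, C.d1, C.d2, C.ms, C.r1, C.r2, C.r3, C.kc, 1, C.bl, C.nc, C.pf, C.jv⟩]

noncomputable def rCite (Γ : Gam) (C : Cfg) (i mp : ℕ) : Option (List Cfg) := chk (kemb C (Γ.pats.get i) mp) []

def rCub (C : Cfg) : Option (List Cfg) :=
  chk (Nat.beq C.r1 0 && Nat.beq C.d1 0 && Nat.beq C.d2 0 && Nat.ble 1 C.n) []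

def rBr0 (Γ : Gam) (C : Cfg) (Y : ℕ) : Option (List Cfg) :=
  chk (Nat.ble 1 Γ.j0 && sub Y (ones C.n) && dj Y C.r1 && !(Nat.beq Y 0) &&
      !(Nat.beq Y (ones C.n)) && Nat.ble (cnt3 (nb3 C.A Y) (dif (ones C.n) Y)) 1) []

def rBr1' (Γ : Gam) (C : Cfg) (Y : ℕ) (b : Blob) : Option (List Cfg) :=
  chk (Nat.ble 1 Γ.j0 && Nat.beq b.J NOJ && sub Y (ones C.n) && dj Y C.r1 && !(sub b.Out Y) &&
      Nat.ble (Nat.add (cnt3 (nb3 C.A Y) (dif (ones C.n) (Nat.lor Y b.In)))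
        (cnt3 (nb3 C.A (dif b.R Y)) (dif (ones C.n) (Nat.lor Y b.Out)))) 1) []
def rBr1 (Γ : Gam) (C : Cfg) (Y l : ℕ) : Option (List Cfg) := rBr1' Γ C Y (gb C l)

def rExt (ext : List Cfg) (C : Cfg) (i : ℕ) : Option (List Cfg) :=
  chk (okI ext i && ceq C (ext.getD i empty)) []

end Pool.Agent.Lib.MP_5a2675_co.D7
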