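import Mathlib
import Pool.Agent.Lib.MP_5a2675_co.D7.Chk

set_option autoImplicit false

namespace Pool.Agent.Lib.MP_5a2675_co.D7

/-! enumeration in which the edges at the pattern vertices in `xs` are no join edges -/

def ej (J xs : ℕ) (e : ℕ × ℕ) : ℕ := cond (tb xs e.1 || tb xs e.2) NOJ J

def pex (ty J xs : ℕ) (con : List ℕ) (es : List (ℕ × ℕ)) : PK' :=
  List.rec (fun C _ _ _ _ _ acc => C :: acc)
    (fun e _ ih C mp used m0 m2 m3 acc =>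
      cond (Nat.beq (gm mp e.2) 0)
        (peNew ty (con.getD e.2 0) ih C (Nat.pred (gm mp e.1)) e.2
          (dif (sel (con.getD e.2 0) m0 m2 m3) used) (adjJ C.A (ej J xs e) (Nat.pred (gm mp e.1)))
          mp used m0 m2 m3 acc)
        (peOld (ej J xs e) ih C (Nat.pred (gm mp e.1)) (Nat.pred (gm mp e.2)) mp used m0 m2 m3 acc))
    es

def pe2x (ty J xs : ℕ) (C : Cfg) (a b m0 m2 m3 : ℕ) (l : List RP) (acc : List Cfg) : List Cfg :=
  List.rec acc (fun Q _ r =>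
    cond (tb (sel (Q.con.getD Q.p 0) m0 m2 m3) a && tb (sel (Q.con.getD Q.q 0) m0 m2 m3) b)
      (pex ty J xs Q.con Q.es C (sm (sm 0 Q.p a) Q.q b) (Nat.lor (bit a) (bit b)) m0 m2 m3 r) r) l

/-- the entries whose anchors are outside `xs` -/
def offX (xs : ℕ) (l : List RP) : List RP :=
  List.rec [] (fun Q _ r => cond (tb xs Q.p || tb xs Q.q) r (Q :: r)) l

def jvx1 (Γ : Gam) (C : Cfg) (J a b m0 m2 m3 : ℕ) (acc : List Cfg) : List Cfg :=
  pe2 Γ.ty J C a b m0 m2 m3 jK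
    (pe2x Γ.ty J 6 C a b m0 m2 m3 (offX 6 (appL jA (appL jB jE)))
      (cond Γ.nop (pe2x Γ.ty J 24 C a b m0 m2 m3 (offX 24 jPP) acc)
        (pe2x Γ.ty J 24 C a b m0 m2 m3 (offX 24 jT3)
          (pe2x Γ.ty J 1536 C a b m0 m2 m3 (offX 1536 jT1) acc))))
def rJVx2 (Γ : Gam) (C : Cfg) (J m0 m2 m3 : ℕ) : List Cfg :=
  joinE C (ja0 J) (jb0 J) (joinE C (ja1 J) (jb1 J)
    (dd (jvx1 Γ C J (ja0 J) (jb0 J) m0 m2 m3 (jvx1 Γ C J (ja1 J) (jb1 J) m0 m2 m3 []))))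
def rJVx1 (Γ : Gam) (C : Cfg) (R J : ℕ) (dl : List ℕ) (t j x m0 : ℕ) : Option (List Cfg) :=
  chk (sub R (ones C.n) && jwf C.n J && Nat.ble C.n 47 && sub j (Nat.land m0 (row t 0)) &&
      sub (Nat.shiftRight x 64) (row t 1) &&
      !(tb (row C.A (ja0 J)) (jb0 J)) && !(tb (row C.A (ja1 J)) (jb1 J)) && ctxOK C R 0 dl j)
    (addJV C ⟨R, J, 0⟩ ::
      rJVx2 Γ C J m0 (Nat.land m0 (dif (e2 C t x) (e1 C t x))) (dif m0 (e2 C t x)))
/-- first the copies of `PK` through a join edge, then the larger patterns around a copy of `PK`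
without join edges -/
def rJVx (Γ : Gam) (C : Cfg) (R J : ℕ) (dl : List ℕ) : Option (List Cfg) :=
  rJVx1 Γ C R J dl (nb3 C.A R) (jm J (ones C.n)) (jx J (ones C.n)) (dif (ones C.n) R)

/-- at most one edge leaves the blob minus `Y` plus `W` -/
def rBr2' (Γ : Gam) (C : Cfg) (Y W : ℕ) (b : Blob) : Option (List Cfg) :=
  chk (Nat.ble 1 Γ.j0 && Nat.beq b.J NOJ && sub (Nat.lor Y W) (ones C.n) &&
      dj (Nat.lor Y W) C.r1 && !(sub b.Out W) && !(Nat.beq W 0 && sub b.In Y) &&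
      Nat.ble (Nat.add (cnt3 (nb3 C.A W) (dif (ones C.n) (Nat.lor W (dif b.In Y))))
        (cnt3 (nb3 C.A (dif (Nat.lor b.R Y) W))
          (dif (ones C.n) (Nat.lor (Nat.lor W Y) b.Out)))) 1) []
def rBr2 (Γ : Gam) (C : Cfg) (Y W l : ℕ) : Option (List Cfg) := rBr2' Γ C Y W (gb C l)

/-! renumbering of the vertices -/

def sg (mp i : ℕ) : ℕ := Nat.land (Nat.shiftRight mp (Nat.mul 6 i)) 63
def mapM (mp m : ℕ) : ℕ := loopB (fun i a => Nat.lor a (bit (sg mp i))) 64 m 0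
def mapA (mp A all : ℕ) : ℕ :=
  loopB (fun i a => Nat.lor a (Nat.shiftLeft (mapM mp (row A i)) (Nat.shiftLeft (sg mp i) 6)))
    64 all 0
def sgJ (mp x : ℕ) : ℕ := cond (Nat.beq x 63) 63 (sg mp x)
def cdJ (a b c d : ℕ) : ℕ :=
  Nat.lor (Nat.lor a (Nat.shiftLeft b 6)) (Nat.lor (Nat.shiftLeft c 12) (Nat.shiftLeft d 18))
def srtJ2 (a b c d : ℕ) : ℕ := cond (Nat.ble a c) (cdJ a b c d) (cdJ c d a b)
def srtJ1 (a b c d : ℕ) : ℕ := cond (Nat.ble c d) (srtJ2 a b c d) (srtJ2 a b d c)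
def srtJ (a b c d : ℕ) : ℕ := cond (Nat.ble a b) (srtJ1 a b c d) (srtJ1 b a c d)
def mapJ (mp J : ℕ) : ℕ :=
  cond (Nat.beq J NOJ) NOJ
    (srtJ (sgJ mp (ja0 J)) (sgJ mp (jb0 J)) (sgJ mp (ja1 J)) (sgJ mp (jb1 J)))
def relab (C : Cfg) (mp : ℕ) : Cfg :=
  ⟨C.n, mapA mp C.A (ones C.n), mapM mp C.d1, mapM mp C.d2, mapM mp C.ms, mapM mp C.r1,
    mapM mp C.r2, mapM mp C.r3, mapM mp C.kc, C.ht,
    mapL (fun b => ⟨mapM mp b.R, mapM mp b.In, mapM mp b.Out, sg mp b.a, b.lo, b.hi, mapJ mp b.J⟩)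
      C.bl,
    mapL (fun x => (mapM mp x.1, mapM mp x.2)) C.nc,
    mapL (fun x => ⟨mapM mp x.R, mapM mp x.Dd, mapM mp x.P0, mapJ mp x.J, sg mp x.p, x.th⟩) C.pf,
    mapL (fun x => ⟨mapM mp x.R, mapJ mp x.J, x.k⟩) C.jv⟩

def bsub (e d : Blob) : Bool :=
  Nat.beq e.R d.R && Nat.beq e.J d.J && sub e.In d.In && sub e.Out d.Out && tb e.In e.a &&
    sub e.R e.Out && Nat.ble e.lo d.lo && Nat.ble d.hi e.hi
def ncm' (C : Cfg) (al : ℕ) : ℕ := orL (fun x => cond (sub x.1 al) x.2 0) C.nc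
/-- `E` has the graph of `D` and states no more than `D` -/
def csub (E D : Cfg) : Bool :=
  Nat.beq E.A D.A && Nat.beq E.n D.n && Nat.beq E.d1 D.d1 && Nat.beq E.d2 D.d2 &&
    Nat.beq E.ms D.ms && Nat.beq E.r1 D.r1 && Nat.beq E.r2 D.r2 && Nat.beq E.r3 D.r3 &&
    sub E.kc D.kc && Nat.ble E.ht D.ht && Nat.ble D.ht 1 &&
    allL (fun e => anyL (bsub e) D.bl) E.bl &&
    allL (fun x => sub x.1 (ones D.n) && sub x.2 (ncm' D x.1)) E.nc &&
    allL (fun x => anyL (beqF x) D.pf) E.pf && allL (fun x => anyL (beqJ x) D.jv) E.jv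
def rIso (ext : List Cfg) (C : Cfg) (i mp : ℕ) : Option (List Cfg) :=
  chk (okI ext i && Nat.beq (mapM mp (ones C.n)) (ones C.n) &&
    csub (ext.getD i empty) (relab C mp)) []
def rSub (ext : List Cfg) (C : Cfg) (i : ℕ) : Option (List Cfg) :=
  chk (okI ext i && csub (ext.getD i empty) C) []

end Pool.Agent.Lib.MP_5a2675_co.D7
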