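import Mathlib
import Pool.Agent.Lib.MP_5a2675_co.D7.Chk3

set_option autoImplicit false

namespace Pool.Agent.Lib.MP_5a2675_co.D7

/-! the reduction rule -/

def sc1 (a b : ℕ) : List (ℕ × ℕ) :=
  cond (Nat.beq a 63) [(0, 0)] [(0, 0), (bit a, bit b), (bit b, bit a)]
/-- scenarios for the joins: (ends that lie in the dominating set, ends that lose their dominator) -/
def scen (J : ℕ) : List (ℕ × ℕ) :=
  List.rec [] (fun x _ r => appL (mapL (fun y => (Nat.lor x.1 y.1, Nat.lor x.2 y.2))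
    (sc1 (ja1 J) (jb1 J))) r) (sc1 (ja0 J) (jb0 J))

def cdT (C : Cfg) (k Dd req D dm : ℕ) : ℕ :=
  cond (Nat.ble (pop D) k && sub D (ones C.n) && sub req dm && sub Dd D)
    (Nat.lor dm (bit 63)) 0
def cdS (C : Cfg) (k Dd req D h : ℕ) : ℕ := cdT C k Dd req D (Nat.lor h (nb C.A h))
/-- the vertices dominated in every scenario; bit 63 is set iff all covers are in order -/
def cdL (C : Cfg) (k Dd : ℕ) (s : List (ℕ × ℕ)) : List ℕ → ℕ :=
  List.rec (fun _ => 18446744073709551615)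
    (fun x _ ih Ds => List.rec 0
      (fun D r _ => Nat.land (cdS C k Dd x.2 D (Nat.lor D x.1)) (ih r)) Ds) s

def disj1 (A : ℕ) (a b : Blob) : Bool :=
  tb b.Out a.a && sub (nb A (dif b.R a.Out)) (Nat.lor b.Out a.Out)
def disj (A : ℕ) (a b : Blob) : Bool := disj1 A a b || disj1 A b a
def pairD (A : ℕ) (l : List (Blob × ℕ)) : Bool :=
  List.rec true (fun x r ih => allL (fun y => disj A x.1 y.1) r && ih) l

def w0s (T E0 E1 E2 : ℕ) : ℕ :=
  Nat.add (Nat.add (Nat.mul 7 (pop T)) (Nat.mul 2 (pop (Nat.land T E2))))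
    (Nat.add (Nat.mul 4 (pop (Nat.land T E1))) (Nat.mul 7 (pop (Nat.land T E0))))
def w1s (V E0 E1 : ℕ) : ℕ := Nat.add (pop (dif V E1)) (Nat.mul 7 (pop (dif V E0)))
def gw' (C : Cfg) (U V : ℕ) : ℕ :=
  Nat.add (Nat.add (w0s U 0 C.d1 (Nat.lor C.d1 C.d2)) (pop (Nat.land U C.kc))) (w1s V 0 C.d1)
/-- a lower bound for the weight of the vertices in `T` -/
def gw (C : Cfg) (T : ℕ) : ℕ := gw' C (dif T C.ms) (Nat.land T C.ms)
def ncm (C : Cfg) (al : ℕ) : ℕ := orL (fun x => cond (sub x.1 al) x.2 0) C.nc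

def forceOK (C : Cfg) (b : Blob) (x t : ℕ) : Bool :=
  tb b.In x && Nat.ble 1 b.lo &&
    Nat.ble 100 (Nat.add b.lo (cond (tb (low0 C t) x) 20 (cond (tb (low1 C t) x) 12
      (cond (tb (low2 C t) x) 7 4))))
def delOK (C : Cfg) (R K j : ℕ) (x : Blob × ℕ) : Bool :=
  Nat.beq x.1.J NOJ && sub (Nat.lor R j) x.1.Out &&
    sub (nb C.A x.1.In) (Nat.lor x.1.In x.1.R) &&
    dj (nb C.A (Nat.land x.1.R K)) (dif K x.1.Out) &&
    (Nat.beq x.2 0 || forceOK C x.1 (Nat.pred x.2) (nb3 C.A x.1.R))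
def helped (lo H E0 E1 : ℕ) : Bool :=
  Nat.ble 1 lo && !(Nat.beq H 0) &&
    Nat.ble 100 (Nat.add (Nat.add lo (pop H))
      (Nat.add (Nat.mul 5 (pop (Nat.land H E1))) (Nat.mul 14 (pop (Nat.land H E0)))))
def bcost' (Γ : Gam) (C : Cfg) (CP : ℕ) (x : Blob × ℕ) (T E0 E1 E2 : ℕ) : ℕ :=
  Nat.add (Nat.add x.1.hi (w0s T E0 E1 E2))
    (Nat.add (cond Γ.nok 0 (pop (dif (Nat.land T E2) (Nat.lor E1 (ncm C x.1.R)))))
      (cond (Nat.beq x.2 0 && helped x.1.lo (Nat.land (Nat.land x.1.In CP) E2) E0 E1) 0 20))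
def bcost (Γ : Gam) (C : Cfg) (CP : ℕ) (x : Blob × ℕ) (t : ℕ) : ℕ :=
  bcost' Γ C CP x (Nat.land x.1.In (row t 0)) (low0 C t) (low1 C t) (low2 C t)
def bgain (C : Cfg) (x : Blob × ℕ) : ℕ :=
  Nat.add 120 (gw C (Nat.land x.1.In (nb C.A x.1.R)))

def mgPF (Γ : Gam) (x : PF) (Z F a b : ℕ) : Bool :=
  Γ.nomark && Nat.beq x.th 0 && Nat.beq x.R Z && Nat.beq x.J NOJ && Nat.beq x.Dd 0 &&
    tb F x.p && !(Nat.beq a 63) && sub x.P0 (Nat.lor Z (Nat.lor (bit a) (bit b)))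
/-- a merge is (0, blob), (1, fact) for the first join or (2, fact) for the second join -/
def mgOK (Γ : Gam) (C : Cfg) (dl : List (Blob × ℕ)) (J Z F : ℕ) (g : ℕ × ℕ) : Bool :=
  cond (Nat.beq g.1 0)
    (Nat.beq (gb C g.2).J NOJ && sub Z (gb C g.2).Out &&
      allL (fun y => disj C.A (gb C g.2) y.1) dl)
    (okI C.pf g.2 && cond (Nat.beq g.1 1) (mgPF Γ (gf C g.2) Z F (ja0 J) (jb0 J))
      (mgPF Γ (gf C g.2) Z F (ja1 J) (jb1 J)))
def mgM (C : Cfg) (J : ℕ) (g : ℕ × ℕ) : ℕ :=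
  cond (Nat.beq g.1 0) (gb C g.2).In
    (Nat.lor (bit (gf C g.2).p) (bit (cond (Nat.beq g.1 1) (ja0 J) (ja1 J))))
def adjX (A J : ℕ) (gs : List ℕ) (i : ℕ) : ℕ :=
  Nat.lor (adjJ A J i) (orL (fun g => cond (tb g i) g 0) gs)
def pcsS (ih : ℕ → List ℕ) (left s : ℕ) : List ℕ := s :: ih (dif left s)
def pcsL (adj : ℕ → ℕ) (K : ℕ) (fuel : ℕ) : ℕ → List ℕ :=
  Nat.rec (fun _ => [])
    (fun _ ih left => cond (Nat.beq left 0) []
      (pcsS ih left (clo adj K (bit (Nat.log2 left))))) fuel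
def filL (p : ℕ → Bool) (l : List ℕ) : List ℕ :=
  List.rec [] (fun a _ ih => cond (p a) (a :: ih) ih) l
def cntL (p : ℕ → Bool) (l : List ℕ) : ℕ :=
  List.rec 0 (fun a _ ih => cond (p a) (Nat.succ ih) ih) l

def pfA (J jP pay : ℕ) (x : PF) (P0 : ℕ) : Bool :=
  cond (tb jP x.p) (Nat.beq x.J J && Nat.beq P0 0)
    (sub P0 (Nat.lor jP (cond (tb pay x.p) 0 pay)))
/-- row 0: the piece has value at most 0; row 1: at most 2 -/
def pfZ (C : Cfg) (J Z K Dd safe jP pay : ℕ) (x : PF) : ℕ :=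
  cond (sub x.R Z && (Nat.beq x.J NOJ || Nat.beq x.J J) && tb K x.p &&
      sub (Nat.land (nb C.A (dif Z x.R)) K) safe &&
      pfA J jP pay x (dif (Nat.lor x.P0 (nb C.A (dif x.Dd Dd))) (Nat.lor Z safe)))
    (Nat.lor (cond (Nat.ble x.th 100) (bit x.p) 0)
      (cond (Nat.ble x.th 102) (bit (Nat.add x.p 64)) 0)) 0
def pfW (Z F E2 : ℕ) (x : PF) : ℕ :=
  cond (Nat.beq x.th 0 && Nat.beq x.R Z && Nat.beq x.J NOJ && Nat.beq x.Dd 0 && tb F x.p &&
    sub x.P0 (Nat.lor Z E2)) (bit x.p) 0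
def bnd (kf : Bool) (z0 z2 E2 s : ℕ) : ℕ :=
  cond (dj s z0)
    (cond (!(dj s z2) || (kf && !(sub s E2)) || Nat.ble 11 (pop s)) 2 4) 0
def qv (j0 sl L : ℕ) : ℕ :=
  cond (Nat.beq j0 0) 64
    (Nat.div (Nat.add sl (Nat.mul (Nat.pred j0) (mn L (Nat.div sl 2)))) (Nat.succ j0))
def tot3 (b : ℕ → ℕ) (jl nl : List ℕ) (q : ℕ) : ℕ :=
  Nat.add (sumL b jl)
    (Nat.add (Nat.mul 2 (mn (cntL (fun s => Nat.ble 1 (b s)) nl) q))
      (Nat.mul 2 (mn (cntL (fun s => Nat.ble 3 (b s)) nl) q)))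
def tot2 (Γ : Gam) (j t E1 E2 : ℕ) (jl nl : List ℕ) (z : ℕ) : ℕ :=
  tot3 (fun s => bnd (Γ.nok && dj s j) (row z 0) (Nat.lor (row z 1) E1) E2 s) jl nl
    (qv Γ.j0 (cnt3 t (orL id nl)) (cntL (fun s => !(dj s E1)) nl))
/-- the bound for the sum of the values of the components that are left -/
def tot1 (Γ : Gam) (C : Cfg) (J Z K Dd Pay t E1 E2 safe : ℕ) (jl nl : List ℕ) : ℕ :=
  tot2 Γ (jm J (ones C.n)) t E1 E2 jl nl
    (orL (pfZ C J Z K Dd safe (orL id jl) (orL id (filL (fun s => !(dj s Pay)) nl))) C.pf)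
def witOK (Γ : Gam) (C : Cfg) (Z F E2 : ℕ) (jl : List ℕ) : Bool :=
  allL (fun s => !(dj s (Nat.lor E2 (cond Γ.nomark (orL (pfW Z F E2) C.pf) 0)))) jl
/-- only cubic vertices are deleted and the whole frontier lies in one piece -/
def wit3 (C : Cfg) (R J t : ℕ) (dl : List (Blob × ℕ)) (F : ℕ) (jl : List ℕ) : Bool :=
  Nat.beq dl.length 0 && dj R (Nat.lor C.d1 C.d2) && anyL (fun s => sub F s) jl &&
    sub (jd J (ones C.n)) (row t 1)
def freeM (C : Cfg) (Z : ℕ) (dl : List (Blob × ℕ)) : ℕ :=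
  List.rec (ncm C Z)
    (fun x _ ih => Nat.land ih (Nat.lor (Nat.lor x.1.In x.1.Out) (ncm C x.1.R))) dl
/-- the new weight of the frontier; `U` unmarked part, `V` marked part -/
def fcost (Γ : Gam) (C : Cfg) (dl : List (Blob × ℕ)) (Z j U V E0 E1 E2 : ℕ) : ℕ :=
  Nat.add (Nat.add (w0s U E0 E1 E2) (w1s V E0 E1))
    (cond Γ.nok 0 (pop (dif (Nat.land U E2) (Nat.lor (Nat.lor E1 j) (freeM C Z dl)))))
def dang (C : Cfg) (Dd : ℕ) : ℕ :=
  Nat.add (pop Dd) (Nat.add (pop (Nat.land Dd C.r2)) (pop (Nat.land Dd C.r3)))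

def red5 (Γ : Gam) (C : Cfg) (R Pay k J : ℕ) (dl : List (Blob × ℕ))
    (Z K j Dd t F CP mm E0 E1 E2 safe : ℕ) (jl nl : List ℕ) : Bool :=
  (witOK Γ C Z F E2 jl || wit3 C R J t dl F jl) &&
    Nat.ble
      (Nat.add (Nat.add (Nat.mul 20 k) (sumL (fun x => bcost Γ C CP x (nb3 C.A x.1.R)) dl))
        (Nat.add (Nat.add (fcost Γ C dl Z j (dif F mm) (Nat.land F mm) E0 E1 E2) (dang C Dd))
          (tot1 Γ C J Z K Dd Pay t E1 E2 safe jl nl)))
      (Nat.add (Nat.add (gw C (Nat.lor R F)) (sumL (bgain C) dl))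
        (cond (Nat.beq C.ht 1) 4 Γ.tg))
def red4 (Γ : Gam) (C : Cfg) (R Pay k J : ℕ) (dl : List (Blob × ℕ))
    (Z K j x Dd t F CP mm : ℕ) (sl ul : List ℕ) : Bool :=
  red5 Γ C R Pay k J dl Z K j Dd t F CP mm (e0 C t x) (e1 C t x) (e2 C t x) (orL id sl)
    (filL (fun s => !(dj s j)) ul) (filL (fun s => dj s j) ul)
def red3 (Γ : Gam) (C : Cfg) (R Pay k J : ℕ) (dl : List (Blob × ℕ))
    (Z K j Dd t F CP Mk : ℕ) (ps : List ℕ) : Bool :=
  red4 Γ C R Pay k J dl Z K j (jx J (ones C.n)) Dd t F CP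
    (Nat.lor C.ms (dif Mk (orL (fun x => unkB (ones C.n) x.1) dl)))
    (filL (fun s => !(dj s (Nat.lor Mk C.ms))) ps) (filL (fun s => dj s (Nat.lor Mk C.ms)) ps)
def red2 (Γ : Gam) (C : Cfg) (R Pay k J : ℕ) (dl : List (Blob × ℕ)) (mg : List (ℕ × ℕ))
    (Z K j Dd t F CD CP : ℕ) : Bool :=
  tb CD 63 && sub R (Nat.lor C.ms CP) &&
    (Nat.beq J NOJ || (hasJV C Z J && Nat.beq Dd 0 && sub j (dif F C.ms))) &&
    allL (mgOK Γ C dl J Z F) mg &&
    red3 Γ C R Pay k J dl Z K j Dd t F CP (dif (Nat.land CP F) j)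
      (pcsL (adjX C.A J (mapL (mgM C J) mg)) K 64 F)
def preM (A : ℕ) (dl : List (Blob × ℕ)) : ℕ :=
  orL (fun x => cond (Nat.beq x.2 0) 0 (row A (Nat.pred x.2))) dl
def red1 (Γ : Gam) (C : Cfg) (R Pay k J : ℕ) (dl : List (Blob × ℕ)) (mg : List (ℕ × ℕ))
    (Z K j Dd t CD : ℕ) : Bool :=
  !(Nat.beq Z 0) && allL (delOK C R K j) dl && pairD C.A dl &&
    red2 Γ C R Pay k J dl mg Z K j Dd t (Nat.land (row t 0) K) CD (Nat.lor CD (preM C.A dl))
def red0 (Γ : Gam) (C : Cfg) (R Pay k J : ℕ) (dl : List (Blob × ℕ)) (mg : List (ℕ × ℕ))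
    (Ds : List ℕ) (Z Dd : ℕ) : Bool :=
  sub R (ones C.n) &&
    red1 Γ C R Pay k J dl mg Z (dif (ones C.n) Z) (jm J (ones C.n)) Dd (nb3 C.A Z)
      (cdL C k Dd (scen J) Ds)
def redD (Γ : Gam) (C : Cfg) (R Pay k J : ℕ) (dl : List (Blob × ℕ)) (mg : List (ℕ × ℕ))
    (Ds : List ℕ) : Bool :=
  red0 Γ C R Pay k J dl mg Ds (Nat.lor R (orL (fun x => x.1.In) dl)) (Nat.land R C.r1)
/-- delete `R` and the blobs in `dl`, add the joins `J`; `Ds` are the covers of size at most `k` -/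
def rRed (Γ : Gam) (C : Cfg) (R Pay k J : ℕ) (dl mg : List (ℕ × ℕ)) (Ds : List ℕ) :
    Option (List Cfg) :=
  chk (redD Γ C R Pay k J (mapL (fun x => (gb C x.1, x.2)) dl) mg Ds) []

/-! decoding and the main loop -/

def lst (t o w c : ℕ) : List ℕ :=
  Nat.rec [] (fun i ih => fld t (Nat.add o (Nat.mul w i)) w :: ih) c
def spl (w : ℕ) (l : List ℕ) : List (ℕ × ℕ) :=
  mapL (fun x => (Nat.land x (ones w), Nat.shiftRight x w)) l

noncomputable def stepA (Γ : Gam) (ext : List Cfg) (C : Cfg) (i t : ℕ) : Option (List Cfg) :=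
  cond (Nat.ble i 3)
    (cond (Nat.ble i 1)
      (cond (Nat.beq i 0)
        (rRed Γ C (fld t 4 C.n) (Nat.shiftRight t (Nat.add 4 (Nat.mul 2 C.n))) (fld t 0 4) NOJ
          [] [] [fld t (Nat.add 4 C.n) C.n])
        (rCite Γ C (fld t 0 8) (Nat.shiftRight t 8)))
      (cond (Nat.beq i 2) (rRev Γ C t)
        (rRed Γ C (fld t 126 C.n) (fld t (Nat.add 126 C.n) C.n) (fld t 0 4) (fld t 4 24)
          (spl 3 (lst t 38 10 (fld t 28 3))) (spl 2 (lst t 78 8 (fld t 31 3)))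
          (lst t (Nat.add 126 (Nat.mul 2 C.n)) C.n (fld t 34 4)))))
    (cond (Nat.ble i 7)
      (cond (Nat.ble i 5)
        (cond (Nat.beq i 4) (rNQ Γ C (fld t 0 C.n) (Nat.shiftRight t C.n))
          (rNC Γ C (Nat.shiftRight t 6) (fld t 0 6)))
        (cond (Nat.beq i 6)
          (rJV Γ C (Nat.shiftRight t 39) (fld t 0 24) (lst t 27 3 (fld t 24 3)))
          (rBlob C ⟨fld t 52 C.n, fld t (Nat.add 52 C.n) C.n,
            Nat.shiftRight t (Nat.add 52 (Nat.mul 2 C.n)), fld t 0 24, fld t 24 6, fld t 30 7⟩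
            (lst t 40 3 (fld t 37 3)))))
      (cond (Nat.ble i 9)
        (cond (Nat.beq i 8) (rBr0 Γ C t) (rBr1 Γ C (Nat.shiftRight t 3) (fld t 0 3)))
        (cond (Nat.beq i 10) (rExt ext C t) (rLab C (fld t 0 3) (Nat.shiftRight t 3)))))

def stepB (Γ : Gam) (C : Cfg) (i t : ℕ) : Option (List Cfg) :=
  cond (Nat.ble i 17)
    (cond (Nat.ble i 14)
      (cond (Nat.beq i 12) (rWin C (fld t 0 3) (Nat.shiftRight t 3))
        (cond (Nat.beq i 13) (rXL C (fld t 0 3) (Nat.shiftRight t 3))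
          (rPFL C (fld t 0 3) (Nat.shiftRight t 3))))
      (cond (Nat.beq i 15) (rT2 Γ C t) (cond (Nat.beq i 16) (rT0' Γ C t) (rDead C t))))
    (cond (Nat.ble i 19)
      (cond (Nat.beq i 18) (rDrop C t) (rHC Γ C (fld t 0 3) (Nat.shiftRight t 3)))
      (cond (Nat.beq i 20) (rKC C (fld t 0 3) (Nat.shiftRight t 3))
        (cond (Nat.beq i 21) (rHT C (fld t 0 2) (Nat.shiftRight t 2)) (rCub C))))

def stepC (Γ : Gam) (ext : List Cfg) (C : Cfg) (i t : ℕ) : Option (List Cfg) :=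
  cond (Nat.ble i 24)
    (cond (Nat.beq i 23) (rBr2 Γ C (fld t 3 C.n) (Nat.shiftRight t (Nat.add 3 C.n)) (fld t 0 3))
      (rIso ext C (fld t 0 10) (Nat.shiftRight t 10)))
    (cond (Nat.beq i 25) (rJVx Γ C (Nat.shiftRight t 39) (fld t 0 24) (lst t 27 3 (fld t 24 3)))
      (cond (Nat.beq i 26) (rSub ext C t) (rNF Γ C (Nat.shiftRight t 6) (fld t 0 6))))

noncomputable def step2 (Γ : Gam) (ext : List Cfg) (C : Cfg) (i t : ℕ) : Option (List Cfg) :=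
  cond (Nat.ble i 11) (stepA Γ ext C i t)
    (cond (Nat.ble i 22) (stepB Γ C i t) (stepC Γ ext C i t))
noncomputable def step (Γ : Gam) (ext : List Cfg) (C : Cfg) (t : ℕ) : Option (List Cfg) :=
  step2 Γ ext C (Nat.land t 31) (Nat.shiftRight t 5)

noncomputable def run (Γ : Gam) (ext : List Cfg) (toks : List ℕ) : List Cfg → Bool :=
  List.rec (fun st => List.rec true (fun _ _ _ => false) st)
    (fun t _ ih st => List.rec false
      (fun c r _ => Option.rec false (fun ks => ih (appL ks r)) (step Γ ext c t)) st) toks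

/-- every edge starts at a vertex reached before, and both ends are below `k` -/
def ordOK (k : ℕ) (es : List (ℕ × ℕ)) : ℕ → Bool :=
  List.rec (fun _ => true)
    (fun e _ ih a => tb a e.1 && Nat.ble (Nat.succ e.1) k && Nat.ble (Nat.succ e.2) k &&
      ih (Nat.lor a (bit e.2))) es
def patOK (P : Pat) : Bool :=
  ordOK P.k P.E 1 && Nat.ble 1 P.k && Nat.ble P.E.length 61
/-- the configurations that describe a copy of `P` -/
def rootKids (ty : ℕ) (P : Pat) : List Cfg :=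
  List.rec [] (fun τ _ r =>
    cond (tyOK ty τ.1 τ.2 && (Nat.beq (P.con.getD 0 0) 0 || Nat.beq (P.con.getD 0 0) τ.1))
      (pe ty NOJ P.con P.E (newV empty τ.1 τ.2) (sm 0 0 0) 1 1 (cond (Nat.beq τ.1 2) 1 0)
        (cond (Nat.beq τ.1 3) 1 0) r) r) types

/-- two cut edges `0-1` and `2-1` with a common outer end of degree `d` -/
def cutA (d : ℕ) : Cfg :=
  setBl (addEdge (newV (addEdge (newV (newV empty 3 false) d false) 0 1) 3 false) 2 1)
    [⟨2, 5, 2, 0, 100, 104, NOJ⟩]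
/-- two cut edges `0-1` and `2-3` with outer ends of degrees `d`, `e` -/
def cutB (d e : ℕ) : Cfg :=
  setBl (addEdge (newV (newV (addEdge (newV (newV empty 3 false) d false) 0 1) 3 false) e false)
    2 3) [⟨10, 5, 10, 0, 100, 104, NOJ⟩]

end Pool.Agent.Lib.MP_5a2675_co.D7
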