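import Mathlib
import Pool.Agent.Lib.MP_5a2675_co.D7.Chk2

set_option autoImplicit false

namespace Pool.Agent.Lib.MP_5a2675_co.D7

open Finset
open Classical

noncomputable section

/-- the set bits of a mask -/
def bits (m : ℕ) : Finset ℕ := (range 64).filter fun i => tb m i = true

def img (f : ℕ → ℕ) (m : ℕ) : Finset ℕ := (bits m).image f

/-- all set bits are below `n` -/
def Lt (m n : ℕ) : Prop := ∀ i, tb m i = true → i < n

/-- the join edges -/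
def JG (f : ℕ → ℕ) (J : ℕ) : SimpleGraph ℕ :=
  SimpleGraph.fromRel fun x y => ∃ i j, i < 63 ∧ tb (jp J i) j = true ∧ f i = x ∧ f j = y

def GJ (G : SimpleGraph ℕ) (f : ℕ → ℕ) (J : ℕ) : SimpleGraph ℕ := G ⊔ JG f J

/-- the recorded degree -/
def dg (C : Cfg) (i : ℕ) : ℕ := if tb C.d1 i = true then 1 else if tb C.d2 i = true then 2 else 3

/-- the number of unknown edges -/
def rm (C : Cfg) (i : ℕ) : ℕ := (tb C.r1 i).toNat + (tb C.r2 i).toNat + (tb C.r3 i).toNat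

/-- the number of join edges at `i` -/
def jn (J n i : ℕ) : ℕ := (tb (jm J (ones n)) i).toNat + (tb (jd J (ones n)) i).toNat

/-- the number of known neighbours of `i` in `Z` -/
def cn (A Z i : ℕ) : ℕ := ((bits Z).filter fun k => tb (row A k) i = true).card

structure JOK (G : SimpleGraph ℕ) (S : Finset ℕ) (f : ℕ → ℕ) (n R J : ℕ) : Prop where
  wf : jwf n J = true
  out : ∀ i j, i < 63 → tb (jp J i) j = true → tb R i = false ∧ ¬ G.Adj (f i) (f j)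
  sub3 : ∀ v ∈ S \ img f R, deg (GJ G f J) (S \ img f R) v ≤ 3

/-- the component described by the data `R`, `J`, `a` -/
def cX (G : SimpleGraph ℕ) (S : Finset ℕ) (f : ℕ → ℕ) (R J a : ℕ) : Finset ℕ :=
  comp (GJ G f J) (S \ img f R) (f a)

def bX (G : SimpleGraph ℕ) (S : Finset ℕ) (f : ℕ → ℕ) (b : Blob) : Finset ℕ := cX G S f b.R b.J b.a

structure BlobOK (G : SimpleGraph ℕ) (S M : Finset ℕ) (n A : ℕ) (f : ℕ → ℕ) (b : Blob) :
    Prop where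
  ltI : Lt b.In n
  ltO : Lt b.Out n
  aI : tb b.In b.a = true
  inn : ∀ i, tb b.In i = true → f i ∈ bX G S f b
  out : ∀ i, tb b.Out i = true → f i ∉ bX G S f b
  ro : ∀ i, tb b.R i = true → tb b.Out i = true
  rne : b.R ≠ 0
  unm : ∀ x ∈ bX G S f b, x ∉ M
  kn : ∀ x ∈ bX G S f b, ∀ i, tb b.R i = true → G.Adj x (f i) →
    ∃ k, tb (row A i) k = true ∧ f k = x
  ncub : NonCub (GJ G f b.J) (bX G S f b)
  jok : JOK G S f n b.R b.J
  lo : b.lo ≠ 0 → (b.lo : ℤ) - 100 < val (GJ G f b.J) (bX G S f b) ∅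
  hi : val (GJ G f b.J) (bX G S f b) ∅ ≤ (b.hi : ℤ) - 100

structure PFOK (G : SimpleGraph ℕ) (S M : Finset ℕ) (n : ℕ) (f : ℕ → ℕ) (x : PF) : Prop where
  ltR : Lt x.R n
  ltP : Lt x.P0 n
  dR : ∀ i, tb x.Dd i = true → tb x.R i = true
  pn : x.p < n
  pR : tb x.R x.p = false
  wf : jwf n x.J = true
  alt : (∃ i, tb x.P0 i = true ∧ f i ∈ cX G S f x.R x.J x.p) ∨
    (∃ y ∈ cX G S f x.R x.J x.p, y ∈ M) ∨
    (∃ y ∈ cX G S f x.R x.J x.p, ∃ i, tb x.Dd i = true ∧ G.Adj y (f i)) ∨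
    ¬ NonCub (GJ G f x.J) (cX G S f x.R x.J x.p) ∨
    (x.th ≠ 0 ∧ val (GJ G f x.J) (cX G S f x.R x.J x.p) ∅ ≤ (x.th : ℤ) - 100)

structure NCOK (G : SimpleGraph ℕ) (S : Finset ℕ) (n : ℕ) (f : ℕ → ℕ) (x : ℕ × ℕ) : Prop where
  ltR : Lt x.1 n
  ltm : Lt x.2 n
  nc : ∀ i, tb x.2 i = true → ∀ S' ⊆ S \ img f x.1, ¬ CritP G S' (f i)

structure JVOK (G : SimpleGraph ℕ) (S : Finset ℕ) (n : ℕ) (f : ℕ → ℕ) (x : JV) : Prop where
  ltR : Lt x.R n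
  jok : JOK G S f n x.R x.J
  crit : ∀ v, CritP (GJ G f x.J) (S \ img f x.R) v → CritP G (S \ img f x.R) v
  nok : x.k = 1 → ¬ ∃ g, Emb (GJ G f x.J) (S \ img f x.R) PK g

/-- `f` places the configuration `C` in the graph -/
structure Valid (G : SimpleGraph ℕ) (S M : Finset ℕ) (C : Cfg) (f : ℕ → ℕ) : Prop where
  n_le : C.n ≤ 62
  mem : ∀ i < C.n, f i ∈ S
  inj : ∀ i < C.n, ∀ j < C.n, f i = f j → i = j
  rlt : ∀ i j, tb (row C.A i) j = true → i < C.n ∧ j < C.n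
  sym : ∀ i j, tb (row C.A i) j = true → tb (row C.A j) i = true
  adj : ∀ i j, tb (row C.A i) j = true → G.Adj (f i) (f j)
  deg : ∀ i < C.n, deg G S (f i) = dg C i
  rem : ∀ i < C.n, dg C i = (bits (row C.A i)).card + rm C i
  r21 : ∀ i, tb C.r2 i = true → tb C.r1 i = true
  r32 : ∀ i, tb C.r3 i = true → tb C.r2 i = true
  d12 : ∀ i, tb C.d1 i = true → tb C.d2 i = false
  mark : ∀ i < C.n, (f i ∈ M ↔ tb C.ms i = true)
  lt1 : Lt C.d1 C.n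
  lt2 : Lt C.d2 C.n
  ltm : Lt C.ms C.n
  ltr : Lt C.r1 C.n
  kc : ∀ i, tb C.kc i = true → i < C.n ∧ CritP G S (f i)
  ht : C.ht = 1 → cc G S M = 4
  bl : ∀ b ∈ C.bl, BlobOK G S M C.n C.A f b
  nc : ∀ x ∈ C.nc, NCOK G S C.n f x
  pf : ∀ x ∈ C.pf, PFOK G S M C.n f x
  jv : ∀ x ∈ C.jv, JVOK G S C.n f x

def CutOK (G : SimpleGraph ℕ) (S : Finset ℕ) (j : ℕ) : Prop :=
  ∀ X ⊆ S, X.Nonempty → X ≠ S → Conn G X → cut G S X ≤ j → (∀ v ∈ X, 2 ≤ deg G X v) →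
    val G X ∅ ≤ 0

def JLev (G : SimpleGraph ℕ) (S : Finset ℕ) (j : ℕ) : Prop :=
  (1 ≤ j → NoBridge G S) ∧ (2 ≤ j → CutOK G S j ∧ ∀ v ∈ S, 2 ≤ deg G S v)

structure GamOK (G : SimpleGraph ℕ) (S M : Finset ℕ) (Γ : Gam) : Prop where
  ty : ∀ v ∈ S, tyOK Γ.ty (deg G S v) (decide (v ∈ M)) = true
  jl : JLev G S Γ.j0
  nok : Γ.nok = true → ¬ KX G S
  nop : Γ.nop = true → ¬ ∃ g, Emb G S PP g
  tg : Γ.tg ≤ cc G S M
  pats : ∀ i, ¬ ∃ g, Emb G S (Γ.pats.get i) g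

/-- one of the configurations produced by a rule occurs -/
def Sound (G : SimpleGraph ℕ) (S M : Finset ℕ) (o : Option (List Cfg)) : Prop :=
  ∀ l, o = some l → ∃ D ∈ l, ∃ f, Valid G S M D f

/-- the standing assumptions of all rules -/
structure Ctx (G : SimpleGraph ℕ) (S M : Finset ℕ) (Γ : Gam) (C : Cfg) (f : ℕ → ℕ) : Prop where
  mc : MC G S M
  gam : GamOK G S M Γ
  val : Valid G S M C f

/-! pattern enumeration -/

/-- `g` is a copy of `P` that the enumeration with the masks `m0 m2 m3` has to find -/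
structure PEH (G : SimpleGraph ℕ) (S : Finset ℕ) (C : Cfg) (f : ℕ → ℕ) (J m0 m2 m3 : ℕ)
    (P : Pat) (g : ℕ → ℕ) : Prop where
  wf : jwf C.n J = true
  mem : ∀ q < P.k, g q ∈ S
  inj : ∀ p < P.k, ∀ q < P.k, g p = g q → p = q
  adj : ∀ e ∈ P.E, (GJ G f J).Adj (g e.1) (g e.2)
  old : ∀ i < C.n, ∀ q < P.k, f i = g q → tb (sel (P.con.getD q 0) m0 m2 m3) i = true
  new : ∀ q < P.k, (∀ i < C.n, f i ≠ g q) → P.con.getD q 0 ≠ 0 →
    deg G S (g q) = P.con.getD q 0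

/-- `σ` is an automorphism of `P` -/
def Aut (P : Pat) (σ : List ℕ) : Prop :=
  (∀ i < P.k, σ.getD i 0 < P.k) ∧ (∀ i < P.k, ∀ j < P.k, σ.getD i 0 = σ.getD j 0 → i = j) ∧
    (∀ e ∈ P.E, (σ.getD e.1 0, σ.getD e.2 0) ∈ P.E ∨ (σ.getD e.2 0, σ.getD e.1 0) ∈ P.E) ∧
    ∀ i < P.k, P.con.getD (σ.getD i 0) 0 = P.con.getD i 0

def RPof (P : Pat) (Q : RP) (a : ℕ) : Prop :=
  Q.con = P.con ∧ ordOK P.k Q.es a = true ∧ (∀ e ∈ Q.es, e ∈ P.E ∨ e.swap ∈ P.E) ∧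
    Q.es.length ≤ 15

def Cov1 (P : Pat) (l : List RP) (i : ℕ) : Prop :=
  ∃ Q ∈ l, ∃ σ, Aut P σ ∧ RPof P Q (bit Q.p) ∧ Q.p < P.k ∧ σ.getD Q.p 0 = i

def Cov2 (P : Pat) (l : List RP) (i j : ℕ) : Prop :=
  ∃ Q ∈ l, ∃ σ, Aut P σ ∧ RPof P Q (Nat.lor (bit Q.p) (bit Q.q)) ∧ Q.p < P.k ∧ Q.q < P.k ∧
    Q.p ≠ Q.q ∧ σ.getD Q.p 0 = i ∧ σ.getD Q.q 0 = j

/-! the reduction rule -/

def rZ (R : ℕ) (dl : List (Blob × ℕ)) : ℕ := Nat.lor R (orL (fun x => x.1.In) dl)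
def rK (C : Cfg) (R : ℕ) (dl : List (Blob × ℕ)) : ℕ := dif (ones C.n) (rZ R dl)
def rT (C : Cfg) (R : ℕ) (dl : List (Blob × ℕ)) : ℕ := nb3 C.A (rZ R dl)
def rF (C : Cfg) (R : ℕ) (dl : List (Blob × ℕ)) : ℕ := Nat.land (row (rT C R dl) 0) (rK C R dl)
def rD (C : Cfg) (R : ℕ) : ℕ := Nat.land R C.r1
def rJ (C : Cfg) (J : ℕ) : ℕ := jm J (ones C.n)
def rX (C : Cfg) (J : ℕ) : ℕ := jx J (ones C.n)

/-- the vertices that are left -/
def rS (G : SimpleGraph ℕ) (S : Finset ℕ) (f : ℕ → ℕ) (R : ℕ) (dl : List (Blob × ℕ)) :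
    Finset ℕ :=
  S.filter fun v => v ∉ img f R ∧ ∀ x ∈ dl, v ∉ bX G S f x.1

/-- the new marks -/
def rM (G : SimpleGraph ℕ) (S M : Finset ℕ) (C : Cfg) (f : ℕ → ℕ) (R Mk : ℕ) : Finset ℕ :=
  S.filter fun v => v ∈ M ∨ v ∈ img f Mk ∨ ∃ i, tb (rD C R) i = true ∧ G.Adj v (f i)

/-- the structural checks of the reduction rule; `Mk` is the mask of the new marks -/
structure RC (G : SimpleGraph ℕ) (S M : Finset ℕ) (Γ : Gam) (C : Cfg) (f : ℕ → ℕ) (R J Mk : ℕ)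
    (dl : List (Blob × ℕ)) : Prop where
  ctx : Ctx G S M Γ C f
  ltR : Lt R C.n
  zne : rZ R dl ≠ 0
  mem : ∀ x ∈ dl, x.1 ∈ C.bl
  del : ∀ x ∈ dl, delOK C R (rK C R dl) (rJ C J) x = true
  pd : pairD C.A dl = true
  jc : J = NOJ ∨ (hasJV C (rZ R dl) J = true ∧ rD C R = 0 ∧
    sub (rJ C J) (dif (rF C R dl) C.ms) = true)
  mkF : ∀ i, tb Mk i = true → tb (rF C R dl) i = true ∧ tb (rJ C J) i = false

/-- the blob is dominated with one vertex less -/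
def hflag (C : Cfg) (CP : ℕ) (x : Blob × ℕ) : Bool :=
  Nat.beq x.2 0 && helped x.1.lo (Nat.land (Nat.land x.1.In CP) (low2 C (nb3 C.A x.1.R)))
    (low0 C (nb3 C.A x.1.R)) (low1 C (nb3 C.A x.1.R))

/-- the new weight of the vertices of the blob that lose a neighbour -/
def bw (Γ : Gam) (C : Cfg) (x : Blob × ℕ) : ℕ :=
  w0s (Nat.land x.1.In (row (nb3 C.A x.1.R) 0)) (low0 C (nb3 C.A x.1.R)) (low1 C (nb3 C.A x.1.R))
      (low2 C (nb3 C.A x.1.R)) +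
    cond Γ.nok 0 (pop (dif (Nat.land (Nat.land x.1.In (row (nb3 C.A x.1.R) 0))
      (low2 C (nb3 C.A x.1.R))) (Nat.lor (low1 C (nb3 C.A x.1.R)) (ncm C x.1.R))))

def rmm (C : Cfg) (Mk : ℕ) (dl : List (Blob × ℕ)) : ℕ :=
  Nat.lor C.ms (dif Mk (orL (fun x => unkB (ones C.n) x.1) dl))

/-- the pieces cover the frontier and each of them lies in one component or is deleted -/
structure PcsOK (G : SimpleGraph ℕ) (S : Finset ℕ) (C : Cfg) (f : ℕ → ℕ) (R J : ℕ)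
    (dl : List (Blob × ℕ)) (ps : List ℕ) : Prop where
  len : ps.length ≤ 64
  cov : ∀ i, tb (rF C R dl) i = true → ∃ s ∈ ps, tb s i = true
  inK : ∀ s ∈ ps, ∀ i, tb s i = true → tb (rK C R dl) i = true
  one : ∀ s ∈ ps, ∀ i k, tb s i = true → tb s k = true → f i ∈ rS G S f R dl →
    f k ∈ comp (GJ G f J) (rS G S f R dl) (f i)

def pSafe (C : Cfg) (Mk : ℕ) (ps : List ℕ) : ℕ :=
  orL id (filL (fun s => !(dj s (Nat.lor Mk C.ms))) ps)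
def pU (C : Cfg) (Mk : ℕ) (ps : List ℕ) : List ℕ := filL (fun s => dj s (Nat.lor Mk C.ms)) ps
def pJ (C : Cfg) (J Mk : ℕ) (ps : List ℕ) : List ℕ :=
  filL (fun s => !(dj s (rJ C J))) (pU C Mk ps)
def pN (C : Cfg) (J Mk : ℕ) (ps : List ℕ) : List ℕ := filL (fun s => dj s (rJ C J)) (pU C Mk ps)

/-- an unmarked component of the reduced graph -/
structure UC (G : SimpleGraph ℕ) (S M : Finset ℕ) (C : Cfg) (f : ℕ → ℕ) (R J Mk : ℕ)
    (dl : List (Blob × ℕ)) (c : Finset ℕ) : Prop where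
  cmp : ∃ v ∈ rS G S f R dl, c = comp (GJ G f J) (rS G S f R dl) v
  unm : ∀ y ∈ c, y ∉ rM G S M C f R Mk

/-- the piece `s` meets `c` -/
def Hit (f : ℕ → ℕ) (s : ℕ) (c : Finset ℕ) : Prop := ∃ i, tb s i = true ∧ f i ∈ c

/-! statements about all minimal counterexamples -/

def Ref (Γ : Gam) (C : Cfg) : Prop :=
  ∀ G S M, MC G S M → GamOK G S M Γ → ∀ f, ¬ Valid G S M C f
def AllRef (Γ : Gam) (l : List Cfg) : Prop := ∀ C ∈ l, Ref Γ C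
def OK (Γ : Gam) : Prop := ∀ G S M, MC G S M → GamOK G S M Γ
def NE (P : Pat) : Prop := ∀ G S M, MC G S M → ¬ ∃ g, Emb G S P g
def NET (T : PT) : Prop := ∀ i, NE (T.get i)
def TyA (ty : ℕ) : Prop :=
  ∀ G S M, MC G S M → ∀ v ∈ S, tyOK ty (deg G S v) (decide (v ∈ M)) = true
def JA (j : ℕ) : Prop := ∀ G S M, MC G S M → JLev G S j
def TgA (t : ℕ) : Prop := ∀ G S M, MC G S M → t ≤ cc G S M

end

end Pool.Agent.Lib.MP_5a2675_co.D7
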