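import Mathlib
import Pool.Agent.Lib.MP_5a2675_co.D7.Sem

set_option autoImplicit false

namespace Pool.Agent.Lib.MP_5a2675_co.D7

open Finset
open Classical

variable {G G' : SimpleGraph ℕ} {S S' M X : Finset ℕ} {Γ : Gam} {C : Cfg} {f g : ℕ → ℕ}
  {a b c i j k l m n q r s t v w x y A J R Z Mk : ℕ}

theorem tb_eq (m i : ℕ) : tb m i = m.testBit i := by
  have h : tb m i = Nat.beq ((m >>> i) &&& 1) 1 := rfl
  rw [h, Nat.and_one_is_mod, Nat.testBit_eq_decide_div_mod_eq, Nat.shiftRight_eq_div_pow]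
  rcases Nat.mod_two_eq_zero_or_one (m / 2 ^ i) with e | e <;> rw [e] <;> rfl
theorem ba_beq (e : m ≠ 0) : Nat.beq m 0 = false := by
  rw [← Bool.not_eq_true, Nat.beq_eq]
  exact e
theorem ba_bit (i : ℕ) : bit i = 2 ^ i := by
  have h : bit i = 1 <<< i := rfl
  rw [h, Nat.one_shiftLeft]
theorem ba_lor (a b : ℕ) : Nat.lor a b = a ||| b := rfl
theorem ba_land (a b : ℕ) : Nat.land a b = a &&& b := rfl
theorem ba_xor (a b : ℕ) : Nat.xor a b = a ^^^ b := rfl
theorem ba_shl (a b : ℕ) : Nat.shiftLeft a b = a <<< b := rfl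
theorem ba_shr (a b : ℕ) : Nat.shiftRight a b = a >>> b := rfl
theorem tb_zero : tb 0 i = false := by simp [tb_eq]
theorem tb_bit : tb (bit i) j = true ↔ j = i := by
  rw [tb_eq, ba_bit, Nat.testBit_two_pow, decide_eq_true_iff, eq_comm]
theorem tb_lor : tb (Nat.lor a b) i = true ↔ tb a i = true ∨ tb b i = true := by
  simp [tb_eq]
theorem tb_land : tb (Nat.land a b) i = true ↔ tb a i = true ∧ tb b i = true := by
  simp [tb_eq]
theorem tb_dif : tb (dif a b) i = true ↔ tb a i = true ∧ tb b i = false := by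
  simp only [dif, tb_eq, ba_land, ba_xor, Nat.testBit_xor, Nat.testBit_and]
  cases a.testBit i <;> cases b.testBit i <;> simp
theorem tb_ones : tb (ones n) i = true ↔ i < n := by
  have h : ones n = 1 <<< n - 1 := rfl
  rw [h, Nat.one_shiftLeft, tb_eq, Nat.testBit_two_pow_sub_one, decide_eq_true_iff]
theorem tb_orIf {p : Bool} : tb (orIf p m x) i = true ↔ tb m i = true ∨ (p = true ∧ tb x i = true) := by
  cases p
  · simp [orIf]
  · simp [orIf, tb_eq]
theorem tb_ext (h : ∀ i, tb a i = tb b i) : a = b :=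
  Nat.eq_of_testBit_eq fun i => by rw [← tb_eq, ← tb_eq, h]
theorem eq_zero_iff_tb : a = 0 ↔ ∀ i, tb a i = false :=
  ⟨fun h _ => h ▸ tb_zero, fun h => tb_ext fun i => by rw [h, tb_zero]⟩
theorem exists_tb (h : a ≠ 0) : ∃ i, tb a i = true := by
  by_contra hc
  exact h (eq_zero_iff_tb.2 fun i => by simpa using fun e => hc ⟨i, e⟩)
theorem sub_iff : sub a b = true ↔ ∀ i, tb a i = true → tb b i = true := by
  rw [sub, Nat.beq_eq]
  refine ⟨fun h i hi => (tb_land.1 (h.symm ▸ hi : tb (Nat.land a b) i = true)).2,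
    fun h => tb_ext fun i => Bool.eq_iff_iff.2 ?_⟩
  rw [tb_land]
  exact ⟨fun e => e.1, fun e => ⟨e, h i e⟩⟩
theorem dj_iff : dj a b = true ↔ ∀ i, tb a i = true → tb b i = false := by
  rw [dj, Nat.beq_eq, eq_zero_iff_tb]
  refine forall_congr' fun i => ?_
  rw [← Bool.not_eq_true, tb_land]
  simp
theorem dj_false_iff : dj a b = false ↔ ∃ i, tb a i = true ∧ tb b i = true := by
  rw [← Bool.not_eq_true, dj_iff]
  simp
theorem sub_false_iff : sub a b = false ↔ ∃ i, tb a i = true ∧ tb b i = false := by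
  rw [← Bool.not_eq_true, sub_iff]
  simp
theorem sub_ones_iff : sub a (ones n) = true ↔ Lt a n := by
  simp only [sub_iff, tb_ones, Lt]
theorem lt_iff_two_pow : Lt a n ↔ a < 2 ^ n := by
  refine ⟨fun h => Nat.lt_pow_two_of_testBit _ fun i hi => ?_, fun h i hi => ?_⟩
  · rw [← tb_eq, ← Bool.not_eq_true]
    exact fun e => absurd (h i e) (by omega)
  · by_contra hc
    rw [tb_eq, Nat.testBit_lt_two_pow (h.trans_le (Nat.pow_le_pow_right (by omega) (by omega)))] at hi
    exact absurd hi (by simp)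
theorem Lt.mono (h : Lt a n) (hn : n ≤ m) : Lt a m := fun i hi => (h i hi).trans_le hn
theorem tb_row : tb (row A i) j = true ↔ j < 64 ∧ A.testBit (64 * i + j) = true := by
  have h : row A i = (A >>> (i <<< 6)) &&& (2 ^ 64 - 1) := rfl
  rw [h, tb_eq, Nat.testBit_and, Nat.testBit_two_pow_sub_one, Nat.testBit_shiftRight,
    Nat.shiftLeft_eq, mul_comm i]
  simp [and_comm]
theorem row_lt : Lt (row A i) 64 := fun _ h => (tb_row.1 h).1
/-- the rows after recording an edge -/
theorem tb_row_add (ha : a < 64) (hb : b < 64) :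
    tb (row (Nat.lor A (Nat.lor (Nat.shiftLeft (bit b) (Nat.shiftLeft a 6))
      (Nat.shiftLeft (bit a) (Nat.shiftLeft b 6)))) i) j = true ↔
      tb (row A i) j = true ∨ (i = a ∧ j = b) ∨ (i = b ∧ j = a) := by
  simp only [tb_row, ba_lor, ba_shl, ba_bit, Nat.testBit_or, Nat.testBit_shiftLeft,
    Nat.testBit_two_pow, Nat.shiftLeft_eq a, Nat.shiftLeft_eq b, Bool.or_eq_true, Bool.and_eq_true,
    decide_eq_true_iff]
  by_cases e : A.testBit (64 * i + j) = true
  · simp only [e, true_or, and_true]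
    omega
  · simp only [e, and_false, false_or, Bool.false_eq_true]
    omega
theorem mem_bits : i ∈ bits m ↔ i < 64 ∧ tb m i = true := by simp [bits]
theorem mem_bits' (h : Lt m 64) : i ∈ bits m ↔ tb m i = true :=
  mem_bits.trans ⟨fun e => e.2, fun e => ⟨h i e, e⟩⟩
theorem mem_img : v ∈ img f m ↔ ∃ i, i < 64 ∧ tb m i = true ∧ f i = v := by
  simp only [img, mem_image, mem_bits, and_assoc]
theorem img_congr (h : Lt m n) (hf : ∀ i < n, g i = f i) : img g m = img f m :=
  image_congr fun i hi => hf i (h i (mem_bits.1 hi).2)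
theorem ba_sum (z n : ℕ) : z % 2 ^ n = ∑ i ∈ range n, (z.testBit i).toNat * 2 ^ i := by
  induction n with
  | zero => simp [Nat.mod_one]
  | succ n ih => rw [Nat.mod_pow_succ, sum_range_succ, ih, Nat.toNat_testBit, mul_comm]
theorem ba_ln (y : ℕ) : ln y % 63 =
    (∑ i ∈ range 66, if i % 6 = 0 then (y.testBit i).toNat else 0) % 63 := by
  have h1 : ln y < 2 ^ 66 := Nat.and_le_right.trans_lt (by norm_num)
  have h2 : ∀ i < 66, ∀ c : Bool, (c && Nat.testBit 1171221845949812801 i).toNat * 2 ^ i % 63 =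
      if i % 6 = 0 then c.toNat else 0 := by decide +kernel
  have h3 := ba_sum (ln y) 66
  rw [Nat.mod_eq_of_lt h1] at h3
  refine (congrArg (· % 63) h3).trans ((sum_nat_mod _ _ _).trans (congrArg (· % 63)
    (sum_congr rfl fun i hi => ?_)))
  rw [← h2 i (mem_range.1 hi), ← Nat.testBit_and]
  rfl
theorem ba_card (x : ℕ) : (bits x).card = ∑ i ∈ range 64, (x.testBit i).toNat := by
  rw [bits, card_filter]
  refine sum_congr rfl fun i _ => ?_
  rw [tb_eq]
  cases x.testBit i <;> simp
theorem pop_eq (h : Lt x 62) : pop x = (bits x).card := by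
  have h0 : (bits x).card ≤ 62 := by
    refine (card_le_card (t := range 62) fun i hi => ?_).trans (by simp)
    exact mem_range.2 (h i (mem_bits.1 hi).2)
  have h1 : ∀ i, 62 ≤ i → x.testBit i = false := fun i hi => by
    rw [← tb_eq, ← Bool.not_eq_true]
    exact fun e => absurd (h i e) (by omega)
  rcases eq_or_ne x 0 with rfl | e
  · simp [pop, bits, tb_zero]
  have h2 : pop x = (ln x + ln (x >>> 1) + (ln (x >>> 2) + ln (x >>> 3)) +
      (ln (x >>> 4) + ln (x >>> 5))) % 63 := by
    rw [pop, ba_beq e]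
    rfl
  have a0 := ba_ln x
  have a1 := ba_ln (x >>> 1)
  have a2 := ba_ln (x >>> 2)
  have a3 := ba_ln (x >>> 3)
  have a4 := ba_ln (x >>> 4)
  have a5 := ba_ln (x >>> 5)
  rw [ba_card] at h0 ⊢
  simp only [Nat.testBit_shiftRight, sum_range_succ, range_zero, sum_empty, Nat.reduceMod,
    Nat.reduceAdd, if_true, if_false, zero_add, add_zero, OfNat.ofNat_ne_zero,
    one_ne_zero, h1 64 (by omega), h1 65 (by omega), Bool.toNat_false] at a0 a1 a2 a3 a4 a5 h0 ⊢
  omega
/-- the set bits in increasing order -/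
def bl (m : ℕ) : List ℕ := (List.range 64).filter fun i => tb m i
theorem mem_bl : i ∈ bl m ↔ i < 64 ∧ tb m i = true := by simp [bl]
theorem ba_filter (h : Lt m k) (d : ℕ) : (List.range (k + d)).filter (fun i => tb m i) =
    (List.range k).filter fun i => tb m i := by
  induction d with
  | zero => rfl
  | succ d ih =>
    have : tb m (k + d) = false := by
      rw [← Bool.not_eq_true]
      exact fun e => absurd (h _ e) (by omega)
    rw [← add_assoc, List.range_succ, List.filter_append, ih]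
    simp [this]
theorem ba_loop {α : Type} (F : ℕ → α → α) (k : ℕ) : ∀ (m : ℕ) (z : α), Lt m k →
    loopB F k m z = ((List.range k).filter fun i => tb m i).foldr F z := by
  induction k with
  | zero => intro m z _; rfl
  | succ k ih =>
    intro m z h
    have h0 : loopB F (k + 1) m z = cond (Nat.beq m 0) z
        (loopB F k (Nat.xor m (bit (Nat.log2 m))) (F (Nat.log2 m) z)) := rfl
    rcases eq_or_ne m 0 with rfl | e
    · rw [h0]
      simp [tb_zero]
    have h1 : tb m m.log2 = true := by rw [tb_eq]; exact Nat.testBit_log2 e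
    have h2 : Lt m (m.log2 + 1) := lt_iff_two_pow.2 Nat.lt_log2_self
    have h3 := h _ h1
    generalize m.log2 = t at h0 h1 h2 h3
    have h4 : ∀ i, tb (Nat.xor m (bit t)) i = (tb m i && !decide (t = i)) := fun i => by
      rw [tb_eq, ba_xor, Nat.testBit_xor, ba_bit, Nat.testBit_two_pow, ← tb_eq]
      by_cases e : t = i
      · simp [← e, h1]
      · simp [e]
    have h5 : Lt (Nat.xor m (bit t)) t := fun i hi => by
      simp only [h4, Bool.and_eq_true, Bool.not_eq_true', decide_eq_false_iff_not] at hi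
      have := h2 i hi.1
      omega
    obtain ⟨d, rfl⟩ := Nat.exists_eq_add_of_le (Nat.le_of_lt_succ h3)
    rw [h0, ba_beq e, cond_false,
      ih _ _ (h5.mono (by omega)), ba_filter h5, add_right_comm, ba_filter h2, List.range_succ,
      List.filter_append, List.foldr_append]
    congr 1
    · simp [h1]
    · refine List.filter_congr fun i hi => ?_
      have := List.mem_range.1 hi
      rw [h4, decide_eq_false (by omega)]
      simp
theorem loopB_eq {α : Type} (F : ℕ → α → α) (h : Lt m 64) (z : α) :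
    loopB F 64 m z = (bl m).foldr F z := ba_loop F 64 m z h
theorem ba_fold {α : Type} {F : ℕ → α → α} {z : α} {P : α → Prop} (hF : ∀ i r, P r → P (F i r))
    (l : List ℕ) (hd : P z ∨ ∃ i ∈ l, ∀ r, P (F i r)) : P (l.foldr F z) := by
  induction l with
  | nil => simpa using hd
  | cons a l ih =>
    rcases hd with e | ⟨i, hi, e⟩
    · exact hF _ _ (ih (Or.inl e))
    · rcases List.mem_cons.1 hi with rfl | hi
      · exact e _
      · exact hF _ _ (ih (Or.inr ⟨i, hi, e⟩))
/-- a member of the start list survives, and so does a member produced at a set bit -/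
theorem loopB_mem {α : Type} {F : ℕ → List α → List α} (h : Lt m 64) {z : List α} {d : α}
    (hF : ∀ i r, d ∈ r → d ∈ F i r) (hd : d ∈ z ∨ ∃ i, tb m i = true ∧ ∀ r, d ∈ F i r) :
    d ∈ loopB F 64 m z := by
  rw [loopB_eq F h]
  exact ba_fold (P := fun r => d ∈ r) hF _
    (hd.imp_right fun ⟨i, h1, h2⟩ => ⟨i, mem_bl.2 ⟨h i h1, h1⟩, h2⟩)
/-- the same for a property of some member -/
theorem loopB_ex {α : Type} {F : ℕ → List α → List α} (h : Lt m 64) {z : List α} {p : α → Prop}
    (hF : ∀ i r, (∃ d ∈ r, p d) → ∃ d ∈ F i r, p d)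
    (hd : (∃ d ∈ z, p d) ∨ ∃ i, tb m i = true ∧ ∀ r, ∃ d ∈ F i r, p d) :
    ∃ d ∈ loopB F 64 m z, p d := by
  rw [loopB_eq F h]
  exact ba_fold (P := fun r => ∃ d ∈ r, p d) hF _
    (hd.imp_right fun ⟨i, h1, h2⟩ => ⟨i, mem_bl.2 ⟨h i h1, h1⟩, h2⟩)
theorem tb_nb (h : Lt m 64) :
    tb (nb A m) j = true ↔ ∃ i, tb m i = true ∧ tb (row A i) j = true := by
  have : ∀ l : List ℕ, tb (l.foldr (fun i a => Nat.lor a (row A i)) 0) j = true ↔
      ∃ i ∈ l, tb (row A i) j = true := fun l => by
    induction l with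
    | nil => simp [tb_zero]
    | cons a l ih => rw [List.foldr_cons, tb_lor, ih]; simp [or_comm]
  rw [nb, loopB_eq _ h, this]
  exact exists_congr fun i => and_congr_left fun _ =>
    mem_bl.trans ⟨fun e => e.2, fun e => ⟨h i e, e⟩⟩
theorem ba_nb3 (hj : j < 64) (l : List ℕ) : ∀ k < 3,
    (l.foldr (fun i a => nb3s (row A i) a) 0).testBit (64 * k + j) = true ↔
      k < l.countP fun i => tb (row A i) j := by
  induction l with
  | nil => simp
  | cons a l ih =>
    have h0 := ih 0 (by omega)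
    have h1 := ih 1 (by omega)
    have h2 := ih 2 (by omega)
    have r1 : ∀ p, 64 ≤ p → (row A a).testBit p = false := fun p hp => by
      rw [← tb_eq, ← Bool.not_eq_true]
      exact fun e => absurd (row_lt _ e) (by omega)
    intro k hk
    rw [List.foldr_cons, List.countP_cons, tb_eq]
    generalize List.foldr (fun i a => nb3s (row A i) a) 0 l = w at h0 h1 h2 ⊢
    generalize List.countP (fun i => tb (row A i) j) l = c at h0 h1 h2 ⊢
    simp only [nb3s, ba_lor, ba_land, ba_shl, Nat.testBit_or, Nat.testBit_and,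
      Nat.testBit_shiftLeft, Bool.or_eq_true, Bool.and_eq_true, decide_eq_true_iff]
    simp only [mul_zero, zero_add, mul_one, Nat.reduceMul] at h0 h1 h2
    have e0 : ¬ j ≥ 64 := by omega
    obtain rfl | rfl | rfl : k = 0 ∨ k = 1 ∨ k = 2 := by omega
    · simp only [mul_zero, zero_add, h0, e0, false_and, or_false]
      split_ifs with e <;> simp [e]
    · simp only [mul_one, Nat.add_sub_cancel_left, h0, h1, e0, r1 (64 + j) (by omega)]
      split_ifs with e <;> simp [e] <;> omega
    · have e1 : 128 + j - 64 = 64 + j := by omega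
      simp only [Nat.reduceMul, e1, Nat.add_sub_cancel_left, h1, h2, r1 (64 + j) (by omega),
        r1 (128 + j) (by omega)]
      split_ifs with e <;> simp [e] <;> omega
theorem tb_nb3 (h : Lt m 64) (hk : k < 3) : tb (row (nb3 A m) k) j = true ↔ k < cn A m j := by
  have h1 : cn A m j = (bl m).countP fun i => tb (row A i) j := by
    rw [List.countP_eq_length_filter, cn, bl, ← List.toFinset_card_of_nodup
      ((List.nodup_range.filter _).filter _)]
    congr 1
    ext i
    simp [mem_bits]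
    tauto
  rw [tb_row, nb3, loopB_eq _ h]
  by_cases e : j < 64
  · rw [ba_nb3 e _ k hk, h1]
    simp [e]
  · have : cn A m j = 0 := card_eq_zero.2 (filter_eq_empty_iff.2 fun i _ e' => e (row_lt _ e'))
    simp [e, this]
theorem ba_pop (h : Lt m 62) {P : ℕ → Prop} [DecidablePred P]
    (hx : ∀ i, tb x i = true ↔ tb m i = true ∧ P i) :
    pop x = ∑ i ∈ bits m, if P i then 1 else 0 := by
  rw [pop_eq fun i hi => h i ((hx i).1 hi).1, ← card_filter]
  congr 1
  ext i
  simp only [mem_filter, mem_bits, hx, and_assoc]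
theorem cnt3_eq (h : Lt Z 64) (hm : Lt m 62) (h3 : ∀ i, tb m i = true → cn A Z i ≤ 3) :
    cnt3 (nb3 A Z) m = ∑ i ∈ bits m, cn A Z i := by
  have h1 : ∀ k < 3, pop (Nat.land (row (nb3 A Z) k) m) =
      ∑ i ∈ bits m, if k < cn A Z i then 1 else 0 := fun k hk =>
    ba_pop hm fun i => by rw [tb_land, tb_nb3 h hk, and_comm]
  rw [cnt3, h1 0 (by omega), h1 1 (by omega), h1 2 (by omega), Nat.add_eq, Nat.add_eq,
    ← sum_add_distrib, ← sum_add_distrib]
  refine sum_congr rfl fun i hi => ?_
  have := h3 i (mem_bits.1 hi).2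
  split_ifs <;> omega
theorem w0s_eq {T E0 E1 E2 : ℕ} (h : Lt T 62) : w0s T E0 E1 E2 =
    ∑ i ∈ bits T, (7 + 2 * (tb E2 i).toNat + 4 * (tb E1 i).toNat + 7 * (tb E0 i).toNat) := by
  have h1 : ∀ E, pop (Nat.land T E) = ∑ i ∈ bits T, (tb E i).toNat := fun E => by
    rw [ba_pop h (P := fun i => tb E i = true) fun i => tb_land]
    exact sum_congr rfl fun i _ => by cases tb E i <;> simp
  simp only [w0s, h1, pop_eq h, Nat.add_eq, Nat.mul_eq, sum_add_distrib, ← mul_sum, sum_const,
    smul_eq_mul]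
  ring
theorem w1s_eq {V E0 E1 : ℕ} (h : Lt V 62) : w1s V E0 E1 =
    ∑ i ∈ bits V, ((!tb E1 i).toNat + 7 * (!tb E0 i).toNat) := by
  have h1 : ∀ E, pop (dif V E) = ∑ i ∈ bits V, (!tb E i).toNat := fun E => by
    rw [ba_pop h (P := fun i => tb E i = false) fun i => tb_dif]
    exact sum_congr rfl fun i _ => by cases tb E i <;> simp
  simp only [w1s, h1, Nat.add_eq, Nat.mul_eq, sum_add_distrib, ← mul_sum]
theorem gm_zero : gm 0 q = 0 := by simp [gm]
theorem ba_gm (mp q i : ℕ) : (gm mp q).testBit i = (mp.testBit (7 * q + i) && decide (i < 7)) := by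
  have h : gm mp q = (mp >>> (7 * q)) &&& (2 ^ 7 - 1) := rfl
  rw [h, Nat.testBit_and, Nat.testBit_two_pow_sub_one, Nat.testBit_shiftRight]
theorem gm_sm {mp z p : ℕ} (h : gm mp q = 0) (hz : z < 127) :
    gm (sm mp q z) p = if p = q then z + 1 else gm mp p := by
  have h1 : ∀ i, 7 ≤ i → (z + 1).testBit i = false := fun i hi =>
    Nat.testBit_lt_two_pow (lt_of_lt_of_le (by omega : z + 1 < 2 ^ 7)
      (Nat.pow_le_pow_right (by omega) hi))
  have h2 : sm mp q z = mp ||| ((z + 1) <<< (7 * q)) := rfl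
  refine Nat.eq_of_testBit_eq fun i => ?_
  rw [ba_gm, h2, Nat.testBit_or, Nat.testBit_shiftLeft]
  split_ifs with e
  · subst e
    have h3 := ba_gm mp p i
    rw [h, Nat.zero_testBit] at h3
    by_cases e : i < 7
    · simp [e] at h3
      simp [e, h3]
    · simp [e, h1 i (by omega)]
  · rw [ba_gm]
    by_cases e' : i < 7
    · by_cases e'' : 7 * p + i ≥ 7 * q
      · rw [h1 _ (by omega)]
        simp
      · simp [e'']
    · simp [e']

end Pool.Agent.Lib.MP_5a2675_co.D7
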