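import Mathlib
import Pool.Agent.Lib.MP_5a2675_co.D7.BA

set_option autoImplicit false

namespace Pool.Agent.Lib.MP_5a2675_co.D7

open Finset
open Classical

variable {G G' : SimpleGraph ℕ} {S S' M X : Finset ℕ} {Γ : Gam} {C : Cfg} {f g : ℕ → ℕ}
  {a b c i j k l m n q r s t v w x y A J R Z Mk : ℕ}

theorem allL_iff {α : Type} {p : α → Bool} {L : List α} :
    allL p L = true ↔ ∀ e ∈ L, p e = true := by
  induction L with
  | nil => simp [allL]
  | cons a L ih =>
    change cond (p a) (allL p L) false = true ↔ _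
    cases h : p a <;> simp [h, ih]
theorem anyL_iff {α : Type} {p : α → Bool} {L : List α} :
    anyL p L = true ↔ ∃ e ∈ L, p e = true := by
  induction L with
  | nil => simp [anyL]
  | cons a L ih =>
    change cond (p a) true (anyL p L) = true ↔ _
    cases h : p a <;> simp [h, ih]
theorem tb_orL {α : Type} {p : α → ℕ} {L : List α} :
    tb (orL p L) i = true ↔ ∃ e ∈ L, tb (p e) i = true := by
  induction L with
  | nil => simp [orL, tb_zero]
  | cons a L ih =>
    change tb (Nat.lor (p a) (orL p L)) i = true ↔ _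
    rw [tb_lor, ih]
    simp
theorem sumL_eq {α : Type} (p : α → ℕ) (L : List α) : sumL p L = (L.map p).sum := by
  induction L with
  | nil => rfl
  | cons a L ih => exact congrArg (p a + ·) ih
theorem mapL_eq {α β : Type} (p : α → β) (L : List α) : mapL p L = L.map p := by
  induction L with
  | nil => rfl
  | cons a L ih => exact congrArg (p a :: ·) ih
theorem appL_eq {α : Type} (L L' : List α) : appL L L' = L ++ L' := by
  induction L with
  | nil => rfl
  | cons a L ih => exact congrArg (a :: ·) ih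
theorem filL_eq (p : ℕ → Bool) (L : List ℕ) : filL p L = L.filter p := by
  induction L with
  | nil => rfl
  | cons a L ih =>
    change cond (p a) (a :: filL p L) (filL p L) = _
    cases h : p a <;> simp [h, ih]
theorem cntL_eq (p : ℕ → Bool) (L : List ℕ) : cntL p L = (L.filter p).length := by
  induction L with
  | nil => rfl
  | cons a L ih =>
    change cond (p a) (Nat.succ (cntL p L)) (cntL p L) = _
    cases h : p a <;> simp [h, ih]
theorem okI_iff {α : Type} {L : List α} : okI L i = true ↔ i < L.length := by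
  simp [okI]
theorem mn_eq (a b : ℕ) : mn a b = min a b := by
  unfold mn
  cases h : Nat.ble a b
  · exact (min_eq_right (Nat.le_of_not_ge fun h' => by
      simp [Nat.ble_eq_true_of_le (show a ≤ b from h')] at h)).symm
  · exact (min_eq_left (Nat.le_of_ble_eq_true h)).symm
theorem bb_eqL {α : Type} {e : α → α → Bool} (he : ∀ x y, e x y = true → x = y) :
    ∀ L L' : List α, eqL e L L' = true → L = L' := by
  intro L
  induction L with
  | nil =>
    intro L' h
    cases L' with
    | nil => rfl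
    | cons b r => exact absurd h Bool.false_ne_true
  | cons a L ih =>
    intro L' h
    cases L' with
    | nil => exact absurd h Bool.false_ne_true
    | cons b r =>
      change cond (e a b) (eqL e L r) false = true at h
      cases h' : e a b
      · simp [h'] at h
      · rw [h'] at h
        rw [he _ _ h', ih _ h]
theorem ceq_eq {D : Cfg} (h : ceq C D = true) : C = D := by
  simp only [ceq, Bool.and_eq_true, Nat.beq_eq] at h
  obtain ⟨⟨⟨⟨⟨⟨⟨⟨⟨⟨⟨⟨⟨h1, h2⟩, h3⟩, h4⟩, h5⟩, h6⟩, h7⟩, h8⟩, h9⟩, h10⟩, h11⟩, h12⟩, h13⟩, h14⟩ := h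
  have e1 := bb_eqL (fun x y h => by
    cases x; cases y
    simp only [beqB, Bool.and_eq_true, Nat.beq_eq] at h
    simp [h]) _ _ h11
  have e2 := bb_eqL (fun x y h => by
    simp only [Bool.and_eq_true, Nat.beq_eq] at h
    exact Prod.ext h.1 h.2) _ _ h12
  have e3 := bb_eqL (fun x y h => by
    cases x; cases y
    simp only [beqF, Bool.and_eq_true, Nat.beq_eq] at h
    simp [h]) _ _ h13
  have e4 := bb_eqL (fun x y h => by
    cases x; cases y
    simp only [beqJ, Bool.and_eq_true, Nat.beq_eq] at h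
    simp [h]) _ _ h14
  cases C; cases D
  simp only at h1 h2 h3 h4 h5 h6 h7 h8 h9 h10 e1 e2 e3 e4
  simp [*]
theorem mem_dd {L : List Cfg} (h : C ∈ L) : C ∈ dd L := by
  induction L with
  | nil => exact h
  | cons c L ih =>
    change C ∈ cond (anyL (ceq c) (dd L)) (dd L) (c :: dd L)
    cases h' : anyL (ceq c) (dd L)
    · rcases List.mem_cons.1 h with rfl | h
      · exact List.mem_cons_self
      · exact List.mem_cons_of_mem _ (ih h)
    · rcases List.mem_cons.1 h with rfl | h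
      · obtain ⟨e, he, h2⟩ := anyL_iff.1 h'
        exact ceq_eq h2 ▸ he
      · exact ih h
theorem gb_mem (h : okI C.bl l = true) : gb C l ∈ C.bl := by
  rw [gb, List.getD_eq_getElem _ _ (okI_iff.1 h)]
  exact List.getElem_mem _
theorem gb_mem_of_NOJ (h : (gb C l).J = NOJ) : gb C l ∈ C.bl := by
  by_cases hl : l < C.bl.length
  · exact gb_mem (okI_iff.2 hl)
  · rw [gb, List.getD_eq_default _ _ (not_lt.1 hl)] at h
    exact absurd h (by decide)
theorem gf_mem (h : okI C.pf l = true) : gf C l ∈ C.pf := by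
  rw [gf, List.getD_eq_getElem _ _ (okI_iff.1 h)]
  exact List.getElem_mem _
theorem pairD_iff {L : List (Blob × ℕ)} :
    pairD A L = true ↔ L.Pairwise fun u v => disj A u.1 v.1 = true := by
  induction L with
  | nil => simp [pairD]
  | cons a L ih =>
    change (allL (fun y => disj A a.1 y.1) L && pairD A L) = true ↔ _
    rw [Bool.and_eq_true, allL_iff, ih, List.pairwise_cons]
theorem bb_log (h : a ≠ 0) : tb a (Nat.log2 a) = true := by
  rw [tb_eq]
  exact Nat.testBit_log2 h
theorem bb_le_log (h : tb a i = true) : i ≤ Nat.log2 a := by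
  rw [tb_eq] at h
  have h1 := Nat.ge_two_pow_of_testBit h
  exact (Nat.le_log2 (by have := Nat.two_pow_pos i; omega)).2 h1
theorem bb_cond {α : Type} (u v : α) : cond (Nat.beq a b) u v = if a = b then u else v := by
  by_cases h : a = b
  · rw [if_pos h, h, Nat.beq_refl]; rfl
  · rw [if_neg h, Bool.eq_false_iff.2 fun h' => h (Nat.eq_of_beq_eq_true h')]; rfl
theorem bb_cloL {adj : ℕ → ℕ} {reg fuel todo seen : ℕ} : cloL adj reg (fuel + 1) todo seen =
    if todo = 0 then seen else cloL adj reg fuel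
      (Nat.lor (Nat.xor todo (bit (Nat.log2 todo))) (dif (Nat.land (adj (Nat.log2 todo)) reg) seen))
      (Nat.lor seen (dif (Nat.land (adj (Nat.log2 todo)) reg) seen)) := bb_cond _ _
theorem bb_pcsL {adj : ℕ → ℕ} {K fuel F : ℕ} : pcsL adj K (fuel + 1) F =
    if F = 0 then [] else clo adj K (bit (Nat.log2 F)) ::
      pcsL adj K fuel (dif F (clo adj K (bit (Nat.log2 F)))) := bb_cond _ _
/-- everything in the closure has the property `P` -/
theorem clo_ind {adj : ℕ → ℕ} {reg seed : ℕ} (P : ℕ → Prop) (h0 : ∀ i, tb seed i = true → P i)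
    (h1 : ∀ i j, P i → tb (adj i) j = true → tb reg j = true → P j) :
    ∀ i, tb (clo adj reg seed) i = true → P i := by
  have key : ∀ fuel todo seen, (∀ i, tb todo i = true → P i) → (∀ i, tb seen i = true → P i) →
      ∀ i, tb (cloL adj reg fuel todo seen) i = true → P i := by
    intro fuel
    induction fuel with
    | zero => exact fun _ _ _ h => h
    | succ fuel ih =>
      intro todo seen ht hs
      rw [bb_cloL]
      split_ifs with h
      · exact hs
      · have hn : ∀ i, tb (dif (Nat.land (adj (Nat.log2 todo)) reg) seen) i = true → P i :=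
          fun i hi => h1 _ _ (ht _ (bb_log h)) (tb_land.1 (tb_dif.1 hi).1).1
            (tb_land.1 (tb_dif.1 hi).1).2
        refine ih _ _ (fun i hi => (tb_lor.1 hi).elim (fun hi => ht _ ?_) (hn i))
          fun i hi => (tb_lor.1 hi).elim (hs i) (hn i)
        by_cases e : i = Nat.log2 todo
        · exact e ▸ bb_log h
        · have h2 : (bit (Nat.log2 todo)).testBit i = false := by
            rw [← tb_eq]
            exact Bool.eq_false_iff.2 fun h => e (tb_bit.1 h)
          rw [tb_eq] at hi ⊢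
          change (todo ^^^ bit (Nat.log2 todo)).testBit i = true at hi
          simpa [h2] using hi
  exact key 64 seed seed h0 h0
theorem seed_clo {adj : ℕ → ℕ} {reg seed : ℕ} (h : tb seed i = true) :
    tb (clo adj reg seed) i = true := by
  have key : ∀ fuel todo seen, tb seen i = true → tb (cloL adj reg fuel todo seen) i = true := by
    intro fuel
    induction fuel with
    | zero => exact fun _ _ h => h
    | succ fuel ih =>
      intro todo seen hs
      rw [bb_cloL]
      split_ifs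
      · exact hs
      · exact ih _ _ (tb_lor.2 (Or.inl hs))
  exact key 64 seed seed h
theorem pcsL_len {adj : ℕ → ℕ} {K F : ℕ} : (pcsL adj K 64 F).length ≤ 64 := by
  have key : ∀ fuel F, (pcsL adj K fuel F).length ≤ fuel := by
    intro fuel
    induction fuel with
    | zero => exact fun _ => le_rfl
    | succ fuel ih =>
      intro F
      rw [bb_pcsL]
      split_ifs
      · exact Nat.zero_le _
      · exact Nat.succ_le_succ (ih _)
  exact key 64 F
theorem pcsL_cov {adj : ℕ → ℕ} {K F : ℕ} (h : Lt F 64) (hi : tb F i = true) :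
    ∃ s ∈ pcsL adj K 64 F, tb s i = true := by
  have key : ∀ fuel F, Lt F fuel → tb F i = true → ∃ s ∈ pcsL adj K fuel F, tb s i = true := by
    intro fuel
    induction fuel with
    | zero => exact fun _ h hi => absurd (h _ hi) (Nat.not_lt_zero _)
    | succ fuel ih =>
      intro F h hi
      rw [bb_pcsL]
      split_ifs with h0
      · rw [h0, tb_zero] at hi
        exact absurd hi Bool.false_ne_true
      · cases hc : tb (clo adj K (bit (Nat.log2 F))) i
        · obtain ⟨s, hs, h2⟩ := ih (dif F (clo adj K (bit (Nat.log2 F)))) (fun j hj => by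
            have h3 := bb_le_log (tb_dif.1 hj).1
            have h4 := h _ (bb_log h0)
            have h5 : j ≠ Nat.log2 F := fun e => by
              have := (tb_dif.1 hj).2
              rw [seed_clo (tb_bit.2 e)] at this
              exact absurd this.symm Bool.false_ne_true
            omega) (tb_dif.2 ⟨hi, hc⟩)
          exact ⟨s, List.mem_cons_of_mem _ hs, h2⟩
        · exact ⟨_, List.mem_cons_self, hc⟩
  exact key 64 F h hi
theorem pcsL_mem {adj : ℕ → ℕ} {K F : ℕ} (h : s ∈ pcsL adj K 64 F) :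
    ∃ i, tb F i = true ∧ s = clo adj K (bit i) := by
  have key : ∀ fuel F, s ∈ pcsL adj K fuel F → ∃ i, tb F i = true ∧ s = clo adj K (bit i) := by
    intro fuel
    induction fuel with
    | zero => exact fun _ h => absurd h List.not_mem_nil
    | succ fuel ih =>
      intro F h
      rw [bb_pcsL] at h
      split_ifs at h with h0
      · exact absurd h List.not_mem_nil
      · rcases List.mem_cons.1 h with h | h
        · exact ⟨_, bb_log h0, h⟩
        · obtain ⟨i, h1, h2⟩ := ih _ h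
          exact ⟨i, (tb_dif.1 h1).1, h2⟩
  exact key 64 F h
/-! joins -/
theorem jp_NOJ : jp NOJ i = 0 := rfl
theorem bb_NOJ : ja0 NOJ = 63 ∧ jb0 NOJ = 63 ∧ ja1 NOJ = 63 ∧ jb1 NOJ = 63 := by decide
theorem bb_jwf1 : jwf1 n a b = true ↔ (a = 63 ∧ b = 63) ∨ (a ≠ 63 ∧ a ≠ b ∧ a < n ∧ b < n) := by
  rw [jwf1, bb_cond, bb_cond]
  split_ifs with h1 h2
  · simp [h1]
  · simp [← h2, h1]
  · cases h : Nat.ble a.succ n
    · have : ¬ a < n := fun h' => by simp [Nat.ble_eq_true_of_le (Nat.succ_le_of_lt h')] at h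
      simp [h1, this]
    · have : a < n := Nat.le_of_ble_eq_true h
      simp [h1, h2, this]
theorem bb_jwf : jwf n J = true ↔
    (((ja0 J = 63 ∧ jb0 J = 63) ∨ (ja0 J ≠ 63 ∧ ja0 J ≠ jb0 J ∧ ja0 J < n ∧ jb0 J < n)) ∧
    ((ja1 J = 63 ∧ jb1 J = 63) ∨ (ja1 J ≠ 63 ∧ ja1 J ≠ jb1 J ∧ ja1 J < n ∧ jb1 J < n))) ∧
    (ja0 J = 63 ∨ ¬ ((ja0 J = ja1 J ∧ jb0 J = jb1 J) ∨ (ja0 J = jb1 J ∧ jb0 J = ja1 J))) := by
  rw [jwf, Bool.and_eq_true, Bool.and_eq_true, bb_jwf1, bb_jwf1]
  refine and_congr_right fun _ => ?_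
  rw [Bool.or_eq_true, Bool.not_eq_true', ← Bool.not_eq_true]
  simp only [Bool.or_eq_true, Bool.and_eq_true, Nat.beq_eq]
theorem bb_jp1 : tb (jp1 a b i) j = true ↔ (i = a ∧ j = b) ∨ (i ≠ a ∧ i = b ∧ j = a) := by
  rw [jp1, bb_cond, bb_cond]
  split_ifs with h1 h2
  · simp [h1, tb_bit]
  · simp [h2, tb_bit, show ¬ b = a from h2 ▸ h1]
  · simp [h1, h2, tb_zero]
theorem bb_jm : tb (jm J (ones n)) i = true ↔
    i < n ∧ ((i = ja0 J ∨ i = jb0 J) ∨ i = ja1 J ∨ i = jb1 J) := by
  simp only [jm, tb_land, tb_ones, tb_lor, tb_bit]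
theorem bb_jd : tb (jd J (ones n)) i = true ↔
    i < n ∧ (i = ja0 J ∨ i = jb0 J) ∧ (i = ja1 J ∨ i = jb1 J) := by
  simp only [jd, tb_land, tb_ones, tb_lor, tb_bit]
theorem jd_jm (h : tb (jd J (ones n)) i = true) : tb (jm J (ones n)) i = true :=
  bb_jm.2 ⟨(bb_jd.1 h).1, Or.inl (bb_jd.1 h).2.1⟩
theorem jn_zero (h : tb (jm J (ones n)) i = false) : jn J n i = 0 := by
  have : tb (jd J (ones n)) i = false := Bool.eq_false_iff.2 fun e => by
    rw [jd_jm e] at h
    exact Bool.noConfusion h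
  rw [jn, h, this]
  rfl
theorem jn_pos (h : tb (jm J (ones n)) i = true) : 1 ≤ jn J n i := by
  rw [jn, h]
  exact Nat.le_add_right _ _
theorem jn_le : jn J n i ≤ 1 + (tb (jd J (ones n)) i).toNat :=
  Nat.add_le_add_right (Bool.toNat_le _) _
theorem tb_jx (hn : n ≤ 64) (hi : i < 64) : tb (jx J (ones n)) i = tb (jm J (ones n)) i := by
  have _ := hn
  rw [tb_eq, tb_eq, jx]
  change (jm J (ones n) ||| jd J (ones n) <<< 64).testBit i = _
  rw [Nat.testBit_or, Nat.testBit_shiftLeft]
  simp [Nat.not_le.2 hi]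
theorem tb_jx64 (hn : n ≤ 64) :
    tb (Nat.shiftRight (jx J (ones n)) 64) i = tb (jd J (ones n)) i := by
  have h1 : (jm J (ones n)).testBit (64 + i) = false := by
    rw [← tb_eq]
    exact Bool.eq_false_iff.2 fun e => by have := (bb_jm.1 e).1; omega
  rw [tb_eq, tb_eq, jx]
  change ((jm J (ones n) ||| jd J (ones n) <<< 64) >>> 64).testBit i = _
  rw [Nat.testBit_shiftRight, Nat.testBit_or, Nat.testBit_shiftLeft, h1]
  simp
theorem jwf_NOJ (h : n ≤ 63) : jwf n NOJ = true := by
  rw [bb_jwf, bb_NOJ.1, bb_NOJ.2.1, bb_NOJ.2.2.1, bb_NOJ.2.2.2]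
  omega
theorem jm_NOJ (h : n ≤ 63) : jm NOJ (ones n) = 0 := by
  refine eq_zero_iff_tb.2 fun i => Bool.eq_false_iff.2 fun hi => ?_
  rw [bb_jm, bb_NOJ.1, bb_NOJ.2.1, bb_NOJ.2.2.1, bb_NOJ.2.2.2] at hi
  omega
theorem jn_NOJ (h : n ≤ 63) : jn NOJ n i = 0 := jn_zero (by rw [jm_NOJ h, tb_zero])
theorem jx_NOJ (h : n ≤ 63) : jx NOJ (ones n) = 0 := by
  have : jd NOJ (ones n) = 0 := eq_zero_iff_tb.2 fun i => Bool.eq_false_iff.2 fun hi => by
    have := jd_jm hi
    rw [jm_NOJ h, tb_zero] at this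
    exact Bool.noConfusion this
  rw [jx, jm_NOJ h, this]
  rfl
theorem jwf_mono (h : jwf n J = true) (hn : n ≤ m) (hm : m ≤ 63) : jwf m J = true := by
  rw [bb_jwf] at h ⊢
  omega
theorem tb_jp (h : jwf n J = true) (hn : n ≤ 63) (hi : i < 63) : tb (jp J i) j = true ↔
    (i = ja0 J ∧ j = jb0 J) ∨ (i = jb0 J ∧ j = ja0 J) ∨ (i = ja1 J ∧ j = jb1 J) ∨
      (i = jb1 J ∧ j = ja1 J) := by
  rw [jp, bb_cond]
  split_ifs with h0
  · rw [h0, bb_NOJ.1, bb_NOJ.2.1, bb_NOJ.2.2.1, bb_NOJ.2.2.2, tb_zero]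
    simp [hi.ne]
  · rw [tb_lor, bb_jp1, bb_jp1]
    have := (bb_jwf.1 h).1
    omega
theorem jp_lt (h : jwf n J = true) (hn : n ≤ 63) (hi : i < 63) (hj : tb (jp J i) j = true) :
    i < n ∧ j < n ∧ i ≠ j ∧ tb (jp J j) i = true := by
  have h1 := (tb_jp h hn hi).1 hj
  have h2 := (bb_jwf.1 h).1
  have h3 : j < n := by omega
  rw [tb_jp h hn (h3.trans_le hn)]
  omega
theorem jp_Lt : Lt (jp J i) 64 := by
  intro j hj
  rw [jp, bb_cond] at hj
  split_ifs at hj
  · rw [tb_zero] at hj
    exact absurd hj Bool.false_ne_true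
  · rw [tb_lor, bb_jp1, bb_jp1] at hj
    have h1 : ja0 J ≤ 63 := Nat.and_le_right
    have h2 : jb0 J ≤ 63 := Nat.and_le_right
    have h3 : ja1 J ≤ 63 := Nat.and_le_right
    have h4 : jb1 J ≤ 63 := Nat.and_le_right
    omega
theorem tb_jm (h : jwf n J = true) (hn : n ≤ 63) :
    tb (jm J (ones n)) i = true ↔ i < 63 ∧ ∃ j, tb (jp J i) j = true := by
  rw [bb_jm]
  constructor
  · rintro ⟨h1, h2⟩
    refine ⟨h1.trans_le hn, ?_⟩
    simp only [tb_jp h hn (h1.trans_le hn)]
    rcases h2 with (h2 | h2) | h2 | h2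
    exacts [⟨_, .inl ⟨h2, rfl⟩⟩, ⟨_, .inr (.inl ⟨h2, rfl⟩)⟩, ⟨_, .inr (.inr (.inl ⟨h2, rfl⟩))⟩,
      ⟨_, .inr (.inr (.inr ⟨h2, rfl⟩))⟩]
  · rintro ⟨hi, j, hj⟩
    have h1 := (tb_jp h hn hi).1 hj
    exact ⟨(jp_lt h hn hi hj).1, by omega⟩
/-- the number of join partners -/
theorem jp_card (h : jwf n J = true) (hn : n ≤ 63) (hi : i < n) :
    (bits (jp J i)).card = jn J n i := by
  have hi' : i < 63 := hi.trans_le hn
  have h3 := bb_jwf.1 h
  have hm : ∀ l, l ∈ bits (jp J i) ↔ (i = ja0 J ∧ l = jb0 J) ∨ (i = jb0 J ∧ l = ja0 J) ∨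
      (i = ja1 J ∧ l = jb1 J) ∨ (i = jb1 J ∧ l = ja1 J) := fun l => by
    rw [mem_bits' jp_Lt, tb_jp h hn hi']
  have one : ∀ x, (∀ l, l ∈ bits (jp J i) ↔ l = x) → (bits (jp J i)).card = 1 := fun x hx => by
    rw [show bits (jp J i) = {x} from ext fun l => by rw [hx, mem_singleton], card_singleton]
  have two : ∀ x y, x ≠ y → (∀ l, l ∈ bits (jp J i) ↔ l = x ∨ l = y) →
      (bits (jp J i)).card = 2 := fun x y hxy hx => by
    rw [show bits (jp J i) = {x, y} from ext fun l => by rw [hx, mem_insert, mem_singleton],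
      card_pair hxy]
  cases e : tb (jm J (ones n)) i
  · rw [jn_zero e, card_eq_zero]
    have h4 := mt bb_jm.2 (Bool.eq_false_iff.1 e)
    exact eq_empty_of_forall_notMem fun l hl => by rw [hm] at hl; omega
  · have h4 := bb_jm.1 e
    cases e' : tb (jd J (ones n)) i
    · have h5 := mt bb_jd.2 (Bool.eq_false_iff.1 e')
      rw [jn, e, e']
      rcases h4.2 with (h6 | h6) | h6 | h6
      · exact one (jb0 J) fun l => by rw [hm]; omega
      · exact one (ja0 J) fun l => by rw [hm]; omega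
      · exact one (jb1 J) fun l => by rw [hm]; omega
      · exact one (ja1 J) fun l => by rw [hm]; omega
    · have h5 := bb_jd.1 e'
      rw [jn, e, e']
      rcases h5.2 with ⟨h6 | h6, h7 | h7⟩
      · exact two (jb0 J) (jb1 J) (by omega) fun l => by rw [hm]; omega
      · exact two (jb0 J) (ja1 J) (by omega) fun l => by rw [hm]; omega
      · exact two (ja0 J) (jb1 J) (by omega) fun l => by rw [hm]; omega
      · exact two (ja0 J) (ja1 J) (by omega) fun l => by rw [hm]; omega
theorem GJ_NOJ : GJ G f NOJ = G := by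
  ext x y
  simp [GJ, JG, jp_NOJ, tb_zero]
theorem le_GJ : G ≤ GJ G f J := le_sup_left
theorem GJ_adj (h : jwf n J = true) (hn : n ≤ 63) (hf : ∀ i < n, ∀ j < n, f i = f j → i = j) :
    (GJ G f J).Adj x y ↔
      G.Adj x y ∨ ∃ i j, i < n ∧ tb (jp J i) j = true ∧ f i = x ∧ f j = y := by
  rw [GJ, SimpleGraph.sup_adj, JG, SimpleGraph.fromRel_adj]
  refine or_congr_right ⟨?_, ?_⟩
  · rintro ⟨-, ⟨i, j, hi, hj, e⟩ | ⟨i, j, hi, hj, e⟩⟩
    · exact ⟨i, j, (jp_lt h hn hi hj).1, hj, e⟩
    · exact ⟨j, i, (jp_lt h hn hi hj).2.1, (jp_lt h hn hi hj).2.2.2, e.symm⟩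
  · rintro ⟨i, j, hi, hj, rfl, rfl⟩
    have h1 := jp_lt h hn (hi.trans_le hn) hj
    exact ⟨fun e => h1.2.2.1 (hf _ hi _ h1.2.1 e), .inl ⟨i, j, hi.trans_le hn, hj, rfl, rfl⟩⟩
theorem GJ_congr (h : jwf n J = true) (hn : n ≤ 63) (hf : ∀ i < n, g i = f i) :
    GJ G g J = GJ G f J := by
  have : (fun x y => ∃ i j, i < 63 ∧ tb (jp J i) j = true ∧ g i = x ∧ g j = y) =
      fun x y => ∃ i j, i < 63 ∧ tb (jp J i) j = true ∧ f i = x ∧ f j = y := by
    funext x y
    refine propext (exists₂_congr fun i j => and_congr_right fun hi => and_congr_right fun hj => ?_)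
    rw [hf _ (jp_lt h hn hi hj).1, hf _ (jp_lt h hn hi hj).2.1]
  rw [GJ, GJ, JG, JG, this]
theorem tb_adjJ : tb (adjJ A J i) j = true ↔ tb (row A i) j = true ∨ tb (jp J i) j = true := tb_lor
theorem adjJ_Lt : Lt (adjJ A J i) 64 := fun j hj => (tb_lor.1 hj).elim (row_lt j) (jp_Lt j)
theorem tyOK_nomark (h : GamOK G S M Γ) (hm : Γ.nomark = true) (hg : Good G S M)
    (hd : ∀ v ∈ S, 1 ≤ deg G S v) : NoMark S M := by
  intro v hv hM
  have h1 := h.ty v hv
  have h2 := (hg v hv).2 hM
  have h3 := hd v hv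
  rw [decide_eq_true hM] at h1
  have h4 := dj_iff.1 hm _ h1
  obtain e | e : deg G S v = 1 ∨ deg G S v = 2 := by omega
  all_goals
    rw [e] at h4
    exact absurd h4 (by decide)
theorem tyOK_noleaf (h : GamOK G S M Γ) (hm : Γ.noleaf = true) (hg : Good G S M)
    (hd : ∀ v ∈ S, 1 ≤ deg G S v) : NoMark S M ∧ ∀ v ∈ S, 2 ≤ deg G S v := by
  refine ⟨tyOK_nomark h (dj_iff.2 fun i hi => ?_) hg hd, fun v hv => by_contra fun h2 => ?_⟩
  · have h1 := dj_iff.1 hm i hi
    rw [tb_eq] at h1 ⊢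
    have : (96 : ℕ) = 98 &&& 96 := by decide
    rw [this, Nat.testBit_and, h1, Bool.false_and]
  · have h4 := dj_iff.1 hm _ (h.ty v hv)
    have h3 := hd v hv
    rw [show deg G S v = 1 by omega] at h4
    revert h4
    cases decide (v ∈ M) <;> decide

end Pool.Agent.Lib.MP_5a2675_co.D7
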