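import Mathlib
import Pool.Agent.Lib.MP_5a2675_co.D7.Base

set_option autoImplicit false

namespace Pool.Agent.Lib.MP_5a2675_co.D7

open Finset
open Classical

variable {G G' : SimpleGraph ℕ} {S S' M M' X D : Finset ℕ} {v w : ℕ}

theorem mem_N : w ∈ N G S v ↔ w ∈ S ∧ G.Adj v w := by simp [N]

theorem gam_le (h : Dom G S M D) : gam G S M ≤ D.card :=
  Nat.sInf_le ⟨D, h, rfl⟩

theorem exists_dom (G : SimpleGraph ℕ) (S M : Finset ℕ) :
    ∃ D, Dom G S M D ∧ D.card = gam G S M := by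
  have hne : {k | ∃ D, Dom G S M D ∧ D.card = k}.Nonempty :=
    ⟨S.card, S, ⟨Finset.Subset.refl S, fun v hv _ => Or.inl hv⟩, rfl⟩
  exact Nat.sInf_mem hne

/-! components -/

theorem ga_mem_comp : w ∈ comp G S v ↔
    w ∈ S ∧ Relation.ReflTransGen (fun a b => a ∈ S ∧ b ∈ S ∧ G.Adj a b) v w := by
  simp only [comp, Finset.mem_filter]

theorem ga_symm {a b : ℕ} (h : Relation.ReflTransGen (fun a b => a ∈ S ∧ b ∈ S ∧ G.Adj a b) a b) :
    Relation.ReflTransGen (fun a b => a ∈ S ∧ b ∈ S ∧ G.Adj a b) b a := by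
  induction h with
  | refl => exact Relation.ReflTransGen.refl
  | tail _ hbc ih => exact Relation.ReflTransGen.head ⟨hbc.2.1, hbc.1, hbc.2.2.symm⟩ ih

theorem comp_subset : comp G S v ⊆ S := fun _ hw => (ga_mem_comp.mp hw).1

theorem mem_comp_self (hv : v ∈ S) : v ∈ comp G S v :=
  ga_mem_comp.mpr ⟨hv, Relation.ReflTransGen.refl⟩

theorem comp_closed : Closed G S (comp G S v) :=
  ⟨comp_subset, fun _ ha _ hb hab => ga_mem_comp.mpr
    ⟨hb, (ga_mem_comp.mp ha).2.tail ⟨(ga_mem_comp.mp ha).1, hb, hab⟩⟩⟩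

theorem comp_subset_of_closed (hX : Closed G S X) (hv : v ∈ X) : comp G S v ⊆ X := by
  intro w hw
  have h := (ga_mem_comp.mp hw).2
  clear hw
  induction h with
  | refl => exact hv
  | tail _ hbc ih => exact hX.2 _ ih _ hbc.2.1 hbc.2.2

theorem comp_conn : Conn G (comp G S v) := by
  rintro X hX ⟨x, hx⟩
  refine Finset.Subset.antisymm hX.1 ?_
  have hvx := (ga_mem_comp.mp (hX.1 hx)).2
  intro w hw
  have h := (ga_symm hvx).trans (ga_mem_comp.mp hw).2
  clear hw
  induction h with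
  | refl => exact hx
  | tail hab hbc ih =>
    exact hX.2 _ ih _ (ga_mem_comp.mpr ⟨hbc.2.1, (hvx.trans hab).tail hbc⟩) hbc.2.2

theorem comp_eq_of_mem (hw : w ∈ comp G S v) : comp G S w = comp G S v := by
  have h := (ga_mem_comp.mp hw).2
  ext x
  rw [ga_mem_comp, ga_mem_comp]
  exact ⟨fun hx => ⟨hx.1, h.trans hx.2⟩, fun hx => ⟨hx.1, (ga_symm h).trans hx.2⟩⟩

/-- a connected set lies inside one component, also after adding edges -/
theorem conn_subset_comp (hX : Conn G X) (hG : G ≤ G') (hS : X ⊆ S) (hv : v ∈ X) :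
    X ⊆ comp G' S v := by
  have h : X ∩ comp G' S v = X := by
    refine hX _ ⟨Finset.inter_subset_left, fun a ha b hb hab => ?_⟩
      ⟨v, Finset.mem_inter.mpr ⟨hv, mem_comp_self (hS hv)⟩⟩
    exact Finset.mem_inter.mpr
      ⟨hb, comp_closed.2 a (Finset.mem_inter.mp ha).2 b (hS hb) (hG hab)⟩
  intro x hx
  rw [← h] at hx
  exact (Finset.mem_inter.mp hx).2

/-- a closed connected set is a component -/
theorem comp_eq_of_closed_conn (hX : Closed G S X) (hc : Conn G X) (hv : v ∈ X) :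
    comp G S v = X :=
  Finset.Subset.antisymm (comp_subset_of_closed hX hv) (conn_subset_comp hc le_rfl hX.1 hv)

/-- connectivity only depends on the edges inside the set -/
theorem conn_congr (h : ∀ a ∈ X, ∀ b ∈ X, G.Adj a b ↔ G'.Adj a b) : Conn G X ↔ Conn G' X := by
  constructor
  · intro hc Y hY hne
    exact hc Y ⟨hY.1, fun a ha b hb hab => hY.2 a ha b hb ((h a (hY.1 ha) b hb).mp hab)⟩ hne
  · intro hc Y hY hne
    exact hc Y ⟨hY.1, fun a ha b hb hab => hY.2 a ha b hb ((h a (hY.1 ha) b hb).mpr hab)⟩ hne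

theorem N_closed (hX : Closed G S X) (hv : v ∈ X) : N G X v = N G S v := by
  ext w
  rw [mem_N, mem_N]
  exact ⟨fun h => ⟨hX.1 h.1, h.2⟩, fun h => ⟨hX.2 v hv w h.1 h.2, h.2⟩⟩

theorem deg_closed (hX : Closed G S X) (hv : v ∈ X) : deg G X v = deg G S v := by
  unfold deg
  rw [N_closed hX hv]

theorem deg_mono (hS : S' ⊆ S) (hG : ∀ b ∈ S', G'.Adj v b → G.Adj v b) :
    deg G' S' v ≤ deg G S v := by
  refine Finset.card_le_card fun b hb => ?_
  rw [mem_N] at hb ⊢
  exact ⟨hS hb.1, hG b hb.1 hb.2⟩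

/-- in a connected graph a proper nonempty subset has an edge leaving it -/
theorem exists_edge_out (hc : Conn G S) (hX : X ⊆ S) (hne : X.Nonempty) (hS : X ≠ S) :
    ∃ a ∈ X, ∃ b ∈ S, b ∉ X ∧ G.Adj a b := by
  by_contra hcon
  refine hS (hc X ⟨hX, fun a ha b hb hab => ?_⟩ hne)
  by_contra hbX
  exact hcon ⟨a, ha, b, hb, hbX, hab⟩

end Pool.Agent.Lib.MP_5a2675_co.D7
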