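import Mathlib
import Pool.Agent.Lib.MP_5a2675_co.D7.GA

set_option autoImplicit false

namespace Pool.Agent.Lib.MP_5a2675_co.D7

open Finset
open Classical

variable {G G' : SimpleGraph ℕ} {S S' M M' X D : Finset ℕ} {v w : ℕ}

theorem emb_mono {P : Pat} {g : ℕ → ℕ} (h : Emb G' S' P g) (hS : S' ⊆ S)
    (hE : ∀ e ∈ P.E, G.Adj (g e.1) (g e.2))
    (hd : ∀ i < P.k, P.con.getD i 0 ≠ 0 → deg G S (g i) = P.con.getD i 0) : Emb G S P g := by
  exact ⟨fun i hi => hS (h.1 i hi), h.2.1, hE, hd⟩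

/-- `l` lists the indices of a copy of `Q` inside `P` -/
def GbSub (Q P : Pat) (l : List ℕ) : Prop :=
  (∀ i < Q.k, l.getD i 0 < P.k) ∧ (∀ i < Q.k, ∀ j < Q.k, l.getD i 0 = l.getD j 0 → i = j) ∧
    (∀ e ∈ Q.E, (l.getD e.1 0, l.getD e.2 0) ∈ P.E ∨ (l.getD e.2 0, l.getD e.1 0) ∈ P.E) ∧
    ∀ i < Q.k, Q.con.getD i 0 ≠ 0 → P.con.getD (l.getD i 0) 0 = Q.con.getD i 0

theorem gb_sub {P Q : Pat} {g : ℕ → ℕ} {l : List ℕ} (h : Emb G S P g) (hl : GbSub Q P l) :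
    Emb G S Q (fun i => g (l.getD i 0)) := by
  obtain ⟨h1, h2, h3, h4⟩ := h
  obtain ⟨l1, l2, l3, l4⟩ := hl
  refine ⟨fun i hi => h1 _ (l1 i hi), fun i hi j hj e => l2 i hi j hj (h2 _ (l1 i hi) _ (l1 j hj) e),
    fun e he => ?_, fun i hi h0 => ?_⟩
  · rcases l3 e he with h | h
    · exact h3 _ h
    · exact (h3 _ h).symm
  · rw [← l4 i hi h0]
    exact h4 _ (l1 i hi) (by rw [l4 i hi h0]; exact h0)

theorem gb_deg_ge {P : Pat} {g : ℕ → ℕ} (h1 : ∀ i < P.k, g i ∈ S)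
    (h2 : ∀ i < P.k, ∀ j < P.k, g i = g j → i = j) (h3 : ∀ e ∈ P.E, G.Adj (g e.1) (g e.2))
    (i : ℕ) (l : List ℕ) (hn : l.Nodup) (hl : ∀ j ∈ l, j < P.k ∧ ((i, j) ∈ P.E ∨ (j, i) ∈ P.E)) :
    l.length ≤ deg G S (g i) := by
  rw [← List.toFinset_card_of_nodup hn]
  refine card_le_card_of_injOn g (fun j hj => ?_) (fun a ha b hb e => ?_)
  · obtain ⟨hk, he⟩ := hl j (List.mem_toFinset.1 hj)
    refine mem_coe.2 (mem_N.2 ⟨h1 j hk, ?_⟩)
    rcases he with he | he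
    · exact h3 _ he
    · exact (h3 _ he).symm
  · exact h2 a (hl a (List.mem_toFinset.1 ha)).1 b (hl b (List.mem_toFinset.1 hb)).1 e

/-- every constrained index has degree three already inside the pattern -/
def GbFull (P : Pat) (L : List (List ℕ)) : Prop :=
  ∀ i < P.k, P.con.getD i 0 ≠ 0 → P.con.getD i 0 = 3 ∧ (L.getD i []).length = 3 ∧
    (L.getD i []).Nodup ∧ ∀ j ∈ L.getD i [], j < P.k ∧ ((i, j) ∈ P.E ∨ (j, i) ∈ P.E)

theorem gb_full {P : Pat} {g : ℕ → ℕ} {L : List (List ℕ)} (hL : GbFull P L) (h : Emb G' S' P g)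
    (hS : S' ⊆ S) (hG : ∀ e ∈ P.E, G.Adj (g e.1) (g e.2)) (h3 : ∀ a ∈ S, deg G S a ≤ 3) :
    Emb G S P g := by
  refine emb_mono h hS hG fun i hi h0 => ?_
  obtain ⟨a, b, c, d⟩ := hL i hi h0
  have := gb_deg_ge (G := G) (fun j hj => hS (h.1 j hj)) h.2.1 hG i _ c d
  have := h3 _ (hS (h.1 i hi))
  omega

theorem gb_root0 : ∀ P ∈ [T0, Ta, Tb, Te, T3, T1], 0 < P.k ∧ P.con.getD 0 0 = 2 ∧
    (∀ e ∈ P.E, e.1 < P.k ∧ e.2 < P.k) ∧
    ∀ i < P.k, i = 0 ∨ P.con.getD i 0 = 0 ∨ P.con.getD i 0 = 3 := by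
  simp only [List.mem_cons, List.not_mem_nil, or_false]
  rintro P (rfl | rfl | rfl | rfl | rfl | rfl) <;> decide

theorem gb_root : ∀ P ∈ [Ta, Tb, Te, T3, T1], 0 < P.k ∧ P.con.getD 0 0 = 2 ∧
    (∀ e ∈ P.E, e.1 < P.k ∧ e.2 < P.k) ∧
    ∀ i < P.k, i = 0 ∨ P.con.getD i 0 = 0 ∨ P.con.getD i 0 = 3 :=
  fun P hP => gb_root0 P (List.mem_cons_of_mem _ hP)

theorem gb_A0 : GbSub T0 Ta [0, 1, 2, 3, 4] := by unfold GbSub; decide
theorem gb_B0 : GbSub T0 Tb [0, 1, 2, 3, 4] := by unfold GbSub; decide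
theorem gb_E0 : GbSub T0 Te [0, 1, 2, 3, 4] := by unfold GbSub; decide
theorem gb_AK : GbSub PK Ta [0, 1, 2, 3, 4] := by unfold GbSub; decide
theorem gb_BK : GbSub PK Tb [0, 1, 2, 3, 4] := by unfold GbSub; decide
theorem gb_EK : GbSub PK Te [0, 1, 2, 3, 4] := by unfold GbSub; decide
theorem gb_AP : GbSub Pa Ta [0, 1, 2, 3, 4] := by unfold GbSub; decide
theorem gb_BP : GbSub Pb Tb [0, 1, 2, 3, 4, 5, 6] := by unfold GbSub; decide
theorem gb_EP : GbSub Pe Te [0, 1, 2, 3, 4, 5, 6, 7] := by unfold GbSub; decide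
theorem gb_PB : GbSub Pb PP [6, 3, 4, 1, 5, 0, 2] := by unfold GbSub; decide
theorem gb_H7B : GbSub Pb H7 [0, 1, 2, 3, 4, 5, 6] := by unfold GbSub; decide
theorem gb_H10E : GbSub Pe H10 [0, 1, 2, 3, 4, 5, 6, 7] := by unfold GbSub; decide
set_option synthInstance.maxSize 1024 in
theorem gb_fullA : GbFull Pa [[], [0, 3, 4], [0, 3, 4], [1, 2, 4], [1, 2, 3]] := by
  unfold GbFull; decide
set_option synthInstance.maxSize 1024 in
theorem gb_fullB : GbFull Pb [[], [0, 3, 4], [0, 3, 4], [1, 2, 5], [1, 2, 6]] := by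
  unfold GbFull; decide
set_option synthInstance.maxSize 1024 in
theorem gb_fullE : GbFull Pe [[], [0, 3, 4], [0, 3, 4], [1, 2, 5], [1, 2, 6]] := by
  unfold GbFull; decide
theorem gb_T0K : GbSub PK T0 [0, 1, 2, 3, 4] := by unfold GbSub; decide
theorem gb_T3P : GbSub PP T3 [0, 1, 2, 3, 4, 5, 6, 7] := by unfold GbSub; decide
theorem gb_T1P : GbSub PP T1 [3, 6, 5, 9, 10, 8, 7, 4] := by unfold GbSub; decide
theorem gb_PK : GbSub PK PP [1, 3, 4, 5, 6] := by unfold GbSub; decide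
theorem gb_H7K : GbSub PK H7 [0, 1, 2, 3, 4] := by unfold GbSub; decide
theorem gb_H10K : GbSub PK H10 [0, 1, 2, 3, 4] := by unfold GbSub; decide
set_option synthInstance.maxSize 1024 in
theorem gb_fullK : GbFull PK [[], [0, 3, 4], [0, 3, 4]] := by unfold GbFull; decide
set_option synthInstance.maxSize 1024 in
theorem gb_fullP :
    GbFull PP [[], [0, 3, 4], [0, 5, 7], [1, 5, 6], [1, 5, 6], [2, 3, 4], [3, 4, 7]] := by
  unfold GbFull; decide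

theorem gb_heavy : ∀ P ∈ [H4, H7, H10], P.k ≤ 10 ∧ ∀ i < P.k, 2 ≤ P.con.getD i 0 := by
  simp only [List.mem_cons, List.not_mem_nil, or_false]
  rintro P (rfl | rfl | rfl) <;> decide

theorem critP_deg (h : CritP G S v) : deg G S v = 2 := by
  obtain ⟨P, hP, g, hg, rfl⟩ := h
  obtain ⟨a, b, -⟩ := gb_root P hP
  rw [← b]
  exact hg.2.2.2 0 a (by omega)

theorem critP_mono (h : CritP G' S' v) (hS : S' ⊆ S)
    (hG : ∀ a ∈ S', ∀ b ∈ S', G'.Adj a b → G.Adj a b) (h3 : ∀ a ∈ S, deg G S a ≤ 3)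
    (h2 : deg G S v = 2) : CritP G S v := by
  obtain ⟨P, hP, g, hg, rfl⟩ := h
  obtain ⟨a, b, c, d⟩ := gb_root P hP
  refine ⟨P, hP, g, emb_mono hg hS (fun e he => hG _ (hg.1 _ (c e he).1) _ (hg.1 _ (c e he).2)
    (hg.2.2.1 e he)) fun i hi h0 => ?_, rfl⟩
  rcases d i hi with rfl | h | h
  · rw [h2, b]
  · exact absurd h h0
  · have e1 := hg.2.2.2 i hi h0
    have e2 := deg_mono (v := g i) hS (hG _ (hg.1 i hi))
    have e3 := h3 _ (hS (hg.1 i hi))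
    omega

theorem critP_KX (h : CritP G S v) : KX G S := by
  obtain ⟨P, hP, g, hg, -⟩ := h
  simp only [List.mem_cons, List.not_mem_nil, or_false] at hP
  rcases hP with rfl | rfl | rfl | rfl | rfl
  · exact ⟨Pa, by simp, _, gb_sub hg gb_AP⟩
  · exact ⟨Pb, by simp, _, gb_sub hg gb_BP⟩
  · exact ⟨Pe, by simp, _, gb_sub hg gb_EP⟩
  · exact ⟨Pb, by simp, _, gb_sub (gb_sub hg gb_T3P) gb_PB⟩
  · exact ⟨Pb, by simp, _, gb_sub (gb_sub hg gb_T1P) gb_PB⟩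

theorem KX_mono (h : KX G' S') (hS : S' ⊆ S)
    (hG : ∀ a ∈ S', ∀ b ∈ S', G'.Adj a b → G.Adj a b) (h3 : ∀ a ∈ S, deg G S a ≤ 3) :
    KX G S := by
  obtain ⟨P, hP, g, hg⟩ := h
  have hE : ∀ P ∈ [Pa, Pb, Pe], ∀ e ∈ P.E, e.1 < P.k ∧ e.2 < P.k := by
    simp only [List.mem_cons, List.not_mem_nil, or_false]
    rintro P (rfl | rfl | rfl) <;> decide
  have h1 : ∀ e ∈ P.E, G.Adj (g e.1) (g e.2) := fun e he =>
    hG _ (hg.1 _ (hE P hP e he).1) _ (hg.1 _ (hE P hP e he).2) (hg.2.2.1 e he)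
  refine ⟨P, hP, g, ?_⟩
  simp only [List.mem_cons, List.not_mem_nil, or_false] at hP
  rcases hP with rfl | rfl | rfl
  · exact gb_full gb_fullA hg hS h1 h3
  · exact gb_full gb_fullB hg hS h1 h3
  · exact gb_full gb_fullE hg hS h1 h3

/-- the coarse list of patterns -/
theorem critP_coarse (h : CritP G S v) : ∃ P ∈ [T0, T3, T1], ∃ g, Emb G S P g ∧ g 0 = v := by
  obtain ⟨P, hP', g, hg, h0⟩ := h
  simp only [List.mem_cons, List.not_mem_nil, or_false] at hP'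
  rcases hP' with rfl | rfl | rfl | rfl | rfl
  · exact ⟨T0, by simp, _, gb_sub hg gb_A0, h0⟩
  · exact ⟨T0, by simp, _, gb_sub hg gb_B0, h0⟩
  · exact ⟨T0, by simp, _, gb_sub hg gb_E0, h0⟩
  · exact ⟨T3, by simp, g, hg, h0⟩
  · exact ⟨T1, by simp, g, hg, h0⟩

/-- without the eight vertex pattern only the first three patterns are left -/
theorem critP_fine (h : CritP G S v) (hP : ¬ ∃ g, Emb G S PP g) :
    ∃ P ∈ [Ta, Tb, Te], ∃ g, Emb G S P g ∧ g 0 = v := by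
  obtain ⟨P, hP', g, hg, h0⟩ := h
  simp only [List.mem_cons, List.not_mem_nil, or_false] at hP'
  rcases hP' with rfl | rfl | rfl | rfl | rfl
  · exact ⟨Ta, by simp, g, hg, h0⟩
  · exact ⟨Tb, by simp, g, hg, h0⟩
  · exact ⟨Te, by simp, g, hg, h0⟩
  · exact absurd ⟨_, gb_sub hg gb_T3P⟩ hP
  · exact absurd ⟨_, gb_sub hg gb_T1P⟩ hP

theorem critP_T0 (h : CritP G S v) (h3 : ∀ a ∈ S, deg G S a ≤ 3) (hP : ¬ ∃ g, Emb G S PP g) :
    ∃ g, Emb G S T0 g ∧ g 0 = v := by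
  have _ := h3
  obtain ⟨P, hP', g, hg, h0⟩ := critP_coarse h
  simp only [List.mem_cons, List.not_mem_nil, or_false] at hP'
  rcases hP' with rfl | rfl | rfl
  · exact ⟨g, hg, h0⟩
  · exact absurd ⟨_, gb_sub hg gb_T3P⟩ hP
  · exact absurd ⟨_, gb_sub hg gb_T1P⟩ hP

theorem T0_nbr {g : ℕ → ℕ} (h : Emb G S T0 g) (hw : w ∈ N G S (g 0)) : deg G S w = 3 := by
  obtain ⟨h1, h2, h3, h4⟩ := h
  have e0 : deg G S (g 0) = 2 := h4 0 (by decide) (by decide)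
  have e1 : deg G S (g 1) = 3 := h4 1 (by decide) (by decide)
  have e2 : deg G S (g 2) = 3 := h4 2 (by decide) (by decide)
  have hne : g 1 ≠ g 2 := fun e => absurd (h2 1 (by decide) 2 (by decide) e) (by decide)
  have hsub : ({g 1, g 2} : Finset ℕ) ⊆ N G S (g 0) := by
    intro x hx
    simp only [mem_insert, mem_singleton] at hx
    rcases hx with rfl | rfl
    · exact mem_N.2 ⟨h1 1 (by decide), h3 (0, 1) (by decide)⟩
    · exact mem_N.2 ⟨h1 2 (by decide), h3 (0, 2) (by decide)⟩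
  have := eq_of_subset_of_card_le hsub (by rw [card_pair hne]; exact e0.le)
  rw [← this] at hw
  simp only [mem_insert, mem_singleton] at hw
  rcases hw with rfl | rfl <;> assumption

theorem embK_mono {g : ℕ → ℕ} (h : Emb G' S' PK g) (hS : S' ⊆ S)
    (hG : ∀ e ∈ PK.E, G.Adj (g e.1) (g e.2)) (h3 : ∀ a ∈ S, deg G S a ≤ 3) : Emb G S PK g := by
  exact gb_full gb_fullK h hS hG h3

theorem embP_mono {g : ℕ → ℕ} (h : Emb G' S' PP g) (hS : S' ⊆ S)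
    (hG : ∀ e ∈ PP.E, G.Adj (g e.1) (g e.2)) (h3 : ∀ a ∈ S, deg G S a ≤ 3) : Emb G S PP g := by
  exact gb_full gb_fullP h hS hG h3

theorem heavy_card (h : Heavy G S) : S.card ≤ 10 := by
  obtain ⟨P, hP, g, -, hg⟩ := h
  have hs : S ⊆ (range P.k).image g := fun x hx => by
    obtain ⟨i, hi, rfl⟩ := hg x hx
    exact mem_image_of_mem g (mem_range.2 hi)
  have h1 := (card_le_card hs).trans card_image_le
  rw [card_range] at h1
  exact h1.trans (gb_heavy P hP).1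

theorem heavy_deg (h : Heavy G S) (hv : v ∈ S) : 2 ≤ deg G S v := by
  obtain ⟨P, hP, g, he, hg⟩ := h
  obtain ⟨i, hi, rfl⟩ := hg v hv
  have h1 := (gb_heavy P hP).2 i hi
  rw [he.2.2.2 i hi (by omega)]
  exact h1

theorem heavy_KX (h : Heavy G S) (hv : v ∈ S) (h3 : deg G S v = 3) : KX G S := by
  obtain ⟨P, hP, g, he, hg⟩ := h
  simp only [List.mem_cons, List.not_mem_nil, or_false] at hP
  rcases hP with rfl | rfl | rfl
  · obtain ⟨i, hi, rfl⟩ := hg v hv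
    have h1 : ∀ i < H4.k, H4.con.getD i 0 = 2 := by decide
    have h2 := he.2.2.2 i hi (by rw [h1 i hi]; decide)
    rw [h1 i hi] at h2
    omega
  · exact ⟨Pb, by simp, _, gb_sub he gb_H7B⟩
  · exact ⟨Pe, by simp, _, gb_sub he gb_H10E⟩

end Pool.Agent.Lib.MP_5a2675_co.D7
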