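import Mathlib
import Pool.Agent.Lib.MP_5a2675_co.D7.GB

set_option autoImplicit false

namespace Pool.Agent.Lib.MP_5a2675_co.D7

open Finset
open Classical

variable {G G' : SimpleGraph ℕ} {S S' M M' X D : Finset ℕ} {v w : ℕ}

theorem cc_le_four : cc G S M ≤ 4 := by
  unfold cc
  split_ifs <;> omega

theorem two_le_cc (h : NoMark S M) : 2 ≤ cc G S M := by
  unfold cc
  rw [if_neg (fun ⟨v, hv, hm⟩ => h v hv hm)]
  split_ifs <;> omega

theorem gc_cc_zero (hv : v ∈ S) (hm : v ∈ M) : cc G S M = 0 := by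
  unfold cc
  rw [if_pos ⟨v, hv, hm⟩]

theorem gc_gam_congr (h : ∀ D, Dom G S M D ↔ Dom G' S' M' D) : gam G S M = gam G' S' M' := by
  unfold gam
  simp only [h]

/-- only the marks inside `S` matter -/
theorem val_congr_marks (h : ∀ a ∈ S, a ∈ M ↔ a ∈ M') : val G S M = val G S M' := by
  have h1 : gam G S M = gam G S M' := gc_gam_congr fun D =>
    and_congr_right fun _ => forall₂_congr fun a ha => by rw [h a ha]
  have h2 : Phi G S M = Phi G S M' := sum_congr rfl fun a ha => by
    unfold wt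
    simp only [h a ha]
  unfold val
  rw [h1, h2]

theorem gc_deg_congr (h : ∀ a ∈ S, ∀ b ∈ S, G.Adj a b ↔ G'.Adj a b) (hv : v ∈ S) :
    deg G S v = deg G' S v :=
  le_antisymm (deg_mono Subset.rfl fun b hb => (h v hv b hb).1)
    (deg_mono Subset.rfl fun b hb => (h v hv b hb).2)

theorem gc_pat_edges : ∀ P ∈ [Ta, Tb, Te, T3, T1], ∀ e ∈ P.E, e.1 < P.k ∧ e.2 < P.k := by
  intro P hP
  simp only [List.mem_cons, List.not_mem_nil, or_false] at hP
  rcases hP with rfl | rfl | rfl | rfl | rfl <;> decide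

theorem gc_critP_congr (h : ∀ a ∈ S, ∀ b ∈ S, G.Adj a b ↔ G'.Adj a b) (hc : CritP G S v) :
    CritP G' S v := by
  obtain ⟨P, hP, g, hg, hv⟩ := hc
  refine ⟨P, hP, g, emb_mono hg Subset.rfl (fun e he => ?_) (fun i hi h0 => ?_), hv⟩
  · exact (h _ (hg.1 _ (gc_pat_edges P hP e he).1) _ (hg.1 _ (gc_pat_edges P hP e he).2)).1
      (hg.2.2.1 e he)
  · rw [← gc_deg_congr h (hg.1 i hi)]
    exact hg.2.2.2 i hi h0

/-- only the edges inside `S` matter -/
theorem val_congr_graph (h : ∀ a ∈ S, ∀ b ∈ S, G.Adj a b ↔ G'.Adj a b) :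
    val G S M = val G' S M := by
  have h1 : gam G S M = gam G' S M := gc_gam_congr fun D =>
    and_congr_right fun hD => forall₂_congr fun a ha => imp_congr_right fun _ =>
      or_congr_right (exists_congr fun u => and_congr_right fun hu => h a ha u (hD hu))
  have h2 : Phi G S M = Phi G' S M := sum_congr rfl fun a ha => by
    have h3 : CritP G S a ↔ CritP G' S a :=
      ⟨gc_critP_congr h, gc_critP_congr fun a ha b hb => (h a ha b hb).symm⟩
    unfold wt
    simp only [gc_deg_congr h ha, h3]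
  unfold val
  rw [h1, h2]

theorem good_closed (h : Good G S M) (hX : Closed G S X) : Good G X M := by
  intro v hv
  rw [deg_closed hX hv]
  exact h v (hX.1 hv)

/-- the weight in a smaller set is not larger when the degree is the same -/
theorem gc_wt_le (hX : X ⊆ S) (h3 : ∀ a ∈ S, deg G S a ≤ 3) (hd : deg G X v = deg G S v) :
    wt G X M v ≤ wt G S M v := by
  unfold wt
  rw [hd]
  by_cases hm : v ∈ M
  · rw [if_pos hm, if_pos hm]
  · rw [if_neg hm, if_neg hm]
    by_cases hc : CritP G X v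
    · rw [if_pos hc, if_pos (critP_mono hc hX (fun _ _ _ _ h => h) h3 (hd ▸ critP_deg hc))]
    · rw [if_neg hc]
      omega

theorem val_le_sum (h3 : ∀ a ∈ S, deg G S a ≤ 3) :
    val G S M ≤ ∑ X ∈ S.image (comp G S), val G X M := by
  choose D hD hc using fun X => exists_dom G X M
  have h1 : gam G S M ≤ ∑ X ∈ S.image (comp G S), gam G X M := by
    have hdom : Dom G S M ((S.image (comp G S)).biUnion D) := by
      refine ⟨fun x hx => ?_, fun a ha hm => ?_⟩
      · obtain ⟨X, hX, hx⟩ := mem_biUnion.1 hx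
        obtain ⟨a, -, rfl⟩ := mem_image.1 hX
        exact comp_subset ((hD _).1 hx)
      · rcases (hD (comp G S a)).2 a (mem_comp_self ha) hm with h | ⟨u, hu, h⟩
        · exact Or.inl (mem_biUnion.2 ⟨_, mem_image_of_mem _ ha, h⟩)
        · exact Or.inr ⟨u, mem_biUnion.2 ⟨_, mem_image_of_mem _ ha, hu⟩, h⟩
    refine (gam_le hdom).trans (card_biUnion_le.trans (le_of_eq ?_))
    exact sum_congr rfl fun X _ => hc X
  have h2 : ∑ X ∈ S.image (comp G S), Phi G X M ≤ Phi G S M := by
    unfold Phi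
    rw [← sum_fiberwise_of_maps_to (s := S) (t := S.image (comp G S)) (g := comp G S)
      (fun x hx => mem_image_of_mem _ hx)]
    refine sum_le_sum fun X hX => ?_
    obtain ⟨a, ha, rfl⟩ := mem_image.1 hX
    have he : S.filter (fun x => comp G S x = comp G S a) = comp G S a := by
      ext x
      rw [mem_filter]
      exact ⟨fun h => h.2 ▸ mem_comp_self h.1, fun h => ⟨comp_subset h, comp_eq_of_mem h⟩⟩
    rw [he]
    exact sum_le_sum fun x hx => gc_wt_le comp_subset h3 (deg_closed comp_closed hx)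
  unfold val
  rw [sum_sub_distrib, ← mul_sum]
  have h1' : (gam G S M : ℤ) ≤ ∑ X ∈ S.image (comp G S), (gam G X M : ℤ) := by exact_mod_cast h1
  have h2' : ∑ X ∈ S.image (comp G S), (Phi G X M : ℤ) ≤ Phi G S M := by exact_mod_cast h2
  linarith

/-- the induction hypothesis for one component -/
theorem comp_val_le {n : ℕ} (ih : IH n) (hn : S.card < n) (hg : Good G S M)
    (hc : NonCub G (comp G S v)) : val G (comp G S v) M ≤ cc G (comp G S v) M :=
  ih G _ M ((card_le_card comp_subset).trans_lt hn) comp_conn (good_closed hg comp_closed) hc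

theorem marked_bound {n : ℕ} (ih : IH n) (hn : S.card < n) (hg : Good G S M)
    (hm : ∀ a ∈ S, ∃ b ∈ comp G S a, b ∈ M) : val G S M ≤ 0 := by
  refine (val_le_sum fun a ha => (hg a ha).1).trans (sum_nonpos fun X hX => ?_)
  obtain ⟨a, ha, rfl⟩ := mem_image.1 hX
  obtain ⟨b, hb, hbM⟩ := hm a ha
  have h2 := (good_closed hg comp_closed b hb).2 hbM
  have h := comp_val_le (v := a) ih hn hg ⟨b, hb, by omega⟩
  rwa [gc_cc_zero hb hbM] at h

theorem gc_W0_le_wt (hv : v ∉ M) : W0 (deg G S v) ≤ wt G S M v := by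
  unfold wt
  rw [if_neg hv]
  omega

/-- help from outside at the vertices of `H` saves one vertex -/
theorem help_lemma {n : ℕ} (ih : IH n) (hn : X.card < n) (hc : Conn G X)
    (h3 : ∀ a ∈ X, deg G X a ≤ 3) {H : Finset ℕ} (hH : H ⊆ X) (hne : H.Nonempty)
    (h2 : ∀ a ∈ H, deg G X a ≤ 2) {lo : ℤ} (hlo : lo < val G X ∅)
    (hg : 0 ≤ lo + ∑ a ∈ H, ((W0 (deg G X a) : ℤ) - W1 (deg G X a))) :
    ∃ D, Dom G X H D ∧ D.card + 1 ≤ gam G X ∅ := by
  obtain ⟨b, hb⟩ := hne
  have h0 := ih G X H hn hc (fun a ha => ⟨h3 a ha, h2 a⟩) ⟨b, hH hb, by have := h2 b hb; omega⟩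
  rw [gc_cc_zero (hH hb) hb] at h0
  have h1 : (Phi G X H : ℤ) + ∑ a ∈ H, ((W0 (deg G X a) : ℤ) - W1 (deg G X a)) ≤ Phi G X ∅ := by
    unfold Phi
    push_cast
    rw [← sum_sdiff hH, ← sum_sdiff hH (f := fun a => (wt G X ∅ a : ℤ)), add_assoc,
      ← sum_add_distrib]
    refine add_le_add (sum_le_sum fun a ha => le_of_eq ?_) (sum_le_sum fun a ha => ?_)
    · unfold wt
      rw [if_neg (mem_sdiff.1 ha).2, if_neg (notMem_empty a)]
    · have h4 : wt G X H a = W1 (deg G X a) := by
        unfold wt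
        rw [if_pos ha]
      have h5 := gc_W0_le_wt (G := G) (S := X) (notMem_empty a)
      omega
  obtain ⟨D, hD, hcard⟩ := exists_dom G X H
  refine ⟨D, hD, ?_⟩
  unfold val at h0 hlo
  omega

theorem gc_deg_erase_of_adj (hv : v ∈ X) (h : G.Adj v w) :
    deg G (X.erase v) w + 1 = deg G X w := by
  unfold deg N
  rw [filter_erase, card_erase_add_one (mem_filter.2 ⟨hv, h.symm⟩)]

theorem gc_deg_erase_of_not_adj (h : ¬ G.Adj v w) : deg G (X.erase v) w = deg G X w := by
  unfold deg N
  rw [filter_erase, erase_eq_of_notMem fun h' => h (mem_filter.1 h').2.symm]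

theorem gc_W1_le {d : ℕ} (h : d + 1 ≤ 3) : W1 d ≤ W0 (d + 1) + 1 := by
  have : d = 0 ∨ d = 1 ∨ d = 2 := by omega
  rcases this with rfl | rfl | rfl <;> decide

/-- a vertex can be forced into a minimum dominating set -/
theorem force_lemma {n : ℕ} (ih : IH n) (hn : X.card < n) (hc : Conn G X)
    (h3 : ∀ a ∈ X, deg G X a ≤ 3) (hv : v ∈ X) {lo : ℤ} (hlo : lo < val G X ∅)
    (hg : 0 ≤ lo + W0 (deg G X v) - deg G X v) :
    ∃ D, Dom G X ∅ D ∧ v ∈ D ∧ D.card ≤ gam G X ∅ := by
  have hgood : Good G (X.erase v) (N G X v) := by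
    intro a ha
    have ha' := mem_of_mem_erase ha
    refine ⟨(deg_mono (erase_subset _ _) fun _ _ h => h).trans (h3 a ha'), fun hm => ?_⟩
    have h1 := gc_deg_erase_of_adj hv (mem_N.1 hm).2
    have h2 := h3 a ha'
    omega
  have h0 : val G (X.erase v) (N G X v) ≤ 0 := by
    refine marked_bound ih ((card_le_card (erase_subset _ _)).trans_lt hn) hgood fun a ha => ?_
    obtain ⟨x, hx, y, hy, hy', hxy⟩ := exists_edge_out hc
      ((comp_subset (G := G) (v := a)).trans (erase_subset v X)) ⟨a, mem_comp_self ha⟩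
      (fun h => notMem_erase v X (comp_subset (G := G) (v := a) (h.symm ▸ hv)))
    by_cases hyv : y = v
    · exact ⟨x, hx, mem_N.2 ⟨mem_of_mem_erase (comp_subset hx), hyv ▸ hxy.symm⟩⟩
    · exact absurd (comp_closed.2 x hx y (mem_erase.2 ⟨hyv, hy⟩) hxy) hy'
  have h1 : Phi G (X.erase v) (N G X v) ≤ ∑ a ∈ X.erase v, wt G X ∅ a + deg G X v := by
    have h2 : deg G X v = ∑ a ∈ X.erase v, if a ∈ N G X v then 1 else 0 := by
      rw [← card_filter]
      unfold deg
      congr 1
      ext a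
      rw [mem_filter, mem_erase]
      exact ⟨fun h => ⟨⟨(mem_N.1 h).2.ne', (mem_N.1 h).1⟩, h⟩, fun h => h.2⟩
    rw [h2, ← sum_add_distrib]
    refine sum_le_sum fun a ha => ?_
    have ha' := mem_of_mem_erase ha
    by_cases hm : a ∈ N G X v
    · have h4 := gc_deg_erase_of_adj hv (mem_N.1 hm).2
      have h5 := gc_W0_le_wt (G := G) (S := X) (notMem_empty a)
      have h6 := gc_W1_le (d := deg G (X.erase v) a) (h4 ▸ h3 a ha')
      have h7 : wt G (X.erase v) (N G X v) a = W1 (deg G (X.erase v) a) := by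
        unfold wt
        rw [if_pos hm]
      rw [if_pos hm, h7]
      rw [h4] at h6
      omega
    · have h4 : deg G (X.erase v) a = deg G X a :=
        gc_deg_erase_of_not_adj fun h => hm (mem_N.2 ⟨ha', h⟩)
      have h5 := gc_wt_le (M := ∅) (erase_subset v X) h3 h4
      have h7 : wt G (X.erase v) (N G X v) a = wt G (X.erase v) ∅ a := by
        unfold wt
        rw [if_neg hm, if_neg (notMem_empty a)]
      rw [if_neg hm, h7]
      omega
  have h2 : wt G X ∅ v + ∑ a ∈ X.erase v, wt G X ∅ a = Phi G X ∅ := add_sum_erase X _ hv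
  have h4 := gc_W0_le_wt (G := G) (S := X) (notMem_empty v)
  obtain ⟨D, hD, hcard⟩ := exists_dom G (X.erase v) (N G X v)
  refine ⟨insert v D, ⟨insert_subset hv (hD.1.trans (erase_subset _ _)), fun a ha _ => ?_⟩,
    mem_insert_self _ _, ?_⟩
  · by_cases hav : a = v
    · exact Or.inl (hav ▸ mem_insert_self _ _)
    · by_cases hm : a ∈ N G X v
      · exact Or.inr ⟨v, mem_insert_self _ _, (mem_N.1 hm).2.symm⟩
      · rcases hD.2 a (mem_erase.2 ⟨hav, ha⟩) hm with h | ⟨u, hu, h⟩
        · exact Or.inl (mem_insert_of_mem h)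
        · exact Or.inr ⟨u, mem_insert_of_mem hu, h⟩
  · have h5 := card_insert_le v D
    unfold val at h0 hlo
    omega

theorem mc_deg_pos (h : MC G S M) (hv : v ∈ S) : 1 ≤ deg G S v := by
  by_contra h0
  have hd : deg G S v = 0 := by omega
  have hS : {v} = S := by
    refine h.conn _ ⟨singleton_subset_iff.2 hv, fun a ha b hb hab => ?_⟩ (singleton_nonempty v)
    rw [mem_singleton.1 ha] at hab
    have : b ∈ N G S v := mem_N.2 ⟨hb, hab⟩
    rw [card_eq_zero.1 hd] at this
    exact absurd this (notMem_empty b)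
  have hb := h.bad
  unfold val at hb
  by_cases hm : v ∈ M
  · have h1 : gam G S M ≤ (∅ : Finset ℕ).card := by
      refine gam_le ⟨empty_subset _, fun a ha ham => ?_⟩
      rw [← hS, mem_singleton] at ha
      exact absurd (ha ▸ hm) ham
    rw [card_empty] at h1
    omega
  · have h1 : gam G S M ≤ S.card := gam_le ⟨Subset.rfl, fun a ha _ => Or.inl ha⟩
    have h2 : S.card = 1 := by rw [← hS, card_singleton]
    have h3 : wt G S M v ≤ Phi G S M := single_le_sum (fun _ _ => Nat.zero_le _) hv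
    have h4 := gc_W0_le_wt (G := G) (S := S) hm
    rw [hd] at h4
    have h5 : W0 0 = 20 := rfl
    omega

theorem claim_of_no_mc (h : ∀ G S M, ¬ MC G S M) : ∀ G S M, Claim G S M := by
  have key : ∀ n, IH n := by
    intro n
    induction n with
    | zero => intro G S M hn; omega
    | succ n ih =>
      intro G S M hn hc hg hq
      by_contra hb
      exact h G S M ⟨hc, hg, hq, fun G' S' M' hn' => ih G' S' M' (by omega), not_le.1 hb⟩
  exact fun G S M => key _ G S M (Nat.lt_succ_self _)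

end Pool.Agent.Lib.MP_5a2675_co.D7
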