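import Mathlib
import Pool.Agent.Lib.MP_5a2675_co.D7.BB
import Pool.Agent.Lib.MP_5a2675_co.D7.GC

set_option autoImplicit false

namespace Pool.Agent.Lib.MP_5a2675_co.D7

open Finset
open Classical

variable {G G' : SimpleGraph ℕ} {S S' M X : Finset ℕ} {Γ : Gam} {C : Cfg} {f g : ℕ → ℕ}
  {a b c i j k l m n q r s t v w x y A J R Z Mk : ℕ}

theorem mc_deg3 (h : MC G S M) : ∀ v ∈ S, deg G S v ≤ 3 := fun v hv => (h.good v hv).1
theorem dg_le : 1 ≤ dg C i ∧ dg C i ≤ 3 := by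
  unfold dg
  split_ifs <;> omega
theorem v_lt64 (h : Valid G S M C f) (hm : Lt m C.n) : Lt m 62 ∧ Lt m 64 := 
  ⟨hm.mono h.n_le, hm.mono (h.n_le.trans (by omega))⟩
theorem v_mem_img (h : Valid G S M C f) (hm : Lt m C.n) (hi : i < C.n) :
    f i ∈ img f m ↔ tb m i = true := by
  rw [mem_img]
  refine ⟨fun ⟨k, _, hk, e⟩ => ?_, fun ht => ⟨i, (v_lt64 h hm).2 i ht, ht, rfl⟩⟩
  rwa [← h.inj k (hm k hk) i hi e]
theorem v_img_sub (h : Valid G S M C f) (hm : Lt m C.n) : img f m ⊆ S := by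
  intro v hv
  obtain ⟨k, -, hk, rfl⟩ := mem_img.1 hv
  exact h.mem k (hm k hk)
theorem v_card_img (h : Valid G S M C f) (hm : Lt m C.n) : (img f m).card = pop m := by
  rw [pop_eq (v_lt64 h hm).1, img]
  exact card_image_of_injOn fun a ha b hb e =>
    h.inj a (hm a (mem_bits.1 ha).2) b (hm b (mem_bits.1 hb).2) e
theorem v_nb_lt (h : Valid G S M C f) (hm : Lt m 64) : Lt (nb C.A m) C.n := by
  intro j hj
  obtain ⟨i, -, hi⟩ := (tb_nb hm).1 hj
  exact (h.rlt i j hi).2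
theorem va_unk (h : Valid G S M C f) (hi : i < C.n) :
    ((N G S (f i)).filter fun w => ¬ ∃ k, tb (row C.A i) k = true ∧ f k = w).card = rm C i := by
  have e : ((N G S (f i)).filter fun w => ∃ k, tb (row C.A i) k = true ∧ f k = w)
      = img f (row C.A i) := by
    ext w
    rw [mem_filter, mem_img, mem_N]
    constructor
    · rintro ⟨-, k, hk, e⟩
      exact ⟨k, row_lt k hk, hk, e⟩
    · rintro ⟨k, -, hk, rfl⟩
      exact ⟨⟨h.mem k (h.rlt i k hk).2, h.adj i k hk⟩, k, hk, rfl⟩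
  have h1 := card_filter_add_card_filter_not (s := N G S (f i))
    fun w => ∃ k, tb (row C.A i) k = true ∧ f k = w
  have h2 : (img f (row C.A i)).card = (bits (row C.A i)).card :=
    card_image_of_injOn fun a ha b hb e =>
      h.inj a (h.rlt i a (mem_bits.1 ha).2).2 b (h.rlt i b (mem_bits.1 hb).2).2 e
  have h3 := h.deg i hi
  have h4 := h.rem i hi
  rw [e, h2] at h1
  rw [deg] at h3
  omega
/-- an edge of the graph at a known vertex is known, or the vertex has an unknown edge -/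
theorem v_known (h : Valid G S M C f) (hi : i < C.n) (hw : w ∈ S) (ha : G.Adj (f i) w) :
    (∃ k, tb (row C.A i) k = true ∧ f k = w) ∨ tb C.r1 i = true := by
  by_contra H
  rw [not_or] at H
  have h1 : 0 < rm C i := by
    rw [← va_unk h hi, card_pos]
    exact ⟨w, mem_filter.2 ⟨mem_N.2 ⟨hw, ha⟩, H.1⟩⟩
  have h2 : tb C.r2 i ≠ true := fun e => H.2 (h.r21 i e)
  have h3 : tb C.r3 i ≠ true := fun e => h2 (h.r32 i e)
  simp [rm, H.2, h2, h3] at h1
/-- the number of unknown edges at a vertex -/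
theorem v_unk_card (h : Valid G S M C f) (hi : i < C.n) :
    ((N G S (f i)).filter fun w => ¬ ∃ k, tb (row C.A i) k = true ∧ f k = w).card = rm C i := 
  va_unk h hi
theorem v_cn_le (h : Valid G S M C f) (hi : i < C.n) : cn C.A Z i ≤ dg C i := by
  rw [h.rem i hi]
  refine (card_le_card fun k hk => ?_).trans (Nat.le_add_right _ _)
  exact (mem_bits' row_lt).2 (h.sym k i (mem_filter.1 hk).2)
theorem v_cn_pos (h : Valid G S M C f) (hZ : Lt Z 64) :
    0 < cn C.A Z i ↔ ∃ k, tb Z k = true ∧ tb (row C.A k) i = true := by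
  have _ := h
  rw [cn, card_pos]
  exact ⟨fun ⟨k, hk⟩ => ⟨k, (mem_bits.1 (mem_filter.1 hk).1).2, (mem_filter.1 hk).2⟩,
    fun ⟨k, h1, h2⟩ => ⟨k, mem_filter.2 ⟨(mem_bits' hZ).2 h1, h2⟩⟩⟩
theorem va_union (h : Valid G S M C f) (hS : S' ⊆ S \ img f Z) :
    (N G S' (f i) ∪ ((bits Z).filter fun k => tb (row C.A k) i = true).image f).card =
      deg G S' (f i) + cn C.A Z i := by
  rw [card_union_of_disjoint, card_image_of_injOn, deg, cn]
  · intro a ha b hb e
    exact h.inj a (h.rlt a i (mem_filter.1 ha).2).1 b (h.rlt b i (mem_filter.1 hb).2).1 e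
  · refine disjoint_left.2 fun w hw hw' => (mem_sdiff.1 (hS (mem_N.1 hw).1)).2 ?_
    exact image_subset_image (filter_subset _ _) hw'
/-- known neighbours in `Z` are lost -/
theorem v_deg_le (h : Valid G S M C f) (hi : i < C.n) (hS : S' ⊆ S \ img f Z) :
    deg G S' (f i) + cn C.A Z i ≤ dg C i := by
  rw [← va_union h hS, ← h.deg i hi]
  refine card_le_card (union_subset (fun w hw => ?_) fun w hw => ?_)
  · exact mem_N.2 ⟨(mem_sdiff.1 (hS (mem_N.1 hw).1)).1, (mem_N.1 hw).2⟩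
  · obtain ⟨k, hk, rfl⟩ := mem_image.1 hw
    have h1 := (mem_filter.1 hk).2
    exact mem_N.2 ⟨h.mem k (h.rlt k i h1).1, (h.adj k i h1).symm⟩
/-- if all lost neighbours are known neighbours in `Z` the degree is exact -/
theorem v_deg_eq (h : Valid G S M C f) (hi : i < C.n) (hS : S' ⊆ S \ img f Z)
    (hk : ∀ w ∈ S, w ∉ S' → G.Adj (f i) w →
      ∃ k, k < 64 ∧ tb Z k = true ∧ tb (row C.A k) i = true ∧ f k = w) :
    deg G S' (f i) + cn C.A Z i = dg C i := by
  refine le_antisymm (v_deg_le h hi hS) ?_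
  rw [← va_union h hS, ← h.deg i hi]
  refine card_le_card fun w hw => ?_
  obtain ⟨h1, h2⟩ := mem_N.1 hw
  by_cases h3 : w ∈ S'
  · exact mem_union_left _ (mem_N.2 ⟨h3, h2⟩)
  · obtain ⟨k, k1, k2, k3, rfl⟩ := hk w h1 h3 h2
    exact mem_union_right _ (mem_image_of_mem _ (mem_filter.2 ⟨mem_bits.2 ⟨k1, k2⟩, k3⟩))
theorem v_low0 (h : Valid G S M C f) (hi : i < C.n) (hZ : Lt Z 64) :
    tb (low0 C (nb3 C.A Z)) i = true ↔ dg C i ≤ cn C.A Z i := by
  have _ := h
  have _ := hi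
  simp only [low0, tb_lor, tb_land, tb_nb3 hZ (by omega : 0 < 3), tb_nb3 hZ (by omega : 1 < 3),
    tb_nb3 hZ (by omega : 2 < 3), dg]
  cases tb C.d1 i <;> cases tb C.d2 i <;> simp <;> omega
theorem v_low1 (h : Valid G S M C f) (hi : i < C.n) (hZ : Lt Z 64) :
    tb (low1 C (nb3 C.A Z)) i = true ↔ dg C i ≤ cn C.A Z i + 1 := by
  have _ := h
  have _ := hi
  simp only [low1, tb_lor, tb_land, tb_nb3 hZ (by omega : 0 < 3), tb_nb3 hZ (by omega : 1 < 3),
    tb_nb3 hZ (by omega : 2 < 3), dg]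
  cases tb C.d1 i <;> cases tb C.d2 i <;> simp <;> omega
theorem v_low2 (h : Valid G S M C f) (hi : i < C.n) (hZ : Lt Z 64) :
    tb (low2 C (nb3 C.A Z)) i = true ↔ dg C i ≤ cn C.A Z i + 2 := by
  have _ := h
  have _ := hi
  simp only [low2, tb_lor, tb_land, tb_nb3 hZ (by omega : 0 < 3), tb_nb3 hZ (by omega : 1 < 3),
    tb_nb3 hZ (by omega : 2 < 3), dg]
  cases tb C.d1 i <;> cases tb C.d2 i <;> simp <;> omega
theorem v_e0 (h : Valid G S M C f) (hi : i < C.n) (hZ : Lt Z 64) :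
    tb (e0 C (nb3 C.A Z) (jx J (ones C.n))) i = true ↔ dg C i + jn J C.n i ≤ cn C.A Z i := by
  have := v_cn_le (Z := Z) h hi
  have hn := h.n_le
  rw [e0, tb_dif, v_low0 h hi hZ, tb_jx (by omega) (by omega)]
  cases e : tb (jm J (ones C.n)) i
  · simp [jn_zero e]
  · have := jn_pos e
    simp
    omega
theorem v_e1 (h : Valid G S M C f) (hi : i < C.n) (hZ : Lt Z 64) :
    tb (e1 C (nb3 C.A Z) (jx J (ones C.n))) i = true ↔ dg C i + jn J C.n i ≤ cn C.A Z i + 1 := by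
  have := v_cn_le (Z := Z) h hi
  have hn := h.n_le
  rw [e1, tb_lor, tb_dif, tb_dif, tb_land, v_low0 h hi hZ, v_low1 h hi hZ,
    tb_jx (by omega) (by omega), tb_jx64 (by omega)]
  have h5 : tb (jd J (ones C.n)) i = true → tb (jm J (ones C.n)) i = true := jd_jm
  unfold jn
  revert h5
  cases tb (jm J (ones C.n)) i <;> cases tb (jd J (ones C.n)) i <;> simp <;> omega
theorem v_e2 (h : Valid G S M C f) (hi : i < C.n) (hZ : Lt Z 64) :
    tb (e2 C (nb3 C.A Z) (jx J (ones C.n))) i = true ↔ dg C i + jn J C.n i ≤ cn C.A Z i + 2 := by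
  have := v_cn_le (Z := Z) h hi
  have hn := h.n_le
  rw [e2, tb_lor, tb_lor, tb_dif, tb_dif, tb_land, tb_land, v_low0 h hi hZ, v_low1 h hi hZ,
    v_low2 h hi hZ, tb_jx (by omega) (by omega), tb_jx64 (by omega)]
  have h5 : tb (jd J (ones C.n)) i = true → tb (jm J (ones C.n)) i = true := jd_jm
  unfold jn
  revert h5
  cases tb (jm J (ones C.n)) i <;> cases tb (jd J (ones C.n)) i <;> simp <;> omega
theorem va_new (h : Valid G S M C f) (hJ : jwf C.n J = true)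
    (hv : ∀ i, tb (jm J (ones C.n)) i = true → f i ≠ v) : deg (GJ G f J) S' v = deg G S' v := by
  have hn : C.n ≤ 63 := h.n_le.trans (by omega)
  rw [deg, deg]
  congr 1
  ext w
  rw [mem_N, mem_N, GJ_adj hJ hn h.inj, or_iff_left]
  rintro ⟨i, j, hi, hj, e, -⟩
  exact hv i ((tb_jm hJ hn).2 ⟨hi.trans_le hn, j, hj⟩) e
theorem va_jm (h : Valid G S M C f) (hJ : jwf C.n J = true)
    (hk : tb (jm J (ones C.n)) k = true) : k < C.n := by
  have hn : C.n ≤ 63 := h.n_le.trans (by omega)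
  obtain ⟨h1, j, hj⟩ := (tb_jm hJ hn).1 hk
  exact (jp_lt hJ hn h1 hj).1
theorem va_no (h : Valid G S M C f) (hJ : jwf C.n J = true) (hi : i < C.n)
    (e : tb (jm J (ones C.n)) i = false) : deg (GJ G f J) S' (f i) = deg G S' (f i) :=
  va_new h hJ fun k hk e' => by
    rw [h.inj k (va_jm h hJ hk) i hi e', e] at hk
    exact Bool.false_ne_true hk
theorem va_sub (h : Valid G S M C f) (hJ : jwf C.n J = true) (hi : i < C.n) :
    N (GJ G f J) S' (f i) ⊆ N G S' (f i) ∪ img f (jp J i) := by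
  have hn : C.n ≤ 63 := h.n_le.trans (by omega)
  intro w hw
  obtain ⟨h1, h2⟩ := mem_N.1 hw
  rcases (GJ_adj hJ hn h.inj).1 h2 with h3 | ⟨a, b, ha, hb, e, rfl⟩
  · exact mem_union_left _ (mem_N.2 ⟨h1, h3⟩)
  · rw [h.inj a ha i hi e] at hb
    exact mem_union_right _ (mem_img.2 ⟨b, jp_Lt b hb, hb, rfl⟩)
theorem va_card (h : Valid G S M C f) (hJ : jwf C.n J = true) (hi : i < C.n) :
    (img f (jp J i)).card = jn J C.n i := by
  have hn : C.n ≤ 63 := h.n_le.trans (by omega)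
  rw [← jp_card hJ hn hi, img]
  exact card_image_of_injOn fun a ha b hb e =>
    h.inj a (jp_lt hJ hn (hi.trans_le hn) (mem_bits.1 ha).2).2.1 b
      (jp_lt hJ hn (hi.trans_le hn) (mem_bits.1 hb).2).2.1 e
/-- the degree with the join edges, in a set that contains the partners of its join ends -/
theorem v_deg_GJ (h : Valid G S M C f) (hJ : JOK G S f C.n R J) (hi : i < C.n)
    (hp : ∀ k, tb (jp J i) k = true → f k ∈ S') :
    deg (GJ G f J) S' (f i) = deg G S' (f i) + jn J C.n i := by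
  have hn : C.n ≤ 63 := h.n_le.trans (by omega)
  have hi' : i < 63 := hi.trans_le hn
  have h1 : N (GJ G f J) S' (f i) = N G S' (f i) ∪ img f (jp J i) := by
    refine Subset.antisymm (va_sub h hJ.wf hi) (union_subset
      (fun w hw => mem_N.2 ⟨(mem_N.1 hw).1, le_GJ (mem_N.1 hw).2⟩) fun w hw => ?_)
    obtain ⟨k, -, hk, rfl⟩ := mem_img.1 hw
    exact mem_N.2 ⟨hp k hk, (GJ_adj hJ.wf hn h.inj).2 (Or.inr ⟨i, k, hi, hk, rfl, rfl⟩)⟩
  rw [deg, h1, card_union_of_disjoint, va_card h hJ.wf hi]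
  · rfl
  · refine disjoint_left.2 fun w hw hw' => ?_
    obtain ⟨k, -, hk, rfl⟩ := mem_img.1 hw'
    exact (hJ.out i k hi' hk).2 (mem_N.1 hw).2
theorem v_deg_GJ_le (h : Valid G S M C f) (hJ : jwf C.n J = true) (hi : i < C.n) :
    deg (GJ G f J) S' (f i) ≤ deg G S' (f i) + jn J C.n i := by
  rw [← va_card h hJ hi]
  exact (card_le_card (va_sub h hJ hi)).trans (card_union_le _ _)
theorem v_deg_GJ_new (h : Valid G S M C f) (hJ : jwf C.n J = true)
    (hv : ∀ i, tb (jm J (ones C.n)) i = true → f i ≠ v) : deg (GJ G f J) S' v = deg G S' v := 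
  va_new h hJ hv
theorem jok_NOJ (h : MC G S M) (hn : n ≤ 63) : JOK G S f n R NOJ := by
  refine ⟨jwf_NOJ hn, fun i j _ hj => ?_, fun v hv => ?_⟩
  · rw [jp_NOJ, tb_zero] at hj
    exact absurd hj Bool.false_ne_true
  · rw [GJ_NOJ]
    exact (deg_mono sdiff_subset fun _ _ e => e).trans (mc_deg3 h v (mem_sdiff.1 hv).1)
theorem hasJV_ok (h : Valid G S M C f) (hj : hasJV C R J = true) :
    ∃ k, JVOK G S C.n f ⟨R, J, k⟩ := by
  obtain ⟨⟨R', J', k⟩, hx, e⟩ := anyL_iff.1 hj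
  simp only [Bool.and_eq_true, Nat.beq_eq] at e
  obtain ⟨rfl, rfl⟩ := e
  exact ⟨k, h.jv _ hx⟩
theorem kfree_ok (h : Ctx G S M Γ C f) (hj : kfree Γ J = true) (hS : S' ⊆ S \ img f R) :
    ¬ KX (GJ G f J) S' := by
  intro hg
  rw [kfree, Bool.and_eq_true] at hj
  rw [Nat.eq_of_beq_eq_true hj.1, GJ_NOJ] at hg
  exact h.gam.nok hj.2 (KX_mono hg (hS.trans sdiff_subset) (fun _ _ _ _ e => e) (mc_deg3 h.mc))
theorem ncm_ok (h : Valid G S M C f) (hi : tb (ncm C Z) i = true) (hS : S' ⊆ S \ img f Z)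
    (hZ : Lt Z 64) : ¬ CritP G S' (f i) := by
  have _ := hZ
  obtain ⟨x, hx, e⟩ := tb_orL.1 hi
  cases e' : sub x.1 Z
  · rw [e', cond_false, tb_zero] at e
    exact absurd e Bool.false_ne_true
  · rw [e', cond_true] at e
    refine (h.nc x hx).nc i e S' (hS.trans (sdiff_subset_sdiff Subset.rfl fun w hw => ?_))
    obtain ⟨k, k1, k2, k3⟩ := mem_img.1 hw
    exact mem_img.2 ⟨k, k1, sub_iff.1 e' k k2, k3⟩
/-- facts about the component of a blob -/
theorem b_sub {B : Blob} (h : BlobOK G S M n A f B) : bX G S f B ⊆ S \ img f B.R := 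
  comp_subset
theorem b_card_lt {B : Blob} (hC : Valid G S M C f) (h : BlobOK G S M C.n C.A f B) :
    (bX G S f B).card < S.card := by
  obtain ⟨i, hi⟩ := exists_tb h.rne
  have h1 := h.ltO i (h.ro i hi)
  exact card_lt_card ⟨(b_sub h).trans sdiff_subset,
    fun H => h.out i (h.ro i hi) (H (hC.mem i h1))⟩
theorem b_deg3 {B : Blob} (h : BlobOK G S M n A f B) :
    ∀ v ∈ bX G S f B, deg (GJ G f B.J) (bX G S f B) v ≤ 3 := fun v hv =>
  (deg_closed comp_closed hv).trans_le (h.jok.sub3 v (b_sub h hv))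
theorem b_step {B : Blob} (h : BlobOK G S M n A f B) (hx : x ∈ bX G S f B) (hy : y ∈ S)
    (ha : G.Adj x y) : y ∈ bX G S f B ∨ ∃ i, tb B.R i = true ∧ f i = y := by
  have _ := h
  by_cases h1 : y ∈ img f B.R
  · obtain ⟨i, -, h2, h3⟩ := mem_img.1 h1
    exact Or.inr ⟨i, h2, h3⟩
  · exact Or.inl (comp_closed.2 x hx y (mem_sdiff.2 ⟨hy, h1⟩) (le_GJ ha))
/-- exact degree of a known vertex of the blob -/
theorem b_deg_eq {B : Blob} (hC : Valid G S M C f) (h : BlobOK G S M C.n C.A f B)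
    (hi : i < C.n) (hx : f i ∈ bX G S f B) :
    deg (GJ G f B.J) (bX G S f B) (f i) + cn C.A B.R i =
      dg C i + jn B.J C.n i := by
  have hn : C.n ≤ 63 := hC.n_le.trans (by omega)
  have hR : Lt B.R C.n := fun k hk => h.ltO k (h.ro k hk)
  have h1 := v_deg_GJ (S' := bX G S f B) hC h.jok hi fun k hk => by
    obtain ⟨-, k1, -, k2⟩ := jp_lt h.jok.wf hn (hi.trans_le hn) hk
    refine comp_closed.2 _ hx _ (mem_sdiff.2 ⟨hC.mem k k1, fun H => ?_⟩)
      ((GJ_adj h.jok.wf hn hC.inj).2 (Or.inr ⟨i, k, hi, hk, rfl, rfl⟩))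
    rw [v_mem_img hC hR k1, (h.jok.out k i (k1.trans_le hn) k2).1] at H
    exact Bool.false_ne_true H
  have h2 := v_deg_eq hC hi (b_sub h) fun w hw hw' ha => by
    obtain ⟨r, r1, rfl⟩ := (b_step h hx hw ha).resolve_left hw'
    obtain ⟨k, k1, k2⟩ := h.kn _ hx r r1 ha
    rw [hC.inj k (hC.rlt r k k1).2 i hi k2] at k1
    exact ⟨r, (v_lt64 hC hR).2 r r1, r1, k1, rfl⟩
  omega
/-- an unknown vertex of the blob keeps its degree -/
theorem b_deg_new {B : Blob} (hC : Valid G S M C f) (h : BlobOK G S M C.n C.A f B)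
    (hx : x ∈ bX G S f B) (hn : ∀ i < C.n, f i ≠ x) :
    deg (GJ G f B.J) (bX G S f B) x = deg G S x := by
  rw [v_deg_GJ_new hC h.jok.wf fun i hi => hn i (va_jm hC h.jok.wf hi)]
  refine le_antisymm (deg_mono ((b_sub h).trans sdiff_subset) fun _ _ e => e)
    (card_le_card fun w hw => ?_)
  obtain ⟨h1, h2⟩ := mem_N.1 hw
  refine mem_N.2 ⟨(b_step h hx h1 h2).resolve_right ?_, h2⟩
  rintro ⟨r, r1, rfl⟩
  obtain ⟨k, k1, k2⟩ := h.kn _ hx r r1 h2
  exact hn k (hC.rlt r k k1).2 k2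
theorem b_val_le {B : Blob} (hm : MC G S M) (hC : Valid G S M C f)
    (h : BlobOK G S M C.n C.A f B) :
    val (GJ G f B.J) (bX G S f B) ∅ ≤ cc (GJ G f B.J) (bX G S f B) ∅ := 
  hm.ih _ _ _ (b_card_lt hC h) comp_conn
    (fun v hv => ⟨b_deg3 h v hv, fun e => absurd e (notMem_empty v)⟩) h.ncub
theorem cc_le_two (h : ¬ Heavy G S) : cc G S M ≤ 2 := by
  rw [cc, if_neg h]
  split_ifs <;> omega
theorem va_disj {B B' : Blob} (hC : Valid G S M C f) (h : BlobOK G S M C.n C.A f B)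
    (h' : BlobOK G S M C.n C.A f B') (hJ : B.J = NOJ)
    (hd : disj1 C.A B B' = true) : Disjoint (bX G S f B) (bX G S f B') := by
  obtain ⟨h1, h2⟩ := Bool.and_eq_true_iff.1 hd
  have hc : Conn G (bX G S f B) := by
    rw [bX, cX, hJ, GJ_NOJ]
    exact comp_conn
  refine disjoint_iff_inter_eq_empty.2 (not_nonempty_iff_eq_empty.1 fun hne => ?_)
  have e := hc _ ⟨inter_subset_left, fun x hx y hy ha => ?_⟩ hne
  · have h3 := h.inn _ h.aI
    rw [← e] at h3
    exact h'.out _ h1 (mem_inter.1 h3).2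
  obtain ⟨x1, x2⟩ := mem_inter.1 hx
  refine mem_inter.2 ⟨hy, (b_step h' x2 (mem_sdiff.1 (b_sub h hy)).1 ha).resolve_right ?_⟩
  rintro ⟨r, r1, rfl⟩
  obtain ⟨k, k1, rfl⟩ := h'.kn _ x2 r r1 ha
  have h3 : Lt (dif B'.R B.Out) C.n := fun a e => h'.ltO a (h'.ro a (tb_dif.1 e).1)
  have h4 := sub_iff.1 h2 k ((tb_nb (v_lt64 hC h3).2).2 ⟨r, tb_dif.2 ⟨r1,
    Bool.eq_false_iff.2 fun e => h.out r e hy⟩, k1⟩)
  exact (tb_lor.1 h4).elim (fun e => h'.out k e x2) fun e => h.out k e x1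
/-- two blobs that pass the test are disjoint -/
theorem disj_ok {B B' : Blob} (hC : Valid G S M C f) (h : BlobOK G S M C.n C.A f B)
    (h' : BlobOK G S M C.n C.A f B') (hJ : B.J = NOJ) (hJ' : B'.J = NOJ)
    (hd : disj C.A B B' = true) : Disjoint (bX G S f B) (bX G S f B') := by
  rcases Bool.or_eq_true_iff.1 hd with h1 | h1
  · exact va_disj hC h h' hJ h1
  · exact (va_disj hC h' h hJ' h1).symm

end Pool.Agent.Lib.MP_5a2675_co.D7
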