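import Mathlib
import Pool.Agent.Lib.MP_5a2675_co.D7.VA

set_option autoImplicit false

namespace Pool.Agent.Lib.MP_5a2675_co.D7

open Finset
open Classical

variable {G G' : SimpleGraph ℕ} {S S' M X : Finset ℕ} {Γ : Gam} {C : Cfg} {f g : ℕ → ℕ}
  {a b c i j k l m n q r s t v w x y A J R Z Mk : ℕ}

theorem vb_not_img {B : Blob} (h : BlobOK G S M n A f B)
    (hi : ∀ i < n, ∀ j < n, f i = f j → i = j) (hj : j < n) (hR : tb B.R j = false) :
    f j ∉ img f B.R := fun hm => by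
  obtain ⟨i, -, h1, h2⟩ := mem_img.1 hm
  rw [hi i (h.ltO i (h.ro i h1)) j hj h2, hR] at h1
  exact Bool.false_ne_true h1

theorem vb_step {B : Blob} (h : BlobOK G S M n A f B) (hm : ∀ i < n, f i ∈ S)
    (hi : ∀ i < n, ∀ j < n, f i = f j → i = j) (hx : x ∈ bX G S f B) (hj : j < n)
    (hR : tb B.R j = false) (ha : (GJ G f B.J).Adj x (f j)) : f j ∈ bX G S f B :=
  comp_closed.2 x hx (f j) (mem_sdiff.2 ⟨hm j hj, vb_not_img h hi hj hR⟩) ha

theorem vb_adjJ (hn : n ≤ 63) (hJ : jwf n J = true) (hi : ∀ i < n, ∀ j < n, f i = f j → i = j)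
    (hA : ∀ i j, tb (row A i) j = true → G.Adj (f i) (f j)) (hin : i < n)
    (h : tb (adjJ A J i) j = true) : (GJ G f J).Adj (f i) (f j) := by
  rcases tb_adjJ.1 h with h | h
  · exact le_GJ (hA i j h)
  · exact (GJ_adj hJ hn hi).2 (Or.inr ⟨i, j, hin, h, rfl, rfl⟩)

theorem vb_unk {B : Blob} (h : BlobOK G S M n A f B) (hj : tb (unkB (ones n) B) j = true) :
    j < n ∧ tb B.R j = false := by
  obtain ⟨h1, h2⟩ := tb_dif.1 hj
  refine ⟨tb_ones.1 h1, Bool.eq_false_iff.2 fun h3 => ?_⟩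
  rw [tb_lor.2 (Or.inr (h.ro j h3))] at h2
  exact Bool.false_ne_true h2.symm

theorem vb_growIn {B : Blob} (hn : n ≤ 63) (hm : ∀ i < n, f i ∈ S)
    (hi : ∀ i < n, ∀ j < n, f i = f j → i = j)
    (hA : ∀ i j, tb (row A i) j = true → G.Adj (f i) (f j)) (h : BlobOK G S M n A f B)
    (hs : ∀ i, tb s i = true → i < n ∧ f i ∈ bX G S f B) :
    BlobOK G S M n A f (growIn A (ones n) B s) := by
  have key : ∀ i, tb (clo (adjJ A B.J) (unkB (ones n) B) (dif s B.In)) i = true →
      i < n ∧ f i ∈ bX G S f B := by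
    refine clo_ind _ (fun i h1 => hs i (tb_dif.1 h1).1) fun i j h1 h2 h3 => ?_
    obtain ⟨h4, h5⟩ := vb_unk h h3
    exact ⟨h4, vb_step h hm hi h1.2 h4 h5 (vb_adjJ hn h.jok.wf hi hA h1.1 h2)⟩
  exact ⟨fun i h1 => (tb_lor.1 h1).elim (h.ltI i) fun h2 => (key i h2).1, h.ltO,
    tb_lor.2 (Or.inl h.aI), fun i h1 => (tb_lor.1 h1).elim (h.inn i) fun h2 => (key i h2).2,
    h.out, h.ro, h.rne, h.unm, h.kn, h.ncub, h.jok, h.lo, h.hi⟩

theorem vb_growOut {B : Blob} (hn : n ≤ 63) (hm : ∀ i < n, f i ∈ S)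
    (hi : ∀ i < n, ∀ j < n, f i = f j → i = j)
    (hA : ∀ i j, tb (row A i) j = true → G.Adj (f i) (f j)) (h : BlobOK G S M n A f B)
    (hs : ∀ i, tb s i = true → i < n ∧ f i ∉ bX G S f B) :
    BlobOK G S M n A f (growOut A (ones n) B s) := by
  have key : ∀ i, tb (clo (adjJ A B.J) (unkB (ones n) B) (dif s B.Out)) i = true →
      i < n ∧ f i ∉ bX G S f B ∧ tb B.R i = false := by
    refine clo_ind _ (fun i h1 => ?_) fun i j h1 h2 h3 => ?_
    · obtain ⟨h2, h3⟩ := tb_dif.1 h1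
      refine ⟨(hs i h2).1, (hs i h2).2, Bool.eq_false_iff.2 fun h4 => ?_⟩
      rw [h.ro i h4] at h3
      exact Bool.false_ne_true h3.symm
    · obtain ⟨h4, h5⟩ := vb_unk h h3
      exact ⟨h4, fun h6 => h1.2.1 (vb_step h hm hi h6 h1.1 h1.2.2
        (vb_adjJ hn h.jok.wf hi hA h1.1 h2).symm), h5⟩
  exact ⟨h.ltI, fun i h1 => (tb_lor.1 h1).elim (h.ltO i) fun h2 => (key i h2).1, h.aI, h.inn,
    fun i h1 => (tb_lor.1 h1).elim (h.out i) fun h2 => (key i h2).2.1,
    fun i h1 => tb_lor.2 (Or.inl (h.ro i h1)), h.rne, h.unm, h.kn, h.ncub, h.jok, h.lo, h.hi⟩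

theorem growIn_ok {B : Blob} (hC : Valid G S M C f) (h : BlobOK G S M C.n C.A f B)
    (hs : ∀ i, tb s i = true → i < C.n ∧ f i ∈ bX G S f B) :
    BlobOK G S M C.n C.A f (growIn C.A (ones C.n) B s) :=
  vb_growIn (hC.n_le.trans (by norm_num)) hC.mem hC.inj hC.adj h hs
theorem growOut_ok {B : Blob} (hC : Valid G S M C f) (h : BlobOK G S M C.n C.A f B)
    (hs : ∀ i, tb s i = true → i < C.n ∧ f i ∉ bX G S f B) :
    BlobOK G S M C.n C.A f (growOut C.A (ones C.n) B s) :=
  vb_growOut (hC.n_le.trans (by norm_num)) hC.mem hC.inj hC.adj h hs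
theorem valid_setBl {L : List Blob} (hC : Valid G S M C f)
    (h : ∀ B ∈ L, BlobOK G S M C.n C.A f B) : Valid G S M (setBl C L) f :=
  ⟨hC.n_le, hC.mem, hC.inj, hC.rlt, hC.sym, hC.adj, hC.deg, hC.rem, hC.r21, hC.r32, hC.d12,
    hC.mark, hC.lt1, hC.lt2, hC.ltm, hC.ltr, hC.kc, hC.ht, h, hC.nc, hC.pf, hC.jv⟩
theorem valid_setB {B : Blob} (hC : Valid G S M C f) (h : BlobOK G S M C.n C.A f B) :
    Valid G S M (setB C l B) f :=
  valid_setBl hC fun D hD => (List.mem_or_eq_of_mem_set hD).elim (hC.bl D) fun e => e ▸ h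
theorem valid_erase (hC : Valid G S M C f) : Valid G S M (setBl C (C.bl.eraseIdx l)) f :=
  valid_setBl hC fun D hD => hC.bl D (List.mem_of_mem_eraseIdx hD)
theorem setLo_ok {B : Blob} (h : BlobOK G S M n A f B)
    (hx : x ≠ 0 → (x : ℤ) - 100 < val (GJ G f B.J) (bX G S f B) ∅) :
    BlobOK G S M n A f (setLo B x) :=
  ⟨h.ltI, h.ltO, h.aI, h.inn, h.out, h.ro, h.rne, h.unm, h.kn, h.ncub, h.jok, hx, h.hi⟩
theorem setHi_ok {B : Blob} (h : BlobOK G S M n A f B)
    (hx : val (GJ G f B.J) (bX G S f B) ∅ ≤ (x : ℤ) - 100) : BlobOK G S M n A f (setHi B x) :=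
  ⟨h.ltI, h.ltO, h.aI, h.inn, h.out, h.ro, h.rne, h.unm, h.kn, h.ncub, h.jok, h.lo, hx⟩
theorem not_clash (hC : Valid G S M C f) : clash C = false := by
  refine Bool.eq_false_iff.2 fun h => ?_
  obtain ⟨B, hB, h1⟩ := anyL_iff.1 h
  obtain ⟨i, h2, h3⟩ := dj_false_iff.1 (by simpa using h1)
  exact (hC.bl B hB).out i h3 ((hC.bl B hB).inn i h2)
theorem mem_keep {L : List Cfg} (hC : Valid G S M C f) : C ∈ keep C L := by
  rw [keep, not_clash hC]
  exact List.mem_cons_self
theorem mem_keep_of_mem {L : List Cfg} {D : Cfg} (h : D ∈ L) : D ∈ keep C L := by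
  unfold keep
  cases clash C
  · exact List.mem_cons_of_mem _ h
  · exact h
theorem addEdge_n : (addEdge C a b).n = C.n := rfl
theorem newV_n {mk : Bool} : (newV C a mk).n = C.n + 1 := rfl

theorem vb_r1 (hC : Valid G S M C f) (ha : a < C.n) (hb : b < C.n)
    (hab : G.Adj (f a) (f b)) (hn : tb (row C.A a) b = false) : tb C.r1 a = true := by
  refine (v_known hC ha (hC.mem b hb) hab).resolve_left ?_
  rintro ⟨k, h1, h2⟩
  rw [hC.inj k (hC.rlt a k h1).2 b hb h2, hn] at h1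
  exact Bool.false_ne_true h1

theorem vb_symF (hC : Valid G S M C f) (hn : tb (row C.A a) b = false) :
    tb (row C.A b) a = false := Bool.eq_false_iff.2 fun h => by
  rw [hC.sym b a h] at hn
  exact Bool.false_ne_true hn.symm

theorem vb_monoA {A' : ℕ} {B : Blob} (h : BlobOK G S M n A f B)
    (hA : ∀ i j, tb (row A i) j = true → tb (row A' i) j = true) : BlobOK G S M n A' f B :=
  ⟨h.ltI, h.ltO, h.aI, h.inn, h.out, h.ro, h.rne, h.unm,
    fun x hx i hi ha => (h.kn x hx i hi ha).imp fun k hk => ⟨hA i k hk.1, hk.2⟩,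
    h.ncub, h.jok, h.lo, h.hi⟩

theorem vb_lab1 {A' e : ℕ} {B : Blob} (hC : Valid G S M C f) (h : BlobOK G S M C.n C.A f B)
    (he : ∀ i, tb e i = true → i < C.n)
    (he2 : ∀ i j, tb e i = true → tb e j = true → i = j ∨
      (G.Adj (f i) (f j) ∧ tb (row C.A i) j = false))
    (hA : ∀ i j, tb (row C.A i) j = true → tb (row A' i) j = true)
    (hA' : ∀ i j, tb (row A' i) j = true → G.Adj (f i) (f j)) :
    BlobOK G S M C.n A' f (lab1 A' (ones C.n) e B) := by
  have hn : C.n ≤ 63 := hC.n_le.trans (by norm_num)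
  have h' := vb_monoA h hA
  unfold lab1
  cases h1 : dj e B.R
  · obtain ⟨c, h2, h3⟩ := dj_false_iff.1 h1
    refine vb_growOut hn hC.mem hC.inj hA' h' fun i h4 => ⟨he i h4, fun h5 => ?_⟩
    rcases he2 c i h2 h4 with rfl | ⟨h6, h7⟩
    · exact h.out c (h.ro c h3) h5
    · obtain ⟨k, h8, h9⟩ := h.kn _ h5 c h3 h6.symm
      rw [hC.inj k (hC.rlt c k h8).2 i (he i h4) h9, h7] at h8
      exact Bool.false_ne_true h8
  have hR := dj_iff.1 h1
  cases h2 : dj e B.In
  · obtain ⟨c, h3, h4⟩ := dj_false_iff.1 h2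
    refine vb_growIn hn hC.mem hC.inj hA' h' fun i h5 => ⟨he i h5, ?_⟩
    rcases he2 c i h3 h5 with rfl | ⟨h6, -⟩
    · exact h.inn c h4
    · exact vb_step h hC.mem hC.inj (h.inn c h4) (he i h5) (hR i h5) (le_GJ h6)
  cases h3 : dj e B.Out
  · obtain ⟨c, h4, h5⟩ := dj_false_iff.1 h3
    refine vb_growOut hn hC.mem hC.inj hA' h' fun i h6 => ⟨he i h6, fun h7 => ?_⟩
    rcases he2 c i h4 h6 with rfl | ⟨h8, -⟩
    · exact h.out c h5 h7
    · exact h.out c h5 (vb_step h hC.mem hC.inj h7 (he c h4) (hR c h4) (le_GJ h8.symm))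
  exact h'

theorem vb_shift (p q e i : ℕ) :
    tb (Nat.lor (dif p e) (Nat.land q e)) i = cond (tb e i) (tb q i) (tb p i) := by
  rw [Bool.eq_iff_iff, tb_lor, tb_dif, tb_land]
  cases tb e i <;> simp

theorem vb_dif (p e i : ℕ) : tb (dif p e) i = cond (tb e i) false (tb p i) := by
  rw [Bool.eq_iff_iff, tb_dif]
  cases tb e i <;> simp

theorem vb_addE {A' e : ℕ} (hC : Valid G S M C f) (he : ∀ i, tb e i = true → i < C.n)
    (he2 : ∀ i j, tb e i = true → tb e j = true → i = j ∨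
      (G.Adj (f i) (f j) ∧ tb (row C.A i) j = false))
    (he3 : ∀ i, tb e i = true → ∃ j, tb e j = true ∧ i ≠ j ∧
      ∀ k, tb e k = true → k = i ∨ k = j)
    (hA : ∀ i j, tb (row A' i) j = true ↔
      tb (row C.A i) j = true ∨ (tb e i = true ∧ tb e j = true ∧ i ≠ j)) :
    Valid G S M (addE C A' e) f := by
  have hadj : ∀ i j, tb (row A' i) j = true → G.Adj (f i) (f j) := fun i j h =>
    ((hA i j).1 h).elim (hC.adj i j) fun h1 => ((he2 i j h1.1 h1.2.1).resolve_left h1.2.2).1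
  refine ⟨hC.n_le, hC.mem, hC.inj, fun i j h => ?_, fun i j h => ?_, hadj, hC.deg,
    fun i hi => ?_, fun i h => ?_, fun i h => ?_, hC.d12, hC.mark, hC.lt1, hC.lt2, hC.ltm,
    fun i h => ?_, hC.kc, hC.ht, fun B hB => ?_, hC.nc, hC.pf, hC.jv⟩
  · exact ((hA i j).1 h).elim (hC.rlt i j) fun h1 => ⟨he i h1.1, he j h1.2.1⟩
  · exact (hA j i).2 (((hA i j).1 h).imp (hC.sym i j) fun h1 => ⟨h1.2.1, h1.1, h1.2.2.symm⟩)
  · change dg C i = (bits (row A' i)).card + ((tb (Nat.lor (dif C.r1 e) (Nat.land C.r2 e)) i).toNat +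
      (tb (Nat.lor (dif C.r2 e) (Nat.land C.r3 e)) i).toNat + (tb (dif C.r3 e) i).toNat)
    rw [hC.rem i hi, vb_shift, vb_shift, vb_dif, rm]
    cases h1 : tb e i
    · have : bits (row A' i) = bits (row C.A i) := by
        ext j
        rw [mem_bits, mem_bits, hA, h1]
        simp
      rw [this]
      rfl
    · obtain ⟨j, h2, h3, h4⟩ := he3 i h1
      obtain ⟨h5, h6⟩ := (he2 i j h1 h2).resolve_left h3
      have h7 : bits (row A' i) = insert j (bits (row C.A i)) := by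
        ext k
        rw [mem_insert, mem_bits' row_lt, mem_bits' row_lt, hA]
        constructor
        · rintro (h | ⟨-, h, h'⟩)
          · exact Or.inr h
          · exact Or.inl ((h4 k h).resolve_left h'.symm)
        · rintro (rfl | h)
          · exact Or.inr ⟨h1, h2, h3⟩
          · exact Or.inl h
      rw [h7, card_insert_of_notMem (by rw [mem_bits' row_lt, h6]; simp),
        vb_r1 hC hi (he j h2) h5 h6]
      simp only [cond_true, Bool.toNat_true, Bool.toNat_false]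
      omega
  · change tb (Nat.lor (dif C.r2 e) (Nat.land C.r3 e)) i = true at h
    change tb (Nat.lor (dif C.r1 e) (Nat.land C.r2 e)) i = true
    rw [vb_shift] at h ⊢
    cases h1 : tb e i <;> rw [h1] at h
    · exact hC.r21 i h
    · exact hC.r32 i h
  · change tb (dif C.r3 e) i = true at h
    change tb (Nat.lor (dif C.r2 e) (Nat.land C.r3 e)) i = true
    rw [vb_dif] at h
    rw [vb_shift]
    cases h1 : tb e i <;> rw [h1] at h
    · exact hC.r32 i h
    · exact absurd h Bool.false_ne_true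
  · change tb (Nat.lor (dif C.r1 e) (Nat.land C.r2 e)) i = true at h
    rw [vb_shift] at h
    cases h1 : tb e i <;> rw [h1] at h
    · exact hC.ltr i h
    · exact he i h1
  · change B ∈ mapL (lab1 A' (ones C.n) e) C.bl at hB
    rw [mapL_eq] at hB
    obtain ⟨B', h1, rfl⟩ := List.mem_map.1 hB
    exact vb_lab1 (C := C) hC (hC.bl B' h1) he he2 (fun i j h => (hA i j).2 (Or.inl h)) hadj

/-- an edge of the graph between known vertices that is not yet recorded -/
theorem valid_addEdge (hC : Valid G S M C f) (ha : a < C.n) (hb : b < C.n)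
    (hab : G.Adj (f a) (f b)) (hn : tb (row C.A a) b = false) :
    Valid G S M (addEdge C a b) f := by
  have hne : a ≠ b := fun h => hab.ne (h ▸ rfl)
  have he : ∀ i, tb (Nat.lor (bit a) (bit b)) i = true ↔ i = a ∨ i = b := fun i => by
    rw [tb_lor, tb_bit, tb_bit]
  have := hC.n_le
  refine vb_addE hC (fun i h => ?_) (fun i j h1 h2 => ?_) (fun i h => ?_) fun i j => ?_
  · rcases (he i).1 h with rfl | rfl <;> assumption
  · rcases (he i).1 h1 with rfl | rfl <;> rcases (he j).1 h2 with rfl | rfl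
    · exact Or.inl rfl
    · exact Or.inr ⟨hab, hn⟩
    · exact Or.inr ⟨hab.symm, vb_symF hC hn⟩
    · exact Or.inl rfl
  · rcases (he i).1 h with rfl | rfl
    · exact ⟨b, (he b).2 (Or.inr rfl), hne, fun k hk => (he k).1 hk⟩
    · exact ⟨a, (he a).2 (Or.inl rfl), hne.symm, fun k hk => ((he k).1 hk).symm⟩
  · rw [tb_row_add (by omega) (by omega), he, he]
    refine or_congr Iff.rfl ?_
    omega
theorem unk_r1 (hC : Valid G S M C f) (ha : a < C.n) (hb : b < C.n)
    (hab : G.Adj (f a) (f b)) (hn : tb (row C.A a) b = false) :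
    tb C.r1 a = true ∧ tb C.r1 b = true :=
  ⟨vb_r1 hC ha hb hab hn, vb_r1 hC hb ha hab.symm (vb_symF hC hn)⟩

theorem vb_jok (h : JOK G S f n R J) (hR : Lt R n) (hf : ∀ i < n, g i = f i) (hn : n ≤ m)
    (hm : m ≤ 63) : JOK G S g m R J := by
  refine ⟨jwf_mono h.wf hn hm, fun i j h1 h2 => ?_, ?_⟩
  · obtain ⟨h3, h4, -⟩ := jp_lt h.wf (hn.trans hm) h1 h2
    rw [hf i h3, hf j h4]
    exact h.out i j h1 h2
  · rw [img_congr hR hf, GJ_congr h.wf (hn.trans hm) hf]
    exact h.sub3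

theorem vb_cX (hJ : jwf n J = true) (hR : Lt R n) (ha : a < n) (hf : ∀ i < n, g i = f i)
    (hn : n ≤ 63) : cX G S g R J a = cX G S f R J a := by
  unfold cX
  rw [img_congr hR hf, GJ_congr hJ hn hf, hf a ha]

theorem vb_blob {B : Blob} (h : BlobOK G S M n A f B) (hf : ∀ i < n, g i = f i) (hn : n ≤ m)
    (hm : m ≤ 63) (hA : ∀ i j, tb (row A i) j = true → j < n) : BlobOK G S M m A g B := by
  have hR : Lt B.R n := fun i hi => h.ltO i (h.ro i hi)
  have e1 : bX G S g B = bX G S f B := vb_cX h.jok.wf hR (h.ltI _ h.aI) hf (hn.trans hm)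
  have e2 : GJ G g B.J = GJ G f B.J := GJ_congr h.jok.wf (hn.trans hm) hf
  refine ⟨h.ltI.mono hn, h.ltO.mono hn, h.aI, fun i hi => ?_, fun i hi => ?_, h.ro, h.rne,
    e1 ▸ h.unm, fun x hx i hi ha => ?_, by rw [e1, e2]; exact h.ncub, vb_jok h.jok hR hf hn hm,
    by rw [e1, e2]; exact h.lo, by rw [e1, e2]; exact h.hi⟩
  · rw [e1, hf i (h.ltI i hi)]
    exact h.inn i hi
  · rw [e1, hf i (h.ltO i hi)]
    exact h.out i hi
  · rw [e1] at hx
    rw [hf i (hR i hi)] at ha
    obtain ⟨k, h1, h2⟩ := h.kn x hx i hi ha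
    exact ⟨k, h1, by rw [hf k (hA i k h1), h2]⟩

theorem vb_nc {y : ℕ × ℕ} (h : NCOK G S n f y) (hf : ∀ i < n, g i = f i) (hn : n ≤ m) :
    NCOK G S m g y := by
  refine ⟨h.ltR.mono hn, h.ltm.mono hn, fun i hi => ?_⟩
  rw [img_congr h.ltR hf, hf i (h.ltm i hi)]
  exact h.nc i hi

theorem vb_jv {y : JV} (h : JVOK G S n f y) (hf : ∀ i < n, g i = f i) (hn : n ≤ m)
    (hm : m ≤ 63) : JVOK G S m g y := by
  have e1 := img_congr h.ltR hf
  have e2 : GJ G g y.J = GJ G f y.J := GJ_congr h.jok.wf (hn.trans hm) hf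
  exact ⟨h.ltR.mono hn, vb_jok h.jok h.ltR hf hn hm, by rw [e1, e2]; exact h.crit,
    by rw [e1, e2]; exact h.nok⟩

theorem vb_pf {y : PF} (h : PFOK G S M n f y) (hf : ∀ i < n, g i = f i) (hn : n ≤ m)
    (hm : m ≤ 63) : PFOK G S M m g y := by
  have e1 : cX G S g y.R y.J y.p = cX G S f y.R y.J y.p := vb_cX h.wf h.ltR h.pn hf (hn.trans hm)
  have e2 : GJ G g y.J = GJ G f y.J := GJ_congr h.wf (hn.trans hm) hf
  refine ⟨h.ltR.mono hn, h.ltP.mono hn, h.dR, h.pn.trans_le hn, h.pR, jwf_mono h.wf hn hm, ?_⟩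
  rw [e1, e2]
  refine h.alt.imp (Exists.imp fun i hi => ⟨hi.1, by rw [hf i (h.ltP i hi.1)]; exact hi.2⟩)
    (Or.imp_right (Or.imp_left ?_))
  rintro ⟨z, hz, i, h1, h2⟩
  exact ⟨z, hz, i, h1, by rw [hf i (h.ltR i (h.dR i h1))]; exact h2⟩

theorem vb_orIf (p : Bool) (h : Lt m n) (i : ℕ) :
    tb (orIf p m (bit n)) i = if i = n then p else tb m i := by
  rw [Bool.eq_iff_iff, tb_orIf, tb_bit]
  split_ifs with h1
  · subst h1
    have : tb m i = false := Bool.eq_false_iff.2 fun h2 => lt_irrefl _ (h i h2)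
    simp [this]
  · simp [h1]

theorem vb_lt {p : Bool} (h : Lt m n) : Lt (orIf p m (bit n)) (n + 1) := fun i hi => by
  rw [vb_orIf p h] at hi
  split_ifs at hi with h1
  · omega
  · exact (h i hi).trans (Nat.lt_succ_self n)

/-- a vertex of the graph that is not yet known -/
theorem valid_newV (hC : Valid G S M C f) (hn : C.n ≤ 61) (hw : w ∈ S) (hf : ∀ i < C.n, f i ≠ w)
    (h1 : 1 ≤ deg G S w) (h3 : deg G S w ≤ 3) :
    Valid G S M (newV C (deg G S w) (decide (w ∈ M))) (Function.update f C.n w) := by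
  have hg : ∀ i < C.n, Function.update f C.n w i = f i := fun i hi =>
    Function.update_of_ne hi.ne _ _
  have hg' : Function.update f C.n w C.n = w := Function.update_self _ _ _
  have l2 : Lt C.r2 C.n := fun i hi => hC.ltr i (hC.r21 i hi)
  have l3 : Lt C.r3 C.n := fun i hi => l2 i (hC.r32 i hi)
  have hs : ∀ i, i < Nat.succ C.n → i < C.n ∨ i = C.n := fun i hi => by omega
  have hdg : ∀ i, dg (newV C (deg G S w) (decide (w ∈ M))) i =
      if i = C.n then deg G S w else dg C i := by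
    intro i
    change (if tb (orIf _ C.d1 (bit C.n)) i = true then 1
      else if tb (orIf _ C.d2 (bit C.n)) i = true then 2 else 3) = _
    rw [vb_orIf _ hC.lt1, vb_orIf _ hC.lt2]
    by_cases hi : i = C.n
    · simp only [hi, if_true, Nat.beq_eq]
      split_ifs <;> omega
    · simp only [hi, if_false]
      rfl
  have hrm : ∀ i, rm (newV C (deg G S w) (decide (w ∈ M))) i =
      if i = C.n then deg G S w else rm C i := by
    intro i
    change (tb (orIf true C.r1 (bit C.n)) i).toNat + (tb (orIf _ C.r2 (bit C.n)) i).toNat +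
      (tb (orIf _ C.r3 (bit C.n)) i).toNat = _
    rw [vb_orIf _ hC.ltr, vb_orIf _ l2, vb_orIf _ l3]
    by_cases hi : i = C.n
    · simp only [hi, if_true]
      generalize deg G S w = d at h1 h3
      interval_cases d <;> rfl
    · simp only [hi, if_false]
      rfl
  refine ⟨Nat.succ_le_succ hn, fun i hi => ?_, fun i hi j hj h => ?_, fun i j h => ?_, hC.sym,
    fun i j h => ?_, fun i hi => ?_, fun i hi => ?_, fun i h => ?_, fun i h => ?_, fun i h => ?_,
    fun i hi => ?_, vb_lt hC.lt1, vb_lt hC.lt2, vb_lt hC.ltm, vb_lt (p := true) hC.ltr,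
    fun i h => ?_, hC.ht, fun B hB => ?_, fun y hy => vb_nc (hC.nc y hy) hg (Nat.le_succ _),
    fun y hy => vb_pf (hC.pf y hy) hg (Nat.le_succ _) (Nat.succ_le_succ (by omega)),
    fun y hy => vb_jv (hC.jv y hy) hg (Nat.le_succ _) (Nat.succ_le_succ (by omega))⟩
  · rcases hs i hi with h | rfl
    · rw [hg i h]; exact hC.mem i h
    · rwa [hg']
  · rcases hs i hi with h4 | rfl <;> rcases hs j hj with h5 | rfl
    · rw [hg i h4, hg j h5] at h
      exact hC.inj i h4 j h5 h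
    · rw [hg i h4, hg'] at h
      exact absurd h (hf i h4)
    · rw [hg j h5, hg'] at h
      exact absurd h.symm (hf j h5)
    · rfl
  · exact ⟨(hC.rlt i j h).1.trans (Nat.lt_succ_self _), (hC.rlt i j h).2.trans (Nat.lt_succ_self _)⟩
  · rw [hg i (hC.rlt i j h).1, hg j (hC.rlt i j h).2]
    exact hC.adj i j h
  · rw [hdg]
    rcases hs i hi with h | rfl
    · rw [hg i h, if_neg h.ne]; exact hC.deg i h
    · rw [hg', if_pos rfl]
  · rw [hdg, hrm]
    rcases hs i hi with h | rfl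
    · rw [if_neg h.ne, if_neg h.ne]; exact hC.rem i h
    · rw [if_pos rfl, if_pos rfl]
      have : bits (row C.A C.n) = ∅ := eq_empty_of_forall_notMem fun j hj =>
        lt_irrefl _ (hC.rlt _ j (mem_bits.1 hj).2).1
      change _ = (bits (row C.A C.n)).card + _
      rw [this, card_empty, zero_add]
  · change tb (orIf _ C.r2 (bit C.n)) i = true at h
    change tb (orIf true C.r1 (bit C.n)) i = true
    rw [vb_orIf _ l2] at h
    rw [vb_orIf _ hC.ltr]
    split_ifs at h ⊢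
    · rfl
    · exact hC.r21 i h
  · change tb (orIf _ C.r3 (bit C.n)) i = true at h
    change tb (orIf _ C.r2 (bit C.n)) i = true
    rw [vb_orIf _ l3] at h
    rw [vb_orIf _ l2]
    split_ifs at h ⊢
    · rw [Nat.ble_eq] at h ⊢; omega
    · exact hC.r32 i h
  · change tb (orIf _ C.d1 (bit C.n)) i = true at h
    change tb (orIf _ C.d2 (bit C.n)) i = false
    rw [vb_orIf _ hC.lt1] at h
    rw [vb_orIf _ hC.lt2]
    split_ifs at h ⊢
    · rw [Nat.beq_eq] at h; rw [h]; rfl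
    · exact hC.d12 i h
  · change _ ↔ tb (orIf _ C.ms (bit C.n)) i = true
    rw [vb_orIf _ hC.ltm]
    rcases hs i hi with h | rfl
    · rw [hg i h, if_neg h.ne]; exact hC.mark i h
    · rw [hg', if_pos rfl, decide_eq_true_iff]
  · obtain ⟨h4, h5⟩ := hC.kc i h
    exact ⟨h4.trans (Nat.lt_succ_self _), by rw [hg i h4]; exact h5⟩
  · have key : ∀ B ∈ C.bl, BlobOK G S M (C.n + 1) C.A (Function.update f C.n w) B := fun B hB =>
      vb_blob (hC.bl B hB) hg (Nat.le_succ _) (by omega) fun i j h => (hC.rlt i j h).2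
    change B ∈ cond (decide (w ∈ M)) (mapL _ C.bl) C.bl at hB
    by_cases hM : w ∈ M
    · rw [decide_eq_true hM, cond_true, mapL_eq] at hB
      obtain ⟨B', h4, rfl⟩ := List.mem_map.1 hB
      have h := key B' h4
      refine ⟨h.ltI, fun i hi => (tb_lor.1 hi).elim (h.ltO i) fun h5 => ?_, h.aI, h.inn,
        fun i hi => (tb_lor.1 hi).elim (h.out i) fun h5 h6 => ?_,
        fun i hi => tb_lor.2 (Or.inl (h.ro i hi)), h.rne, h.unm, h.kn, h.ncub, h.jok, h.lo, h.hi⟩
      · rw [tb_bit.1 h5]; exact Nat.lt_succ_self _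
      · rw [tb_bit.1 h5, hg'] at h6
        exact h.unm w h6 hM
    · rw [decide_eq_false hM, cond_false] at hB
      exact key B hB
theorem valid_newE (hC : Valid G S M C f) (hn : C.n ≤ 61) (hw : w ∈ S) (hf : ∀ i < C.n, f i ≠ w)
    (h3 : deg G S w ≤ 3) (ha : a < C.n) (hab : G.Adj (f a) w) :
    tb C.r1 a = true ∧
    Valid G S M (addEdge (newV C (deg G S w) (decide (w ∈ M))) a C.n) (Function.update f C.n w) := by
  refine ⟨(v_known hC ha hw hab).resolve_left ?_, ?_⟩
  · rintro ⟨k, h1, h2⟩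
    exact hf k (hC.rlt a k h1).2 h2
  · have h1 : 1 ≤ deg G S w := card_pos.2 ⟨f a, mem_N.2 ⟨hC.mem a ha, hab.symm⟩⟩
    refine valid_addEdge (valid_newV hC hn hw hf h1 h3) (ha.trans (Nat.lt_succ_self _))
      (Nat.lt_succ_self _) ?_ (Bool.eq_false_iff.2 fun h => lt_irrefl _ (hC.rlt a _ h).2)
    rwa [Function.update_of_ne ha.ne, Function.update_self]
theorem valid_empty : Valid G S M empty f := by
  have h0 : ∀ i, tb 0 i = true → False := fun i h => by
    rw [tb_zero] at h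
    exact Bool.false_ne_true h
  have h1 : ∀ i j, tb (row 0 i) j = true → False := fun i j h => by
    simpa using (tb_row.1 h).2
  exact ⟨Nat.zero_le _, fun i h => absurd h (Nat.not_lt_zero _),
    fun i h => absurd h (Nat.not_lt_zero _), fun i j h => (h1 i j h).elim,
    fun i j h => (h1 i j h).elim, fun i j h => (h1 i j h).elim,
    fun i h => absurd h (Nat.not_lt_zero _), fun i h => absurd h (Nat.not_lt_zero _),
    fun i h => (h0 i h).elim, fun i h => (h0 i h).elim, fun i h => (h0 i h).elim,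
    fun i h => absurd h (Nat.not_lt_zero _), fun i h => (h0 i h).elim, fun i h => (h0 i h).elim,
    fun i h => (h0 i h).elim, fun i h => (h0 i h).elim, fun i h => (h0 i h).elim,
    fun h => absurd h Nat.zero_ne_one, fun _ h => absurd h List.not_mem_nil,
    fun _ h => absurd h List.not_mem_nil, fun _ h => absurd h List.not_mem_nil,
    fun _ h => absurd h List.not_mem_nil⟩
theorem mem_types (h : MC G S M) (hw : w ∈ S) : (deg G S w, decide (w ∈ M)) ∈ types := by
  have h1 := mc_deg_pos h hw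
  obtain ⟨h2, h3⟩ := h.good w hw
  by_cases hM : w ∈ M
  · have h4 := h3 hM
    rw [decide_eq_true hM]
    generalize deg G S w = d at h1 h4
    interval_cases d <;> decide
  · rw [decide_eq_false hM]
    generalize deg G S w = d at h1 h2
    interval_cases d <;> decide

end Pool.Agent.Lib.MP_5a2675_co.D7
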