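import Mathlib
import Pool.Agent.Lib.MP_5a2675_co.D7.VB

set_option autoImplicit false

namespace Pool.Agent.Lib.MP_5a2675_co.D7

open Finset
open Classical

variable {G G' : SimpleGraph ℕ} {S S' M X : Finset ℕ} {Γ : Gam} {C : Cfg} {f g : ℕ → ℕ}
  {a b c i j k l m n q r s t v w x y A J R Z Mk : ℕ}

variable {dl : List (Blob × ℕ)} {u : Blob × ℕ}

theorem tb_rK : tb (rK C R dl) i = true ↔ i < C.n ∧ tb (rZ R dl) i = false := by
  rw [rK, tb_dif, tb_ones]

theorem da_tb_rZ : tb (rZ R dl) i = true ↔ tb R i = true ∨ ∃ u ∈ dl, tb u.1.In i = true := by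
  rw [rZ, tb_lor, tb_orL]

theorem da_mem_rS : v ∈ rS G S f R dl ↔ v ∈ S ∧ v ∉ img f R ∧ ∀ x ∈ dl, v ∉ bX G S f x.1 := by
  rw [rS, mem_filter]

theorem da_del (h : RC G S M Γ C f R J Mk dl) (hu : u ∈ dl) :
    u.1.J = NOJ ∧ (∀ i, tb R i = true → tb u.1.Out i = true) ∧
      (∀ i, tb (rJ C J) i = true → tb u.1.Out i = true) ∧
      (∀ i k, tb u.1.In i = true → tb (row C.A i) k = true →
        tb u.1.In k = true ∨ tb u.1.R k = true) ∧
      ∀ i k, tb u.1.R i = true → tb (rK C R dl) i = true → tb (row C.A i) k = true →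
        tb (rK C R dl) k = true → tb u.1.Out k = true := by
  have hd := h.del u hu
  have hB := h.ctx.val.bl _ (h.mem u hu)
  simp only [delOK, Bool.and_eq_true, Nat.beq_eq] at hd
  obtain ⟨⟨⟨⟨h1, h2⟩, h3⟩, h4⟩, -⟩ := hd
  rw [sub_iff] at h2 h3
  rw [dj_iff] at h4
  refine ⟨h1, fun i hi => h2 i (tb_lor.mpr (Or.inl hi)), fun i hi => h2 i (tb_lor.mpr (Or.inr hi)),
    fun i k hi hk => tb_lor.mp (h3 k ((tb_nb (v_lt64 h.ctx.val hB.ltI).2).mpr ⟨i, hi, hk⟩)),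
    fun i k hi hiK hk hkK => ?_⟩
  have hlt : Lt (Nat.land u.1.R (rK C R dl)) C.n := fun j hj => (tb_rK.mp (tb_land.mp hj).2).1
  have h5 := h4 k ((tb_nb (v_lt64 h.ctx.val hlt).2).mpr ⟨i, tb_land.mpr ⟨hi, hiK⟩, hk⟩)
  by_contra hc
  have h6 : tb (dif (rK C R dl) u.1.Out) k = true := tb_dif.mpr ⟨hkK, by simpa using hc⟩
  rw [h5] at h6
  exact absurd h6 (by simp)

theorem rc_blob (h : RC G S M Γ C f R J Mk dl) (hu : u ∈ dl) :
    BlobOK G S M C.n C.A f u.1 ∧ u.1.J = NOJ := ⟨h.ctx.val.bl _ (h.mem u hu), (da_del h hu).1⟩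

theorem rc_ltZ (h : RC G S M Γ C f R J Mk dl) : Lt (rZ R dl) C.n := by
  intro i hi
  rcases da_tb_rZ.mp hi with hi | ⟨u, hu, hi⟩
  · exact h.ltR i hi
  · exact (rc_blob h hu).1.ltI i hi

theorem da_n63 (h : RC G S M Γ C f R J Mk dl) : C.n ≤ 63 := h.ctx.val.n_le.trans (by norm_num)

theorem rc_F (h : RC G S M Γ C f R J Mk dl) : tb (rF C R dl) i = true ↔
    tb (rK C R dl) i = true ∧ 0 < cn C.A (rZ R dl) i := by
  rw [rF, tb_land, rT, tb_nb3 (v_lt64 h.ctx.val (rc_ltZ h)).2 (by norm_num), and_comm]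

theorem rc_jok (h : RC G S M Γ C f R J Mk dl) : JOK G S f C.n (rZ R dl) J := by
  rcases h.jc with rfl | ⟨h1, -⟩
  · exact jok_NOJ h.ctx.mc (da_n63 h)
  · obtain ⟨k, hk⟩ := hasJV_ok h.ctx.val h1
    exact hk.jok

theorem rc_pair (h : RC G S M Γ C f R J Mk dl) :
    dl.Pairwise fun u u' => Disjoint (bX G S f u.1) (bX G S f u'.1) :=
  (pairD_iff.mp h.pd).imp_of_mem fun hu hu' hd =>
    disj_ok h.ctx.val (rc_blob h hu).1 (rc_blob h hu').1 (rc_blob h hu).2 (rc_blob h hu').2 hd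

theorem da_same (h : RC G S M Γ C f R J Mk dl) {u' : Blob × ℕ} (hu : u ∈ dl) (hu' : u' ∈ dl)
    (hx : x ∈ bX G S f u.1) (hx' : x ∈ bX G S f u'.1) : u = u' := by
  by_contra hne
  have : Std.Symm fun u u' : Blob × ℕ => Disjoint (bX G S f u.1) (bX G S f u'.1) :=
    ⟨fun _ _ hd => hd.symm⟩
  exact disjoint_left.mp ((rc_pair h).forall hu hu' hne) hx hx'

theorem rc_R_out (h : RC G S M Γ C f R J Mk dl) (hu : u ∈ dl) :
    Disjoint (img f R) (bX G S f u.1) := by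
  rw [disjoint_left]
  intro v hv
  obtain ⟨i, -, hi, rfl⟩ := mem_img.mp hv
  exact (rc_blob h hu).1.out i ((da_del h hu).2.1 i hi)

theorem da_notin (h : RC G S M Γ C f R J Mk dl) (hk : tb (rZ R dl) k = true) :
    f k ∉ rS G S f R dl := by
  intro hv
  obtain ⟨-, h2, h3⟩ := da_mem_rS.mp hv
  rcases da_tb_rZ.mp hk with hi | ⟨u, hu, hi⟩
  · exact h2 (mem_img.mpr ⟨k, (v_lt64 h.ctx.val h.ltR).2 k hi, hi, rfl⟩)
  · exact h3 u hu ((rc_blob h hu).1.inn k hi)

theorem rc_sub (h : RC G S M Γ C f R J Mk dl) : rS G S f R dl ⊆ S \ img f (rZ R dl) := by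
  intro v hv
  refine mem_sdiff.mpr ⟨(da_mem_rS.mp hv).1, fun hz => ?_⟩
  obtain ⟨i, -, hi, rfl⟩ := mem_img.mp hz
  exact da_notin h hi hv

theorem da_sub : rS G S f R dl ⊆ S := filter_subset _ _

theorem da_K (h : RC G S M Γ C f R J Mk dl) (hi : i < C.n) (hx : f i ∈ rS G S f R dl) :
    tb (rK C R dl) i = true := by
  refine tb_rK.mpr ⟨hi, ?_⟩
  by_contra hc
  exact da_notin h (by simpa using hc) hx

theorem rc_card (h : RC G S M Γ C f R J Mk dl) : (rS G S f R dl).card < S.card := by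
  obtain ⟨i, hi⟩ := exists_tb h.zne
  exact card_lt_card ((ssubset_iff_of_subset da_sub).mpr
    ⟨f i, h.ctx.val.mem i (rc_ltZ h i hi), da_notin h hi⟩)

theorem da_D (hk : tb (rD C R) k = true) : tb R k = true ∧ tb (rZ R dl) k = true :=
  ⟨(tb_land.mp hk).1, da_tb_rZ.mpr (Or.inl (tb_land.mp hk).1)⟩

/-- the join ends are left -/
theorem rc_join (h : RC G S M Γ C f R J Mk dl) (hi : tb (rJ C J) i = true) :
    tb (rF C R dl) i = true ∧ f i ∈ rS G S f R dl ∧ f i ∉ rM G S M C f R Mk := by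
  have hV := h.ctx.val
  rcases h.jc with rfl | ⟨-, h2, h3⟩
  · rw [rJ, jm_NOJ (da_n63 h), tb_zero] at hi
    exact absurd hi (by simp)
  obtain ⟨hF, hm⟩ := tb_dif.mp (sub_iff.mp h3 i hi)
  obtain ⟨hn, hZ⟩ := tb_rK.mp ((rc_F h).mp hF).1
  refine ⟨hF, da_mem_rS.mpr ⟨hV.mem i hn, fun hc => ?_, fun u hu => ?_⟩, fun hc => ?_⟩
  · have := da_tb_rZ (dl := dl).mpr (Or.inl ((v_mem_img hV h.ltR hn).mp hc))
    rw [hZ] at this
    exact absurd this (by simp)
  · exact (rc_blob h hu).1.out i ((da_del h hu).2.2.1 i hi)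
  · rcases (mem_filter.mp hc).2 with h4 | h4 | ⟨k, hk, -⟩
    · rw [hV.mark i hn, hm] at h4
      exact absurd h4 (by simp)
    · obtain ⟨k, -, hk, e⟩ := mem_img.mp h4
      obtain ⟨k1, k2⟩ := h.mkF k hk
      obtain rfl := hV.inj k (tb_rK.mp ((rc_F h).mp k1).1).1 i hn e
      rw [hi] at k2
      exact absurd k2 (by simp)
    · rw [h2, tb_zero] at hk
      exact absurd hk (by simp)

/-- an edge that leaves the rest is known and ends in `Z`, or it ends in a vertex of `rD` -/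
theorem rc_edge (h : RC G S M Γ C f R J Mk dl) (hx : x ∈ rS G S f R dl) (hy : y ∈ S)
    (hn : y ∉ rS G S f R dl) (ha : G.Adj x y) :
    (∃ i k, tb (rK C R dl) i = true ∧ tb (rZ R dl) k = true ∧ tb (row C.A k) i = true ∧
      f i = x ∧ f k = y) ∨ ∃ k, tb (rD C R) k = true ∧ f k = y := by
  have hV := h.ctx.val
  by_cases hR : y ∈ img f R
  · obtain ⟨k, -, hk, rfl⟩ := mem_img.mp hR
    rcases v_known hV (h.ltR k hk) (da_sub hx) ha.symm with ⟨i, hi, rfl⟩ | h1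
    · exact Or.inl ⟨i, k, da_K h (hV.rlt k i hi).2 hx, da_tb_rZ.mpr (Or.inl hk), hi, rfl, rfl⟩
    · exact Or.inr ⟨k, tb_land.mpr ⟨hk, h1⟩, rfl⟩
  · have : ∃ u ∈ dl, y ∈ bX G S f u.1 := by
      by_contra hc
      exact hn (da_mem_rS.mpr ⟨hy, hR, fun u hu hy' => hc ⟨u, hu, hy'⟩⟩)
    obtain ⟨u, hu, hyu⟩ := this
    have hB := (rc_blob h hu).1
    rcases b_step hB hyu (da_sub hx) ha.symm with h1 | ⟨r, hr, rfl⟩
    · exact absurd h1 ((da_mem_rS.mp hx).2.2 u hu)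
    obtain ⟨k, hk, rfl⟩ := hB.kn _ hyu r hr ha.symm
    have hrK := da_K h (hV.rlt r k hk).1 hx
    refine Or.inl ⟨r, k, hrK, ?_, hV.sym r k hk, rfl, rfl⟩
    by_contra hc
    exact hB.out k ((da_del h hu).2.2.2.2 r k hr hrK hk
      (tb_rK.mpr ⟨(hV.rlt r k hk).2, by simpa using hc⟩)) hyu

theorem da_partner (h : RC G S M Γ C f R J Mk dl) (hi : i < C.n) (hk : tb (jp J i) k = true) :
    f k ∈ rS G S f R dl := by
  have hn := h.ctx.val.n_le
  obtain ⟨-, h2, -, h4⟩ := jp_lt (rc_jok h).wf (da_n63 h) (by omega) hk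
  exact (rc_join h ((tb_jm (rc_jok h).wf (da_n63 h)).mpr ⟨by omega, i, h4⟩)).2.1

theorem rc_closed (h : RC G S M Γ C f R J Mk dl) :
    Closed (GJ G f J) (S \ img f (rZ R dl)) (rS G S f R dl) := by
  have hV := h.ctx.val
  refine ⟨rc_sub h, fun v hv w hw ha => ?_⟩
  obtain ⟨hw1, hw2⟩ := mem_sdiff.mp hw
  rcases (GJ_adj (rc_jok h).wf (da_n63 h) hV.inj).mp ha with ha | ⟨i, k, hi, hk, -, rfl⟩
  · by_contra hn
    have h64 := (v_lt64 hV (rc_ltZ h)).2
    rcases rc_edge h hv hw1 hn ha with ⟨i, k, -, hk, -, -, rfl⟩ | ⟨k, hk, rfl⟩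
    · exact hw2 (mem_img.mpr ⟨k, h64 k hk, hk, rfl⟩)
    · exact hw2 (mem_img.mpr ⟨k, h64 k (da_D hk).2, (da_D hk).2, rfl⟩)
  · exact da_partner h hi hk

theorem rc_crit (h : RC G S M Γ C f R J Mk dl)
    (hv : CritP (GJ G f J) (rS G S f R dl) v) : CritP G (S \ img f (rZ R dl)) v := by
  have hm : v ∈ rS G S f R dl := by
    obtain ⟨P, hP, g, hg, rfl⟩ := hv
    exact hg.1 0 (gb_root P hP).1
  have h1 : CritP (GJ G f J) (S \ img f (rZ R dl)) v :=
    critP_mono hv (rc_sub h) (fun _ _ _ _ ha => ha) (rc_jok h).sub3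
      (by rw [← deg_closed (rc_closed h) hm]; exact critP_deg hv)
  rcases h.jc with rfl | ⟨h2, -⟩
  · rwa [GJ_NOJ] at h1
  · obtain ⟨k, hk⟩ := hasJV_ok h.ctx.val h2
    exact hk.crit v h1

theorem rc_good (h : RC G S M Γ C f R J Mk dl) :
    Good (GJ G f J) (rS G S f R dl) (rM G S M C f R Mk) := by
  have hV := h.ctx.val
  intro v hv
  refine ⟨by rw [deg_closed (rc_closed h) hv]; exact (rc_jok h).sub3 v (rc_sub h hv), fun hm => ?_⟩
  rw [v_deg_GJ_new hV (rc_jok h).wf (fun i hi e => (rc_join h hi).2.2 (e ▸ hm))]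
  rcases (mem_filter.mp hm).2 with h4 | h4 | ⟨k, hk, ha⟩
  · exact (deg_mono da_sub fun _ _ ha => ha).trans ((h.ctx.mc.good v (da_sub hv)).2 h4)
  · obtain ⟨k, -, hk, rfl⟩ := mem_img.mp h4
    obtain ⟨k1, k2⟩ := (rc_F h).mp (h.mkF k hk).1
    have h5 := v_deg_le hV (tb_rK.mp k1).1 (rc_sub h)
    have h6 := (dg_le (C := C) (i := k)).2
    omega
  · have h5 : deg G (rS G S f R dl) v < deg G S v := by
      refine card_lt_card ((ssubset_iff_of_subset fun w hw => ?_).mpr ⟨f k, ?_, fun hc => ?_⟩)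
      · exact mem_N.mpr ⟨da_sub (mem_N.mp hw).1, (mem_N.mp hw).2⟩
      · exact mem_N.mpr ⟨hV.mem k (h.ltR k (da_D (dl := dl) hk).1), ha⟩
      · exact da_notin h (da_D hk).2 (mem_N.mp hc).1
    have h6 := mc_deg3 h.ctx.mc v (da_sub hv)
    omega

theorem rc_deg_le (h : RC G S M Γ C f R J Mk dl) (hi : i < C.n) :
    deg (GJ G f J) (rS G S f R dl) (f i) + cn C.A (rZ R dl) i ≤ dg C i + jn J C.n i := by
  have h1 := v_deg_GJ_le (S' := rS G S f R dl) h.ctx.val (rc_jok h).wf hi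
  have h2 := v_deg_le h.ctx.val hi (rc_sub h)
  omega

/-- exact degree of a known vertex that is left and has no neighbour in `rD` -/
theorem rc_deg_eq (h : RC G S M Γ C f R J Mk dl) (hi : i < C.n) (hx : f i ∈ rS G S f R dl)
    (hd : ∀ k, tb (rD C R) k = true → ¬ G.Adj (f i) (f k)) :
    deg (GJ G f J) (rS G S f R dl) (f i) + cn C.A (rZ R dl) i =
      dg C i + jn J C.n i := by
  have hV := h.ctx.val
  have h1 := v_deg_GJ (S' := rS G S f R dl) hV (rc_jok h) hi fun k hk => da_partner h hi hk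
  have h2 := v_deg_eq hV hi (rc_sub h) (by
    intro w hw hn ha
    rcases rc_edge h hx hw hn ha with ⟨i', k, h1, h2, h3, h4, h5⟩ | ⟨k, hk, rfl⟩
    · obtain rfl := hV.inj i' (tb_rK.mp h1).1 i hi h4
      exact ⟨k, (v_lt64 hV (rc_ltZ h)).2 k h2, h2, h3, h5⟩
    · exact absurd ha (hd k hk))
  omega

/-- a known vertex outside `Z` that lies in a deleted blob -/
theorem rc_ghost (h : RC G S M Γ C f R J Mk dl) (hu : u ∈ dl) (hi : tb (rK C R dl) i = true)
    (hx : f i ∈ bX G S f u.1) :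
    tb (unkB (ones C.n) u.1) i = true ∧ cn C.A (rZ R dl) i = cn C.A u.1.R i ∧
      tb (rJ C J) i = false ∧
      ∀ k, tb (rK C R dl) k = true → tb (row C.A i) k = true → f k ∈ bX G S f u.1 := by
  have hV := h.ctx.val
  have hB := (rc_blob h hu).1
  obtain ⟨-, d2, d3, d4, d5⟩ := da_del h hu
  obtain ⟨hn, hZ⟩ := tb_rK.mp hi
  have hO : ¬ tb u.1.Out i = true := fun hc => hB.out i hc hx
  have hI : ¬ tb u.1.In i = true := fun hc => by
    have := da_tb_rZ (R := R).mpr (Or.inr ⟨u, hu, hc⟩)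
    rw [hZ] at this
    exact absurd this (by simp)
  have step : ∀ k, tb (row C.A k) i = true → f k ∈ bX G S f u.1 ∨ tb u.1.R k = true := by
    intro k hk
    have hkn := (hV.rlt k i hk).1
    rcases b_step hB hx (hV.mem k hkn) (hV.adj k i hk).symm with h1 | ⟨r, hr, e⟩
    · exact Or.inl h1
    · obtain rfl := hV.inj r (hB.ltO r (hB.ro r hr)) k hkn e
      exact Or.inr hr
  refine ⟨?_, ?_, ?_, fun k hk hik => ?_⟩
  · refine tb_dif.mpr ⟨tb_ones.mpr hn, ?_⟩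
    by_contra hc
    rcases tb_lor.mp (by simpa using hc) with h1 | h1
    · exact hI h1
    · exact hO h1
  · unfold cn
    congr 1
    ext k
    simp only [mem_filter, mem_bits]
    refine and_congr_left fun hk => and_congr_right fun _ => ⟨fun hz => ?_, fun hr => ?_⟩
    · rcases step k hk with h1 | h1
      · rcases da_tb_rZ.mp hz with h2 | ⟨u', hu', h2⟩
        · exact absurd h1 (hB.out k (d2 k h2))
        · obtain rfl := da_same h hu hu' h1 ((rc_blob h hu').1.inn k h2)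
          rcases d4 k i h2 hk with h3 | h3
          · exact absurd h3 hI
          · exact absurd (hB.ro i h3) hO
      · exact h1
    · by_contra hc
      exact hO (d5 k i hr (tb_rK.mpr ⟨(hV.rlt k i hk).1, by simpa using hc⟩) hk hi)
  · by_contra hc
    exact hO (d3 i (by simpa using hc))
  · rcases step k (hV.sym i k hik) with h1 | h1
    · exact h1
    · exact absurd (d5 k i h1 hk (hV.sym i k hik) hi) hO

/-- a vertex of a deleted blob with a neighbour outside is known -/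
theorem rc_bdry (h : RC G S M Γ C f R J Mk dl) (hu : u ∈ dl) (hx : x ∈ bX G S f u.1) (hy : y ∈ S)
    (hn : y ∉ bX G S f u.1) (ha : G.Adj x y) :
    ∃ i, f i = x ∧ 0 < cn C.A u.1.R i ∧ (tb u.1.In i = true ∨ tb (rF C R dl) i = true) := by
  have hV := h.ctx.val
  have hB := (rc_blob h hu).1
  rcases b_step hB hx hy ha with h1 | ⟨r, hr, rfl⟩
  · exact absurd h1 hn
  obtain ⟨i, hi, rfl⟩ := hB.kn _ hx r hr ha
  have hR : Lt u.1.R C.n := fun j hj => hB.ltO j (hB.ro j hj)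
  have hc : 0 < cn C.A u.1.R i := (v_cn_pos hV (v_lt64 hV hR).2).mpr ⟨r, hr, hi⟩
  refine ⟨i, rfl, hc, ?_⟩
  by_cases hI : tb u.1.In i = true
  · exact Or.inl hI
  have hK : tb (rK C R dl) i = true := by
    refine tb_rK.mpr ⟨(hV.rlt r i hi).2, ?_⟩
    by_contra hz
    rcases da_tb_rZ.mp (by simpa using hz) with h2 | ⟨u', hu', h2⟩
    · exact hB.out i ((da_del h hu).2.1 i h2) hx
    · obtain rfl := da_same h hu hu' hx ((rc_blob h hu').1.inn i h2)
      exact hI h2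
  exact Or.inr ((rc_F h).mpr ⟨hK, by rw [(rc_ghost h hu hK hx).2.1]; exact hc⟩)

end Pool.Agent.Lib.MP_5a2675_co.D7
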