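import Mathlib
import Pool.Agent.Lib.MP_5a2675_co.D7.Once
import Pool.Agent.Lib.MP_5a2675_co.D7.DA

set_option autoImplicit false

namespace Pool.Agent.Lib.MP_5a2675_co.D7

open Finset
open Classical

variable {G G' : SimpleGraph ℕ} {S S' M X : Finset ℕ} {Γ : Gam} {C : Cfg} {f g : ℕ → ℕ}
  {a b c i j k l m n q r s t v w x y A J R Z Mk : ℕ}

variable {dl : List (Blob × ℕ)}

theorem db_deg {u : Blob × ℕ} (h : RC G S M Γ C f R J Mk dl) (hu : u ∈ dl) (hi : i < C.n)
    (hx : f i ∈ bX G S f u.1) : deg G (bX G S f u.1) (f i) + cn C.A u.1.R i = dg C i := by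
  obtain ⟨hb, hJ⟩ := rc_blob h hu
  have hV := h.ctx.val
  have e := b_deg_eq hV hb hi hx
  rw [hJ, GJ_NOJ, jn_NOJ (by have := hV.n_le; omega)] at e
  simpa using e

theorem db_ltR {u : Blob × ℕ} (h : RC G S M Γ C f R J Mk dl) (hu : u ∈ dl) : Lt u.1.R 64 := by
  obtain ⟨hb, -⟩ := rc_blob h hu
  have hn := h.ctx.val.n_le
  intro i hi
  have := hb.ltO i (hb.ro i hi)
  omega

theorem db_pop_land {H E : ℕ} (hH : Lt H 62) :
    pop (Nat.land H E) = ∑ i ∈ bits H, (tb E i).toNat := by
  have h1 : Lt (Nat.land H E) 62 := fun i hi => hH i (tb_land.1 hi).1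
  have h2 : bits (Nat.land H E) = (bits H).filter fun i => tb E i = true := by
    ext i
    rw [mem_filter, mem_bits, mem_bits, tb_land]
    tauto
  rw [pop_eq h1, h2, card_filter]
  refine sum_congr rfl fun i _ => ?_
  cases tb E i <;> simp

/-- dominating sets for the deleted blobs -/
theorem blob_dom {CP : ℕ} {u : Blob × ℕ} (h : RC G S M Γ C f R J Mk dl) (hu : u ∈ dl) :
    ∃ D ⊆ bX G S f u.1, D.card + (hflag C CP u).toNat ≤ gam G (bX G S f u.1) ∅ ∧
      (u.2 ≠ 0 → f (u.2 - 1) ∈ D) ∧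
      ∀ v ∈ bX G S f u.1, v ∈ D ∨ (∃ w ∈ D, G.Adj v w) ∨
        (u.2 = 0 ∧ ∃ i < C.n, tb CP i = true ∧ f i = v) := by
  obtain ⟨hb, hJ⟩ := rc_blob h hu
  have hV := h.ctx.val
  have hn := hV.n_le
  have hlt := db_ltR h hu
  have hcard := b_card_lt hV hb
  have h3 := b_deg3 hb
  have hlo := hb.lo
  have hconn : Conn G (bX G S f u.1) := by
    have e : bX G S f u.1 = comp G (S \ img f u.1.R) (f u.1.a) := by
      unfold bX cX
      rw [hJ, GJ_NOJ]
    rw [e]
    exact comp_conn
  rw [hJ, GJ_NOJ] at h3 hlo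
  have hd : ∀ {D : Finset ℕ}, Dom G (bX G S f u.1) ∅ D → ∀ v ∈ bX G S f u.1,
      v ∈ D ∨ (∃ w ∈ D, G.Adj v w) ∨ (u.2 = 0 ∧ ∃ i < C.n, tb CP i = true ∧ f i = v) := by
    intro D hD v hv
    rcases hD.2 v hv (notMem_empty v) with h1 | h1
    · exact Or.inl h1
    · exact Or.inr (Or.inl h1)
  by_cases h0 : u.2 = 0
  · cases hf : hflag C CP u with
    | false =>
      obtain ⟨D, hD, e⟩ := exists_dom G (bX G S f u.1) ∅
      exact ⟨D, hD.1, by simp [e], fun h1 => absurd h0 h1, hd hD⟩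
    | true =>
      unfold hflag helped at hf
      simp only [Bool.and_eq_true, Nat.ble_eq, Bool.not_eq_true', Nat.add_eq, Nat.mul_eq] at hf
      obtain ⟨-, ⟨h1, h2⟩, h4⟩ := hf
      set H := Nat.land (Nat.land u.1.In CP) (low2 C (nb3 C.A u.1.R)) with hH
      have hHm : ∀ i, tb H i = true → tb u.1.In i = true ∧ tb CP i = true ∧
          tb (low2 C (nb3 C.A u.1.R)) i = true := by
        intro i hi
        rw [hH, tb_land, tb_land] at hi
        exact ⟨hi.1.1, hi.1.2, hi.2⟩
      have hHn : Lt H C.n := fun i hi => hb.ltI i (hHm i hi).1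
      have hH0 : H ≠ 0 := by
        intro e
        rw [e] at h2
        exact absurd h2 (by decide)
      have hsub : img f H ⊆ bX G S f u.1 := by
        intro v hv
        obtain ⟨i, -, hi, rfl⟩ := mem_img.1 hv
        exact hb.inn i (hHm i hi).1
      have hne : (img f H).Nonempty := by
        obtain ⟨i, hi⟩ := exists_tb hH0
        exact ⟨f i, mem_img.2 ⟨i, by have := hHn i hi; omega, hi, rfl⟩⟩
      have hdeg : ∀ v ∈ img f H, deg G (bX G S f u.1) v ≤ 2 := by
        intro v hv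
        obtain ⟨i, -, hi, rfl⟩ := mem_img.1 hv
        have e := db_deg h hu (hHn i hi) (hb.inn i (hHm i hi).1)
        have := (v_low2 hV (hHn i hi) hlt).1 (hHm i hi).2.2
        omega
      have hsum : ∑ v ∈ img f H, ((W0 (deg G (bX G S f u.1) v) : ℤ) - W1 (deg G (bX G S f u.1) v)) =
          ∑ i ∈ bits H, ((1 + 5 * (tb (low1 C (nb3 C.A u.1.R)) i).toNat +
            14 * (tb (low0 C (nb3 C.A u.1.R)) i).toNat : ℕ) : ℤ) := by
        unfold img
        rw [sum_image fun i hi j hj e =>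
          hV.inj i (hHn i (mem_bits.1 hi).2) j (hHn j (mem_bits.1 hj).2) e]
        refine sum_congr rfl fun i hi => ?_
        have hi' := (mem_bits.1 hi).2
        have hin := hHn i hi'
        have e := db_deg h hu hin (hb.inn i (hHm i hi').1)
        have e2 := (v_low2 hV hin hlt).1 (hHm i hi').2.2
        have e1 := v_low1 hV hin hlt
        have e0 := v_low0 hV hin hlt
        have hc : deg G (bX G S f u.1) (f i) = 0 ∨ deg G (bX G S f u.1) (f i) = 1 ∨
            deg G (bX G S f u.1) (f i) = 2 := by omega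
        rcases hc with hc | hc | hc
        · rw [hc, e1.2 (by omega), e0.2 (by omega)]
          decide
        · have : tb (low0 C (nb3 C.A u.1.R)) i = false := by
            rw [← Bool.not_eq_true, e0]
            omega
          rw [hc, e1.2 (by omega), this]
          decide
        · have t0 : tb (low0 C (nb3 C.A u.1.R)) i = false := by
            rw [← Bool.not_eq_true, e0]
            omega
          have t1 : tb (low1 C (nb3 C.A u.1.R)) i = false := by
            rw [← Bool.not_eq_true, e1]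
            omega
          rw [hc, t0, t1]
          decide
      have h62 := (v_lt64 hV hHn).1
      rw [db_pop_land h62, db_pop_land h62, pop_eq h62] at h4
      have hg : 0 ≤ ((u.1.lo : ℤ) - 100) + ∑ v ∈ img f H,
          ((W0 (deg G (bX G S f u.1) v) : ℤ) - W1 (deg G (bX G S f u.1) v)) := by
        rw [hsum, ← Nat.cast_sum, sum_add_distrib, sum_add_distrib, ← mul_sum, ← mul_sum,
          ← card_eq_sum_ones]
        omega
      obtain ⟨D, hD, e⟩ := help_lemma h.ctx.mc.ih hcard hconn h3 hsub hne hdeg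
        (hlo (by omega)) hg
      refine ⟨D, hD.1, by simpa using e, fun h1 => absurd h0 h1, fun v hv => ?_⟩
      by_cases hvH : v ∈ img f H
      · obtain ⟨i, -, hi, rfl⟩ := mem_img.1 hvH
        exact Or.inr (Or.inr ⟨h0, i, hHn i hi, (hHm i hi).2.1, rfl⟩)
      · rcases hD.2 v hv hvH with h1 | h1
        · exact Or.inl h1
        · exact Or.inr (Or.inl h1)
  · have hf : hflag C CP u = false := by
      unfold hflag
      have : Nat.beq u.2 0 = false := by
        rw [← Bool.not_eq_true, Nat.beq_eq]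
        exact h0
      rw [this, Bool.false_and]
    have hdel := h.del u hu
    unfold delOK forceOK at hdel
    simp only [Bool.and_eq_true, Bool.or_eq_true, Nat.ble_eq, Nat.beq_eq, Nat.add_eq,
      Nat.pred_eq_sub_one] at hdel
    obtain ⟨-, h1 | ⟨⟨h1, h2⟩, h4⟩⟩ := hdel
    · exact absurd h1 h0
    have hin := hb.ltI _ h1
    have hx := hb.inn _ h1
    have e := db_deg h hu hin hx
    have e2 := v_low2 hV hin hlt
    have e1 := v_low1 hV hin hlt
    have e0 := v_low0 hV hin hlt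
    have hd3 := h3 _ hx
    have hg : 0 ≤ ((u.1.lo : ℤ) - 100) + W0 (deg G (bX G S f u.1) (f (u.2 - 1))) -
        deg G (bX G S f u.1) (f (u.2 - 1)) := by
      have hc : deg G (bX G S f u.1) (f (u.2 - 1)) = 0 ∨ deg G (bX G S f u.1) (f (u.2 - 1)) = 1 ∨
          deg G (bX G S f u.1) (f (u.2 - 1)) = 2 ∨ deg G (bX G S f u.1) (f (u.2 - 1)) = 3 := by
        omega
      have f0 : ¬ dg C (u.2 - 1) ≤ cn C.A u.1.R (u.2 - 1) →
          tb (low0 C (nb3 C.A u.1.R)) (u.2 - 1) = false := fun hh => by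
        rw [← Bool.not_eq_true, e0]
        exact hh
      have f1 : ¬ dg C (u.2 - 1) ≤ cn C.A u.1.R (u.2 - 1) + 1 →
          tb (low1 C (nb3 C.A u.1.R)) (u.2 - 1) = false := fun hh => by
        rw [← Bool.not_eq_true, e1]
        exact hh
      have f2 : ¬ dg C (u.2 - 1) ≤ cn C.A u.1.R (u.2 - 1) + 2 →
          tb (low2 C (nb3 C.A u.1.R)) (u.2 - 1) = false := fun hh => by
        rw [← Bool.not_eq_true, e2]
        exact hh
      rcases hc with hc | hc | hc | hc
      · rw [e0.2 (by omega)] at h4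
        rw [hc]
        simp only [cond_true] at h4
        simp only [W0]
        omega
      · rw [f0 (by omega), e1.2 (by omega)] at h4
        rw [hc]
        simp only [cond_true, cond_false] at h4
        simp only [W0]
        omega
      · rw [f0 (by omega), f1 (by omega), e2.2 (by omega)] at h4
        rw [hc]
        simp only [cond_true, cond_false] at h4
        simp only [W0]
        omega
      · rw [f0 (by omega), f1 (by omega), f2 (by omega)] at h4
        rw [hc]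
        simp only [cond_false] at h4
        simp only [W0]
        omega
    obtain ⟨D, hD, hv, hle⟩ := force_lemma h.ctx.mc.ih hcard hconn h3 hx (hlo (by omega)) hg
    exact ⟨D, hD.1, by simpa [hf] using hle, fun _ => hv, hd hD⟩

theorem db_cdL {Dd : ℕ} : ∀ (sc : List (ℕ × ℕ)) (Ds : List ℕ),
    tb (cdL C k Dd sc Ds) 63 = true → ∀ z ∈ sc, ∃ D, pop D ≤ k ∧ Lt D C.n ∧
      sub z.2 (Nat.lor (Nat.lor D z.1) (nb C.A (Nat.lor D z.1))) = true ∧ sub Dd D = true ∧
      ∀ i, tb (cdL C k Dd sc Ds) i = true →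
        tb (Nat.lor (Nat.lor D z.1) (nb C.A (Nat.lor D z.1))) i = true ∨ i = 63 := by
  intro sc
  induction sc with
  | nil => intro Ds _ z hz; exact absurd hz List.not_mem_nil
  | cons y sc ih =>
    intro Ds hc z hz
    cases Ds with
    | nil =>
      have e : cdL C k Dd (y :: sc) [] = 0 := rfl
      rw [e, tb_zero] at hc
      exact absurd hc (by decide)
    | cons D r =>
      have e : cdL C k Dd (y :: sc) (D :: r) =
          Nat.land (cdS C k Dd y.2 D (Nat.lor D y.1)) (cdL C k Dd sc r) := rfl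
      rw [e] at hc ⊢
      obtain ⟨h1, h2⟩ := tb_land.1 hc
      rcases List.mem_cons.1 hz with rfl | hz
      · unfold cdS cdT at h1
        cases hq : (Nat.ble (pop D) k && sub D (ones C.n) &&
            sub z.2 (Nat.lor (Nat.lor D z.1) (nb C.A (Nat.lor D z.1))) && sub Dd D) with
        | false =>
          rw [hq, cond_false, tb_zero] at h1
          exact absurd h1 (by decide)
        | true =>
          have hq' := hq
          simp only [Bool.and_eq_true, Nat.ble_eq] at hq'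
          obtain ⟨⟨⟨q1, q2⟩, q3⟩, q4⟩ := hq'
          refine ⟨D, q1, sub_ones_iff.1 q2, q3, q4, fun i hi => ?_⟩
          have h5 := (tb_land.1 hi).1
          unfold cdS cdT at h5
          rw [hq, cond_true, tb_lor, tb_bit] at h5
          exact h5
      · obtain ⟨D', q1, q2, q3, q4, q5⟩ := ih r h2 z hz
        exact ⟨D', q1, q2, q3, q4, fun i hi => q5 i (tb_land.1 hi).2⟩

theorem db_scen {y z : ℕ × ℕ} (hy : y ∈ sc1 (ja0 J) (jb0 J)) (hz : z ∈ sc1 (ja1 J) (jb1 J)) :
    (Nat.lor y.1 z.1, Nat.lor y.2 z.2) ∈ scen J := by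
  have key : ∀ L : List (ℕ × ℕ), y ∈ L → (Nat.lor y.1 z.1, Nat.lor y.2 z.2) ∈
      (List.rec [] (fun x _ r => appL (mapL (fun y => (Nat.lor x.1 y.1, Nat.lor x.2 y.2))
        (sc1 (ja1 J) (jb1 J))) r) L : List (ℕ × ℕ)) := by
    intro L
    induction L with
    | nil => intro h; exact absurd h List.not_mem_nil
    | cons p L ih =>
      intro h
      show _ ∈ appL _ _
      rw [appL_eq, mapL_eq, List.mem_append]
      rcases List.mem_cons.1 h with rfl | h
      · exact Or.inl (List.mem_map.2 ⟨z, hz, rfl⟩)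
      · exact Or.inr (ih h)
  exact key _ hy

theorem db_sc1 {D : Finset ℕ} (h : jwf1 n a b = true) :
    ∃ y ∈ sc1 a b, (∀ i, tb y.1 i = true → i < n ∧ f i ∈ D) ∧
      (a < 63 ∨ b < 63 → (f a ∈ D → f b ∈ D ∨ tb y.2 b = true) ∧
        (f b ∈ D → f a ∈ D ∨ tb y.2 a = true)) := by
  unfold jwf1 at h
  unfold sc1
  cases h1 : Nat.beq a 63 with
  | true =>
    rw [h1, cond_true, Nat.beq_eq] at h
    rw [Nat.beq_eq] at h1
    refine ⟨(0, 0), by simp, fun i hi => ?_, fun hh => by omega⟩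
    rw [tb_zero] at hi
    exact absurd hi (by decide)
  | false =>
    rw [h1, cond_false] at h
    have hab : a < n ∧ b < n := by
      cases h2 : Nat.beq a b with
      | true =>
        rw [h2, cond_true] at h
        exact absurd h (by decide)
      | false =>
        rw [h2, cond_false] at h
        cases h3 : Nat.ble (Nat.succ a) n with
        | true =>
          rw [h3, cond_true, Nat.ble_eq] at h
          rw [Nat.ble_eq] at h3
          exact ⟨h3, h⟩
        | false =>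
          rw [h3, cond_false] at h
          exact absurd h (by decide)
    rw [cond_false]
    by_cases ha : f a ∈ D
    · refine ⟨(bit a, bit b), by simp, fun i hi => ?_, fun _ =>
        ⟨fun _ => Or.inr (tb_bit.2 rfl), fun _ => Or.inl ha⟩⟩
      rw [tb_bit.1 hi]
      exact ⟨hab.1, ha⟩
    · by_cases hb : f b ∈ D
      · refine ⟨(bit b, bit a), by simp, fun i hi => ?_, fun _ =>
          ⟨fun _ => Or.inl hb, fun _ => Or.inr (tb_bit.2 rfl)⟩⟩
        rw [tb_bit.1 hi]
        exact ⟨hab.2, hb⟩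
      · refine ⟨(0, 0), by simp, fun i hi => ?_, fun _ =>
          ⟨fun h => absurd h ha, fun h => absurd h hb⟩⟩
        rw [tb_zero] at hi
        exact absurd hi (by decide)

/-- the cover that fits a given dominating set `D` of the reduced graph -/
theorem cover_dom {Ds : List ℕ} {D : Finset ℕ} (h : RC G S M Γ C f R J Mk dl)
    (hc : tb (cdL C k (rD C R) (scen J) Ds) 63 = true) :
    ∃ E ⊆ S, E.card ≤ k ∧ (∀ i, tb (rD C R) i = true → f i ∈ E) ∧
      (∀ i < C.n, tb (cdL C k (rD C R) (scen J) Ds) i = true →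
        f i ∈ E ∪ D ∨ ∃ w ∈ E ∪ D, G.Adj (f i) w) ∧
      ∀ i j, i < 63 → tb (jp J i) j = true → f i ∈ D → f j ∈ E ∪ D ∨ ∃ w ∈ E ∪ D, G.Adj (f j) w := by
  have hV := h.ctx.val
  have hn := hV.n_le
  have hwf := (rc_jok h).wf
  have hwf' := hwf
  unfold jwf at hwf'
  simp only [Bool.and_eq_true] at hwf'
  obtain ⟨⟨w0, w1⟩, -⟩ := hwf'
  obtain ⟨y, hy, y1, y2⟩ := db_sc1 (f := f) (D := D) w0
  obtain ⟨z, hz, z1, z2⟩ := db_sc1 (f := f) (D := D) w1
  obtain ⟨E, q1, q2, q3, q4, q5⟩ := db_cdL _ _ hc _ (db_scen hy hz)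
  simp only at q3 q5
  have hh : ∀ i, tb (Nat.lor E (Nat.lor y.1 z.1)) i = true → i < C.n ∧ f i ∈ img f E ∪ D := by
    intro i hi
    rcases tb_lor.1 hi with h1 | h1
    · exact ⟨q2 i h1, mem_union_left _ ((v_mem_img hV q2 (q2 i h1)).2 h1)⟩
    · rcases tb_lor.1 h1 with h2 | h2
      · exact ⟨(y1 i h2).1, mem_union_right _ (y1 i h2).2⟩
      · exact ⟨(z1 i h2).1, mem_union_right _ (z1 i h2).2⟩
  have hlt : Lt (Nat.lor E (Nat.lor y.1 z.1)) 64 := fun i hi => by
    have := (hh i hi).1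
    omega
  have hdm : ∀ i, tb (Nat.lor (Nat.lor E (Nat.lor y.1 z.1))
      (nb C.A (Nat.lor E (Nat.lor y.1 z.1)))) i = true →
      f i ∈ img f E ∪ D ∨ ∃ w ∈ img f E ∪ D, G.Adj (f i) w := by
    intro i hi
    rcases tb_lor.1 hi with h1 | h1
    · exact Or.inl (hh i h1).2
    · obtain ⟨p, hp, hr⟩ := (tb_nb hlt).1 h1
      exact Or.inr ⟨f p, (hh p hp).2, (hV.adj p i hr).symm⟩
  have hy2 : ∀ i, f i ∈ D ∨ tb y.2 i = true →
      f i ∈ img f E ∪ D ∨ ∃ w ∈ img f E ∪ D, G.Adj (f i) w := by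
    rintro i (h1 | h1)
    · exact Or.inl (mem_union_right _ h1)
    · exact hdm i (sub_iff.1 q3 i (tb_lor.2 (Or.inl h1)))
  have hz2 : ∀ i, f i ∈ D ∨ tb z.2 i = true →
      f i ∈ img f E ∪ D ∨ ∃ w ∈ img f E ∪ D, G.Adj (f i) w := by
    rintro i (h1 | h1)
    · exact Or.inl (mem_union_right _ h1)
    · exact hdm i (sub_iff.1 q3 i (tb_lor.2 (Or.inr h1)))
  refine ⟨img f E, v_img_sub hV q2, by rw [v_card_img hV q2]; exact q1, fun i hi => ?_,
    fun i hi h1 => ?_, fun i j hi hj hD => ?_⟩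
  · have h1 := sub_iff.1 q4 i hi
    exact (v_mem_img hV q2 (q2 i h1)).2 h1
  · rcases q5 i h1 with h2 | h2
    · exact hdm i h2
    · omega
  · rcases (tb_jp hwf (by omega) hi).1 hj with ⟨rfl, rfl⟩ | ⟨rfl, rfl⟩ | ⟨rfl, rfl⟩ | ⟨rfl, rfl⟩
    · exact hy2 _ ((y2 (Or.inl hi)).1 hD)
    · exact hy2 _ ((y2 (Or.inr hi)).2 hD)
    · exact hz2 _ ((z2 (Or.inl hi)).1 hD)
    · exact hz2 _ ((z2 (Or.inr hi)).2 hD)

theorem db_union {α : Type} (P : α → Finset ℕ → Prop) (p q : α → ℕ) : ∀ L : List α,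
    (∀ u ∈ L, ∃ D ⊆ S, D.card + p u ≤ q u ∧ P u D) →
      ∃ U ⊆ S, U.card + (L.map p).sum ≤ (L.map q).sum ∧ ∀ u ∈ L, ∃ D ⊆ U, P u D := by
  intro L
  induction L with
  | nil => intro _; exact ⟨∅, empty_subset _, by simp, fun u hu => absurd hu List.not_mem_nil⟩
  | cons u L ih =>
    intro h
    obtain ⟨D, d1, d2, d3⟩ := h u List.mem_cons_self
    obtain ⟨U, u1, u2, u3⟩ := ih fun u' hu' => h u' (List.mem_cons_of_mem _ hu')
    refine ⟨D ∪ U, union_subset d1 u1, ?_, fun u' hu' => ?_⟩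
    · have := card_union_le D U
      simp only [List.map_cons, List.sum_cons]
      omega
    · rcases List.mem_cons.1 hu' with rfl | hu'
      · exact ⟨D, subset_union_left, d3⟩
      · obtain ⟨D', e1, e2⟩ := u3 u' hu'
        exact ⟨D', e1.trans subset_union_right, e2⟩

theorem red_dom {Ds : List ℕ} {CP : ℕ} (h : RC G S M Γ C f R J Mk dl)
    (hc : tb (cdL C k (rD C R) (scen J) Ds) 63 = true)
    (hCP : CP = Nat.lor (cdL C k (rD C R) (scen J) Ds) (preM C.A dl))
    (hR : sub R (Nat.lor C.ms CP) = true) (hM : ∀ i, tb Mk i = true → tb CP i = true) :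
    gam G S M + (dl.map fun u => (hflag C CP u).toNat).sum ≤
      gam (GJ G f J) (rS G S f R dl) (rM G S M C f R Mk) + k +
        (dl.map fun u => gam G (bX G S f u.1) ∅).sum := by
  have hV := h.ctx.val
  have hn := hV.n_le
  have hwf := (rc_jok h).wf
  obtain ⟨D, hD, eD⟩ := exists_dom (GJ G f J) (rS G S f R dl) (rM G S M C f R Mk)
  obtain ⟨E, e1, e2, e3, e4, e5⟩ := cover_dom (D := D) h hc
  obtain ⟨U, u1, u2, u3⟩ := db_union (S := S)
    (fun (u : Blob × ℕ) D => (u.2 ≠ 0 → f (u.2 - 1) ∈ D) ∧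
      ∀ v ∈ bX G S f u.1, v ∈ D ∨ (∃ w ∈ D, G.Adj v w) ∨
        (u.2 = 0 ∧ ∃ i < C.n, tb CP i = true ∧ f i = v))
    (fun u => (hflag C CP u).toNat) (fun u => gam G (bX G S f u.1) ∅) dl (fun u hu => by
      obtain ⟨D, d1, d2, d3⟩ := blob_dom (CP := CP) h hu
      exact ⟨D, d1.trans ((b_sub (rc_blob h hu).1).trans sdiff_subset), d2, d3⟩)
  have hup : ∀ v, (v ∈ E ∪ D ∨ ∃ w ∈ E ∪ D, G.Adj v w) →
      v ∈ E ∪ D ∪ U ∨ ∃ w ∈ E ∪ D ∪ U, G.Adj v w := by
    rintro v (h1 | ⟨w, h1, h2⟩)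
    · exact Or.inl (mem_union_left _ h1)
    · exact Or.inr ⟨w, mem_union_left _ h1, h2⟩
  have hcp : ∀ i < C.n, tb CP i = true →
      f i ∈ E ∪ D ∪ U ∨ ∃ w ∈ E ∪ D ∪ U, G.Adj (f i) w := by
    intro i hi h1
    rw [hCP] at h1
    rcases tb_lor.1 h1 with h2 | h2
    · exact hup _ (e4 i hi h2)
    · unfold preM at h2
      obtain ⟨u, hu, h3⟩ := tb_orL.1 h2
      cases h4 : Nat.beq u.2 0 with
      | true =>
        rw [h4, cond_true, tb_zero] at h3
        exact absurd h3 (by decide)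
      | false =>
        rw [h4, cond_false, Nat.pred_eq_sub_one] at h3
        have h5 : u.2 ≠ 0 := by
          intro e
          rw [e] at h4
          exact absurd h4 (by decide)
        obtain ⟨D', d1, d2, -⟩ := u3 u hu
        exact Or.inr ⟨_, mem_union_right _ (d1 (d2 h5)), (hV.adj _ _ h3).symm⟩
  have hsub : rS G S f R dl ⊆ S := filter_subset _ _
  have hdom : Dom G S M (E ∪ D ∪ U) := by
    refine ⟨union_subset (union_subset e1 (hD.1.trans hsub)) u1, fun v hv hvM => ?_⟩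
    by_cases h1 : v ∈ img f R
    · obtain ⟨i, -, hi, rfl⟩ := mem_img.1 h1
      have hin := h.ltR i hi
      rcases tb_lor.1 (sub_iff.1 hR i hi) with h2 | h2
      · exact absurd ((hV.mark i hin).2 h2) hvM
      · exact hcp i hin h2
    by_cases h2 : ∀ u ∈ dl, v ∉ bX G S f u.1
    · have hvS : v ∈ rS G S f R dl := mem_filter.2 ⟨hv, h1, h2⟩
      by_cases h3 : v ∈ rM G S M C f R Mk
      · rcases (mem_filter.1 h3).2 with h4 | h4 | ⟨i, hi, h4⟩
        · exact absurd h4 hvM
        · obtain ⟨i, -, hi, rfl⟩ := mem_img.1 h4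
          exact hcp i (tb_rK.1 ((rc_F h).1 (h.mkF i hi).1).1).1 (hM i hi)
        · exact Or.inr ⟨f i, mem_union_left _ (mem_union_left _ (e3 i hi)), h4⟩
      · rcases hD.2 v hvS h3 with h4 | ⟨w, hw, h4⟩
        · exact Or.inl (mem_union_left _ (mem_union_right _ h4))
        · rcases (GJ_adj hwf (by omega) hV.inj).1 h4 with h5 | ⟨i, j, hi, hj, rfl, rfl⟩
          · exact Or.inr ⟨w, mem_union_left _ (mem_union_right _ hw), h5⟩
          · obtain ⟨-, q2, -, q4⟩ := jp_lt hwf (by omega) (by omega) hj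
            exact hup _ (e5 j i (by omega) q4 hw)
    · push Not at h2
      obtain ⟨u, hu, h2⟩ := h2
      obtain ⟨D', d1, -, d3⟩ := u3 u hu
      rcases d3 v h2 with h3 | ⟨w, hw, h3⟩ | ⟨-, i, hi, h3, rfl⟩
      · exact Or.inl (mem_union_right _ (d1 h3))
      · exact Or.inr ⟨w, mem_union_right _ (d1 hw), h3⟩
      · exact hcp i hi h3
  have c1 := gam_le hdom
  have c2 := card_union_le (E ∪ D) U
  have c3 := card_union_le E D
  omega

end Pool.Agent.Lib.MP_5a2675_co.D7
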