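import Mathlib
import Pool.Agent.Lib.MP_5a2675_co.D7.Once
import Pool.Agent.Lib.MP_5a2675_co.D7.DA

set_option autoImplicit false

namespace Pool.Agent.Lib.MP_5a2675_co.D7

open Finset
open Classical

variable {G G' : SimpleGraph ℕ} {S S' M X : Finset ℕ} {Γ : Gam} {C : Cfg} {f g : ℕ → ℕ}
  {a b c i j k l m n q r s t v w x y A J R Z Mk : ℕ}

variable {dl : List (Blob × ℕ)}

theorem dc_bits_land (a b : ℕ) :
    bits (Nat.land a b) = (bits a).filter fun i => tb b i = true := by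
  ext i
  simp only [mem_filter, mem_bits, tb_land, and_assoc]

theorem dc_bits_dif (a b : ℕ) :
    bits (dif a b) = (bits a).filter fun i => ¬ tb b i = true := by
  ext i
  simp only [mem_filter, mem_bits, tb_dif, and_assoc, Bool.not_eq_true]

theorem dc_split_bits (a b : ℕ) (p : ℕ → ℕ) :
    ∑ i ∈ bits a, p i = ∑ i ∈ bits (dif a b), p i + ∑ i ∈ bits (Nat.land a b), p i := by
  rw [dc_bits_land, dc_bits_dif, add_comm, sum_filter_add_sum_filter_not]

theorem dc_lt_land (h : Lt a n) : Lt (Nat.land a b) n := fun i hi => h i (tb_land.1 hi).1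

theorem dc_lt_dif (h : Lt a n) : Lt (dif a b) n := fun i hi => h i (tb_dif.1 hi).1

theorem dc_pop_land (h : Lt a 62) :
    pop (Nat.land a b) = ∑ i ∈ bits a, (tb b i).toNat := by
  rw [pop_eq (dc_lt_land h), dc_bits_land, card_filter]
  refine sum_congr rfl fun i _ => ?_
  cases tb b i <;> simp

theorem dc_sum_img (hC : Valid G S M C f) {T : ℕ} (hT : Lt T C.n) (p : ℕ → ℕ) :
    ∑ v ∈ img f T, p v = ∑ i ∈ bits T, p (f i) := by
  unfold img
  exact sum_image fun i hi j hj e =>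
    hC.inj i (hT i (mem_bits.1 hi).2) j (hT j (mem_bits.1 hj).2) e

theorem gw_le (hC : Valid G S M C f) (hm : MC G S M) {T : ℕ} (hT : Lt T C.n) :
    gw C T ≤ ∑ v ∈ img f T, wt G S M v := by
  have h62 := (v_lt64 hC hT).1
  rw [dc_sum_img hC hT, dc_split_bits T C.ms]
  have e : gw C T = w0s (dif T C.ms) 0 C.d1 (Nat.lor C.d1 C.d2) +
      pop (Nat.land (dif T C.ms) C.kc) + w1s (Nat.land T C.ms) 0 C.d1 := rfl
  rw [e, w0s_eq (dc_lt_dif h62), w1s_eq (dc_lt_land h62), dc_pop_land (dc_lt_dif h62),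
    ← sum_add_distrib]
  refine Nat.add_le_add (sum_le_sum fun i hi => ?_) (sum_le_sum fun i hi => ?_)
  · obtain ⟨h1, h2⟩ := tb_dif.1 (mem_bits.1 hi).2
    have hi' := hT i h1
    have hM : f i ∉ M := fun hM => by
      rw [(hC.mark i hi').1 hM] at h2
      exact Bool.noConfusion h2
    have hk : (tb C.kc i).toNat ≤ if CritP G S (f i) then 1 else 0 := by
      cases hk : tb C.kc i
      · exact Nat.zero_le _
      · rw [if_pos (hC.kc i hk).2]
        exact le_rfl
    have hl : tb (Nat.lor C.d1 C.d2) i = (tb C.d1 i || tb C.d2 i) := by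
      rw [Bool.eq_iff_iff, tb_lor, Bool.or_eq_true]
    unfold wt
    rw [if_neg hM, hC.deg i hi', tb_zero, hl]
    refine Nat.add_le_add ?_ hk
    unfold dg
    cases tb C.d1 i <;> cases tb C.d2 i <;> simp [W0]
  · obtain ⟨h1, h2⟩ := tb_land.1 (mem_bits.1 hi).2
    have hi' := hT i h1
    unfold wt
    rw [if_pos ((hC.mark i hi').2 h2), hC.deg i hi', tb_zero]
    unfold dg
    cases tb C.d1 i <;> cases tb C.d2 i <;> simp [W1]

/-- the cost of the known vertex that sits at `v` -/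
noncomputable def dcFib (f : ℕ → ℕ) (T : ℕ) (p : ℕ → ℕ) (v : ℕ) : ℕ :=
  ∑ i ∈ bits T, if f i = v then p i else 0

theorem dc_fib_sum (f : ℕ → ℕ) (T : ℕ) (p : ℕ → ℕ) (Y : Finset ℕ) :
    ∑ v ∈ Y, dcFib f T p v ≤ ∑ i ∈ bits T, p i := by
  unfold dcFib
  rw [sum_comm]
  refine sum_le_sum fun i _ => ?_
  rw [sum_ite_eq]
  split_ifs
  · exact le_rfl
  · exact Nat.zero_le _

theorem dc_fib_ge {T : ℕ} (p : ℕ → ℕ) (hi : i < 64) (hT : tb T i = true) :
    p i ≤ dcFib f T p (f i) := by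
  unfold dcFib
  have := single_le_sum (f := fun k => if f k = f i then p k else 0)
    (fun k (_ : k ∈ bits T) => Nat.zero_le _) (mem_bits.2 ⟨hi, hT⟩)
  simpa using this

/-- the bound for an unmarked vertex -/
def dcW (nok : Bool) (E0 E1 E2 Q i : ℕ) : ℕ :=
  7 + 2 * (tb E2 i).toNat + 4 * (tb E1 i).toNat + 7 * (tb E0 i).toNat +
    (!nok && tb E2 i && !tb Q i).toNat

theorem dc_W_sum {T : ℕ} (nok : Bool) (E0 E1 E2 Q : ℕ) (h : Lt T 62) :
    w0s T E0 E1 E2 + cond nok 0 (pop (dif (Nat.land T E2) Q)) =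
      ∑ i ∈ bits T, dcW nok E0 E1 E2 Q i := by
  unfold dcW
  rw [sum_add_distrib, ← w0s_eq h]
  congr 1
  cases nok
  · rw [cond_false, pop_eq (dc_lt_dif (dc_lt_land h)), dc_bits_dif, dc_bits_land, filter_filter,
      card_filter]
    refine sum_congr rfl fun i _ => ?_
    cases tb E2 i <;> cases tb Q i <;> simp
  · simp

theorem dc_W_ge {nok : Bool} {E0 E1 E2 Q d : ℕ} {p : Prop} [Decidable p] (hd : d + c = a)
    (h0 : tb E0 i = true ↔ a ≤ c) (h1 : tb E1 i = true ↔ a ≤ c + 1)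
    (h2 : tb E2 i = true ↔ a ≤ c + 2) (hp : p → d = 2 ∧ nok = false ∧ tb Q i = false) :
    (W0 d + if p then 1 else 0) ≤ dcW nok E0 E1 E2 Q i := by
  unfold dcW
  refine Nat.add_le_add ?_ ?_
  · rcases d with _ | _ | _ | d
    · rw [h0.2 (by omega), h1.2 (by omega), h2.2 (by omega)]
      decide
    · rw [h1.2 (by omega), h2.2 (by omega)]
      simp [W0]
    · rw [h2.2 (by omega)]
      simp only [W0, Bool.toNat_true]
      omega
    · simp only [W0]
      omega
  · split_ifs with hq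
    · obtain ⟨q1, q2, q3⟩ := hp hq
      rw [q2, q3, h2.2 (by omega)]
      decide
    · exact Nat.zero_le _

theorem dc_W1_le (d : ℕ) : W1 d ≤ 8 := by
  rcases d with _ | _ | d <;> simp [W1]

theorem dc_W0_ge (d : ℕ) : 7 ≤ W0 d := by
  rcases d with _ | _ | _ | d <;> simp [W0]

theorem dc_W1_mono {d e : ℕ} (h : d ≤ e) : W1 d ≤ W1 e := by
  rcases d with _ | _ | d <;> rcases e with _ | _ | e <;> simp [W1] <;> omega

/-- the number of unknown edges from `v` to the vertices of `D` -/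
noncomputable def dcUnk (G : SimpleGraph ℕ) (C : Cfg) (f : ℕ → ℕ) (D v : ℕ) : ℕ :=
  ∑ k ∈ bits D, if G.Adj (f k) v ∧ ¬ ∃ i, tb (row C.A k) i = true ∧ f i = v then 1 else 0

theorem dc_unk_sum (hC : Valid G S M C f) (hR : Lt R C.n) :
    ∑ v ∈ S, dcUnk G C f (rD C R) v = dang C (rD C R) := by
  have hD : Lt (rD C R) C.n := dc_lt_land hR
  have h62 := (v_lt64 hC hD).1
  have e : dang C (rD C R) =
      pop (rD C R) + (pop (Nat.land (rD C R) C.r2) + pop (Nat.land (rD C R) C.r3)) := rfl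
  rw [e, dc_pop_land h62, dc_pop_land h62, pop_eq h62, card_eq_sum_ones, ← sum_add_distrib,
    ← sum_add_distrib]
  unfold dcUnk
  rw [sum_comm]
  refine sum_congr rfl fun k hk => ?_
  have hk1 := (mem_bits.1 hk).2
  have h := v_unk_card hC (hD k hk1)
  unfold N at h
  rw [filter_filter] at h
  rw [← card_filter]
  refine Eq.trans ?_ (h.trans ?_)
  · congr 1
  · unfold rm
    rw [(tb_land.1 hk1).2, Bool.toNat_true, add_assoc]

theorem dc_unk_pos {D : ℕ} (hk : k < 64) (hD : tb D k = true) (ha : G.Adj (f k) v)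
    (hn : ¬ ∃ i, tb (row C.A k) i = true ∧ f i = v) : 1 ≤ dcUnk G C f D v := by
  unfold dcUnk
  have := single_le_sum (f := fun k => if G.Adj (f k) v ∧
      ¬ ∃ i, tb (row C.A k) i = true ∧ f i = v then 1 else 0)
    (fun k (_ : k ∈ bits D) => Nat.zero_le _) (mem_bits.2 ⟨hk, hD⟩)
  rw [if_pos ⟨ha, hn⟩] at this
  exact this

theorem dc_split_list {α : Type} (Y : α → Finset ℕ) (p : ℕ → ℕ) (L : List α) :
    ∀ S : Finset ℕ, (∀ u ∈ L, Y u ⊆ S) → (L.Pairwise fun u u' => Disjoint (Y u) (Y u')) →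
      ∑ v ∈ S, p v = ∑ v ∈ S.filter (fun v => ∀ u ∈ L, v ∉ Y u), p v +
        (L.map fun u => ∑ v ∈ Y u, p v).sum := by
  induction L with
  | nil => intro S _ _; simp
  | cons u L ih =>
    intro S hS hP
    obtain ⟨h1, h2⟩ := List.pairwise_cons.1 hP
    have hu := hS u List.mem_cons_self
    have h3 := ih (S \ Y u) (fun u' hu' => subset_sdiff.2
      ⟨hS u' (List.mem_cons_of_mem _ hu'), (h1 u' hu').symm⟩) h2
    have e : (S \ Y u).filter (fun v => ∀ u' ∈ L, v ∉ Y u') =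
        S.filter (fun v => ∀ u' ∈ u :: L, v ∉ Y u') := by
      ext v
      simp only [mem_filter, mem_sdiff, List.forall_mem_cons, and_assoc]
    rw [List.map_cons, List.sum_cons, ← sum_sdiff hu, h3, ← e]
    omega

theorem dc_split (h : RC G S M Γ C f R J Mk dl) (p : ℕ → ℕ) :
    ∑ v ∈ S, p v = ∑ v ∈ img f R, p v + ∑ v ∈ rS G S f R dl, p v +
      (dl.map fun u => ∑ v ∈ bX G S f u.1, p v).sum := by
  rw [dc_split_list (fun u : Blob × ℕ => bX G S f u.1) p dl S
    (fun u hu => (b_sub (rc_blob h hu).1).trans sdiff_subset) (rc_pair h)]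
  congr 1
  rw [← sum_filter_add_sum_filter_not _ (fun v => v ∈ img f R)]
  congr 1
  · refine sum_congr ?_ fun _ _ => rfl
    ext v
    simp only [mem_filter]
    exact ⟨fun hv => hv.2, fun hv => ⟨⟨v_img_sub h.ctx.val h.ltR hv, fun u hu =>
      disjoint_left.1 (rc_R_out h hu) hv⟩, hv⟩⟩
  · refine sum_congr ?_ fun _ _ => rfl
    ext v
    unfold rS
    simp only [mem_filter]
    tauto

theorem dc_freeM {Z : ℕ} (L : List (Blob × ℕ)) (hi : tb (freeM C Z L) i = true) :
    tb (ncm C Z) i = true ∧ ∀ u ∈ L, tb u.1.In i = true ∨ tb u.1.Out i = true ∨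
      tb (ncm C u.1.R) i = true := by
  induction L with
  | nil => exact ⟨hi, fun u hu => absurd hu List.not_mem_nil⟩
  | cons u L ih =>
    have e : freeM C Z (u :: L) = Nat.land (freeM C Z L)
      (Nat.lor (Nat.lor u.1.In u.1.Out) (ncm C u.1.R)) := rfl
    rw [e, tb_land, tb_lor, tb_lor] at hi
    refine ⟨(ih hi.1).1, List.forall_mem_cons.2 ⟨?_, (ih hi.1).2⟩⟩
    exact or_assoc.1 hi.2

theorem dc_nok (h : Ctx G S M Γ C f) (hS : S' ⊆ S) (hc : CritP G S' v) : Γ.nok = false := by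
  cases hk : Γ.nok
  · rfl
  · exact absurd (KX_mono (critP_KX hc) hS (fun _ _ _ _ e => e) (mc_deg3 h.mc)) (h.gam.nok hk)

theorem dc_ltF (h : RC G S M Γ C f R J Mk dl) : Lt (rF C R dl) C.n := fun _ hi =>
  (tb_rK.1 ((rc_F h).1 hi).1).1

theorem dc_R_Z (hi : tb R i = true) : tb (rZ R dl) i = true := tb_lor.2 (Or.inl hi)

theorem dc_In_Z {u : Blob × ℕ} (hu : u ∈ dl) (hi : tb u.1.In i = true) :
    tb (rZ R dl) i = true := tb_lor.2 (Or.inr (tb_orL.2 ⟨u, hu, hi⟩))

/-- a vertex that is left and is not in the frontier -/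
theorem dc_caseA (h : RC G S M Γ C f R J Mk dl) (hv : v ∈ rS G S f R dl)
    (hF : v ∉ img f (rF C R dl)) :
    wt (GJ G f J) (rS G S f R dl) (rM G S M C f R Mk) v ≤
      wt G S M v + dcUnk G C f (rD C R) v := by
  have hC := h.ctx.val
  have hn := hC.n_le
  have hZ := (v_lt64 hC (rc_ltZ h)).2
  have hsub : rS G S f R dl ⊆ S := (rc_sub h).trans sdiff_subset
  have hFi : ∀ i, tb (rF C R dl) i = true → f i ≠ v := fun i hi e =>
    hF (mem_img.2 ⟨i, by have := dc_ltF h i hi; omega, hi, e⟩)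
  have hdeg : deg (GJ G f J) (rS G S f R dl) v = deg G (rS G S f R dl) v :=
    v_deg_GJ_new hC (rc_jok h).wf fun i hi => hFi i (rc_join h hi).1
  have hkn : ∀ k i, tb (rZ R dl) k = true → tb (row C.A k) i = true → f i ≠ v := by
    intro k i hk hi e
    have hin := (hC.rlt k i hi).2
    refine hFi i ((rc_F h).2 ⟨tb_rK.2 ⟨hin, ?_⟩, (v_cn_pos hC hZ).2 ⟨k, hk, hi⟩⟩) e
    cases hz : tb (rZ R dl) i
    · rfl
    · exact absurd ((v_mem_img hC (rc_ltZ h) hin).2 hz) (e ▸ (mem_sdiff.1 (rc_sub h hv)).2)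
  by_cases hD : ∃ k, tb (rD C R) k = true ∧ G.Adj v (f k)
  · obtain ⟨k, hk, ha⟩ := hD
    have hkR := (tb_land.1 hk).1
    have hu : 1 ≤ dcUnk G C f (rD C R) v :=
      dc_unk_pos (by have := h.ltR k hkR; omega) hk ha.symm
        fun ⟨i, hi, e⟩ => hkn k i (dc_R_Z hkR) hi e
    have hM : v ∈ rM G S M C f R Mk := mem_filter.2 ⟨hsub hv, Or.inr (Or.inr ⟨k, hk, ha⟩)⟩
    unfold wt
    rw [if_pos hM, hdeg]
    by_cases hm : v ∈ M
    · rw [if_pos hm]
      exact (dc_W1_mono (deg_mono hsub fun _ _ e => e)).trans (Nat.le_add_right _ _)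
    · rw [if_neg hm]
      have h1 := dc_W1_le (deg G (rS G S f R dl) v)
      have h2 := dc_W0_ge (deg G S v)
      omega
  · have hd : deg G (rS G S f R dl) v = deg G S v := by
      unfold deg
      congr 1
      ext y
      rw [mem_N, mem_N]
      refine ⟨fun e => ⟨hsub e.1, e.2⟩, fun e => ⟨?_, e.2⟩⟩
      by_contra hy
      rcases rc_edge h hv e.1 hy e.2 with ⟨i, k, -, h2, h3, h4, -⟩ | ⟨k, h1, h2⟩
      · exact hkn k i h2 h3 h4
      · exact hD ⟨k, h1, h2 ▸ e.2⟩
    have hM : v ∈ rM G S M C f R Mk ↔ v ∈ M := by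
      refine ⟨fun e => ?_, fun e => mem_filter.2 ⟨hsub hv, Or.inl e⟩⟩
      rcases (mem_filter.1 e).2 with e | e | e
      · exact e
      · obtain ⟨i, -, hi, e⟩ := mem_img.1 e
        exact absurd e (hFi i (h.mkF i hi).1)
      · exact absurd e hD
    refine le_trans ?_ (Nat.le_add_right _ _)
    unfold wt
    rw [hdeg, hd]
    by_cases hm : v ∈ M
    · rw [if_pos hm, if_pos (hM.2 hm)]
    · rw [if_neg hm, if_neg (mt hM.1 hm)]
      by_cases hc : CritP (GJ G f J) (rS G S f R dl) v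
      · rw [if_pos hc, if_pos (critP_mono (rc_crit h hc) sdiff_subset (fun _ _ _ _ e => e)
          (mc_deg3 h.ctx.mc) (by rw [← hd, ← hdeg]; exact critP_deg hc))]
      · rw [if_neg hc]
        omega

/-- the cost of the frontier vertex at `v` -/
noncomputable def dcF (Γ : Gam) (C : Cfg) (f : ℕ → ℕ) (R J Mk : ℕ) (dl : List (Blob × ℕ))
    (v : ℕ) : ℕ :=
  dcFib f (dif (rF C R dl) (rmm C Mk dl))
      (dcW Γ.nok (e0 C (rT C R dl) (rX C J)) (e1 C (rT C R dl) (rX C J))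
        (e2 C (rT C R dl) (rX C J))
        (Nat.lor (Nat.lor (e1 C (rT C R dl) (rX C J)) (rJ C J)) (freeM C (rZ R dl) dl))) v +
    dcFib f (Nat.land (rF C R dl) (rmm C Mk dl))
      (fun i => (!tb (e1 C (rT C R dl) (rX C J)) i).toNat +
        7 * (!tb (e0 C (rT C R dl) (rX C J)) i).toNat) v

theorem dc_F_sum (h : RC G S M Γ C f R J Mk dl) :
    ∑ v ∈ S, dcF Γ C f R J Mk dl v ≤
      fcost Γ C dl (rZ R dl) (rJ C J) (dif (rF C R dl) (rmm C Mk dl))
        (Nat.land (rF C R dl) (rmm C Mk dl)) (e0 C (rT C R dl) (rX C J))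
        (e1 C (rT C R dl) (rX C J)) (e2 C (rT C R dl) (rX C J)) := by
  have h62 := (v_lt64 h.ctx.val (dc_ltF h)).1
  unfold dcF
  rw [sum_add_distrib]
  refine (Nat.add_le_add (dc_fib_sum _ _ _ _) (dc_fib_sum _ _ _ _)).trans ?_
  rw [← dc_W_sum _ _ _ _ _ (dc_lt_dif h62), ← w1s_eq (dc_lt_land h62)]
  unfold fcost
  simp only [Nat.add_eq]
  omega

/-- a frontier vertex that is left -/
theorem dc_caseB (h : RC G S M Γ C f R J Mk dl) (hv : f i ∈ rS G S f R dl)
    (hF : tb (rF C R dl) i = true) :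
    wt (GJ G f J) (rS G S f R dl) (rM G S M C f R Mk) (f i) ≤ dcF Γ C f R J Mk dl (f i) := by
  have hC := h.ctx.val
  have hn := hC.n_le
  have hi := dc_ltF h i hF
  have hZ := (v_lt64 hC (rc_ltZ h)).2
  have hsub : rS G S f R dl ⊆ S := (rc_sub h).trans sdiff_subset
  have h0 := v_e0 (J := J) hC hi hZ
  have h1 := v_e1 (J := J) hC hi hZ
  have h2 := v_e2 (J := J) hC hi hZ
  have hle := rc_deg_le h hi
  have hcn := ((rc_F h).1 hF).2
  have hdg := (dg_le (C := C) (i := i)).2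
  unfold dcF
  cases hmm : tb (rmm C Mk dl) i
  · refine le_trans ?_ ((dc_fib_ge _ (by omega) (tb_dif.2 ⟨hF, hmm⟩)).trans (Nat.le_add_right _ _))
    unfold wt
    by_cases hM : f i ∈ rM G S M C f R Mk
    · rw [if_pos hM]
      have hj : tb (rJ C J) i = false := by
        cases hj : tb (rJ C J) i
        · rfl
        · exact absurd hM (rc_join h hj).2.2
      rw [jn_zero hj] at h2
      refine (dc_W1_le _).trans ?_
      unfold dcW rT rX
      rw [h2.2 (by omega)]
      simp only [Bool.toNat_true]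
      omega
    · rw [if_neg hM]
      have he := rc_deg_eq h hi hv fun k hk ha =>
        hM (mem_filter.2 ⟨hsub hv, Or.inr (Or.inr ⟨k, hk, ha⟩)⟩)
      refine dc_W_ge he h0 h1 h2 fun hc => ?_
      have hc2 := critP_deg hc
      have hc' := rc_crit h hc
      refine ⟨hc2, dc_nok h.ctx sdiff_subset hc', ?_⟩
      rw [← Bool.not_eq_true, tb_lor, tb_lor]
      rintro ((e | e) | e)
      · have := h1.1 e
        omega
      · have h3 := v_deg_le hC hi (Subset.refl (S \ img f (rZ R dl)))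
        rw [critP_deg hc'] at h3
        have := jn_pos (J := J) (n := C.n) e
        omega
      · exact ncm_ok hC (dc_freeM dl e).1 (Subset.refl _) hZ hc'
  · refine le_trans ?_ ((dc_fib_ge _ (by omega) (tb_land.2 ⟨hF, hmm⟩)).trans (Nat.le_add_left _ _))
    have hM : f i ∈ rM G S M C f R Mk := by
      refine mem_filter.2 ⟨hsub hv, ?_⟩
      rcases tb_lor.1 hmm with e | e
      · exact Or.inl ((hC.mark i hi).2 e)
      · exact Or.inr (Or.inl (mem_img.2 ⟨i, by omega, (tb_dif.1 e).1, rfl⟩))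
    unfold wt rT rX
    rw [if_pos hM]
    cases e0 : tb (e0 C (nb3 C.A (rZ R dl)) (jx J (ones C.n))) i
    · cases e1 : tb (e1 C (nb3 C.A (rZ R dl)) (jx J (ones C.n))) i
      · exact dc_W1_le _
      · have := h1.1 e1
        exact dc_W1_mono (e := 1) (by omega)
    · have := h0.1 e0
      have h3 : deg (GJ G f J) (rS G S f R dl) (f i) = 0 := by omega
      rw [h3]
      exact Nat.zero_le _

theorem dc_bdeg (h : RC G S M Γ C f R J Mk dl) {u : Blob × ℕ} (hu : u ∈ dl) (hi : i < C.n)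
    (hx : f i ∈ bX G S f u.1) : deg G (bX G S f u.1) (f i) + cn C.A u.1.R i = dg C i := by
  obtain ⟨hB, hJ⟩ := rc_blob h hu
  have he := b_deg_eq h.ctx.val hB hi hx
  have hn := h.ctx.val.n_le
  rw [hJ, GJ_NOJ, jn_NOJ (by omega)] at he
  exact he

theorem dc_ltRu (h : RC G S M Γ C f R J Mk dl) {u : Blob × ℕ} (hu : u ∈ dl) : Lt u.1.R 64 :=
  (v_lt64 h.ctx.val fun i hi => (rc_blob h hu).1.ltO i ((rc_blob h hu).1.ro i hi)).2

/-- a frontier vertex in a deleted blob -/
theorem dc_caseD (h : RC G S M Γ C f R J Mk dl) {u : Blob × ℕ} (hu : u ∈ dl)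
    (hx : f i ∈ bX G S f u.1) (hF : tb (rF C R dl) i = true) :
    wt G (bX G S f u.1) ∅ (f i) ≤ dcF Γ C f R J Mk dl (f i) := by
  have hC := h.ctx.val
  have hn := hC.n_le
  have hi := dc_ltF h i hF
  have hZ := (v_lt64 hC (rc_ltZ h)).2
  obtain ⟨hB, -⟩ := rc_blob h hu
  obtain ⟨g1, g2, g3, -⟩ := rc_ghost h hu ((rc_F h).1 hF).1 hx
  have h0 := v_e0 (J := J) hC hi hZ
  have h1 := v_e1 (J := J) hC hi hZ
  have h2 := v_e2 (J := J) hC hi hZ
  have he := dc_bdeg h hu hi hx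
  rw [g2, jn_zero g3, add_zero] at h0 h1 h2
  have hmm : tb (rmm C Mk dl) i = false := by
    rw [← Bool.not_eq_true]
    intro e
    rcases tb_lor.1 e with e | e
    · exact hB.unm _ hx ((hC.mark i hi).2 e)
    · have e2 := (tb_dif.1 e).2
      rw [tb_orL.2 ⟨u, hu, g1⟩] at e2
      exact Bool.noConfusion e2
  unfold dcF
  refine le_trans ?_ ((dc_fib_ge _ (by omega) (tb_dif.2 ⟨hF, hmm⟩)).trans (Nat.le_add_right _ _))
  unfold wt
  rw [if_neg (notMem_empty _)]
  refine dc_W_ge he h0 h1 h2 fun hc => ?_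
  have hc2 := critP_deg hc
  refine ⟨hc2, dc_nok h.ctx ((b_sub hB).trans sdiff_subset) hc, ?_⟩
  rw [← Bool.not_eq_true, tb_lor, tb_lor]
  have g4 := (tb_dif.1 g1).2
  rw [← Bool.not_eq_true, tb_lor] at g4
  rintro ((e | e) | e)
  · have := h1.1 e
    omega
  · rw [g3] at e
    exact Bool.noConfusion e
  · rcases (dc_freeM dl e).2 u hu with e | e | e
    · exact g4 (Or.inl e)
    · exact g4 (Or.inr e)
    · exact ncm_ok hC e (b_sub hB) (dc_ltRu h hu) hc

theorem dc_blob (h : RC G S M Γ C f R J Mk dl) {u : Blob × ℕ} (hu : u ∈ dl) :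
    Phi G (bX G S f u.1) ∅ +
        ∑ v ∈ bX G S f u.1, (if v ∈ img f (rF C R dl) then wt G S M v else 0) +
        gw C (Nat.land u.1.In (nb C.A u.1.R)) ≤
      ∑ v ∈ bX G S f u.1, wt G S M v + ∑ v ∈ bX G S f u.1, dcF Γ C f R J Mk dl v + bw Γ C u := by
  have hC := h.ctx.val
  have hn := hC.n_le
  obtain ⟨hB, -⟩ := rc_blob h hu
  have hR := dc_ltRu h hu
  have hT : Lt (Nat.land u.1.In (nb C.A u.1.R)) C.n := dc_lt_land hB.ltI
  have hT' : Lt (Nat.land u.1.In (row (nb3 C.A u.1.R) 0)) 62 := dc_lt_land (v_lt64 hC hB.ltI).1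
  have hsub : bX G S f u.1 ⊆ S := (b_sub hB).trans sdiff_subset
  have hnb : ∀ i, tb (nb C.A u.1.R) i = true ↔ 0 < cn C.A u.1.R i := fun i => by
    rw [tb_nb hR, v_cn_pos hC hR]
  have h1 : gw C (Nat.land u.1.In (nb C.A u.1.R)) ≤ ∑ v ∈ bX G S f u.1,
      (if v ∈ img f (Nat.land u.1.In (nb C.A u.1.R)) then wt G S M v else 0) := by
    refine (gw_le hC h.ctx.mc hT).trans ?_
    rw [sum_ite_mem, inter_eq_right.2]
    intro v hv
    obtain ⟨i, -, hi, rfl⟩ := mem_img.1 hv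
    exact hB.inn i (tb_land.1 hi).1
  have h2 := dc_fib_sum f (Nat.land u.1.In (row (nb3 C.A u.1.R) 0))
    (dcW Γ.nok (low0 C (nb3 C.A u.1.R)) (low1 C (nb3 C.A u.1.R)) (low2 C (nb3 C.A u.1.R))
      (Nat.lor (low1 C (nb3 C.A u.1.R)) (ncm C u.1.R))) (bX G S f u.1)
  rw [← dc_W_sum _ _ _ _ _ hT'] at h2
  refine le_trans (Nat.add_le_add_left h1 _) (le_trans ?_ (Nat.add_le_add_left h2 _))
  unfold Phi
  rw [← sum_add_distrib, ← sum_add_distrib, ← sum_add_distrib, ← sum_add_distrib]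
  refine sum_le_sum fun v hv => ?_
  by_cases hF : v ∈ img f (rF C R dl)
  · rw [if_pos hF]
    obtain ⟨i, -, hi, rfl⟩ := mem_img.1 hF
    have hin := dc_ltF h i hi
    have hnT : f i ∉ img f (Nat.land u.1.In (nb C.A u.1.R)) := fun e => by
      have e1 := dc_In_Z (R := R) hu (tb_land.1 ((v_mem_img hC hT hin).1 e)).1
      rw [(tb_rK.1 ((rc_F h).1 hi).1).2] at e1
      exact Bool.noConfusion e1
    rw [if_neg hnT]
    have := dc_caseD h hu hv hi
    omega
  · rw [if_neg hF]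
    by_cases hI : v ∈ img f (Nat.land u.1.In (nb C.A u.1.R))
    · rw [if_pos hI]
      obtain ⟨i, hi64, hi, rfl⟩ := mem_img.1 hI
      have hin := hT i hi
      obtain ⟨i1, i2⟩ := tb_land.1 hi
      have h3 := dc_fib_ge (f := f) (dcW Γ.nok (low0 C (nb3 C.A u.1.R)) (low1 C (nb3 C.A u.1.R))
        (low2 C (nb3 C.A u.1.R)) (Nat.lor (low1 C (nb3 C.A u.1.R)) (ncm C u.1.R))) hi64
        (tb_land.2 ⟨i1, (tb_nb3 hR (by omega : 0 < 3)).2 ((hnb i).1 i2)⟩)
      have he := dc_bdeg h hu hin hv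
      have h4 : wt G (bX G S f u.1) ∅ (f i) ≤ dcW Γ.nok (low0 C (nb3 C.A u.1.R))
          (low1 C (nb3 C.A u.1.R)) (low2 C (nb3 C.A u.1.R))
          (Nat.lor (low1 C (nb3 C.A u.1.R)) (ncm C u.1.R)) i := by
        unfold wt
        rw [if_neg (notMem_empty _)]
        refine dc_W_ge he (v_low0 hC hin hR) (v_low1 hC hin hR) (v_low2 hC hin hR) fun hc => ?_
        have hc2 := critP_deg hc
        refine ⟨hc2, dc_nok h.ctx hsub hc, ?_⟩
        rw [← Bool.not_eq_true, tb_lor]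
        rintro (e | e)
        · have := (v_low1 hC hin hR).1 e
          omega
        · exact ncm_ok hC e (b_sub hB) hR hc
      omega
    · rw [if_neg hI]
      have hd : deg G (bX G S f u.1) v = deg G S v := by
        unfold deg
        congr 1
        ext y
        rw [mem_N, mem_N]
        refine ⟨fun e => ⟨hsub e.1, e.2⟩, fun e => ⟨?_, e.2⟩⟩
        by_contra hy
        obtain ⟨i, rfl, i2, i3 | i3⟩ := rc_bdry h hu hv e.1 hy e.2
        · exact hI (mem_img.2 ⟨i, by have := hB.ltI i i3; omega,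
            tb_land.2 ⟨i3, (hnb i).2 i2⟩, rfl⟩)
        · exact hF (mem_img.2 ⟨i, by have := dc_ltF h i i3; omega, i3, rfl⟩)
      have h3 := gc_wt_le (M := M) hsub (mc_deg3 h.ctx.mc) hd
      have h4 : wt G (bX G S f u.1) ∅ v = wt G (bX G S f u.1) M v := by
        unfold wt
        rw [if_neg (notMem_empty _), if_neg (hB.unm v hv)]
      omega

theorem dc_list_le {α : Type} (p1 p2 p3 q1 q2 q3 : α → ℕ) (L : List α)
    (h : ∀ u ∈ L, p1 u + p2 u + p3 u ≤ q1 u + q2 u + q3 u) :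
    (L.map p1).sum + (L.map p2).sum + (L.map p3).sum ≤
      (L.map q1).sum + (L.map q2).sum + (L.map q3).sum := by
  induction L with
  | nil => simp
  | cons u L ih =>
    have h1 := h u List.mem_cons_self
    have h2 := ih fun u' hu' => h u' (List.mem_cons_of_mem _ hu')
    simp only [List.map_cons, List.sum_cons]
    omega

/-- the weights before and after the reduction -/
theorem red_wt (h : RC G S M Γ C f R J Mk dl) :
    Phi (GJ G f J) (rS G S f R dl) (rM G S M C f R Mk) +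
        (dl.map fun u => Phi G (bX G S f u.1) ∅).sum + gw C (Nat.lor R (rF C R dl)) +
        (dl.map fun u => gw C (Nat.land u.1.In (nb C.A u.1.R))).sum ≤
      Phi G S M +
        fcost Γ C dl (rZ R dl) (rJ C J) (dif (rF C R dl) (rmm C Mk dl))
          (Nat.land (rF C R dl) (rmm C Mk dl)) (e0 C (rT C R dl) (rX C J))
          (e1 C (rT C R dl) (rX C J)) (e2 C (rT C R dl) (rX C J)) +
        dang C (rD C R) + (dl.map fun u => bw Γ C u).sum := by
  have hC := h.ctx.val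
  have hn := hC.n_le
  have hF := dc_ltF h
  have s1 := dc_split h (wt G S M)
  have s2 := dc_split h (fun v => if v ∈ img f (rF C R dl) then wt G S M v else 0)
  have s3 := dc_split h (dcF Γ C f R J Mk dl)
  have s4 := dc_F_sum h
  have s5 := dc_list_le _ _ _ _ _ _ dl fun u hu => dc_blob h hu
  have s6 : ∑ v ∈ img f R, (if v ∈ img f (rF C R dl) then wt G S M v else 0) = 0 := by
    refine sum_eq_zero fun v hv => if_neg fun e => ?_
    obtain ⟨i, -, hi, rfl⟩ := mem_img.1 hv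
    have e1 := (tb_rK.1 ((rc_F h).1 ((v_mem_img hC hF (h.ltR i hi)).1 e)).1).2
    rw [dc_R_Z hi] at e1
    exact Bool.noConfusion e1
  have s7 : gw C (Nat.lor R (rF C R dl)) ≤ ∑ v ∈ img f R, wt G S M v +
      ∑ v ∈ S, (if v ∈ img f (rF C R dl) then wt G S M v else 0) := by
    have hl : Lt (Nat.lor R (rF C R dl)) C.n := fun i hi => (tb_lor.1 hi).elim (h.ltR i) (hF i)
    refine (gw_le hC h.ctx.mc hl).trans ?_
    rw [sum_ite_mem, inter_eq_right.2 (v_img_sub hC hF), ← sum_union_inter]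
    refine le_trans (sum_le_sum_of_subset fun v hv => ?_) (Nat.le_add_right _ _)
    obtain ⟨i, i1, i2, rfl⟩ := mem_img.1 hv
    rcases tb_lor.1 i2 with e | e
    · exact mem_union_left _ (mem_img.2 ⟨i, i1, e, rfl⟩)
    · exact mem_union_right _ (mem_img.2 ⟨i, i1, e, rfl⟩)
  have s8 : ∑ v ∈ rS G S f R dl, dcUnk G C f (rD C R) v ≤ dang C (rD C R) := by
    rw [← dc_unk_sum hC h.ltR]
    exact sum_le_sum_of_subset ((rc_sub h).trans sdiff_subset)
  have s9 : Phi (GJ G f J) (rS G S f R dl) (rM G S M C f R Mk) +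
      ∑ v ∈ rS G S f R dl, (if v ∈ img f (rF C R dl) then wt G S M v else 0) ≤
      ∑ v ∈ rS G S f R dl, wt G S M v + ∑ v ∈ rS G S f R dl, dcF Γ C f R J Mk dl v +
        ∑ v ∈ rS G S f R dl, dcUnk G C f (rD C R) v := by
    unfold Phi
    rw [← sum_add_distrib, ← sum_add_distrib, ← sum_add_distrib]
    refine sum_le_sum fun v hv => ?_
    by_cases e : v ∈ img f (rF C R dl)
    · rw [if_pos e]
      obtain ⟨i, -, hi, rfl⟩ := mem_img.1 e
      have := dc_caseB h hv hi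
      omega
    · rw [if_neg e]
      have := dc_caseA h hv e
      omega
  have s0 : Phi G S M = ∑ v ∈ S, wt G S M v := rfl
  omega

end Pool.Agent.Lib.MP_5a2675_co.D7
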