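import Mathlib
import Pool.Agent.Lib.MP_5a2675_co.D7.DA

set_option autoImplicit false

namespace Pool.Agent.Lib.MP_5a2675_co.D7

open Finset
open Classical

variable {G G' : SimpleGraph ℕ} {S S' M X : Finset ℕ} {Γ : Gam} {C : Cfg} {f g : ℕ → ℕ}
  {a b c i j k l m n q r s t v w x y A J R Z Mk : ℕ}

variable {dl : List (Blob × ℕ)} {ps : List ℕ} {Y : Finset ℕ}

theorem dd_K (h : RC G S M Γ C f R J Mk dl) (hi : tb (rF C R dl) i = true) :
    tb (rK C R dl) i = true := ((rc_F h).1 hi).1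

theorem dd_lt (hi : tb (rK C R dl) i = true) : i < C.n := (tb_rK.1 hi).1

theorem dd_n (h : RC G S M Γ C f R J Mk dl) : C.n ≤ 63 := h.ctx.val.n_le.trans (by norm_num)

theorem dd_Z64 (h : RC G S M Γ C f R J Mk dl) : Lt (rZ R dl) 64 :=
  (v_lt64 h.ctx.val (rc_ltZ h)).2

theorem dd_memK (h : RC G S M Γ C f R J Mk dl) (hi : tb (rK C R dl) i = true) :
    f i ∈ S \ img f (rZ R dl) := by
  obtain ⟨h1, h2⟩ := tb_rK.1 hi
  refine mem_sdiff.2 ⟨h.ctx.val.mem i h1, fun hc => ?_⟩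
  rw [(v_mem_img h.ctx.val (rc_ltZ h) h1).1 hc] at h2
  exact Bool.noConfusion h2

/-- both vertices are deleted or they lie in the same component -/
def ddE (G : SimpleGraph ℕ) (S : Finset ℕ) (x y : ℕ) : Prop :=
  (x ∈ S → y ∈ comp G S x) ∧ (y ∈ S → x ∈ comp G S y)

theorem ddE.refl : ddE G S x x := ⟨mem_comp_self, mem_comp_self⟩

theorem ddE.symm (h : ddE G S x y) : ddE G S y x := ⟨h.2, h.1⟩

theorem ddE.trans (h : ddE G S x y) (h' : ddE G S y w) : ddE G S x w :=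
  ⟨fun hx => comp_eq_of_mem (h.1 hx) ▸ h'.1 (comp_subset (h.1 hx)),
    fun hw => comp_eq_of_mem (h'.2 hw) ▸ h.2 (comp_subset (h'.2 hw))⟩

theorem dd_of_comp (hx : x ∈ comp G S v) (hy : y ∈ comp G S v) : ddE G S x y :=
  ⟨fun _ => (comp_eq_of_mem hx).symm ▸ hy, fun _ => (comp_eq_of_mem hy).symm ▸ hx⟩

theorem dd_edge (h : RC G S M Γ C f R J Mk dl) (hx : x ∈ S \ img f (rZ R dl))
    (hy : y ∈ S \ img f (rZ R dl)) (ha : (GJ G f J).Adj x y) :
    ddE (GJ G f J) (rS G S f R dl) x y :=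
  ⟨fun hx' => comp_closed.2 x (mem_comp_self hx') y ((rc_closed h).2 x hx' y hy ha) ha,
    fun hy' => comp_closed.2 y (mem_comp_self hy') x ((rc_closed h).2 y hy' x hx ha.symm) ha.symm⟩

/-- only the first alternative of a fact is left -/
theorem dd_alt (h : RC G S M Γ C f R J Mk dl) {u : PF} (hu : u ∈ C.pf) (hm : Γ.nomark = true)
    (h1 : u.th = 0) (h2 : u.R = rZ R dl) (h3 : u.J = NOJ) (h4 : u.Dd = 0)
    (h5 : tb (rF C R dl) u.p = true) : ∃ k, tb u.P0 k = true ∧ k < C.n ∧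
      tb (rZ R dl) k = false ∧ f k ∈ comp G (S \ img f (rZ R dl)) (f u.p) := by
  have hv := h.ctx.val
  have hp := hv.pf u hu
  have ha := hp.alt
  rw [cX, h2, h3, GJ_NOJ, h4] at ha
  rcases ha with ⟨k, hk, hc⟩ | ⟨y, hy, hM⟩ | ⟨y, -, k, hk, -⟩ | hc | ⟨hc, -⟩
  · refine ⟨k, hk, hp.ltP k hk, ?_, hc⟩
    rw [← Bool.not_eq_true]
    exact fun hz => (mem_sdiff.1 (comp_subset hc)).2
      ((v_mem_img hv (rc_ltZ h) (hp.ltP k hk)).2 hz)
  · exact (tyOK_nomark h.ctx.gam hm h.ctx.mc.good (fun _ => mc_deg_pos h.ctx.mc) y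
      (mem_sdiff.1 (comp_subset hy)).1 hM).elim
  · rw [tb_zero] at hk
    exact Bool.noConfusion hk
  · refine (hc ⟨f u.p, mem_comp_self (dd_memK h (dd_K h h5)), ?_⟩).elim
    have a1 := v_deg_le (Z := rZ R dl) hv hp.pn
      (comp_subset (G := G) (S := S \ img f (rZ R dl)) (v := f u.p))
    have a2 := ((rc_F h).1 h5).2
    have a3 := (dg_le (C := C) (i := u.p)).2
    omega
  · exact (hc h1).elim

theorem dd_closedG (h : RC G S M Γ C f R J Mk dl)
    (hX : Closed (GJ G f J) (rS G S f R dl) X) : Closed G (S \ img f (rZ R dl)) X :=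
  ⟨hX.1.trans (rc_sub h), fun v hv w hw ha =>
    hX.2 v hv w ((rc_closed h).2 v (hX.1 hv) w hw (le_GJ ha)) (le_GJ ha)⟩

theorem dd_pf (h : RC G S M Γ C f R J Mk dl) {u : PF} (hu : u ∈ C.pf) (h63 : a ≤ 63)
    (hab : a < 63 → tb (jp J a) b = true) (hg : mgPF Γ u (rZ R dl) (rF C R dl) a b = true) :
    ddE (GJ G f J) (rS G S f R dl) (f u.p) (f a) := by
  simp only [mgPF, Bool.and_eq_true, Nat.beq_eq, Bool.not_eq_true'] at hg
  obtain ⟨⟨⟨⟨⟨⟨⟨g1, g2⟩, g3⟩, g4⟩, g5⟩, g6⟩, g7⟩, g8⟩ := hg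
  have ha : a < 63 := lt_of_le_of_ne h63 (Nat.ne_of_beq_eq_false g7)
  have wf := (rc_jok h).wf
  obtain ⟨a1, a2, -, a4⟩ := jp_lt wf (dd_n h) ha (hab ha)
  have hb : b < 63 := a2.trans_le (dd_n h)
  have ja := (rc_join h ((tb_jm wf (dd_n h)).2 ⟨ha, b, hab ha⟩)).2.1
  have jb := (rc_join h ((tb_jm wf (dd_n h)).2 ⟨hb, a, a4⟩)).2.1
  have eab : ddE (GJ G f J) (rS G S f R dl) (f b) (f a) :=
    dd_edge h (rc_sub h jb) (rc_sub h ja)
      ((GJ_adj wf (dd_n h) h.ctx.val.inj).2 (Or.inr ⟨b, a, a2, a4, rfl, rfl⟩))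
  obtain ⟨k, k1, -, k3, k4⟩ := dd_alt h hu g1 g2 g3 g4 g5 g6
  have key : f k ∈ rS G S f R dl → ddE (GJ G f J) (rS G S f R dl) (f u.p) (f k) := fun hk => by
    refine dd_of_comp (v := f k) ?_ (mem_comp_self hk)
    refine comp_subset_of_closed (dd_closedG h comp_closed) (mem_comp_self hk) ?_
    rw [comp_eq_of_mem k4]
    exact mem_comp_self (dd_memK h (dd_K h g6))
  rcases tb_lor.1 (sub_iff.1 g8 k k1) with hk | hk
  · rw [hk] at k3
    exact Bool.noConfusion k3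
  · rcases tb_lor.1 hk with hk | hk
    · obtain rfl := tb_bit.1 hk
      exact key ja
    · obtain rfl := tb_bit.1 hk
      exact (key jb).trans eab

theorem dd_two {H : SimpleGraph ℕ} {T : Finset ℕ} (h : ddE H T (f a) (f b))
    (hi : tb (Nat.lor (bit a) (bit b)) i = true) (hk : tb (Nat.lor (bit a) (bit b)) k = true) :
    ddE H T (f i) (f k) := by
  rcases tb_lor.1 hi with hi | hi <;> rcases tb_lor.1 hk with hk | hk <;>
    rw [tb_bit.1 hi, tb_bit.1 hk]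
  exacts [ddE.refl, h, h.symm, ddE.refl]

theorem dd_merge (h : RC G S M Γ C f R J Mk dl) {u : ℕ × ℕ}
    (hg : mgOK Γ C dl J (rZ R dl) (rF C R dl) u = true) (hi : tb (mgM C J u) i = true)
    (hk : tb (mgM C J u) k = true) : ddE (GJ G f J) (rS G S f R dl) (f i) (f k) := by
  have hv := h.ctx.val
  have wf := (rc_jok h).wf
  unfold mgOK at hg
  unfold mgM at hi hk
  cases h0 : Nat.beq u.1 0
  · rw [h0, cond_false] at hg hi hk
    rw [Bool.and_eq_true] at hg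
    have hu := gf_mem hg.1
    cases h1 : Nat.beq u.1 1
    · rw [h1, cond_false] at hg hi hk
      exact dd_two (dd_pf h hu Nat.and_le_right (fun ha => (tb_jp wf (dd_n h) ha).2
        (Or.inr (Or.inr (Or.inl ⟨rfl, rfl⟩)))) hg.2) hi hk
    · rw [h1, cond_true] at hg hi hk
      exact dd_two (dd_pf h hu Nat.and_le_right (fun ha => (tb_jp wf (dd_n h) ha).2
        (Or.inl ⟨rfl, rfl⟩)) hg.2) hi hk
  · rw [h0, cond_true] at hg hi hk
    simp only [Bool.and_eq_true, Nat.beq_eq] at hg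
    obtain ⟨⟨g1, g2⟩, g3⟩ := hg
    have hb := hv.bl _ (gb_mem_of_NOJ g1)
    have hc : Conn G (bX G S f (gb C u.2)) := by
      rw [bX, cX, g1, GJ_NOJ]
      exact comp_conn
    have hs : bX G S f (gb C u.2) ⊆ rS G S f R dl := fun y hy => by
      refine mem_filter.2 ⟨(mem_sdiff.1 (b_sub hb hy)).1, fun hr => ?_, fun z hz => ?_⟩
      · obtain ⟨r, -, r2, rfl⟩ := mem_img.1 hr
        exact hb.out r (sub_iff.1 g2 r (tb_lor.2 (Or.inl r2))) hy
      · exact disjoint_left.1 (disj_ok hv hb (rc_blob h hz).1 g1 (rc_blob h hz).2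
          (allL_iff.1 g3 z hz)) hy
    exact dd_of_comp (mem_comp_self (hs (hb.inn i hi)))
      (conn_subset_comp hc le_GJ hs (hb.inn i hi) (hb.inn k hk))

theorem pcs_ok {mg : List (ℕ × ℕ)} (h : RC G S M Γ C f R J Mk dl)
    (hg : allL (mgOK Γ C dl J (rZ R dl) (rF C R dl)) mg = true) :
    PcsOK G S C f R J dl
      (pcsL (adjX C.A J (mapL (mgM C J) mg)) (rK C R dl) 64 (rF C R dl)) := by
  have hv := h.ctx.val
  have key : ∀ s ∈ pcsL (adjX C.A J (mapL (mgM C J) mg)) (rK C R dl) 64 (rF C R dl),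
      ∃ z, ∀ i, tb s i = true →
        tb (rK C R dl) i = true ∧ ddE (GJ G f J) (rS G S f R dl) (f z) (f i) := fun s hs => by
    obtain ⟨z, hz, rfl⟩ := pcsL_mem hs
    refine ⟨z, clo_ind _ (fun i hi => ?_) fun i j hi hj hK => ⟨hK, hi.2.trans ?_⟩⟩
    · obtain rfl := tb_bit.1 hi
      exact ⟨dd_K h hz, ddE.refl⟩
    · rcases tb_lor.1 hj with hj | hj
      · refine dd_edge h (dd_memK h hi.1) (dd_memK h hK) ?_
        rcases tb_adjJ.1 hj with hj | hj
        · exact le_GJ (hv.adj i j hj)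
        · exact (GJ_adj (rc_jok h).wf (dd_n h) hv.inj).2
            (Or.inr ⟨i, j, dd_lt hi.1, hj, rfl, rfl⟩)
      · obtain ⟨m, hm, hj⟩ := tb_orL.1 hj
        rw [mapL_eq] at hm
        obtain ⟨u, hu, rfl⟩ := List.mem_map.1 hm
        cases hc : tb (mgM C J u) i
        · rw [hc, cond_false, tb_zero] at hj
          exact Bool.noConfusion hj
        · rw [hc, cond_true] at hj
          exact dd_merge h (allL_iff.1 hg u hu) hc hj
  refine ⟨pcsL_len, fun i hi => pcsL_cov (fun j hj => ?_) hi, fun s hs i hi => ?_,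
    fun s hs i k hi hk => ?_⟩
  · exact (dd_lt (dd_K h hj)).trans_le (hv.n_le.trans (by norm_num))
  · obtain ⟨z, hz⟩ := key s hs
    exact (hz i hi).1
  · obtain ⟨z, hz⟩ := key s hs
    exact ((hz i hi).2.symm.trans (hz k hk).2).1

theorem uc_sub (hY : UC G S M C f R J Mk dl Y) : Y ⊆ rS G S f R dl := by
  obtain ⟨v, -, rfl⟩ := hY.cmp
  exact comp_subset
theorem uc_closed (hY : UC G S M C f R J Mk dl Y) : Closed (GJ G f J) (rS G S f R dl) Y := by
  obtain ⟨v, -, rfl⟩ := hY.cmp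
  exact comp_closed
theorem dd_noD (hY : UC G S M C f R J Mk dl Y) (hx : x ∈ Y) (hk : tb (rD C R) k = true) :
    ¬ G.Adj x (f k) := fun ha =>
  hY.unm x hx (mem_filter.2 ⟨(mem_filter.1 (uc_sub hY hx)).1, Or.inr (Or.inr ⟨k, hk, ha⟩)⟩)
/-- all edges that leave an unmarked component are known -/
theorem uc_edge (h : RC G S M Γ C f R J Mk dl) (hY : UC G S M C f R J Mk dl Y) (hx : x ∈ Y)
    (hy : y ∈ S) (hn : y ∉ Y) (ha : G.Adj x y) :
    ∃ i k, tb (rF C R dl) i = true ∧ tb (rZ R dl) k = true ∧ tb (row C.A k) i = true ∧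
      f i = x ∧ f k = y := by
  rcases rc_edge h (uc_sub hY hx) hy (fun hc => hn ((uc_closed hY).2 x hx y hc (le_GJ ha))) ha
    with ⟨i, k, h1, h2, h3, h4, h5⟩ | ⟨k, h1, rfl⟩
  · exact ⟨i, k, (rc_F h).2 ⟨h1, (v_cn_pos h.ctx.val (dd_Z64 h)).2 ⟨k, h2, h3⟩⟩, h2, h3, h4, h5⟩
  · exact (dd_noD hY hx h1 ha).elim
theorem uc_deg (h : RC G S M Γ C f R J Mk dl) (hY : UC G S M C f R J Mk dl Y) (hi : i < C.n)
    (hx : f i ∈ Y) :
    deg (GJ G f J) Y (f i) + cn C.A (rZ R dl) i = dg C i + jn J C.n i := by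
  rw [deg_closed (uc_closed hY) hx]
  exact rc_deg_eq h hi (uc_sub hY hx) fun k hk => dd_noD hY hx hk
theorem uc_piece (hp : PcsOK G S C f R J dl ps) (hY : UC G S M C f R J Mk dl Y) (hs : s ∈ ps)
    (hh : Hit f s Y) (hi : tb s i = true) : f i ∈ Y := by
  obtain ⟨k, hk, hx⟩ := hh
  exact comp_subset_of_closed (uc_closed hY) hx (hp.one s hs k i hk hi (uc_sub hY hx))
theorem dd_mem_pU : s ∈ pU C Mk ps ↔ s ∈ ps ∧ dj s (Nat.lor Mk C.ms) = true := by
  rw [pU, filL_eq, List.mem_filter]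
theorem dd_mem_pJ : s ∈ pJ C J Mk ps ↔ s ∈ pU C Mk ps ∧ dj s (rJ C J) = false := by
  rw [pJ, filL_eq, List.mem_filter, Bool.not_eq_true']
theorem uc_pU (h : RC G S M Γ C f R J Mk dl) (hp : PcsOK G S C f R J dl ps)
    (hY : UC G S M C f R J Mk dl Y) (hs : s ∈ ps) (hh : Hit f s Y) : s ∈ pU C Mk ps := by
  refine dd_mem_pU.2 ⟨hs, dj_iff.2 fun i hi => ?_⟩
  rw [← Bool.not_eq_true]
  intro hc
  have hn := dd_lt (hp.inK s hs i hi)
  refine hY.unm _ (uc_piece hp hY hs hh hi) (mem_filter.2 ⟨h.ctx.val.mem i hn, ?_⟩)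
  rcases tb_lor.1 hc with hc | hc
  · exact Or.inr (Or.inl (mem_img.2 ⟨i, hn.trans_le (h.ctx.val.n_le.trans (by norm_num)), hc, rfl⟩))
  · exact Or.inl ((h.ctx.val.mark i hn).2 hc)
theorem uc_safe (h : RC G S M Γ C f R J Mk dl) (hp : PcsOK G S C f R J dl ps)
    (hY : UC G S M C f R J Mk dl Y) (hi : tb (pSafe C Mk ps) i = true) : f i ∉ Y := by
  intro hx
  obtain ⟨s, hs, hi⟩ := tb_orL.1 hi
  rw [filL_eq, List.mem_filter, Bool.not_eq_true'] at hs
  have h1 := (dd_mem_pU.1 (uc_pU h hp hY hs.1 ⟨i, hi, hx⟩)).2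
  rw [hs.2] at h1
  exact Bool.noConfusion h1
theorem dd_front (h : RC G S M Γ C f R J Mk dl) (hY : UC G S M C f R J Mk dl Y) :
    ∃ i, tb (rF C R dl) i = true ∧ f i ∈ Y := by
  have h1 : Y.Nonempty := by
    obtain ⟨v, hv, rfl⟩ := hY.cmp
    exact ⟨v, mem_comp_self hv⟩
  obtain ⟨a, ha, b, hb, hn, hab⟩ := exists_edge_out h.ctx.mc.conn
    ((uc_sub hY).trans (filter_subset _ _)) h1
    (fun e => ((card_le_card (uc_sub hY)).trans_lt (rc_card h)).ne (congrArg card e))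
  obtain ⟨i, -, hi, -, -, rfl, -⟩ := uc_edge h hY ha hb hn hab
  exact ⟨i, hi, ha⟩
theorem uc_hit (h : RC G S M Γ C f R J Mk dl) (hp : PcsOK G S C f R J dl ps)
    (hY : UC G S M C f R J Mk dl Y) : ∃ s ∈ pU C Mk ps, Hit f s Y := by
  obtain ⟨i, hi, hx⟩ := dd_front h hY
  obtain ⟨s, hs, hsi⟩ := hp.cov i hi
  exact ⟨s, uc_pU h hp hY hs ⟨i, hsi, hx⟩, i, hsi, hx⟩
/-- a component that meets no piece with a join end has no join end -/
theorem uc_nojoin (h : RC G S M Γ C f R J Mk dl) (hp : PcsOK G S C f R J dl ps)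
    (hY : UC G S M C f R J Mk dl Y) (hj : ∀ s ∈ pJ C J Mk ps, ¬ Hit f s Y) :
    (∀ i, tb (rJ C J) i = true → f i ∉ Y) ∧
      ∀ x ∈ Y, ∀ y, (GJ G f J).Adj x y ↔ G.Adj x y := by
  have wf := (rc_jok h).wf
  have h1 : ∀ i, tb (rJ C J) i = true → f i ∉ Y := fun i hi hx => by
    obtain ⟨s, hs, hsi⟩ := hp.cov i (rc_join h hi).1
    exact hj s (dd_mem_pJ.2 ⟨uc_pU h hp hY hs ⟨i, hsi, hx⟩, dj_false_iff.2 ⟨i, hsi, hi⟩⟩)
      ⟨i, hsi, hx⟩
  refine ⟨h1, fun x hx y => ⟨fun ha => ?_, fun ha => le_GJ ha⟩⟩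
  rcases (GJ_adj wf (dd_n h) h.ctx.val.inj).1 ha with ha | ⟨i, j, hi, hj, rfl, -⟩
  · exact ha
  · exact (h1 i ((tb_jm wf (dd_n h)).2 ⟨hi.trans_le (dd_n h), j, hj⟩) hx).elim
theorem dd_e2 (h : RC G S M Γ C f R J Mk dl) (hY : UC G S M C f R J Mk dl Y) (hi : i < C.n)
    (hx : f i ∈ Y) (he : tb (e2 C (rT C R dl) (rX C J)) i = true) : NonCub (GJ G f J) Y := by
  have h1 := uc_deg h hY hi hx
  have h2 := (v_e2 h.ctx.val hi (dd_Z64 h)).1 he
  exact ⟨f i, hx, by omega⟩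
theorem uc_noncub (h : RC G S M Γ C f R J Mk dl) (hp : PcsOK G S C f R J dl ps)
    (hY : UC G S M C f R J Mk dl Y)
    (hw : witOK Γ C (rZ R dl) (rF C R dl) (e2 C (rT C R dl) (rX C J)) (pJ C J Mk ps) = true) :
    NonCub (GJ G f J) Y := by
  by_cases hj : ∀ s ∈ pJ C J Mk ps, ¬ Hit f s Y
  · obtain ⟨i, hi, hx⟩ := dd_front h hY
    have h1 := uc_deg h hY (dd_lt (dd_K h hi)) hx
    have h2 : tb (rJ C J) i = false := by
      rw [← Bool.not_eq_true]
      exact fun hc => (uc_nojoin h hp hY hj).1 i hc hx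
    have h3 := ((rc_F h).1 hi).2
    have h4 := (dg_le (C := C) (i := i)).2
    rw [jn_zero h2] at h1
    exact ⟨f i, hx, by omega⟩
  · push Not at hj
    obtain ⟨s, hs, hh⟩ := hj
    have h1 := allL_iff.1 hw s hs
    rw [Bool.not_eq_true'] at h1
    obtain ⟨i, hi, hc⟩ := dj_false_iff.1 h1
    have hs' := (dd_mem_pU.1 (dd_mem_pJ.1 hs).1).1
    have hx := uc_piece hp hY hs' hh hi
    rcases tb_lor.1 hc with hc | hc
    · exact dd_e2 h hY (dd_lt (hp.inK s hs' i hi)) hx hc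
    · cases hm : Γ.nomark
      · rw [hm, cond_false, tb_zero] at hc
        exact Bool.noConfusion hc
      · rw [hm, cond_true] at hc
        obtain ⟨u, hu, hc⟩ := tb_orL.1 hc
        unfold pfW at hc
        cases hb : (Nat.beq u.th 0 && Nat.beq u.R (rZ R dl) && Nat.beq u.J NOJ &&
          Nat.beq u.Dd 0 && tb (rF C R dl) u.p &&
          sub u.P0 (Nat.lor (rZ R dl) (e2 C (rT C R dl) (rX C J))))
        · rw [hb, cond_false, tb_zero] at hc
          exact Bool.noConfusion hc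
        · rw [hb, cond_true] at hc
          obtain rfl := tb_bit.1 hc
          simp only [Bool.and_eq_true, Nat.beq_eq] at hb
          obtain ⟨⟨⟨⟨⟨g2, g3⟩, g4⟩, g5⟩, g6⟩, g8⟩ := hb
          obtain ⟨k, k1, k2, k3, k4⟩ := dd_alt h hu hm g2 g3 g4 g5 g6
          refine dd_e2 h hY k2
            (comp_subset_of_closed (dd_closedG h (uc_closed hY)) hx k4) ?_
          rcases tb_lor.1 (sub_iff.1 g8 k k1) with hk | hk
          · rw [hk] at k3
            exact Bool.noConfusion k3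
          · exact hk

end Pool.Agent.Lib.MP_5a2675_co.D7
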