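import Mathlib
import Pool.Agent.Lib.MP_5a2675_co.D7.DD

set_option autoImplicit false

namespace Pool.Agent.Lib.MP_5a2675_co.D7

open Finset
open Classical

variable {G G' : SimpleGraph ℕ} {S S' M X : Finset ℕ} {Γ : Gam} {C : Cfg} {f g : ℕ → ℕ}
  {a b c i j k l m n q r s t v w x y A J R Z Mk : ℕ}

variable {dl : List (Blob × ℕ)} {ps : List ℕ} {Y : Finset ℕ} {Pay : ℕ}

/-- the facts that apply to the pieces -/
def pZ (C : Cfg) (R J Mk Pay : ℕ) (dl : List (Blob × ℕ)) (ps : List ℕ) : ℕ :=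
  orL (pfZ C J (rZ R dl) (rK C R dl) (rD C R) (pSafe C Mk ps) (orL id (pJ C J Mk ps))
    (orL id (filL (fun s => !(dj s Pay)) (pN C J Mk ps)))) C.pf

/-- the bound that the checker charges to the piece `s` -/
def pB (Γ : Gam) (C : Cfg) (R J Mk Pay : ℕ) (dl : List (Blob × ℕ)) (ps : List ℕ) (s : ℕ) : ℕ :=
  bnd (Γ.nok && dj s (rJ C J)) (row (pZ C R J Mk Pay dl ps) 0)
    (Nat.lor (row (pZ C R J Mk Pay dl ps) 1) (e1 C (rT C R dl) (rX C J)))
    (e2 C (rT C R dl) (rX C J)) s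

theorem de_cond {α : Type} {p : Bool} {u v : α} {P : α → Prop} (h1 : p = true → P u)
    (h2 : p = false → P v) : P (cond p u v) := by
  cases p
  · exact h2 rfl
  · exact h1 rfl

theorem de_mem_pJ : s ∈ pJ C J Mk ps ↔ s ∈ pU C Mk ps ∧ dj s (rJ C J) = false := by
  unfold pJ
  rw [filL_eq, List.mem_filter]
  simp

theorem de_mem_pN : s ∈ pN C J Mk ps ↔ s ∈ pU C Mk ps ∧ dj s (rJ C J) = true := by
  unfold pN
  rw [filL_eq, List.mem_filter]

theorem de_mem_ps (hs : s ∈ pU C Mk ps) : s ∈ ps := by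
  unfold pU at hs
  rw [filL_eq, List.mem_filter] at hs
  exact hs.1

/-- a fact that passes the checks describes the component -/
theorem de_pf (h : RC G S M Γ C f R J Mk dl) (hp : PcsOK G S C f R J dl ps)
    (hY : UC G S M C f R J Mk dl Y) (hn : NonCub (GJ G f J) Y) (hs : s ∈ pU C Mk ps)
    (hh : Hit f s Y) (h1 : s ∉ pJ C J Mk ps → ∀ s' ∈ pJ C J Mk ps, ¬ Hit f s' Y)
    (h2 : s ∉ pJ C J Mk ps → dj s Pay = true →
      ∀ s' ∈ pN C J Mk ps, dj s' Pay = false → ¬ Hit f s' Y) {u : PF} (hu : u ∈ C.pf)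
    (hsp : tb s u.p = true) (ca : sub u.R (rZ R dl) = true) (cb : u.J = NOJ ∨ u.J = J)
    (cd : sub (Nat.land (nb C.A (dif (rZ R dl) u.R)) (rK C R dl)) (pSafe C Mk ps) = true)
    (ce : pfA J (orL id (pJ C J Mk ps)) (orL id (filL (fun s => !(dj s Pay)) (pN C J Mk ps))) u
      (dif (Nat.lor u.P0 (nb C.A (dif u.Dd (rD C R)))) (Nat.lor (rZ R dl) (pSafe C Mk ps))) =
        true) :
    val (GJ G f J) Y ∅ ≤ (u.th : ℤ) - 100 := by
  have hC := h.ctx.val
  have hn62 := hC.n_le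
  have hU := hC.pf u hu
  have hZ := rc_ltZ h
  have hZ64 : Lt (rZ R dl) 64 := (v_lt64 hC hZ).2
  have hpY : f u.p ∈ Y := uc_piece hp hY (de_mem_ps hs) hh hsp
  have hYZ : Y ⊆ S \ img f (rZ R dl) := (uc_sub hY).trans (rc_sub h)
  have ca' := sub_iff.1 ca
  have hnj : tb (orL id (pJ C J Mk ps)) u.p = false → s ∉ pJ C J Mk ps := fun h0 hj => by
    have : tb (orL id (pJ C J Mk ps)) u.p = true := tb_orL.2 ⟨s, hj, hsp⟩
    rw [h0] at this
    exact Bool.noConfusion this
  have hA : ∀ a ∈ Y, ∀ b, (GJ G f u.J).Adj a b ↔ (GJ G f J).Adj a b := by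
    intro a ha b
    by_cases hJ : u.J = J
    · rw [hJ]
    · have hN : u.J = NOJ := cb.resolve_right hJ
      have h0 : tb (orL id (pJ C J Mk ps)) u.p = false := by
        by_contra hc
        rw [Bool.not_eq_false] at hc
        unfold pfA at ce
        rw [hc, cond_true, Bool.and_eq_true, Nat.beq_eq] at ce
        exact hJ ce.1
      rw [hN, GJ_NOJ]
      exact ((uc_nojoin h hp hY (h1 (hnj h0))).2 a ha b).symm
  have hcl : Closed (GJ G f u.J) (S \ img f u.R) Y := by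
    refine ⟨fun y hy => ?_, fun a ha w hw hadj => ?_⟩
    · obtain ⟨hyS, hyZ⟩ := mem_sdiff.1 (hYZ hy)
      refine mem_sdiff.2 ⟨hyS, fun hc => hyZ ?_⟩
      obtain ⟨i, hi, hiR, rfl⟩ := mem_img.1 hc
      exact mem_img.2 ⟨i, hi, ca' i hiR, rfl⟩
    · obtain ⟨hwS, hwR⟩ := mem_sdiff.1 hw
      have hadj' := (hA a ha w).1 hadj
      by_contra hwY
      have hwZ : w ∈ img f (rZ R dl) := by
        by_contra hc
        exact hwY ((uc_closed hY).2 a ha w
          ((rc_closed h).2 a (uc_sub hY ha) w (mem_sdiff.2 ⟨hwS, hc⟩) hadj') hadj')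
      have hJ := rc_jok h
      rcases (GJ_adj hJ.wf (by omega) hC.inj).1 hadj' with hG | ⟨i, j, hi, hij, -, hjw⟩
      · obtain ⟨i, k, hiF, hkZ, hki, hia, hkw⟩ := uc_edge h hY ha hwS hwY hG
        have hkR : tb u.R k = false := by
          by_contra hc
          rw [Bool.not_eq_false] at hc
          exact hwR (mem_img.2 ⟨k, hZ64 k hkZ, hc, hkw⟩)
        have hsafe := sub_iff.1 cd i (tb_land.2 ⟨(tb_nb fun t ht =>
          hZ64 t (tb_dif.1 ht).1).2 ⟨k, tb_dif.2 ⟨hkZ, hkR⟩, hki⟩, ((rc_F h).1 hiF).1⟩)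
        exact uc_safe h hp hY hsafe (hia ▸ ha)
      · obtain ⟨-, hjn, -, hji⟩ := jp_lt hJ.wf (by omega) (by omega) hij
        have hjZ := (hJ.out j i (by omega) hji).1
        rw [← hjw, v_mem_img hC hZ hjn, hjZ] at hwZ
        exact Bool.noConfusion hwZ
  have hconn : Conn (GJ G f u.J) Y := by
    rw [conn_congr fun a ha b _ => hA a ha b]
    obtain ⟨v, -, rfl⟩ := hY.cmp
    exact comp_conn
  have hX : cX G S f u.R u.J u.p = Y := comp_eq_of_closed_conn hcl hconn hpY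
  have hno : ∀ i, i < C.n → f i ∈ Y →
      tb (Nat.lor u.P0 (nb C.A (dif u.Dd (rD C R)))) i = true → False := by
    intro i hi hiY hb
    have hiZ : tb (rZ R dl) i = false := by
      by_contra hc
      rw [Bool.not_eq_false] at hc
      exact (mem_sdiff.1 (hYZ hiY)).2 ((v_mem_img hC hZ hi).2 hc)
    have hP : tb (dif (Nat.lor u.P0 (nb C.A (dif u.Dd (rD C R))))
        (Nat.lor (rZ R dl) (pSafe C Mk ps))) i = true := by
      refine tb_dif.2 ⟨hb, ?_⟩
      by_contra hc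
      rw [Bool.not_eq_false] at hc
      rcases tb_lor.1 hc with hc | hc
      · rw [hiZ] at hc
        exact Bool.noConfusion hc
      · exact uc_safe h hp hY hc hiY
    unfold pfA at ce
    cases h0 : tb (orL id (pJ C J Mk ps)) u.p with
    | true =>
      rw [h0, cond_true, Bool.and_eq_true, Nat.beq_eq, Nat.beq_eq] at ce
      rw [ce.2, tb_zero] at hP
      exact Bool.noConfusion hP
    | false =>
      rw [h0, cond_false] at ce
      have hsJ := hnj h0
      rcases tb_lor.1 (sub_iff.1 ce i hP) with hc | hc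
      · obtain ⟨s', hs', hi'⟩ := tb_orL.1 hc
        exact h1 hsJ s' hs' ⟨i, hi', hiY⟩
      · cases h3 : tb (orL id (filL (fun s => !(dj s Pay)) (pN C J Mk ps))) u.p with
        | true =>
          rw [h3, cond_true, tb_zero] at hc
          exact Bool.noConfusion hc
        | false =>
          rw [h3, cond_false] at hc
          obtain ⟨s', hs', hi'⟩ := tb_orL.1 hc
          rw [filL_eq, List.mem_filter] at hs'
          refine h2 hsJ ?_ s' hs'.1 (by simpa using hs'.2) ⟨i, hi', hiY⟩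
          by_contra hc'
          have hsN : s ∈ pN C J Mk ps := de_mem_pN.2 ⟨hs, by
            by_contra h4
            exact hsJ (de_mem_pJ.2 ⟨hs, by simpa using h4⟩)⟩
          have : tb (orL id (filL (fun s => !(dj s Pay)) (pN C J Mk ps))) u.p = true :=
            tb_orL.2 ⟨s, by rw [filL_eq, List.mem_filter]; exact ⟨hsN, by simpa using hc'⟩, hsp⟩
          rw [h3] at this
          exact Bool.noConfusion this
  have halt := hU.alt
  rw [hX] at halt
  rcases halt with ⟨i, hi, hiY⟩ | ⟨y, hy, hyM⟩ | ⟨y, hy, i, hi, hadj⟩ | hc | ⟨-, hv⟩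
  · exact (hno i (hU.ltP i hi) hiY (tb_lor.2 (Or.inl hi))).elim
  · exact (hY.unm y hy (mem_filter.2 ⟨(mem_sdiff.1 (hYZ hy)).1, Or.inl hyM⟩)).elim
  · exfalso
    have hiR := hU.dR i hi
    have hin := hU.ltR i hiR
    cases h3 : tb (rD C R) i with
    | true =>
      exact hY.unm y hy (mem_filter.2 ⟨(mem_sdiff.1 (hYZ hy)).1, Or.inr (Or.inr ⟨i, h3, hadj⟩)⟩)
    | false =>
      have hiY : f i ∉ Y := fun hc =>
        (mem_sdiff.1 (hYZ hc)).2 ((v_mem_img hC hZ hin).2 (ca' i hiR))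
      obtain ⟨i', k, -, -, hki, hiy, hkw⟩ := uc_edge h hY hy (hC.mem i hin) hiY hadj
      obtain ⟨hkn, hin'⟩ := hC.rlt k i' hki
      have hk : k = i := hC.inj k hkn i hin hkw
      subst hk
      refine hno i' hin' (hiy ▸ hy) (tb_lor.2 (Or.inr ((tb_nb fun t ht => ?_).2
        ⟨k, tb_dif.2 ⟨hi, h3⟩, hki⟩)))
      have := hU.ltR t (hU.dR t (tb_dif.1 ht).1)
      omega
  · obtain ⟨v, hv, hd⟩ := hn
    exact (hc ⟨v, hv, by rwa [gc_deg_congr (fun a ha b _ => hA a ha b) hv]⟩).elim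
  · rwa [val_congr_graph fun a ha b _ => hA a ha b] at hv

/-- the meaning of a bit of `pZ` -/
theorem de_pZ (h : RC G S M Γ C f R J Mk dl) (hp : PcsOK G S C f R J dl ps)
    (hY : UC G S M C f R J Mk dl Y) (hn : NonCub (GJ G f J) Y) (hs : s ∈ pU C Mk ps)
    (hh : Hit f s Y) (h1 : s ∉ pJ C J Mk ps → ∀ s' ∈ pJ C J Mk ps, ¬ Hit f s' Y)
    (h2 : s ∉ pJ C J Mk ps → dj s Pay = true →
      ∀ s' ∈ pN C J Mk ps, dj s' Pay = false → ¬ Hit f s' Y) (hi : tb s i = true)
    (hz : tb (row (pZ C R J Mk Pay dl ps) r) i = true) :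
    val (GJ G f J) Y ∅ ≤ 2 * r := by
  obtain ⟨hi64, hb⟩ := tb_row.1 hz
  rw [← tb_eq] at hb
  obtain ⟨u, hu, hb⟩ := tb_orL.1 hb
  have hpn := (h.ctx.val.pf u hu).pn
  have hn62 := h.ctx.val.n_le
  revert hb
  unfold pfZ
  refine de_cond (P := fun z => tb z (64 * r + i) = true → val (GJ G f J) Y ∅ ≤ 2 * r)
    (fun hc hb => ?_) (fun _ hb => by rw [tb_zero] at hb; exact Bool.noConfusion hb)
  simp only [Bool.and_eq_true, Bool.or_eq_true, Nat.beq_eq] at hc
  obtain ⟨⟨⟨⟨ca, cb⟩, -⟩, cd⟩, ce⟩ := hc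
  have key : u.p = i ∧ u.th ≤ 100 + 2 * r := by
    rcases tb_lor.1 hb with hb | hb
    · revert hb
      refine de_cond (P := fun z => tb z (64 * r + i) = true → u.p = i ∧ u.th ≤ 100 + 2 * r)
        (fun hc hb => ?_) (fun _ hb => by rw [tb_zero] at hb; exact Bool.noConfusion hb)
      have := tb_bit.1 hb
      have := Nat.le_of_ble_eq_true hc
      omega
    · revert hb
      refine de_cond (P := fun z => tb z (64 * r + i) = true → u.p = i ∧ u.th ≤ 100 + 2 * r)
        (fun hc hb => ?_) (fun _ hb => by rw [tb_zero] at hb; exact Bool.noConfusion hb)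
      have h3 : 64 * r + i = u.p + 64 := tb_bit.1 hb
      have := Nat.le_of_ble_eq_true hc
      omega
  have := de_pf h hp hY hn hs hh h1 h2 hu (key.1 ▸ hi) ca cb cd ce
  have h4 := key.2
  omega

/-- the piece `s` is chosen for `Y`: pieces with a join end first, then paid pieces -/
theorem uc_bnd (h : RC G S M Γ C f R J Mk dl) (hp : PcsOK G S C f R J dl ps)
    (hY : UC G S M C f R J Mk dl Y) (hn : NonCub (GJ G f J) Y) (hs : s ∈ pU C Mk ps)
    (hh : Hit f s Y) (h1 : s ∉ pJ C J Mk ps → ∀ s' ∈ pJ C J Mk ps, ¬ Hit f s' Y)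
    (h2 : s ∉ pJ C J Mk ps → dj s Pay = true →
      ∀ s' ∈ pN C J Mk ps, dj s' Pay = false → ¬ Hit f s' Y) :
    val (GJ G f J) Y ∅ ≤ pB Γ C R J Mk Pay dl ps s := by
  have hC := h.ctx.val
  have hZ64 : Lt (rZ R dl) 64 := (v_lt64 hC (rc_ltZ h)).2
  have hsp := de_mem_ps hs
  have hlt : Lt s C.n := fun i hi => (tb_rK.1 (hp.inK s hsp i hi)).1
  have hin : ∀ i, tb s i = true → f i ∈ Y := fun i hi => uc_piece hp hY hsp hh hi
  have hcc : val (GJ G f J) Y ∅ ≤ cc (GJ G f J) Y (rM G S M C f R Mk) := by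
    rw [← val_congr_marks (M := rM G S M C f R Mk) fun a ha => by simp [hY.unm a ha]]
    obtain ⟨v, -, rfl⟩ := hY.cmp
    exact comp_val_le h.ctx.mc.ih (rc_card h) (rc_good h) hn
  have h4 : val (GJ G f J) Y ∅ ≤ ((4 : ℕ) : ℤ) := hcc.trans (by exact_mod_cast cc_le_four)
  have hH : ¬ Heavy (GJ G f J) Y → val (GJ G f J) Y ∅ ≤ ((2 : ℕ) : ℤ) := fun hh =>
    hcc.trans (by exact_mod_cast cc_le_two hh)
  unfold pB bnd
  refine de_cond (P := fun z : ℕ => val (GJ G f J) Y ∅ ≤ (z : ℤ)) (fun _ => ?_) (fun h0 => ?_)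
  · refine de_cond (P := fun z : ℕ => val (GJ G f J) Y ∅ ≤ (z : ℤ)) (fun hc => ?_) fun _ => h4
    simp only [Bool.or_eq_true, Bool.and_eq_true, Bool.not_eq_eq_eq_not, Bool.not_true] at hc
    rcases hc with (hc | ⟨⟨hk, hk'⟩, hc⟩) | hc
    · obtain ⟨i, hi, hz⟩ := dj_false_iff.1 hc
      rcases tb_lor.1 hz with hz | hz
      · simpa using de_pZ h hp hY hn hs hh h1 h2 hi hz
      · refine hH fun hv => ?_
        have e1 := (v_e1 hC (hlt i hi) hZ64).1 hz
        have e2 := uc_deg h hY (hlt i hi) (hin i hi)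
        have e3 := heavy_deg hv (hin i hi)
        omega
    · obtain ⟨i, hi, hz⟩ := sub_false_iff.1 hc
      refine hH fun hv => ?_
      have e1 : ¬ dg C i + jn J C.n i ≤ cn C.A (rZ R dl) i + 2 := fun h3 => by
        have := (v_e2 hC (hlt i hi) hZ64).2 h3
        unfold rT rX at hz
        rw [hz] at this
        exact Bool.noConfusion this
      have e2 := uc_deg h hY (hlt i hi) (hin i hi)
      have e3 := (good_closed (rc_good h) (uc_closed hY) _ (hin i hi)).1
      have e4 := uc_nojoin h hp hY (h1 fun hc => by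
        rw [(de_mem_pJ.1 hc).2] at hk'
        exact Bool.noConfusion hk')
      exact h.ctx.gam.nok hk (KX_mono (heavy_KX hv (hin i hi) (by omega))
        ((uc_sub hY).trans da_sub) (fun a ha b _ e => (e4.2 a ha b).1 e) (mc_deg3 h.ctx.mc))
    · refine hH fun hv => ?_
      have e1 := Nat.le_of_ble_eq_true hc
      have e2 := v_card_img hC hlt
      have e3 := heavy_card hv
      have e4 : (img f s).card ≤ Y.card := card_le_card fun y hy => by
        obtain ⟨i, -, hi, rfl⟩ := mem_img.1 hy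
        exact hin i hi
      omega
  · obtain ⟨i, hi, hz⟩ := dj_false_iff.1 h0
    simpa using de_pZ h hp hY hn hs hh h1 h2 hi hz

end Pool.Agent.Lib.MP_5a2675_co.D7
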