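import Mathlib
import Pool.Agent.Lib.MP_5a2675_co.D7.Base

set_option autoImplicit false

namespace Pool.Agent.Lib.MP_5a2675_co.D7

open Finset
open Classical

variable {G G' : SimpleGraph ℕ} {S S' M M' X D : Finset ℕ} {v w : ℕ}

/-- abstract charging: `C` are the bad components, `I` the pieces -/
theorem charge_bound {α β : Type} (C : Finset α) (I : Finset β) (x : α → ℤ) (b : β → ℕ)
    (J : β → Prop) (φ : α → β) (q : ℕ) (hφ : ∀ c ∈ C, φ c ∈ I)
    (hinj : ∀ c ∈ C, ∀ d ∈ C, φ c = φ d → c = d) (hx : ∀ c ∈ C, x c ≤ b (φ c))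
    (hb : ∀ i ∈ I, ¬ J i → b i = 0 ∨ b i = 2 ∨ b i = 4)
    (hq : (C.filter fun c => ¬ J (φ c)).card ≤ q) :
    ∑ c ∈ C, x c ≤ (∑ i ∈ I.filter J, b i : ℕ) +
      (2 * min (I.filter fun i => ¬ J i ∧ 0 < b i).card q +
        2 * min (I.filter fun i => ¬ J i ∧ 2 < b i).card q : ℕ) := by
  have key : ∀ t : ℕ, (C.filter fun c => ¬ J (φ c) ∧ t < b (φ c)).card ≤
      min (I.filter fun i => ¬ J i ∧ t < b i).card q := fun t => by
    refine le_min ?_ (le_trans (card_le_card fun c hc => ?_) hq)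
    · refine card_le_card_of_injOn φ (fun c hc => ?_) (fun c hc d hd h => ?_)
      · have hc' := mem_filter.1 (mem_coe.1 hc)
        exact mem_coe.2 (mem_filter.2 ⟨hφ c hc'.1, hc'.2⟩)
      · exact hinj c (mem_filter.1 (mem_coe.1 hc)).1 d (mem_filter.1 (mem_coe.1 hd)).1 h
    · have hc' := mem_filter.1 hc
      exact mem_filter.2 ⟨hc'.1, hc'.2.1⟩
  have h1 : ∑ c ∈ C.filter (fun c => J (φ c)), b (φ c) ≤ ∑ i ∈ I.filter J, b i := by
    rw [← sum_image (s := C.filter fun c => J (φ c)) (g := φ) (f := b)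
      (fun c hc d hd h => hinj c (mem_filter.1 (mem_coe.1 hc)).1 d
        (mem_filter.1 (mem_coe.1 hd)).1 h)]
    refine sum_le_sum_of_subset fun i hi => ?_
    obtain ⟨c, hc, rfl⟩ := mem_image.1 hi
    exact mem_filter.2 ⟨hφ c (mem_filter.1 hc).1, (mem_filter.1 hc).2⟩
  have h2 : ∑ c ∈ C, b (φ c) ≤ ∑ c ∈ C, ((if J (φ c) then b (φ c) else 0) +
      (2 * (if ¬ J (φ c) ∧ 0 < b (φ c) then 1 else 0) +
        2 * (if ¬ J (φ c) ∧ 2 < b (φ c) then 1 else 0))) := by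
    refine sum_le_sum fun c hc => ?_
    by_cases hJ : J (φ c)
    · simp [hJ]
    · rcases hb _ (hφ c hc) hJ with h | h | h <;> simp [hJ, h]
  rw [sum_add_distrib, sum_add_distrib, ← mul_sum, ← mul_sum, ← sum_filter, ← card_filter,
    ← card_filter] at h2
  have h3 : ∑ c ∈ C, x c ≤ ((∑ c ∈ C, b (φ c) : ℕ) : ℤ) := by
    push_cast
    exact sum_le_sum hx
  have k0 := key 0
  have k2 := key 2
  refine h3.trans ?_
  rw [← Nat.cast_add]
  exact Int.ofNat_le.2 (by omega)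

end Pool.Agent.Lib.MP_5a2675_co.D7
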