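import Mathlib
import Pool.Agent.Lib.MP_5a2675_co.D7.DE
import Pool.Agent.Lib.MP_5a2675_co.D7.GD

set_option autoImplicit false

namespace Pool.Agent.Lib.MP_5a2675_co.D7

open Finset
open Classical

variable {G G' : SimpleGraph ℕ} {S S' M X : Finset ℕ} {Γ : Gam} {C : Cfg} {f g : ℕ → ℕ}
  {a b c i j k l m n q r s t v w x y A J R Z Mk : ℕ}

variable {dl : List (Blob × ℕ)} {ps : List ℕ} {Pay : ℕ}

theorem df_pN {s : ℕ} : s ∈ pN C J Mk ps ↔ s ∈ pU C Mk ps ∧ s ∉ pJ C J Mk ps := by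
  unfold pN pJ
  rw [filL_eq, filL_eq, List.mem_filter, List.mem_filter]
  cases dj s (rJ C J) <;> simp

theorem df_pU {s : ℕ} (h : s ∈ pU C Mk ps) : s ∈ ps := by
  unfold pU at h
  rw [filL_eq] at h
  exact (List.mem_filter.1 h).1

theorem df_pJ {s : ℕ} (h : s ∈ pJ C J Mk ps) : s ∈ pU C Mk ps := by
  unfold pJ at h
  rw [filL_eq] at h
  exact (List.mem_filter.1 h).1

theorem df_eq {Y Y' : Finset ℕ} (hY : UC G S M C f R J Mk dl Y) (hY' : UC G S M C f R J Mk dl Y')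
    (hx : x ∈ Y) (hx' : x ∈ Y') : Y = Y' := by
  obtain ⟨u, -, rfl⟩ := hY.cmp
  obtain ⟨u', -, rfl⟩ := hY'.cmp
  rw [← comp_eq_of_mem hx, ← comp_eq_of_mem hx']

theorem df_eq_hit {Y Y' : Finset ℕ} (hp : PcsOK G S C f R J dl ps)
    (hY : UC G S M C f R J Mk dl Y) (hY' : UC G S M C f R J Mk dl Y') (hs : s ∈ ps)
    (h1 : Hit f s Y) (h2 : Hit f s Y') : Y = Y' := by
  obtain ⟨i, hi, hx⟩ := h1
  exact df_eq hY hY' hx (uc_piece hp hY' hs h2 hi)

/-- components that are met by pieces of a list are at most as many as the pieces -/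
theorem df_card (hp : PcsOK G S C f R J dl ps) {B : Finset (Finset ℕ)} {L : List ℕ}
    (hL : ∀ s ∈ L, s ∈ ps) (hB : ∀ Y ∈ B, UC G S M C f R J Mk dl Y ∧ ∃ s ∈ L, Hit f s Y) :
    B.card ≤ L.length := by
  choose! φ hφ hh using fun Y hY => (hB Y hY).2
  refine le_trans (card_le_card_of_injOn φ (t := L.toFinset) (fun Y hY => ?_)
    (fun Y hY Y' hY' e => ?_)) (List.toFinset_card_le L)
  · exact mem_coe.2 (List.mem_toFinset.2 (hφ Y hY))
  · exact df_eq_hit hp (hB Y hY).1 (hB Y' hY').1 (hL _ (hφ Y hY)) (hh Y hY) (e ▸ hh Y' hY')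

theorem df_F_lt (h : RC G S M Γ C f R J Mk dl) (hi : tb (rF C R dl) i = true) : i < C.n :=
  (tb_rK.1 ((rc_F h).1 hi).1).1

/-- a frontier vertex of the component lies in a piece without join ends -/
theorem df_piece {Y : Finset ℕ} (h : RC G S M Γ C f R J Mk dl) (hp : PcsOK G S C f R J dl ps)
    (hY : UC G S M C f R J Mk dl Y) (hj : ∀ s ∈ pJ C J Mk ps, ¬ Hit f s Y)
    (hi : tb (rF C R dl) i = true) (hx : f i ∈ Y) : ∃ s ∈ pN C J Mk ps, tb s i = true := by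
  obtain ⟨s, hs, hsi⟩ := hp.cov i hi
  exact ⟨s, df_pN.2 ⟨uc_pU h hp hY hs ⟨i, hsi, hx⟩, fun hJ => hj s hJ ⟨i, hsi, hx⟩⟩, hsi⟩

theorem df_ltP (hp : PcsOK G S C f R J dl ps) : Lt (orL id (pN C J Mk ps)) C.n := by
  intro i hi
  obtain ⟨s, hs, hsi⟩ := tb_orL.1 hi
  exact (tb_rK.1 (hp.inK s (df_pU (df_pN.1 hs).1) i hsi)).1

theorem df_cut {Y : Finset ℕ} (h : RC G S M Γ C f R J Mk dl) (hp : PcsOK G S C f R J dl ps)
    (hY : UC G S M C f R J Mk dl Y) (hj : ∀ s ∈ pJ C J Mk ps, ¬ Hit f s Y) :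
    cut G S Y ≤ ∑ i ∈ (bits (orL id (pN C J Mk ps))).filter (fun i => f i ∈ Y),
      cn C.A (rZ R dl) i := by
  have hV := h.ctx.val
  have hZ := (v_lt64 hV (rc_ltZ h)).2
  have hP := df_ltP (J := J) (Mk := Mk) hp
  have hP' := (v_lt64 hV hP).2
  set I := (bits (orL id (pN C J Mk ps))).filter (fun i => f i ∈ Y) with hI
  have hlt : ∀ i ∈ I, i < C.n := fun i hi => hP i (mem_bits.1 (mem_filter.1 hi).1).2
  have h1 : cut G S Y = ∑ v ∈ I.image f, (N G (S \ Y) v).card := by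
    unfold cut
    refine (sum_subset (fun v hv => ?_) (fun v hv hn => ?_)).symm
    · obtain ⟨i, hi, rfl⟩ := mem_image.1 hv
      exact (mem_filter.1 hi).2
    · refine card_eq_zero.2 (eq_empty_of_forall_notMem fun w hw => hn ?_)
      obtain ⟨hw1, hw2⟩ := mem_N.1 hw
      obtain ⟨i, k, hi, -, -, rfl, -⟩ :=
        uc_edge h hY hv (mem_sdiff.1 hw1).1 (mem_sdiff.1 hw1).2 hw2
      obtain ⟨s, hs, hsi⟩ := df_piece h hp hY hj hi hv
      exact mem_image.2 ⟨i, mem_filter.2 ⟨(mem_bits' hP').2 (tb_orL.2 ⟨s, hs, hsi⟩), hv⟩, rfl⟩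
  rw [h1, sum_image fun i hi j hj e => hV.inj i (hlt i hi) j (hlt j hj) e]
  refine sum_le_sum fun i hi => ?_
  refine le_trans (card_le_card (t := ((bits (rZ R dl)).filter
    fun k => tb (row C.A k) i = true).image f) fun w hw => ?_) card_image_le
  obtain ⟨hw1, hw2⟩ := mem_N.1 hw
  obtain ⟨i', k, hi', hk, hr, e, rfl⟩ :=
    uc_edge h hY (mem_filter.1 hi).2 (mem_sdiff.1 hw1).1 (mem_sdiff.1 hw1).2 hw2
  obtain rfl := hV.inj i' (df_F_lt h hi') i (hlt i hi) e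
  exact mem_image.2 ⟨k, mem_filter.2 ⟨(mem_bits' hZ).2 hk, hr⟩, rfl⟩

theorem df_sum (h : RC G S M Γ C f R J Mk dl) (hp : PcsOK G S C f R J dl ps)
    {B : Finset (Finset ℕ)}
    (hB : ∀ Y ∈ B, UC G S M C f R J Mk dl Y ∧ ∀ s ∈ pJ C J Mk ps, ¬ Hit f s Y) :
    ∑ Y ∈ B, cut G S Y ≤ cnt3 (rT C R dl) (orL id (pN C J Mk ps)) := by
  have hV := h.ctx.val
  have hP := df_ltP (J := J) (Mk := Mk) hp
  unfold rT
  rw [cnt3_eq (v_lt64 hV (rc_ltZ h)).2 (v_lt64 hV hP).1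
    fun i hi => (v_cn_le hV (hP i hi)).trans dg_le.2]
  refine le_trans (sum_le_sum fun Y hY => df_cut h hp (hB Y hY).1 (hB Y hY).2) ?_
  rw [← sum_biUnion]
  · exact sum_le_sum_of_subset (biUnion_subset.2 fun Y _ => filter_subset _ _)
  · intro Y hY Y' hY' hne
    refine disjoint_left.2 fun i hi hi' => hne ?_
    exact df_eq (hB Y hY).1 (hB Y' hY').1 (mem_filter.1 hi).2 (mem_filter.1 hi').2

theorem df_prop {Y : Finset ℕ} (h : RC G S M Γ C f R J Mk dl) (hY : UC G S M C f R J Mk dl Y) :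
    Y ⊆ S ∧ Y.Nonempty ∧ Y ≠ S := by
  have h1 := uc_sub hY
  refine ⟨h1.trans (filter_subset _ _), ?_, fun e => ?_⟩
  · obtain ⟨u, hu, rfl⟩ := hY.cmp
    exact ⟨u, mem_comp_self hu⟩
  · have h2 := card_le_card h1
    have h3 := rc_card h
    rw [e] at h2
    omega

/-- a bad component with a small cut meets a piece with a vertex of new degree at most one -/
theorem df_low {Y : Finset ℕ} (h : RC G S M Γ C f R J Mk dl) (hp : PcsOK G S C f R J dl ps)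
    (hY : UC G S M C f R J Mk dl Y) (hv : 0 < val (GJ G f J) Y ∅)
    (hj : ∀ s ∈ pJ C J Mk ps, ¬ Hit f s Y) (h2 : 2 ≤ Γ.j0) (hc : cut G S Y ≤ Γ.j0) :
    ∃ s ∈ (pN C J Mk ps).filter (fun s => !(dj s (e1 C (rT C R dl) (rX C J)))), Hit f s Y := by
  have hV := h.ctx.val
  obtain ⟨hcut, hdeg⟩ := h.ctx.gam.jl.2 h2
  obtain ⟨p1, p2, p3⟩ := df_prop h hY
  have hadj : ∀ a ∈ Y, ∀ b ∈ Y, (GJ G f J).Adj a b ↔ G.Adj a b :=
    fun a ha b _ => (uc_nojoin h hp hY hj).2 a ha b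
  have hconn : Conn G Y := by
    refine (conn_congr hadj).1 ?_
    obtain ⟨u, -, rfl⟩ := hY.cmp
    exact comp_conn
  rw [val_congr_graph hadj] at hv
  obtain ⟨v, hvY, hlow⟩ : ∃ v ∈ Y, deg G Y v < 2 := by
    by_contra hcon
    push Not at hcon
    exact absurd (hcut Y p1 p2 p3 hconn hc hcon) (not_le.2 hv)
  obtain ⟨w, hw, hwY⟩ : ∃ w ∈ N G S v, w ∉ Y := by
    by_contra hcon
    push Not at hcon
    have : deg G S v ≤ deg G Y v :=
      card_le_card fun w hw => mem_N.2 ⟨hcon w hw, (mem_N.1 hw).2⟩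
    have := hdeg v (p1 hvY)
    omega
  obtain ⟨i, k, hi, -, -, rfl, -⟩ := uc_edge h hY hvY (mem_N.1 hw).1 hwY (mem_N.1 hw).2
  obtain ⟨s, hs, hsi⟩ := df_piece h hp hY hj hi hvY
  refine ⟨s, List.mem_filter.2 ⟨hs, ?_⟩, i, hsi, hvY⟩
  have hd := uc_deg h hY (df_F_lt h hi) hvY
  rw [gc_deg_congr hadj hvY] at hd
  have he : tb (e1 C (rT C R dl) (rX C J)) i = true :=
    (v_e1 hV (df_F_lt h hi) (v_lt64 hV (rc_ltZ h)).2).2 (by omega)
  rw [dj_false_iff.2 ⟨i, hsi, he⟩]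
  rfl

theorem df_arith {j0 sl L b1 b2 : ℕ} (hj : 1 ≤ j0) (h1 : b1 ≤ L)
    (h2 : 2 * b1 + (j0 + 1) * b2 ≤ sl) : b1 + b2 ≤ qv j0 sl L := by
  obtain ⟨j, rfl⟩ : ∃ j, j0 = j + 1 := ⟨j0 - 1, by omega⟩
  have e : qv (j + 1) sl L = (sl + j * min L (sl / 2)) / (j + 2) := by
    rw [← mn_eq]
    rfl
  rw [e, Nat.le_div_iff_mul_le (by omega)]
  have h3 : b1 ≤ min L (sl / 2) := le_min h1 (by omega)
  have h4 := Nat.mul_le_mul_left j h3
  nlinarith

/-- the number of bad components without join ends -/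
theorem uc_count (h : RC G S M Γ C f R J Mk dl) (hp : PcsOK G S C f R J dl ps)
    {B : Finset (Finset ℕ)}
    (hB : ∀ Y ∈ B, UC G S M C f R J Mk dl Y ∧ 0 < val (GJ G f J) Y ∅ ∧
      ∀ s ∈ pJ C J Mk ps, ¬ Hit f s Y) :
    B.card ≤ qv Γ.j0 (cnt3 (rT C R dl) (orL id (pN C J Mk ps)))
      (cntL (fun s => !(dj s (e1 C (rT C R dl) (rX C J)))) (pN C J Mk ps)) := by
  rcases Nat.eq_zero_or_pos Γ.j0 with h0 | h0
  · rw [h0]
    refine le_trans (df_card hp (fun _ hs => hs) fun Y hY => ⟨(hB Y hY).1, ?_⟩) hp.len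
    obtain ⟨s, hs, hh⟩ := uc_hit h hp (hB Y hY).1
    exact ⟨s, df_pU hs, hh⟩
  have hnb := h.ctx.gam.jl.1 h0
  have h2 : ∀ Y ∈ B, 2 ≤ cut G S Y := fun Y hY => by
    obtain ⟨p1, p2, p3⟩ := df_prop h (hB Y hY).1
    exact hnb Y p1 p2 p3
  rw [← card_filter_add_card_filter_not (s := B) (fun Y => cut G S Y ≤ Γ.j0), cntL_eq]
  refine df_arith h0 (df_card (M := M) (Mk := Mk) hp (fun s hs => df_pU (df_pN.1 (List.mem_filter.1 hs).1).1)
    fun Y hY => ?_) ?_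
  · obtain ⟨hY, hc⟩ := mem_filter.1 hY
    have := h2 Y hY
    exact ⟨(hB Y hY).1, df_low h hp (hB Y hY).1 (hB Y hY).2.1 (hB Y hY).2.2 (by omega) hc⟩
  · refine le_trans ?_ (df_sum h hp fun Y hY => ⟨(hB Y hY).1, (hB Y hY).2.2⟩)
    rw [← sum_filter_add_sum_filter_not B (fun Y => cut G S Y ≤ Γ.j0)]
    refine add_le_add ?_ ?_
    · rw [mul_comm, ← smul_eq_mul]
      exact card_nsmul_le_sum _ _ _ fun Y hY => h2 Y (mem_filter.1 hY).1
    · rw [mul_comm, ← smul_eq_mul]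
      exact card_nsmul_le_sum _ _ _ fun Y hY => by
        have := (mem_filter.1 hY).2
        omega

theorem df_bnd {kf : Bool} {z0 z2 E2 : ℕ} :
    bnd kf z0 z2 E2 s = 0 ∨ bnd kf z0 z2 E2 s = 2 ∨ bnd kf z0 z2 E2 s = 4 := by
  unfold bnd
  cases dj s z0 <;> cases (!(dj s z2) || (kf && !(sub s E2)) || Nat.ble 11 (pop s)) <;> simp

theorem df_choose {Y : Finset ℕ} (h : RC G S M Γ C f R J Mk dl) (hp : PcsOK G S C f R J dl ps)
    (hY : UC G S M C f R J Mk dl Y) (Pay : ℕ) :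
    ∃ s ∈ pU C Mk ps, Hit f s Y ∧ (s ∉ pJ C J Mk ps → ∀ s' ∈ pJ C J Mk ps, ¬ Hit f s' Y) ∧
      (s ∉ pJ C J Mk ps → dj s Pay = true →
        ∀ s' ∈ pN C J Mk ps, dj s' Pay = false → ¬ Hit f s' Y) := by
  by_cases h1 : ∃ s ∈ pJ C J Mk ps, Hit f s Y
  · obtain ⟨s, hs, hh⟩ := h1
    exact ⟨s, df_pJ hs, hh, fun hn => absurd hs hn, fun hn => absurd hs hn⟩
  push Not at h1
  by_cases h2 : ∃ s ∈ pN C J Mk ps, dj s Pay = false ∧ Hit f s Y
  · obtain ⟨s, hs, hd, hh⟩ := h2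
    exact ⟨s, (df_pN.1 hs).1, hh, fun _ => h1, fun _ hd' => by rw [hd] at hd'; cases hd'⟩
  push Not at h2
  obtain ⟨s, hs, hh⟩ := uc_hit h hp hY
  exact ⟨s, hs, hh, fun _ => h1, fun _ _ => h2⟩

theorem df_sumL (b : ℕ → ℕ) {I : Finset ℕ} {L : List ℕ} (h : ∀ s ∈ I, s ∈ L) :
    ∑ s ∈ I, b s ≤ sumL b L := by
  rw [sumL_eq]
  refine le_trans (sum_le_sum_of_subset (t := L.toFinset)
    fun s hs => List.mem_toFinset.2 (h s hs)) ?_
  clear h
  induction L with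
  | nil => simp
  | cons a L ih =>
    rw [List.toFinset_cons, List.map_cons, List.sum_cons]
    by_cases ha : a ∈ L.toFinset
    · rw [insert_eq_of_mem ha]
      omega
    · rw [sum_insert ha]
      omega

theorem df_cntL (p : ℕ → Bool) {I : Finset ℕ} {L : List ℕ} (h : ∀ s ∈ I, s ∈ L ∧ p s = true) :
    I.card ≤ cntL p L := by
  rw [cntL_eq]
  exact le_trans (card_le_card fun s hs => List.mem_toFinset.2 (List.mem_filter.2 (h s hs)))
    (List.toFinset_card_le _)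

theorem red_chg (h : RC G S M Γ C f R J Mk dl) (hp : PcsOK G S C f R J dl ps)
    (hw : ∀ Y, UC G S M C f R J Mk dl Y → NonCub (GJ G f J) Y) :
    val (GJ G f J) (rS G S f R dl) (rM G S M C f R Mk) ≤
      tot1 Γ C J (rZ R dl) (rK C R dl) (rD C R) Pay (rT C R dl) (e1 C (rT C R dl) (rX C J))
        (e2 C (rT C R dl) (rX C J)) (pSafe C Mk ps) (pJ C J Mk ps) (pN C J Mk ps) := by
  have hg := rc_good h
  choose! φ h1 h2 h3 h4 using fun Y (hY : UC G S M C f R J Mk dl Y) => df_choose h hp hY Pay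
  set K := (rS G S f R dl).image (comp (GJ G f J) (rS G S f R dl)) with hK
  set Cs := K.filter fun Y => UC G S M C f R J Mk dl Y ∧ 0 < val (GJ G f J) Y ∅ with hCs
  have hU : ∀ Y ∈ Cs, UC G S M C f R J Mk dl Y := fun Y hY => (mem_filter.1 hY).2.1
  have hm : ∀ Y, UC G S M C f R J Mk dl Y →
      val (GJ G f J) Y (rM G S M C f R Mk) = val (GJ G f J) Y ∅ := fun Y hY =>
    val_congr_marks fun a ha => ⟨fun hx => absurd hx (hY.unm a ha), fun hx => absurd hx (notMem_empty a)⟩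
  have s1 : val (GJ G f J) (rS G S f R dl) (rM G S M C f R Mk) ≤
      ∑ Y ∈ Cs, val (GJ G f J) Y ∅ := by
    refine (val_le_sum fun a ha => (hg a ha).1).trans ?_
    rw [hCs, sum_filter]
    refine sum_le_sum fun Y hY => ?_
    by_cases hu : UC G S M C f R J Mk dl Y
    · rw [hm Y hu]
      split_ifs with hc
      · exact le_rfl
      · exact not_lt.1 fun hv => hc ⟨hu, hv⟩
    · rw [if_neg fun hc => hu hc.1]
      obtain ⟨a, ha, rfl⟩ := mem_image.1 hY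
      obtain ⟨b, hb, hbM⟩ : ∃ b ∈ comp (GJ G f J) (rS G S f R dl) a, b ∈ rM G S M C f R Mk := by
        by_contra hcon
        push Not at hcon
        exact hu ⟨⟨a, ha, rfl⟩, hcon⟩
      have h2 := (good_closed hg comp_closed b hb).2 hbM
      have h5 := comp_val_le (v := a) h.ctx.mc.ih (rc_card h) hg ⟨b, hb, by omega⟩
      rwa [gc_cc_zero hb hbM] at h5
  obtain ⟨JP, hJP⟩ : ∃ JP : ℕ → Prop, ∀ s, JP s ↔ s ∈ pJ C J Mk ps := ⟨_, fun _ => Iff.rfl⟩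
  have s2 := charge_bound Cs (pU C Mk ps).toFinset (fun Y => val (GJ G f J) Y ∅)
    (pB Γ C R J Mk Pay dl ps) JP φ _
    (fun Y hY => List.mem_toFinset.2 (h1 Y (hU Y hY)))
    (fun Y hY Y' hY' e => df_eq_hit hp (hU Y hY) (hU Y' hY') (df_pU (h1 Y (hU Y hY)))
      (h2 Y (hU Y hY)) (e ▸ h2 Y' (hU Y' hY')))
    (fun Y hY => uc_bnd h hp (hU Y hY) (hw Y (hU Y hY)) (h1 Y (hU Y hY))
      (h2 Y (hU Y hY)) (h3 Y (hU Y hY)) (h4 Y (hU Y hY)))
    (fun _ _ _ => df_bnd)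
    (uc_count h hp fun Y hY => ⟨hU Y (mem_filter.1 hY).1, (mem_filter.1 (mem_filter.1 hY).1).2.2,
      h3 Y (hU Y (mem_filter.1 hY).1) fun hc => (mem_filter.1 hY).2 ((hJP _).2 hc)⟩)
  refine (s1.trans s2).trans ?_
  rw [← Nat.cast_add]
  refine Int.ofNat_le.2 ?_
  change _ ≤ sumL (pB Γ C R J Mk Pay dl ps) (pJ C J Mk ps) +
    (2 * mn (cntL (fun s => Nat.ble 1 (pB Γ C R J Mk Pay dl ps s)) (pN C J Mk ps)) _ +
      2 * mn (cntL (fun s => Nat.ble 3 (pB Γ C R J Mk Pay dl ps s)) (pN C J Mk ps)) _)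
  rw [mn_eq, mn_eq]
  refine add_le_add (df_sumL _ fun s hs => (hJP _).1 (mem_filter.1 hs).2) (add_le_add
    (Nat.mul_le_mul_left 2 (min_le_min_right _ (df_cntL _ fun s hs => ?_)))
    (Nat.mul_le_mul_left 2 (min_le_min_right _ (df_cntL _ fun s hs => ?_))))
  all_goals
    obtain ⟨a1, a2, a3⟩ := mem_filter.1 hs
    exact ⟨df_pN.2 ⟨List.mem_toFinset.1 a1, fun hc => a2 ((hJP _).2 hc)⟩,
      Nat.ble_eq_true_of_le a3⟩

end Pool.Agent.Lib.MP_5a2675_co.D7
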