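import Mathlib
import Pool.Agent.Lib.MP_5a2675_co.D7.DD

set_option autoImplicit false

namespace Pool.Agent.Lib.MP_5a2675_co.D7

open Finset
open Classical

variable {G G' : SimpleGraph ℕ} {S S' M X : Finset ℕ} {Γ : Gam} {C : Cfg} {f g : ℕ → ℕ}
  {a b c i j k l m n q r s t v w x y A J R Z Mk : ℕ}

variable {dl : List (Blob × ℕ)} {ps : List ℕ} {Y : Finset ℕ}

theorem uc_noncub3 (h : RC G S M Γ C f R J Mk dl) (hp : PcsOK G S C f R J dl ps)
    (hY : UC G S M C f R J Mk dl Y)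
    (hw : wit3 C R J (rT C R dl) dl (rF C R dl) (pJ C J Mk ps) = true) :
    NonCub (GJ G f J) Y := by
  simp only [wit3, Bool.and_eq_true, Nat.beq_eq, List.length_eq_zero_iff] at hw
  obtain ⟨⟨⟨hdl, hd⟩, hs⟩, hc2⟩ := hw
  obtain ⟨s, hs, hF⟩ := anyL_iff.1 hs
  obtain ⟨hsU, hsJ⟩ := dd_mem_pJ.1 hs
  have hV := h.ctx.val
  have hD : rD C R = 0 := by
    rcases h.jc with e | e
    · obtain ⟨i, -, hi⟩ := dj_false_iff.1 hsJ
      rw [rJ, e, jm_NOJ (dd_n h), tb_zero] at hi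
      exact Bool.noConfusion hi
    · exact e.2.1
  have hFY : ∀ i, tb (rF C R dl) i = true → f i ∈ Y := fun i hi => by
    obtain ⟨k, hk, hx⟩ := dd_front h hY
    exact uc_piece hp hY (dd_mem_pU.1 hsU).1 ⟨k, sub_iff.1 hF k hk, hx⟩ (sub_iff.1 hF i hi)
  obtain ⟨v, hv, h3⟩ := h.ctx.mc.noncub
  have hvR : v ∈ rS G S f R dl := by
    refine da_mem_rS.2 ⟨hv, fun hc => ?_, fun u hu => by simp [hdl] at hu⟩
    obtain ⟨r, -, hr, rfl⟩ := mem_img.1 hc
    have a1 := dj_iff.1 hd r hr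
    have a2 : tb C.d1 r ≠ true := fun e => Bool.noConfusion (a1.symm.trans (tb_lor.2 (Or.inl e)))
    have a3 : tb C.d2 r ≠ true := fun e => Bool.noConfusion (a1.symm.trans (tb_lor.2 (Or.inr e)))
    rw [hV.deg r (h.ltR r hr), dg, if_neg a2, if_neg a3] at h3
    omega
  have hvY : v ∈ Y := by
    obtain ⟨a, ha, b, hb, hn, hab⟩ := exists_edge_out h.ctx.mc.conn
      ((comp_subset (G := GJ G f J) (v := v)).trans (da_sub (R := R) (dl := dl) (f := f)))
      ⟨v, mem_comp_self hvR⟩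
      (fun e => ((card_le_card comp_subset).trans_lt (rc_card h)).ne (congrArg card e))
    rcases rc_edge h (comp_subset ha) hb (fun hc => hn (comp_closed.2 a ha b hc (le_GJ hab))) hab
      with ⟨i, k, h1, h2, h4, rfl, -⟩ | ⟨k, h1, -⟩
    · refine comp_subset_of_closed (uc_closed hY)
        (hFY i ((rc_F h).2 ⟨h1, (v_cn_pos hV (dd_Z64 h)).2 ⟨k, h2, h4⟩⟩)) ?_
      rw [comp_eq_of_mem ha]
      exact mem_comp_self hvR
    · rw [hD, tb_zero] at h1
      exact Bool.noConfusion h1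
  refine ⟨v, hvY, ?_⟩
  by_cases hj : ∃ i, tb (rJ C J) i = true ∧ f i = v
  · obtain ⟨i, hi, rfl⟩ := hj
    have a1 := (rc_F h).1 (rc_join h hi).1
    have a2 := uc_deg h hY (dd_lt a1.1) hvY
    have a3 := jn_le (J := J) (n := C.n) (i := i)
    rw [← hV.deg i (dd_lt a1.1)] at a2
    cases e : tb (jd J (ones C.n)) i
    · rw [e, Bool.toNat_false] at a3
      omega
    · have a4 := (tb_nb3 (dd_Z64 h) (by norm_num)).1 (sub_iff.1 hc2 i e)
      rw [e, Bool.toNat_true] at a3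
      omega
  · rw [v_deg_GJ_new hV (rc_jok h).wf fun i hi e => hj ⟨i, hi, e⟩]
    exact (deg_mono ((uc_sub hY).trans da_sub) fun _ _ e => e).trans_lt h3

end Pool.Agent.Lib.MP_5a2675_co.D7
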