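import Mathlib
import Pool.Agent.Lib.MP_5a2675_co.D7.DB
import Pool.Agent.Lib.MP_5a2675_co.D7.DC
import Pool.Agent.Lib.MP_5a2675_co.D7.DF
import Pool.Agent.Lib.MP_5a2675_co.D7.DH

set_option autoImplicit false

namespace Pool.Agent.Lib.MP_5a2675_co.D7

open Finset
open Classical

variable {G G' : SimpleGraph ℕ} {S S' M X : Finset ℕ} {Γ : Gam} {C : Cfg} {f g : ℕ → ℕ}
  {a b c i j k l m n q r s t v w x y A J R Z Mk : ℕ}

theorem dg_one {CP : ℕ} {u : Blob × ℕ}
    (h : val G (bX G S f u.1) ∅ ≤ (u.1.hi : ℤ) - 100) :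
    20 * gam G (bX G S f u.1) ∅ + bw Γ C u + bgain C u ≤
      Phi G (bX G S f u.1) ∅ + 20 * (hflag C CP u).toNat + bcost Γ C CP u (nb3 C.A u.1.R) +
        gw C (Nat.land u.1.In (nb C.A u.1.R)) := by
  have e1 : bcost Γ C CP u (nb3 C.A u.1.R) = u.1.hi + bw Γ C u + cond (hflag C CP u) 0 20 := by
    unfold bcost bcost' bw hflag
    simp only [Nat.add_eq]
    omega
  have e2 : bgain C u = 120 + gw C (Nat.land u.1.In (nb C.A u.1.R)) := rfl
  unfold val at h
  rw [e1, e2]
  cases hflag C CP u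
  · simp only [Bool.toNat_false, cond_false]
    omega
  · simp only [Bool.toNat_true, cond_true]
    omega

theorem dg_sum {CP : ℕ} {L : List (Blob × ℕ)}
    (h : ∀ u ∈ L, val G (bX G S f u.1) ∅ ≤ (u.1.hi : ℤ) - 100) :
    20 * (L.map fun u => gam G (bX G S f u.1) ∅).sum + (L.map fun u => bw Γ C u).sum +
        (L.map (bgain C)).sum ≤
      (L.map fun u => Phi G (bX G S f u.1) ∅).sum +
        20 * (L.map fun u => (hflag C CP u).toNat).sum +
        (L.map fun u => bcost Γ C CP u (nb3 C.A u.1.R)).sum +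
        (L.map fun u => gw C (Nat.land u.1.In (nb C.A u.1.R))).sum := by
  induction L with
  | nil => simp
  | cons u L ih =>
    have h1 := dg_one (Γ := Γ) (C := C) (CP := CP) (h u List.mem_cons_self)
    have h2 := ih fun v hv => h v (List.mem_cons_of_mem _ hv)
    simp only [List.map_cons, List.sum_cons]
    omega

theorem dg_red {Pay : ℕ} {dl : List (Blob × ℕ)} {mg : List (ℕ × ℕ)} {Ds : List ℕ}
    (h : Ctx G S M Γ C f) (hm : ∀ x ∈ dl, x.1.J = NOJ → x.1 ∈ C.bl)
    (hc : redD Γ C R Pay k J dl mg Ds = true) : False := by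
  have hc0 : (sub R (ones C.n) &&
      red1 Γ C R Pay k J dl mg (rZ R dl) (rK C R dl) (rJ C J) (rD C R) (rT C R dl)
        (cdL C k (rD C R) (scen J) Ds)) = true := hc
  rw [Bool.and_eq_true] at hc0
  obtain ⟨hR, hc1⟩ := hc0
  generalize hCD : cdL C k (rD C R) (scen J) Ds = CD at hc1
  have hc1' : (!(Nat.beq (rZ R dl) 0) && allL (delOK C R (rK C R dl) (rJ C J)) dl &&
      pairD C.A dl && red2 Γ C R Pay k J dl mg (rZ R dl) (rK C R dl) (rJ C J) (rD C R) (rT C R dl)
        (rF C R dl) CD (Nat.lor CD (preM C.A dl))) = true := hc1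
  generalize hCP : Nat.lor CD (preM C.A dl) = CP at hc1'
  simp only [Bool.and_eq_true] at hc1'
  obtain ⟨⟨⟨hZ, hdel⟩, hpd⟩, hc2⟩ := hc1'
  unfold red2 at hc2
  simp only [Bool.and_eq_true] at hc2
  obtain ⟨⟨⟨⟨h63, hRs⟩, hJ⟩, hmg⟩, hc3⟩ := hc2
  generalize hMk : dif (Nat.land CP (rF C R dl)) (rJ C J) = Mk at hc3
  generalize hps : pcsL (adjX C.A J (mapL (mgM C J) mg)) (rK C R dl) 64 (rF C R dl) = ps at hc3
  have hc5 : red5 Γ C R Pay k J dl (rZ R dl) (rK C R dl) (rJ C J) (rD C R) (rT C R dl)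
      (rF C R dl) CP (rmm C Mk dl) (e0 C (rT C R dl) (rX C J)) (e1 C (rT C R dl) (rX C J))
      (e2 C (rT C R dl) (rX C J)) (pSafe C Mk ps) (pJ C J Mk ps) (pN C J Mk ps) = true := hc3
  unfold red5 at hc5
  rw [Bool.and_eq_true, Nat.ble_eq] at hc5
  obtain ⟨hw, hin⟩ := hc5
  have hdel' := allL_iff.mp hdel
  have hMk' : ∀ i, tb Mk i = true →
      tb CP i = true ∧ tb (rF C R dl) i = true ∧ tb (rJ C J) i = false := by
    intro i hi
    rw [← hMk, tb_dif, tb_land] at hi
    exact ⟨hi.1.1, hi.1.2, hi.2⟩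
  have hrc : RC G S M Γ C f R J Mk dl :=
    { ctx := h
      ltR := sub_ones_iff.mp hR
      zne := by
        intro h0
        rw [h0] at hZ
        simp at hZ
      mem := by
        intro x hx
        refine hm x hx ?_
        have := hdel' x hx
        unfold delOK at this
        simp only [Bool.and_eq_true, Nat.beq_eq] at this
        exact this.1.1.1.1
      del := hdel'
      pd := hpd
      jc := by
        simp only [Bool.or_eq_true, Bool.and_eq_true, Nat.beq_eq] at hJ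
        rcases hJ with hJ | ⟨⟨h1, h2⟩, h3⟩
        · exact Or.inl hJ
        · exact Or.inr ⟨h1, h2, h3⟩
      mkF := fun i hi => (hMk' i hi).2 }
  have hp : PcsOK G S C f R J dl ps := hps ▸ pcs_ok hrc hmg
  have hdom := red_dom (k := k) (Ds := Ds) (CP := CP) hrc (hCD ▸ h63) (by rw [hCD, hCP]) hRs
    fun i hi => (hMk' i hi).1
  have hwt := red_wt hrc
  have hchg := red_chg (Pay := Pay) hrc hp fun Y hY => by
    rcases Bool.or_eq_true_iff.1 hw with hw | hw
    · exact uc_noncub hrc hp hY hw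
    · exact uc_noncub3 hrc hp hY hw
  have hsum := dg_sum (G := G) (S := S) (f := f) (Γ := Γ) (C := C) (CP := CP) (L := dl) (by
    intro u hu
    have h1 := (rc_blob hrc hu).1.hi
    rwa [(rc_blob hrc hu).2, GJ_NOJ] at h1)
  have htg : cond (Nat.beq C.ht 1) 4 Γ.tg ≤ cc G S M := by
    cases ht : Nat.beq C.ht 1 with
    | false => exact h.gam.tg
    | true => exact (h.val.ht (Nat.beq_eq.mp ht)).ge
  have hbad := h.mc.bad
  rw [sumL_eq, sumL_eq] at hin
  simp only [Nat.add_eq, Nat.mul_eq] at hin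
  unfold val at hbad hchg
  omega

theorem rRed_sound {Pay : ℕ} {dl mg : List (ℕ × ℕ)} {Ds : List ℕ} (h : Ctx G S M Γ C f) :
    Sound G S M (rRed Γ C R Pay k J dl mg Ds) := by
  intro L hL
  exfalso
  unfold rRed chk at hL
  cases hc : redD Γ C R Pay k J (mapL (fun x => (gb C x.1, x.2)) dl) mg Ds with
  | false => rw [hc] at hL; simp at hL
  | true =>
    refine dg_red h ?_ hc
    intro x hx hj
    rw [mapL_eq, List.mem_map] at hx
    obtain ⟨y, -, rfl⟩ := hx
    exact gb_mem_of_NOJ hj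

end Pool.Agent.Lib.MP_5a2675_co.D7
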