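import Mathlib
import Pool.Agent.Lib.MP_5a2675_co.D7.GC
import Pool.Agent.Lib.MP_5a2675_co.Lower

set_option autoImplicit false

namespace Pool.Agent.Lib.MP_5a2675_co.D7

open Finset

/-- put one vertex into the dominating set, delete it and mark its neighbours -/
theorem cubic_bound (h : ∀ G S M, Claim G S M) (V : Type) [Fintype V] [DecidableEq V]
    (G : SimpleGraph V) [DecidableRel G.Adj] (hc : G.Connected) (hr : G.IsRegularOfDegree 3) :
    ∃ D : Finset V, Dominating G D ∧ 20 * D.card ≤ 7 * Fintype.card V + 16 := by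
  obtain ⟨v⟩ := hc.nonempty
  let f : V ↪ ℕ := ⟨fun a => (Fintype.equivFin V a : ℕ),
    Fin.val_injective.comp (Fintype.equivFin V).injective⟩
  obtain ⟨H, hH⟩ : ∃ H : SimpleGraph ℕ, ∀ a b, H.Adj (f a) (f b) ↔ G.Adj a b :=
    ⟨G.map f, fun a b => SimpleGraph.map_adj_apply⟩
  obtain ⟨S, hS, hcard⟩ : ∃ S : Finset ℕ, (∀ x, x ∈ S ↔ ∃ a, a ≠ v ∧ f a = x) ∧
      S.card + 1 = Fintype.card V :=
    ⟨(univ.erase v).map f, fun x => by simp only [mem_map, mem_erase, mem_univ, and_true], by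
      rw [card_map, card_erase_add_one (mem_univ v), card_univ]⟩
  obtain ⟨M, hM, hMc⟩ : ∃ M : Finset ℕ, (∀ a, f a ∈ M ↔ G.Adj a v) ∧ M.card = 3 :=
    ⟨(G.neighborFinset v).map f, fun a => by simp [G.adj_comm], by
      rw [card_map, SimpleGraph.card_neighborFinset_eq_degree, hr v]⟩
  have hN : ∀ a, N H S (f a) = ((G.neighborFinset a).erase v).map f := fun a => by
    ext x
    rw [mem_N, hS, mem_map]
    constructor
    · rintro ⟨⟨b, hb, rfl⟩, h2⟩
      exact ⟨b, mem_erase.2 ⟨hb, (G.mem_neighborFinset _ _).2 ((hH a b).1 h2)⟩, rfl⟩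
    · rintro ⟨b, hb, rfl⟩
      exact ⟨⟨b, (mem_erase.1 hb).1, rfl⟩,
        (hH a b).2 ((G.mem_neighborFinset _ _).1 (mem_erase.1 hb).2)⟩
  have d3 : ∀ a, (G.neighborFinset a).card = 3 := fun a => by
    rw [SimpleGraph.card_neighborFinset_eq_degree, hr a]
  have hd2 : ∀ a, f a ∈ M → deg H S (f a) = 2 := fun a ha => by
    rw [deg, hN, card_map, card_erase_of_mem ((G.mem_neighborFinset _ _).2 ((hM a).1 ha)), d3]
  have hd3 : ∀ a, f a ∉ M → deg H S (f a) = 3 := fun a ha => by
    rw [deg, hN, card_map, erase_eq_of_notMem fun e =>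
      ha ((hM a).2 ((G.mem_neighborFinset _ _).1 e)), d3]
  have hg : Good H S M := fun x hx => by
    obtain ⟨a, -, rfl⟩ := (hS x).1 hx
    by_cases ha : f a ∈ M
    · rw [hd2 a ha]
      exact ⟨by omega, fun _ => le_rfl⟩
    · rw [hd3 a ha]
      exact ⟨le_rfl, fun e => absurd e ha⟩
  have hm : ∀ x ∈ S, ∃ b ∈ comp H S x, b ∈ M := fun x hx => by
    obtain ⟨a, -, rfl⟩ := (hS x).1 hx
    by_contra hn
    push Not at hn
    have key : ∀ b, Relation.ReflTransGen G.Adj a b → f b ∈ comp H S (f a) := fun b hb => by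
      induction hb with
      | refl => exact mem_comp_self hx
      | @tail b c _ h2 ih =>
        refine comp_closed.2 _ ih _ ((hS _).2 ⟨c, fun e => ?_, rfl⟩) ((hH b c).2 h2)
        exact hn _ ih ((hM b).2 (e ▸ h2))
    obtain ⟨b, hb, e⟩ := (hS _).1 (comp_subset
      (key v ((SimpleGraph.reachable_iff_reflTransGen _ _).1 (hc.preconnected a v))))
    exact hb (f.injective e)
  have hv := marked_bound (n := S.card + 1) (fun G S M _ => h G S M) (Nat.lt_succ_self _) hg hm
  have hPhi : Phi H S M ≤ 7 * S.card + 3 := by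
    have h1 : ∀ x ∈ S, wt H S M x ≤ 7 + if x ∈ M then 1 else 0 := fun x hx => by
      obtain ⟨a, -, rfl⟩ := (hS x).1 hx
      unfold wt
      by_cases ha : f a ∈ M
      · simp only [ha, if_true, hd2 a ha]
        decide
      · have : ¬ CritP H S (f a) := fun e => by
          have := critP_deg e
          rw [hd3 a ha] at this
          omega
        simp only [ha, if_false, hd3 a ha, this]
        decide
    refine (sum_le_sum h1).trans ?_
    rw [sum_add_distrib, sum_const, smul_eq_mul, ← card_filter, mul_comm, ← hMc]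
    exact Nat.add_le_add_left (card_le_card fun x hx => (mem_filter.1 hx).2) _
  obtain ⟨D, hD, hDc⟩ := exists_dom H S M
  refine ⟨insert v (univ.filter fun a => f a ∈ D), fun a ha => ?_, ?_⟩
  · simp only [mem_insert, mem_filter, mem_univ, true_and, not_or] at ha
    by_cases haM : f a ∈ M
    · exact ⟨v, mem_insert_self _ _, (hM a).1 haM⟩
    · obtain ⟨u, hu, e⟩ := (hD.2 _ ((hS _).2 ⟨a, ha.1, rfl⟩) haM).resolve_left ha.2
      obtain ⟨b, -, rfl⟩ := (hS u).1 (hD.1 hu)
      exact ⟨b, mem_insert_of_mem (mem_filter.2 ⟨mem_univ _, hu⟩), (hH a b).1 e⟩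
  · have h1 := card_insert_le v (univ.filter fun a => f a ∈ D)
    have h2 : (univ.filter fun a => f a ∈ D).card ≤ D.card :=
      card_le_card_of_injOn f (fun a ha => (mem_filter.1 ha).2) f.injective.injOn
    unfold val at hv
    omega

/-- the constants that work for all large connected cubic graphs -/
def Works (c : ℝ) : Prop :=
  ∃ n₀ : ℕ, ∀ n ≥ n₀, ∀ (G : SimpleGraph (Fin n)) [DecidableRel G.Adj],
    G.Connected → G.IsRegularOfDegree 3 → ∃ D : Finset (Fin n), Dominating G D ∧ (D.card : ℝ) ≤ c * n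

theorem isGLB_of_claim (h : ∀ G S M, Claim G S M) : IsGLB {c : ℝ | Works c} (7 / 20) := by
  classical
  constructor
  · rintro c ⟨k, hk⟩
    have hc : Fintype.card (ZMod (k + 1) × Fin 20) = (k + 1) * 20 := by simp
    let e := Fintype.equivFinOfCardEq hc
    let φ := SimpleGraph.Iso.map e (KG k)
    obtain ⟨D, h1, h2⟩ := hk ((k + 1) * 20) (by omega) ((KG k).map e)
      (φ.connected_iff.1 (KG_conn k)) fun x => by
        obtain ⟨y, rfl⟩ := φ.surjective x
        rw [φ.degree_eq y]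
        exact KG_cubic k y
    have h3 := KG_dom k (D.map e.symm.toEmbedding) fun x hx => by
      obtain ⟨u, hu, a⟩ := h1 (e x) fun m => hx (mem_map.2 ⟨_, m, e.symm_apply_apply x⟩)
      refine ⟨e.symm u, mem_map.2 ⟨u, hu, rfl⟩, ?_⟩
      rw [← e.apply_symm_apply u] at a
      exact φ.map_rel_iff.1 a
    rw [card_map] at h3
    have h4 : (7 * (k + 1) : ℝ) ≤ D.card := by exact_mod_cast h3
    have h5 : (0 : ℝ) < k + 1 := by positivity
    push_cast at h2
    nlinarith
  · intro b hb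
    refine le_of_forall_pos_le_add fun ε hε => hb ⟨⌈1 / ε⌉₊, fun n hn G _ hc hr => ?_⟩
    obtain ⟨D, h1, h2⟩ := cubic_bound h (Fin n) G hc hr
    refine ⟨D, h1, ?_⟩
    rw [Fintype.card_fin] at h2
    have h3 : (20 * D.card : ℝ) ≤ 7 * n + 16 := by exact_mod_cast h2
    have h4 : 1 / ε ≤ n := Nat.ceil_le.1 hn
    rw [div_le_iff₀ hε] at h4
    nlinarith

end Pool.Agent.Lib.MP_5a2675_co.D7
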