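import Mathlib
import Pool.Agent.Lib.MP_5a2675_co.D7.Once
import Pool.Agent.Lib.MP_5a2675_co.D7.GC

set_option autoImplicit false

namespace Pool.Agent.Lib.MP_5a2675_co.D7

open Finset
open Classical

variable {G G' : SimpleGraph ℕ} {S S' M M' X D : Finset ℕ} {v w : ℕ}

/-- `u v` is the only edge between the two sides `X`, `Y` of `S` -/
structure GeBr (G : SimpleGraph ℕ) (S X Y : Finset ℕ) (u v : ℕ) : Prop where
  mem : ∀ a, a ∈ S ↔ a ∈ X ∨ a ∈ Y
  dis : ∀ a ∈ X, a ∉ Y
  hu : u ∈ X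
  hv : v ∈ Y
  adj : G.Adj u v
  uniq : ∀ a ∈ X, ∀ b ∈ Y, G.Adj a b → a = u ∧ b = v

variable {Y : Finset ℕ} {u : ℕ}

theorem GeBr.symm (b : GeBr G S X Y u v) : GeBr G S Y X v u where
  mem := fun a => (b.mem a).trans or_comm
  dis := fun a ha hx => b.dis a hx ha
  hu := b.hv
  hv := b.hu
  adj := b.adj.symm
  uniq := fun a ha c hc h => (b.uniq c hc a ha h.symm).symm

theorem GeBr.sub (b : GeBr G S X Y u v) : X ⊆ S := fun a ha => (b.mem a).2 (Or.inl ha)

theorem GeBr.card_lt (b : GeBr G S X Y u v) : X.card < S.card :=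
  card_lt_card ⟨b.sub, fun h => b.dis v (h ((b.mem v).2 (Or.inr b.hv))) b.hv⟩

theorem GeBr.N_eq (b : GeBr G S X Y u v) {a : ℕ} (ha : a ∈ X) (hne : a ≠ u) :
    N G X a = N G S a := by
  ext c
  rw [mem_N, mem_N]
  constructor
  · exact fun h => ⟨b.sub h.1, h.2⟩
  · rintro ⟨h1, h2⟩
    rcases (b.mem c).1 h1 with h | h
    · exact ⟨h, h2⟩
    · exact absurd (b.uniq a ha c h h2).1 hne

theorem GeBr.deg_eq (b : GeBr G S X Y u v) {a : ℕ} (ha : a ∈ X) (hne : a ≠ u) :
    deg G X a = deg G S a := by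
  unfold deg; rw [b.N_eq ha hne]

theorem GeBr.deg_u (b : GeBr G S X Y u v) : deg G S u = deg G X u + 1 := by
  have e : N G S u = insert v (N G X u) := by
    ext c
    rw [mem_insert, mem_N, mem_N]
    constructor
    · rintro ⟨h1, h2⟩
      rcases (b.mem c).1 h1 with h | h
      · exact Or.inr ⟨h, h2⟩
      · exact Or.inl (b.uniq u b.hu c h h2).2
    · rintro (h | h)
      · rw [h]; exact ⟨(b.mem v).2 (Or.inr b.hv), b.adj⟩
      · exact ⟨b.sub h.1, h.2⟩
  unfold deg
  rw [e, card_insert_of_notMem]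
  intro h
  exact b.dis v (mem_N.1 h).1 b.hv

theorem GeBr.conn (b : GeBr G S X Y u v) (hc : Conn G S) : Conn G X := by
  have key : ∀ Z, Closed G X Z → u ∉ Z → Z = ∅ := by
    intro Z hZ hu
    by_contra hne
    have hcl : Closed G S Z := by
      refine ⟨hZ.1.trans b.sub, fun a ha c hcS hac => ?_⟩
      rcases (b.mem c).1 hcS with h | h
      · exact hZ.2 a ha c h hac
      · exact absurd ((b.uniq a (hZ.1 ha) c h hac).1 ▸ ha) hu
    have := hc Z hcl (nonempty_iff_ne_empty.2 hne)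
    exact hu (this ▸ b.sub b.hu)
  intro Z hZ hne
  have hu : u ∈ Z := by
    by_contra hu
    exact hne.ne_empty (key Z hZ hu)
  have h2 : Closed G X (X \ Z) := by
    refine ⟨sdiff_subset, fun a ha c hc hac => mem_sdiff.2 ⟨hc, fun hcZ => ?_⟩⟩
    exact (mem_sdiff.1 ha).2 (hZ.2 c hcZ a (mem_sdiff.1 ha).1 hac.symm)
  have h3 := key _ h2 (fun h => (mem_sdiff.1 h).2 hu)
  exact Subset.antisymm hZ.1 (sdiff_eq_empty_iff_subset.1 h3)

theorem ge_wt_le (h3 : ∀ a ∈ S, deg G S a ≤ 3) (hS : S' ⊆ S) {a : ℕ} (h1 : a ∉ M') (h2 : a ∉ M)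
    (hd : deg G S' a = deg G S a) : wt G S' M' a ≤ wt G S M a := by
  unfold wt
  rw [if_neg h1, if_neg h2, hd]
  by_cases hc : CritP G S' a
  · have : CritP G S a := critP_mono hc hS (fun _ _ _ _ h => h) h3 (hd ▸ critP_deg hc)
    rw [if_pos hc, if_pos this]
  · rw [if_neg hc]; omega

theorem ge_W0_le {a : ℕ} (h2 : a ∉ M) : W0 (deg G S a) ≤ wt G S M a := by
  unfold wt
  rw [if_neg h2]; omega

theorem ge_Phi_le (b : GeBr G S X Y u v) (h3 : ∀ a ∈ S, deg G S a ≤ 3) (hm : NoMark S M)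
    (hM : ∀ a ∈ M', a = u) :
    Phi G X M' ≤ wt G X M' u + ∑ a ∈ X.erase u, wt G S M a := by
  unfold Phi
  rw [← add_sum_erase X _ b.hu]
  refine Nat.add_le_add_left (sum_le_sum fun a ha => ?_) _
  obtain ⟨h1, h2⟩ := mem_erase.1 ha
  exact ge_wt_le h3 b.sub (fun h => h1 (hM a h)) (hm a (b.sub h2)) (b.deg_eq h2 h1)

theorem ge_good (b : GeBr G S X Y u v) (h3 : ∀ a ∈ S, deg G S a ≤ 3) (hM : ∀ a ∈ M', a = u) :
    Good G X M' := by
  intro a ha
  have h1 : deg G X a ≤ deg G S a := deg_mono b.sub (fun _ _ h => h)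
  have h2 := h3 a (b.sub ha)
  refine ⟨by omega, fun h => ?_⟩
  have h4 := b.deg_u
  have h5 := h3 u (b.sub b.hu)
  rw [hM a h]
  omega

theorem ge_noncub (b : GeBr G S X Y u v) (h3 : ∀ a ∈ S, deg G S a ≤ 3) : NonCub G X := by
  have h4 := b.deg_u
  have h5 := h3 u (b.sub b.hu)
  exact ⟨u, b.hu, by omega⟩

theorem ge_side1 (h : MC G S M) (hm : NoMark S M) (b : GeBr G S X Y u v) :
    (deg G S u = 3 → 20 * gam G X ∅ ≤ ∑ a ∈ X.erase u, wt G S M a + 14) ∧
    (deg G S u = 2 → 20 * gam G X ∅ ≤ ∑ a ∈ X.erase u, wt G S M a + 15) := by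
  have h3 : ∀ a ∈ S, deg G S a ≤ 3 := fun a ha => (h.good a ha).1
  have hM : ∀ a ∈ (∅ : Finset ℕ), a = u := fun a ha => absurd ha (notMem_empty a)
  have h1 := h.ih G X ∅ b.card_lt (b.conn h.conn) (ge_good b h3 hM) (ge_noncub b h3)
  have h2 := ge_Phi_le b h3 hm hM
  have h4 := b.deg_u
  unfold val at h1
  constructor
  · intro hd
    have h5 : deg G X u = 2 := by omega
    have h6 : wt G X ∅ u ≤ 10 := by
      unfold wt
      rw [if_neg (notMem_empty u), h5]
      split_ifs <;> simp [W0]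
    have h7 : cc G X ∅ ≤ 4 := cc_le_four
    omega
  · intro hd
    have h5 : deg G X u = 1 := by omega
    have h6 : wt G X ∅ u ≤ 13 := by
      have : ¬ CritP G X u := fun hc => by have := critP_deg hc; omega
      unfold wt
      rw [if_neg (notMem_empty u), h5, if_neg this]
      simp [W0]
    have h7 : cc G X ∅ ≤ 2 := by
      have : ¬ Heavy G X := fun hc => by have := heavy_deg hc b.hu; omega
      unfold cc
      rw [if_neg this]
      split_ifs <;> omega
    omega

theorem ge_side2 (h : MC G S M) (hm : NoMark S M) (b : GeBr G S X Y u v) :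
    (deg G S u = 3 → 20 * gam G X {u} ≤ ∑ a ∈ X.erase u, wt G S M a + 8) ∧
    (deg G S u = 2 → 20 * gam G X {u} ≤ ∑ a ∈ X.erase u, wt G S M a + 7) := by
  have h3 : ∀ a ∈ S, deg G S a ≤ 3 := fun a ha => (h.good a ha).1
  have hM : ∀ a ∈ ({u} : Finset ℕ), a = u := fun a ha => mem_singleton.1 ha
  have h1 := h.ih G X {u} b.card_lt (b.conn h.conn) (ge_good b h3 hM) (ge_noncub b h3)
  have h2 := ge_Phi_le b h3 hm hM
  have h4 := b.deg_u
  have h7 : cc G X {u} = 0 := by
    unfold cc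
    rw [if_pos ⟨u, b.hu, mem_singleton_self u⟩]
  have h8 : wt G X {u} u = W1 (deg G X u) := by
    unfold wt
    rw [if_pos (mem_singleton_self u)]
  unfold val at h1
  constructor
  · intro hd
    have h5 : deg G X u = 2 := by omega
    have h6 : W1 2 = 8 := rfl
    rw [h5] at h8
    omega
  · intro hd
    have h5 : deg G X u = 1 := by omega
    have h6 : W1 1 = 7 := rfl
    rw [h5] at h8
    omega

theorem ge_deg_erase_adj {a : ℕ} (hu : u ∈ X) (h : G.Adj u a) :
    deg G X a = deg G (X.erase u) a + 1 := by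
  have e : N G X a = insert u (N G (X.erase u) a) := by
    ext c
    rw [mem_insert, mem_N, mem_N, mem_erase]
    constructor
    · rintro ⟨h1, h2⟩
      by_cases hc : c = u
      · exact Or.inl hc
      · exact Or.inr ⟨⟨hc, h1⟩, h2⟩
    · rintro (h1 | h1)
      · rw [h1]; exact ⟨hu, h.symm⟩
      · exact ⟨h1.1.2, h1.2⟩
  unfold deg
  rw [e, card_insert_of_notMem]
  intro h1
  exact (mem_erase.1 (mem_N.1 h1).1).1 rfl

theorem ge_deg_erase_not {a : ℕ} (h : ¬ G.Adj u a) : deg G (X.erase u) a = deg G X a := by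
  have e : N G (X.erase u) a = N G X a := by
    ext c
    rw [mem_N, mem_N, mem_erase]
    constructor
    · exact fun h1 => ⟨h1.1.2, h1.2⟩
    · exact fun h1 => ⟨⟨fun hc => h (hc ▸ h1.2.symm), h1.1⟩, h1.2⟩
  unfold deg
  rw [e]

theorem ge_side3 (h : MC G S M) (hm : NoMark S M) (hl : ∀ a ∈ S, 2 ≤ deg G S a)
    (b : GeBr G S X Y u v) :
    20 * gam G (X.erase u) (N G X u) + 1 ≤ ∑ a ∈ X.erase u, wt G S M a + deg G S u := by
  have h3 : ∀ a ∈ S, deg G S a ≤ 3 := fun a ha => (h.good a ha).1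
  have hsub : X.erase u ⊆ S := (erase_subset u X).trans b.sub
  have hg : Good G (X.erase u) (N G X u) := by
    intro a ha
    have h1 : deg G (X.erase u) a ≤ deg G S a := deg_mono hsub (fun _ _ h => h)
    have h2 := h3 a (hsub ha)
    refine ⟨by omega, fun hN => ?_⟩
    have h4 := ge_deg_erase_adj b.hu (mem_N.1 hN).2
    have h5 := b.deg_eq (mem_erase.1 ha).2 (mem_erase.1 ha).1
    omega
  have hmk : ∀ a ∈ X.erase u, ∃ c ∈ comp G (X.erase u) a, c ∈ N G X u := by
    intro a ha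
    by_contra hc
    have hcl : Closed G X (comp G (X.erase u) a) := by
      refine ⟨comp_subset.trans (erase_subset u X), fun c hcm d hd hcd => ?_⟩
      by_cases hdu : d = u
      · exact absurd ⟨c, hcm, mem_N.2 ⟨erase_subset u X (comp_subset hcm), hdu ▸ hcd.symm⟩⟩ hc
      · exact comp_closed.2 c hcm d (mem_erase.2 ⟨hdu, hd⟩) hcd
    have e := b.conn h.conn _ hcl ⟨a, mem_comp_self ha⟩
    have : u ∈ comp G (X.erase u) a := by rw [e]; exact b.hu
    exact (mem_erase.1 (comp_subset this)).1 rfl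
  have h1 := marked_bound h.ih ((card_erase_le).trans_lt b.card_lt) hg hmk
  have h2 : Phi G (X.erase u) (N G X u) ≤
      ∑ a ∈ X.erase u, (wt G S M a + if a ∈ N G X u then 1 else 0) := by
    unfold Phi
    refine sum_le_sum fun a ha => ?_
    obtain ⟨hne, haX⟩ := mem_erase.1 ha
    have h5 := b.deg_eq haX hne
    by_cases hN : a ∈ N G X u
    · rw [if_pos hN]
      have h4 := ge_deg_erase_adj b.hu (mem_N.1 hN).2
      have h6 := ge_W0_le (G := G) (S := S) (hm a (b.sub haX))
      have h7 := h3 a (b.sub haX)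
      have h8 := hl a (b.sub haX)
      have h9 : wt G (X.erase u) (N G X u) a = W1 (deg G (X.erase u) a) := by
        unfold wt
        rw [if_pos hN]
      rw [h9]
      rcases (show deg G S a = 2 ∨ deg G S a = 3 by omega) with hd | hd
      · have e : deg G (X.erase u) a = 1 := by omega
        rw [hd] at h6
        rw [e]
        have e1 : W1 1 = 7 := rfl
        have e2 : W0 2 = 9 := rfl
        omega
      · have e : deg G (X.erase u) a = 2 := by omega
        rw [hd] at h6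
        rw [e]
        have e1 : W1 2 = 8 := rfl
        have e2 : W0 3 = 7 := rfl
        omega
    · rw [if_neg hN, add_zero]
      have h4 : deg G (X.erase u) a = deg G X a :=
        ge_deg_erase_not fun hadj => hN (mem_N.2 ⟨haX, hadj⟩)
      exact ge_wt_le h3 hsub hN (hm a (b.sub haX)) (h4.trans h5)
  rw [sum_add_distrib, ← card_filter] at h2
  have h4 : ((X.erase u).filter (fun a => a ∈ N G X u)).card ≤ deg G X u :=
    card_le_card fun a ha => (mem_filter.1 ha).2
  have h5 := b.deg_u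
  unfold val at h1
  omega

theorem ge_gam1 (b : GeBr G S X Y u v) : gam G S M ≤ gam G X ∅ + gam G Y ∅ := by
  obtain ⟨D1, h1, e1⟩ := exists_dom G X ∅
  obtain ⟨D2, h2, e2⟩ := exists_dom G Y ∅
  have hD : Dom G S M (D1 ∪ D2) := by
    refine ⟨union_subset (h1.1.trans b.sub) (h2.1.trans b.symm.sub), fun a ha _ => ?_⟩
    rcases (b.mem a).1 ha with h | h
    · rcases h1.2 a h (notMem_empty a) with h' | ⟨c, hc, hac⟩
      · exact Or.inl (mem_union_left _ h')
      · exact Or.inr ⟨c, mem_union_left _ hc, hac⟩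
    · rcases h2.2 a h (notMem_empty a) with h' | ⟨c, hc, hac⟩
      · exact Or.inl (mem_union_right _ h')
      · exact Or.inr ⟨c, mem_union_right _ hc, hac⟩
  have := card_union_le D1 D2
  have := gam_le hD
  omega

theorem ge_gam2 (b : GeBr G S X Y u v) :
    gam G S M ≤ gam G X {u} + 1 + gam G (Y.erase v) (N G Y v) := by
  obtain ⟨D1, h1, e1⟩ := exists_dom G X {u}
  obtain ⟨D2, h2, e2⟩ := exists_dom G (Y.erase v) (N G Y v)
  have hD : Dom G S M (insert v (D1 ∪ D2)) := by
    refine ⟨insert_subset (b.symm.sub b.hv) (union_subset (h1.1.trans b.sub)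
      (h2.1.trans ((erase_subset v Y).trans b.symm.sub))), fun a ha _ => ?_⟩
    rcases (b.mem a).1 ha with h | h
    · by_cases hau : a = u
      · exact Or.inr ⟨v, mem_insert_self _ _, hau ▸ b.adj⟩
      · rcases h1.2 a h (fun h' => hau (mem_singleton.1 h')) with h' | ⟨c, hc, hac⟩
        · exact Or.inl (mem_insert_of_mem (mem_union_left _ h'))
        · exact Or.inr ⟨c, mem_insert_of_mem (mem_union_left _ hc), hac⟩
    · by_cases hav : a = v
      · exact Or.inl (hav ▸ mem_insert_self _ _)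
      · by_cases hN : a ∈ N G Y v
        · exact Or.inr ⟨v, mem_insert_self _ _, (mem_N.1 hN).2.symm⟩
        · rcases h2.2 a (mem_erase.2 ⟨hav, h⟩) hN with h' | ⟨c, hc, hac⟩
          · exact Or.inl (mem_insert_of_mem (mem_union_right _ h'))
          · exact Or.inr ⟨c, mem_insert_of_mem (mem_union_right _ hc), hac⟩
  have := card_union_le D1 D2
  have := card_insert_le v (D1 ∪ D2)
  have := gam_le hD
  omega

theorem ge_Phi_split (b : GeBr G S X Y u v) :
    Phi G S M = wt G S M u + ∑ a ∈ X.erase u, wt G S M a +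
      (wt G S M v + ∑ a ∈ Y.erase v, wt G S M a) := by
  have e : S = X ∪ Y := by
    ext a; rw [mem_union]; exact b.mem a
  have hd : Disjoint X Y := disjoint_left.2 b.dis
  rw [add_sum_erase X _ b.hu, add_sum_erase Y _ b.hv, ← sum_union hd, ← e]
  rfl

theorem ge_false (h : MC G S M) (hm : NoMark S M) (hl : ∀ a ∈ S, 2 ≤ deg G S a)
    (b : GeBr G S X Y u v) : False := by
  obtain ⟨a1, a2⟩ := ge_side1 h hm b
  obtain ⟨a3, a4⟩ := ge_side2 h hm b
  have a5 := ge_side3 h hm hl b
  obtain ⟨b1, b2⟩ := ge_side1 h hm b.symm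
  obtain ⟨b3, b4⟩ := ge_side2 h hm b.symm
  have b5 := ge_side3 h hm hl b.symm
  have g1 := ge_gam1 (M := M) b
  have g2 := ge_gam2 (M := M) b
  have g3 := ge_gam2 (M := M) b.symm
  have p := ge_Phi_split (M := M) b
  have hu := b.sub b.hu
  have hv := b.symm.sub b.hv
  have wu := ge_W0_le (G := G) (S := S) (hm u hu)
  have wv := ge_W0_le (G := G) (S := S) (hm v hv)
  have c := two_le_cc (G := G) hm
  have bad := h.bad
  unfold val at bad
  have e2 : W0 2 = 9 := rfl
  have e3 : W0 3 = 7 := rfl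
  have du := (h.good u hu).1
  have dv := (h.good v hv).1
  have lu := hl u hu
  have lv := hl v hv
  rcases (show deg G S u = 2 ∨ deg G S u = 3 by omega) with h1 | h1 <;>
    rcases (show deg G S v = 2 ∨ deg G S v = 3 by omega) with h2 | h2
  · have := a2 h1
    have := a4 h1
    have := b2 h2
    have := b4 h2
    rw [h1] at wu a5
    rw [h2] at wv b5
    omega
  · have := a2 h1
    have := a4 h1
    have := b1 h2
    have := b3 h2
    rw [h1] at wu a5
    rw [h2] at wv b5
    omega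
  · have := a1 h1
    have := a3 h1
    have := b2 h2
    have := b4 h2
    rw [h1] at wu a5
    rw [h2] at wv b5
    omega
  · have := a1 h1
    have := a3 h1
    have := b1 h2
    have := b3 h2
    rw [h1] at wu a5
    rw [h2] at wv b5
    omega

theorem no_bridge (h : MC G S M) (hm : NoMark S M) (hl : ∀ a ∈ S, 2 ≤ deg G S a) :
    NoBridge G S := by
  intro X hX hne hS
  by_contra hc
  obtain ⟨u, hu, v, hv, hvX, huv⟩ := exists_edge_out h.conn hX hne hS
  have hvY : v ∈ S \ X := mem_sdiff.2 ⟨hv, hvX⟩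
  have hsum : cut G S X = (N G (S \ X) u).card + ∑ a ∈ X.erase u, (N G (S \ X) a).card :=
    (add_sum_erase X (fun a => (N G (S \ X) a).card) hu).symm
  have hvN : v ∈ N G (S \ X) u := mem_N.2 ⟨hvY, huv⟩
  have hpos : 0 < (N G (S \ X) u).card := card_pos.2 ⟨v, hvN⟩
  refine ge_false h hm hl (X := X) (Y := S \ X) (u := u) (v := v)
    ⟨fun a => ?_, fun a ha h' => (mem_sdiff.1 h').2 ha, hu, hvY, huv, fun a ha c hcY hac => ?_⟩
  · rw [mem_sdiff]
    constructor
    · intro h1
      by_cases h2 : a ∈ X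
      · exact Or.inl h2
      · exact Or.inr ⟨h1, h2⟩
    · rintro (h1 | h1)
      · exact hX h1
      · exact h1.1
  · have hcN : c ∈ N G (S \ X) a := mem_N.2 ⟨hcY, hac⟩
    have hau : a = u := by
      by_contra hau
      have h1 : (N G (S \ X) a).card ≤ ∑ a ∈ X.erase u, (N G (S \ X) a).card :=
        single_le_sum (f := fun a => (N G (S \ X) a).card) (fun _ _ => Nat.zero_le _)
          (mem_erase.2 ⟨hau, ha⟩)
      have h2 : 0 < (N G (S \ X) a).card := card_pos.2 ⟨c, hcN⟩
      omega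
    refine ⟨hau, ?_⟩
    rw [hau] at hcN
    exact card_le_one.1 (by omega) c hcN v hvN

end Pool.Agent.Lib.MP_5a2675_co.D7
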