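import Mathlib
import Pool.Agent.Lib.MP_5a2675_co.D7.VB

set_option autoImplicit false

namespace Pool.Agent.Lib.MP_5a2675_co.D7

open Finset
open Classical

variable {G G' : SimpleGraph ℕ} {S S' M X : Finset ℕ} {Γ : Gam} {C : Cfg} {f g : ℕ → ℕ}
  {a b c i j k l m n q r s t v w x y A J R Z Mk : ℕ}

theorem ra_chk {p : Bool} {L : List Cfg} (h : p = true → ∃ D ∈ L, ∃ f, Valid G S M D f) :
    Sound G S M (chk p L) := by
  intro L' hl
  cases p
  · simp [chk] at hl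
  · simp only [chk, cond_true, Option.some.injEq] at hl
    exact hl ▸ h rfl

theorem ra_none : Sound G S M none := fun _ hl => by simp at hl

theorem ra_some {L : List Cfg} (h : ∃ D ∈ L, ∃ f, Valid G S M D f) : Sound G S M (some L) := by
  intro L' hl
  rw [Option.some.injEq] at hl
  exact hl ▸ h

theorem ra_kembV {con : List ℕ} {mp : ℕ} (k : ℕ) : ∀ used, kembV C con mp k used = true →
    (∀ q < k, gm mp q - 1 < C.n ∧ tb used (gm mp q - 1) = false ∧
      (con.getD q 0 ≠ 0 → dg C (gm mp q - 1) = con.getD q 0)) ∧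
    ∀ p < k, ∀ q < k, gm mp p - 1 = gm mp q - 1 → p = q := by
  induction k with
  | zero => exact fun _ _ => ⟨fun _ h => absurd h (Nat.not_lt_zero _),
      fun _ h => absurd h (Nat.not_lt_zero _)⟩
  | succ k ih =>
    intro used h
    have h' : (Nat.ble 1 (gm mp k) && Nat.ble (gm mp k) C.n && !(tb used (gm mp k - 1)) &&
        (Nat.beq (con.getD k 0) 0 ||
          (Nat.beq (con.getD k 0) 2 && tb C.d2 (gm mp k - 1) && !(tb C.d1 (gm mp k - 1))) ||
          (Nat.beq (con.getD k 0) 3 && !(tb (Nat.lor C.d1 C.d2) (gm mp k - 1)))) &&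
        kembV C con mp k (Nat.lor used (bit (gm mp k - 1)))) = true := h
    simp only [Bool.and_eq_true, Bool.or_eq_true, Nat.ble_eq, Nat.beq_eq, Bool.not_eq_true'] at h'
    obtain ⟨⟨⟨⟨h1, h2⟩, h3⟩, h4⟩, h5⟩ := h'
    obtain ⟨h6, h7⟩ := ih _ h5
    have h8 : ∀ q < k, tb used (gm mp q - 1) = false ∧ gm mp q - 1 ≠ gm mp k - 1 := by
      intro q hq
      have h9 := (h6 q hq).2.1
      rw [← Bool.not_eq_true, tb_lor, tb_bit, not_or, Bool.not_eq_true] at h9
      exact h9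
    refine ⟨fun q hq => ?_, fun p hp q hq e => ?_⟩
    · rcases Nat.lt_succ_iff_lt_or_eq.1 hq with hq | rfl
      · exact ⟨(h6 q hq).1, (h8 q hq).1, (h6 q hq).2.2⟩
      · refine ⟨by omega, h3, fun h0 => ?_⟩
        rcases h4 with (h4 | ⟨⟨h4, h9⟩, h10⟩) | ⟨h4, h9⟩
        · exact absurd h4 h0
        · rw [h4, dg, if_neg (by simp [h10]), if_pos h9]
        · rw [← Bool.not_eq_true, tb_lor, not_or] at h9
          rw [h4, dg, if_neg h9.1, if_neg h9.2]
    · rcases Nat.lt_succ_iff_lt_or_eq.1 hp with hp | rfl <;>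
        rcases Nat.lt_succ_iff_lt_or_eq.1 hq with hq | rfl
      · exact h7 p hp q hq e
      · exact absurd e (h8 p hp).2
      · exact absurd e.symm (h8 q hq).2
      · rfl

theorem kemb_sound {P : Pat} {mp : ℕ} (hC : Valid G S M C f) (h : kemb C P mp = true) :
    Emb G S P (fun q => f (gm mp q - 1)) ∧ (∀ q < P.k, gm mp q - 1 < C.n) := by
  rw [kemb, Bool.and_eq_true, allL_iff] at h
  obtain ⟨h1, h2⟩ := ra_kembV P.k 0 h.2
  refine ⟨⟨fun q hq => hC.mem _ (h1 q hq).1,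
    fun p hp q hq e => h2 p hp q hq (hC.inj _ (h1 p hp).1 _ (h1 q hq).1 e),
    fun e he => hC.adj _ _ (h.1 e he), fun q hq h0 => ?_⟩, fun q hq => (h1 q hq).1⟩
  exact (hC.deg _ (h1 q hq).1).trans ((h1 q hq).2.2 h0)

theorem ra_types {ty : ℕ} {F : ℕ × Bool → Cfg} {τ : ℕ × Bool} (hτ : tyOK ty τ.1 τ.2 = true)
    (hv : Valid G S M (F τ) f) (L : List (ℕ × Bool)) (hL : τ ∈ L) :
    F τ ∈ (List.rec [] (fun τ _ r => cond (tyOK ty τ.1 τ.2) (keep (F τ) r) r) L : List Cfg) := by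
  induction L with
  | nil => simp at hL
  | cons σ L ih =>
    show F τ ∈ cond (tyOK ty σ.1 σ.2) (keep (F σ) _) _
    rcases List.mem_cons.1 hL with rfl | hL
    · rw [hτ, cond_true]
      exact mem_keep hv
    · cases tyOK ty σ.1 σ.2
      · exact ih hL
      · exact mem_keep_of_mem (ih hL)

theorem rRev_sound (h : Ctx G S M Γ C f) : Sound G S M (rRev Γ C v) := by
  have hC := h.val
  refine ra_chk fun hc => ?_
  simp only [Bool.and_eq_true, Nat.ble_eq] at hc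
  obtain ⟨h1, h2⟩ := hc
  have hv := hC.ltr v h1
  have h3 : 0 < rm C v := by
    rw [rm, h1, Bool.toNat_true]
    omega
  rw [← v_unk_card hC hv, card_pos] at h3
  obtain ⟨w, hw⟩ := h3
  obtain ⟨hw1, hw2⟩ := mem_filter.1 hw
  obtain ⟨hwS, hadj⟩ := mem_N.1 hw1
  have hlt : Lt (dif C.r1 (Nat.lor (row C.A v) (bit v))) 64 := fun i hi =>
    lt_of_lt_of_le (hC.ltr i (tb_dif.1 hi).1) (by omega)
  by_cases hk : ∃ z < C.n, f z = w
  · obtain ⟨z, hz, rfl⟩ := hk
    have h4 : tb (row C.A v) z = false := by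
      rw [← Bool.not_eq_true]
      exact fun h5 => hw2 ⟨z, h5, rfl⟩
    have h5 := valid_addEdge hC hv hz hadj h4
    refine ⟨_, loopB_mem hlt (fun _ _ => mem_keep_of_mem)
      (Or.inr ⟨z, tb_dif.2 ⟨(unk_r1 hC hv hz hadj h4).2, ?_⟩, fun _ => mem_keep h5⟩), f, h5⟩
    rw [← Bool.not_eq_true, tb_lor, tb_bit, h4]
    rintro (h6 | rfl)
    · exact absurd h6 (by simp)
    · exact G.irrefl hadj
  · have h4 := (valid_newE hC h2 hwS (fun i hi e => hk ⟨i, hi, e⟩) (mc_deg3 h.mc w hwS) hv hadj).2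
    exact ⟨_, loopB_mem hlt (fun _ _ => mem_keep_of_mem) (Or.inl
      (ra_types (F := fun τ => addEdge (newV C τ.1 τ.2) v C.n)
        (τ := (deg G S w, decide (w ∈ M))) (h.gam.ty w hwS) h4 types (mem_types h.mc hwS))), _, h4⟩

theorem rWin_sound (h : Ctx G S M Γ C f) : Sound G S M (rWin C l t) := by
  have hC := h.val
  refine ra_chk fun hc => ?_
  simp only [Bool.and_eq_true] at hc
  have hb := hC.bl _ (gb_mem hc.1)
  rcases lt_or_ge ((t : ℤ) - 100) (val (GJ G f (gb C l).J) (bX G S f (gb C l)) ∅) with h1 | h1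
  · exact ⟨_, List.mem_cons_self, f, valid_setB hC (setLo_ok hb fun _ => h1)⟩
  · exact ⟨_, List.mem_cons_of_mem _ List.mem_cons_self, f, valid_setB hC (setHi_ok hb h1)⟩

theorem rLab_sound (h : Ctx G S M Γ C f) : Sound G S M (rLab C l v) := by
  have hC := h.val
  refine ra_chk fun hc => ?_
  simp only [Bool.and_eq_true] at hc
  have hb := hC.bl _ (gb_mem hc.1)
  have hv : v < C.n := tb_ones.1 (tb_dif.1 hc.2).1
  by_cases h1 : f v ∈ bX G S f (gb C l)
  · exact ⟨_, List.mem_cons_self, f,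
      valid_setB hC (growIn_ok hC hb fun i hi => tb_bit.1 hi ▸ ⟨hv, h1⟩)⟩
  · exact ⟨_, List.mem_cons_of_mem _ List.mem_cons_self, f,
      valid_setB hC (growOut_ok hC hb fun i hi => tb_bit.1 hi ▸ ⟨hv, h1⟩)⟩

theorem rXL_sound (h : Ctx G S M Γ C f) : Sound G S M (rXL C l m) := by
  have hC := h.val
  refine ra_chk fun hc => ?_
  simp only [Bool.and_eq_true, Nat.beq_eq, Bool.not_eq_true'] at hc
  obtain ⟨⟨⟨h1, h2⟩, h3⟩, h4⟩ := hc
  have ha := hC.bl _ (gb_mem_of_NOJ h1)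
  have hb := hC.bl _ (gb_mem h2)
  generalize gb C l = B at h1 h3 h4 ha ⊢
  generalize gb C m = B' at h3 h4 hb ⊢
  have hconn : Conn G (bX G S f B) := by
    rw [bX, cX, h1, GJ_NOJ]
    exact comp_conn
  have hsub : bX G S f B ⊆ S \ img f B'.R := by
    intro x hx
    refine mem_sdiff.2 ⟨(mem_sdiff.1 (b_sub ha hx)).1, fun h5 => ?_⟩
    obtain ⟨i, -, hi, rfl⟩ := mem_img.1 h5
    exact ha.out i (sub_iff.1 h3 i hi) hx
  have key : ∀ x ∈ bX G S f B, ∀ y ∈ bX G S f B, x ∈ bX G S f B' → y ∈ bX G S f B' := by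
    intro x hx y hy hx'
    have h5 := conn_subset_comp hconn (le_GJ (f := f) (J := B'.J)) hsub hx hy
    rwa [comp_eq_of_mem hx'] at h5
  obtain ⟨i, hi, hi'⟩ := dj_false_iff.1 h4
  refine ⟨_, mem_keep (valid_setB hC ?_), f, valid_setB hC ?_⟩ <;>
  · cases h5 : dj B.In B'.In
    · obtain ⟨k, hk, hk'⟩ := dj_false_iff.1 h5
      exact growIn_ok hC hb fun j hj =>
        ⟨ha.ltI j hj, key _ (ha.inn k hk) _ (ha.inn j hj) (hb.inn k hk')⟩
    · have h6 : tb B'.Out i = true := (tb_lor.1 hi').resolve_left (by simp [dj_iff.1 h5 i hi])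
      exact growOut_ok hC hb fun j hj =>
        ⟨ha.ltI j hj, fun h7 => hb.out i h6 (key _ (ha.inn j hj) _ (ha.inn i hi) h7)⟩

theorem rPFL_sound (h : Ctx G S M Γ C f) : Sound G S M (rPFL C l i) := by
  have hC := h.val
  unfold rPFL
  cases hc : (okI C.bl l && okI C.pf i)
  · exact ra_none
  rw [Bool.and_eq_true] at hc
  have hb := hC.bl _ (gb_mem hc.1)
  have hx := hC.pf _ (gf_mem hc.2)
  generalize gb C l = B at hb ⊢
  generalize gf C i = x at hx ⊢
  rw [cond_true, rPFL']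
  cases hd : (Nat.beq x.R B.R && Nat.beq x.J B.J && sub x.P0 B.Out && sub (nb C.A x.Dd) B.Out)
  · exact ra_none
  simp only [Bool.and_eq_true, Nat.beq_eq] at hd
  obtain ⟨⟨⟨h1, h2⟩, h3⟩, h4⟩ := hd
  have key : f x.p ∈ bX G S f B →
      x.th ≠ 0 ∧ val (GJ G f B.J) (bX G S f B) ∅ ≤ (x.th : ℤ) - 100 := by
    intro hp
    have e : cX G S f x.R x.J x.p = bX G S f B := by
      rw [h1, h2]
      exact comp_eq_of_mem hp
    have h5 := hx.alt
    rw [e, h2] at h5
    rcases h5 with ⟨k, hk, h5⟩ | ⟨y, hy, h5⟩ | ⟨y, hy, k, hk, h5⟩ | h5 | h5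
    · exact absurd h5 (hb.out k (sub_iff.1 h3 k hk))
    · exact absurd h5 (hb.unm y hy)
    · obtain ⟨k', hk', rfl⟩ := hb.kn y hy k (h1 ▸ hx.dR k hk) h5
      have h6 : Lt x.Dd 64 := fun j hj =>
        lt_of_lt_of_le (hx.ltR j (hx.dR j hj)) (hC.n_le.trans (by norm_num))
      exact absurd hy (hb.out k' (sub_iff.1 h4 k' ((tb_nb h6).2 ⟨k, hk, hk'⟩)))
    · exact absurd hb.ncub h5
    · exact h5
  rw [cond_true]
  cases he : Nat.ble x.th B.lo
  · refine ra_chk fun hp => ?_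
    exact ⟨_, List.mem_cons_self, f, valid_setB hC (setHi_ok hb (key (hb.inn _ hp)).2)⟩
  · rw [Nat.ble_eq] at he
    have h5 : f x.p ∉ bX G S f B := fun hp => by
      obtain ⟨h6, h7⟩ := key hp
      have h8 := hb.lo (by omega)
      omega
    have h6 := valid_setB (l := l) hC
      (growOut_ok (s := bit x.p) hC hb fun j hj => tb_bit.1 hj ▸ ⟨hx.pn, h5⟩)
    exact ra_some ⟨_, mem_keep h6, f, h6⟩

theorem rDead_sound (h : Ctx G S M Γ C f) : Sound G S M (rDead C l) := by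
  refine ra_chk fun hc => ?_
  simp only [Bool.and_eq_true, Nat.ble_eq] at hc
  obtain ⟨⟨h1, h2⟩, h3⟩ := hc
  have hb := h.val.bl _ (gb_mem h1)
  have h4 := hb.lo (by omega)
  have h5 := hb.hi
  omega

theorem rDrop_sound (h : Ctx G S M Γ C f) : Sound G S M (rDrop C l) :=
  ra_some ⟨_, List.mem_cons_self, f, valid_erase h.val⟩

theorem rKC_sound (h : Ctx G S M Γ C f) : Sound G S M (rKC C i m) := by
  have hC := h.val
  refine ra_chk fun hc => ?_
  obtain ⟨h1, h2⟩ := kemb_sound hC hc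
  have hP : [Ta, Tb, Te, T3].getD i T1 ∈ [Ta, Tb, Te, T3, T1] := by
    rcases i with _ | _ | _ | _ | i <;> simp
  refine ⟨_, List.mem_cons_self, f, { hC with kc := fun j hj => ?_ }⟩
  rcases tb_lor.1 hj with hj | hj
  · exact hC.kc j hj
  · obtain rfl := tb_bit.1 hj
    exact ⟨h2 0 (gb_root _ hP).1, _, hP, _, h1, rfl⟩

theorem ra_all (hc : Conn G S) (hC : Valid G S M C f) (h0 : C.r1 = 0) (h1 : 1 ≤ C.n) :
    (range C.n).image f = S := by
  refine hc _ ⟨fun x hx => ?_, fun x hx w hw ha => ?_⟩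
    ⟨f 0, mem_image_of_mem f (mem_range.2 h1)⟩
  · obtain ⟨i, hi, rfl⟩ := mem_image.1 hx
    exact hC.mem i (mem_range.1 hi)
  · obtain ⟨i, hi, rfl⟩ := mem_image.1 hx
    rcases v_known hC (mem_range.1 hi) hw ha with ⟨k, hk, rfl⟩ | h2
    · exact mem_image_of_mem f (mem_range.2 (hC.rlt i k hk).2)
    · rw [h0, tb_zero] at h2
      exact absurd h2 (by simp)

theorem rHT_sound (h : Ctx G S M Γ C f) : Sound G S M (rHT C i m) := by
  have hC := h.val
  refine ra_chk fun hc => ?_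
  simp only [Bool.and_eq_true, Nat.beq_eq] at hc
  obtain ⟨⟨⟨h1, h2⟩, h3⟩, h4⟩ := hc
  have hP : [H4, H7].getD i H10 ∈ [H4, H7, H10] := by
    rcases i with _ | _ | i <;> simp
  have hk : 1 ≤ ([H4, H7].getD i H10).k := by
    rcases i with _ | _ | i <;> simp [H4, H7, H10]
  generalize [H4, H7].getD i H10 = P at h3 h4 hP hk
  have hE := (kemb_sound hC h4).1
  have hS := ra_all h.mc.conn hC h1 (h3 ▸ hk)
  refine ⟨_, List.mem_cons_self, f, { hC with ht := fun _ => ?_ }⟩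
  have hm : ¬ ∃ v ∈ S, v ∈ M := by
    rintro ⟨v, hv, hm⟩
    rw [← hS] at hv
    obtain ⟨j, hj, rfl⟩ := mem_image.1 hv
    have h5 := (hC.mark j (mem_range.1 hj)).1 hm
    rw [h2, tb_zero] at h5
    exact absurd h5 (by simp)
  have e : (range P.k).image (fun q => f (gm m q - 1)) = S := by
    refine eq_of_subset_of_card_le (fun x hx => ?_) ?_
    · obtain ⟨q, hq, rfl⟩ := mem_image.1 hx
      exact hE.1 q (mem_range.1 hq)
    · rw [card_image_of_injOn fun p hp q hq e =>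
        hE.2.1 p (mem_range.1 (mem_coe.1 hp)) q (mem_range.1 (mem_coe.1 hq)) e, ← hS, ← h3]
      exact card_image_le
  have hH : Heavy G S := ⟨P, hP, _, hE, fun v hv => by
    rw [← e] at hv
    obtain ⟨q, hq, rfl⟩ := mem_image.1 hv
    exact ⟨q, mem_range.1 hq, rfl⟩⟩
  rw [cc, if_neg hm, if_pos hH]

theorem rCite_sound (h : Ctx G S M Γ C f) : Sound G S M (rCite Γ C i m) :=
  ra_chk fun hc => absurd ⟨_, (kemb_sound h.val hc).1⟩ (h.gam.pats i)

theorem rCub_sound (h : Ctx G S M Γ C f) : Sound G S M (rCub C) := by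
  have hC := h.val
  refine ra_chk fun hc => ?_
  simp only [Bool.and_eq_true, Nat.beq_eq, Nat.ble_eq] at hc
  obtain ⟨⟨⟨h1, h2⟩, h3⟩, h4⟩ := hc
  obtain ⟨v, hv, h5⟩ := h.mc.noncub
  rw [← ra_all h.mc.conn hC h1 h4] at hv
  obtain ⟨j, hj, rfl⟩ := mem_image.1 hv
  rw [hC.deg j (mem_range.1 hj), dg, h2, h3, tb_zero] at h5
  simp at h5

end Pool.Agent.Lib.MP_5a2675_co.D7
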