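import Mathlib
import Pool.Agent.Lib.MP_5a2675_co.D7.VB

set_option autoImplicit false

namespace Pool.Agent.Lib.MP_5a2675_co.D7

open Finset
open Classical

variable {G G' : SimpleGraph ℕ} {S S' M X : Finset ℕ} {Γ : Gam} {C : Cfg} {f g : ℕ → ℕ}
  {a b c i j k l m n q r s t v w x y A J R Z Mk : ℕ}

variable {m0 m2 m3 ty mp used : ℕ} {acc : List Cfg} {D : Cfg} {P : Pat}

theorem pa_loop_mem {α : Type} {F : ℕ → List α → List α} {d : α}
    (hF : ∀ i r, d ∈ r → d ∈ F i r) (fuel : ℕ) : ∀ (m : ℕ) (z : List α), d ∈ z →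
    d ∈ loopB F fuel m z := by
  induction fuel with
  | zero => exact fun _ _ h => h
  | succ n ih =>
    intro m z h
    change d ∈ cond (Nat.beq m 0) z (loopB F n (Nat.xor m (bit (Nat.log2 m))) (F (Nat.log2 m) z))
    cases Nat.beq m 0
    · exact ih _ _ (hF _ _ h)
    · exact h

theorem pa_rec_ex {α β : Type} (F : α → List β → List β) (z : List β) (p : β → Prop)
    (hF : ∀ a r, (∃ d ∈ r, p d) → ∃ d ∈ F a r, p d) (L : List α)
    (hd : (∃ d ∈ z, p d) ∨ ∃ a ∈ L, ∀ r, ∃ d ∈ F a r, p d) :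
    ∃ d ∈ (List.rec z (fun a _ r => F a r) L : List β), p d := by
  induction L with
  | nil =>
    rcases hd with h | ⟨a, ha, -⟩
    · exact h
    · cases ha
  | cons b L ih =>
    rcases hd with h | ⟨a, ha, h⟩
    · exact hF _ _ (ih (Or.inl h))
    · rcases List.mem_cons.1 ha with rfl | ha
      · exact h _
      · exact hF _ _ (ih (Or.inr ⟨a, ha, h⟩))

theorem pa_rec_mem {α β : Type} (F : α → List β → List β) {z : List β} {d : β}
    (hF : ∀ a r, d ∈ r → d ∈ F a r) (L : List α) (hd : d ∈ z) :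
    d ∈ (List.rec z (fun a _ r => F a r) L : List β) := by
  induction L with
  | nil => exact hd
  | cons b L ih => exact hF _ _ ih

/-- the continuation keeps the accumulator -/
def PaMono (ih : PK') : Prop :=
  ∀ (C : Cfg) (mp used m0 m2 m3 : ℕ) (acc : List Cfg) (D : Cfg), D ∈ acc →
    D ∈ ih C mp used m0 m2 m3 acc

theorem pa_go {ih : PK'} (H : PaMono ih) (h : D ∈ acc) :
    D ∈ peGo ih C mp used m0 m2 m3 acc := by
  unfold peGo
  cases clash C
  · exact H _ _ _ _ _ _ _ _ h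
  · exact h

theorem pa_go_eq {ih : PK'} (h : Valid G S M C f) :
    peGo ih C mp used m0 m2 m3 acc = ih C mp used m0 m2 m3 acc := by
  unfold peGo
  rw [not_clash h]
  rfl

theorem pa_newV {ih : PK'} (H : PaMono ih) (h : D ∈ acc) :
    D ∈ peNewV ty k ih C x q mp used m0 m2 m3 acc := by
  unfold peNewV
  refine pa_rec_mem (fun (τ : ℕ × Bool) r => cond (tyOK ty τ.1 τ.2 && (Nat.beq k 0 || Nat.beq k τ.1))
    (peGo ih (addEdge (newV C τ.1 τ.2) x C.n) (sm mp q C.n) (Nat.lor used (bit C.n))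
      (Nat.lor m0 (bit C.n)) (orIf (Nat.beq τ.1 2) m2 (bit C.n))
      (orIf (Nat.beq τ.1 3) m3 (bit C.n)) r) r) (fun τ r hr => ?_) types h
  cases (tyOK ty τ.1 τ.2 && (Nat.beq k 0 || Nat.beq k τ.1))
  · exact hr
  · exact pa_go H hr

theorem pa_cons {con : List ℕ} {e : ℕ × ℕ} {es : List (ℕ × ℕ)} :
    pe ty J con (e :: es) C mp used m0 m2 m3 acc =
      cond (Nat.beq (gm mp e.2) 0)
        (peNew ty (con.getD e.2 0) (pe ty J con es) C (Nat.pred (gm mp e.1)) e.2
          (dif (sel (con.getD e.2 0) m0 m2 m3) used) (adjJ C.A J (Nat.pred (gm mp e.1)))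
          mp used m0 m2 m3 acc)
        (peOld J (pe ty J con es) C (Nat.pred (gm mp e.1)) (Nat.pred (gm mp e.2)) mp used
          m0 m2 m3 acc) := rfl

theorem pa_mono (con : List ℕ) (es : List (ℕ × ℕ)) : PaMono (pe ty J con es) := by
  induction es with
  | nil => exact fun C _ _ _ _ _ acc D h => List.mem_cons_of_mem _ h
  | cons e es ih =>
    intro C mp used m0 m2 m3 acc D h
    rw [pa_cons]
    cases Nat.beq (gm mp e.2) 0
    · change D ∈ peOld _ _ _ _ _ _ _ _ _ _ _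
      unfold peOld
      cases tb (adjJ C.A J (gm mp e.1).pred) (gm mp e.2).pred
      · cases (tb C.r1 (gm mp e.1).pred && tb C.r1 (gm mp e.2).pred)
        · exact h
        · exact pa_go ih h
      · exact ih _ _ _ _ _ _ _ _ h
    · change D ∈ peNew _ _ _ _ _ _ _ _ _ _ _ _ _ _
      unfold peNew
      refine pa_loop_mem (fun i r hr => ih _ _ _ _ _ _ _ _ hr) _ _ _ ?_
      cases tb C.r1 (gm mp e.1).pred
      · exact h
      · rw [cond_true]
        exact pa_loop_mem (fun i r hr => pa_go ih hr) _ _ _ (pa_newV ih h)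

theorem pe_acc {con : List ℕ} {es : List (ℕ × ℕ)} (h : D ∈ acc) :
    D ∈ pe ty J con es C mp used m0 m2 m3 acc := pa_mono con es _ _ _ _ _ _ _ _ h

theorem pe1_acc {L : List RP} (h : D ∈ acc) : D ∈ pe1 ty J C v m0 m2 m3 L acc := by
  unfold pe1
  refine pa_rec_mem (fun (Q : RP) r => cond (tb (sel (Q.con.getD Q.p 0) m0 m2 m3) v)
    (pe ty J Q.con Q.es C (sm 0 Q.p v) (bit v) m0 m2 m3 r) r) (fun Q r hr => ?_) L h
  cases tb (sel (Q.con.getD Q.p 0) m0 m2 m3) v
  · exact hr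
  · exact pe_acc hr

theorem pe2_acc {L : List RP} (h : D ∈ acc) : D ∈ pe2 ty J C a b m0 m2 m3 L acc := by
  unfold pe2
  refine pa_rec_mem (fun (Q : RP) r =>
    cond (tb (sel (Q.con.getD Q.p 0) m0 m2 m3) a && tb (sel (Q.con.getD Q.q 0) m0 m2 m3) b)
      (pe ty J Q.con Q.es C (sm (sm 0 Q.p a) Q.q b) (Nat.lor (bit a) (bit b)) m0 m2 m3 r) r)
    (fun Q r hr => ?_) L h
  cases (tb (sel (Q.con.getD Q.p 0) m0 m2 m3) a && tb (sel (Q.con.getD Q.q 0) m0 m2 m3) b)
  · exact hr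
  · exact pe_acc hr

theorem pa_peh_edge (hP : PEH G S C f J m0 m2 m3 P g) :
    PEH G S (addEdge C x y) f J m0 m2 m3 P g :=
  ⟨hP.wf, hP.mem, hP.inj, hP.adj, hP.old, hP.new⟩

/-- an edge of the pattern that is neither known nor a join -/
theorem pa_unknown (hC : Valid G S M C f) (hJ : jwf C.n J = true) (hx : x < C.n) (hy : y < C.n)
    (h : (GJ G f J).Adj (f x) (f y)) (hn : tb (adjJ C.A J x) y = false) :
    G.Adj (f x) (f y) ∧ tb (row C.A x) y = false := by
  have h62 := hC.n_le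
  have h1 : ¬ (tb (row C.A x) y = true ∨ tb (jp J x) y = true) := by
    rw [← tb_adjJ, hn]; simp
  refine ⟨?_, by simpa using fun h => h1 (Or.inl h)⟩
  rcases (GJ_adj hJ (by omega) hC.inj).1 h with h | ⟨i, j, hi, hj, e1, e2⟩
  · exact h
  · obtain rfl := hC.inj i hi x hx e1
    obtain rfl := hC.inj j (jp_lt hJ (by omega) (by omega) hj).2.1 y hy e2
    exact absurd (Or.inr hj) h1

theorem pa_sel_new {d : ℕ} (h : k ≠ 0 → d = k) :
    tb (sel k (Nat.lor m0 (bit n)) (orIf (Nat.beq d 2) m2 (bit n))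
      (orIf (Nat.beq d 3) m3 (bit n))) n = true := by
  unfold sel
  by_cases h2 : k = 2
  · subst h2
    exact tb_orIf.2 (Or.inr ⟨by rw [h (by norm_num)]; rfl, tb_bit.2 rfl⟩)
  by_cases h3 : k = 3
  · subst h3
    exact tb_orIf.2 (Or.inr ⟨by rw [h (by norm_num)]; rfl, tb_bit.2 rfl⟩)
  rw [show Nat.beq k 2 = false by simpa [← Bool.not_eq_true] using h2,
    show Nat.beq k 3 = false by simpa [← Bool.not_eq_true] using h3]
  exact tb_lor.2 (Or.inr (tb_bit.2 rfl))

theorem pa_sel_old {p₂ p₃ : Bool} (h : tb (sel k m0 m2 m3) i = true) :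
    tb (sel k (Nat.lor m0 x) (orIf p₂ m2 x) (orIf p₃ m3 x)) i = true := by
  unfold sel at h ⊢
  revert h
  cases Nat.beq k 2
  · cases Nat.beq k 3
    · exact fun h => tb_lor.2 (Or.inl h)
    · exact fun h => tb_orIf.2 (Or.inl h)
  · exact fun h => tb_orIf.2 (Or.inl h)

/-- the bookkeeping after placing the pattern vertex `q` at `z` -/
theorem pa_place {f' : ℕ → ℕ} {n' z : ℕ} (h0 : gm mp q = 0) (hz : z < n') (hn : n' ≤ 62)
    (hle : n ≤ n') (hq : q < P.k) (hf : ∀ i < n, f' i = f i) (e : f' z = g q)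
    (ha : ∀ q, tb a q = true → gm mp q ≠ 0)
    (hmp : ∀ q, gm mp q ≠ 0 → q < P.k ∧ gm mp q - 1 < n ∧ f (gm mp q - 1) = g q)
    (hu : ∀ z, tb used z = true → ∃ q, gm mp q = z + 1) :
    (∀ p, tb (Nat.lor a (bit q)) p = true → gm (sm mp q z) p ≠ 0) ∧
    (∀ p, gm (sm mp q z) p ≠ 0 → p < P.k ∧ gm (sm mp q z) p - 1 < n' ∧
      f' (gm (sm mp q z) p - 1) = g p) ∧
    ∀ y, tb (Nat.lor used (bit z)) y = true → ∃ p, gm (sm mp q z) p = y + 1 := by
  have key : ∀ p, gm (sm mp q z) p = if p = q then z + 1 else gm mp p :=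
    fun p => gm_sm h0 (by omega)
  refine ⟨fun p hp => ?_, fun p hp => ?_, fun y hy => ?_⟩
  · rw [key]
    split_ifs with h
    · omega
    · rcases tb_lor.1 hp with h1 | h1
      · exact ha p h1
      · exact absurd (tb_bit.1 h1) h
  · rw [key] at hp ⊢
    split_ifs at hp ⊢ with h
    · subst h
      exact ⟨hq, by omega, e⟩
    · obtain ⟨h1, h2, h3⟩ := hmp p hp
      exact ⟨h1, by omega, by rw [hf _ h2, h3]⟩
  · rcases tb_lor.1 hy with h1 | h1
    · obtain ⟨p, hp⟩ := hu y h1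
      refine ⟨p, ?_⟩
      rw [key, if_neg, hp]
      rintro rfl
      omega
    · exact ⟨q, by rw [key, if_pos rfl, tb_bit.1 h1]⟩

theorem pa_keep {p : Cfg → Prop} {L L' : List Cfg} (h : ∀ D ∈ L, D ∈ L') (hd : ∃ d ∈ L, p d) :
    ∃ d ∈ L', p d := hd.imp fun d hd => ⟨h d hd.1, hd.2⟩

/-- the enumeration finds every copy; `a` is the mask of the pattern vertices placed so far -/
theorem pe_sound (hm : MC G S M) (hty : ∀ v ∈ S, tyOK ty (deg G S v) (decide (v ∈ M)) = true)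
    {es : List (ℕ × ℕ)} (hC : Valid G S M C f) (hP : PEH G S C f J m0 m2 m3 P g)
    (ho : ordOK P.k es a = true) (hE : ∀ e ∈ es, e ∈ P.E ∨ e.swap ∈ P.E)
    (hn : C.n + es.length ≤ 62) (ha : ∀ q, tb a q = true → gm mp q ≠ 0)
    (hmp : ∀ q, gm mp q ≠ 0 → q < P.k ∧ gm mp q - 1 < C.n ∧ f (gm mp q - 1) = g q)
    (hu : ∀ z, tb used z = true → ∃ q, gm mp q = z + 1) :
    ∃ D ∈ pe ty J P.con es C mp used m0 m2 m3 acc, ∃ f', Valid G S M D f' := by
  induction es generalizing C f mp used m0 m2 m3 a acc with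
  | nil => exact ⟨C, List.mem_cons_self, f, hC⟩
  | cons e es ih =>
    have mono := pa_mono (ty := ty) (J := J) P.con es
    have ho' : (tb a e.1 && Nat.ble (Nat.succ e.1) P.k && Nat.ble (Nat.succ e.2) P.k &&
      ordOK P.k es (Nat.lor a (bit e.2))) = true := ho
    simp only [Bool.and_eq_true, Nat.ble_eq] at ho'
    obtain ⟨⟨⟨o1, -⟩, o3⟩, o4⟩ := ho'
    have hq : e.2 < P.k := o3
    have hE' : ∀ e' ∈ es, e' ∈ P.E ∨ e'.swap ∈ P.E := fun e' he => hE e' (List.mem_cons_of_mem _ he)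
    rw [List.length_cons] at hn
    obtain ⟨-, hx, fx⟩ := hmp e.1 (ha _ o1)
    have hadj : (GJ G f J).Adj (g e.1) (g e.2) := by
      rcases hE e List.mem_cons_self with h | h
      · exact hP.adj e h
      · exact (hP.adj e.swap h).symm
    rw [pa_cons, Nat.pred_eq_sub_one, Nat.pred_eq_sub_one]
    generalize gm mp e.1 - 1 = x at hx fx
    rw [← fx] at hadj
    by_cases h0 : gm mp e.2 = 0
    · rw [show Nat.beq (gm mp e.2) 0 = true by rw [h0]; rfl, cond_true]
      unfold peNew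
      have lt1 : Lt (Nat.land (adjJ C.A J x) (dif (sel (P.con.getD e.2 0) m0 m2 m3) used)) 64 :=
        fun i hi => adjJ_Lt i (tb_land.1 hi).1
      have lt2 : Lt (dif (Nat.land C.r1 (dif (sel (P.con.getD e.2 0) m0 m2 m3) used))
          (adjJ C.A J x)) 64 := fun i hi => by
        have := hC.ltr i (tb_land.1 (tb_dif.1 hi).1).1
        omega
      refine loopB_ex lt1 (fun i r => pa_keep fun D => mono _ _ _ _ _ _ _ D) ?_
      by_cases hz : ∃ z < C.n, f z = g e.2
      · obtain ⟨z, hz, fz⟩ := hz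
        have hal : tb (dif (sel (P.con.getD e.2 0) m0 m2 m3) used) z = true := by
          refine tb_dif.2 ⟨hP.old z hz _ hq fz, ?_⟩
          by_contra hc
          obtain ⟨p, hp⟩ := hu z (by simpa using hc)
          obtain ⟨h1, -, h3⟩ := hmp p (by omega)
          rw [hp, Nat.add_sub_cancel, fz] at h3
          rw [← hP.inj _ hq _ h1 h3] at hp
          omega
        obtain ⟨k1, k2, k3⟩ := pa_place (P := P) h0 hz hC.n_le le_rfl hq (fun _ _ => rfl) fz ha hmp hu
        cases hk : tb (adjJ C.A J x) z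
        · rw [← fz] at hadj
          obtain ⟨u1, u2⟩ := pa_unknown hC hP.wf hx hz hadj hk
          obtain ⟨r1, r2⟩ := unk_r1 hC hx hz u1 u2
          have hV := valid_addEdge hC hx hz u1 u2
          rw [r1, cond_true]
          refine Or.inl (loopB_ex lt2 (fun i r => pa_keep fun D => pa_go mono)
            (Or.inr ⟨z, tb_dif.2 ⟨tb_land.2 ⟨r2, hal⟩, hk⟩, fun r => ?_⟩))
          rw [pa_go_eq hV]
          exact ih hV (pa_peh_edge hP) o4 hE' (by rw [addEdge_n]; omega) k1 k2 k3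
        · exact Or.inr ⟨z, tb_land.2 ⟨hk, hal⟩, fun r => ih hC hP o4 hE' (by omega) k1 k2 k3⟩
      · have hz' : ∀ i < C.n, f i ≠ g e.2 := fun i hi h => hz ⟨i, hi, h⟩
        have hw := hP.mem _ hq
        have u1 : G.Adj (f x) (g e.2) := by
          rcases (GJ_adj hP.wf (by omega) hC.inj).1 hadj with h | ⟨i, j, hi, hj, -, e2⟩
          · exact h
          · exact absurd e2 (hz' j (jp_lt hP.wf (by omega) (by omega) hj).2.1)
        obtain ⟨r1, hV⟩ := valid_newE hC (by omega) hw hz' (mc_deg3 hm _ hw) hx u1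
        have hn' : (addEdge (newV C (deg G S (g e.2)) (decide (g e.2 ∈ M))) x C.n).n = C.n + 1 := by
          rw [addEdge_n, newV_n]
        have hf : ∀ i < C.n, Function.update f C.n (g e.2) i = f i :=
          fun i hi => Function.update_of_ne hi.ne _ _
        obtain ⟨k1, k2, k3⟩ := pa_place (P := P) h0 (Nat.lt_succ_self C.n) (by omega)
          (Nat.le_succ _) hq hf (Function.update_self _ _ _) ha hmp hu
        have hdeg := hP.new _ hq hz'
        have hP' : PEH G S (addEdge (newV C (deg G S (g e.2)) (decide (g e.2 ∈ M))) x C.n)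
            (Function.update f C.n (g e.2)) J (Nat.lor m0 (bit C.n))
            (orIf (Nat.beq (deg G S (g e.2)) 2) m2 (bit C.n))
            (orIf (Nat.beq (deg G S (g e.2)) 3) m3 (bit C.n)) P g := by
          refine ⟨?_, hP.mem, hP.inj, ?_, fun i hi p hp h => ?_, fun p hp h => ?_⟩
          · rw [hn']; exact jwf_mono hP.wf (by omega) (by omega)
          · rw [GJ_congr hP.wf (by omega) hf]; exact hP.adj
          · rw [hn'] at hi
            rcases Nat.lt_succ_iff_lt_or_eq.1 hi with hi | rfl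
            · rw [hf i hi] at h
              exact pa_sel_old (hP.old i hi p hp h)
            · rw [Function.update_self] at h
              obtain rfl := hP.inj _ hq _ hp h
              exact pa_sel_new hdeg
          · refine hP.new p hp fun i hi => ?_
            rw [← hf i hi]
            exact h i (by rw [hn']; omega)
        rw [r1, cond_true]
        refine Or.inl (loopB_ex lt2 (fun i r => pa_keep fun D => pa_go mono) (Or.inl ?_))
        unfold peNewV
        refine pa_rec_ex (fun (τ : ℕ × Bool) r => cond (tyOK ty τ.1 τ.2 &&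
            (Nat.beq (P.con.getD e.2 0) 0 || Nat.beq (P.con.getD e.2 0) τ.1))
          (peGo (pe ty J P.con es) (addEdge (newV C τ.1 τ.2) x C.n) (sm mp e.2 C.n)
            (Nat.lor used (bit C.n)) (Nat.lor m0 (bit C.n)) (orIf (Nat.beq τ.1 2) m2 (bit C.n))
            (orIf (Nat.beq τ.1 3) m3 (bit C.n)) r) r) acc _ (fun τ r hr => ?_) types
          (Or.inr ⟨_, mem_types hm hw, fun r => ?_⟩)
        · cases (tyOK ty τ.1 τ.2 &&
            (Nat.beq (P.con.getD e.2 0) 0 || Nat.beq (P.con.getD e.2 0) τ.1))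
          · exact hr
          · exact pa_keep (fun D => pa_go mono) hr
        · have hc : (tyOK ty (deg G S (g e.2)) (decide (g e.2 ∈ M)) &&
              (Nat.beq (P.con.getD e.2 0) 0 || Nat.beq (P.con.getD e.2 0) (deg G S (g e.2)))) =
              true := by
            simp only [Bool.and_eq_true, Bool.or_eq_true, Nat.beq_eq]
            exact ⟨hty _ hw, or_iff_not_imp_left.2 fun h => (hdeg h).symm⟩
          simp only [hc, cond_true]
          rw [pa_go_eq hV]
          exact ih hV hP' o4 hE' (by rw [hn']; omega) k1 (by rw [hn']; exact k2) k3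
    · rw [show Nat.beq (gm mp e.2) 0 = false by simpa [← Bool.not_eq_true] using h0, cond_false]
      obtain ⟨-, hy, fy⟩ := hmp e.2 h0
      have k1 : ∀ p, tb (Nat.lor a (bit e.2)) p = true → gm mp p ≠ 0 := by
        intro p hp
        rcases tb_lor.1 hp with h | h
        · exact ha p h
        · rw [tb_bit.1 h]; exact h0
      generalize gm mp e.2 - 1 = y at hy fy
      unfold peOld
      cases hk : tb (adjJ C.A J x) y
      · rw [← fy] at hadj
        obtain ⟨u1, u2⟩ := pa_unknown hC hP.wf hx hy hadj hk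
        obtain ⟨r1, r2⟩ := unk_r1 hC hx hy u1 u2
        have hV := valid_addEdge hC hx hy u1 u2
        rw [r1, r2, cond_false, Bool.and_self, cond_true, pa_go_eq hV]
        exact ih hV (pa_peh_edge hP) o4 hE' (by rw [addEdge_n]; omega) k1 hmp hu
      · exact ih hC hP o4 hE' (by omega) k1 hmp hu

theorem peh_aut {σ : List ℕ} (hP : PEH G S C f J m0 m2 m3 P g) (hσ : Aut P σ) :
    PEH G S C f J m0 m2 m3 P (fun i => g (σ.getD i 0)) := by
  obtain ⟨h1, h2, h3, h4⟩ := hσ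
  refine ⟨hP.wf, fun q hq => hP.mem _ (h1 q hq),
    fun p hp q hq h => h2 p hp q hq (hP.inj _ (h1 p hp) _ (h1 q hq) h), fun e he => ?_,
    fun i hi q hq h => ?_, fun q hq h => ?_⟩
  · rcases h3 e he with h | h
    · exact hP.adj _ h
    · exact (hP.adj _ h).symm
  · rw [← h4 q hq]; exact hP.old i hi _ (h1 q hq) h
  · rw [← h4 q hq]; exact hP.new _ (h1 q hq) h

theorem pa_start {p : ℕ} (hv : v < n) (hn : n ≤ 62) (hp : p < P.k) (e : f v = g p) :
    (∀ q, tb (bit p) q = true → gm (sm 0 p v) q ≠ 0) ∧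
    (∀ q, gm (sm 0 p v) q ≠ 0 → q < P.k ∧ gm (sm 0 p v) q - 1 < n ∧
      f (gm (sm 0 p v) q - 1) = g q) ∧
    ∀ y, tb (bit v) y = true → ∃ q, gm (sm 0 p v) q = y + 1 := by
  obtain ⟨k1, k2, k3⟩ := pa_place (P := P) (mp := 0) (a := 0) (used := 0) (f := f) (n := n) gm_zero
    hv hn le_rfl hp (fun _ _ => rfl) e (fun q h => by simp [tb_zero] at h)
    (fun q h => absurd gm_zero h) (fun q h => by simp [tb_zero] at h)
  exact ⟨fun q h => k1 q (tb_lor.2 (Or.inr h)), k2, fun y h => k3 y (tb_lor.2 (Or.inr h))⟩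

theorem pe1_cov (h : Ctx G S M Γ C f) (hP : PEH G S C f J m0 m2 m3 P g) {L L' : List RP}
    (hc : Cov1 P L q) (hL : ∀ Q ∈ L, Q ∈ L') (hn : C.n ≤ 47) (hv : v < C.n) (hq : f v = g q) :
    ∃ D ∈ pe1 Γ.ty J C v m0 m2 m3 L' acc, ∃ f', Valid G S M D f' := by
  obtain ⟨Q, hQ, σ, hσ, ⟨c1, c2, c3, c4⟩, hp, rfl⟩ := hc
  have hP' := peh_aut hP hσ
  unfold pe1
  refine pa_rec_ex (fun (Q : RP) r => cond (tb (sel (Q.con.getD Q.p 0) m0 m2 m3) v)
    (pe Γ.ty J Q.con Q.es C (sm 0 Q.p v) (bit v) m0 m2 m3 r) r) acc _ (fun Q r hr => ?_) L'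
    (Or.inr ⟨Q, hL Q hQ, fun r => ?_⟩)
  · cases tb (sel (Q.con.getD Q.p 0) m0 m2 m3) v
    · exact hr
    · exact pa_keep (fun D => pe_acc) hr
  · obtain ⟨k1, k2, k3⟩ := pa_start (P := P) (g := fun i => g (σ.getD i 0)) hv h.val.n_le hp hq
    simp only [c1, hP'.old v hv _ hp hq, cond_true]
    exact pe_sound h.mc h.gam.ty h.val hP' c2 c3 (by omega) k1 k2 k3

theorem pe2_cov (h : Ctx G S M Γ C f) (hP : PEH G S C f J m0 m2 m3 P g) {L L' : List RP}
    (hc : Cov2 P L i j) (hL : ∀ Q ∈ L, Q ∈ L') (hn : C.n ≤ 47) (ha : a < C.n) (hb : b < C.n)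
    (hi : f a = g i) (hj : f b = g j) :
    ∃ D ∈ pe2 Γ.ty J C a b m0 m2 m3 L' acc, ∃ f', Valid G S M D f' := by
  obtain ⟨Q, hQ, σ, hσ, ⟨c1, c2, c3, c4⟩, hp, hq, hne, rfl, rfl⟩ := hc
  have hP' := peh_aut hP hσ
  unfold pe2
  refine pa_rec_ex (fun (Q : RP) r =>
    cond (tb (sel (Q.con.getD Q.p 0) m0 m2 m3) a && tb (sel (Q.con.getD Q.q 0) m0 m2 m3) b)
      (pe Γ.ty J Q.con Q.es C (sm (sm 0 Q.p a) Q.q b) (Nat.lor (bit a) (bit b)) m0 m2 m3 r) r)
    acc _ (fun Q r hr => ?_) L' (Or.inr ⟨Q, hL Q hQ, fun r => ?_⟩)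
  · cases (tb (sel (Q.con.getD Q.p 0) m0 m2 m3) a && tb (sel (Q.con.getD Q.q 0) m0 m2 m3) b)
    · exact hr
    · exact pa_keep (fun D => pe_acc) hr
  · obtain ⟨k1, k2, k3⟩ := pa_start (P := P) (g := fun i => g (σ.getD i 0)) ha h.val.n_le hp hi
    have h0 : gm (sm 0 Q.p a) Q.q = 0 := by
      rw [gm_sm gm_zero (by omega), if_neg hne.symm, gm_zero]
    obtain ⟨l1, l2, l3⟩ := pa_place (P := P) (g := fun i => g (σ.getD i 0)) h0 hb h.val.n_le le_rfl
      hq (fun _ _ => rfl) hj k1 k2 k3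
    simp only [c1, hP'.old a ha _ hp hi, hP'.old b hb _ hq hj, Bool.and_self, cond_true]
    exact pe_sound h.mc h.gam.ty h.val hP' c2 c3 (by omega) l1 l2 l3

/-- a copy of `P` in the graph gives one of the start configurations -/
theorem rootKids_sound (hm : MC G S M) (hΓ : GamOK G S M Γ) (hP : patOK P = true)
    (hg : Emb G S P g) : ∃ D ∈ rootKids Γ.ty P, ∃ f, Valid G S M D f := by
  unfold patOK at hP
  simp only [Bool.and_eq_true, Nat.ble_eq] at hP
  obtain ⟨⟨p1, p2⟩, p3⟩ := hP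
  obtain ⟨g1, g2, g3, g4⟩ := hg
  have hw := g1 0 p2
  have hV := valid_newV (valid_empty (G := G) (S := S) (M := M) (f := g)) (Nat.zero_le _) hw
    (fun i hi => absurd hi (Nat.not_lt_zero _)) (mc_deg_pos hm hw) (mc_deg3 hm _ hw)
  have hf : Function.update g empty.n (g 0) = g := Function.update_eq_self 0 g
  rw [hf] at hV
  have hn : (newV empty (deg G S (g 0)) (decide (g 0 ∈ M))).n = 1 := rfl
  have hP' : PEH G S (newV empty (deg G S (g 0)) (decide (g 0 ∈ M))) g NOJ 1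
      (cond (Nat.beq (deg G S (g 0)) 2) 1 0) (cond (Nat.beq (deg G S (g 0)) 3) 1 0) P g := by
    refine ⟨jwf_NOJ (by rw [hn]; norm_num), g1, g2, by rw [GJ_NOJ]; exact g3,
      fun i hi q hq h => ?_, fun q hq _ => g4 q hq⟩
    rw [hn] at hi
    obtain rfl : i = 0 := by omega
    obtain rfl := g2 0 p2 q hq h
    exact pa_sel_new (m0 := 0) (m2 := 0) (m3 := 0) (n := 0) (g4 0 p2)
  obtain ⟨k1, k2, k3⟩ := pa_start (P := P) (f := g) (g := g) (v := 0) (n := 1) one_pos
    (by norm_num) p2 rfl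
  unfold rootKids
  refine pa_rec_ex (fun (τ : ℕ × Bool) r =>
    cond (tyOK Γ.ty τ.1 τ.2 && (Nat.beq (P.con.getD 0 0) 0 || Nat.beq (P.con.getD 0 0) τ.1))
      (pe Γ.ty NOJ P.con P.E (newV empty τ.1 τ.2) (sm 0 0 0) 1 1 (cond (Nat.beq τ.1 2) 1 0)
        (cond (Nat.beq τ.1 3) 1 0) r) r) [] _ (fun τ r hr => ?_) types
    (Or.inr ⟨_, mem_types hm hw, fun r => ?_⟩)
  · cases (tyOK Γ.ty τ.1 τ.2 && (Nat.beq (P.con.getD 0 0) 0 || Nat.beq (P.con.getD 0 0) τ.1))
    · exact hr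
    · exact pa_keep (fun D => pe_acc) hr
  · have hc : (tyOK Γ.ty (deg G S (g 0)) (decide (g 0 ∈ M)) &&
        (Nat.beq (P.con.getD 0 0) 0 || Nat.beq (P.con.getD 0 0) (deg G S (g 0)))) = true := by
      simp only [Bool.and_eq_true, Bool.or_eq_true, Nat.beq_eq]
      exact ⟨hΓ.ty _ hw, or_iff_not_imp_left.2 fun h => (g4 0 p2 h).symm⟩
    simp only [hc, cond_true]
    exact pe_sound hm hΓ.ty hV hP' p1 (fun e he => Or.inl he) (by rw [hn]; omega) k1 k2 k3

end Pool.Agent.Lib.MP_5a2675_co.D7
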