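import Mathlib
import Pool.Agent.Lib.MP_5a2675_co.D7.Sem

set_option autoImplicit false

namespace Pool.Agent.Lib.MP_5a2675_co.D7

open Finset
open Classical

variable {G G' : SimpleGraph ℕ} {S S' M X : Finset ℕ} {Γ : Gam} {C : Cfg} {f g : ℕ → ℕ}
  {a b c i j k l m n q r s t v w x y A J R Z Mk : ℕ}

def pbE (P : Pat) (a b : ℕ) : Bool := P.E.any fun e => (e.1 == a && e.2 == b) || (e.1 == b && e.2 == a)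

def pbAut (P : Pat) (σ : List ℕ) : Bool :=
  (List.range P.k).all (fun i => Nat.blt (σ.getD i 0) P.k &&
    P.con.getD (σ.getD i 0) 0 == P.con.getD i 0 &&
    (List.range P.k).all fun j => !(σ.getD i 0 == σ.getD j 0) || i == j) &&
  P.E.all fun e => pbE P (σ.getD e.1 0) (σ.getD e.2 0)

def pbRP (P : Pat) (Q : RP) (a : ℕ) : Bool :=
  Q.con == P.con && ordOK P.k Q.es a && Q.es.all (fun e => pbE P e.1 e.2) &&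
    Nat.ble Q.es.length 15

theorem pbE_ok {P : Pat} (h : pbE P a b = true) : (a, b) ∈ P.E ∨ (b, a) ∈ P.E := by
  simp only [pbE, List.any_eq_true, Bool.or_eq_true, Bool.and_eq_true, beq_iff_eq] at h
  obtain ⟨⟨e1, e2⟩, he, h | h⟩ := h
  · left; obtain ⟨rfl, rfl⟩ := h; exact he
  · right; obtain ⟨rfl, rfl⟩ := h; exact he

theorem pbAut_ok {P : Pat} {σ : List ℕ} (h : pbAut P σ = true) : Aut P σ := by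
  simp only [pbAut, List.all_eq_true, Bool.or_eq_true, Bool.and_eq_true, beq_iff_eq,
    List.mem_range, Nat.blt_eq, Bool.not_eq_true', beq_eq_false_iff_ne] at h
  obtain ⟨h1, h2⟩ := h
  refine ⟨fun i hi => (h1 i hi).1.1, fun i hi j hj hij => ?_, fun e he => pbE_ok (h2 e he),
    fun i hi => (h1 i hi).1.2⟩
  rcases (h1 i hi).2 j hj with h | h
  · exact absurd hij h
  · exact h

theorem pbRP_ok {P : Pat} {Q : RP} (h : pbRP P Q a = true) : RPof P Q a := by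
  simp only [pbRP, List.all_eq_true, Bool.and_eq_true, beq_iff_eq, Nat.ble_eq] at h
  obtain ⟨⟨⟨h1, h2⟩, h3⟩, h4⟩ := h
  exact ⟨h1, h2, fun e he => pbE_ok (h3 e he), h4⟩

def pbD : RP := ⟨[], 0, 0, []⟩

def pbC1 (P : Pat) (L : List RP) (i t : ℕ) (σ : List ℕ) : Bool :=
  Nat.blt t L.length && pbAut P σ && pbRP P (L.getD t pbD) (bit (L.getD t pbD).p) &&
    Nat.blt (L.getD t pbD).p P.k && σ.getD (L.getD t pbD).p 0 == i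

def pbC2 (P : Pat) (L : List RP) (i j t : ℕ) (σ : List ℕ) : Bool :=
  Nat.blt t L.length && pbAut P σ &&
    pbRP P (L.getD t pbD) (Nat.lor (bit (L.getD t pbD).p) (bit (L.getD t pbD).q)) &&
    Nat.blt (L.getD t pbD).p P.k && Nat.blt (L.getD t pbD).q P.k &&
    !((L.getD t pbD).p == (L.getD t pbD).q) && σ.getD (L.getD t pbD).p 0 == i &&
    σ.getD (L.getD t pbD).q 0 == j

theorem pb_getD_mem {L : List RP} (h : t < L.length) : L.getD t pbD ∈ L := by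
  rw [List.getD_eq_getElem _ _ h]; exact List.getElem_mem h

theorem pb_cov1 {P : Pat} {L : List RP} (t : ℕ) (σ : List ℕ) (h : pbC1 P L i t σ = true) :
    Cov1 P L i := by
  simp only [pbC1, Bool.and_eq_true, beq_iff_eq, Nat.blt_eq] at h
  obtain ⟨⟨⟨⟨h1, h2⟩, h3⟩, h4⟩, h5⟩ := h
  exact ⟨_, pb_getD_mem h1, σ, pbAut_ok h2, pbRP_ok h3, h4, h5⟩

theorem pb_cov2 {P : Pat} {L : List RP} (t : ℕ) (σ : List ℕ) (h : pbC2 P L i j t σ = true) :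
    Cov2 P L i j := by
  simp only [pbC2, Bool.and_eq_true, beq_iff_eq, Nat.blt_eq, Bool.not_eq_true',
    beq_eq_false_iff_ne] at h
  obtain ⟨⟨⟨⟨⟨⟨⟨h1, h2⟩, h3⟩, h4⟩, h5⟩, h6⟩, h7⟩, h8⟩ := h
  exact ⟨_, pb_getD_mem h1, σ, pbAut_ok h2, pbRP_ok h3, h4, h5, h6, h7, h8⟩

theorem pb_all1 {P : Pat} {L : List RP} (T : List (ℕ × List ℕ))
    (h : (List.range n).all (fun i => pbC1 P L i (T.getD i (0, [])).1 (T.getD i (0, [])).2) = true) :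
    ∀ i < n, Cov1 P L i := by
  intro i hi
  simp only [List.all_eq_true, List.mem_range] at h
  exact pb_cov1 _ _ (h i hi)

theorem pb_all2 {P : Pat} {L : List RP} (T : List ((ℕ × List ℕ) × (ℕ × List ℕ)))
    (h : (List.range P.E.length).all (fun i =>
      pbC2 P L (P.E.getD i (0, 0)).1 (P.E.getD i (0, 0)).2 (T.getD i ((0, []), (0, []))).1.1
        (T.getD i ((0, []), (0, []))).1.2 &&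
      pbC2 P L (P.E.getD i (0, 0)).2 (P.E.getD i (0, 0)).1 (T.getD i ((0, []), (0, []))).2.1
        (T.getD i ((0, []), (0, []))).2.2) = true) :
    ∀ e ∈ P.E, Cov2 P L e.1 e.2 ∧ Cov2 P L e.2 e.1 := by
  intro e he
  obtain ⟨i, hi, rfl⟩ := List.getElem_of_mem he
  simp only [List.all_eq_true, List.mem_range, Bool.and_eq_true] at h
  have := h i hi
  rw [List.getD_eq_getElem _ _ hi] at this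
  exact ⟨pb_cov2 _ _ this.1, pb_cov2 _ _ this.2⟩

theorem cov_rT0 : Cov1 T0 [rT0] 0 :=
  pb_cov1 0 [0, 1, 2, 3, 4] (by decide +kernel)

theorem cov_rT3 : Cov1 T3 [rT3] 0 :=
  pb_cov1 0 [0, 1, 2, 3, 4, 5, 6, 7] (by decide +kernel)

theorem cov_rT1 : Cov1 T1 [rT1] 0 :=
  pb_cov1 0 [0, 1, 2, 3, 4, 5, 6, 7, 8, 9, 10] (by decide +kernel)

theorem cov_hH4 : ∀ i < 4, Cov1 H4 hH4 i :=
  pb_all1 [(0, [0, 1, 2, 3]), (0, [1, 0, 3, 2]), (0, [2, 0, 3, 1]), (0, [3, 1, 2, 0])] (by decide +kernel)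

theorem cov_hH7 : ∀ i < 7, Cov1 H7 hH7 i :=
  pb_all1 [(0, [0, 1, 2, 3, 4, 5, 6]), (1, [0, 1, 2, 3, 4, 5, 6]), (1, [0, 2, 1, 3, 4, 5, 6]), (2, [0, 1, 2, 3, 4, 5, 6]), (2, [0, 1, 2, 4, 3, 6, 5]), (3, [0, 1, 2, 3, 4, 5, 6]), (3, [0, 1, 2, 4, 3, 6, 5])] (by decide +kernel)

theorem cov_hH10 : ∀ i < 10, Cov1 H10 hH10 i :=
  pb_all1 [(0, [0, 1, 2, 3, 4, 5, 6, 7, 8, 9]), (1, [0, 1, 2, 3, 4, 5, 6, 7, 8, 9]), (1, [0, 2, 1, 3, 4, 5, 6, 7, 8, 9]), (2, [0, 1, 2, 3, 4, 5, 6, 7, 8, 9]), (2, [0, 1, 2, 4, 3, 6, 5, 7, 8, 9]), (2, [9, 7, 8, 5, 6, 3, 4, 1, 2, 0]), (2, [9, 7, 8, 6, 5, 4, 3, 1, 2, 0]), (1, [9, 7, 8, 5, 6, 3, 4, 1, 2, 0]), (1, [9, 8, 7, 5, 6, 3, 4, 1, 2, 0]), (0, [9, 7, 8, 5, 6, 3, 4, 1, 2, 0])] (by decide +kernel)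

theorem cov_jK : ∀ e ∈ PK.E, Cov2 PK jK e.1 e.2 ∧ Cov2 PK jK e.2 e.1 :=
  pb_all2
   [((0, [0, 1, 2, 3, 4]), (1, [0, 1, 2, 3, 4])),
    ((0, [0, 2, 1, 3, 4]), (1, [0, 2, 1, 3, 4])),
    ((1, [3, 1, 2, 0, 4]), (0, [3, 1, 2, 0, 4])),
    ((1, [3, 2, 1, 0, 4]), (0, [3, 2, 1, 0, 4])),
    ((1, [4, 1, 2, 0, 3]), (0, [4, 1, 2, 0, 3])),
    ((1, [4, 2, 1, 0, 3]), (0, [4, 2, 1, 0, 3]))] (by decide +kernel)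

theorem cov_rTa : Cov1 Ta [rTa] 0 :=
  pb_cov1 0 [0, 1, 2, 3, 4] (by decide +kernel)

theorem cov_jA : ∀ e ∈ Ta.E, Cov2 Ta jA e.1 e.2 ∧ Cov2 Ta jA e.2 e.1 :=
  pb_all2
   [((0, [0, 1, 2, 3, 4]), (1, [0, 1, 2, 3, 4])),
    ((0, [0, 2, 1, 3, 4]), (1, [0, 2, 1, 3, 4])),
    ((2, [0, 1, 2, 3, 4]), (3, [0, 1, 2, 3, 4])),
    ((2, [0, 2, 1, 3, 4]), (3, [0, 2, 1, 3, 4])),
    ((2, [0, 1, 2, 4, 3]), (3, [0, 1, 2, 4, 3])),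
    ((2, [0, 2, 1, 4, 3]), (3, [0, 2, 1, 4, 3])),
    ((4, [0, 1, 2, 3, 4]), (4, [0, 1, 2, 4, 3]))] (by decide +kernel)

theorem cov_rTb : Cov1 Tb [rTb] 0 :=
  pb_cov1 0 [0, 1, 2, 3, 4, 5, 6] (by decide +kernel)

theorem cov_jB : ∀ e ∈ Tb.E, Cov2 Tb jB e.1 e.2 ∧ Cov2 Tb jB e.2 e.1 :=
  pb_all2
   [((0, [0, 1, 2, 3, 4, 5, 6]), (1, [0, 1, 2, 3, 4, 5, 6])),
    ((0, [0, 2, 1, 3, 4, 5, 6]), (1, [0, 2, 1, 3, 4, 5, 6])),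
    ((2, [0, 1, 2, 3, 4, 5, 6]), (3, [0, 1, 2, 3, 4, 5, 6])),
    ((2, [0, 2, 1, 3, 4, 5, 6]), (3, [0, 2, 1, 3, 4, 5, 6])),
    ((2, [0, 1, 2, 4, 3, 6, 5]), (3, [0, 1, 2, 4, 3, 6, 5])),
    ((2, [0, 2, 1, 4, 3, 6, 5]), (3, [0, 2, 1, 4, 3, 6, 5])),
    ((4, [0, 1, 2, 3, 4, 5, 6]), (5, [0, 1, 2, 3, 4, 5, 6])),
    ((4, [0, 1, 2, 4, 3, 6, 5]), (5, [0, 1, 2, 4, 3, 6, 5])),
    ((6, [0, 1, 2, 3, 4, 5, 6]), (6, [0, 1, 2, 4, 3, 6, 5]))] (by decide +kernel)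

theorem cov_rTe : Cov1 Te [rTe] 0 :=
  pb_cov1 0 [0, 1, 2, 3, 4, 5, 6, 7] (by decide +kernel)

theorem cov_jE : ∀ e ∈ Te.E, Cov2 Te jE e.1 e.2 ∧ Cov2 Te jE e.2 e.1 :=
  pb_all2
   [((0, [0, 1, 2, 3, 4, 5, 6, 7]), (1, [0, 1, 2, 3, 4, 5, 6, 7])),
    ((0, [0, 2, 1, 3, 4, 5, 6, 7]), (1, [0, 2, 1, 3, 4, 5, 6, 7])),
    ((2, [0, 1, 2, 3, 4, 5, 6, 7]), (3, [0, 1, 2, 3, 4, 5, 6, 7])),
    ((2, [0, 2, 1, 3, 4, 5, 6, 7]), (3, [0, 2, 1, 3, 4, 5, 6, 7])),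
    ((2, [0, 1, 2, 4, 3, 6, 5, 7]), (3, [0, 1, 2, 4, 3, 6, 5, 7])),
    ((2, [0, 2, 1, 4, 3, 6, 5, 7]), (3, [0, 2, 1, 4, 3, 6, 5, 7])),
    ((4, [0, 1, 2, 3, 4, 5, 6, 7]), (5, [0, 1, 2, 3, 4, 5, 6, 7])),
    ((4, [0, 1, 2, 4, 3, 6, 5, 7]), (5, [0, 1, 2, 4, 3, 6, 5, 7])),
    ((6, [0, 1, 2, 3, 4, 5, 6, 7]), (7, [0, 1, 2, 3, 4, 5, 6, 7])),
    ((6, [0, 1, 2, 4, 3, 6, 5, 7]), (7, [0, 1, 2, 4, 3, 6, 5, 7]))] (by decide +kernel)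

theorem cov_jT3 : ∀ e ∈ T3.E, Cov2 T3 jT3 e.1 e.2 ∧ Cov2 T3 jT3 e.2 e.1 :=
  pb_all2
   [((0, [0, 1, 2, 3, 4, 5, 6, 7]), (1, [0, 1, 2, 3, 4, 5, 6, 7])),
    ((2, [0, 1, 2, 3, 4, 5, 6, 7]), (3, [0, 1, 2, 3, 4, 5, 6, 7])),
    ((4, [0, 1, 2, 3, 4, 5, 6, 7]), (5, [0, 1, 2, 3, 4, 5, 6, 7])),
    ((4, [0, 1, 2, 4, 3, 5, 6, 7]), (5, [0, 1, 2, 4, 3, 5, 6, 7])),
    ((6, [0, 1, 2, 3, 4, 5, 6, 7]), (7, [0, 1, 2, 3, 4, 5, 6, 7])),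
    ((8, [0, 1, 2, 3, 4, 5, 6, 7]), (9, [0, 1, 2, 3, 4, 5, 6, 7])),
    ((8, [0, 1, 2, 4, 3, 5, 6, 7]), (9, [0, 1, 2, 4, 3, 5, 6, 7])),
    ((10, [0, 1, 2, 3, 4, 5, 6, 7]), (11, [0, 1, 2, 3, 4, 5, 6, 7])),
    ((10, [0, 1, 2, 4, 3, 5, 6, 7]), (11, [0, 1, 2, 4, 3, 5, 6, 7])),
    ((12, [0, 1, 2, 3, 4, 5, 6, 7]), (13, [0, 1, 2, 3, 4, 5, 6, 7])),
    ((14, [0, 1, 2, 3, 4, 5, 6, 7]), (15, [0, 1, 2, 3, 4, 5, 6, 7]))] (by decide +kernel)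

theorem cov_jT1 : ∀ e ∈ T1.E, Cov2 T1 jT1 e.1 e.2 ∧ Cov2 T1 jT1 e.2 e.1 :=
  pb_all2
   [((0, [0, 1, 2, 3, 4, 5, 6, 7, 8, 9, 10]), (1, [0, 1, 2, 3, 4, 5, 6, 7, 8, 9, 10])),
    ((0, [0, 2, 1, 4, 3, 5, 7, 6, 8, 9, 10]), (1, [0, 2, 1, 4, 3, 5, 7, 6, 8, 9, 10])),
    ((2, [0, 1, 2, 3, 4, 5, 6, 7, 8, 9, 10]), (3, [0, 1, 2, 3, 4, 5, 6, 7, 8, 9, 10])),
    ((2, [0, 2, 1, 4, 3, 5, 7, 6, 8, 9, 10]), (3, [0, 2, 1, 4, 3, 5, 7, 6, 8, 9, 10])),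
    ((4, [0, 1, 2, 3, 4, 5, 6, 7, 8, 9, 10]), (5, [0, 1, 2, 3, 4, 5, 6, 7, 8, 9, 10])),
    ((4, [0, 2, 1, 4, 3, 5, 7, 6, 8, 9, 10]), (5, [0, 2, 1, 4, 3, 5, 7, 6, 8, 9, 10])),
    ((6, [0, 1, 2, 3, 4, 5, 6, 7, 8, 9, 10]), (7, [0, 1, 2, 3, 4, 5, 6, 7, 8, 9, 10])),
    ((6, [0, 2, 1, 4, 3, 5, 7, 6, 8, 9, 10]), (7, [0, 2, 1, 4, 3, 5, 7, 6, 8, 9, 10])),
    ((8, [0, 1, 2, 3, 4, 5, 6, 7, 8, 9, 10]), (9, [0, 1, 2, 3, 4, 5, 6, 7, 8, 9, 10])),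
    ((10, [0, 1, 2, 3, 4, 5, 6, 7, 8, 9, 10]), (11, [0, 1, 2, 3, 4, 5, 6, 7, 8, 9, 10])),
    ((10, [0, 2, 1, 4, 3, 5, 7, 6, 8, 9, 10]), (11, [0, 2, 1, 4, 3, 5, 7, 6, 8, 9, 10])),
    ((12, [0, 1, 2, 3, 4, 5, 6, 7, 8, 9, 10]), (13, [0, 1, 2, 3, 4, 5, 6, 7, 8, 9, 10])),
    ((10, [0, 1, 2, 3, 4, 5, 6, 7, 8, 10, 9]), (11, [0, 1, 2, 3, 4, 5, 6, 7, 8, 10, 9])),
    ((10, [0, 2, 1, 4, 3, 5, 7, 6, 8, 10, 9]), (11, [0, 2, 1, 4, 3, 5, 7, 6, 8, 10, 9])),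
    ((12, [0, 1, 2, 3, 4, 5, 6, 7, 8, 10, 9]), (13, [0, 1, 2, 3, 4, 5, 6, 7, 8, 10, 9]))] (by decide +kernel)

theorem cov_jPP : ∀ e ∈ PP.E, Cov2 PP jPP e.1 e.2 ∧ Cov2 PP jPP e.2 e.1 :=
  pb_all2
   [((0, [0, 1, 2, 3, 4, 5, 6, 7]), (1, [0, 1, 2, 3, 4, 5, 6, 7])),
    ((2, [0, 1, 2, 3, 4, 5, 6, 7]), (3, [0, 1, 2, 3, 4, 5, 6, 7])),
    ((4, [0, 1, 2, 3, 4, 5, 6, 7]), (5, [0, 1, 2, 3, 4, 5, 6, 7])),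
    ((4, [0, 1, 2, 4, 3, 5, 6, 7]), (5, [0, 1, 2, 4, 3, 5, 6, 7])),
    ((6, [0, 1, 2, 3, 4, 5, 6, 7]), (7, [0, 1, 2, 3, 4, 5, 6, 7])),
    ((8, [0, 1, 2, 3, 4, 5, 6, 7]), (9, [0, 1, 2, 3, 4, 5, 6, 7])),
    ((8, [0, 1, 2, 4, 3, 5, 6, 7]), (9, [0, 1, 2, 4, 3, 5, 6, 7])),
    ((5, [7, 6, 2, 3, 4, 5, 1, 0]), (4, [7, 6, 2, 3, 4, 5, 1, 0])),
    ((5, [7, 6, 2, 4, 3, 5, 1, 0]), (4, [7, 6, 2, 4, 3, 5, 1, 0])),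
    ((1, [7, 6, 2, 3, 4, 5, 1, 0]), (0, [7, 6, 2, 3, 4, 5, 1, 0])),
    ((3, [7, 6, 2, 3, 4, 5, 1, 0]), (2, [7, 6, 2, 3, 4, 5, 1, 0]))] (by decide +kernel)

end Pool.Agent.Lib.MP_5a2675_co.D7
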