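import Mathlib
import Pool.Agent.Lib.MP_5a2675_co.D7.PA
import Pool.Agent.Lib.MP_5a2675_co.D7.PB

set_option autoImplicit false

namespace Pool.Agent.Lib.MP_5a2675_co.D7

open Finset
open Classical

variable {G G' : SimpleGraph ℕ} {S S' M X : Finset ℕ} {Γ : Gam} {C : Cfg} {f g : ℕ → ℕ}
  {a b c i j k l m n q r s t v w x y A J R Z Mk : ℕ}

theorem rb_chk {p : Bool} {L : List Cfg} (h : p = true → ∃ D ∈ L, ∃ f, Valid G S M D f) :
    Sound G S M (chk p L) := by
  intro L' hl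
  unfold chk at hl
  cases p
  · simp at hl
  · simp only [cond_true, Option.some.injEq] at hl
    subst hl
    exact h rfl

theorem rb_addNC (hC : Valid G S M C f) (h : NCOK G S C.n f (R, m)) :
    Valid G S M (addNC C R m) f :=
  ⟨hC.n_le, hC.mem, hC.inj, hC.rlt, hC.sym, hC.adj, hC.deg, hC.rem, hC.r21, hC.r32, hC.d12,
    hC.mark, hC.lt1, hC.lt2, hC.ltm, hC.ltr, hC.kc, hC.ht, hC.bl,
    fun x hx => by
      rcases List.mem_cons.1 hx with rfl | hx
      · exact h
      · exact hC.nc x hx,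
    hC.pf, hC.jv⟩

theorem rb_deg3 (h : MC G S M) (hS : S' ⊆ S) : ∀ a ∈ S', deg G S' a ≤ 3 := fun a ha =>
  (deg_mono hS fun _ _ e => e).trans (mc_deg3 h a (hS ha))

theorem rb_T0 (h : Ctx G S M Γ C f) (hp : Γ.nop = true) (hS : S' ⊆ S) (hc : CritP G S' v) :
    ∃ g, Emb G S' T0 g ∧ g 0 = v :=
  critP_T0 hc (rb_deg3 h.mc hS) fun ⟨g, hg⟩ =>
    h.gam.nop hp ⟨g, embP_mono hg hS hg.2.2.1 (mc_deg3 h.mc)⟩

theorem rb_m0 (hC : Valid G S M C f) (hR : Lt R C.n) (hi : i < C.n) (hx : f i ∉ img f R) :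
    tb (dif (ones C.n) R) i = true := by
  refine tb_dif.2 ⟨tb_ones.2 hi, ?_⟩
  cases e : tb R i
  · rfl
  · exact absurd ((v_mem_img hC hR hi).2 e) hx

theorem rb_sel0 {m0 m2 m3 : ℕ} : sel 0 m0 m2 m3 = m0 := rfl
theorem rb_sel2 {m0 m2 m3 : ℕ} : sel 2 m0 m2 m3 = m2 := rfl
theorem rb_sel3 {m0 m2 m3 : ℕ} : sel 3 m0 m2 m3 = m3 := rfl

theorem rb_peh_nc (h : Ctx G S M Γ C f) (hR : Lt R C.n) (hS : S' ⊆ S \ img f R) {P : Pat}
    (hP : P ∈ [T0, Ta, Tb, Te, T3, T1]) (hg : Emb G S' P g) (hv : v < C.n) (h0 : g 0 = f v) :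
    PEH G S C f NOJ (dif (ones C.n) R) (dif (ones C.n) R)
      (dif (dif (ones C.n) R) (low2 C (nb3 C.A R))) P g := by
  have hn := h.val.n_le
  have hSS : S' ⊆ S := hS.trans sdiff_subset
  obtain ⟨-, c0, -, c3⟩ := gb_root0 P hP
  refine ⟨jwf_NOJ (by omega), fun q hq => hSS (hg.1 q hq), hg.2.1, ?_, ?_, ?_⟩
  · rw [GJ_NOJ]
    exact hg.2.2.1
  · intro i hi q hq e
    have hx : f i ∈ S' := e ▸ hg.1 q hq
    have hm := rb_m0 h.val hR hi (mem_sdiff.1 (hS hx)).2
    rcases c3 q hq with rfl | c | c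
    · rw [c0, rb_sel2]
      exact hm
    · rw [c, rb_sel0]
      exact hm
    · rw [c, rb_sel3]
      refine tb_dif.2 ⟨hm, ?_⟩
      have e1 := hg.2.2.2 q hq (by omega)
      rw [c, ← e] at e1
      have e2 := v_deg_le h.val hi hS
      cases e3 : tb (low2 C (nb3 C.A R)) i
      · rfl
      · have := (v_low2 h.val hi (v_lt64 h.val hR).2).1 e3
        omega
  · intro q hq hnew hc
    rcases c3 q hq with rfl | c | c
    · exact absurd h0.symm (hnew v hv)
    · exact absurd c hc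
    · have e1 := hg.2.2.2 q hq hc
      have e2 : deg G S' (g q) ≤ deg G S (g q) := deg_mono hSS fun _ _ e => e
      have e3 := mc_deg3 h.mc _ (hSS (hg.1 q hq))
      omega

theorem rNC_sound (h : Ctx G S M Γ C f) : Sound G S M (rNC Γ C R v) := by
  unfold rNC rNC'
  refine rb_chk fun hc => ?_
  simp only [Bool.and_eq_true, Nat.ble_eq] at hc
  obtain ⟨⟨⟨hR, hv⟩, -⟩, hn⟩ := hc
  have hR' : Lt R C.n := sub_ones_iff.1 hR
  have hv' : v < C.n := tb_ones.1 (tb_dif.1 hv).1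
  by_cases H : ∀ S' ⊆ S \ img f R, ¬ CritP G S' (f v)
  · refine ⟨_, List.mem_cons_self, f, rb_addNC h.val ⟨hR', fun i hi => ?_, fun i hi => ?_⟩⟩
    · rw [tb_bit.1 hi]
      exact hv'
    · rw [tb_bit.1 hi]
      exact H
  · push Not at H
    obtain ⟨S', hS, hc⟩ := H
    have key : ∃ D ∈ pe1 Γ.ty NOJ C v (dif (ones C.n) R) (dif (ones C.n) R)
        (dif (dif (ones C.n) R) (low2 C (nb3 C.A R))) (cond Γ.nop [rT0] [rT0, rT3, rT1]) [],
        ∃ f', Valid G S M D f' := by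
      cases hp : Γ.nop
      · obtain ⟨P, hP, g, hg, h0⟩ := critP_coarse hc
        simp only [List.mem_cons, List.not_mem_nil, or_false] at hP
        rcases hP with rfl | rfl | rfl
        · exact pe1_cov h (rb_peh_nc h hR' hS (by simp) hg hv' h0) cov_rT0 (by simp) hn hv' h0.symm
        · exact pe1_cov h (rb_peh_nc h hR' hS (by simp) hg hv' h0) cov_rT3 (by simp) hn hv' h0.symm
        · exact pe1_cov h (rb_peh_nc h hR' hS (by simp) hg hv' h0) cov_rT1 (by simp) hn hv' h0.symm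
      · obtain ⟨g, hg, h0⟩ := rb_T0 h hp (hS.trans sdiff_subset) hc
        have hE := rb_peh_nc h hR' hS (by simp) hg hv' h0
        exact pe1_cov h hE cov_rT0 (by simp) hn hv' h0.symm
    obtain ⟨D, hD, f', hf'⟩ := key
    exact ⟨D, List.mem_cons_of_mem _ (mem_dd hD), f', hf'⟩

theorem rNF_sound (h : Ctx G S M Γ C f) : Sound G S M (rNF Γ C R v) := by
  unfold rNF rNF'
  refine rb_chk fun hc => ?_
  simp only [Bool.and_eq_true, Nat.ble_eq] at hc
  obtain ⟨⟨⟨hR, hv⟩, -⟩, hn⟩ := hc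
  have hR' : Lt R C.n := sub_ones_iff.1 hR
  have hv' : v < C.n := tb_ones.1 (tb_dif.1 hv).1
  by_cases H : ∀ S' ⊆ S \ img f R, ¬ CritP G S' (f v)
  · refine ⟨_, List.mem_cons_self, f, rb_addNC h.val ⟨hR', fun i hi => ?_, fun i hi => ?_⟩⟩
    · rw [tb_bit.1 hi]
      exact hv'
    · rw [tb_bit.1 hi]
      exact H
  · push Not at H
    obtain ⟨S', hS, hc⟩ := H
    have key : ∃ D ∈ pe1 Γ.ty NOJ C v (dif (ones C.n) R) (dif (ones C.n) R)
        (dif (dif (ones C.n) R) (low2 C (nb3 C.A R))) 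
        (cond Γ.nop [rTa, rTb, rTe] [rTa, rTb, rTe, rT3, rT1]) [],
        ∃ f', Valid G S M D f' := by
      cases hp : Γ.nop
      · obtain ⟨P, hP, g, hg, h0⟩ := hc
        have hE := rb_peh_nc h hR' hS (List.mem_cons_of_mem _ hP) hg hv' h0
        simp only [List.mem_cons, List.not_mem_nil, or_false] at hP
        rcases hP with rfl | rfl | rfl | rfl | rfl
        · exact pe1_cov h hE cov_rTa (by simp) hn hv' h0.symm
        · exact pe1_cov h hE cov_rTb (by simp) hn hv' h0.symm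
        · exact pe1_cov h hE cov_rTe (by simp) hn hv' h0.symm
        · exact pe1_cov h hE cov_rT3 (by simp) hn hv' h0.symm
        · exact pe1_cov h hE cov_rT1 (by simp) hn hv' h0.symm
      · obtain ⟨P, hP, g, hg, h0⟩ := critP_fine hc fun ⟨g, hg⟩ =>
          h.gam.nop hp ⟨g, embP_mono hg (hS.trans sdiff_subset) hg.2.2.1 (mc_deg3 h.mc)⟩
        simp only [List.mem_cons, List.not_mem_nil, or_false] at hP
        rcases hP with rfl | rfl | rfl
        · exact pe1_cov h (rb_peh_nc h hR' hS (by simp) hg hv' h0) cov_rTa (by simp) hn hv' h0.symm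
        · exact pe1_cov h (rb_peh_nc h hR' hS (by simp) hg hv' h0) cov_rTb (by simp) hn hv' h0.symm
        · exact pe1_cov h (rb_peh_nc h hR' hS (by simp) hg hv' h0) cov_rTe (by simp) hn hv' h0.symm
    obtain ⟨D, hD, f', hf'⟩ := key
    exact ⟨D, List.mem_cons_of_mem _ (mem_dd hD), f', hf'⟩

theorem rNQ_sound (h : Ctx G S M Γ C f) : Sound G S M (rNQ Γ C R m) := by
  unfold rNQ rNQ'
  refine rb_chk fun hc => ?_
  simp only [Bool.and_eq_true] at hc
  obtain ⟨⟨⟨hp, hR⟩, hm⟩, hb⟩ := hc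
  have hR' : Lt R C.n := sub_ones_iff.1 hR
  have hR64 := (v_lt64 h.val hR').2
  have hlw : Lt (Nat.land (dif (ones C.n) R) (low2 C (nb3 C.A R))) C.n := fun i hi =>
    tb_ones.1 (tb_dif.1 (tb_land.1 hi).1).1
  refine ⟨_, List.mem_cons_self, f, rb_addNC h.val
    ⟨hR', fun i hi => hlw i (sub_iff.1 hm i hi), fun i hi S' hS hc => ?_⟩⟩
  have hS : S' ⊆ S \ img f R := hS
  have hi1 := sub_iff.1 hm i hi
  have hin := hlw i hi1
  obtain ⟨k, hk, hki⟩ := (tb_nb (v_lt64 h.val hlw).2).1 (sub_iff.1 hb i hi)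
  have hkn := hlw k hk
  obtain ⟨g, hg, h0⟩ := rb_T0 h hp (hS.trans sdiff_subset) hc
  have e1 := critP_deg hc
  have e2 := v_deg_le h.val hin (Subset.refl (S \ img f R))
  have e3 := (v_low2 h.val hin hR64).1 (tb_land.1 hi1).2
  have hsub : N G S' (f i) ⊆ N G (S \ img f R) (f i) := fun w hw =>
    mem_N.2 ⟨hS (mem_N.1 hw).1, (mem_N.1 hw).2⟩
  have heq : N G S' (f i) = N G (S \ img f R) (f i) := by
    refine eq_of_subset_of_card_le hsub ?_
    change deg G (S \ img f R) (f i) ≤ deg G S' (f i)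
    omega
  have hkm : f k ∈ N G S' (g 0) := by
    rw [h0, heq]
    refine mem_N.2 ⟨mem_sdiff.2 ⟨h.val.mem k hkn, fun e => ?_⟩, (h.val.adj k i hki).symm⟩
    have a1 := (v_mem_img h.val hR' hkn).1 e
    have a2 := (tb_dif.1 (tb_land.1 hk).1).2
    rw [a1] at a2
    exact absurd a2 (by decide)
  have e4 := T0_nbr hg hkm
  have e5 := v_deg_le h.val hkn hS
  have e6 := (v_low2 h.val hkn hR64).1 (tb_land.1 hk).2
  omega

theorem rb_ltR {B : Blob} (h : BlobOK G S M n A f B) : Lt B.R n := fun i hi =>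
  h.ltO i (h.ro i hi)

theorem rb_peh_hc {B : Blob} (hC : Valid G S M C f) (h : BlobOK G S M C.n C.A f B) {P : Pat}
    (hP : P ∈ [H4, H7, H10]) (hg : Emb (GJ G f B.J) (bX G S f B) P g) :
    PEH G S C f B.J (dif (ones C.n) B.R)
      (Nat.land (dif (ones C.n) B.R) (dif (e2 C (nb3 C.A B.R) (jx B.J (ones C.n)))
        (e1 C (nb3 C.A B.R) (jx B.J (ones C.n)))))
      (dif (dif (ones C.n) B.R) (e2 C (nb3 C.A B.R) (jx B.J (ones C.n)))) P g := by
  have hs := b_sub h
  have hR := rb_ltR h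
  have hR64 := (v_lt64 hC hR).2
  have c2 := (gb_heavy P hP).2
  refine ⟨h.jok.wf, fun q hq => (mem_sdiff.1 (hs (hg.1 q hq))).1, hg.2.1, hg.2.2.1, ?_, ?_⟩
  · intro i hi q hq e
    have hx : f i ∈ bX G S f B := e ▸ hg.1 q hq
    have hm := rb_m0 hC hR hi (mem_sdiff.1 (hs hx)).2
    have c := c2 q hq
    have a1 := hg.2.2.2 q hq (by omega)
    rw [← e] at a1
    have a2 := b_deg3 h _ hx
    have a3 := b_deg_eq hC h hi hx
    have b1 := v_e1 (J := B.J) hC hi hR64
    have b2 := v_e2 (J := B.J) hC hi hR64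
    rcases (by omega : P.con.getD q 0 = 2 ∨ P.con.getD q 0 = 3) with d | d
    · rw [d, rb_sel2]
      refine tb_land.2 ⟨hm, tb_dif.2 ⟨b2.2 (by omega), ?_⟩⟩
      cases e3 : tb (e1 C (nb3 C.A B.R) (jx B.J (ones C.n))) i
      · rfl
      · have := b1.1 e3
        omega
    · rw [d, rb_sel3]
      refine tb_dif.2 ⟨hm, ?_⟩
      cases e3 : tb (e2 C (nb3 C.A B.R) (jx B.J (ones C.n))) i
      · rfl
      · have := b2.1 e3
        omega
  · intro q hq hnew hc
    rw [← b_deg_new hC h (hg.1 q hq) hnew]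
    exact hg.2.2.2 q hq hc

theorem rHC_sound (h : Ctx G S M Γ C f) : Sound G S M (rHC Γ C l v) := by
  unfold rHC rHC'
  refine rb_chk fun hc => ?_
  simp only [Bool.and_eq_true, Nat.ble_eq] at hc
  obtain ⟨⟨⟨hl, hlo⟩, hv⟩, hn⟩ := hc
  have hB := h.val.bl _ (gb_mem hl)
  have hv' := hB.ltI v hv
  have hH : Heavy (GJ G f (gb C l).J) (bX G S f (gb C l)) := by
    by_contra hH
    have a1 := hB.lo (by omega)
    have a2 := b_val_le h.mc h.val hB
    have a3 := cc_le_two (M := ∅) hH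
    omega
  obtain ⟨P, hP, g, hg, hall⟩ := hH
  obtain ⟨q, hq, e⟩ := hall _ (hB.inn v hv)
  have hE := rb_peh_hc h.val hB hP hg
  have key : ∃ D ∈ pe1 Γ.ty (gb C l).J C v (dif (ones C.n) (gb C l).R)
      (Nat.land (dif (ones C.n) (gb C l).R)
        (dif (e2 C (nb3 C.A (gb C l).R) (jx (gb C l).J (ones C.n)))
          (e1 C (nb3 C.A (gb C l).R) (jx (gb C l).J (ones C.n)))))
      (dif (dif (ones C.n) (gb C l).R) (e2 C (nb3 C.A (gb C l).R) (jx (gb C l).J (ones C.n))))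
      (cond (kfree Γ (gb C l).J) hH4 (appL hH4 (appL hH7 hH10))) [],
      ∃ f', Valid G S M D f' := by
    simp only [List.mem_cons, List.not_mem_nil, or_false] at hP
    cases hk : kfree Γ (gb C l).J
    · rw [cond_false, appL_eq, appL_eq]
      rcases hP with rfl | rfl | rfl
      · exact pe1_cov h hE (cov_hH4 q hq)
          (fun Q hQ => List.mem_append_left _ hQ) hn hv' e.symm
      · exact pe1_cov h hE (cov_hH7 q hq)
          (fun Q hQ => List.mem_append_right _ (List.mem_append_left _ hQ)) hn hv' e.symm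
      · exact pe1_cov h hE (cov_hH10 q hq)
          (fun Q hQ => List.mem_append_right _ (List.mem_append_right _ hQ)) hn hv' e.symm
    · have hK := kfree_ok h hk (b_sub hB)
      rcases hP with rfl | rfl | rfl
      · exact pe1_cov h hE (cov_hH4 q hq) (fun Q hQ => hQ) hn hv' e.symm
      · exact absurd ⟨Pb, by simp, _, gb_sub hg gb_H7B⟩ hK
      · exact absurd ⟨Pe, by simp, _, gb_sub hg gb_H10E⟩ hK
  obtain ⟨D, hD, f', hf'⟩ := key
  refine ⟨_, mem_dd ?_, f', valid_erase (l := l) hf'⟩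
  rw [mapL_eq]
  exact List.mem_map.2 ⟨D, hD, rfl⟩

theorem rT2_sound (h : Ctx G S M Γ C f) : Sound G S M (rT2 Γ C l) := by
  unfold rT2 rTight2
  refine rb_chk fun hc => ?_
  simp only [Bool.and_eq_true, Bool.or_eq_true, Nat.ble_eq, Bool.not_eq_true'] at hc
  obtain ⟨hl, hc⟩ := hc
  have hB := h.val.bl _ (gb_mem hl)
  have hR64 := (v_lt64 h.val (rb_ltR hB)).2
  have hH : ¬ Heavy (GJ G f (gb C l).J) (bX G S f (gb C l)) := by
    intro hH
    rcases hc with (hc | hc) | ⟨hk, hc⟩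
    · obtain ⟨i, hi, he⟩ := dj_false_iff.1 hc
      have hin := hB.ltI i hi
      have a1 := heavy_deg hH (hB.inn i hi)
      have a2 := b_deg_eq h.val hB hin (hB.inn i hi)
      have a3 := (v_e1 h.val hin hR64).1 he
      omega
    · have a1 := heavy_card hH
      have a2 := v_card_img h.val hB.ltI
      have a3 : img f (gb C l).In ⊆ bX G S f (gb C l) := fun x hx => by
        obtain ⟨i, -, hi, rfl⟩ := mem_img.1 hx
        exact hB.inn i hi
      have a4 := card_le_card a3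
      omega
    · obtain ⟨i, hi, he⟩ := sub_false_iff.1 hc
      have hin := hB.ltI i hi
      have a1 := b_deg3 hB _ (hB.inn i hi)
      have a2 := b_deg_eq h.val hB hin (hB.inn i hi)
      have a3 : ¬ _ := fun e => by
        have := (v_e2 (J := (gb C l).J) h.val hin hR64).2 e
        rw [he] at this
        exact absurd this (by decide)
      exact kfree_ok h hk (b_sub hB) (heavy_KX hH (hB.inn i hi) (by omega))
  refine ⟨_, List.mem_cons_self, f, valid_setB h.val (setHi_ok hB ?_)⟩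
  have a2 := b_val_le h.mc h.val hB
  have a3 := cc_le_two (M := ∅) hH
  omega

end Pool.Agent.Lib.MP_5a2675_co.D7
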