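import Mathlib
import Pool.Agent.Lib.MP_5a2675_co.D7.VB

set_option autoImplicit false

namespace Pool.Agent.Lib.MP_5a2675_co.D7

open Finset
open Classical

variable {G G' : SimpleGraph ℕ} {S S' M X : Finset ℕ} {Γ : Gam} {C : Cfg} {f g : ℕ → ℕ}
  {a b c i j k l m n q r s t v w x y A J R Z Mk : ℕ}

/-- known edges from `Z` to `m` -/
def re_P (A Z m : ℕ) : Finset (ℕ × ℕ) :=
  (bits m ×ˢ bits Z).filter fun p => tb (row A p.2) p.1 = true

theorem re_dif_lt : Lt (dif (ones n) x) n := fun _ hi => tb_ones.1 (tb_dif.1 hi).1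

theorem re_card (h : Valid G S M C f) (hZ : Lt Z C.n) :
    cnt3 (nb3 C.A Z) (dif (ones C.n) x) = #(re_P C.A Z (dif (ones C.n) x)) := by
  rw [cnt3_eq (v_lt64 h hZ).2 (v_lt64 h re_dif_lt).1
    fun i hi => (v_cn_le h (re_dif_lt i hi)).trans dg_le.2]
  simp only [re_P, cn, card_filter, sum_product]

theorem re_mem (h : Valid G S M C f) (hk : tb Z k = true) (hi : tb x i = false)
    (ha : tb (row C.A k) i = true) : (i, k) ∈ re_P C.A Z (dif (ones C.n) x) := by
  have h1 := h.rlt k i ha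
  have h2 := h.n_le
  exact mem_filter.2 ⟨mem_product.2 ⟨mem_bits.2 ⟨by omega, tb_dif.2 ⟨tb_ones.2 h1.2, hi⟩⟩,
    mem_bits.2 ⟨by omega, hk⟩⟩, ha⟩

theorem re_cut (T : Finset (ℕ × ℕ))
    (h : ∀ v ∈ X, ∀ w ∈ S, w ∉ X → G.Adj v w → (v, w) ∈ T) : cut G S X ≤ #T := by
  have e : cut G S X = #((X ×ˢ (S \ X)).filter fun p => G.Adj p.1 p.2) := by
    simp only [cut, N, card_filter, sum_product]
  rw [e]
  refine card_le_card fun p hp => ?_
  obtain ⟨h1, h2⟩ := mem_filter.1 hp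
  obtain ⟨h3, h4⟩ := mem_product.1 h1
  exact h _ h3 _ (mem_sdiff.1 h4).1 (mem_sdiff.1 h4).2 h2

theorem re_chk {p : Bool} {L L' : List Cfg} (h : chk p L = some L') : p = true ∧ L' = L := by
  cases p
  · simp [chk] at h
  · exact ⟨rfl, (Option.some.inj h).symm⟩

theorem re_false {p : Bool} (h : ¬ p = true) : p = false := by simpa using h

theorem rT0_sound (h : Ctx G S M Γ C f) : Sound G S M (rT0' Γ C l) := by
  intro L hL
  obtain ⟨hc, rfl⟩ := re_chk hL
  simp only [Bool.and_eq_true, Nat.beq_eq, Nat.ble_eq] at hc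
  obtain ⟨⟨⟨⟨hJ, h2⟩, -⟩, h3⟩, h4⟩ := hc
  have hV := h.val
  have hB := hV.bl _ (gb_mem_of_NOJ hJ)
  generalize gb C l = B at *
  refine ⟨_, List.mem_singleton_self _, f, valid_setB hV (setHi_ok hB ?_)⟩
  have hR : Lt B.R C.n := fun i hi => hB.ltO i (hB.ro i hi)
  obtain ⟨hcut, hdeg⟩ := h.gam.jl.2 h2
  have hS : bX G S f B ⊆ S := (b_sub hB).trans sdiff_subset
  have hG : GJ G f B.J = G := by rw [hJ, GJ_NOJ]
  have hcon : Conn G (bX G S f B) := by
    have : Conn (GJ G f B.J) (bX G S f B) := comp_conn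
    rwa [hG] at this
  rw [hG]
  refine (hcut _ hS ⟨_, hB.inn _ hB.aI⟩ (fun e => ?_) hcon (le_trans ?_ h3) fun v hv => ?_).trans
    (by norm_num)
  · obtain ⟨i, hi⟩ := exists_tb hB.rne
    exact hB.out i (hB.ro i hi) (e.symm ▸ hV.mem i (hR i hi))
  · rw [re_card hV hR]
    refine (re_cut (image (fun p => (f p.1, f p.2)) _) fun v hv w hw hw' ha => ?_).trans
      card_image_le
    obtain ⟨i, hi, rfl⟩ := (b_step hB hv hw ha).resolve_left hw'
    obtain ⟨k, hk, rfl⟩ := hB.kn v hv i hi ha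
    exact mem_image.2 ⟨(k, i), re_mem hV hi (re_false fun e => hB.out k e hv) hk, rfl⟩
  · by_cases hk : ∃ i < C.n, f i = v
    · obtain ⟨i, hi, rfl⟩ := hk
      have h5 := b_deg_eq hV hB hi hv
      have h6 := dj_iff.1 h4 i (tb_dif.2 ⟨tb_ones.2 hi, re_false fun e => hB.out i e hv⟩)
      have h7 := (v_low1 (Z := B.R) hV hi (v_lt64 hV hR).2).not.1 (by simp [h6])
      rw [hG] at h5
      omega
    · have h5 := b_deg_new hV hB hv fun i hi e => hk ⟨i, hi, e⟩
      rw [hG] at h5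
      exact h5 ▸ hdeg v (hS hv)

theorem re_full (hV : Valid G S M C f) (hY : Lt y C.n) (hr : dj y C.r1 = true)
    (hv : v ∈ img f y) (hw : w ∈ S) (hw' : w ∉ img f y) (ha : G.Adj v w) :
    ∃ k i, tb y k = true ∧ tb y i = false ∧ tb (row C.A k) i = true ∧ f k = v ∧ f i = w := by
  obtain ⟨k, -, hk, rfl⟩ := mem_img.1 hv
  obtain ⟨i, hi, rfl⟩ := (v_known hV (hY k hk) hw ha).resolve_right (by simp [dj_iff.1 hr k hk])
  exact ⟨k, i, hk, re_false fun e => hw' ((v_mem_img hV hY (hV.rlt k i hi).2).2 e), hi, rfl, rfl⟩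

theorem rBr0_sound (h : Ctx G S M Γ C f) : Sound G S M (rBr0 Γ C y) := by
  intro L hL
  obtain ⟨hc, rfl⟩ := re_chk hL
  simp only [Bool.and_eq_true, Nat.ble_eq, Bool.not_eq_true', sub_ones_iff] at hc
  obtain ⟨⟨⟨⟨⟨h1, hY⟩, hr⟩, h0⟩, hn⟩, h3⟩ := hc
  have hV := h.val
  rw [re_card hV hY] at h3
  obtain ⟨a, ha⟩ := exists_tb (Nat.ne_of_beq_eq_false h0)
  have h4 := h.gam.jl.1 h1 (img f y) (v_img_sub hV hY) ⟨_, (v_mem_img hV hY (hY a ha)).2 ha⟩
    fun e => Nat.ne_of_beq_eq_false hn (tb_ext fun i => Bool.eq_iff_iff.2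
      ⟨fun hi => tb_ones.2 (hY i hi), fun hi => (v_mem_img hV hY (tb_ones.1 hi)).1
        (e.symm ▸ hV.mem i (tb_ones.1 hi))⟩)
  have h5 := (re_cut (G := G) (S := S) (X := img f y) (image (fun p => (f p.2, f p.1))
    (re_P C.A y (dif (ones C.n) y))) fun v hv w hw hw' ha => by
      obtain ⟨k, i, a1, a2, a3, rfl, rfl⟩ := re_full hV hY hr hv hw hw' ha
      exact mem_image.2 ⟨(i, k), re_mem hV a1 a2 a3, rfl⟩).trans card_image_le
  omega

theorem re_lor (h : tb a i = false) (h' : tb b i = false) : tb (Nat.lor a b) i = false :=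
  re_false fun e => (tb_lor.1 e).elim (by simp [h]) (by simp [h'])

theorem rBr1_sound (h : Ctx G S M Γ C f) : Sound G S M (rBr1 Γ C y l) := by
  intro L hL
  obtain ⟨hc, rfl⟩ := re_chk hL
  simp only [Bool.and_eq_true, Nat.beq_eq, Nat.ble_eq, Bool.not_eq_true', sub_ones_iff,
    sub_false_iff, Nat.add_eq] at hc
  obtain ⟨⟨⟨⟨⟨h1, hJ⟩, hY⟩, hr⟩, o, ho, ho'⟩, h3⟩ := hc
  have hV := h.val
  have hB := hV.bl _ (gb_mem_of_NOJ hJ)
  generalize gb C l = B at *
  have hR : Lt B.R C.n := fun i hi => hB.ltO i (hB.ro i hi)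
  rw [re_card hV hY, re_card hV fun i hi => hR i (tb_dif.1 hi).1] at h3
  have h4 := h.gam.jl.1 h1 (img f y ∪ bX G S f B)
    (union_subset (v_img_sub hV hY) ((b_sub hB).trans sdiff_subset))
    ⟨_, mem_union_right _ (hB.inn _ hB.aI)⟩ fun e => by
      rcases mem_union.1 (e.symm ▸ hV.mem o (hB.ltO o ho)) with e' | e'
      · simp [(v_mem_img hV hY (hB.ltO o ho)).1 e'] at ho'
      · exact hB.out o ho e'
  have h5 := (re_cut (G := G) (S := S) (X := img f y ∪ bX G S f B)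
    (image (fun p => (f p.2, f p.1)) (re_P C.A y (dif (ones C.n) (Nat.lor y B.In))) ∪
      image (fun p => (f p.1, f p.2)) (re_P C.A (dif B.R y) (dif (ones C.n) (Nat.lor y B.Out))))
    fun v hv w hw hw' ha => by
      rw [notMem_union] at hw'
      by_cases hv' : v ∈ img f y
      · obtain ⟨k, i, a1, a2, a3, rfl, rfl⟩ := re_full hV hY hr hv' hw hw'.1 ha
        exact mem_union_left _ (mem_image.2 ⟨(i, k),
          re_mem hV a1 (re_lor a2 (re_false fun e => hw'.2 (hB.inn i e))) a3, rfl⟩)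
      · have hv2 := (mem_union.1 hv).resolve_left hv'
        obtain ⟨i, hi, rfl⟩ := (b_step hB hv2 hw ha).resolve_left hw'.2
        obtain ⟨k, hk, rfl⟩ := hB.kn v hv2 i hi ha
        exact mem_union_right _ (mem_image.2 ⟨(k, i), re_mem hV
          (tb_dif.2 ⟨hi, re_false fun e => hw'.1 ((v_mem_img hV hY (hY i e)).2 e)⟩)
          (re_lor (re_false fun e => hv' ((v_mem_img hV hY (hY k e)).2 e))
            (re_false fun e => hB.out k e hv2)) hk, rfl⟩)).trans
    ((card_union_le _ _).trans (add_le_add card_image_le card_image_le))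
  omega

end Pool.Agent.Lib.MP_5a2675_co.D7
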