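import Mathlib
import Pool.Agent.Lib.MP_5a2675_co.D7.VB

set_option autoImplicit false

namespace Pool.Agent.Lib.MP_5a2675_co.D7

open Finset
open Classical

variable {G G' : SimpleGraph ℕ} {S S' M X : Finset ℕ} {Γ : Gam} {C : Cfg} {f g : ℕ → ℕ}
  {a b c i j k l m n q r s t v w x y A J R Z Mk : ℕ}

theorem rf_miss {B : Blob} (hC : Valid G S M C f) (hJ : jwf C.n J = true)
    (hB : BlobOK G S M C.n C.A f B) (hsO : ∀ i, tb s i = true → tb B.Out i = true)
    (hnb : ∀ i, tb (nb C.A (dif B.R Z)) i = true → tb B.Out i = true ∨ tb Z i = true)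
    (hs : ∀ i, tb (jm J (ones C.n)) i = true → tb s i = true) (ha : tb s a = true)
    (hx : x ∈ cX G S f Z J a) : x ∉ bX G S f B := by
  have hn : C.n ≤ 63 := hC.n_le.trans (by norm_num)
  have hR : Lt B.R C.n := fun i hi => hB.ltO i (hB.ro i hi)
  have h := (ga_mem_comp.mp hx).2
  clear hx
  induction h with
  | refl => exact hB.out a (hsO a ha)
  | @tail u u' _ hst ih =>
    obtain ⟨hu, hu', hadj⟩ := hst
    intro hin
    rcases (GJ_adj hJ hn hC.inj).mp hadj with h1 | ⟨i, j, hi, hij, -, rfl⟩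
    · rcases b_step hB hin (mem_sdiff.mp hu).1 h1.symm with h2 | ⟨r, hr, rfl⟩
      · exact ih h2
      · have hrn := hR r hr
        have hrZ : tb Z r = false := by
          by_contra h3
          exact (mem_sdiff.mp hu).2 (mem_img.mpr ⟨r, by omega, by simpa using h3, rfl⟩)
        obtain ⟨k, hk, rfl⟩ := hB.kn _ hin r hr h1.symm
        have hd : Lt (dif B.R Z) 64 := fun i hi => by
          have := hR i (tb_dif.mp hi).1
          omega
        rcases hnb k ((tb_nb hd).mpr ⟨r, tb_dif.mpr ⟨hr, hrZ⟩, hk⟩) with h4 | h4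
        · exact hB.out k h4 hin
        · exact (mem_sdiff.mp hu').2 (mem_img.mpr ⟨k, row_lt k hk, h4, rfl⟩)
    · obtain ⟨-, hj, -, hji⟩ := jp_lt hJ hn (by omega) hij
      exact hB.out j (hsO j (hs j ((tb_jm hJ hn).mpr ⟨by omega, i, hji⟩))) hin

/-- under the context test all edges from the component of a vertex of `s` to `Z` are known,
except those to `Dd` -/
theorem ctx_known {Dd : ℕ} {dl : List ℕ} (hC : Valid G S M C f) (hZ : Lt Z C.n)
    (hJ : jwf C.n J = true) (hc : ctxOK C Z Dd dl s = true)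
    (hs : ∀ i, tb (jm J (ones C.n)) i = true → tb s i = true) (ha : tb s a = true)
    (hx : x ∈ cX G S f Z J a) (hi : tb Z i = true) (hadj : G.Adj x (f i)) :
    tb Dd i = true ∨ ∃ k, tb (row C.A i) k = true ∧ f k = x := by
  unfold ctxOK at hc
  rw [Bool.and_eq_true, sub_iff, allL_iff] at hc
  obtain ⟨h1, h2⟩ := hc
  have hxS : x ∈ S := (mem_sdiff.mp (comp_subset hx)).1
  have hin := hZ i hi
  rcases v_known hC hin hxS hadj.symm with h3 | h3
  · exact Or.inr h3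
  rcases tb_lor.mp (h1 i (tb_land.mpr ⟨hi, h3⟩)) with h4 | h4
  · exact Or.inl h4
  obtain ⟨l, hl, hIn⟩ := tb_orL.mp h4
  have h5 := h2 l hl
  simp only [Bool.and_eq_true, Nat.beq_eq, sub_iff, tb_lor] at h5
  obtain ⟨⟨h5, h6⟩, h7⟩ := h5
  have hB := hC.bl _ (gb_mem_of_NOJ h5)
  have hm := rf_miss hC hJ hB h6 h7 hs ha hx
  rcases b_step hB (hB.inn i hIn) hxS hadj.symm with h8 | ⟨r, hr, rfl⟩
  · exact absurd h8 hm
  obtain ⟨k, hk, e⟩ := hB.kn _ (hB.inn i hIn) r hr hadj.symm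
  obtain rfl := hC.inj k (hC.rlt r k hk).2 i hin e
  exact Or.inr ⟨r, hC.sym _ _ hk, rfl⟩

theorem rf_addPF {p : PF} (hC : Valid G S M C f) (hp : PFOK G S M C.n f p) :
    Valid G S M (addPF C p) f :=
  { hC with
    pf := fun x hx => by
      rcases List.mem_cons.mp hx with rfl | hx
      · exact hp
      · exact hC.pf x hx }

theorem rf_in {p : PF} (hC : Valid G S M C f) (hR : Lt p.R C.n) (hp : p.p < C.n)
    (hpR : tb p.R p.p = false) (hJ : jwf C.n p.J = true) (hi : ℕ) :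
    ∀ i, tb (growIn C.A (ones C.n) ⟨p.R, 0, p.R, p.p, p.th, hi, p.J⟩ (bit p.p)).In i = true →
      i < C.n ∧ f i ∈ cX G S f p.R p.J p.p := by
  have hn : C.n ≤ 63 := hC.n_le.trans (by norm_num)
  have hm : ∀ j < C.n, tb p.R j = false → f j ∈ S \ img f p.R := fun j hj h0 =>
    mem_sdiff.mpr ⟨hC.mem j hj, fun h => by simp [(v_mem_img hC hR hj).mp h] at h0⟩
  intro i h
  rcases tb_lor.mp h with h | h
  · simp [tb_zero] at h
  refine clo_ind (fun i => i < C.n ∧ f i ∈ cX G S f p.R p.J p.p) ?_ ?_ i h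
  · intro i h
    obtain rfl := tb_bit.mp (tb_dif.mp h).1
    exact ⟨hp, mem_comp_self (hm _ hp hpR)⟩
  · rintro i j ⟨hi, hx⟩ hij hj
    obtain ⟨hj, hj'⟩ := tb_dif.mp hj
    have hjn := tb_ones.mp hj
    have hjR : tb p.R j = false := by
      by_contra h3
      have : tb (Nat.lor 0 p.R) j = true := tb_lor.mpr (Or.inr (by simpa using h3))
      exact Bool.false_ne_true (hj'.symm.trans this)
    refine ⟨hjn, comp_closed.2 _ hx _ (hm j hjn hjR) ((GJ_adj hJ hn hC.inj).mpr ?_)⟩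
    rcases tb_adjJ.mp hij with h | h
    · exact Or.inl (hC.adj i j h)
    · exact Or.inr ⟨i, j, hi, h, rfl, rfl⟩

theorem rBlob_sound {p : PF} {dl : List ℕ} (h : Ctx G S M Γ C f) :
    Sound G S M (rBlob C p dl) := by
  intro L hL
  have hC := h.val
  have hn : C.n ≤ 63 := hC.n_le.trans (by norm_num)
  unfold rBlob chk at hL
  generalize hb : (sub p.R (ones C.n) && !(Nat.beq p.R 0) && sub p.Dd p.R &&
    sub p.P0 (ones C.n) && tb (dif (ones C.n) p.R) p.p &&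
    (Nat.beq p.J NOJ || hasJV C p.R p.J) &&
    ctxOK C p.R p.Dd dl (Nat.lor (bit p.p) (jm p.J (ones C.n)))) = bb at hL
  cases bb
  · simp at hL
  simp only [cond_true, Option.some.injEq] at hL
  subst hL
  simp only [Bool.and_eq_true, Bool.or_eq_true, Nat.beq_eq, tb_dif, tb_ones] at hb
  obtain ⟨⟨⟨⟨⟨⟨hR, hne⟩, hD⟩, hP⟩, hp, hpR⟩, hJ⟩, hctx⟩ := hb
  rw [sub_ones_iff] at hR hP
  rw [sub_iff] at hD
  have hne' : p.R ≠ 0 := fun h0 => by simp [h0] at hne
  have hjok : JOK G S f C.n p.R p.J := by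
    rcases hJ with hJ | hJ
    · rw [hJ]
      exact jok_NOJ h.mc hn
    · obtain ⟨k, hk⟩ := hasJV_ok hC hJ
      exact hk.jok
  by_cases alt : (∃ i, tb p.P0 i = true ∧ f i ∈ cX G S f p.R p.J p.p) ∨
    (∃ y ∈ cX G S f p.R p.J p.p, y ∈ M) ∨
    (∃ y ∈ cX G S f p.R p.J p.p, ∃ i, tb p.Dd i = true ∧ G.Adj y (f i)) ∨
    ¬ NonCub (GJ G f p.J) (cX G S f p.R p.J p.p) ∨
    (p.th ≠ 0 ∧ val (GJ G f p.J) (cX G S f p.R p.J p.p) ∅ ≤ (p.th : ℤ) - 100)
  · exact ⟨_, List.mem_cons_self, f, rf_addPF hC ⟨hR, hP, hD, hp, hpR, hjok.wf, alt⟩⟩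
  simp only [not_or, not_not] at alt
  obtain ⟨h1, h2, h3, h4, h5⟩ := alt
  have key : ∀ hi : ℕ, val (GJ G f p.J) (cX G S f p.R p.J p.p) ∅ ≤ (hi : ℤ) - 100 →
      BlobOK G S M C.n C.A f
        (growIn C.A (ones C.n) ⟨p.R, 0, p.R, p.p, p.th, hi, p.J⟩ (bit p.p)) := by
    intro hi hhi
    have hin := rf_in hC hR hp hpR hjok.wf hi
    refine ⟨fun i h => (hin i h).1, hR, ?_, fun i h => (hin i h).2, ?_, fun _ h => h, hne',
      fun y hy hM => h2 ⟨y, hy, hM⟩, ?_, h4, hjok, fun h0 => ?_, hhi⟩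
    · exact tb_lor.mpr (Or.inr (seed_clo (tb_dif.mpr ⟨tb_bit.mpr rfl, tb_zero⟩)))
    · intro i hi hx
      exact (mem_sdiff.mp (comp_subset hx)).2 ((v_mem_img hC hR (hR i hi)).mpr hi)
    · intro y hy i hi hadj
      rcases ctx_known hC hR hjok.wf hctx (fun i h => tb_lor.mpr (Or.inr h))
        (tb_lor.mpr (Or.inl (tb_bit.mpr rfl))) hy hi hadj with h6 | h6
      · exact absurd ⟨y, hy, i, h6, hadj⟩ h3
      · exact h6
    · exact not_le.mp fun h6 => h5 ⟨h0, h6⟩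
  have hv : val (GJ G f p.J) (cX G S f p.R p.J p.p) ∅ ≤ ((104 : ℕ) : ℤ) - 100 := by
    have h6 := b_val_le h.mc hC
      (key (val (GJ G f p.J) (cX G S f p.R p.J p.p) ∅ + 100).toNat (by omega))
    have h7 : cc (GJ G f p.J) (cX G S f p.R p.J p.p) ∅ ≤ 4 := cc_le_four
    change val (GJ G f p.J) (cX G S f p.R p.J p.p) ∅ ≤ cc (GJ G f p.J) (cX G S f p.R p.J p.p) ∅
      at h6
    omega
  have hB := growOut_ok (s := Nat.lor p.P0 C.ms) hC (key 104 hv) (fun i hi => by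
    rcases tb_lor.mp hi with hi | hi
    · exact ⟨hP i hi, fun hx => h1 ⟨i, hi, hx⟩⟩
    · exact ⟨hC.ltm i hi, fun hx => h2 ⟨_, hx, (hC.mark i (hC.ltm i hi)).mpr hi⟩⟩)
  refine ⟨_, List.mem_cons_of_mem _ (mem_keep (valid_setBl hC fun B hB' => ?_)), f,
    valid_setBl hC fun B hB' => ?_⟩ <;>
  · rw [appL_eq, List.mem_append, List.mem_singleton] at hB'
    rcases hB' with hB' | rfl
    · exact hC.bl B hB'
    · exact hB

end Pool.Agent.Lib.MP_5a2675_co.D7
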