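import Mathlib
import Pool.Agent.Lib.MP_5a2675_co.D7.PA
import Pool.Agent.Lib.MP_5a2675_co.D7.PB
import Pool.Agent.Lib.MP_5a2675_co.D7.RF

set_option autoImplicit false

namespace Pool.Agent.Lib.MP_5a2675_co.D7

open Finset
open Classical

variable {G G' : SimpleGraph ℕ} {S S' M X : Finset ℕ} {Γ : Gam} {C : Cfg} {f g : ℕ → ℕ}
  {a b c i j k l m n q r s t v w x y A J R Z Mk : ℕ}

/-- every constrained index has all its neighbours inside the pattern -/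
def RgFull (P : Pat) (L : List (List ℕ)) : Prop :=
  ∀ i < P.k, P.con.getD i 0 ≠ 0 → (L.getD i []).length = P.con.getD i 0 ∧
    (L.getD i []).Nodup ∧ ∀ j ∈ L.getD i [], j < P.k ∧ ((i, j) ∈ P.E ∨ (j, i) ∈ P.E)

set_option synthInstance.maxSize 1024 in
theorem rg_full : ∀ P ∈ [Ta, Tb, Te, T3, T1], ∃ L, RgFull P L := by
  simp only [List.forall_mem_cons, List.not_mem_nil, false_imp_iff, implies_true, and_true]
  refine ⟨⟨[[1, 2], [0, 3, 4], [0, 3, 4], [1, 2, 4], [1, 2, 3]], ?_⟩,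
    ⟨[[1, 2], [0, 3, 4], [0, 3, 4], [1, 2, 5], [1, 2, 6]], ?_⟩,
    ⟨[[1, 2], [0, 3, 4], [0, 3, 4], [1, 2, 5], [1, 2, 6]], ?_⟩,
    ⟨[[1, 2], [0, 3, 4], [0, 5, 7], [1, 5, 6], [1, 5, 6], [2, 3, 4], [3, 4, 7]], ?_⟩,
    ⟨[[1, 2], [], [], [1, 5, 6], [2, 5, 7], [3, 4, 8], [3, 9, 10], [4, 9, 10], [5, 9, 10],
      [6, 7, 8], [6, 7, 8]], ?_⟩⟩ <;> unfold RgFull <;> decide

theorem rg_down {P : Pat} {L : List (List ℕ)} (hL : RgFull P L) (h : Emb G' S P g) (hG : G ≤ G')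
    (hE : ∀ e ∈ P.E, G.Adj (g e.1) (g e.2)) : Emb G S P g := by
  refine emb_mono h Subset.rfl hE fun i hi h0 => ?_
  obtain ⟨a, b, c⟩ := hL i hi h0
  have h1 := gb_deg_ge (G := G) h.1 h.2.1 hE i _ b c
  have h2 : deg G S (g i) ≤ deg G' S (g i) := deg_mono Subset.rfl fun _ _ e => hG e
  have h3 := h.2.2.2 i hi h0
  omega

theorem rg_par : ∀ P ∈ [Ta, Tb, Te, T3, T1], ∀ q < P.k, q = 0 ∨ ∃ p < q, (p, q) ∈ P.E := by
  simp only [List.forall_mem_cons, List.not_mem_nil, false_imp_iff, implies_true, and_true]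
  refine ⟨?_, ?_, ?_, ?_, ?_⟩ <;> decide

theorem rg_conn {P : Pat} (hP : P ∈ [Ta, Tb, Te, T3, T1]) (h : Emb G S P g) :
    ∀ q < P.k, g q ∈ comp G S (g 0) := by
  intro q
  induction q using Nat.strong_induction_on with
  | _ q ih =>
    intro hq
    rcases rg_par P hP q hq with rfl | ⟨p, hp, he⟩
    · exact mem_comp_self (h.1 0 hq)
    · exact comp_closed.2 _ (ih p hp (hp.trans hq)) _ (h.1 q hq) (h.2.2.1 _ he)

theorem rg_join_acc {L : List Cfg} {D : Cfg} (h : D ∈ L) : D ∈ joinE C a b L := by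
  unfold joinE
  cases tb C.r1 a && tb C.r1 b
  · exact h
  · exact mem_keep_of_mem h

theorem rg_join {L : List Cfg} (hC : Valid G S M C f) (ha : a < C.n) (hb : b < C.n)
    (hab : G.Adj (f a) (f b)) (hn : tb (row C.A a) b = false) :
    ∃ D ∈ joinE C a b L, ∃ f, Valid G S M D f := by
  have h1 := valid_addEdge hC ha hb hab hn
  obtain ⟨h2, h3⟩ := unk_r1 hC ha hb hab hn
  refine ⟨_, ?_, f, h1⟩
  rw [joinE, h2, h3]
  exact mem_keep h1

/-- the checks of the rule -/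
structure RgC (G : SimpleGraph ℕ) (S M : Finset ℕ) (Γ : Gam) (C : Cfg) (f : ℕ → ℕ) (R J : ℕ) :
    Prop where
  ctx : Ctx G S M Γ C f
  lt : Lt R C.n
  wf : jwf C.n J = true
  n47 : C.n ≤ 47
  je : ∀ i, tb (jm J (ones C.n)) i = true → i < C.n ∧ tb R i = false ∧ 0 < cn C.A R i
  jc : ∀ i, tb (jd J (ones C.n)) i = true → 1 < cn C.A R i
  u0 : tb (row C.A (ja0 J)) (jb0 J) = false
  u1 : tb (row C.A (ja1 J)) (jb1 J) = false

/-- one of the children other than the first occurs -/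
def RgK (G : SimpleGraph ℕ) (S M : Finset ℕ) (Γ : Gam) (C : Cfg) (R J : ℕ) : Prop :=
  ∃ D ∈ rJV2 Γ C J (dif (ones C.n) R)
    (Nat.land (dif (ones C.n) R) (dif (e2 C (nb3 C.A R) (jx J (ones C.n)))
      (e1 C (nb3 C.A R) (jx J (ones C.n)))))
    (dif (dif (ones C.n) R) (e2 C (nb3 C.A R) (jx J (ones C.n)))), ∃ f, Valid G S M D f

theorem RgC.n63 (h : RgC G S M Γ C f R J) : C.n ≤ 63 := h.n47.trans (by norm_num)

theorem RgC.jn_cn (h : RgC G S M Γ C f R J) (hi : tb (jm J (ones C.n)) i = true) :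
    jn J C.n i ≤ cn C.A R i := by
  have h1 := (h.je i hi).2.2
  have h2 := jn_le (J := J) (n := C.n) (i := i)
  cases e : tb (jd J (ones C.n)) i
  · rw [e, Bool.toNat_false] at h2
    omega
  · have := h.jc i e
    rw [e, Bool.toNat_true] at h2
    omega

theorem RgC.jok (h : RgC G S M Γ C f R J) (hK : ¬ RgK G S M Γ C R J) : JOK G S f C.n R J := by
  have hC := h.ctx.val
  refine ⟨h.wf, fun i k hi hk => ⟨(h.je i ((tb_jm h.wf h.n63).2 ⟨hi, k, hk⟩)).2.1, fun ha => hK ?_⟩,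
    fun v hv => ?_⟩
  · obtain ⟨h1, h2, -⟩ := jp_lt h.wf h.n63 hi hk
    rcases (tb_jp h.wf h.n63 hi).1 hk with ⟨rfl, rfl⟩ | ⟨rfl, rfl⟩ | ⟨rfl, rfl⟩ | ⟨rfl, rfl⟩
    · exact rg_join hC h1 h2 ha h.u0
    · exact rg_join hC h2 h1 ha.symm h.u0
    · obtain ⟨D, hD, h3⟩ := rg_join hC h1 h2 ha h.u1
      exact ⟨D, rg_join_acc hD, h3⟩
    · obtain ⟨D, hD, h3⟩ := rg_join hC h2 h1 ha.symm h.u1
      exact ⟨D, rg_join_acc hD, h3⟩
  · by_cases hj : ∃ i, tb (jm J (ones C.n)) i = true ∧ f i = v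
    · obtain ⟨i, hi, rfl⟩ := hj
      obtain ⟨h1, -, h2⟩ := h.je i hi
      have h3 := v_deg_GJ_le (S' := S \ img f R) hC h.wf h1
      have h4 := v_deg_le (S' := S \ img f R) (Z := R) hC h1 Subset.rfl
      have h5 := (dg_le (C := C) (i := i)).2
      have h6 := h.jn_cn hi
      omega
    · rw [v_deg_GJ_new hC h.wf fun i hi e => hj ⟨i, hi, e⟩]
      exact (deg_mono sdiff_subset fun _ _ e => e).trans
        (mc_deg3 h.ctx.mc v (mem_sdiff.1 hv).1)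

theorem RgC.peh {P : Pat} (h : RgC G S M Γ C f R J) (hK : ¬ RgK G S M Γ C R J)
    (hg : Emb (GJ G f J) (S \ img f R) P g)
    (hc : ∀ q < P.k, P.con.getD q 0 = 0 ∨ P.con.getD q 0 = 3 ∨ (P.con.getD q 0 = 2 ∧
      ∀ k, tb R k = true → G.Adj (g q) (f k) → ∃ i, tb (row C.A k) i = true ∧ f i = g q)) :
    PEH G S C f J (dif (ones C.n) R)
      (Nat.land (dif (ones C.n) R) (dif (e2 C (nb3 C.A R) (jx J (ones C.n)))
        (e1 C (nb3 C.A R) (jx J (ones C.n)))))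
      (dif (dif (ones C.n) R) (e2 C (nb3 C.A R) (jx J (ones C.n)))) P g := by
  have hC := h.ctx.val
  have h64 := (v_lt64 hC h.lt).2
  refine ⟨h.wf, fun q hq => (mem_sdiff.1 (hg.1 q hq)).1, hg.2.1, hg.2.2.1,
    fun i hi q hq e => ?_, fun q hq hn h0 => ?_⟩
  · have m0 : tb (dif (ones C.n) R) i = true := by
      refine tb_dif.2 ⟨tb_ones.2 hi, Bool.eq_false_iff.2 fun hR => ?_⟩
      exact (mem_sdiff.1 (hg.1 q hq)).2 (e ▸ (v_mem_img hC h.lt hi).2 hR)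
    have E2 := v_e2 (J := J) hC hi h64
    have E1 := v_e1 (J := J) hC hi h64
    rcases hc q hq with h0 | h3 | ⟨h2, hk⟩
    · rw [h0]
      exact m0
    · have d := hg.2.2.2 q hq (by omega)
      have a1 := v_deg_GJ_le (S' := S \ img f R) hC h.wf hi
      have a2 := v_deg_le (S' := S \ img f R) (Z := R) hC hi Subset.rfl
      rw [← e] at d
      rw [h3]
      exact tb_dif.2 ⟨m0, Bool.eq_false_iff.2 fun e => by have := E2.1 e; omega⟩
    · have d := hg.2.2.2 q hq (by omega)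
      have a1 := v_deg_GJ (S' := S \ img f R) hC (h.jok hK) hi fun k hk => by
        obtain ⟨-, b1, -, b2⟩ := jp_lt h.wf h.n63 (by have := h.n47; omega) hk
        refine mem_sdiff.2 ⟨hC.mem k b1, fun b3 => ?_⟩
        have b4 := (h.je k ((tb_jm h.wf h.n63).2 ⟨by have := h.n47; omega, i, b2⟩)).2.1
        rw [(v_mem_img hC h.lt b1).1 b3] at b4
        exact Bool.noConfusion b4
      have a2 := v_deg_eq (S' := S \ img f R) (Z := R) hC hi Subset.rfl fun w hw hw' ha => by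
        obtain ⟨k, k1, k2, rfl⟩ := mem_img.1 (by_contra fun b => hw' (mem_sdiff.2 ⟨hw, b⟩))
        obtain ⟨i', b1, b2⟩ := hk k k2 (e ▸ ha)
        rw [hC.inj i' (hC.rlt _ _ b1).2 i hi (b2.trans e.symm)] at b1
        exact ⟨k, k1, k2, b1, rfl⟩
      rw [← e] at d
      rw [h2]
      exact tb_land.2 ⟨m0, tb_dif.2 ⟨E2.2 (by omega),
        Bool.eq_false_iff.2 fun e => by have := E1.1 e; omega⟩⟩
  · have d := hg.2.2.2 q hq h0
    rw [v_deg_GJ_new hC h.wf fun i hi => hn i (h.je i hi).1] at d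
    rcases hc q hq with h0' | h3 | ⟨h2, hk⟩
    · exact (h0 h0').elim
    · have a1 : deg G (S \ img f R) (g q) ≤ deg G S (g q) := deg_mono sdiff_subset fun _ _ e => e
      have a2 := mc_deg3 h.ctx.mc _ (mem_sdiff.1 (hg.1 q hq)).1
      omega
    · rw [← d]
      refine congrArg card (Finset.ext fun w => ?_)
      rw [mem_N, mem_N, mem_sdiff]
      refine ⟨fun hw => ⟨⟨hw.1, fun b => ?_⟩, hw.2⟩, fun hw => ⟨hw.1.1, hw.2⟩⟩
      obtain ⟨k, -, k2, rfl⟩ := mem_img.1 b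
      obtain ⟨i, b1, b2⟩ := hk k k2 hw.2
      exact hn i (hC.rlt _ _ b1).2 b2

theorem RgC.edge {P : Pat} (h : RgC G S M Γ C f R J) (hg : Emb (GJ G f J) S' P g) {e : ℕ × ℕ}
    (he : e ∈ P.E) (hn : ¬ G.Adj (g e.1) (g e.2)) :
    ∃ i k, i < C.n ∧ tb (jp J i) k = true ∧ f i = g e.1 ∧ f k = g e.2 :=
  ((GJ_adj h.wf h.n63 h.ctx.val.inj).1 (hg.2.2.1 e he)).resolve_left hn

/-- a copy of a covered pattern has all its edges in the original graph -/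
theorem RgC.inG {P : Pat} {L : List RP} (h : RgC G S M Γ C f R J) (hK : ¬ RgK G S M Γ C R J)
    (hg : Emb (GJ G f J) (S \ img f R) P g)
    (hL : ∀ e ∈ P.E, Cov2 P L e.1 e.2 ∧ Cov2 P L e.2 e.1) (hT : ∀ Q ∈ L, Q ∈ jvTab Γ)
    (hc : ∀ e ∈ P.E, ∀ a, tb (jm J (ones C.n)) a = true → f a = g e.1 → ∀ q < P.k,
      P.con.getD q 0 = 0 ∨ P.con.getD q 0 = 3 ∨ (P.con.getD q 0 = 2 ∧
      ∀ k, tb R k = true → G.Adj (g q) (f k) → ∃ i, tb (row C.A k) i = true ∧ f i = g q)) :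
    ∀ e ∈ P.E, G.Adj (g e.1) (g e.2) := by
  intro e he
  by_contra hn
  obtain ⟨i, k, hi, hk, e1, e2⟩ := h.edge hg he hn
  have hi' : i < 63 := by have := h.n47; omega
  have hP := h.peh hK hg (hc e he i ((tb_jm h.wf h.n63).2 ⟨hi', k, hk⟩) e1)
  obtain ⟨h1, h2, -⟩ := jp_lt h.wf h.n63 hi' hk
  refine hK ?_
  rcases (tb_jp h.wf h.n63 hi').1 hk with ⟨rfl, rfl⟩ | ⟨rfl, rfl⟩ | ⟨rfl, rfl⟩ | ⟨rfl, rfl⟩
  · obtain ⟨D, hD, h3⟩ := pe2_cov h.ctx hP (hL e he).1 hT h.n47 h1 h2 e1 e2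
    exact ⟨D, rg_join_acc (rg_join_acc (mem_dd hD)), h3⟩
  · obtain ⟨D, hD, h3⟩ := pe2_cov h.ctx hP (hL e he).2 hT h.n47 h2 h1 e2 e1
    exact ⟨D, rg_join_acc (rg_join_acc (mem_dd hD)), h3⟩
  · obtain ⟨D, hD, h3⟩ := pe2_cov h.ctx hP (hL e he).1 hT h.n47 h1 h2 e1 e2
    exact ⟨D, rg_join_acc (rg_join_acc (mem_dd (pe2_acc hD))), h3⟩
  · obtain ⟨D, hD, h3⟩ := pe2_cov h.ctx hP (hL e he).2 hT h.n47 h2 h1 e2 e1
    exact ⟨D, rg_join_acc (rg_join_acc (mem_dd (pe2_acc hD))), h3⟩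

theorem rg_conK : ∀ q < PK.k, PK.con.getD q 0 = 0 ∨ PK.con.getD q 0 = 3 := by decide

theorem rg_conP : ∀ q < PP.k, PP.con.getD q 0 = 0 ∨ PP.con.getD q 0 = 3 := by decide

theorem rg_tab {Q : RP} : Q ∈ jvTab Γ ↔
    Q ∈ jA ∨ Q ∈ jB ∨ Q ∈ jE ∨ Q ∈ cond Γ.nop jPP (appL jT3 jT1) := by
  rw [jvTab, appL_eq, appL_eq, appL_eq, List.mem_append, List.mem_append, List.mem_append]

theorem RgC.noP (h : RgC G S M Γ C f R J) (hK : ¬ RgK G S M Γ C R J)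
    (hp : Γ.nop = true) : ¬ ∃ g, Emb (GJ G f J) (S \ img f R) PP g := by
  rintro ⟨g, hg⟩
  refine h.ctx.gam.nop hp ⟨g, embP_mono hg sdiff_subset (h.inG hK hg cov_jPP (fun Q hQ => ?_)
    fun _ _ _ _ _ q hq => (rg_conP q hq).imp_right .inl) (mc_deg3 h.ctx.mc)⟩
  rw [rg_tab, hp]
  exact .inr (.inr (.inr hQ))

theorem RgC.crit {dl : List ℕ} (h : RgC G S M Γ C f R J) (hK : ¬ RgK G S M Γ C R J)
    (hx : ctxOK C R 0 dl (jm J (ones C.n)) = true)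
    (hv : CritP (GJ G f J) (S \ img f R) v) : CritP G (S \ img f R) v := by
  obtain ⟨P, hP, g, hg, rfl⟩ := hv
  have key : ∀ L, (∀ e ∈ P.E, Cov2 P L e.1 e.2 ∧ Cov2 P L e.2 e.1) → (∀ Q ∈ L, Q ∈ jvTab Γ) →
      CritP G (S \ img f R) (g 0) := fun L h1 h2 => by
    obtain ⟨L', hL'⟩ := rg_full P hP
    obtain ⟨-, r1, r2, r3⟩ := gb_root P hP
    refine ⟨P, hP, g, rg_down hL' hg le_GJ (h.inG hK hg h1 h2 fun e he a ha ea q hq => ?_), rfl⟩
    rcases r3 q hq with rfl | h0 | h3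
    · refine .inr (.inr ⟨r1, fun k hk' hadj => ?_⟩)
      refine (ctx_known h.ctx.val h.lt h.wf hx (fun _ e => e) ha ?_ hk' hadj).resolve_left
        (by rw [tb_zero]; exact Bool.noConfusion)
      rw [cX, ea, comp_eq_of_mem (rg_conn hP hg e.1 (r2 e he).1)]
      exact rg_conn hP hg 0 hq
    · exact .inl h0
    · exact .inr (.inl h3)
  simp only [List.mem_cons, List.not_mem_nil, or_false] at hP
  rcases hP with rfl | rfl | rfl | hP
  · exact key _ cov_jA fun Q hQ => rg_tab.2 (.inl hQ)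
  · exact key _ cov_jB fun Q hQ => rg_tab.2 (.inr (.inl hQ))
  · exact key _ cov_jE fun Q hQ => rg_tab.2 (.inr (.inr (.inl hQ)))
  cases hp : Γ.nop
  · rcases hP with rfl | rfl
    · refine key _ cov_jT3 fun Q hQ => ?_
      rw [rg_tab, hp, cond_false, appL_eq]
      exact .inr (.inr (.inr (List.mem_append_left _ hQ)))
    · refine key _ cov_jT1 fun Q hQ => ?_
      rw [rg_tab, hp, cond_false, appL_eq]
      exact .inr (.inr (.inr (List.mem_append_right _ hQ)))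
  · rcases hP with rfl | rfl
    · exact (h.noP hK hp ⟨_, gb_sub hg gb_T3P⟩).elim
    · exact (h.noP hK hp ⟨_, gb_sub hg gb_T1P⟩).elim

theorem rg_addJV {x : JV} (hC : Valid G S M C f) (hx : JVOK G S C.n f x) :
    Valid G S M (addJV C x) f :=
  ⟨hC.n_le, hC.mem, hC.inj, hC.rlt, hC.sym, hC.adj, hC.deg, hC.rem, hC.r21, hC.r32, hC.d12,
    hC.mark, hC.lt1, hC.lt2, hC.ltm, hC.ltr, hC.kc, hC.ht, hC.bl, hC.nc, hC.pf,
    List.forall_mem_cons.2 ⟨hx, hC.jv⟩⟩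

theorem rg_mk {dl : List ℕ} (h : Ctx G S M Γ C f)
    (hc : (sub R (ones C.n) && jwf C.n J && Nat.ble C.n 47 &&
      sub (jm J (ones C.n)) (Nat.land (dif (ones C.n) R) (row (nb3 C.A R) 0)) &&
      sub (Nat.shiftRight (jx J (ones C.n)) 64) (row (nb3 C.A R) 1) &&
      !(tb (row C.A (ja0 J)) (jb0 J)) && !(tb (row C.A (ja1 J)) (jb1 J)) &&
      ctxOK C R 0 dl (jm J (ones C.n))) = true) :
    RgC G S M Γ C f R J ∧ ctxOK C R 0 dl (jm J (ones C.n)) = true := by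
  simp only [Bool.and_eq_true, Nat.ble_eq, Bool.not_eq_true'] at hc
  obtain ⟨⟨⟨⟨⟨⟨⟨c1, c2⟩, c3⟩, c4⟩, c8⟩, c5⟩, c6⟩, c7⟩ := hc
  have hR := sub_ones_iff.1 c1
  refine ⟨⟨h, hR, c2, c3, fun i hi => ?_, fun i hi => ?_, c5, c6⟩, c7⟩
  · obtain ⟨a1, a2⟩ := tb_land.1 (sub_iff.1 c4 i hi)
    exact ⟨tb_ones.1 (tb_dif.1 a1).1, (tb_dif.1 a1).2,
      (tb_nb3 (v_lt64 h.val hR).2 (by norm_num)).1 a2⟩
  · rw [← tb_jx64 (by omega)] at hi
    exact (tb_nb3 (v_lt64 h.val hR).2 (by norm_num)).1 (sub_iff.1 c8 i hi)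

theorem rJV_sound {dl : List ℕ} (h : Ctx G S M Γ C f) : Sound G S M (rJV Γ C R J dl) := by
  intro L hL
  unfold rJV rJV1 chk at hL
  rw [Bool.cond_eq_ite] at hL
  split_ifs at hL with hc
  obtain ⟨H, c7⟩ := rg_mk h hc
  obtain rfl := Option.some.inj hL
  by_cases hK : RgK G S M Γ C R J
  · obtain ⟨D, hD, h1⟩ := hK
    exact ⟨D, List.mem_cons_of_mem _ hD, h1⟩
  exact ⟨_, List.mem_cons_self, f, rg_addJV h.val
    ⟨H.lt, H.jok hK, fun v hv => H.crit hK c7 hv, fun hk => Nat.noConfusion hk⟩⟩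

end Pool.Agent.Lib.MP_5a2675_co.D7
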