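import Mathlib
import Pool.Agent.Lib.MP_5a2675_co.D7.RE

set_option autoImplicit false

namespace Pool.Agent.Lib.MP_5a2675_co.D7

open Finset
open Classical

variable {G G' : SimpleGraph ℕ} {S S' M X : Finset ℕ} {Γ : Gam} {C : Cfg} {f g : ℕ → ℕ}
  {a b c i j k l m n q r s t v w x y A J R Z Mk : ℕ}

theorem rBr2_sound (h : Ctx G S M Γ C f) : Sound G S M (rBr2 Γ C y w l) := by
  intro L hL
  obtain ⟨hc, rfl⟩ := re_chk hL
  simp only [Bool.and_eq_true, Nat.beq_eq, Nat.ble_eq, Bool.not_eq_true', sub_ones_iff,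
    sub_false_iff, Nat.add_eq, Bool.and_eq_false_iff] at hc
  obtain ⟨⟨⟨⟨⟨⟨h1, hJ⟩, hYW⟩, hr⟩, o, ho, ho'⟩, hne⟩, h3⟩ := hc
  have hV := h.val
  have hB := hV.bl _ (gb_mem_of_NOJ hJ)
  generalize gb C l = B at *
  have hY : Lt y C.n := fun i hi => hYW i (tb_lor.2 (Or.inl hi))
  have hW : Lt w C.n := fun i hi => hYW i (tb_lor.2 (Or.inr hi))
  have hrW : dj w C.r1 = true := dj_iff.2 fun i hi => dj_iff.1 hr i (tb_lor.2 (Or.inr hi))
  have hR : Lt B.R C.n := fun i hi => hB.ltO i (hB.ro i hi)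
  rw [re_card hV hW, re_card hV fun i hi =>
    (tb_lor.1 (tb_dif.1 hi).1).elim (hR i) (hY i)] at h3
  have h4 := h.gam.jl.1 h1 ((bX G S f B \ img f y) ∪ img f w)
    (union_subset (sdiff_subset.trans ((b_sub hB).trans sdiff_subset)) (v_img_sub hV hW))
    (by
      rcases hne with e | ⟨i, hi, hi'⟩
      · obtain ⟨a, ha⟩ := exists_tb (Nat.ne_of_beq_eq_false e)
        exact ⟨_, mem_union_right _ ((v_mem_img hV hW (hW a ha)).2 ha)⟩
      · exact ⟨_, mem_union_left _ (mem_sdiff.2 ⟨hB.inn i hi, fun e => by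
          simp [(v_mem_img hV hY (hB.ltI i hi)).1 e] at hi'⟩)⟩)
    fun e => by
      rcases mem_union.1 (e.symm ▸ hV.mem o (hB.ltO o ho)) with e' | e'
      · exact hB.out o ho (mem_sdiff.1 e').1
      · simp [(v_mem_img hV hW (hB.ltO o ho)).1 e'] at ho'
  have h5 := (re_cut (G := G) (S := S) (X := (bX G S f B \ img f y) ∪ img f w)
    (image (fun p => (f p.2, f p.1))
        (re_P C.A w (dif (ones C.n) (Nat.lor w (dif B.In y)))) ∪
      image (fun p => (f p.1, f p.2)) (re_P C.A (dif (Nat.lor B.R y) w)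
        (dif (ones C.n) (Nat.lor (Nat.lor w y) B.Out))))
    fun v hv x hx hx' ha => by
      rw [notMem_union] at hx'
      by_cases hv' : v ∈ img f w
      · obtain ⟨k, i, a1, a2, a3, rfl, rfl⟩ := re_full hV hW hrW hv' hx hx'.2 ha
        refine mem_union_left _ (mem_image.2 ⟨(i, k),
          re_mem hV a1 (re_lor a2 (re_false fun e => hx'.1 ?_)) a3, rfl⟩)
        obtain ⟨b1, b2⟩ := tb_dif.1 e
        exact mem_sdiff.2 ⟨hB.inn i b1, fun e' => by
          simp [(v_mem_img hV hY (hB.ltI i b1)).1 e'] at b2⟩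
      · obtain ⟨hv2, hv3⟩ := mem_sdiff.1 ((mem_union.1 hv).resolve_right hv')
        have key : ∃ i k, tb (Nat.lor B.R y) i = true ∧ tb (row C.A i) k = true ∧ f i = x ∧
            f k = v := by
          by_cases hy : x ∈ img f y
          · obtain ⟨i, -, hi, rfl⟩ := mem_img.1 hy
            obtain ⟨k, hk, rfl⟩ := (v_known hV (hY i hi) ((b_sub hB).trans sdiff_subset hv2)
              ha.symm).resolve_right (by simp [dj_iff.1 hr i (tb_lor.2 (Or.inl hi))])
            exact ⟨i, k, tb_lor.2 (Or.inr hi), hk, rfl, rfl⟩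
          · obtain ⟨i, hi, rfl⟩ := (b_step hB hv2 hx ha).resolve_left
              fun e => hx'.1 (mem_sdiff.2 ⟨e, hy⟩)
            obtain ⟨k, hk, rfl⟩ := hB.kn v hv2 i hi ha
            exact ⟨i, k, tb_lor.2 (Or.inl hi), hk, rfl, rfl⟩
        obtain ⟨i, k, hi, hk, rfl, rfl⟩ := key
        exact mem_union_right _ (mem_image.2 ⟨(k, i), re_mem hV
          (tb_dif.2 ⟨hi, re_false fun e => hx'.2 ((v_mem_img hV hW (hW i e)).2 e)⟩)
          (re_lor (re_lor (re_false fun e => hv' ((v_mem_img hV hW (hW k e)).2 e))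
            (re_false fun e => hv3 ((v_mem_img hV hY (hY k e)).2 e)))
            (re_false fun e => hB.out k e hv2)) hk, rfl⟩)).trans
    ((card_union_le _ _).trans (add_le_add card_image_le card_image_le))
  omega

end Pool.Agent.Lib.MP_5a2675_co.D7
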