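import Mathlib
import Pool.Agent.Lib.MP_5a2675_co.D7.RA

set_option autoImplicit false

namespace Pool.Agent.Lib.MP_5a2675_co.D7

open Finset
open Classical

variable {G G' : SimpleGraph ℕ} {S S' M X : Finset ℕ} {Γ : Gam} {C : Cfg} {f g : ℕ → ℕ}
  {a b c i j k l m n q r s t v w x y A J R Z Mk : ℕ}

variable {E D : Cfg} {ext : List Cfg} {mp : ℕ}

theorem ri_blob {e d : Blob} (hd : BlobOK G S M n A f d) (h : bsub e d = true) :
    BlobOK G S M n A f e := by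
  simp only [bsub, Bool.and_eq_true, Nat.beq_eq, Nat.ble_eq, sub_iff] at h
  obtain ⟨⟨⟨⟨⟨⟨⟨hR, hJ⟩, hI⟩, hO⟩, ha⟩, hro⟩, hlo⟩, hhi⟩ := h
  have hX : bX G S f e = bX G S f d := by
    have := hd.inn _ (hI _ ha)
    unfold bX cX at this ⊢
    rw [hR, hJ]
    exact comp_eq_of_mem this
  refine ⟨fun i hi => hd.ltI i (hI i hi), fun i hi => hd.ltO i (hO i hi), ha, ?_, ?_, hro, ?_, ?_,
    ?_, ?_, ?_, ?_, ?_⟩
  · rw [hX]
    exact fun i hi => hd.inn i (hI i hi)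
  · rw [hX]
    exact fun i hi => hd.out i (hO i hi)
  · rw [hR]
    exact hd.rne
  · rw [hX]
    exact hd.unm
  · rw [hX, hR]
    exact hd.kn
  · rw [hX, hJ]
    exact hd.ncub
  · rw [hR, hJ]
    exact hd.jok
  · rw [hX, hJ]
    intro h0
    have := hd.lo (by omega)
    omega
  · rw [hX, hJ]
    have := hd.hi
    omega

theorem valid_csub (hD : Valid G S M D f) (h : csub E D = true) : Valid G S M E f := by
  simp only [csub, Bool.and_eq_true, Nat.beq_eq, Nat.ble_eq, allL_iff, anyL_iff, sub_ones_iff] at h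
  obtain ⟨⟨⟨⟨⟨⟨⟨⟨⟨⟨⟨⟨⟨⟨h1, h2⟩, h3⟩, h4⟩, h5⟩, h6⟩, h7⟩, h8⟩, h9⟩, h10⟩, h11⟩, h12⟩, h13⟩, h14⟩,
    h15⟩ := h
  obtain ⟨n, A, d1, d2, ms, r1, r2, r3, kc, ht, bl, nc, pf, jv⟩ := E
  dsimp only at h1 h2 h3 h4 h5 h6 h7 h8 h9 h10 h12 h13 h14 h15
  subst h1 h2 h3 h4 h5 h6 h7 h8
  refine ⟨hD.n_le, hD.mem, hD.inj, hD.rlt, hD.sym, hD.adj, hD.deg, hD.rem, hD.r21, hD.r32, hD.d12,
    hD.mark, hD.lt1, hD.lt2, hD.ltm, hD.ltr, fun i hi => hD.kc i (sub_iff.1 h9 i hi),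
    fun h0 => hD.ht (by dsimp only at h0; omega), fun e he => ?_, fun e he => ?_, fun e he => ?_,
    fun e he => ?_⟩
  · obtain ⟨d, hd, hs⟩ := h12 e he
    exact ri_blob (hD.bl d hd) hs
  · obtain ⟨a1, a2⟩ := h13 e he
    refine ⟨a1, fun i hi => ?_, fun i hi S' hS =>
      ncm_ok hD (sub_iff.1 a2 i hi) hS (v_lt64 hD a1).2⟩
    obtain ⟨z, hz, hi'⟩ := tb_orL.1 (sub_iff.1 a2 i hi)
    cases hs : sub z.1 e.1 with
    | false => rw [hs, cond_false, tb_zero] at hi'; exact absurd hi' (by simp)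
    | true => rw [hs, cond_true] at hi'; exact (hD.nc z hz).ltm i hi'
  · obtain ⟨d, hd, hs⟩ := h14 e he
    have : e = d := by
      cases e
      cases d
      simp only [beqF, Bool.and_eq_true, Nat.beq_eq] at hs
      simp only [PF.mk.injEq]
      tauto
    exact this ▸ hD.pf d hd
  · obtain ⟨d, hd, hs⟩ := h15 e he
    have : e = d := by
      cases e
      cases d
      simp only [beqJ, Bool.and_eq_true, Nat.beq_eq] at hs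
      simp only [JV.mk.injEq]
      tauto
    exact this ▸ hD.jv d hd

theorem ri_fold (F : ℕ → ℕ) (L : List ℕ) :
    tb (L.foldr (fun i a => Nat.lor a (F i)) 0) j = true ↔ ∃ i ∈ L, tb (F i) j = true := by
  induction L with
  | nil => simp [tb_zero]
  | cons e L ih =>
    rw [List.foldr_cons, tb_lor, ih]
    simp only [List.mem_cons, exists_eq_or_imp]
    exact or_comm

theorem ri_and63 (z : ℕ) : Nat.land z 63 = z % 64 := Nat.and_two_pow_sub_one_eq_mod z 6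

theorem ri_sg_lt : sg mp i < 64 := by
  rw [sg, ri_and63]
  omega

theorem ri_mapM (h : Lt m 64) :
    tb (mapM mp m) j = true ↔ ∃ i, tb m i = true ∧ sg mp i = j := by
  rw [mapM, loopB_eq _ h, ri_fold fun i => bit (sg mp i)]
  simp only [mem_bl, tb_bit]
  exact ⟨fun ⟨i, h1, h2⟩ => ⟨i, h1.2, h2.symm⟩, fun ⟨i, h1, h2⟩ => ⟨i, ⟨h i h1, h1⟩, h2.symm⟩⟩

theorem ri_mapA (hn : n ≤ 64) : tb (row (mapA mp A (ones n)) j) k = true ↔
    ∃ i < n, sg mp i = j ∧ tb (mapM mp (row A i)) k = true := by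
  have h64 : ∀ i k, tb (mapM mp (row A i)) k = true → k < 64 := fun i k h => by
    obtain ⟨i', -, rfl⟩ := (ri_mapM row_lt).1 h
    exact ri_sg_lt
  rw [tb_row, ← tb_eq, mapA, loopB_eq _ fun i hi => (tb_ones.1 hi).trans_le hn,
    ri_fold fun i => Nat.shiftLeft (mapM mp (row A i)) (Nat.shiftLeft (sg mp i) 6)]
  simp only [mem_bl, tb_ones]
  have e : ∀ i z, tb (Nat.shiftLeft (mapM mp (row A i)) (Nat.shiftLeft (sg mp i) 6)) z = true ↔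
      64 * sg mp i ≤ z ∧ tb (mapM mp (row A i)) (z - 64 * sg mp i) = true := fun i z => by
    rw [tb_eq, tb_eq, ba_shl, ba_shl, Nat.testBit_shiftLeft, Nat.shiftLeft_eq, mul_comm]
    simp
  simp only [e]
  constructor
  · rintro ⟨hk, i, hi, h1, h2⟩
    have := h64 _ _ h2
    have h3 : sg mp i = j := by omega
    exact ⟨i, hi.2, h3, by rwa [h3, Nat.add_sub_cancel_left] at h2⟩
  · rintro ⟨i, hi, rfl, h2⟩
    exact ⟨h64 _ _ h2, i, ⟨by omega, hi⟩, by omega, by rwa [Nat.add_sub_cancel_left]⟩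

theorem ri_or {u z : ℕ} (e : ℕ) (hu : u < 2 ^ e) : Nat.lor u (Nat.shiftLeft z e) = z * 2 ^ e + u := by
  rw [ba_lor, ba_shl, Nat.lor_comm, ← Nat.shiftLeft_add_eq_or_of_lt hu, Nat.shiftLeft_eq]

theorem ri_cdJ {d : ℕ} (ha : a < 64) (hb : b < 64) (hc : c < 64) (hd : d < 64) :
    ja0 (cdJ a b c d) = a ∧ jb0 (cdJ a b c d) = b ∧ ja1 (cdJ a b c d) = c ∧
      jb1 (cdJ a b c d) = d := by
  have e1 : Nat.lor (Nat.shiftLeft c 12) (Nat.shiftLeft d 18)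
      = Nat.shiftLeft (Nat.lor c (Nat.shiftLeft d 6)) 12 := by
    simp only [ba_lor, ba_shl]
    rw [Nat.shiftLeft_or_distrib, ← Nat.shiftLeft_add]
  have e2 : cdJ a b c d = (d * 2 ^ 6 + c) * 2 ^ 12 + (b * 2 ^ 6 + a) := by
    rw [cdJ, e1, ri_or 6 (by omega : a < 2 ^ 6), ri_or 6 (by omega : c < 2 ^ 6),
      ri_or 12 (by omega)]
  simp only [ja0, jb0, ja1, jb1, ri_and63, ba_shr, Nat.shiftRight_eq_div_pow, e2]
  omega

/-- the four indices of `J` are `a b c d` up to the order -/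
def RiF (J a b c d : ℕ) : Prop :=
  ((ja0 J = a ∧ jb0 J = b ∨ ja0 J = b ∧ jb0 J = a) ∧
    (ja1 J = c ∧ jb1 J = d ∨ ja1 J = d ∧ jb1 J = c)) ∨
  ((ja0 J = c ∧ jb0 J = d ∨ ja0 J = d ∧ jb0 J = c) ∧
    (ja1 J = a ∧ jb1 J = b ∨ ja1 J = b ∧ jb1 J = a))

theorem ri_srt {d : ℕ} (ha : a < 64) (hb : b < 64) (hc : c < 64) (hd : d < 64) :
    RiF (srtJ a b c d) a b c d := by
  have h2 : ∀ {a b c d : ℕ}, a < 64 → b < 64 → c < 64 → d < 64 →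
      (ja0 (srtJ2 a b c d) = a ∧ jb0 (srtJ2 a b c d) = b ∧ ja1 (srtJ2 a b c d) = c ∧
        jb1 (srtJ2 a b c d) = d) ∨ (ja0 (srtJ2 a b c d) = c ∧ jb0 (srtJ2 a b c d) = d ∧
        ja1 (srtJ2 a b c d) = a ∧ jb1 (srtJ2 a b c d) = b) := fun {a b c d} ha hb hc hd => by
    unfold srtJ2
    cases Nat.ble a c
    · exact Or.inr (ri_cdJ hc hd ha hb)
    · exact Or.inl (ri_cdJ ha hb hc hd)
  unfold srtJ srtJ1 RiF
  cases Nat.ble a b <;> cases Nat.ble c d <;> simp only [cond_true, cond_false]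
  · rcases h2 hb ha hd hc with ⟨h1, h2, h3, h4⟩ | ⟨h1, h2, h3, h4⟩ <;> simp [h1, h2, h3, h4]
  · rcases h2 hb ha hc hd with ⟨h1, h2, h3, h4⟩ | ⟨h1, h2, h3, h4⟩ <;> simp [h1, h2, h3, h4]
  · rcases h2 ha hb hd hc with ⟨h1, h2, h3, h4⟩ | ⟨h1, h2, h3, h4⟩ <;> simp [h1, h2, h3, h4]
  · rcases h2 ha hb hc hd with ⟨h1, h2, h3, h4⟩ | ⟨h1, h2, h3, h4⟩ <;> simp [h1, h2, h3, h4]

theorem ri_sgJ_lt : sgJ mp x < 64 := by
  rw [sgJ, bb_cond]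
  split_ifs
  · omega
  · exact ri_sg_lt

theorem ri_mapJ : RiF (mapJ mp J) (sgJ mp (ja0 J)) (sgJ mp (jb0 J)) (sgJ mp (ja1 J))
    (sgJ mp (jb1 J)) := by
  rw [mapJ, bb_cond]
  split_ifs with h
  · obtain ⟨h1, h2, h3, h4⟩ := bb_NOJ
    have e : sgJ mp 63 = 63 := rfl
    rw [h, h1, h2, h3, h4, e]
    exact Or.inl ⟨Or.inl ⟨h1, h2⟩, Or.inl ⟨h3, h4⟩⟩
  · exact ri_srt ri_sgJ_lt ri_sgJ_lt ri_sgJ_lt ri_sgJ_lt

/-- `sg mp` permutes the indices below `n`, and `g` is `f` after the inverse permutation -/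
structure RiP (mp n : ℕ) (f g : ℕ → ℕ) : Prop where
  le : n ≤ 62
  lt : ∀ i < n, sg mp i < n
  inj : ∀ i < n, ∀ j < n, sg mp i = sg mp j → i = j
  sur : ∀ j < n, ∃ i < n, sg mp i = j
  ff : ∀ i < n, g (sg mp i) = f i

theorem ri_exists (hn : n ≤ 62) (h : mapM mp (ones n) = ones n) (f : ℕ → ℕ) :
    ∃ g, RiP mp n f g := by
  have h64 : Lt (ones n) 64 := fun i hi => by have := tb_ones.1 hi; omega
  have h1 : ∀ i < n, sg mp i < n := fun i hi => by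
    rw [← tb_ones, ← h, ri_mapM h64]
    exact ⟨i, tb_ones.2 hi, rfl⟩
  have h2 : ∀ j < n, ∃ i < n, sg mp i = j := fun j hj => by
    rw [← tb_ones, ← h, ri_mapM h64] at hj
    obtain ⟨i, hi, e⟩ := hj
    exact ⟨i, tb_ones.1 hi, e⟩
  have h3 : Set.InjOn (sg mp) (range n : Finset ℕ) :=
    Finset.injOn_of_surjOn_of_card_le (t := range n) (sg mp)
      (fun i hi => by simpa using h1 i (by simpa using hi))
      (fun j hj => by
        obtain ⟨i, hi, e⟩ := h2 j (by simpa using hj)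
        exact ⟨i, by simpa using hi, e⟩) le_rfl
  have h4 : ∀ i < n, ∀ j < n, sg mp i = sg mp j → i = j := fun i hi j hj e =>
    h3 (by simpa using hi) (by simpa using hj) e
  refine ⟨fun j => if hj : j < n then f (h2 j hj).choose else 0, hn, h1, h4, h2, fun i hi => ?_⟩
  rw [dif_pos (h1 i hi), h4 _ (h2 _ (h1 i hi)).choose_spec.1 i hi (h2 _ (h1 i hi)).choose_spec.2]

theorem RiP.l64 (p : RiP mp n f g) (hm : Lt m n) : Lt m 64 :=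
  hm.mono (p.le.trans (by norm_num))

theorem RiP.ex (p : RiP mp n f g) (hm : Lt m n) (h : tb (mapM mp m) j = true) :
    ∃ i < n, tb m i = true ∧ sg mp i = j := by
  obtain ⟨i, hi, e⟩ := (ri_mapM (p.l64 hm)).1 h
  exact ⟨i, hm i hi, hi, e⟩

theorem RiP.tb_eq (p : RiP mp n f g) (hm : Lt m n) (hi : i < n) :
    tb (mapM mp m) (sg mp i) = tb m i := by
  rw [Bool.eq_iff_iff]
  refine ⟨fun h => ?_, fun h => (ri_mapM (p.l64 hm)).2 ⟨i, h, rfl⟩⟩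
  obtain ⟨k, hk, h1, e⟩ := p.ex hm h
  rwa [← p.inj k hk i hi e]

theorem RiP.ltM (p : RiP mp n f g) (hm : Lt m n) : Lt (mapM mp m) n := fun j h => by
  obtain ⟨i, hi, -, rfl⟩ := p.ex hm h
  exact p.lt i hi

theorem RiP.imp (p : RiP mp n f g) (ha : Lt a n) (hb : Lt b n)
    (h : ∀ i, tb a i = true → tb b i = true) :
    ∀ j, tb (mapM mp a) j = true → tb (mapM mp b) j = true := fun j hj => by
  obtain ⟨i, hi, h1, rfl⟩ := p.ex ha hj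
  rw [p.tb_eq hb hi]
  exact h i h1

theorem RiP.bits_eq (p : RiP mp n f g) (hm : Lt m n) :
    bits (mapM mp m) = (bits m).image (sg mp) := by
  ext j
  rw [mem_bits' (p.l64 (p.ltM hm)), ri_mapM (p.l64 hm), mem_image]
  simp only [mem_bits' (p.l64 hm)]

theorem RiP.img_eq (p : RiP mp n f g) (hm : Lt m n) : img g (mapM mp m) = img f m := by
  rw [img, img, p.bits_eq hm, image_image]
  exact image_congr fun i hi => p.ff i (hm i (mem_bits.1 hi).2)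

theorem RiP.row_eq (p : RiP mp n f g) (hi : i < n) :
    row (mapA mp A (ones n)) (sg mp i) = mapM mp (row A i) := tb_ext fun k => by
  rw [Bool.eq_iff_iff, ri_mapA (p.le.trans (by norm_num))]
  refine ⟨?_, fun h => ⟨i, hi, rfl, h⟩⟩
  rintro ⟨i', hi', e, h⟩
  rwa [← p.inj i' hi' i hi e]

theorem RiP.sgJ_eq (p : RiP mp n f g) (hx : x = 63 ∨ x < n) :
    (x = 63 ∧ sgJ mp x = 63) ∨ (x < n ∧ sgJ mp x = sg mp x ∧ sgJ mp x < n) := by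
  have := p.le
  rw [sgJ, bb_cond]
  split_ifs with h
  · exact Or.inl ⟨h, rfl⟩
  · exact Or.inr ⟨by omega, rfl, p.lt x (by omega)⟩

theorem RiP.sgJ_inj (p : RiP mp n f g) (hx : x = 63 ∨ x < n) (hy : y = 63 ∨ y < n)
    (h : sgJ mp x = sgJ mp y) : x = y := by
  have := p.le
  rcases p.sgJ_eq hx with h1 | h1 <;> rcases p.sgJ_eq hy with h2 | h2
  · omega
  · omega
  · omega
  · exact p.inj x h1.1 y h2.1 (by omega)

/-- two well formed pairs -/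
def RiW (n a b c d : ℕ) : Prop :=
  (((a = 63 ∧ b = 63) ∨ (a ≠ 63 ∧ a ≠ b ∧ a < n ∧ b < n)) ∧
    ((c = 63 ∧ d = 63) ∨ (c ≠ 63 ∧ c ≠ d ∧ c < n ∧ d < n))) ∧
    (a = 63 ∨ ¬ ((a = c ∧ b = d) ∨ (a = d ∧ b = c)))

theorem RiW.s1 {d : ℕ} (h : RiW n a b c d) (hn : n ≤ 62) : RiW n b a c d := by
  unfold RiW at h ⊢
  omega
theorem RiW.sp {d : ℕ} (h : RiW n a b c d) : RiW n c d a b := by
  unfold RiW at h ⊢
  omega
theorem RiW.s2 {d : ℕ} (h : RiW n a b c d) (hn : n ≤ 62) : RiW n a b d c := (h.sp.s1 hn).sp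

theorem RiP.pair (p : RiP mp n f g) (h : (a = 63 ∧ b = 63) ∨ (a ≠ 63 ∧ a ≠ b ∧ a < n ∧ b < n)) :
    (sgJ mp a = 63 ∧ sgJ mp b = 63) ∨
      (sgJ mp a ≠ 63 ∧ sgJ mp a ≠ sgJ mp b ∧ sgJ mp a < n ∧ sgJ mp b < n) := by
  have hn := p.le
  rcases h with ⟨rfl, rfl⟩ | ⟨-, h1, h2, h3⟩
  · exact Or.inl ⟨rfl, rfl⟩
  · have e1 := p.sgJ_eq (Or.inr h2)
    have e2 := p.sgJ_eq (Or.inr h3)
    exact Or.inr ⟨by omega, fun e => h1 (p.sgJ_inj (Or.inr h2) (Or.inr h3) e), by omega, by omega⟩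

theorem ri_or63 (h : (a = 63 ∧ b = 63) ∨ (a ≠ 63 ∧ a ≠ b ∧ a < n ∧ b < n)) :
    (a = 63 ∨ a < n) ∧ (b = 63 ∨ b < n) := by omega

theorem RiP.wf (p : RiP mp n f g) (h : jwf n J = true) : jwf n (mapJ mp J) = true := by
  have hn := p.le
  obtain ⟨⟨u1, u2⟩, u3⟩ := bb_jwf.1 h
  obtain ⟨a0, b0⟩ := ri_or63 u1
  obtain ⟨a1, b1⟩ := ri_or63 u2
  have W : RiW n (sgJ mp (ja0 J)) (sgJ mp (jb0 J)) (sgJ mp (ja1 J)) (sgJ mp (jb1 J)) :=
    ⟨⟨p.pair u1, p.pair u2⟩, u3.imp (fun e => by rw [e]; rfl) fun e e' => e (e'.imp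
      (fun x => ⟨p.sgJ_inj a0 a1 x.1, p.sgJ_inj b0 b1 x.2⟩)
      fun x => ⟨p.sgJ_inj a0 b1 x.1, p.sgJ_inj b0 a1 x.2⟩)⟩
  rw [bb_jwf]
  rcases ri_mapJ (mp := mp) (J := J) with ⟨⟨h1, h2⟩ | ⟨h1, h2⟩, ⟨h3, h4⟩ | ⟨h3, h4⟩⟩ |
    ⟨⟨h1, h2⟩ | ⟨h1, h2⟩, ⟨h3, h4⟩ | ⟨h3, h4⟩⟩ <;> rw [h1, h2, h3, h4]
  · exact W
  · exact W.s2 hn
  · exact W.s1 hn
  · exact (W.s1 hn).s2 hn
  · exact W.sp
  · exact W.sp.s2 hn
  · exact W.sp.s1 hn
  · exact (W.sp.s1 hn).s2 hn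

theorem RiP.edge (p : RiP mp n f g)
    (h : (a = 63 ∧ b = 63) ∨ (a ≠ 63 ∧ a ≠ b ∧ a < n ∧ b < n))
    (hj : sgJ mp a < 63 ∨ sgJ mp b < 63 ∨ a < n ∨ b < n) :
    a < n ∧ b < n ∧ sg mp a = sgJ mp a ∧ sg mp b = sgJ mp b := by
  have hn := p.le
  rcases h with ⟨rfl, rfl⟩ | ⟨-, -, h2, h3⟩
  · have e : sgJ mp 63 = 63 := rfl
    omega
  · have e1 := p.sgJ_eq (Or.inr h2)
    have e2 := p.sgJ_eq (Or.inr h3)
    clear hj
    omega

theorem RiP.jp_iff (p : RiP mp n f g) (h : jwf n J = true) (hj : j < 63) :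
    tb (jp (mapJ mp J) j) k = true ↔
      ∃ i < n, ∃ l < n, tb (jp J i) l = true ∧ sg mp i = j ∧ sg mp l = k := by
  have hn : n ≤ 63 := p.le.trans (by norm_num)
  have h63 : ∀ {i}, i < n → i < 63 := fun hi => hi.trans_le hn
  have e : tb (jp (mapJ mp J) j) k = true ↔ (j = sgJ mp (ja0 J) ∧ k = sgJ mp (jb0 J)) ∨
      (j = sgJ mp (jb0 J) ∧ k = sgJ mp (ja0 J)) ∨ (j = sgJ mp (ja1 J) ∧ k = sgJ mp (jb1 J)) ∨
      (j = sgJ mp (jb1 J) ∧ k = sgJ mp (ja1 J)) := by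
    rw [tb_jp (p.wf h) hn hj]
    rcases ri_mapJ (mp := mp) (J := J) with ⟨⟨h1, h2⟩ | ⟨h1, h2⟩, ⟨h3, h4⟩ | ⟨h3, h4⟩⟩ |
      ⟨⟨h1, h2⟩ | ⟨h1, h2⟩, ⟨h3, h4⟩ | ⟨h3, h4⟩⟩ <;> rw [h1, h2, h3, h4] <;>
      simp only [or_comm, or_left_comm, or_assoc]
  obtain ⟨u1, u2⟩ := (bb_jwf.1 h).1
  rw [e]
  constructor
  · rintro (⟨rfl, rfl⟩ | ⟨rfl, rfl⟩ | ⟨rfl, rfl⟩ | ⟨rfl, rfl⟩)
    · obtain ⟨c1, c2, c3, c4⟩ := p.edge u1 (Or.inl hj)
      exact ⟨_, c1, _, c2, (tb_jp h hn (h63 c1)).2 (Or.inl ⟨rfl, rfl⟩), c3, c4⟩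
    · obtain ⟨c1, c2, c3, c4⟩ := p.edge u1 (Or.inr (Or.inl hj))
      exact ⟨_, c2, _, c1, (tb_jp h hn (h63 c2)).2 (Or.inr (Or.inl ⟨rfl, rfl⟩)), c4, c3⟩
    · obtain ⟨c1, c2, c3, c4⟩ := p.edge u2 (Or.inl hj)
      exact ⟨_, c1, _, c2, (tb_jp h hn (h63 c1)).2 (Or.inr (Or.inr (Or.inl ⟨rfl, rfl⟩))), c3, c4⟩
    · obtain ⟨c1, c2, c3, c4⟩ := p.edge u2 (Or.inr (Or.inl hj))
      exact ⟨_, c2, _, c1, (tb_jp h hn (h63 c2)).2 (Or.inr (Or.inr (Or.inr ⟨rfl, rfl⟩))), c4, c3⟩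
  · rintro ⟨i, hi, l, hl, h1, rfl, rfl⟩
    rcases (tb_jp h hn (h63 hi)).1 h1 with ⟨rfl, rfl⟩ | ⟨rfl, rfl⟩ | ⟨rfl, rfl⟩ | ⟨rfl, rfl⟩
    · obtain ⟨-, -, c3, c4⟩ := p.edge u1 (Or.inr (Or.inr (Or.inl hi)))
      exact Or.inl ⟨c3, c4⟩
    · obtain ⟨-, -, c3, c4⟩ := p.edge u1 (Or.inr (Or.inr (Or.inr hi)))
      exact Or.inr (Or.inl ⟨c4, c3⟩)
    · obtain ⟨-, -, c3, c4⟩ := p.edge u2 (Or.inr (Or.inr (Or.inl hi)))
      exact Or.inr (Or.inr (Or.inl ⟨c3, c4⟩))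
    · obtain ⟨-, -, c3, c4⟩ := p.edge u2 (Or.inr (Or.inr (Or.inr hi)))
      exact Or.inr (Or.inr (Or.inr ⟨c4, c3⟩))

theorem RiP.GJ_eq (p : RiP mp n f g) (h : jwf n J = true) : GJ G g (mapJ mp J) = GJ G f J := by
  have hn := p.le
  unfold GJ JG
  congr 2
  ext u z
  constructor
  · rintro ⟨j, k, hj, h1, rfl, rfl⟩
    obtain ⟨i, hi, l, hl, h2, rfl, rfl⟩ := (p.jp_iff h hj).1 h1
    exact ⟨i, l, by omega, h2, (p.ff i hi).symm, (p.ff l hl).symm⟩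
  · rintro ⟨i, l, hi, h1, rfl, rfl⟩
    obtain ⟨a1, a2, -⟩ := jp_lt h (by omega) hi h1
    have := p.lt i a1
    exact ⟨sg mp i, sg mp l, by omega, (p.jp_iff h (by omega)).2 ⟨i, a1, l, a2, h1, rfl, rfl⟩,
      p.ff i a1, p.ff l a2⟩

theorem RiP.jok (p : RiP mp n f g) (hR : Lt R n) (h : JOK G S f n R J) :
    JOK G S g n (mapM mp R) (mapJ mp J) := by
  have hn := p.le
  refine ⟨p.wf h.wf, fun j k hj h1 => ?_, ?_⟩
  · obtain ⟨i, hi, l, hl, h2, rfl, rfl⟩ := (p.jp_iff h.wf hj).1 h1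
    rw [p.tb_eq hR hi, p.ff i hi, p.ff l hl]
    exact h.out i l (by omega) h2
  · rw [p.img_eq hR, p.GJ_eq h.wf]
    exact h.sub3

theorem RiP.cX_eq (p : RiP mp n f g) (hR : Lt R n) (h : jwf n J = true) (ha : a < n) :
    cX G S g (mapM mp R) (mapJ mp J) (sg mp a) = cX G S f R J a := by
  rw [cX, cX, p.img_eq hR, p.GJ_eq h, p.ff a ha]

theorem RiP.blob {B : Blob} (p : RiP mp n f g) (hA : ∀ i, Lt (row A i) n)
    (h : BlobOK G S M n A f B) : BlobOK G S M n (mapA mp A (ones n)) g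
      ⟨mapM mp B.R, mapM mp B.In, mapM mp B.Out, sg mp B.a, B.lo, B.hi, mapJ mp B.J⟩ := by
  have hR : Lt B.R n := fun i hi => h.ltO i (h.ro i hi)
  have ha := h.ltI _ h.aI
  have hX : bX G S g ⟨mapM mp B.R, mapM mp B.In, mapM mp B.Out, sg mp B.a, B.lo, B.hi,
      mapJ mp B.J⟩ = bX G S f B := p.cX_eq hR h.jok.wf ha
  refine ⟨p.ltM h.ltI, p.ltM h.ltO, (p.tb_eq h.ltI ha).trans h.aI, fun j hj => ?_, fun j hj => ?_,
    p.imp hR h.ltO h.ro, fun h0 => ?_, ?_, ?_, ?_, p.jok hR h.jok, ?_, ?_⟩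
  · obtain ⟨i, hi, h1, rfl⟩ := p.ex h.ltI hj
    rw [hX, p.ff i hi]
    exact h.inn i h1
  · obtain ⟨i, hi, h1, rfl⟩ := p.ex h.ltO hj
    rw [hX, p.ff i hi]
    exact h.out i h1
  · obtain ⟨i, hi⟩ := exists_tb h.rne
    have := p.tb_eq hR (hR i hi)
    dsimp only at h0
    rw [h0, tb_zero, hi] at this
    exact absurd this (by simp)
  · rw [hX]
    exact h.unm
  · rw [hX]
    intro z hz j hj hadj
    obtain ⟨i, hi, h1, rfl⟩ := p.ex hR hj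
    rw [p.ff i hi] at hadj
    obtain ⟨k, hk, e⟩ := h.kn z hz i h1 hadj
    exact ⟨sg mp k, by rw [p.row_eq hi, p.tb_eq (hA i) (hA i k hk), hk],
      (p.ff k (hA i k hk)).trans e⟩
  · rw [hX, p.GJ_eq h.jok.wf]
    exact h.ncub
  · rw [hX, p.GJ_eq h.jok.wf]
    exact h.lo
  · rw [hX, p.GJ_eq h.jok.wf]
    exact h.hi

theorem RiP.pf {z : PF} (p : RiP mp n f g) (h : PFOK G S M n f z) : PFOK G S M n g
    ⟨mapM mp z.R, mapM mp z.Dd, mapM mp z.P0, mapJ mp z.J, sg mp z.p, z.th⟩ := by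
  have hD : Lt z.Dd n := fun i hi => h.ltR i (h.dR i hi)
  refine ⟨p.ltM h.ltR, p.ltM h.ltP, p.imp hD h.ltR h.dR, p.lt _ h.pn,
    (p.tb_eq h.ltR h.pn).trans h.pR, p.wf h.wf, ?_⟩
  dsimp only
  rw [p.cX_eq h.ltR h.wf h.pn, p.GJ_eq h.wf]
  rcases h.alt with ⟨i, h1, h2⟩ | h1 | ⟨u, hu, i, h1, h2⟩ | h1
  · exact Or.inl ⟨sg mp i, (p.tb_eq h.ltP (h.ltP i h1)).trans h1, by rwa [p.ff i (h.ltP i h1)]⟩
  · exact Or.inr (Or.inl h1)
  · exact Or.inr (Or.inr (Or.inl ⟨u, hu, sg mp i, (p.tb_eq hD (hD i h1)).trans h1,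
      by rwa [p.ff i (hD i h1)]⟩))
  · exact Or.inr (Or.inr (Or.inr h1))

theorem valid_relab (hC : Valid G S M C f) (h : mapM mp (ones C.n) = ones C.n) :
    ∃ f', Valid G S M (relab C mp) f' := by
  obtain ⟨g, p⟩ := ri_exists hC.n_le h f
  have hA : ∀ i, Lt (row C.A i) C.n := fun i j hj => (hC.rlt i j hj).2
  have l2 : Lt C.r2 C.n := fun i hi => hC.ltr i (hC.r21 i hi)
  have l3 : Lt C.r3 C.n := fun i hi => l2 i (hC.r32 i hi)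
  have lk : Lt C.kc C.n := fun i hi => (hC.kc i hi).1
  have hrow : ∀ j k, tb (row (mapA mp C.A (ones C.n)) j) k = true →
      ∃ i < C.n, ∃ l < C.n, tb (row C.A i) l = true ∧ sg mp i = j ∧ sg mp l = k := fun j k hj => by
    obtain ⟨i, hi, rfl, h1⟩ := (ri_mapA (hC.n_le.trans (by norm_num))).1 hj
    obtain ⟨l, hl, h2, rfl⟩ := p.ex (hA i) h1
    exact ⟨i, hi, l, hl, h2, rfl, rfl⟩
  have hdg : ∀ i < C.n, dg (relab C mp) (sg mp i) = dg C i := fun i hi => by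
    simp only [dg, relab, p.tb_eq hC.lt1 hi, p.tb_eq hC.lt2 hi]
  refine ⟨g, hC.n_le, fun j hj => ?_, fun j hj k hk e => ?_, fun j k hj => ?_, fun j k hj => ?_,
    fun j k hj => ?_, fun j hj => ?_, fun j hj => ?_, p.imp l2 hC.ltr hC.r21, p.imp l3 l2 hC.r32,
    fun j hj => ?_, fun j hj => ?_, p.ltM hC.lt1, p.ltM hC.lt2, p.ltM hC.ltm, p.ltM hC.ltr,
    fun j hj => ?_, hC.ht, fun B hB => ?_, fun z hz => ?_, fun z hz => ?_, fun z hz => ?_⟩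
  · obtain ⟨i, hi, rfl⟩ := p.sur j hj
    rw [p.ff i hi]
    exact hC.mem i hi
  · obtain ⟨i, hi, rfl⟩ := p.sur j hj
    obtain ⟨l, hl, rfl⟩ := p.sur k hk
    rw [p.ff i hi, p.ff l hl] at e
    rw [hC.inj i hi l hl e]
  · obtain ⟨i, hi, l, hl, -, rfl, rfl⟩ := hrow j k hj
    exact ⟨p.lt i hi, p.lt l hl⟩
  · obtain ⟨i, hi, l, hl, h1, rfl, rfl⟩ := hrow j k hj
    show tb (row (mapA mp C.A (ones C.n)) _) _ = true
    rw [p.row_eq hl, p.tb_eq (hA l) hi]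
    exact hC.sym i l h1
  · obtain ⟨i, hi, l, hl, h1, rfl, rfl⟩ := hrow j k hj
    rw [p.ff i hi, p.ff l hl]
    exact hC.adj i l h1
  · obtain ⟨i, hi, rfl⟩ := p.sur j hj
    rw [p.ff i hi, hdg i hi]
    exact hC.deg i hi
  · obtain ⟨i, hi, rfl⟩ := p.sur j hj
    rw [hdg i hi, hC.rem i hi]
    simp only [rm, relab, p.tb_eq hC.ltr hi, p.tb_eq l2 hi, p.tb_eq l3 hi, p.row_eq hi,
      p.bits_eq (hA i)]
    rw [card_image_of_injOn fun u hu z hz e =>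
      p.inj u (hA i u (mem_bits.1 hu).2) z (hA i z (mem_bits.1 hz).2) e]
  · obtain ⟨i, hi, h1, rfl⟩ := p.ex hC.lt1 hj
    exact (p.tb_eq hC.lt2 hi).trans (hC.d12 i h1)
  · obtain ⟨i, hi, rfl⟩ := p.sur j hj
    rw [p.ff i hi, hC.mark i hi, ← p.tb_eq hC.ltm hi]
    rfl
  · obtain ⟨i, hi, h1, rfl⟩ := p.ex lk hj
    rw [p.ff i hi]
    exact ⟨p.lt i hi, (hC.kc i h1).2⟩
  · simp only [relab, mapL_eq, List.mem_map] at hB
    obtain ⟨B, hB, rfl⟩ := hB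
    exact p.blob hA (hC.bl B hB)
  · simp only [relab, mapL_eq, List.mem_map] at hz
    obtain ⟨z, hz, rfl⟩ := hz
    have h1 := hC.nc z hz
    refine ⟨p.ltM h1.ltR, p.ltM h1.ltm, fun j hj => ?_⟩
    obtain ⟨i, hi, h2, rfl⟩ := p.ex h1.ltm hj
    rw [p.ff i hi, p.img_eq h1.ltR]
    exact h1.nc i h2
  · simp only [relab, mapL_eq, List.mem_map] at hz
    obtain ⟨z, hz, rfl⟩ := hz
    exact p.pf (hC.pf z hz)
  · simp only [relab, mapL_eq, List.mem_map] at hz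
    obtain ⟨z, hz, rfl⟩ := hz
    have h1 := hC.jv z hz
    refine ⟨p.ltM h1.ltR, p.jok h1.ltR h1.jok, ?_, ?_⟩
    · rw [p.img_eq h1.ltR, p.GJ_eq h1.jok.wf]
      exact h1.crit
    · rw [p.img_eq h1.ltR, p.GJ_eq h1.jok.wf]
      exact h1.nok

theorem ri_mem (h : okI ext i = true) : ext.getD i empty ∈ ext := by
  have hi : i < ext.length := okI_iff.mp h
  rw [List.getD_eq_getElem _ _ hi]
  exact List.getElem_mem hi

theorem rIso_sound (he : AllRef Γ ext) (h : Ctx G S M Γ C f) : Sound G S M (rIso ext C i mp) :=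
  ra_chk fun hc => by
    rw [Bool.and_eq_true, Bool.and_eq_true, Nat.beq_eq] at hc
    obtain ⟨g, hg⟩ := valid_relab h.val hc.1.2
    exact absurd (valid_csub hg hc.2) (he _ (ri_mem hc.1.1) G S M h.mc h.gam g)
theorem rSub_sound (he : AllRef Γ ext) (h : Ctx G S M Γ C f) : Sound G S M (rSub ext C i) :=
  ra_chk fun hc => by
    rw [Bool.and_eq_true] at hc
    exact absurd (valid_csub h.val hc.2) (he _ (ri_mem hc.1) G S M h.mc h.gam f)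

end Pool.Agent.Lib.MP_5a2675_co.D7
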