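import Mathlib
import Pool.Agent.Lib.MP_5a2675_co.D7.RG

set_option autoImplicit false

namespace Pool.Agent.Lib.MP_5a2675_co.D7

open Finset
open Classical

variable {G G' : SimpleGraph ℕ} {S S' M X : Finset ℕ} {Γ : Gam} {C : Cfg} {f g : ℕ → ℕ}
  {a b c i j k l m n q r s t v w x y A J R Z Mk : ℕ}

section

variable {m0 m2 m3 ty mp used xs : ℕ} {acc : List Cfg} {D : Cfg} {P : Pat}

theorem rj_cons {con : List ℕ} {e : ℕ × ℕ} {es : List (ℕ × ℕ)} :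
    pex ty J xs con (e :: es) C mp used m0 m2 m3 acc =
      cond (Nat.beq (gm mp e.2) 0)
        (peNew ty (con.getD e.2 0) (pex ty J xs con es) C (Nat.pred (gm mp e.1)) e.2
          (dif (sel (con.getD e.2 0) m0 m2 m3) used)
          (adjJ C.A (ej J xs e) (Nat.pred (gm mp e.1))) mp used m0 m2 m3 acc)
        (peOld (ej J xs e) (pex ty J xs con es) C (Nat.pred (gm mp e.1)) (Nat.pred (gm mp e.2))
          mp used m0 m2 m3 acc) := rfl

theorem rj_mono (con : List ℕ) (es : List (ℕ × ℕ)) : PaMono (pex ty J xs con es) := by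
  induction es with
  | nil => exact fun C _ _ _ _ _ acc D h => List.mem_cons_of_mem _ h
  | cons e es ih =>
    intro C mp used m0 m2 m3 acc D h
    rw [rj_cons]
    cases Nat.beq (gm mp e.2) 0
    · change D ∈ peOld _ _ _ _ _ _ _ _ _ _ _
      unfold peOld
      cases tb (adjJ C.A (ej J xs e) (gm mp e.1).pred) (gm mp e.2).pred
      · cases (tb C.r1 (gm mp e.1).pred && tb C.r1 (gm mp e.2).pred)
        · exact h
        · exact pa_go ih h
      · exact ih _ _ _ _ _ _ _ _ h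
    · change D ∈ peNew _ _ _ _ _ _ _ _ _ _ _ _ _ _
      unfold peNew
      refine pa_loop_mem (fun i r hr => ih _ _ _ _ _ _ _ _ hr) _ _ _ ?_
      cases tb C.r1 (gm mp e.1).pred
      · exact h
      · rw [cond_true]
        exact pa_loop_mem (fun i r hr => pa_go ih hr) _ _ _ (pa_newV ih h)

theorem rj_pex_acc {con : List ℕ} {es : List (ℕ × ℕ)} (h : D ∈ acc) :
    D ∈ pex ty J xs con es C mp used m0 m2 m3 acc := rj_mono con es _ _ _ _ _ _ _ _ h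

theorem rj_pe2x_acc {L : List RP} (h : D ∈ acc) :
    D ∈ pe2x ty J xs C a b m0 m2 m3 L acc := by
  unfold pe2x
  refine pa_rec_mem (fun (Q : RP) r =>
    cond (tb (sel (Q.con.getD Q.p 0) m0 m2 m3) a && tb (sel (Q.con.getD Q.q 0) m0 m2 m3) b)
      (pex ty J xs Q.con Q.es C (sm (sm 0 Q.p a) Q.q b) (Nat.lor (bit a) (bit b)) m0 m2 m3 r) r)
    (fun Q r hr => ?_) L h
  cases (tb (sel (Q.con.getD Q.p 0) m0 m2 m3) a && tb (sel (Q.con.getD Q.q 0) m0 m2 m3) b)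
  · exact hr
  · exact rj_pex_acc hr

/-- the edges of the copy `g` at the pattern vertices in `xs` are edges of `G` -/
def RjX (G : SimpleGraph ℕ) (P : Pat) (xs : ℕ) (g : ℕ → ℕ) : Prop :=
  ∀ e ∈ P.E, (tb xs e.1 || tb xs e.2) = true → G.Adj (g e.1) (g e.2)

theorem rj_edge {e : ℕ × ℕ} (hC : Valid G S M C f) (hP : PEH G S C f J m0 m2 m3 P g)
    (hX : RjX G P xs g) (he : e ∈ P.E ∨ e.swap ∈ P.E) :
    jwf C.n (ej J xs e) = true ∧ (GJ G f (ej J xs e)).Adj (g e.1) (g e.2) := by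
  have h62 := hC.n_le
  unfold ej
  cases hx : (tb xs e.1 || tb xs e.2)
  · refine ⟨hP.wf, ?_⟩
    rcases he with h | h
    · exact hP.adj e h
    · exact (hP.adj e.swap h).symm
  · refine ⟨jwf_NOJ (by omega), ?_⟩
    rw [cond_true, GJ_NOJ]
    rcases he with h | h
    · exact hX e h hx
    · exact (hX e.swap h (by rw [Bool.or_comm]; exact hx)).symm

/-- the enumeration finds every copy; `a` is the mask of the pattern vertices placed so far -/
theorem rj_pex_sound (hm : MC G S M) (hty : ∀ v ∈ S, tyOK ty (deg G S v) (decide (v ∈ M)) = true)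
    {es : List (ℕ × ℕ)} (hC : Valid G S M C f) (hP : PEH G S C f J m0 m2 m3 P g)
    (hX : RjX G P xs g)
    (ho : ordOK P.k es a = true) (hE : ∀ e ∈ es, e ∈ P.E ∨ e.swap ∈ P.E)
    (hn : C.n + es.length ≤ 62) (ha : ∀ q, tb a q = true → gm mp q ≠ 0)
    (hmp : ∀ q, gm mp q ≠ 0 → q < P.k ∧ gm mp q - 1 < C.n ∧ f (gm mp q - 1) = g q)
    (hu : ∀ z, tb used z = true → ∃ q, gm mp q = z + 1) :
    ∃ D ∈ pex ty J xs P.con es C mp used m0 m2 m3 acc, ∃ f', Valid G S M D f' := by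
  induction es generalizing C f mp used m0 m2 m3 a acc with
  | nil => exact ⟨C, List.mem_cons_self, f, hC⟩
  | cons e es ih =>
    have mono := rj_mono (ty := ty) (J := J) (xs := xs) P.con es
    have ho' : (tb a e.1 && Nat.ble (Nat.succ e.1) P.k && Nat.ble (Nat.succ e.2) P.k &&
      ordOK P.k es (Nat.lor a (bit e.2))) = true := ho
    simp only [Bool.and_eq_true, Nat.ble_eq] at ho'
    obtain ⟨⟨⟨o1, -⟩, o3⟩, o4⟩ := ho'
    have hq : e.2 < P.k := o3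
    have hE' : ∀ e' ∈ es, e' ∈ P.E ∨ e'.swap ∈ P.E := fun e' he => hE e' (List.mem_cons_of_mem _ he)
    rw [List.length_cons] at hn
    obtain ⟨-, hx, fx⟩ := hmp e.1 (ha _ o1)
    obtain ⟨hwf, hadj⟩ := rj_edge hC hP hX (hE e List.mem_cons_self)
    rw [rj_cons, Nat.pred_eq_sub_one, Nat.pred_eq_sub_one]
    generalize ej J xs e = J' at hwf hadj
    generalize gm mp e.1 - 1 = x at hx fx
    rw [← fx] at hadj
    by_cases h0 : gm mp e.2 = 0
    · rw [show Nat.beq (gm mp e.2) 0 = true by rw [h0]; rfl, cond_true]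
      unfold peNew
      have lt1 : Lt (Nat.land (adjJ C.A J' x) (dif (sel (P.con.getD e.2 0) m0 m2 m3) used)) 64 :=
        fun i hi => adjJ_Lt i (tb_land.1 hi).1
      have lt2 : Lt (dif (Nat.land C.r1 (dif (sel (P.con.getD e.2 0) m0 m2 m3) used))
          (adjJ C.A J' x)) 64 := fun i hi => by
        have := hC.ltr i (tb_land.1 (tb_dif.1 hi).1).1
        omega
      refine loopB_ex lt1 (fun i r => pa_keep fun D => mono _ _ _ _ _ _ _ D) ?_
      by_cases hz : ∃ z < C.n, f z = g e.2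
      · obtain ⟨z, hz, fz⟩ := hz
        have hal : tb (dif (sel (P.con.getD e.2 0) m0 m2 m3) used) z = true := by
          refine tb_dif.2 ⟨hP.old z hz _ hq fz, ?_⟩
          by_contra hc
          obtain ⟨p, hp⟩ := hu z (by simpa using hc)
          obtain ⟨h1, -, h3⟩ := hmp p (by omega)
          rw [hp, Nat.add_sub_cancel, fz] at h3
          rw [← hP.inj _ hq _ h1 h3] at hp
          omega
        obtain ⟨k1, k2, k3⟩ := pa_place (P := P) h0 hz hC.n_le le_rfl hq (fun _ _ => rfl) fz ha hmp hu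
        cases hk : tb (adjJ C.A J' x) z
        · rw [← fz] at hadj
          obtain ⟨u1, u2⟩ := pa_unknown hC hwf hx hz hadj hk
          obtain ⟨r1, r2⟩ := unk_r1 hC hx hz u1 u2
          have hV := valid_addEdge hC hx hz u1 u2
          rw [r1, cond_true]
          refine Or.inl (loopB_ex lt2 (fun i r => pa_keep fun D => pa_go mono)
            (Or.inr ⟨z, tb_dif.2 ⟨tb_land.2 ⟨r2, hal⟩, hk⟩, fun r => ?_⟩))
          rw [pa_go_eq hV]
          exact ih hV (pa_peh_edge hP) o4 hE' (by rw [addEdge_n]; omega) k1 k2 k3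
        · exact Or.inr ⟨z, tb_land.2 ⟨hk, hal⟩, fun r => ih hC hP o4 hE' (by omega) k1 k2 k3⟩
      · have hz' : ∀ i < C.n, f i ≠ g e.2 := fun i hi h => hz ⟨i, hi, h⟩
        have hw := hP.mem _ hq
        have u1 : G.Adj (f x) (g e.2) := by
          rcases (GJ_adj hwf (by omega) hC.inj).1 hadj with h | ⟨i, j, hi, hj, -, e2⟩
          · exact h
          · exact absurd e2 (hz' j (jp_lt hwf (by omega) (by omega) hj).2.1)
        obtain ⟨r1, hV⟩ := valid_newE hC (by omega) hw hz' (mc_deg3 hm _ hw) hx u1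
        have hn' : (addEdge (newV C (deg G S (g e.2)) (decide (g e.2 ∈ M))) x C.n).n = C.n + 1 := by
          rw [addEdge_n, newV_n]
        have hf : ∀ i < C.n, Function.update f C.n (g e.2) i = f i :=
          fun i hi => Function.update_of_ne hi.ne _ _
        obtain ⟨k1, k2, k3⟩ := pa_place (P := P) h0 (Nat.lt_succ_self C.n) (by omega)
          (Nat.le_succ _) hq hf (Function.update_self _ _ _) ha hmp hu
        have hdeg := hP.new _ hq hz'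
        have hP' : PEH G S (addEdge (newV C (deg G S (g e.2)) (decide (g e.2 ∈ M))) x C.n)
            (Function.update f C.n (g e.2)) J (Nat.lor m0 (bit C.n))
            (orIf (Nat.beq (deg G S (g e.2)) 2) m2 (bit C.n))
            (orIf (Nat.beq (deg G S (g e.2)) 3) m3 (bit C.n)) P g := by
          refine ⟨?_, hP.mem, hP.inj, ?_, fun i hi p hp h => ?_, fun p hp h => ?_⟩
          · rw [hn']; exact jwf_mono hP.wf (by omega) (by omega)
          · rw [GJ_congr hP.wf (by omega) hf]; exact hP.adj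
          · rw [hn'] at hi
            rcases Nat.lt_succ_iff_lt_or_eq.1 hi with hi | rfl
            · rw [hf i hi] at h
              exact pa_sel_old (hP.old i hi p hp h)
            · rw [Function.update_self] at h
              obtain rfl := hP.inj _ hq _ hp h
              exact pa_sel_new hdeg
          · refine hP.new p hp fun i hi => ?_
            rw [← hf i hi]
            exact h i (by rw [hn']; omega)
        rw [r1, cond_true]
        refine Or.inl (loopB_ex lt2 (fun i r => pa_keep fun D => pa_go mono) (Or.inl ?_))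
        unfold peNewV
        refine pa_rec_ex (fun (τ : ℕ × Bool) r => cond (tyOK ty τ.1 τ.2 &&
            (Nat.beq (P.con.getD e.2 0) 0 || Nat.beq (P.con.getD e.2 0) τ.1))
          (peGo (pex ty J xs P.con es) (addEdge (newV C τ.1 τ.2) x C.n) (sm mp e.2 C.n)
            (Nat.lor used (bit C.n)) (Nat.lor m0 (bit C.n)) (orIf (Nat.beq τ.1 2) m2 (bit C.n))
            (orIf (Nat.beq τ.1 3) m3 (bit C.n)) r) r) acc _ (fun τ r hr => ?_) types
          (Or.inr ⟨_, mem_types hm hw, fun r => ?_⟩)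
        · cases (tyOK ty τ.1 τ.2 &&
            (Nat.beq (P.con.getD e.2 0) 0 || Nat.beq (P.con.getD e.2 0) τ.1))
          · exact hr
          · exact pa_keep (fun D => pa_go mono) hr
        · have hc : (tyOK ty (deg G S (g e.2)) (decide (g e.2 ∈ M)) &&
              (Nat.beq (P.con.getD e.2 0) 0 || Nat.beq (P.con.getD e.2 0) (deg G S (g e.2)))) =
              true := by
            simp only [Bool.and_eq_true, Bool.or_eq_true, Nat.beq_eq]
            exact ⟨hty _ hw, or_iff_not_imp_left.2 fun h => (hdeg h).symm⟩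
          simp only [hc, cond_true]
          rw [pa_go_eq hV]
          exact ih hV hP' o4 hE' (by rw [hn']; omega) k1 (by rw [hn']; exact k2) k3
    · rw [show Nat.beq (gm mp e.2) 0 = false by simpa [← Bool.not_eq_true] using h0, cond_false]
      obtain ⟨-, hy, fy⟩ := hmp e.2 h0
      have k1 : ∀ p, tb (Nat.lor a (bit e.2)) p = true → gm mp p ≠ 0 := by
        intro p hp
        rcases tb_lor.1 hp with h | h
        · exact ha p h
        · rw [tb_bit.1 h]; exact h0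
      generalize gm mp e.2 - 1 = y at hy fy
      unfold peOld
      cases hk : tb (adjJ C.A J' x) y
      · rw [← fy] at hadj
        obtain ⟨u1, u2⟩ := pa_unknown hC hwf hx hy hadj hk
        obtain ⟨r1, r2⟩ := unk_r1 hC hx hy u1 u2
        have hV := valid_addEdge hC hx hy u1 u2
        rw [r1, r2, cond_false, Bool.and_self, cond_true, pa_go_eq hV]
        exact ih hV (pa_peh_edge hP) o4 hE' (by rw [addEdge_n]; omega) k1 hmp hu
      · exact ih hC hP o4 hE' (by omega) k1 hmp hu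

/-- a cover whose automorphism keeps the edges at `xs` -/
def RjCov (P : Pat) (xs : ℕ) (l : List RP) (i j : ℕ) : Prop :=
  ∃ Q ∈ l, ∃ σ, Aut P σ ∧ RPof P Q (Nat.lor (bit Q.p) (bit Q.q)) ∧ Q.p < P.k ∧ Q.q < P.k ∧
    Q.p ≠ Q.q ∧ σ.getD Q.p 0 = i ∧ σ.getD Q.q 0 = j ∧
    ∀ e ∈ P.E, (tb xs e.1 || tb xs e.2) = true →
      (tb xs (σ.getD e.1 0) || tb xs (σ.getD e.2 0)) = true

theorem rj_pe2x_cov (h : Ctx G S M Γ C f) (hP : PEH G S C f J m0 m2 m3 P g) (hX : RjX G P xs g)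
    {L : List RP} (hc : RjCov P xs L i j) (hn : C.n ≤ 47) (ha : a < C.n) (hb : b < C.n)
    (hi : f a = g i) (hj : f b = g j) :
    ∃ D ∈ pe2x Γ.ty J xs C a b m0 m2 m3 L acc, ∃ f', Valid G S M D f' := by
  obtain ⟨Q, hQ, σ, hσ, ⟨c1, c2, c3, c4⟩, hp, hq, hne, rfl, rfl, hs⟩ := hc
  have hP' := peh_aut hP hσ
  have hX' : RjX G P xs (fun i => g (σ.getD i 0)) := fun e he hx => by
    rcases hσ.2.2.1 e he with h | h
    · exact hX _ h (hs e he hx)
    · exact (hX _ h (by rw [Bool.or_comm]; exact hs e he hx)).symm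
  unfold pe2x
  refine pa_rec_ex (fun (Q : RP) r =>
    cond (tb (sel (Q.con.getD Q.p 0) m0 m2 m3) a && tb (sel (Q.con.getD Q.q 0) m0 m2 m3) b)
      (pex Γ.ty J xs Q.con Q.es C (sm (sm 0 Q.p a) Q.q b) (Nat.lor (bit a) (bit b)) m0 m2 m3 r) r)
    acc _ (fun Q r hr => ?_) L (Or.inr ⟨Q, hQ, fun r => ?_⟩)
  · cases (tb (sel (Q.con.getD Q.p 0) m0 m2 m3) a && tb (sel (Q.con.getD Q.q 0) m0 m2 m3) b)
    · exact hr
    · exact pa_keep (fun D => rj_pex_acc) hr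
  · obtain ⟨k1, k2, k3⟩ := pa_start (P := P) (g := fun i => g (σ.getD i 0)) ha h.val.n_le hp hi
    have h0 : gm (sm 0 Q.p a) Q.q = 0 := by
      rw [gm_sm gm_zero (by omega), if_neg hne.symm, gm_zero]
    obtain ⟨l1, l2, l3⟩ := pa_place (P := P) (g := fun i => g (σ.getD i 0)) h0 hb h.val.n_le le_rfl
      hq (fun _ _ => rfl) hj k1 k2 k3
    simp only [c1, hP'.old a ha _ hp hi, hP'.old b hb _ hq hj, Bool.and_self, cond_true]
    exact rj_pex_sound h.mc h.gam.ty h.val hP' hX' c2 c3 (by omega) l1 l2 l3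

def rjC (P : Pat) (xs : ℕ) (L : List RP) (i j t : ℕ) (σ : List ℕ) : Bool :=
  pbC2 P L i j t σ && P.E.all fun e => !(tb xs e.1 || tb xs e.2) ||
    (tb xs (σ.getD e.1 0) || tb xs (σ.getD e.2 0))

theorem rj_cov {L : List RP} (t : ℕ) (σ : List ℕ) (h : rjC P xs L i j t σ = true) :
    RjCov P xs L i j := by
  rw [rjC, Bool.and_eq_true, List.all_eq_true] at h
  obtain ⟨h, h9⟩ := h
  simp only [pbC2, Bool.and_eq_true, beq_iff_eq, Nat.blt_eq, Bool.not_eq_true',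
    beq_eq_false_iff_ne] at h
  obtain ⟨⟨⟨⟨⟨⟨⟨h1, h2⟩, h3⟩, h4⟩, h5⟩, h6⟩, h7⟩, h8⟩ := h
  refine ⟨_, pb_getD_mem h1, σ, pbAut_ok h2, pbRP_ok h3, h4, h5, h6, h7, h8, fun e he hx => ?_⟩
  have h10 := h9 e he
  rw [hx] at h10
  exact h10

theorem rj_all {L : List RP} (T : List ((ℕ × List ℕ) × (ℕ × List ℕ)))
    (h : (List.range P.E.length).all (fun i =>
      (tb xs (P.E.getD i (0, 0)).1 || tb xs (P.E.getD i (0, 0)).2) ||
      (rjC P xs L (P.E.getD i (0, 0)).1 (P.E.getD i (0, 0)).2 (T.getD i ((0, []), (0, []))).1.1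
        (T.getD i ((0, []), (0, []))).1.2 &&
      rjC P xs L (P.E.getD i (0, 0)).2 (P.E.getD i (0, 0)).1 (T.getD i ((0, []), (0, []))).2.1
        (T.getD i ((0, []), (0, []))).2.2)) = true) :
    ∀ e ∈ P.E, (tb xs e.1 || tb xs e.2) = false →
      RjCov P xs L e.1 e.2 ∧ RjCov P xs L e.2 e.1 := by
  intro e he hx
  obtain ⟨i, hi, rfl⟩ := List.getElem_of_mem he
  rw [List.all_eq_true] at h
  have := h i (List.mem_range.2 hi)
  rw [List.getD_eq_getElem _ _ hi, hx, Bool.false_or, Bool.and_eq_true] at this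
  exact ⟨rj_cov _ _ this.1, rj_cov _ _ this.2⟩

def rjL : List RP := offX 6 (appL jA (appL jB jE))

theorem rj_covA : ∀ e ∈ Ta.E, (tb 6 e.1 || tb 6 e.2) = false →
    RjCov Ta 6 rjL e.1 e.2 ∧ RjCov Ta 6 rjL e.2 e.1 :=
  rj_all
   [((0, []), (0, [])),
    ((0, []), (0, [])),
    ((0, []), (0, [])),
    ((0, []), (0, [])),
    ((0, []), (0, [])),
    ((0, []), (0, [])),
    ((0, [0, 1, 2, 3, 4]), (0, [0, 1, 2, 4, 3]))] (by decide +kernel)

theorem rj_covB : ∀ e ∈ Tb.E, (tb 6 e.1 || tb 6 e.2) = false →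
    RjCov Tb 6 rjL e.1 e.2 ∧ RjCov Tb 6 rjL e.2 e.1 :=
  rj_all
   [((0, []), (0, [])),
    ((0, []), (0, [])),
    ((0, []), (0, [])),
    ((0, []), (0, [])),
    ((0, []), (0, [])),
    ((0, []), (0, [])),
    ((1, [0, 1, 2, 3, 4, 5, 6]), (2, [0, 1, 2, 3, 4, 5, 6])),
    ((1, [0, 1, 2, 4, 3, 6, 5]), (2, [0, 1, 2, 4, 3, 6, 5])),
    ((3, [0, 1, 2, 3, 4, 5, 6]), (3, [0, 1, 2, 4, 3, 6, 5]))] (by decide +kernel)

theorem rj_covE : ∀ e ∈ Te.E, (tb 6 e.1 || tb 6 e.2) = false →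
    RjCov Te 6 rjL e.1 e.2 ∧ RjCov Te 6 rjL e.2 e.1 :=
  rj_all
   [((0, []), (0, [])),
    ((0, []), (0, [])),
    ((0, []), (0, [])),
    ((0, []), (0, [])),
    ((0, []), (0, [])),
    ((0, []), (0, [])),
    ((4, [0, 1, 2, 3, 4, 5, 6, 7]), (5, [0, 1, 2, 3, 4, 5, 6, 7])),
    ((4, [0, 1, 2, 4, 3, 6, 5, 7]), (5, [0, 1, 2, 4, 3, 6, 5, 7])),
    ((6, [0, 1, 2, 3, 4, 5, 6, 7]), (7, [0, 1, 2, 3, 4, 5, 6, 7])),
    ((6, [0, 1, 2, 4, 3, 6, 5, 7]), (7, [0, 1, 2, 4, 3, 6, 5, 7]))] (by decide +kernel)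

theorem rj_covP : ∀ e ∈ PP.E, (tb 24 e.1 || tb 24 e.2) = false →
    RjCov PP 24 (offX 24 jPP) e.1 e.2 ∧ RjCov PP 24 (offX 24 jPP) e.2 e.1 :=
  rj_all
   [((0, [0, 1, 2, 3, 4, 5, 6, 7]), (1, [0, 1, 2, 3, 4, 5, 6, 7])),
    ((2, [0, 1, 2, 3, 4, 5, 6, 7]), (3, [0, 1, 2, 3, 4, 5, 6, 7])),
    ((0, []), (0, [])), ((0, []), (0, [])),
    ((4, [0, 1, 2, 3, 4, 5, 6, 7]), (5, [0, 1, 2, 3, 4, 5, 6, 7])),
    ((0, []), (0, [])), ((0, []), (0, [])), ((0, []), (0, [])), ((0, []), (0, [])),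
    ((1, [7, 6, 2, 3, 4, 5, 1, 0]), (0, [7, 6, 2, 3, 4, 5, 1, 0])),
    ((3, [7, 6, 2, 3, 4, 5, 1, 0]), (2, [7, 6, 2, 3, 4, 5, 1, 0]))] (by decide +kernel)

theorem rj_covT3 : ∀ e ∈ T3.E, (tb 24 e.1 || tb 24 e.2) = false →
    RjCov T3 24 (offX 24 jT3) e.1 e.2 ∧ RjCov T3 24 (offX 24 jT3) e.2 e.1 :=
  rj_all
   [((0, [0, 1, 2, 3, 4, 5, 6, 7]), (1, [0, 1, 2, 3, 4, 5, 6, 7])),
    ((2, [0, 1, 2, 3, 4, 5, 6, 7]), (3, [0, 1, 2, 3, 4, 5, 6, 7])),
    ((0, []), (0, [])), ((0, []), (0, [])),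
    ((4, [0, 1, 2, 3, 4, 5, 6, 7]), (5, [0, 1, 2, 3, 4, 5, 6, 7])),
    ((0, []), (0, [])), ((0, []), (0, [])), ((0, []), (0, [])), ((0, []), (0, [])),
    ((6, [0, 1, 2, 3, 4, 5, 6, 7]), (7, [0, 1, 2, 3, 4, 5, 6, 7])),
    ((8, [0, 1, 2, 3, 4, 5, 6, 7]), (9, [0, 1, 2, 3, 4, 5, 6, 7]))] (by decide +kernel)

theorem rj_covT1 : ∀ e ∈ T1.E, (tb 1536 e.1 || tb 1536 e.2) = false →
    RjCov T1 1536 (offX 1536 jT1) e.1 e.2 ∧ RjCov T1 1536 (offX 1536 jT1) e.2 e.1 :=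
  rj_all
   [((0, [0, 1, 2, 3, 4, 5, 6, 7, 8, 9, 10]), (1, [0, 1, 2, 3, 4, 5, 6, 7, 8, 9, 10])),
    ((0, [0, 2, 1, 4, 3, 5, 7, 6, 8, 9, 10]), (1, [0, 2, 1, 4, 3, 5, 7, 6, 8, 9, 10])),
    ((2, [0, 1, 2, 3, 4, 5, 6, 7, 8, 9, 10]), (3, [0, 1, 2, 3, 4, 5, 6, 7, 8, 9, 10])),
    ((2, [0, 2, 1, 4, 3, 5, 7, 6, 8, 9, 10]), (3, [0, 2, 1, 4, 3, 5, 7, 6, 8, 9, 10])),
    ((4, [0, 1, 2, 3, 4, 5, 6, 7, 8, 9, 10]), (5, [0, 1, 2, 3, 4, 5, 6, 7, 8, 9, 10])),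
    ((4, [0, 2, 1, 4, 3, 5, 7, 6, 8, 9, 10]), (5, [0, 2, 1, 4, 3, 5, 7, 6, 8, 9, 10])),
    ((6, [0, 1, 2, 3, 4, 5, 6, 7, 8, 9, 10]), (7, [0, 1, 2, 3, 4, 5, 6, 7, 8, 9, 10])),
    ((6, [0, 2, 1, 4, 3, 5, 7, 6, 8, 9, 10]), (7, [0, 2, 1, 4, 3, 5, 7, 6, 8, 9, 10])),
    ((8, [0, 1, 2, 3, 4, 5, 6, 7, 8, 9, 10]), (9, [0, 1, 2, 3, 4, 5, 6, 7, 8, 9, 10]))]
    (by decide +kernel)

/-- the edges of `P` at `xs` belong to the copy of `PK` listed by `l` -/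
def RjIn (P : Pat) (xs : ℕ) (l : List ℕ) : Prop :=
  GbSub PK P l ∧ ∀ e ∈ P.E, (tb xs e.1 || tb xs e.2) = true → ∃ d ∈ PK.E,
    (l.getD d.1 0 = e.1 ∧ l.getD d.2 0 = e.2) ∨ (l.getD d.1 0 = e.2 ∧ l.getD d.2 0 = e.1)

theorem rj_inA : RjIn Ta 6 [0, 1, 2, 3, 4] := ⟨gb_AK, by decide +kernel⟩
theorem rj_inB : RjIn Tb 6 [0, 1, 2, 3, 4] := ⟨gb_BK, by decide +kernel⟩
theorem rj_inE : RjIn Te 6 [0, 1, 2, 3, 4] := ⟨gb_EK, by decide +kernel⟩
theorem rj_inP : RjIn PP 24 [1, 3, 4, 5, 6] := ⟨gb_PK, by decide +kernel⟩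
theorem rj_inT3 : RjIn T3 24 [1, 3, 4, 5, 6] := ⟨by unfold GbSub; decide, by decide +kernel⟩
theorem rj_inT1 : RjIn T1 1536 [6, 9, 10, 8, 7] := ⟨by unfold GbSub; decide, by decide +kernel⟩

theorem rj_X {l : List ℕ} (hl : RjIn P xs l) (hg : Emb G' S P g)
    (hK : ∀ g, Emb G' S PK g → ∀ e ∈ PK.E, G.Adj (g e.1) (g e.2)) : RjX G P xs g := by
  intro e he hx
  obtain ⟨d, hd, h⟩ := hl.2 e he hx
  have h1 := hK _ (gb_sub hg hl.1) d hd
  rcases h with ⟨e1, e2⟩ | ⟨e1, e2⟩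
  · rw [← e1, ← e2]; exact h1
  · rw [← e1, ← e2]; exact h1.symm

theorem rj_jvx_acc (h : D ∈ acc) : D ∈ jvx1 Γ C J a b m0 m2 m3 acc := by
  unfold jvx1
  refine pe2_acc (rj_pe2x_acc ?_)
  cases Γ.nop
  · rw [cond_false]
    exact rj_pe2x_acc (rj_pe2x_acc h)
  · rw [cond_true]
    exact rj_pe2x_acc h

end

/-- one of the children other than the first occurs -/
def RjK (G : SimpleGraph ℕ) (S M : Finset ℕ) (Γ : Gam) (C : Cfg) (R J : ℕ) : Prop :=
  ∃ D ∈ rJVx2 Γ C J (dif (ones C.n) R)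
    (Nat.land (dif (ones C.n) R) (dif (e2 C (nb3 C.A R) (jx J (ones C.n)))
      (e1 C (nb3 C.A R) (jx J (ones C.n)))))
    (dif (dif (ones C.n) R) (e2 C (nb3 C.A R) (jx J (ones C.n)))), ∃ f, Valid G S M D f

theorem rj_jok (h : RgC G S M Γ C f R J) (hK : ¬ RjK G S M Γ C R J) : JOK G S f C.n R J := by
  have hC := h.ctx.val
  refine ⟨h.wf, fun i k hi hk => ⟨(h.je i ((tb_jm h.wf h.n63).2 ⟨hi, k, hk⟩)).2.1, fun ha => hK ?_⟩,
    fun v hv => ?_⟩
  · obtain ⟨h1, h2, -⟩ := jp_lt h.wf h.n63 hi hk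
    rcases (tb_jp h.wf h.n63 hi).1 hk with ⟨rfl, rfl⟩ | ⟨rfl, rfl⟩ | ⟨rfl, rfl⟩ | ⟨rfl, rfl⟩
    · exact rg_join hC h1 h2 ha h.u0
    · exact rg_join hC h2 h1 ha.symm h.u0
    · obtain ⟨D, hD, h3⟩ := rg_join hC h1 h2 ha h.u1
      exact ⟨D, rg_join_acc hD, h3⟩
    · obtain ⟨D, hD, h3⟩ := rg_join hC h2 h1 ha.symm h.u1
      exact ⟨D, rg_join_acc hD, h3⟩
  · by_cases hj : ∃ i, tb (jm J (ones C.n)) i = true ∧ f i = v
    · obtain ⟨i, hi, rfl⟩ := hj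
      obtain ⟨h1, -, h2⟩ := h.je i hi
      have h3 := v_deg_GJ_le (S' := S \ img f R) hC h.wf h1
      have h4 := v_deg_le (S' := S \ img f R) (Z := R) hC h1 Subset.rfl
      have h5 := (dg_le (C := C) (i := i)).2
      have h6 := h.jn_cn hi
      omega
    · rw [v_deg_GJ_new hC h.wf fun i hi e => hj ⟨i, hi, e⟩]
      exact (deg_mono sdiff_subset fun _ _ e => e).trans
        (mc_deg3 h.ctx.mc v (mem_sdiff.1 hv).1)

theorem rj_peh {P : Pat} (h : RgC G S M Γ C f R J) (hK : ¬ RjK G S M Γ C R J)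
    (hg : Emb (GJ G f J) (S \ img f R) P g)
    (hc : ∀ q < P.k, P.con.getD q 0 = 0 ∨ P.con.getD q 0 = 3 ∨ (P.con.getD q 0 = 2 ∧
      ∀ k, tb R k = true → G.Adj (g q) (f k) → ∃ i, tb (row C.A k) i = true ∧ f i = g q)) :
    PEH G S C f J (dif (ones C.n) R)
      (Nat.land (dif (ones C.n) R) (dif (e2 C (nb3 C.A R) (jx J (ones C.n)))
        (e1 C (nb3 C.A R) (jx J (ones C.n)))))
      (dif (dif (ones C.n) R) (e2 C (nb3 C.A R) (jx J (ones C.n)))) P g := by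
  have hC := h.ctx.val
  have h64 := (v_lt64 hC h.lt).2
  refine ⟨h.wf, fun q hq => (mem_sdiff.1 (hg.1 q hq)).1, hg.2.1, hg.2.2.1,
    fun i hi q hq e => ?_, fun q hq hn h0 => ?_⟩
  · have m0 : tb (dif (ones C.n) R) i = true := by
      refine tb_dif.2 ⟨tb_ones.2 hi, Bool.eq_false_iff.2 fun hR => ?_⟩
      exact (mem_sdiff.1 (hg.1 q hq)).2 (e ▸ (v_mem_img hC h.lt hi).2 hR)
    have E2 := v_e2 (J := J) hC hi h64
    have E1 := v_e1 (J := J) hC hi h64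
    rcases hc q hq with h0 | h3 | ⟨h2, hk⟩
    · rw [h0]
      exact m0
    · have d := hg.2.2.2 q hq (by omega)
      have a1 := v_deg_GJ_le (S' := S \ img f R) hC h.wf hi
      have a2 := v_deg_le (S' := S \ img f R) (Z := R) hC hi Subset.rfl
      rw [← e] at d
      rw [h3]
      exact tb_dif.2 ⟨m0, Bool.eq_false_iff.2 fun e => by have := E2.1 e; omega⟩
    · have d := hg.2.2.2 q hq (by omega)
      have a1 := v_deg_GJ (S' := S \ img f R) hC (rj_jok h hK) hi fun k hk => by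
        obtain ⟨-, b1, -, b2⟩ := jp_lt h.wf h.n63 (by have := h.n47; omega) hk
        refine mem_sdiff.2 ⟨hC.mem k b1, fun b3 => ?_⟩
        have b4 := (h.je k ((tb_jm h.wf h.n63).2 ⟨by have := h.n47; omega, i, b2⟩)).2.1
        rw [(v_mem_img hC h.lt b1).1 b3] at b4
        exact Bool.noConfusion b4
      have a2 := v_deg_eq (S' := S \ img f R) (Z := R) hC hi Subset.rfl fun w hw hw' ha => by
        obtain ⟨k, k1, k2, rfl⟩ := mem_img.1 (by_contra fun b => hw' (mem_sdiff.2 ⟨hw, b⟩))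
        obtain ⟨i', b1, b2⟩ := hk k k2 (e ▸ ha)
        rw [hC.inj i' (hC.rlt _ _ b1).2 i hi (b2.trans e.symm)] at b1
        exact ⟨k, k1, k2, b1, rfl⟩
      rw [← e] at d
      rw [h2]
      exact tb_land.2 ⟨m0, tb_dif.2 ⟨E2.2 (by omega),
        Bool.eq_false_iff.2 fun e => by have := E1.1 e; omega⟩⟩
  · have d := hg.2.2.2 q hq h0
    rw [v_deg_GJ_new hC h.wf fun i hi => hn i (h.je i hi).1] at d
    rcases hc q hq with h0' | h3 | ⟨h2, hk⟩
    · exact (h0 h0').elim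
    · have a1 : deg G (S \ img f R) (g q) ≤ deg G S (g q) := deg_mono sdiff_subset fun _ _ e => e
      have a2 := mc_deg3 h.ctx.mc _ (mem_sdiff.1 (hg.1 q hq)).1
      omega
    · rw [← d]
      refine congrArg card (Finset.ext fun w => ?_)
      rw [mem_N, mem_N, mem_sdiff]
      refine ⟨fun hw => ⟨⟨hw.1, fun b => ?_⟩, hw.2⟩, fun hw => ⟨hw.1.1, hw.2⟩⟩
      obtain ⟨k, -, k2, rfl⟩ := mem_img.1 b
      obtain ⟨i, b1, b2⟩ := hk k k2 hw.2
      exact hn i (hC.rlt _ _ b1).2 b2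

/-- a copy all of whose join edges are caught by `jvx1` has all its edges in the original graph -/
theorem rj_inG {P : Pat} (h : RgC G S M Γ C f R J) (hK : ¬ RjK G S M Γ C R J)
    (hg : Emb (GJ G f J) (S \ img f R) P g)
    (hL : ∀ e ∈ P.E, ¬ G.Adj (g e.1) (g e.2) → ∀ (a b m0 m2 m3 : ℕ) (acc : List Cfg),
      PEH G S C f J m0 m2 m3 P g → a < C.n → b < C.n →
      (f a = g e.1 ∧ f b = g e.2) ∨ (f a = g e.2 ∧ f b = g e.1) →
      ∃ D ∈ jvx1 Γ C J a b m0 m2 m3 acc, ∃ f', Valid G S M D f')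
    (hc : ∀ e ∈ P.E, ∀ a, tb (jm J (ones C.n)) a = true → f a = g e.1 → ∀ q < P.k,
      P.con.getD q 0 = 0 ∨ P.con.getD q 0 = 3 ∨ (P.con.getD q 0 = 2 ∧
      ∀ k, tb R k = true → G.Adj (g q) (f k) → ∃ i, tb (row C.A k) i = true ∧ f i = g q)) :
    ∀ e ∈ P.E, G.Adj (g e.1) (g e.2) := by
  intro e he
  by_contra hn
  obtain ⟨i, k, hi, hk, e1, e2⟩ := h.edge hg he hn
  have hi' : i < 63 := by have := h.n47; omega
  have hP := rj_peh h hK hg (hc e he i ((tb_jm h.wf h.n63).2 ⟨hi', k, hk⟩) e1)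
  obtain ⟨h1, h2, -⟩ := jp_lt h.wf h.n63 hi' hk
  refine hK ?_
  rcases (tb_jp h.wf h.n63 hi').1 hk with ⟨rfl, rfl⟩ | ⟨rfl, rfl⟩ | ⟨rfl, rfl⟩ | ⟨rfl, rfl⟩
  · obtain ⟨D, hD, h3⟩ := hL e he hn _ _ _ _ _ _ hP h1 h2 (Or.inl ⟨e1, e2⟩)
    exact ⟨D, rg_join_acc (rg_join_acc (mem_dd hD)), h3⟩
  · obtain ⟨D, hD, h3⟩ := hL e he hn _ _ _ _ _ _ hP h2 h1 (Or.inr ⟨e2, e1⟩)
    exact ⟨D, rg_join_acc (rg_join_acc (mem_dd hD)), h3⟩
  · obtain ⟨D, hD, h3⟩ := hL e he hn _ _ _ _ _ _ hP h1 h2 (Or.inl ⟨e1, e2⟩)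
    exact ⟨D, rg_join_acc (rg_join_acc (mem_dd (rj_jvx_acc hD))), h3⟩
  · obtain ⟨D, hD, h3⟩ := hL e he hn _ _ _ _ _ _ hP h2 h1 (Or.inr ⟨e2, e1⟩)
    exact ⟨D, rg_join_acc (rg_join_acc (mem_dd (rj_jvx_acc hD))), h3⟩

/-- the copies of `PK` use no join edge -/
theorem rj_K (h : RgC G S M Γ C f R J) (hK : ¬ RjK G S M Γ C R J) :
    ∀ g, Emb (GJ G f J) (S \ img f R) PK g → ∀ e ∈ PK.E, G.Adj (g e.1) (g e.2) := by
  intro g hg
  refine rj_inG h hK hg (fun e he _ a b m0 m2 m3 acc hP ha hb hab => ?_)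
    fun _ _ _ _ _ q hq => (rg_conK q hq).imp_right .inl
  unfold jvx1
  rcases hab with ⟨e1, e2⟩ | ⟨e1, e2⟩
  · exact pe2_cov h.ctx hP (cov_jK e he).1 (fun _ hQ => hQ) h.n47 ha hb e1 e2
  · exact pe2_cov h.ctx hP (cov_jK e he).2 (fun _ hQ => hQ) h.n47 ha hb e1 e2

/-- the larger patterns use no join edge -/
theorem rj_big {P : Pat} {xs : ℕ} {l : List ℕ} {L : List RP} (h : RgC G S M Γ C f R J)
    (hK : ¬ RjK G S M Γ C R J) (hg : Emb (GJ G f J) (S \ img f R) P g) (hl : RjIn P xs l)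
    (hL : ∀ e ∈ P.E, (tb xs e.1 || tb xs e.2) = false →
      RjCov P xs L e.1 e.2 ∧ RjCov P xs L e.2 e.1)
    (hT : ∀ (a b m0 m2 m3 : ℕ) (acc : List Cfg), ∃ acc', ∀ D ∈ pe2x Γ.ty J xs C a b m0 m2 m3 L acc',
      D ∈ jvx1 Γ C J a b m0 m2 m3 acc)
    (hc : ∀ e ∈ P.E, ∀ a, tb (jm J (ones C.n)) a = true → f a = g e.1 → ∀ q < P.k,
      P.con.getD q 0 = 0 ∨ P.con.getD q 0 = 3 ∨ (P.con.getD q 0 = 2 ∧
      ∀ k, tb R k = true → G.Adj (g q) (f k) → ∃ i, tb (row C.A k) i = true ∧ f i = g q)) :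
    ∀ e ∈ P.E, G.Adj (g e.1) (g e.2) := by
  have hX := rj_X hl hg (rj_K h hK)
  refine rj_inG h hK hg (fun e he hn a b m0 m2 m3 acc hP ha hb hab => ?_) hc
  have hx : (tb xs e.1 || tb xs e.2) = false := Bool.eq_false_iff.2 fun hx => hn (hX e he hx)
  obtain ⟨acc', hT'⟩ := hT a b m0 m2 m3 acc
  refine pa_keep hT' ?_
  rcases hab with ⟨e1, e2⟩ | ⟨e1, e2⟩
  · exact rj_pe2x_cov h.ctx hP hX (hL e he hx).1 h.n47 ha hb e1 e2
  · exact rj_pe2x_cov h.ctx hP hX (hL e he hx).2 h.n47 ha hb e1 e2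

theorem rj_noP (h : RgC G S M Γ C f R J) (hK : ¬ RjK G S M Γ C R J) (hp : Γ.nop = true) :
    ¬ ∃ g, Emb (GJ G f J) (S \ img f R) PP g := by
  rintro ⟨g, hg⟩
  refine h.ctx.gam.nop hp ⟨g, embP_mono hg sdiff_subset (rj_big h hK hg rj_inP rj_covP
    (fun a b m0 m2 m3 acc => ⟨acc, fun D hD => ?_⟩)
    fun _ _ _ _ _ q hq => (rg_conP q hq).imp_right .inl) (mc_deg3 h.ctx.mc)⟩
  rw [jvx1, hp, cond_true]
  exact pe2_acc (rj_pe2x_acc hD)

theorem rj_crit {dl : List ℕ} (h : RgC G S M Γ C f R J) (hK : ¬ RjK G S M Γ C R J)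
    (hx : ctxOK C R 0 dl (jm J (ones C.n)) = true)
    (hv : CritP (GJ G f J) (S \ img f R) v) : CritP G (S \ img f R) v := by
  obtain ⟨P, hP, g, hg, rfl⟩ := hv
  obtain ⟨L', hL'⟩ := rg_full P hP
  have fin : (∀ e ∈ P.E, G.Adj (g e.1) (g e.2)) → CritP G (S \ img f R) (g 0) :=
    fun hE => ⟨P, hP, g, rg_down hL' hg le_GJ hE, rfl⟩
  have key : ∀ e ∈ P.E, ∀ a, tb (jm J (ones C.n)) a = true → f a = g e.1 → ∀ q < P.k,
      P.con.getD q 0 = 0 ∨ P.con.getD q 0 = 3 ∨ (P.con.getD q 0 = 2 ∧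
      ∀ k, tb R k = true → G.Adj (g q) (f k) → ∃ i, tb (row C.A k) i = true ∧ f i = g q) := by
    intro e he a ha ea q hq
    obtain ⟨-, r1, r2, r3⟩ := gb_root P hP
    rcases r3 q hq with rfl | h0 | h3
    · refine .inr (.inr ⟨r1, fun k hk' hadj => ?_⟩)
      refine (ctx_known h.ctx.val h.lt h.wf hx (fun _ e => e) ha ?_ hk' hadj).resolve_left
        (by rw [tb_zero]; exact Bool.noConfusion)
      rw [cX, ea, comp_eq_of_mem (rg_conn hP hg e.1 (r2 e he).1)]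
      exact rg_conn hP hg 0 hq
    · exact .inl h0
    · exact .inr (.inl h3)
  simp only [List.mem_cons, List.not_mem_nil, or_false] at hP
  have hT : ∀ (a b m0 m2 m3 : ℕ) (acc : List Cfg), ∃ acc',
      ∀ D ∈ pe2x Γ.ty J 6 C a b m0 m2 m3 rjL acc', D ∈ jvx1 Γ C J a b m0 m2 m3 acc :=
    fun a b m0 m2 m3 acc => ⟨_, fun D hD => pe2_acc hD⟩
  rcases hP with rfl | rfl | rfl | hP
  · exact fin (rj_big h hK hg rj_inA rj_covA hT key)
  · exact fin (rj_big h hK hg rj_inB rj_covB hT key)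
  · exact fin (rj_big h hK hg rj_inE rj_covE hT key)
  cases hp : Γ.nop
  · rcases hP with rfl | rfl
    · refine fin (rj_big h hK hg rj_inT3 rj_covT3
        (fun a b m0 m2 m3 acc => ⟨pe2x Γ.ty J 1536 C a b m0 m2 m3 (offX 1536 jT1) acc,
          fun D hD => ?_⟩) key)
      rw [jvx1, hp, cond_false]
      exact pe2_acc (rj_pe2x_acc hD)
    · refine fin (rj_big h hK hg rj_inT1 rj_covT1
        (fun a b m0 m2 m3 acc => ⟨acc, fun D hD => ?_⟩) key)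
      rw [jvx1, hp, cond_false]
      exact pe2_acc (rj_pe2x_acc (rj_pe2x_acc hD))
  · rcases hP with rfl | rfl
    · exact (rj_noP h hK hp ⟨_, gb_sub hg gb_T3P⟩).elim
    · exact (rj_noP h hK hp ⟨_, gb_sub hg gb_T1P⟩).elim

theorem rJVx_sound {dl : List ℕ} (h : Ctx G S M Γ C f) : Sound G S M (rJVx Γ C R J dl) := by
  intro L hL
  unfold rJVx rJVx1 chk at hL
  rw [Bool.cond_eq_ite] at hL
  split_ifs at hL with hc
  obtain ⟨H, c7⟩ := rg_mk h hc
  obtain rfl := Option.some.inj hL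
  by_cases hK : RjK G S M Γ C R J
  · obtain ⟨D, hD, h1⟩ := hK
    exact ⟨D, List.mem_cons_of_mem _ hD, h1⟩
  exact ⟨_, List.mem_cons_self, f, rg_addJV h.val
    ⟨H.lt, rj_jok H hK, fun v hv => rj_crit H hK c7 hv, fun hk => Nat.noConfusion hk⟩⟩

end Pool.Agent.Lib.MP_5a2675_co.D7
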