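import Mathlib
import Pool.Agent.Lib.MP_5a2675_co.D7.RA
import Pool.Agent.Lib.MP_5a2675_co.D7.RB
import Pool.Agent.Lib.MP_5a2675_co.D7.RE
import Pool.Agent.Lib.MP_5a2675_co.D7.RG
import Pool.Agent.Lib.MP_5a2675_co.D7.DG
import Pool.Agent.Lib.MP_5a2675_co.D7.RH
import Pool.Agent.Lib.MP_5a2675_co.D7.RI
import Pool.Agent.Lib.MP_5a2675_co.D7.RJ

set_option autoImplicit false

namespace Pool.Agent.Lib.MP_5a2675_co.D7

open Finset
open Classical

variable {G G' : SimpleGraph ℕ} {S S' M X : Finset ℕ} {Γ : Gam} {C : Cfg} {f g : ℕ → ℕ}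
  {a b c i j k l m n q r s t v w x y A J R Z Mk : ℕ}

variable {ext : List Cfg} {P : Pat} {T T' : PT} {ty : ℕ}

theorem run_cond {p : Bool} {o o' : Option (List Cfg)} (h : Sound G S M o)
    (h' : Sound G S M o') : Sound G S M (cond p o o') := by
  cases p
  · exact h'
  · exact h

theorem run_rExt (he : AllRef Γ ext) (h : Ctx G S M Γ C f) : Sound G S M (rExt ext C i) := by
  intro L hL
  exfalso
  unfold rExt chk at hL
  cases hc : (okI ext i && ceq C (ext.getD i empty)) with
  | false => rw [hc] at hL; simp at hL
  | true =>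
    rw [Bool.and_eq_true] at hc
    have hi : i < ext.length := okI_iff.mp hc.1
    have hC : C = ext.getD i empty := ceq_eq hc.2
    have hm : C ∈ ext := by
      rw [hC, List.getD_eq_getElem _ _ hi]
      exact List.getElem_mem hi
    exact he C hm G S M h.mc h.gam f h.val

theorem step_sound (he : AllRef Γ ext) (h : Ctx G S M Γ C f) : Sound G S M (step Γ ext C t) := by
  unfold step step2 stepA stepB stepC
  refine run_cond (run_cond (run_cond (run_cond ?_ ?_) (run_cond ?_ ?_))
    (run_cond (run_cond (run_cond ?_ ?_) (run_cond ?_ ?_))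
      (run_cond (run_cond ?_ ?_) (run_cond ?_ ?_))))
    (run_cond (run_cond (run_cond (run_cond ?_ (run_cond ?_ ?_)) (run_cond ?_ (run_cond ?_ ?_)))
      (run_cond (run_cond ?_ ?_) (run_cond ?_ (run_cond ?_ ?_))))
      (run_cond (run_cond ?_ ?_) (run_cond ?_ (run_cond ?_ ?_))))
  · exact rRed_sound h
  · exact rCite_sound h
  · exact rRev_sound h
  · exact rRed_sound h
  · exact rNQ_sound h
  · exact rNC_sound h
  · exact rJV_sound h
  · exact rBlob_sound h
  · exact rBr0_sound h
  · exact rBr1_sound h
  · exact run_rExt he h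
  · exact rLab_sound h
  · exact rWin_sound h
  · exact rXL_sound h
  · exact rPFL_sound h
  · exact rT2_sound h
  · exact rT0_sound h
  · exact rDead_sound h
  · exact rDrop_sound h
  · exact rHC_sound h
  · exact rKC_sound h
  · exact rHT_sound h
  · exact rCub_sound h
  · exact rBr2_sound h
  · exact rIso_sound he h
  · exact rJVx_sound h
  · exact rSub_sound he h
  · exact rNF_sound h

theorem ar_nil : AllRef Γ [] := by
  intro C hC
  simp at hC

theorem ar_cons (h : Ref Γ C) (he : AllRef Γ ext) : AllRef Γ (C :: ext) := by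
  intro D hD
  rcases List.mem_cons.mp hD with rfl | hD
  · exact h
  · exact he D hD

theorem run_ref {toks : List ℕ} {st : List Cfg} (he : AllRef Γ ext)
    (h : run Γ ext toks st = true) : AllRef Γ st := by
  induction toks generalizing st with
  | nil =>
    cases st with
    | nil => exact ar_nil
    | cons c r => exact absurd h (by simp [run])
  | cons t toks ih =>
    cases st with
    | nil => exact ar_nil
    | cons c r =>
      have h1 : (Option.rec false (fun ks => run Γ ext toks (appL ks r)) (step Γ ext c t) : Bool)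
          = true := h
      cases hs : step Γ ext c t with
      | none => rw [hs] at h1; exact absurd h1 (by simp)
      | some ks =>
        rw [hs] at h1
        have h2 : run Γ ext toks (appL ks r) = true := h1
        have h3 := ih h2
        rw [appL_eq] at h3
        refine ar_cons ?_ fun D hD => h3 D (List.mem_append_right _ hD)
        intro G S M hm hg f hv
        obtain ⟨D, hD, f', hf'⟩ := step_sound (t := t) he ⟨hm, hg, hv⟩ ks hs
        exact h3 D (List.mem_append_left _ hD) G S M hm hg f' hf'

theorem run_one {toks : List ℕ} (he : AllRef Γ ext) (h : run Γ ext toks [C] = true) : Ref Γ C :=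
  run_ref he h C (List.mem_singleton.mpr rfl)

theorem ne_of_run {toks : List ℕ} (hΓ : OK Γ) (he : AllRef Γ ext)
    (h : (patOK P && run Γ ext toks (rootKids Γ.ty P)) = true) : NE P := by
  rw [Bool.and_eq_true] at h
  rintro G S M hm ⟨g, hg⟩
  obtain ⟨D, hD, f, hf⟩ := rootKids_sound hm (hΓ G S M hm) h.1 hg
  exact run_ref he h.2 D hD G S M hm (hΓ G S M hm) f hf

end Pool.Agent.Lib.MP_5a2675_co.D7
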