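import Mathlib
import Pool.Agent.Lib.MP_5a2675_co.D7.VB
import Pool.Agent.Lib.MP_5a2675_co.D7.GE
import Pool.Agent.Lib.MP_5a2675_co.D7.Final

set_option autoImplicit false

namespace Pool.Agent.Lib.MP_5a2675_co.D7

open Finset
open Classical

variable {G G' : SimpleGraph ℕ} {S S' M X : Finset ℕ} {Γ : Gam} {C : Cfg} {f g : ℕ → ℕ}
  {a b c i j k l m n q r s t v w x y A J R Z Mk : ℕ}

variable {P : Pat} {T T' : PT} {ty : ℕ}

/-- a pattern that never occurs -/
def P0 : Pat := ⟨1, [4], []⟩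
theorem ne_P0 : NE P0 := by
  rintro G S M h ⟨g, h1, -, -, h4⟩
  have e1 : deg G S (g 0) = 4 := h4 0 Nat.one_pos (by decide)
  have e2 := (h.good _ (h1 0 Nat.one_pos)).1
  omega
theorem net_leaf (h : NE P) : NET (PT.leaf P) := fun _ => h
theorem net_node (h : NET T) (h' : NET T') : NET (PT.node T T') := by
  intro i
  change NE (cond (Nat.beq (Nat.land i 1) 0) (T.get (Nat.shiftRight i 1))
    (T'.get (Nat.shiftRight i 1)))
  cases Nat.beq (Nat.land i 1) 0
  · exact h' _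
  · exact h _
theorem ok_mk {nok nop : Bool} (h1 : TyA ty) (h2 : JA j) (h3 : nok = true → NE Pa ∧ NE Pb ∧ NE Pe)
    (h4 : nop = true → NE PP) (h5 : TgA t) (h6 : NET T) : OK ⟨ty, j, nok, nop, t, T⟩ :=
  fun G S M h => ⟨h1 G S M h, h2 G S M h, fun e ⟨P, hP, hg⟩ => by
    simp only [List.mem_cons, List.not_mem_nil, or_false] at hP
    rcases hP with rfl | rfl | rfl
    exacts [(h3 e).1 G S M h hg, (h3 e).2.1 G S M h hg, (h3 e).2.2 G S M h hg],
    fun e => h4 e G S M h, h5 G S M h, fun i => h6 i G S M h⟩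
theorem ty_start : TyA 110 := by
  intro G S M h v hv
  have h1 : ∀ τ ∈ types, tyOK 110 τ.1 τ.2 = true := by decide
  exact h1 _ (mem_types h hv)
/-- a type of vertices that does not occur is removed -/
theorem ty_remove {mk : Bool} (h : TyA ty) (hΓ : OK Γ) (h1 : 1 ≤ a) (h3 : a ≤ 3)
    (hr : Ref Γ (newV empty a mk)) : TyA (dif ty (bit (cond mk (a + 4) a))) := by
  intro G S M hm v hv
  refine tb_dif.2 ⟨h G S M hm v hv, ?_⟩
  rw [← Bool.not_eq_true, tb_bit]
  intro e
  have d1 := mc_deg_pos hm hv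
  have d3 := (hm.good v hv).1
  have hV := valid_newV (valid_empty (G := G) (S := S) (M := M) (f := fun _ => 0))
    (Nat.zero_le _) hv (fun i hi => absurd hi (Nat.not_lt_zero i)) d1 d3
  have e' : deg G S v = a ∧ decide (v ∈ M) = mk := by
    revert e
    cases decide (v ∈ M) <;> cases mk <;>
      simp only [cond_true, cond_false, Nat.add_eq, and_true, Bool.false_eq_true, and_false,
        Bool.true_eq_false] <;> omega
  rw [e'.1, e'.2] at hV
  exact hr G S M hm (hΓ G S M hm) _ hV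
theorem tg_zero : TgA 0 := fun _ _ _ _ => Nat.zero_le _

theorem top_nomark (h : TyA ty) (hd : ∀ i, tb ty i = true → i ≠ 5 ∧ i ≠ 6) (hm : MC G S M) :
    NoMark S M := by
  intro v hv hM
  have h1 := h G S M hm v hv
  rw [decide_eq_true hM] at h1
  have h2 := hd (deg G S v + 4) h1
  have d1 := mc_deg_pos hm hv
  have d2 := (hm.good v hv).2 hM
  omega

theorem top_noleaf (h : TyA ty) (hd : dj ty 98 = true) (hm : MC G S M) :
    NoMark S M ∧ ∀ v ∈ S, 2 ≤ deg G S v := by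
  have h0 : ∀ i, tb ty i = true → i ≠ 1 ∧ i ≠ 5 ∧ i ≠ 6 := fun i hi => by
    have := dj_iff.1 hd i hi
    refine ⟨?_, ?_, ?_⟩ <;> rintro rfl <;> exact absurd this (by decide)
  have h1 := top_nomark h (fun i hi => (h0 i hi).2) hm
  refine ⟨h1, fun v hv => ?_⟩
  have h2 := h G S M hm v hv
  rw [decide_eq_false (h1 v hv)] at h2
  have h3 := (h0 (deg G S v) h2).1
  have d1 := mc_deg_pos hm hv
  omega

theorem tg_two (h : TyA ty) (hd : dj ty 96 = true) : TgA 2 := by
  intro G S M hm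
  refine two_le_cc (top_nomark h (fun i hi => ?_) hm)
  have := dj_iff.1 hd i hi
  refine ⟨?_, ?_⟩ <;> rintro rfl <;> exact absurd this (by decide)
theorem ja_zero : JA 0 := fun _ _ _ _ =>
  ⟨fun h => absurd h (by decide), fun h => absurd h (by decide)⟩
theorem ja_one (h : TyA ty) (hd : dj ty 98 = true) : JA 1 := fun _ _ _ hm =>
  ⟨fun _ => no_bridge hm (top_noleaf h hd hm).1 (top_noleaf h hd hm).2,
    fun h => absurd h (by decide)⟩

theorem top_deg_split (hX : X ⊆ S) : deg G S v = deg G X v + (N G (S \ X) v).card := by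
  unfold deg
  rw [← card_union_of_disjoint]
  · congr 1
    ext w
    simp only [mem_union, mem_N, mem_sdiff]
    have := @hX w
    tauto
  · exact disjoint_left.2 fun w h1 h2 => (mem_sdiff.1 (mem_N.1 h2).1).2 (mem_N.1 h1).1

/-- the two cut edges -/
structure TopCut (G : SimpleGraph ℕ) (S X : Finset ℕ) (x y r s : ℕ) : Prop where
  hx : x ∈ X
  hy : y ∈ X
  ne : x ≠ y
  hr : r ∈ S
  hs : s ∈ S
  hr' : r ∉ X
  hs' : s ∉ X
  ar : G.Adj x r
  as : G.Adj y s
  dx : deg G S x = 3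
  dy : deg G S y = 3
  all : ∀ u ∈ X, ∀ w ∈ S, w ∉ X → G.Adj u w → (u = x ∧ w = r) ∨ (u = y ∧ w = s)

theorem TopCut.symm (h : TopCut G S X x y r s) : TopCut G S X y x s r :=
  ⟨h.hy, h.hx, h.ne.symm, h.hs, h.hr, h.hs', h.hr', h.as, h.ar, h.dy, h.dx,
    fun u hu w hw hw' ha => (h.all u hu w hw hw' ha).symm⟩

theorem top_cut (hX : X ⊆ S) (h3 : ∀ v ∈ S, deg G S v ≤ 3) (h2 : ∀ v ∈ X, 2 ≤ deg G X v)
    (hc : cut G S X = 2) : ∃ x y r s, TopCut G S X x y r s := by
  have h1 : ∀ v ∈ X, (N G (S \ X) v).card ≤ 1 := fun v hv => by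
    have e1 := top_deg_split (G := G) (v := v) hX
    have e2 := h3 v (hX hv)
    have e3 := h2 v hv
    omega
  have h4 : (X.filter fun v => (N G (S \ X) v).card = 1).card = 2 := by
    rw [← hc, card_filter]
    refine sum_congr rfl fun v hv => ?_
    have := h1 v hv
    split_ifs <;> omega
  obtain ⟨x, y, hxy, e⟩ := card_eq_two.1 h4
  have hx : x ∈ X.filter fun v => (N G (S \ X) v).card = 1 := by rw [e]; simp
  have hy : y ∈ X.filter fun v => (N G (S \ X) v).card = 1 := by rw [e]; simp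
  rw [mem_filter] at hx hy
  obtain ⟨r, hr⟩ := card_eq_one.1 hx.2
  obtain ⟨s, hs⟩ := card_eq_one.1 hy.2
  have hr' : r ∈ N G (S \ X) x := by rw [hr]; simp
  have hs' : s ∈ N G (S \ X) y := by rw [hs]; simp
  rw [mem_N, mem_sdiff] at hr' hs'
  have hd : ∀ v ∈ X, (N G (S \ X) v).card = 1 → deg G S v = 3 := fun v hv h0 => by
    have e1 := top_deg_split (G := G) (v := v) hX
    have e2 := h3 v (hX hv)
    have e3 := h2 v hv
    omega
  refine ⟨x, y, r, s, hx.1, hy.1, hxy, hr'.1.1, hs'.1.1, hr'.1.2, hs'.1.2, hr'.2, hs'.2,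
    hd x hx.1 hx.2, hd y hy.1 hy.2, fun u hu w hw hw' ha => ?_⟩
  have h5 : w ∈ N G (S \ X) u := mem_N.2 ⟨mem_sdiff.2 ⟨hw, hw'⟩, ha⟩
  have h6 : u ∈ X.filter fun v => (N G (S \ X) v).card = 1 := by
    have e1 := h1 u hu
    have e2 := card_pos.2 ⟨w, h5⟩
    exact mem_filter.2 ⟨hu, by omega⟩
  rw [e, mem_insert, mem_singleton] at h6
  rcases h6 with rfl | rfl
  · rw [hr, mem_singleton] at h5
    exact Or.inl ⟨rfl, h5⟩
  · rw [hs, mem_singleton] at h5
    exact Or.inr ⟨rfl, h5⟩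

theorem top_blob {I : ℕ} (hm : MC G S M) (hM : NoMark S M) (hX : X ⊆ S) (hne : X ≠ S)
    (hc : Conn G X) (hval : 0 < val G X ∅) (hn : n ≤ 63) (hI : Lt I n) (hR : Lt R n)
    (ha : tb I 0 = true) (hin : ∀ i, tb I i = true → f i ∈ X) (hout : ∀ i, tb R i = true → f i ∉ X)
    (hR0 : R ≠ 0) (hcl : ∀ u ∈ X, ∀ w ∈ S, w ∉ X → G.Adj u w → ∃ i, tb R i = true ∧ f i = w)
    (hkn : ∀ u ∈ X, ∀ i, tb R i = true → G.Adj u (f i) → ∃ k, tb (row A i) k = true ∧ f k = u)
    (hnc : NonCub G X) : BlobOK G S M n A f ⟨R, I, R, 0, 100, 104, NOJ⟩ := by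
  have e : bX G S f ⟨R, I, R, 0, 100, 104, NOJ⟩ = X := by
    change comp (GJ G f NOJ) (S \ img f R) (f 0) = X
    rw [GJ_NOJ]
    refine comp_eq_of_closed_conn ⟨fun u hu => mem_sdiff.2 ⟨hX hu, fun h0 => ?_⟩,
      fun u hu w hw hA => ?_⟩ hc (hin 0 ha)
    · obtain ⟨i, -, hi, rfl⟩ := mem_img.1 h0
      exact hout i hi hu
    · by_contra h0
      obtain ⟨i, hi, rfl⟩ := hcl u hu w (mem_sdiff.1 hw).1 h0 hA
      exact (mem_sdiff.1 hw).2 (mem_img.2 ⟨i, by have := hR i hi; omega, hi, rfl⟩)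
  have hg : Good G X ∅ := fun v hv =>
    ⟨(deg_mono hX fun _ _ h => h).trans (hm.good v (hX hv)).1, fun h => absurd h (notMem_empty v)⟩
  have h4 := hm.ih G X ∅ (card_lt_card (ssubset_of_subset_of_ne hX hne)) hc hg hnc
  have h5 := cc_le_four (G := G) (S := X) (M := ∅)
  refine ⟨hI, hR, ha, ?_, ?_, fun _ h => h, hR0, ?_, ?_, ?_, jok_NOJ hm hn, fun _ => ?_, ?_⟩ <;>
    rw [e]
  · exact hin
  · exact hout
  · exact fun u hu => hM u (hX hu)
  · exact hkn
  · change NonCub (GJ G f NOJ) X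
    rwa [GJ_NOJ]
  · change ((100 : ℕ) : ℤ) - 100 < val (GJ G f NOJ) X ∅
    rw [GJ_NOJ]
    omega
  · change val (GJ G f NOJ) X ∅ ≤ ((104 : ℕ) : ℤ) - 100
    rw [GJ_NOJ]
    omega

theorem top_newV {d : ℕ} (hC : Valid G S M C f) (hn : C.n = n) (hn' : n ≤ 61) (hw : w ∈ S)
    (hf : ∀ i < n, f i ≠ w) (hd : deg G S w = d) (h1 : 1 ≤ d) (h3 : d ≤ 3) (hM : w ∉ M) :
    ∃ g, (∀ i < n, g i = f i) ∧ g n = w ∧ Valid G S M (newV C d false) g := by
  subst hn hd
  have h := valid_newV hC hn' hw hf h1 h3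
  rw [decide_eq_false hM] at h
  exact ⟨_, fun i hi => Function.update_of_ne hi.ne _ _, Function.update_self .., h⟩

theorem top_lt {m : ℕ} (hm : m < 2 ^ n) (hi : tb m i = true) : i < n := lt_iff_two_pow.2 hm i hi

/-- the adjacency mask of the first cut edge -/
def topA : ℕ := Nat.lor 0 (Nat.lor (Nat.shiftLeft (bit 1) (Nat.shiftLeft 0 6))
  (Nat.shiftLeft (bit 0) (Nat.shiftLeft 1 6)))

/-- the adjacency mask of both cut edges -/
def topB (b : ℕ) : ℕ := Nat.lor topA (Nat.lor (Nat.shiftLeft (bit b) (Nat.shiftLeft 2 6))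
  (Nat.shiftLeft (bit 2) (Nat.shiftLeft b 6)))

theorem top_start {d : ℕ} (hM : NoMark S M) (hX : X ⊆ S) (h : TopCut G S X x y r s)
    (hd : deg G S r = d) (h1 : 1 ≤ d) (h3 : d ≤ 3) :
    ∃ g, g 0 = x ∧ g 1 = r ∧ g 2 = y ∧ Valid G S M
      (newV (addEdge (newV (newV empty 3 false) d false) 0 1) 3 false) g := by
  obtain ⟨g1, -, a1, V1⟩ := top_newV (n := 0) (valid_empty (f := fun _ => 0)) rfl (by decide)
    (hX h.hx) (fun i hi => absurd hi (Nat.not_lt_zero i)) h.dx (by decide) (by decide)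
    (hM _ (hX h.hx))
  obtain ⟨g2, b1, b2, V2⟩ := top_newV (n := 1) V1 rfl (by decide) h.hr (fun i hi => by
    obtain rfl : i = 0 := by omega
    rw [a1]
    exact h.ar.ne) hd h1 h3 (hM _ h.hr)
  have b0 : g2 0 = x := (b1 0 (by decide)).trans a1
  have V3 := valid_addEdge (a := 0) (b := 1) V2 Nat.two_pos Nat.one_lt_two
    (by rw [b0, b2]; exact h.ar) (show tb (row 0 0) 1 = false from rfl)
  obtain ⟨g3, c1, c2, V4⟩ := top_newV (n := 2) V3 rfl (by decide) (hX h.hy) (fun i hi => by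
    obtain rfl | rfl : i = 0 ∨ i = 1 := by omega
    · rw [b0]
      exact h.ne
    · rw [b2]
      rintro rfl
      exact h.hr' h.hy) h.dy (by decide) (by decide) (hM _ (hX h.hy))
  exact ⟨g3, (c1 0 (by decide)).trans b0, (c1 1 (by decide)).trans b2, c2, V4⟩

theorem top_noncub (hX : X ⊆ S) (h : TopCut G S X x y r s) : NonCub G X := by
  refine ⟨x, h.hx, ?_⟩
  have e1 := top_deg_split (G := G) (v := x) hX
  have e2 : 0 < (N G (S \ X) x).card :=
    card_pos.2 ⟨r, mem_N.2 ⟨mem_sdiff.2 ⟨h.hr, h.hr'⟩, h.ar⟩⟩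
  have e3 := h.dx
  omega

theorem top_cutA {d : ℕ} (hm : MC G S M) (hM : NoMark S M) (hX : X ⊆ S) (hne : X ≠ S)
    (hc : Conn G X) (hval : 0 < val G X ∅) (h : TopCut G S X x y r r) (hd : deg G S r = d)
    (h1 : 1 ≤ d) (h3 : d ≤ 3) : ∃ g, Valid G S M (cutA d) g := by
  obtain ⟨g, g0, g1, g2, V⟩ := top_start hM hX h hd h1 h3
  have V' := valid_addEdge (a := 2) (b := 1) V (Nat.lt_succ_self 2) (Nat.le_succ 2)
    (by rw [g1, g2]; exact h.as) (show tb (row topA 2) 1 = false from rfl)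
  have hR : ∀ i, tb 2 i = true → i = 1 := fun i hi => (tb_bit (i := 1)).1 hi
  refine ⟨g, valid_setBl V' fun B hB => ?_⟩
  rw [List.mem_singleton.1 hB]
  refine top_blob (n := 3) hm hM hX hne hc hval (by decide) (lt_iff_two_pow.2 (by decide))
    (lt_iff_two_pow.2 (by decide)) rfl (fun i hi => ?_) (fun i hi => ?_) (by decide)
    (fun u hu w hw hw' ha => ⟨1, rfl, ?_⟩) (fun u hu i hi ha => ?_) (top_noncub hX h)
  · have := top_lt (n := 3) (by decide) hi
    obtain rfl | rfl | rfl : i = 0 ∨ i = 1 ∨ i = 2 := by omega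
    · rw [g0]
      exact h.hx
    · exact absurd hi (by decide)
    · rw [g2]
      exact h.hy
  · rw [hR i hi, g1]
    exact h.hr'
  · rcases h.all u hu w hw hw' ha with e | e <;> rw [g1, e.2]
  · obtain rfl := hR i hi
    rw [g1] at ha
    rcases h.all u hu r h.hr h.hr' ha with e | e
    · exact ⟨0, show tb (row (topB 1) 1) 0 = true from rfl, g0.trans e.1.symm⟩
    · exact ⟨2, show tb (row (topB 1) 1) 2 = true from rfl, g2.trans e.1.symm⟩

theorem top_cutB {d e : ℕ} (hm : MC G S M) (hM : NoMark S M) (hX : X ⊆ S) (hne : X ≠ S)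
    (hc : Conn G X) (hval : 0 < val G X ∅) (h : TopCut G S X x y r s) (hrs : r ≠ s)
    (hd : deg G S r = d) (h1 : 1 ≤ d) (h3 : d ≤ 3) (he : deg G S s = e) (h1' : 1 ≤ e)
    (h3' : e ≤ 3) : ∃ g, Valid G S M (cutB d e) g := by
  obtain ⟨g', a0, a1, a2, V⟩ := top_start hM hX h hd h1 h3
  obtain ⟨g, b1, g3, V1⟩ := top_newV (n := 3) V rfl (by decide) h.hs (fun i hi => by
    obtain rfl | rfl | rfl : i = 0 ∨ i = 1 ∨ i = 2 := by omega
    · rw [a0]
      rintro rfl
      exact h.hs' h.hx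
    · rw [a1]
      exact hrs
    · rw [a2]
      exact h.as.ne) he h1' h3' (hM _ h.hs)
  have g0 : g 0 = x := (b1 0 (by decide)).trans a0
  have g1 : g 1 = r := (b1 1 (by decide)).trans a1
  have g2 : g 2 = y := (b1 2 (by decide)).trans a2
  have V' := valid_addEdge (a := 2) (b := 3) V1 (Nat.le_succ 3) (Nat.lt_succ_self 3)
    (by rw [g2, g3]; exact h.as) (show tb (row topA 2) 3 = false from rfl)
  have hR : ∀ i, tb 10 i = true → i = 1 ∨ i = 3 := fun i hi => by
    have := top_lt (n := 4) (by decide) hi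
    obtain rfl | rfl | rfl | rfl : i = 0 ∨ i = 1 ∨ i = 2 ∨ i = 3 := by omega
    · exact absurd hi (by decide)
    · exact Or.inl rfl
    · exact absurd hi (by decide)
    · exact Or.inr rfl
  refine ⟨g, valid_setBl V' fun B hB => ?_⟩
  rw [List.mem_singleton.1 hB]
  refine top_blob (n := 4) hm hM hX hne hc hval (by decide) (lt_iff_two_pow.2 (by decide))
    (lt_iff_two_pow.2 (by decide)) rfl (fun i hi => ?_) (fun i hi => ?_) (by decide)
    (fun u hu w hw hw' ha => ?_) (fun u hu i hi ha => ?_) (top_noncub hX h)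
  · have := top_lt (n := 3) (by decide) hi
    obtain rfl | rfl | rfl : i = 0 ∨ i = 1 ∨ i = 2 := by omega
    · rw [g0]
      exact h.hx
    · exact absurd hi (by decide)
    · rw [g2]
      exact h.hy
  · rcases hR i hi with rfl | rfl
    · rw [g1]
      exact h.hr'
    · rw [g3]
      exact h.hs'
  · rcases h.all u hu w hw hw' ha with e | e
    · exact ⟨1, rfl, g1.trans e.2.symm⟩
    · exact ⟨3, rfl, g3.trans e.2.symm⟩
  · rcases hR i hi with rfl | rfl
    · rw [g1] at ha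
      rcases h.all u hu r h.hr h.hr' ha with e | e
      · exact ⟨0, show tb (row (topB 3) 1) 0 = true from rfl, g0.trans e.1.symm⟩
      · exact absurd e.2 hrs
    · rw [g3] at ha
      rcases h.all u hu s h.hs h.hs' ha with e | e
      · exact absurd e.2.symm hrs
      · exact ⟨2, show tb (row (topB 3) 3) 2 = true from rfl, g2.trans e.1.symm⟩

theorem ja_two (h : TyA ty) (hd : dj ty 98 = true) (hΓ : OK Γ) (a2 : Ref Γ (cutA 2))
    (a3 : Ref Γ (cutA 3)) (b22 : Ref Γ (cutB 2 2)) (b23 : Ref Γ (cutB 2 3))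
    (b33 : Ref Γ (cutB 3 3)) : JA 2 := by
  intro G S M hm
  obtain ⟨hM, hl⟩ := top_noleaf h hd hm
  have hb := no_bridge hm hM hl
  have hg := hΓ G S M hm
  refine ⟨fun _ => hb, fun _ => ⟨fun X hX hne hS hc h2 hdeg => ?_, hl⟩⟩
  by_contra hv
  have hval : 0 < val G X ∅ := not_le.1 hv
  obtain ⟨x, y, r, s, hT⟩ := top_cut hX (fun v hv => (hm.good v hv).1) hdeg
    (le_antisymm h2 (hb X hX hne hS))
  have dr : deg G S r = 2 ∨ deg G S r = 3 := by
    have e1 := hl r hT.hr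
    have e2 := (hm.good r hT.hr).1
    omega
  have ds : deg G S s = 2 ∨ deg G S s = 3 := by
    have e1 := hl s hT.hs
    have e2 := (hm.good s hT.hs).1
    omega
  by_cases hrs : r = s
  · subst hrs
    rcases dr with dr | dr
    · obtain ⟨g, V⟩ := top_cutA hm hM hX hS hc hval hT dr (by decide) (by decide)
      exact a2 G S M hm hg g V
    · obtain ⟨g, V⟩ := top_cutA hm hM hX hS hc hval hT dr (by decide) (by decide)
      exact a3 G S M hm hg g V
  · rcases dr with dr | dr <;> rcases ds with ds | ds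
    · obtain ⟨g, V⟩ := top_cutB hm hM hX hS hc hval hT hrs dr (by decide) (by decide) ds
        (by decide) (by decide)
      exact b22 G S M hm hg g V
    · obtain ⟨g, V⟩ := top_cutB hm hM hX hS hc hval hT hrs dr (by decide) (by decide) ds
        (by decide) (by decide)
      exact b23 G S M hm hg g V
    · obtain ⟨g, V⟩ := top_cutB hm hM hX hS hc hval hT.symm (Ne.symm hrs) ds (by decide)
        (by decide) dr (by decide) (by decide)
      exact b23 G S M hm hg g V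
    · obtain ⟨g, V⟩ := top_cutB hm hM hX hS hc hval hT hrs dr (by decide) (by decide) ds
        (by decide) (by decide)
      exact b33 G S M hm hg g V
theorem final_of_ty (h : TyA 8) : IsGLB {c : ℝ | Works c} (7 / 20) := by
  refine isGLB_of_claim (claim_of_no_mc fun G S M hm => ?_)
  obtain ⟨v, hv, hd⟩ := hm.noncub
  have h1 := (tb_bit (i := 3)).1 (h G S M hm v hv)
  revert h1
  cases decide (v ∈ M) <;> simp only [cond_true, cond_false, Nat.add_eq] <;> omega

end Pool.Agent.Lib.MP_5a2675_co.D7
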