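import Mathlib
import Pool.Agent.Lib.MP_5a2675_co.D7.Run
import Pool.Agent.Lib.MP_5a2675_co.D7.Top

set_option autoImplicit false

namespace Pool.Agent.Lib.MP_5a2675_co.D7

variable {Γ : Gam} {C : Cfg} {ext : List Cfg} {toks : List ℕ} {P : Pat} {T : PT}
  {ty j t a : ℕ} {nok nop mk : Bool}

/-- the configuration occurs in no minimal counterexample -/
def RefU (C : Cfg) : Prop := ∀ G S M, MC G S M → ∀ f, ¬ Valid G S M C f
def AllU (l : List Cfg) : Prop := ∀ C ∈ l, RefU C

theorem au_nil : AllU [] := fun _ h => absurd h List.not_mem_nil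
theorem au_cons (h : RefU C) (he : AllU ext) : AllU (C :: ext) := by
  intro D hD
  rcases List.mem_cons.mp hD with rfl | hD
  · exact h
  · exact he D hD
theorem au_ref (he : AllU ext) : AllRef Γ ext := fun C hC G S M hm _ => he C hC G S M hm

theorem run_u (h : run Γ ext toks [C] = true) (hΓ : OK Γ) (he : AllU ext) : RefU C :=
  fun G S M hm => run_one (au_ref he) h G S M hm (hΓ G S M hm)

theorem ne_u (h : (patOK P && run Γ ext toks (rootKids Γ.ty P)) = true) (hΓ : OK Γ)
    (he : AllU ext) : NE P := ne_of_run hΓ (au_ref he) h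

/-- the facts of a stage -/
def St (ty j : ℕ) (nok nop : Bool) (t : ℕ) : Prop :=
  TyA ty ∧ JA j ∧ (nok = true → NE Pa ∧ NE Pb ∧ NE Pe) ∧ (nop = true → NE PP) ∧ TgA t

theorem ok_st (h : St ty j nok nop t) (h6 : NET T) : OK ⟨ty, j, nok, nop, t, T⟩ :=
  ok_mk h.1 h.2.1 h.2.2.1 h.2.2.2.1 h.2.2.2.2 h6

theorem net0 : NET (PT.leaf P0) := net_leaf ne_P0
theorem nf {p : Prop} : false = true → p := fun h => absurd h (by decide)
theorem nt {p : Prop} (h : p) : true = true → p := fun _ => h
theorem ok0 : OK ⟨110, 0, false, false, 0, PT.leaf P0⟩ :=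
  ok_mk ty_start ja_zero nf nf tg_zero net0

theorem ty78 (h : RefU (newV empty 1 true)) : TyA 78 :=
  ty_remove (a := 1) (mk := true) ty_start ok0 (by decide) (by decide)
    fun G S M hm _ => h G S M hm
theorem ty14 (h0 : TyA 78) (h : RefU (newV empty 2 true)) : TyA 14 :=
  ty_remove (a := 2) (mk := true) h0 ok0 (by decide) (by decide) fun G S M hm _ => h G S M hm
theorem ty12 (h0 : TyA 14) (h : RefU (newV empty 1 false)) : TyA 12 :=
  ty_remove (a := 1) (mk := false) h0 ok0 (by decide) (by decide) fun G S M hm _ => h G S M hm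
theorem ty8 (h0 : TyA 12) (h : RefU (newV empty 2 false)) : TyA 8 :=
  ty_remove (a := 2) (mk := false) h0 ok0 (by decide) (by decide) fun G S M hm _ => h G S M hm
theorem tg14 (h : TyA 14) : TgA 2 := tg_two h (by decide)
theorem ja1u (h : TyA 12) : JA 1 := ja_one h (by decide)
theorem ja2u (h : TyA 12) (a2 : RefU (cutA 2)) (a3 : RefU (cutA 3)) (b22 : RefU (cutB 2 2))
    (b23 : RefU (cutB 2 3)) (b33 : RefU (cutB 3 3)) : JA 2 :=
  ja_two h (by decide) ok0 (fun G S M hm _ => a2 G S M hm) (fun G S M hm _ => a3 G S M hm)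
    (fun G S M hm _ => b22 G S M hm) (fun G S M hm _ => b23 G S M hm)
    (fun G S M hm _ => b33 G S M hm)

end Pool.Agent.Lib.MP_5a2675_co.D7
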