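import Mathlib
import Pool.Agent.Lib.MP_5a2675_co.D7.Glue
import Pool.Agent.Lib.MP_5a2675_co.D7.KH0
import Pool.Agent.Lib.MP_5a2675_co.D7.KH1
import Pool.Agent.Lib.MP_5a2675_co.D7.KH10
import Pool.Agent.Lib.MP_5a2675_co.D7.KH11
import Pool.Agent.Lib.MP_5a2675_co.D7.KH12
import Pool.Agent.Lib.MP_5a2675_co.D7.KH13
import Pool.Agent.Lib.MP_5a2675_co.D7.KH14
import Pool.Agent.Lib.MP_5a2675_co.D7.KH15
import Pool.Agent.Lib.MP_5a2675_co.D7.KH16
import Pool.Agent.Lib.MP_5a2675_co.D7.KH17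
import Pool.Agent.Lib.MP_5a2675_co.D7.KH18
import Pool.Agent.Lib.MP_5a2675_co.D7.KH19
import Pool.Agent.Lib.MP_5a2675_co.D7.KH2
import Pool.Agent.Lib.MP_5a2675_co.D7.KH20
import Pool.Agent.Lib.MP_5a2675_co.D7.KH3
import Pool.Agent.Lib.MP_5a2675_co.D7.KH4
import Pool.Agent.Lib.MP_5a2675_co.D7.KH5
import Pool.Agent.Lib.MP_5a2675_co.D7.KH6
import Pool.Agent.Lib.MP_5a2675_co.D7.KH7
import Pool.Agent.Lib.MP_5a2675_co.D7.KH8
import Pool.Agent.Lib.MP_5a2675_co.D7.KH9

set_option autoImplicit false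
set_option maxRecDepth 100000

namespace Pool.Agent.Lib.MP_5a2675_co.D7

theorem st_110_0_0_0_0 : St 110 0 false false 0 :=
  ⟨ty_start, ja_zero, nf, nf, tg_zero⟩
theorem u_V1m : RefU (newV empty 1 true) := run_u k_u_V1m (ok_st st_110_0_0_0_0 net0) au_nil
theorem st_78_0_0_0_0 : St 78 0 false false 0 :=
  ⟨(ty78 u_V1m), ja_zero, nf, nf, tg_zero⟩
theorem u_4eee3ff3fb5400d9 : RefU (c_4eee3ff3fb5400d9) := run_u k_u_4eee3ff3fb5400d9 (ok_st st_78_0_0_0_0 net0) au_nil
theorem u_a7947b1a983629d0 : RefU (c_a7947b1a983629d0) := run_u k_u_a7947b1a983629d0 (ok_st st_78_0_0_0_0 net0) au_nil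
theorem u_d8860576e2aa8214 : RefU (c_d8860576e2aa8214) := run_u k_u_d8860576e2aa8214 (ok_st st_78_0_0_0_0 net0) au_nil
theorem u_6e35bd52437a0a85 : RefU (c_6e35bd52437a0a85) := run_u k_u_6e35bd52437a0a85 (ok_st st_78_0_0_0_0 net0) au_nil
theorem u_7459c322c1437054 : RefU (c_7459c322c1437054) := run_u k_u_7459c322c1437054 (ok_st st_78_0_0_0_0 net0) au_nil
theorem u_95fa8db3b92e869a : RefU (c_95fa8db3b92e869a) := run_u k_u_95fa8db3b92e869a (ok_st st_78_0_0_0_0 net0) (au_cons u_a7947b1a983629d0 (au_cons u_d8860576e2aa8214 (au_cons u_6e35bd52437a0a85 (au_cons u_7459c322c1437054 au_nil))))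
theorem u_V2m : RefU (newV empty 2 true) := run_u k_u_V2m (ok_st st_78_0_0_0_0 net0) (au_cons u_4eee3ff3fb5400d9 (au_cons u_95fa8db3b92e869a au_nil))
theorem st_14_0_0_0_2 : St 14 0 false false 2 :=
  ⟨(ty14 (ty78 u_V1m) u_V2m), ja_zero, nf, nf, tg14 (ty14 (ty78 u_V1m) u_V2m)⟩
theorem u_V1 : RefU (newV empty 1 false) := run_u k_u_V1 (ok_st st_14_0_0_0_2 net0) au_nil
theorem st_12_1_0_0_2 : St 12 1 false false 2 :=
  ⟨(ty12 (ty14 (ty78 u_V1m) u_V2m) u_V1), ja1u (ty12 (ty14 (ty78 u_V1m) u_V2m) u_V1), nf, nf, tg14 (ty14 (ty78 u_V1m) u_V2m)⟩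
theorem u_509b97404d04fd35 : RefU (c_509b97404d04fd35) := run_u k_u_509b97404d04fd35 (ok_st st_12_1_0_0_2 net0) au_nil
theorem u_781ec94135ec87c7 : RefU (c_781ec94135ec87c7) := run_u k_u_781ec94135ec87c7 (ok_st st_12_1_0_0_2 net0) au_nil
theorem u_d1514f360457c207 : RefU (c_d1514f360457c207) := run_u k_u_d1514f360457c207 (ok_st st_12_1_0_0_2 net0) au_nil
theorem u_6cdb1393a90a9427 : RefU (c_6cdb1393a90a9427) := run_u k_u_6cdb1393a90a9427 (ok_st st_12_1_0_0_2 net0) au_nil
theorem u_9033a5acd5daffd7 : RefU (c_9033a5acd5daffd7) := run_u k_u_9033a5acd5daffd7 (ok_st st_12_1_0_0_2 net0) au_nil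
theorem u_abf6df74b42f1f19 : RefU (c_abf6df74b42f1f19) := run_u k_u_abf6df74b42f1f19 (ok_st st_12_1_0_0_2 net0) au_nil
theorem u_e2fae81d8e4d3226 : RefU (c_e2fae81d8e4d3226) := run_u k_u_e2fae81d8e4d3226 (ok_st st_12_1_0_0_2 net0) au_nil
theorem u_bdd82c4b287da95d : RefU (c_bdd82c4b287da95d) := run_u k_u_bdd82c4b287da95d (ok_st st_12_1_0_0_2 net0) au_nil
theorem u_84750fb437899c08 : RefU (c_84750fb437899c08) := run_u k_u_84750fb437899c08 (ok_st st_12_1_0_0_2 net0) au_nil
theorem u_0351af482a0968b3 : RefU (c_0351af482a0968b3) := run_u k_u_0351af482a0968b3 (ok_st st_12_1_0_0_2 net0) au_nil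
theorem u_e9d33df82bcd2688 : RefU (c_e9d33df82bcd2688) := run_u k_u_e9d33df82bcd2688 (ok_st st_12_1_0_0_2 net0) au_nil
theorem u_e9a154d496fce70b : RefU (c_e9a154d496fce70b) := run_u k_u_e9a154d496fce70b (ok_st st_12_1_0_0_2 net0) au_nil
theorem u_13510100a23e8cd2 : RefU (c_13510100a23e8cd2) := run_u k_u_13510100a23e8cd2 (ok_st st_12_1_0_0_2 net0) au_nil
theorem u_0c622eb7a500cbe0 : RefU (c_0c622eb7a500cbe0) := run_u k_u_0c622eb7a500cbe0 (ok_st st_12_1_0_0_2 net0) au_nil
theorem u_94111895411ee302 : RefU (c_94111895411ee302) := run_u k_u_94111895411ee302 (ok_st st_12_1_0_0_2 net0) au_nil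
theorem u_ce50185f4f921ded : RefU (c_ce50185f4f921ded) := run_u k_u_ce50185f4f921ded (ok_st st_12_1_0_0_2 net0) au_nil
theorem u_278f824ebcb99a39 : RefU (c_278f824ebcb99a39) := run_u k_u_278f824ebcb99a39 (ok_st st_12_1_0_0_2 net0) au_nil
theorem u_d206dea684a34568 : RefU (c_d206dea684a34568) := run_u k_u_d206dea684a34568 (ok_st st_12_1_0_0_2 net0) au_nil
theorem u_a7cd9eb64f9ea8b4 : RefU (c_a7cd9eb64f9ea8b4) := run_u k_u_a7cd9eb64f9ea8b4 (ok_st st_12_1_0_0_2 net0) au_nil
theorem u_cb94f20910a13278 : RefU (c_cb94f20910a13278) := run_u k_u_cb94f20910a13278 (ok_st st_12_1_0_0_2 net0) au_nil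
theorem u_8ff3fcb5b9af5228 : RefU (c_8ff3fcb5b9af5228) := run_u k_u_8ff3fcb5b9af5228 (ok_st st_12_1_0_0_2 net0) au_nil
theorem u_6768f12496b44218 : RefU (c_6768f12496b44218) := run_u k_u_6768f12496b44218 (ok_st st_12_1_0_0_2 net0) au_nil
theorem u_e0b01051b67f5538 : RefU (c_e0b01051b67f5538) := run_u k_u_e0b01051b67f5538 (ok_st st_12_1_0_0_2 net0) au_nil
theorem u_be7ba526c70475f8 : RefU (c_be7ba526c70475f8) := run_u k_u_be7ba526c70475f8 (ok_st st_12_1_0_0_2 net0) au_nil
theorem u_3be5ecc0d93ab8f4 : RefU (c_3be5ecc0d93ab8f4) := run_u k_u_3be5ecc0d93ab8f4 (ok_st st_12_1_0_0_2 net0) au_nil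
theorem u_7c413827d9a2857e : RefU (c_7c413827d9a2857e) := run_u k_u_7c413827d9a2857e (ok_st st_12_1_0_0_2 net0) au_nil
theorem u_660cb9790110c6d2 : RefU (c_660cb9790110c6d2) := run_u k_u_660cb9790110c6d2 (ok_st st_12_1_0_0_2 net0) au_nil
theorem u_9d9e61eca71895f8 : RefU (c_9d9e61eca71895f8) := run_u k_u_9d9e61eca71895f8 (ok_st st_12_1_0_0_2 net0) au_nil
theorem u_03b5b141f73cb2c6 : RefU (c_03b5b141f73cb2c6) := run_u k_u_03b5b141f73cb2c6 (ok_st st_12_1_0_0_2 net0) au_nil
theorem u_2443688176da3019 : RefU (c_2443688176da3019) := run_u k_u_2443688176da3019 (ok_st st_12_1_0_0_2 net0) au_nil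
theorem u_09872f4663078443 : RefU (c_09872f4663078443) := run_u k_u_09872f4663078443 (ok_st st_12_1_0_0_2 net0) au_nil
theorem u_dca44aec3c6da378 : RefU (c_dca44aec3c6da378) := run_u k_u_dca44aec3c6da378 (ok_st st_12_1_0_0_2 net0) au_nil
theorem u_ca2214e7c98d886c : RefU (c_ca2214e7c98d886c) := run_u k_u_ca2214e7c98d886c (ok_st st_12_1_0_0_2 net0) au_nil
theorem u_9c4099421673a0bc : RefU (c_9c4099421673a0bc) := run_u k_u_9c4099421673a0bc (ok_st st_12_1_0_0_2 net0) au_nil
theorem u_8294f6221a6a68c0 : RefU (c_8294f6221a6a68c0) := run_u k_u_8294f6221a6a68c0 (ok_st st_12_1_0_0_2 net0) au_nil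
theorem u_96b7c1fe19eaad24 : RefU (c_96b7c1fe19eaad24) := run_u k_u_96b7c1fe19eaad24 (ok_st st_12_1_0_0_2 net0) au_nil
theorem u_6ac49b7faccf5d6d : RefU (c_6ac49b7faccf5d6d) := run_u k_u_6ac49b7faccf5d6d (ok_st st_12_1_0_0_2 net0) au_nil
theorem u_b0d966891b3a1829 : RefU (c_b0d966891b3a1829) := run_u k_u_b0d966891b3a1829 (ok_st st_12_1_0_0_2 net0) au_nil
theorem u_7021a69707c25dc7 : RefU (c_7021a69707c25dc7) := run_u k_u_7021a69707c25dc7 (ok_st st_12_1_0_0_2 net0) au_nil
theorem u_191582bb36c917ae : RefU (c_191582bb36c917ae) := run_u k_u_191582bb36c917ae (ok_st st_12_1_0_0_2 net0) au_nil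
theorem u_18f572d357edbb41 : RefU (c_18f572d357edbb41) := run_u k_u_18f572d357edbb41 (ok_st st_12_1_0_0_2 net0) au_nil
theorem u_10183cada11a8d78 : RefU (c_10183cada11a8d78) := run_u k_u_10183cada11a8d78 (ok_st st_12_1_0_0_2 net0) au_nil
theorem u_94d28c443db2805e : RefU (c_94d28c443db2805e) := run_u k_u_94d28c443db2805e (ok_st st_12_1_0_0_2 net0) au_nil
theorem u_d2140016c0e0e472 : RefU (c_d2140016c0e0e472) := run_u k_u_d2140016c0e0e472 (ok_st st_12_1_0_0_2 net0) au_nil
theorem u_b9aa96a3b63dc5e8 : RefU (c_b9aa96a3b63dc5e8) := run_u k_u_b9aa96a3b63dc5e8 (ok_st st_12_1_0_0_2 net0) au_nil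
theorem u_16e55406d5014f6f : RefU (c_16e55406d5014f6f) := run_u k_u_16e55406d5014f6f (ok_st st_12_1_0_0_2 net0) au_nil
theorem u_35ea21d112742161 : RefU (c_35ea21d112742161) := run_u k_u_35ea21d112742161 (ok_st st_12_1_0_0_2 net0) au_nil
theorem u_deb65db4dad858b1 : RefU (c_deb65db4dad858b1) := run_u k_u_deb65db4dad858b1 (ok_st st_12_1_0_0_2 net0) au_nil
theorem u_1bb6d939ceda5d30 : RefU (c_1bb6d939ceda5d30) := run_u k_u_1bb6d939ceda5d30 (ok_st st_12_1_0_0_2 net0) au_nil
theorem u_0ee431ba320b75e9 : RefU (c_0ee431ba320b75e9) := run_u k_u_0ee431ba320b75e9 (ok_st st_12_1_0_0_2 net0) au_nil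
theorem u_0e84b8c8907a48fd : RefU (c_0e84b8c8907a48fd) := run_u k_u_0e84b8c8907a48fd (ok_st st_12_1_0_0_2 net0) au_nil
theorem u_88292c6200a19451 : RefU (c_88292c6200a19451) := run_u k_u_88292c6200a19451 (ok_st st_12_1_0_0_2 net0) au_nil
theorem u_c1321ae3e9936a68 : RefU (c_c1321ae3e9936a68) := run_u k_u_c1321ae3e9936a68 (ok_st st_12_1_0_0_2 net0) au_nil
theorem u_7e747c0acf09a939 : RefU (c_7e747c0acf09a939) := run_u k_u_7e747c0acf09a939 (ok_st st_12_1_0_0_2 net0) au_nil
theorem u_89e628a60549ab16 : RefU (c_89e628a60549ab16) := run_u k_u_89e628a60549ab16 (ok_st st_12_1_0_0_2 net0) au_nil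
theorem u_430336a4dfa7a225 : RefU (c_430336a4dfa7a225) := run_u k_u_430336a4dfa7a225 (ok_st st_12_1_0_0_2 net0) au_nil
theorem u_cd494277786e388a : RefU (c_cd494277786e388a) := run_u k_u_cd494277786e388a (ok_st st_12_1_0_0_2 net0) au_nil
theorem u_97f8e09f58a8cd71 : RefU (c_97f8e09f58a8cd71) := run_u k_u_97f8e09f58a8cd71 (ok_st st_12_1_0_0_2 net0) au_nil
theorem u_23da3c01c1de1975 : RefU (c_23da3c01c1de1975) := run_u k_u_23da3c01c1de1975 (ok_st st_12_1_0_0_2 net0) au_nil
theorem u_642e47c73e6112a4 : RefU (c_642e47c73e6112a4) := run_u k_u_642e47c73e6112a4 (ok_st st_12_1_0_0_2 net0) au_nil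
theorem u_f8ae052d610badbf : RefU (c_f8ae052d610badbf) := run_u k_u_f8ae052d610badbf (ok_st st_12_1_0_0_2 net0) au_nil
theorem u_4d08766c577e5780 : RefU (c_4d08766c577e5780) := run_u k_u_4d08766c577e5780 (ok_st st_12_1_0_0_2 net0) au_nil
theorem u_cf9bc394260cb674 : RefU (c_cf9bc394260cb674) := run_u k_u_cf9bc394260cb674 (ok_st st_12_1_0_0_2 net0) au_nil
theorem u_f55d45a22e434006 : RefU (c_f55d45a22e434006) := run_u k_u_f55d45a22e434006 (ok_st st_12_1_0_0_2 net0) au_nil
theorem u_0438bbcadc0b9b2e : RefU (c_0438bbcadc0b9b2e) := run_u k_u_0438bbcadc0b9b2e (ok_st st_12_1_0_0_2 net0) au_nil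
theorem u_85307c5be96b3f9e : RefU (c_85307c5be96b3f9e) := run_u k_u_85307c5be96b3f9e (ok_st st_12_1_0_0_2 net0) au_nil
theorem u_61f996c3e8005f9b : RefU (c_61f996c3e8005f9b) := run_u k_u_61f996c3e8005f9b (ok_st st_12_1_0_0_2 net0) au_nil
theorem u_55aa4f6e58804637 : RefU (c_55aa4f6e58804637) := run_u k_u_55aa4f6e58804637 (ok_st st_12_1_0_0_2 net0) au_nil
theorem u_b758560f4e7b1e39 : RefU (c_b758560f4e7b1e39) := run_u k_u_b758560f4e7b1e39 (ok_st st_12_1_0_0_2 net0) au_nil
theorem u_be6335d1887189ff : RefU (c_be6335d1887189ff) := run_u k_u_be6335d1887189ff (ok_st st_12_1_0_0_2 net0) au_nil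
theorem u_bef68b4cb4dde1d0 : RefU (c_bef68b4cb4dde1d0) := run_u k_u_bef68b4cb4dde1d0 (ok_st st_12_1_0_0_2 net0) au_nil
theorem u_b123128159e1a56e : RefU (c_b123128159e1a56e) := run_u k_u_b123128159e1a56e (ok_st st_12_1_0_0_2 net0) au_nil
theorem u_c219ff19d133a7f8 : RefU (c_c219ff19d133a7f8) := run_u k_u_c219ff19d133a7f8 (ok_st st_12_1_0_0_2 net0) au_nil
theorem u_26927cf8d76b1284 : RefU (c_26927cf8d76b1284) := run_u k_u_26927cf8d76b1284 (ok_st st_12_1_0_0_2 net0) au_nil
theorem u_34793c0f86c3dee5 : RefU (c_34793c0f86c3dee5) := run_u k_u_34793c0f86c3dee5 (ok_st st_12_1_0_0_2 net0) au_nil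
theorem u_0665b27c3397156d : RefU (c_0665b27c3397156d) := run_u k_u_0665b27c3397156d (ok_st st_12_1_0_0_2 net0) au_nil
theorem u_4c288dfb09a7b0b1 : RefU (c_4c288dfb09a7b0b1) := run_u k_u_4c288dfb09a7b0b1 (ok_st st_12_1_0_0_2 net0) au_nil
theorem u_edc219dd69dca682 : RefU (c_edc219dd69dca682) := run_u k_u_edc219dd69dca682 (ok_st st_12_1_0_0_2 net0) au_nil
theorem u_2afeb8b6fe0ea5fe : RefU (c_2afeb8b6fe0ea5fe) := run_u k_u_2afeb8b6fe0ea5fe (ok_st st_12_1_0_0_2 net0) au_nil
theorem u_25e5aa097200502c : RefU (c_25e5aa097200502c) := run_u k_u_25e5aa097200502c (ok_st st_12_1_0_0_2 net0) au_nil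
theorem u_2f7c59bdde7a1756 : RefU (c_2f7c59bdde7a1756) := run_u k_u_2f7c59bdde7a1756 (ok_st st_12_1_0_0_2 net0) au_nil
theorem u_10d625af5d40ff01 : RefU (c_10d625af5d40ff01) := run_u k_u_10d625af5d40ff01 (ok_st st_12_1_0_0_2 net0) au_nil
theorem u_f5a4b9d7f32c42c8 : RefU (c_f5a4b9d7f32c42c8) := run_u k_u_f5a4b9d7f32c42c8 (ok_st st_12_1_0_0_2 net0) au_nil
theorem u_3136fdee6892a722 : RefU (c_3136fdee6892a722) := run_u k_u_3136fdee6892a722 (ok_st st_12_1_0_0_2 net0) au_nil
theorem u_43d7b756042a5e96 : RefU (c_43d7b756042a5e96) := run_u k_u_43d7b756042a5e96 (ok_st st_12_1_0_0_2 net0) au_nil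
theorem u_1e49fa7f267b4274 : RefU (c_1e49fa7f267b4274) := run_u k_u_1e49fa7f267b4274 (ok_st st_12_1_0_0_2 net0) au_nil
theorem u_0856d12f8b99084f : RefU (c_0856d12f8b99084f) := run_u k_u_0856d12f8b99084f (ok_st st_12_1_0_0_2 net0) au_nil
theorem u_8e2eecc90af7174e : RefU (c_8e2eecc90af7174e) := run_u k_u_8e2eecc90af7174e (ok_st st_12_1_0_0_2 net0) au_nil
theorem u_63c1ed4dcd8a81de : RefU (c_63c1ed4dcd8a81de) := run_u k_u_63c1ed4dcd8a81de (ok_st st_12_1_0_0_2 net0) au_nil
theorem u_1dc76a6cf58fbd32 : RefU (c_1dc76a6cf58fbd32) := run_u k_u_1dc76a6cf58fbd32 (ok_st st_12_1_0_0_2 net0) au_nil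
theorem u_eb6f3a6382e4554d : RefU (c_eb6f3a6382e4554d) := run_u k_u_eb6f3a6382e4554d (ok_st st_12_1_0_0_2 net0) au_nil
theorem u_6f39099f9e0dbadc : RefU (c_6f39099f9e0dbadc) := run_u k_u_6f39099f9e0dbadc (ok_st st_12_1_0_0_2 net0) au_nil
theorem u_d2a5714886ce5228 : RefU (c_d2a5714886ce5228) := run_u k_u_d2a5714886ce5228 (ok_st st_12_1_0_0_2 net0) au_nil
theorem u_9377f91c940d4eca : RefU (c_9377f91c940d4eca) := run_u k_u_9377f91c940d4eca (ok_st st_12_1_0_0_2 net0) au_nil
theorem u_2150f9c524eddac1 : RefU (c_2150f9c524eddac1) := run_u k_u_2150f9c524eddac1 (ok_st st_12_1_0_0_2 net0) au_nil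
theorem u_5fa7df5246668f69 : RefU (c_5fa7df5246668f69) := run_u k_u_5fa7df5246668f69 (ok_st st_12_1_0_0_2 net0) au_nil
theorem u_2ed3cf5005d58ced : RefU (c_2ed3cf5005d58ced) := run_u k_u_2ed3cf5005d58ced (ok_st st_12_1_0_0_2 net0) au_nil
theorem u_af6d696e818608cb : RefU (c_af6d696e818608cb) := run_u k_u_af6d696e818608cb (ok_st st_12_1_0_0_2 net0) au_nil
theorem n_T3 : NE T3 := ne_u k_n_T3 (ok_st st_12_1_0_0_2 net0) au_nil
theorem u_7281db9699a0d150 : RefU (c_7281db9699a0d150) := run_u k_u_7281db9699a0d150 (ok_st st_12_1_0_0_2 net0) au_nil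
theorem u_f81bd2f076b4d150 : RefU (c_f81bd2f076b4d150) := run_u k_u_f81bd2f076b4d150 (ok_st st_12_1_0_0_2 net0) au_nil
theorem u_44ef94ac599475ae : RefU (c_44ef94ac599475ae) := run_u k_u_44ef94ac599475ae (ok_st st_12_1_0_0_2 net0) au_nil
theorem u_ebe623bf1cd70ca3 : RefU (c_ebe623bf1cd70ca3) := run_u k_u_ebe623bf1cd70ca3 (ok_st st_12_1_0_0_2 net0) au_nil
theorem u_273b1a6ad4dd0023 : RefU (c_273b1a6ad4dd0023) := run_u k_u_273b1a6ad4dd0023 (ok_st st_12_1_0_0_2 net0) au_nil
theorem u_ded18624eb7fd027 : RefU (c_ded18624eb7fd027) := run_u k_u_ded18624eb7fd027 (ok_st st_12_1_0_0_2 net0) au_nil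
theorem u_9527944a178b5c11 : RefU (c_9527944a178b5c11) := run_u k_u_9527944a178b5c11 (ok_st st_12_1_0_0_2 net0) au_nil
theorem u_c3c06f0b417bb391 : RefU (c_c3c06f0b417bb391) := run_u k_u_c3c06f0b417bb391 (ok_st st_12_1_0_0_2 net0) au_nil
theorem u_51aa0e64116461af : RefU (c_51aa0e64116461af) := run_u k_u_51aa0e64116461af (ok_st st_12_1_0_0_2 net0) au_nil
theorem u_8b8095eefa46616b : RefU (c_8b8095eefa46616b) := run_u k_u_8b8095eefa46616b (ok_st st_12_1_0_0_2 net0) au_nil
theorem u_c5dbdb6519da57c0 : RefU (c_c5dbdb6519da57c0) := run_u k_u_c5dbdb6519da57c0 (ok_st st_12_1_0_0_2 net0) au_nil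
theorem u_d7b46f8253131180 : RefU (c_d7b46f8253131180) := run_u k_u_d7b46f8253131180 (ok_st st_12_1_0_0_2 net0) au_nil
theorem u_77a6fe3a6dedd5fc : RefU (c_77a6fe3a6dedd5fc) := run_u k_u_77a6fe3a6dedd5fc (ok_st st_12_1_0_0_2 net0) au_nil
theorem u_a6bf03b5087f9fb3 : RefU (c_a6bf03b5087f9fb3) := run_u k_u_a6bf03b5087f9fb3 (ok_st st_12_1_0_0_2 net0) au_nil
theorem u_aeabd83a2b128dcf : RefU (c_aeabd83a2b128dcf) := run_u k_u_aeabd83a2b128dcf (ok_st st_12_1_0_0_2 net0) au_nil
theorem u_c1453be9a02ac2d1 : RefU (c_c1453be9a02ac2d1) := run_u k_u_c1453be9a02ac2d1 (ok_st st_12_1_0_0_2 net0) au_nil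
theorem u_11f7b547837d1197 : RefU (c_11f7b547837d1197) := run_u k_u_11f7b547837d1197 (ok_st st_12_1_0_0_2 net0) au_nil
theorem u_681c5f42fb4eaa20 : RefU (c_681c5f42fb4eaa20) := run_u k_u_681c5f42fb4eaa20 (ok_st st_12_1_0_0_2 net0) au_nil
theorem u_fcdab4eec2645d87 : RefU (c_fcdab4eec2645d87) := run_u k_u_fcdab4eec2645d87 (ok_st st_12_1_0_0_2 net0) au_nil
theorem u_34fa81032f365116 : RefU (c_34fa81032f365116) := run_u k_u_34fa81032f365116 (ok_st st_12_1_0_0_2 net0) au_nil
theorem u_7ece5a1c7a862a35 : RefU (c_7ece5a1c7a862a35) := run_u k_u_7ece5a1c7a862a35 (ok_st st_12_1_0_0_2 net0) au_nil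
theorem u_6c7688b170cdc424 : RefU (c_6c7688b170cdc424) := run_u k_u_6c7688b170cdc424 (ok_st st_12_1_0_0_2 net0) au_nil
theorem u_805f4a7c4b35c6ea : RefU (c_805f4a7c4b35c6ea) := run_u k_u_805f4a7c4b35c6ea (ok_st st_12_1_0_0_2 net0) (au_cons u_bdd82c4b287da95d au_nil)
theorem u_f86015a99c60c51c : RefU (c_f86015a99c60c51c) := run_u k_u_f86015a99c60c51c (ok_st st_12_1_0_0_2 net0) (au_cons u_bdd82c4b287da95d au_nil)
theorem u_efdc7cb6ad798273 : RefU (c_efdc7cb6ad798273) := run_u k_u_efdc7cb6ad798273 (ok_st st_12_1_0_0_2 net0) (au_cons u_0c622eb7a500cbe0 au_nil)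
theorem u_993cdacfff7249c0 : RefU (c_993cdacfff7249c0) := run_u k_u_993cdacfff7249c0 (ok_st st_12_1_0_0_2 net0) (au_cons u_8ff3fcb5b9af5228 (au_cons u_94111895411ee302 (au_cons u_ce50185f4f921ded (au_cons u_278f824ebcb99a39 (au_cons u_d206dea684a34568 (au_cons u_a7cd9eb64f9ea8b4 (au_cons u_cb94f20910a13278 au_nil)))))))
theorem u_aa8b488a7d6a4dbb : RefU (c_aa8b488a7d6a4dbb) := run_u k_u_aa8b488a7d6a4dbb (ok_st st_12_1_0_0_2 net0) (au_cons u_3be5ecc0d93ab8f4 (au_cons u_7c413827d9a2857e (au_cons u_660cb9790110c6d2 (au_cons u_9d9e61eca71895f8 (au_cons u_03b5b141f73cb2c6 au_nil)))))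
theorem u_263fa1eed1d9290a : RefU (c_263fa1eed1d9290a) := run_u k_u_263fa1eed1d9290a (ok_st st_12_1_0_0_2 net0) (au_cons u_09872f4663078443 (au_cons u_dca44aec3c6da378 (au_cons u_ca2214e7c98d886c (au_cons u_9c4099421673a0bc au_nil))))
theorem u_ccd9a1e41e5623cd : RefU (c_ccd9a1e41e5623cd) := run_u k_u_ccd9a1e41e5623cd (ok_st st_12_1_0_0_2 net0) (au_cons u_7021a69707c25dc7 au_nil)
theorem u_a17f76bd21a2d819 : RefU (c_a17f76bd21a2d819) := run_u k_u_a17f76bd21a2d819 (ok_st st_12_1_0_0_2 net0) (au_cons u_10183cada11a8d78 (au_cons u_94d28c443db2805e au_nil))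
theorem u_130c25eaf792c605 : RefU (c_130c25eaf792c605) := run_u k_u_130c25eaf792c605 (ok_st st_12_1_0_0_2 net0) (au_cons u_d2140016c0e0e472 (au_cons u_b9aa96a3b63dc5e8 (au_cons u_16e55406d5014f6f (au_cons u_35ea21d112742161 (au_cons u_deb65db4dad858b1 (au_cons u_1bb6d939ceda5d30 (au_cons u_0ee431ba320b75e9 (au_cons u_0e84b8c8907a48fd (au_cons u_88292c6200a19451 (au_cons u_c1321ae3e9936a68 au_nil))))))))))
theorem u_33644937c743142a : RefU (c_33644937c743142a) := run_u k_u_33644937c743142a (ok_st st_12_1_0_0_2 net0) (au_cons u_7e747c0acf09a939 (au_cons u_89e628a60549ab16 au_nil))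
theorem u_106335f4ac1b79f0 : RefU (c_106335f4ac1b79f0) := run_u k_u_106335f4ac1b79f0 (ok_st st_12_1_0_0_2 net0) (au_cons u_23da3c01c1de1975 au_nil)
theorem u_089ecfd78f34f0d2 : RefU (c_089ecfd78f34f0d2) := run_u k_u_089ecfd78f34f0d2 (ok_st st_12_1_0_0_2 net0) (au_cons u_f8ae052d610badbf (au_cons u_4d08766c577e5780 (au_cons u_cf9bc394260cb674 au_nil)))
theorem u_475eed9f75228c8b : RefU (c_475eed9f75228c8b) := run_u k_u_475eed9f75228c8b (ok_st st_12_1_0_0_2 net0) (au_cons u_0438bbcadc0b9b2e au_nil)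
theorem u_6a11b5c133f25262 : RefU (c_6a11b5c133f25262) := run_u k_u_6a11b5c133f25262 (ok_st st_12_1_0_0_2 net0) (au_cons u_85307c5be96b3f9e au_nil)
theorem u_b347ac268f2afc7a : RefU (c_b347ac268f2afc7a) := run_u k_u_b347ac268f2afc7a (ok_st st_12_1_0_0_2 net0) (au_cons u_61f996c3e8005f9b (au_cons u_55aa4f6e58804637 (au_cons u_b758560f4e7b1e39 au_nil)))
theorem u_a78c6e9d2be1af4f : RefU (c_a78c6e9d2be1af4f) := run_u k_u_a78c6e9d2be1af4f (ok_st st_12_1_0_0_2 net0) (au_cons u_bef68b4cb4dde1d0 au_nil)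
theorem u_1abc5d9a3709bf11 : RefU (c_1abc5d9a3709bf11) := run_u k_u_1abc5d9a3709bf11 (ok_st st_12_1_0_0_2 net0) (au_cons u_26927cf8d76b1284 (au_cons u_34793c0f86c3dee5 au_nil))
theorem u_c5f8df14de2abcfe : RefU (c_c5f8df14de2abcfe) := run_u k_u_c5f8df14de2abcfe (ok_st st_12_1_0_0_2 net0) (au_cons u_0665b27c3397156d (au_cons u_4c288dfb09a7b0b1 (au_cons u_edc219dd69dca682 au_nil)))
theorem u_b5bf70fd5e78a2ce : RefU (c_b5bf70fd5e78a2ce) := run_u k_u_b5bf70fd5e78a2ce (ok_st st_12_1_0_0_2 net0) (au_cons u_2f7c59bdde7a1756 au_nil)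
theorem u_fbaa6c50c790280a : RefU (c_fbaa6c50c790280a) := run_u k_u_fbaa6c50c790280a (ok_st st_12_1_0_0_2 net0) (au_cons u_10d625af5d40ff01 au_nil)
theorem u_1db0dd601e7cf568 : RefU (c_1db0dd601e7cf568) := run_u k_u_1db0dd601e7cf568 (ok_st st_12_1_0_0_2 net0) (au_cons u_f5a4b9d7f32c42c8 au_nil)
theorem u_2cd4cdf87b66d997 : RefU (c_2cd4cdf87b66d997) := run_u k_u_2cd4cdf87b66d997 (ok_st st_12_1_0_0_2 net0) (au_cons u_f5a4b9d7f32c42c8 au_nil)
theorem u_d927f326b0edf07a : RefU (c_d927f326b0edf07a) := run_u k_u_d927f326b0edf07a (ok_st st_12_1_0_0_2 net0) (au_cons u_10d625af5d40ff01 (au_cons u_3136fdee6892a722 au_nil))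
theorem u_04deffa805f60756 : RefU (c_04deffa805f60756) := run_u k_u_04deffa805f60756 (ok_st st_12_1_0_0_2 net0) (au_cons u_8e2eecc90af7174e au_nil)
theorem u_4ba015ed8274e95e : RefU (c_4ba015ed8274e95e) := run_u k_u_4ba015ed8274e95e (ok_st st_12_1_0_0_2 net0) (au_cons u_1dc76a6cf58fbd32 (au_cons u_d2a5714886ce5228 au_nil))
theorem u_d9186ac7a359312a : RefU (c_d9186ac7a359312a) := run_u k_u_d9186ac7a359312a (ok_st st_12_1_0_0_2 net0) (au_cons u_51aa0e64116461af au_nil)
theorem u_b20712423dc6a508 : RefU (c_b20712423dc6a508) := run_u k_u_b20712423dc6a508 (ok_st st_12_1_0_0_2 net0) (au_cons u_11f7b547837d1197 (au_cons u_c1453be9a02ac2d1 au_nil))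
theorem u_5b7b89e23b5d0006 : RefU (c_5b7b89e23b5d0006) := run_u k_u_5b7b89e23b5d0006 (ok_st st_12_1_0_0_2 net0) (au_cons u_e9a154d496fce70b (au_cons u_efdc7cb6ad798273 au_nil))
theorem u_c860f30934d98772 : RefU (c_c860f30934d98772) := run_u k_u_c860f30934d98772 (ok_st st_12_1_0_0_2 net0) (au_cons u_25e5aa097200502c (au_cons u_ccd9a1e41e5623cd (au_cons u_18f572d357edbb41 au_nil)))
theorem u_e4be3eb1db2ff5c5 : RefU (c_e4be3eb1db2ff5c5) := run_u k_u_e4be3eb1db2ff5c5 (ok_st st_12_1_0_0_2 net0) (au_cons u_b0d966891b3a1829 (au_cons u_ccd9a1e41e5623cd (au_cons u_9377f91c940d4eca (au_cons u_33644937c743142a (au_cons u_191582bb36c917ae (au_cons u_18f572d357edbb41 (au_cons u_1dc76a6cf58fbd32 au_nil)))))))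
theorem u_7134e756dcd8c7cf : RefU (c_7134e756dcd8c7cf) := run_u k_u_7134e756dcd8c7cf (ok_st st_12_1_0_0_2 net0) (au_cons u_642e47c73e6112a4 (au_cons u_03b5b141f73cb2c6 (au_cons u_cd494277786e388a (au_cons u_97f8e09f58a8cd71 (au_cons u_106335f4ac1b79f0 (au_cons u_eb6f3a6382e4554d (au_cons u_6f39099f9e0dbadc au_nil)))))))
theorem u_217082a6f1078222 : RefU (c_217082a6f1078222) := run_u k_u_217082a6f1078222 (ok_st st_12_1_0_0_2 net0) (au_cons u_6a11b5c133f25262 (au_cons u_b347ac268f2afc7a au_nil))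
theorem u_f3552ef7d2794af6 : RefU (c_f3552ef7d2794af6) := run_u k_u_f3552ef7d2794af6 (ok_st st_12_1_0_0_2 net0) (au_cons u_1abc5d9a3709bf11 (au_cons u_c5f8df14de2abcfe au_nil))
theorem u_99e87c9ea457cb41 : RefU (c_99e87c9ea457cb41) := run_u k_u_99e87c9ea457cb41 (ok_st st_12_1_0_0_2 net0) (au_cons u_fbaa6c50c790280a (au_cons u_1db0dd601e7cf568 (au_cons u_2cd4cdf87b66d997 (au_cons u_d927f326b0edf07a (au_cons u_43d7b756042a5e96 (au_cons u_1e49fa7f267b4274 (au_cons u_0856d12f8b99084f (au_cons u_04deffa805f60756 (au_cons u_63c1ed4dcd8a81de au_nil)))))))))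
theorem u_e567cd19eda2bfcc : RefU (c_e567cd19eda2bfcc) := run_u k_u_e567cd19eda2bfcc (ok_st st_12_1_0_0_2 net0) (au_cons u_f86015a99c60c51c (au_cons u_84750fb437899c08 (au_cons u_0351af482a0968b3 (au_cons u_e9d33df82bcd2688 (au_cons u_e9a154d496fce70b (au_cons u_13510100a23e8cd2 (au_cons u_efdc7cb6ad798273 (au_cons u_5b7b89e23b5d0006 (au_cons u_993cdacfff7249c0 (au_cons u_8ff3fcb5b9af5228 (au_cons u_6768f12496b44218 (au_cons u_e0b01051b67f5538 (au_cons u_be7ba526c70475f8 au_nil)))))))))))))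
theorem u_6f79ab0f7fe5d353 : RefU (c_6f79ab0f7fe5d353) := run_u k_u_6f79ab0f7fe5d353 (ok_st st_12_1_0_0_2 net0) (au_cons u_2443688176da3019 (au_cons u_263fa1eed1d9290a (au_cons u_8294f6221a6a68c0 (au_cons u_96b7c1fe19eaad24 (au_cons u_6ac49b7faccf5d6d (au_cons u_e4be3eb1db2ff5c5 au_nil))))))
theorem u_9441c085ac83f09a : RefU (c_9441c085ac83f09a) := run_u k_u_9441c085ac83f09a (ok_st st_12_1_0_0_2 net0) (au_cons u_0438bbcadc0b9b2e (au_cons u_217082a6f1078222 au_nil))
theorem u_150bbf4731d73420 : RefU (c_150bbf4731d73420) := run_u k_u_150bbf4731d73420 (ok_st st_12_1_0_0_2 net0) (au_cons u_99e87c9ea457cb41 au_nil)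
theorem u_cef706525a013d9f : RefU (c_cef706525a013d9f) := run_u k_u_cef706525a013d9f (ok_st st_12_1_0_0_2 net0) (au_cons u_6f79ab0f7fe5d353 (au_cons u_a17f76bd21a2d819 (au_cons u_130c25eaf792c605 (au_cons u_3be5ecc0d93ab8f4 (au_cons u_33644937c743142a (au_cons u_430336a4dfa7a225 (au_cons u_7134e756dcd8c7cf (au_cons u_642e47c73e6112a4 (au_cons u_089ecfd78f34f0d2 (au_cons u_e0b01051b67f5538 (au_cons u_f55d45a22e434006 (au_cons u_475eed9f75228c8b (au_cons u_9441c085ac83f09a (au_cons u_be6335d1887189ff (au_cons u_03b5b141f73cb2c6 (au_cons u_a78c6e9d2be1af4f (au_cons u_bdd82c4b287da95d (au_cons u_b123128159e1a56e (au_cons u_c219ff19d133a7f8 (au_cons u_f3552ef7d2794af6 (au_cons u_2afeb8b6fe0ea5fe (au_cons u_4ba015ed8274e95e (au_cons u_c860f30934d98772 (au_cons u_b5bf70fd5e78a2ce (au_cons u_150bbf4731d73420 (au_cons u_1dc76a6cf58fbd32 (au_cons u_eb6f3a6382e4554d (au_cons u_6f39099f9e0dbadc (au_cons u_d2a5714886ce5228 (au_cons u_9377f91c940d4eca (au_cons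 u_2150f9c524eddac1 (au_cons u_5fa7df5246668f69 (au_cons u_2ed3cf5005d58ced (au_cons u_af6d696e818608cb au_nil))))))))))))))))))))))))))))))))))
theorem n_T0 : NE T0 := ne_u k_n_T0 (ok_st st_12_1_0_0_2 net0) (au_cons u_509b97404d04fd35 (au_cons u_781ec94135ec87c7 (au_cons u_d1514f360457c207 (au_cons u_6cdb1393a90a9427 (au_cons u_9033a5acd5daffd7 (au_cons u_abf6df74b42f1f19 (au_cons u_e2fae81d8e4d3226 (au_cons u_805f4a7c4b35c6ea (au_cons u_e567cd19eda2bfcc (au_cons u_aa8b488a7d6a4dbb (au_cons u_cef706525a013d9f au_nil)))))))))))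
theorem u_8485486ad4d5b7d4 : RefU (c_8485486ad4d5b7d4) := run_u k_u_8485486ad4d5b7d4 (ok_st st_12_1_0_0_2 (net_leaf n_T0)) (au_cons u_7281db9699a0d150 au_nil)
theorem u_a8325dd74123f2a6 : RefU (c_a8325dd74123f2a6) := run_u k_u_a8325dd74123f2a6 (ok_st st_12_1_0_0_2 (net_leaf n_T0)) (au_cons u_7281db9699a0d150 (au_cons u_f81bd2f076b4d150 (au_cons u_44ef94ac599475ae (au_cons u_ebe623bf1cd70ca3 (au_cons u_273b1a6ad4dd0023 (au_cons u_ded18624eb7fd027 (au_cons u_9527944a178b5c11 (au_cons u_c3c06f0b417bb391 (au_cons u_51aa0e64116461af (au_cons u_c1453be9a02ac2d1 (au_cons u_8b8095eefa46616b (au_cons u_681c5f42fb4eaa20 au_nil))))))))))))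
theorem u_c8a40460a8457a80 : RefU (c_c8a40460a8457a80) := run_u k_u_c8a40460a8457a80 (ok_st st_12_1_0_0_2 (net_leaf n_T0)) (au_cons u_c5dbdb6519da57c0 (au_cons u_d7b46f8253131180 au_nil))
theorem u_184bd0676a3b996a : RefU (c_184bd0676a3b996a) := run_u k_u_184bd0676a3b996a (ok_st st_12_1_0_0_2 (net_leaf n_T0)) (au_cons u_d9186ac7a359312a (au_cons u_77a6fe3a6dedd5fc (au_cons u_a6bf03b5087f9fb3 au_nil)))
theorem u_46f71dbb269141d0 : RefU (c_46f71dbb269141d0) := run_u k_u_46f71dbb269141d0 (ok_st st_12_1_0_0_2 (net_leaf n_T0)) (au_cons u_a8325dd74123f2a6 (au_cons u_c8a40460a8457a80 (au_cons u_184bd0676a3b996a (au_cons u_7281db9699a0d150 (au_cons u_aeabd83a2b128dcf (au_cons u_b20712423dc6a508 (au_cons u_c1453be9a02ac2d1 (au_cons u_11f7b547837d1197 (au_cons u_681c5f42fb4eaa20 (au_cons u_fcdab4eec2645d87 (au_cons u_34fa81032f365116 (au_cons u_7ece5a1c7a862a35 (au_cons u_6c7688b170cdc424 au_nil)))))))))))))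
theorem n_PP : NE PP := ne_u k_n_PP (ok_st st_12_1_0_0_2 (net_leaf n_T3)) (au_cons u_8485486ad4d5b7d4 (au_cons u_46f71dbb269141d0 au_nil))
theorem st_12_1_0_1_2 : St 12 1 false true 2 :=
  ⟨(ty12 (ty14 (ty78 u_V1m) u_V2m) u_V1), ja1u (ty12 (ty14 (ty78 u_V1m) u_V2m) u_V1), nf, nt n_PP, tg14 (ty14 (ty78 u_V1m) u_V2m)⟩
theorem n_q_c223 : NE q_c223 := ne_u k_n_q_c223 (ok_st st_12_1_0_1_2 net0) au_nil
theorem n_q_c233 : NE q_c233 := ne_u k_n_q_c233 (ok_st st_12_1_0_1_2 net0) au_nil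
theorem n_q_p222 : NE q_p222 := ne_u k_n_q_p222 (ok_st st_12_1_0_1_2 (net_leaf n_T0)) au_nil
theorem u_07ea4cffaefee695 : RefU (c_07ea4cffaefee695) := run_u k_u_07ea4cffaefee695 (ok_st st_12_1_0_1_2 net0) au_nil
theorem u_5a89f47f94613344 : RefU (c_5a89f47f94613344) := run_u k_u_5a89f47f94613344 (ok_st st_12_1_0_1_2 net0) au_nil
theorem u_2d8ee57eb2820a51 : RefU (c_2d8ee57eb2820a51) := run_u k_u_2d8ee57eb2820a51 (ok_st st_12_1_0_1_2 net0) au_nil
theorem u_7c9e7c47c6267f34 : RefU (c_7c9e7c47c6267f34) := run_u k_u_7c9e7c47c6267f34 (ok_st st_12_1_0_1_2 (net_leaf n_T0)) au_nil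
theorem u_24691858a8e91aa2 : RefU (c_24691858a8e91aa2) := run_u k_u_24691858a8e91aa2 (ok_st st_12_1_0_1_2 net0) au_nil
theorem u_a44d027f9d42750f : RefU (c_a44d027f9d42750f) := run_u k_u_a44d027f9d42750f (ok_st st_12_1_0_1_2 net0) au_nil
theorem u_b8180bb0fe9dfe89 : RefU (c_b8180bb0fe9dfe89) := run_u k_u_b8180bb0fe9dfe89 (ok_st st_12_1_0_1_2 net0) au_nil
theorem u_cbb867ba328f5476 : RefU (c_cbb867ba328f5476) := run_u k_u_cbb867ba328f5476 (ok_st st_12_1_0_1_2 net0) au_nil
theorem u_1ab1f3fe0de933af : RefU (c_1ab1f3fe0de933af) := run_u k_u_1ab1f3fe0de933af (ok_st st_12_1_0_1_2 net0) au_nil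
theorem u_6a27c5c4fdad2e0c : RefU (c_6a27c5c4fdad2e0c) := run_u k_u_6a27c5c4fdad2e0c (ok_st st_12_1_0_1_2 net0) au_nil
theorem u_d82dfa50872155c8 : RefU (c_d82dfa50872155c8) := run_u k_u_d82dfa50872155c8 (ok_st st_12_1_0_1_2 net0) au_nil
theorem u_59c4968b7dd363ac : RefU (c_59c4968b7dd363ac) := run_u k_u_59c4968b7dd363ac (ok_st st_12_1_0_1_2 (net_leaf n_T0)) au_nil
theorem u_c96acb974a367648 : RefU (c_c96acb974a367648) := run_u k_u_c96acb974a367648 (ok_st st_12_1_0_1_2 net0) au_nil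
theorem u_2e1932c9a8a213e9 : RefU (c_2e1932c9a8a213e9) := run_u k_u_2e1932c9a8a213e9 (ok_st st_12_1_0_1_2 net0) au_nil
theorem u_4f80374b9a34b448 : RefU (c_4f80374b9a34b448) := run_u k_u_4f80374b9a34b448 (ok_st st_12_1_0_1_2 net0) au_nil
theorem u_2fa44ab1429f563c : RefU (c_2fa44ab1429f563c) := run_u k_u_2fa44ab1429f563c (ok_st st_12_1_0_1_2 net0) au_nil
theorem u_0f09fcab78fca1b4 : RefU (c_0f09fcab78fca1b4) := run_u k_u_0f09fcab78fca1b4 (ok_st st_12_1_0_1_2 net0) au_nil
theorem u_11b49879ef346808 : RefU (c_11b49879ef346808) := run_u k_u_11b49879ef346808 (ok_st st_12_1_0_1_2 net0) au_nil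
theorem u_9adae460261ae735 : RefU (c_9adae460261ae735) := run_u k_u_9adae460261ae735 (ok_st st_12_1_0_1_2 (net_leaf n_T0)) au_nil
theorem u_62f99f65f534a777 : RefU (c_62f99f65f534a777) := run_u k_u_62f99f65f534a777 (ok_st st_12_1_0_1_2 net0) au_nil
theorem u_5c096e9f9dcac902 : RefU (c_5c096e9f9dcac902) := run_u k_u_5c096e9f9dcac902 (ok_st st_12_1_0_1_2 net0) au_nil
theorem u_a4c1f07d851dbf48 : RefU (c_a4c1f07d851dbf48) := run_u k_u_a4c1f07d851dbf48 (ok_st st_12_1_0_1_2 (net_leaf n_T0)) au_nil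
theorem u_82f7344e806a86df : RefU (c_82f7344e806a86df) := run_u k_u_82f7344e806a86df (ok_st st_12_1_0_1_2 net0) au_nil
theorem u_33e32f253c04f292 : RefU (c_33e32f253c04f292) := run_u k_u_33e32f253c04f292 (ok_st st_12_1_0_1_2 net0) au_nil
theorem u_6e5ec70d532b5759 : RefU (c_6e5ec70d532b5759) := run_u k_u_6e5ec70d532b5759 (ok_st st_12_1_0_1_2 net0) au_nil
theorem u_f4fbdc1b51aa606f : RefU (c_f4fbdc1b51aa606f) := run_u k_u_f4fbdc1b51aa606f (ok_st st_12_1_0_1_2 net0) au_nil
theorem u_8538fb1dd8f33b14 : RefU (c_8538fb1dd8f33b14) := run_u k_u_8538fb1dd8f33b14 (ok_st st_12_1_0_1_2 net0) au_nil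
theorem u_b2324c83a681b108 : RefU (c_b2324c83a681b108) := run_u k_u_b2324c83a681b108 (ok_st st_12_1_0_1_2 net0) au_nil
theorem u_d397d9ffc1ff280d : RefU (c_d397d9ffc1ff280d) := run_u k_u_d397d9ffc1ff280d (ok_st st_12_1_0_1_2 net0) au_nil
theorem u_f3bb71e8187e97a9 : RefU (c_f3bb71e8187e97a9) := run_u k_u_f3bb71e8187e97a9 (ok_st st_12_1_0_1_2 net0) au_nil
theorem u_9a84da7dd632aa5c : RefU (c_9a84da7dd632aa5c) := run_u k_u_9a84da7dd632aa5c (ok_st st_12_1_0_1_2 net0) au_nil
theorem u_09906cd668870f6f : RefU (c_09906cd668870f6f) := run_u k_u_09906cd668870f6f (ok_st st_12_1_0_1_2 net0) au_nil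
theorem n_Pa : NE Pa := ne_u k_n_Pa (ok_st st_12_1_0_1_2 (net_leaf n_T0)) au_nil
theorem n_q_g333333_0102132314240535 : NE q_g333333_0102132314240535 := ne_u k_n_q_g333333_0102132314240535 (ok_st st_12_1_0_1_2 net0) au_nil
theorem u_f1662b6af7e3cbb0 : RefU (c_f1662b6af7e3cbb0) := run_u k_u_f1662b6af7e3cbb0 (ok_st st_12_1_0_1_2 net0) au_nil
theorem u_182208dd8d4261dd : RefU (c_182208dd8d4261dd) := run_u k_u_182208dd8d4261dd (ok_st st_12_1_0_1_2 net0) au_nil
theorem u_0b562df35eef8ab6 : RefU (c_0b562df35eef8ab6) := run_u k_u_0b562df35eef8ab6 (ok_st st_12_1_0_1_2 net0) au_nil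
theorem u_e31b6849005b7135 : RefU (c_e31b6849005b7135) := run_u k_u_e31b6849005b7135 (ok_st st_12_1_0_1_2 net0) au_nil
theorem u_55515b9d8a59321e : RefU (c_55515b9d8a59321e) := run_u k_u_55515b9d8a59321e (ok_st st_12_1_0_1_2 net0) au_nil
theorem u_ba6aad586f275315 : RefU (c_ba6aad586f275315) := run_u k_u_ba6aad586f275315 (ok_st st_12_1_0_1_2 net0) au_nil
theorem u_22d917a69394f0c1 : RefU (c_22d917a69394f0c1) := run_u k_u_22d917a69394f0c1 (ok_st st_12_1_0_1_2 net0) au_nil
theorem u_242cb02d1afca652 : RefU (c_242cb02d1afca652) := run_u k_u_242cb02d1afca652 (ok_st st_12_1_0_1_2 net0) au_nil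
theorem u_37000ad49cca3dfc : RefU (c_37000ad49cca3dfc) := run_u k_u_37000ad49cca3dfc (ok_st st_12_1_0_1_2 net0) au_nil
theorem u_c2a0374b7bf7bfd7 : RefU (c_c2a0374b7bf7bfd7) := run_u k_u_c2a0374b7bf7bfd7 (ok_st st_12_1_0_1_2 net0) au_nil
theorem u_d23e864aa3c01413 : RefU (c_d23e864aa3c01413) := run_u k_u_d23e864aa3c01413 (ok_st st_12_1_0_1_2 net0) au_nil
theorem u_a5306074caa0b1d1 : RefU (c_a5306074caa0b1d1) := run_u k_u_a5306074caa0b1d1 (ok_st st_12_1_0_1_2 net0) au_nil
theorem u_fbfcc8feae1bd5a2 : RefU (c_fbfcc8feae1bd5a2) := run_u k_u_fbfcc8feae1bd5a2 (ok_st st_12_1_0_1_2 net0) au_nil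
theorem u_4cc995f5a4453408 : RefU (c_4cc995f5a4453408) := run_u k_u_4cc995f5a4453408 (ok_st st_12_1_0_1_2 net0) au_nil
theorem u_a99a7bf2f7f19c28 : RefU (c_a99a7bf2f7f19c28) := run_u k_u_a99a7bf2f7f19c28 (ok_st st_12_1_0_1_2 net0) au_nil
theorem u_4cf5db741337ea6a : RefU (c_4cf5db741337ea6a) := run_u k_u_4cf5db741337ea6a (ok_st st_12_1_0_1_2 net0) au_nil
theorem u_427966f1adca142b : RefU (c_427966f1adca142b) := run_u k_u_427966f1adca142b (ok_st st_12_1_0_1_2 net0) au_nil
theorem u_baa736ed7ebfa90b : RefU (c_baa736ed7ebfa90b) := run_u k_u_baa736ed7ebfa90b (ok_st st_12_1_0_1_2 net0) au_nil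
theorem u_33abd1fe6d7c5df6 : RefU (c_33abd1fe6d7c5df6) := run_u k_u_33abd1fe6d7c5df6 (ok_st st_12_1_0_1_2 net0) au_nil
theorem u_4d50d0a593ccbf67 : RefU (c_4d50d0a593ccbf67) := run_u k_u_4d50d0a593ccbf67 (ok_st st_12_1_0_1_2 net0) au_nil
theorem u_e7e4a398703ab537 : RefU (c_e7e4a398703ab537) := run_u k_u_e7e4a398703ab537 (ok_st st_12_1_0_1_2 net0) au_nil
theorem n_q_c2233 : NE q_c2233 := ne_u k_n_q_c2233 (ok_st st_12_1_0_1_2 (net_node (net_leaf n_q_c233) (net_leaf n_T0))) (au_cons u_07ea4cffaefee695 (au_cons u_5a89f47f94613344 au_nil))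
theorem u_f4ac37a6f33bcb2f : RefU (c_f4ac37a6f33bcb2f) := run_u k_u_f4ac37a6f33bcb2f (ok_st st_12_1_0_1_2 (net_node (net_leaf n_T0) (net_leaf n_q_p222))) (au_cons u_2d8ee57eb2820a51 (au_cons u_7c9e7c47c6267f34 (au_cons u_24691858a8e91aa2 (au_cons u_a44d027f9d42750f (au_cons u_b8180bb0fe9dfe89 au_nil)))))
theorem u_30c652928257e2ba : RefU (c_30c652928257e2ba) := run_u k_u_30c652928257e2ba (ok_st st_12_1_0_1_2 net0) (au_cons u_c96acb974a367648 au_nil)
theorem u_e6a8035033a5c202 : RefU (c_e6a8035033a5c202) := run_u k_u_e6a8035033a5c202 (ok_st st_12_1_0_1_2 (net_leaf n_T0)) (au_cons u_59c4968b7dd363ac (au_cons u_4f80374b9a34b448 (au_cons u_2fa44ab1429f563c au_nil)))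
theorem u_316346658c13d811 : RefU (c_316346658c13d811) := run_u k_u_316346658c13d811 (ok_st st_12_1_0_1_2 (net_leaf n_T0)) (au_cons u_62f99f65f534a777 au_nil)
theorem u_285d6cb61a2e3c83 : RefU (c_285d6cb61a2e3c83) := run_u k_u_285d6cb61a2e3c83 (ok_st st_12_1_0_1_2 (net_leaf n_PP)) (au_cons u_5c096e9f9dcac902 au_nil)
theorem u_fa72ddb09cf791b1 : RefU (c_fa72ddb09cf791b1) := run_u k_u_fa72ddb09cf791b1 (ok_st st_12_1_0_1_2 (net_node (net_leaf n_PP) (net_leaf n_T0))) (au_cons u_33e32f253c04f292 au_nil)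
theorem u_9f072f3077e7dd8d : RefU (c_9f072f3077e7dd8d) := run_u k_u_9f072f3077e7dd8d (ok_st st_12_1_0_1_2 (net_node (net_node (net_leaf n_T0) (net_leaf n_q_p222)) (net_leaf n_q_c2233))) (au_cons u_cbb867ba328f5476 (au_cons u_1ab1f3fe0de933af (au_cons u_6a27c5c4fdad2e0c (au_cons u_d82dfa50872155c8 (au_cons u_59c4968b7dd363ac (au_cons u_30c652928257e2ba (au_cons u_2d8ee57eb2820a51 (au_cons u_9adae460261ae735 (au_cons u_2e1932c9a8a213e9 (au_cons u_5c096e9f9dcac902 au_nil))))))))))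
theorem u_6e7e70abd3d1048c : RefU (c_6e7e70abd3d1048c) := run_u k_u_6e7e70abd3d1048c (ok_st st_12_1_0_1_2 (net_leaf n_T0)) (au_cons u_30c652928257e2ba (au_cons u_0f09fcab78fca1b4 (au_cons u_11b49879ef346808 au_nil)))
theorem u_a6fdacaee8bdc846 : RefU (c_a6fdacaee8bdc846) := run_u k_u_a6fdacaee8bdc846 (ok_st st_12_1_0_1_2 (net_node (net_node (net_leaf n_q_c2233) (net_leaf n_PP)) (net_leaf n_T0))) (au_cons u_f4ac37a6f33bcb2f (au_cons u_9f072f3077e7dd8d (au_cons u_e6a8035033a5c202 (au_cons u_6e7e70abd3d1048c (au_cons u_2d8ee57eb2820a51 (au_cons u_9adae460261ae735 (au_cons u_316346658c13d811 (au_cons u_285d6cb61a2e3c83 (au_cons u_5c096e9f9dcac902 (au_cons u_a4c1f07d851dbf48 (au_cons u_82f7344e806a86df au_nil)))))))))))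
theorem n_q_p22 : NE q_p22 := ne_u k_n_q_p22 (ok_st st_12_1_0_1_2 (net_node (net_node (net_leaf n_q_p222) (net_leaf n_q_c2233)) (net_node (net_leaf n_q_c223) (net_leaf n_T0)))) (au_cons u_f4ac37a6f33bcb2f (au_cons u_a6fdacaee8bdc846 au_nil))
theorem u_763e5b4267f95756 : RefU (c_763e5b4267f95756) := run_u k_u_763e5b4267f95756 (ok_st st_12_1_0_1_2 (net_node (net_node (net_leaf n_q_p22) (net_leaf n_q_p222)) (net_leaf n_T0))) (au_cons u_f4fbdc1b51aa606f (au_cons u_8538fb1dd8f33b14 (au_cons u_6e5ec70d532b5759 au_nil)))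
theorem u_1e82edb9bb1b4e16 : RefU (c_1e82edb9bb1b4e16) := run_u k_u_1e82edb9bb1b4e16 (ok_st st_12_1_0_1_2 (net_node (net_node (net_leaf n_T0) (net_leaf n_q_p222)) (net_leaf n_q_p22))) (au_cons u_b2324c83a681b108 au_nil)
theorem u_facf2243b6c3172c : RefU (c_facf2243b6c3172c) := run_u k_u_facf2243b6c3172c (ok_st st_12_1_0_1_2 (net_node (net_leaf n_q_p22) (net_leaf n_T0))) (au_cons u_fa72ddb09cf791b1 (au_cons u_763e5b4267f95756 (au_cons u_1e82edb9bb1b4e16 (au_cons u_d397d9ffc1ff280d (au_cons u_f4fbdc1b51aa606f (au_cons u_f3bb71e8187e97a9 (au_cons u_9a84da7dd632aa5c (au_cons u_09906cd668870f6f au_nil))))))))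
theorem n_q_g333332_01021323142405 : NE q_g333332_01021323142405 := ne_u k_n_q_g333332_01021323142405 (ok_st st_12_1_0_1_2 (net_node (net_node (net_leaf n_T0) (net_leaf n_q_p222)) (net_leaf n_q_p22))) (au_cons u_fa72ddb09cf791b1 (au_cons u_6e5ec70d532b5759 (au_cons u_763e5b4267f95756 (au_cons u_facf2243b6c3172c au_nil))))
theorem n_q_p232 : NE q_p232 := ne_u k_n_q_p232 (ok_st st_12_1_0_1_2 (net_node (net_node (net_leaf n_q_c223) (net_leaf n_T0)) (net_node (net_leaf n_q_p22) (net_leaf n_q_g333332_01021323142405)))) au_nil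
theorem n_q_g2333_01122313 : NE q_g2333_01122313 := ne_u k_n_q_g2333_01122313 (ok_st st_12_1_0_1_2 (net_node (net_node (net_leaf n_q_c233) (net_leaf n_T0)) (net_node (net_leaf n_q_p22) (net_leaf n_q_g333332_01021323142405)))) au_nil
theorem u_ae3d20358238f3d2 : RefU (c_ae3d20358238f3d2) := run_u k_u_ae3d20358238f3d2 (ok_st st_12_1_0_1_2 (net_node (net_leaf n_T0) (net_leaf n_q_g333332_01021323142405))) (au_cons u_242cb02d1afca652 (au_cons u_37000ad49cca3dfc (au_cons u_c2a0374b7bf7bfd7 (au_cons u_d23e864aa3c01413 (au_cons u_a5306074caa0b1d1 au_nil)))))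
theorem u_3893746c382bf458 : RefU (c_3893746c382bf458) := run_u k_u_3893746c382bf458 (ok_st st_12_1_0_1_2 (net_node (net_node (net_leaf n_q_p232) (net_leaf n_q_g333332_01021323142405)) (net_leaf n_T0))) au_nil
theorem u_922a8951ae849f22 : RefU (c_922a8951ae849f22) := run_u k_u_922a8951ae849f22 (ok_st st_12_1_0_1_2 (net_node (net_node (net_node (net_leaf n_T0) (net_leaf n_q_g333332_01021323142405)) (net_leaf n_q_p222)) (net_node (net_leaf n_q_p22) (net_leaf n_q_p232)))) (au_cons u_182208dd8d4261dd (au_cons u_0b562df35eef8ab6 (au_cons u_e31b6849005b7135 (au_cons u_55515b9d8a59321e (au_cons u_ba6aad586f275315 (au_cons u_22d917a69394f0c1 au_nil))))))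
theorem n_Pe : NE Pe := ne_u k_n_Pe (ok_st st_12_1_0_1_2 (net_node (net_node (net_node (net_node (net_leaf n_T0) (net_leaf n_q_g2333_01122313)) (net_leaf n_q_c233)) (net_node (net_leaf n_q_g333332_01021323142405) (net_leaf n_q_g333333_0102132314240535))) (net_node (net_node (net_leaf n_q_p222) (net_leaf n_q_p232)) (net_node (net_leaf n_q_p22) (net_leaf n_PP))))) (au_cons u_f1662b6af7e3cbb0 (au_cons u_3893746c382bf458 (au_cons u_922a8951ae849f22 (au_cons u_ae3d20358238f3d2 au_nil))))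
theorem u_50e8c1b0be5cb05a : RefU (c_50e8c1b0be5cb05a) := run_u k_u_50e8c1b0be5cb05a (ok_st st_12_1_0_1_2 (net_node (net_node (net_node (net_leaf n_T0) (net_leaf n_q_p232)) (net_leaf n_q_g333332_01021323142405)) (net_node (net_leaf n_q_p22) (net_leaf n_Pe)))) (au_cons u_fbfcc8feae1bd5a2 (au_cons u_4cc995f5a4453408 (au_cons u_a99a7bf2f7f19c28 (au_cons u_4cf5db741337ea6a (au_cons u_427966f1adca142b (au_cons u_baa736ed7ebfa90b (au_cons u_33abd1fe6d7c5df6 (au_cons u_4d50d0a593ccbf67 (au_cons u_e7e4a398703ab537 au_nil)))))))))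
theorem n_Pb : NE Pb := ne_u k_n_Pb (ok_st st_12_1_0_1_2 (net_node (net_node (net_node (net_leaf n_T0) (net_leaf n_PP)) (net_node (net_leaf n_q_g333332_01021323142405) (net_leaf n_q_p232))) (net_node (net_node (net_leaf n_q_p22) (net_leaf n_q_c233)) (net_node (net_leaf n_q_g333333_0102132314240535) (net_leaf n_Pe))))) (au_cons u_50e8c1b0be5cb05a au_nil)
theorem st_12_1_1_1_2 : St 12 1 true true 2 :=
  ⟨(ty12 (ty14 (ty78 u_V1m) u_V2m) u_V1), ja1u (ty12 (ty14 (ty78 u_V1m) u_V2m) u_V1), nt ⟨n_Pa, n_Pb, n_Pe⟩, nt n_PP, tg14 (ty14 (ty78 u_V1m) u_V2m)⟩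
theorem u_A2 : RefU (cutA 2) := run_u k_u_A2 (ok_st st_12_1_1_1_2 net0) au_nil
theorem u_A3 : RefU (cutA 3) := run_u k_u_A3 (ok_st st_12_1_1_1_2 net0) au_nil
theorem u_B22 : RefU (cutB 2 2) := run_u k_u_B22 (ok_st st_12_1_1_1_2 (net_node (net_node (net_leaf n_q_c2233) (net_leaf n_q_p222)) (net_leaf n_q_p232))) au_nil
theorem u_B23 : RefU (cutB 2 3) := run_u k_u_B23 (ok_st st_12_1_1_1_2 net0) au_nil
theorem u_a3bcb5195f070e68 : RefU (c_a3bcb5195f070e68) := run_u k_u_a3bcb5195f070e68 (ok_st st_12_1_1_1_2 (net_node (net_leaf n_q_g2333_01122313) (net_leaf n_q_p222))) au_nil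
theorem u_b3fbe947b4f35f81 : RefU (c_b3fbe947b4f35f81) := run_u k_u_b3fbe947b4f35f81 (ok_st st_12_1_1_1_2 (net_node (net_leaf n_q_g2333_01122313) (net_leaf n_q_p222))) au_nil
theorem u_6ed28ef32edd61c7 : RefU (c_6ed28ef32edd61c7) := run_u k_u_6ed28ef32edd61c7 (ok_st st_12_1_1_1_2 net0) au_nil
theorem u_8551048bf525138a : RefU (c_8551048bf525138a) := run_u k_u_8551048bf525138a (ok_st st_12_1_1_1_2 (net_node (net_node (net_node (net_leaf n_q_p222) (net_leaf n_T0)) (net_leaf n_q_p232)) (net_node (net_leaf n_q_c2233) (net_leaf n_q_g2333_01122313)))) au_nil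
theorem u_1a9e3b8b41048499 : RefU (c_1a9e3b8b41048499) := run_u k_u_1a9e3b8b41048499 (ok_st st_12_1_1_1_2 net0) au_nil
theorem u_c986f38fa9d11a2c : RefU (c_c986f38fa9d11a2c) := run_u k_u_c986f38fa9d11a2c (ok_st st_12_1_1_1_2 net0) (au_cons u_8551048bf525138a au_nil)
theorem u_fb1a4343826f8f25 : RefU (c_fb1a4343826f8f25) := run_u k_u_fb1a4343826f8f25 (ok_st st_12_1_1_1_2 (net_node (net_node (net_node (net_leaf n_q_c233) (net_leaf n_q_c2233)) (net_node (net_leaf n_q_g2333_01122313) (net_leaf n_q_p222))) (net_node (net_node (net_leaf n_q_p22) (net_leaf n_T0)) (net_leaf n_q_p232)))) (au_cons u_a3bcb5195f070e68 (au_cons u_b3fbe947b4f35f81 (au_cons u_1a9e3b8b41048499 au_nil)))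
theorem u_B33 : RefU (cutB 3 3) := run_u k_u_B33 (ok_st st_12_1_1_1_2 (net_node (net_node (net_node (net_leaf n_q_c2233) (net_leaf n_q_p22)) (net_node (net_leaf n_q_p222) (net_leaf n_q_c233))) (net_node (net_node (net_leaf n_q_p232) (net_leaf n_q_g2333_01122313)) (net_leaf n_T0)))) (au_cons u_a3bcb5195f070e68 (au_cons u_b3fbe947b4f35f81 (au_cons u_6ed28ef32edd61c7 (au_cons u_c986f38fa9d11a2c (au_cons u_fb1a4343826f8f25 au_nil)))))
theorem st_12_2_1_1_2 : St 12 2 true true 2 :=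
  ⟨(ty12 (ty14 (ty78 u_V1m) u_V2m) u_V1), ja2u (ty12 (ty14 (ty78 u_V1m) u_V2m) u_V1) u_A2 u_A3 u_B22 u_B23 u_B33, nt ⟨n_Pa, n_Pb, n_Pe⟩, nt n_PP, tg14 (ty14 (ty78 u_V1m) u_V2m)⟩
theorem n_q_c233233 : NE q_c233233 := ne_u k_n_q_c233233 (ok_st st_12_2_1_1_2 (net_node (net_leaf n_q_c233) (net_leaf n_q_p232))) au_nil
theorem u_2f614b41ca2b0ba9 : RefU (c_2f614b41ca2b0ba9) := run_u k_u_2f614b41ca2b0ba9 (ok_st st_12_2_1_1_2 (net_node (net_leaf n_q_g2333_01122313) (net_leaf n_T0))) au_nil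
theorem u_d89d302a48b605a7 : RefU (c_d89d302a48b605a7) := run_u k_u_d89d302a48b605a7 (ok_st st_12_2_1_1_2 (net_node (net_leaf n_q_g2333_01122313) (net_leaf n_T0))) au_nil
theorem u_634b1d2a6f966701 : RefU (c_634b1d2a6f966701) := run_u k_u_634b1d2a6f966701 (ok_st st_12_2_1_1_2 (net_leaf n_q_p222)) au_nil
theorem u_1fa640cf09c6827e : RefU (c_1fa640cf09c6827e) := run_u k_u_1fa640cf09c6827e (ok_st st_12_2_1_1_2 (net_node (net_leaf n_q_g2333_01122313) (net_leaf n_T0))) au_nil
theorem u_600a1cb73e20124b : RefU (c_600a1cb73e20124b) := run_u k_u_600a1cb73e20124b (ok_st st_12_2_1_1_2 (net_node (net_node (net_node (net_leaf n_q_g2333_01122313) (net_leaf n_T0)) (net_node (net_leaf n_q_p22) (net_leaf n_Pe))) (net_node (net_node (net_leaf n_q_p232) (net_leaf n_q_p222)) (net_node (net_leaf n_Pb) (net_leaf n_q_g333332_01021323142405))))) au_nil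
theorem u_6d59b2912ac0c554 : RefU (c_6d59b2912ac0c554) := run_u k_u_6d59b2912ac0c554 (ok_st st_12_2_1_1_2 (net_leaf n_T0)) au_nil
theorem u_76d24688ac014eae : RefU (c_76d24688ac014eae) := run_u k_u_76d24688ac014eae (ok_st st_12_2_1_1_2 (net_node (net_node (net_leaf n_Pe) (net_leaf n_T0)) (net_leaf n_Pb))) au_nil
theorem u_d9a768cbaaf9f1b0 : RefU (c_d9a768cbaaf9f1b0) := run_u k_u_d9a768cbaaf9f1b0 (ok_st st_12_2_1_1_2 net0) au_nil
theorem u_f0d031fe3b9fbdbc : RefU (c_f0d031fe3b9fbdbc) := run_u k_u_f0d031fe3b9fbdbc (ok_st st_12_2_1_1_2 (net_node (net_node (net_leaf n_q_p222) (net_leaf n_q_p232)) (net_leaf n_q_c2233))) au_nil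
theorem u_94f078b64da9aa1d : RefU (c_94f078b64da9aa1d) := run_u k_u_94f078b64da9aa1d (ok_st st_12_2_1_1_2 (net_leaf n_T0)) au_nil
theorem u_6d1917522664d6c0 : RefU (c_6d1917522664d6c0) := run_u k_u_6d1917522664d6c0 (ok_st st_12_2_1_1_2 (net_node (net_node (net_node (net_leaf n_q_p232) (net_leaf n_q_g333332_01021323142405)) (net_leaf n_Pb)) (net_node (net_node (net_leaf n_Pe) (net_leaf n_q_g2333_01122313)) (net_leaf n_T0)))) au_nil
theorem u_093bf30675d4dc2f : RefU (c_093bf30675d4dc2f) := run_u k_u_093bf30675d4dc2f (ok_st st_12_2_1_1_2 (net_node (net_leaf n_T0) (net_leaf n_q_g333332_01021323142405))) au_nil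
theorem u_4aaa5ec4664e3c2b : RefU (c_4aaa5ec4664e3c2b) := run_u k_u_4aaa5ec4664e3c2b (ok_st st_12_2_1_1_2 (net_node (net_node (net_leaf n_q_p222) (net_leaf n_T0)) (net_leaf n_q_c2233))) au_nil
theorem u_58bef3a24c6c57ca : RefU (c_58bef3a24c6c57ca) := run_u k_u_58bef3a24c6c57ca (ok_st st_12_2_1_1_2 net0) au_nil
theorem u_474ab2d158016afa : RefU (c_474ab2d158016afa) := run_u k_u_474ab2d158016afa (ok_st st_12_2_1_1_2 (net_leaf n_T0)) au_nil
theorem u_f9eb80144294a70f : RefU (c_f9eb80144294a70f) := run_u k_u_f9eb80144294a70f (ok_st st_12_2_1_1_2 (net_node (net_node (net_leaf n_Pe) (net_leaf n_T0)) (net_leaf n_Pb))) au_nil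
theorem u_c3162a750dedd05e : RefU (c_c3162a750dedd05e) := run_u k_u_c3162a750dedd05e (ok_st st_12_2_1_1_2 (net_node (net_node (net_leaf n_q_p222) (net_leaf n_q_p232)) (net_leaf n_q_c2233))) au_nil
theorem u_58114f0396bf0c10 : RefU (c_58114f0396bf0c10) := run_u k_u_58114f0396bf0c10 (ok_st st_12_2_1_1_2 (net_node (net_node (net_leaf n_q_p222) (net_leaf n_q_p232)) (net_leaf n_q_c2233))) au_nil
theorem u_222a8b4314efbe75 : RefU (c_222a8b4314efbe75) := run_u k_u_222a8b4314efbe75 (ok_st st_12_2_1_1_2 (net_leaf n_q_p222)) au_nil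
theorem u_d97c23347ea29e06 : RefU (c_d97c23347ea29e06) := run_u k_u_d97c23347ea29e06 (ok_st st_12_2_1_1_2 (net_node (net_node (net_leaf n_q_g333333_0102132314240535) (net_leaf n_Pb)) (net_leaf n_T0))) au_nil
theorem u_ea32c24238390f21 : RefU (c_ea32c24238390f21) := run_u k_u_ea32c24238390f21 (ok_st st_12_2_1_1_2 (net_leaf n_q_p222)) au_nil
theorem u_a92675a3f95767f0 : RefU (c_a92675a3f95767f0) := run_u k_u_a92675a3f95767f0 (ok_st st_12_2_1_1_2 (net_leaf n_q_p222)) au_nil
theorem u_bef274862ed59114 : RefU (c_bef274862ed59114) := run_u k_u_bef274862ed59114 (ok_st st_12_2_1_1_2 (net_node (net_node (net_leaf n_q_p222) (net_leaf n_q_p232)) (net_leaf n_q_c2233))) au_nil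
theorem u_0f53e5cca3f1abd4 : RefU (c_0f53e5cca3f1abd4) := run_u k_u_0f53e5cca3f1abd4 (ok_st st_12_2_1_1_2 (net_node (net_node (net_leaf n_q_p232) (net_leaf n_Pb)) (net_leaf n_T0))) au_nil
theorem u_6b8c185695d367ad : RefU (c_6b8c185695d367ad) := run_u k_u_6b8c185695d367ad (ok_st st_12_2_1_1_2 (net_node (net_node (net_node (net_leaf n_Pb) (net_leaf n_q_g2333_01122313)) (net_leaf n_T0)) (net_node (net_leaf n_Pe) (net_leaf n_q_g333332_01021323142405)))) au_nil
theorem u_3872804a69f27269 : RefU (c_3872804a69f27269) := run_u k_u_3872804a69f27269 (ok_st st_12_2_1_1_2 (net_node (net_node (net_node (net_leaf n_q_p232) (net_leaf n_q_p22)) (net_leaf n_T0)) (net_node (net_leaf n_q_g333332_01021323142405) (net_leaf n_Pe)))) au_nil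
theorem u_0af276de24ea0eb1 : RefU (c_0af276de24ea0eb1) := run_u k_u_0af276de24ea0eb1 (ok_st st_12_2_1_1_2 (net_node (net_node (net_leaf n_q_p222) (net_leaf n_q_p232)) (net_leaf n_q_c2233))) au_nil
theorem u_d9e4c62775aa1584 : RefU (c_d9e4c62775aa1584) := run_u k_u_d9e4c62775aa1584 (ok_st st_12_2_1_1_2 net0) au_nil
theorem u_b776355fb8e04cd0 : RefU (c_b776355fb8e04cd0) := run_u k_u_b776355fb8e04cd0 (ok_st st_12_2_1_1_2 (net_node (net_leaf n_Pe) (net_leaf n_T0))) au_nil
theorem u_aca6b23c62291c03 : RefU (c_aca6b23c62291c03) := run_u k_u_aca6b23c62291c03 (ok_st st_12_2_1_1_2 (net_node (net_node (net_leaf n_q_c233) (net_leaf n_q_p22)) (net_node (net_leaf n_q_c2233) (net_leaf n_q_p232)))) au_nil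
theorem u_b12049357e9c1343 : RefU (c_b12049357e9c1343) := run_u k_u_b12049357e9c1343 (ok_st st_12_2_1_1_2 (net_node (net_node (net_leaf n_q_p222) (net_leaf n_q_p232)) (net_leaf n_q_c2233))) au_nil
theorem u_9f70cdf43b4b6aae : RefU (c_9f70cdf43b4b6aae) := run_u k_u_9f70cdf43b4b6aae (ok_st st_12_2_1_1_2 (net_leaf n_q_p222)) au_nil
theorem u_db445841fe06d16f : RefU (c_db445841fe06d16f) := run_u k_u_db445841fe06d16f (ok_st st_12_2_1_1_2 (net_node (net_node (net_leaf n_q_p222) (net_leaf n_q_p232)) (net_leaf n_q_c2233))) au_nil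
theorem u_73ea9dd2d96ac7e2 : RefU (c_73ea9dd2d96ac7e2) := run_u k_u_73ea9dd2d96ac7e2 (ok_st st_12_2_1_1_2 (net_leaf n_q_c2233)) au_nil
theorem u_014ed785b74e5208 : RefU (c_014ed785b74e5208) := run_u k_u_014ed785b74e5208 (ok_st st_12_2_1_1_2 (net_node (net_node (net_leaf n_q_p232) (net_leaf n_T0)) (net_node (net_leaf n_q_g333332_01021323142405) (net_leaf n_q_p22)))) au_nil
theorem u_8e2b62f9d0f5c2b2 : RefU (c_8e2b62f9d0f5c2b2) := run_u k_u_8e2b62f9d0f5c2b2 (ok_st st_12_2_1_1_2 (net_leaf n_q_p222)) au_nil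
theorem u_b2343c41c08ccdae : RefU (c_b2343c41c08ccdae) := run_u k_u_b2343c41c08ccdae (ok_st st_12_2_1_1_2 (net_leaf n_q_c2233)) au_nil
theorem u_cef6473eb5b13c2b : RefU (c_cef6473eb5b13c2b) := run_u k_u_cef6473eb5b13c2b (ok_st st_12_2_1_1_2 (net_leaf n_T0)) au_nil
theorem u_47e7d53354d2559b : RefU (c_47e7d53354d2559b) := run_u k_u_47e7d53354d2559b (ok_st st_12_2_1_1_2 (net_node (net_leaf n_q_g2333_01122313) (net_leaf n_q_c2233))) au_nil
theorem u_afce2c8329c3aff2 : RefU (c_afce2c8329c3aff2) := run_u k_u_afce2c8329c3aff2 (ok_st st_12_2_1_1_2 (net_leaf n_q_p222)) au_nil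
theorem u_d5c0a6f5ad55fa06 : RefU (c_d5c0a6f5ad55fa06) := run_u k_u_d5c0a6f5ad55fa06 (ok_st st_12_2_1_1_2 (net_leaf n_q_p222)) au_nil
theorem u_d1f413fc1ff7ef28 : RefU (c_d1f413fc1ff7ef28) := run_u k_u_d1f413fc1ff7ef28 (ok_st st_12_2_1_1_2 (net_node (net_node (net_leaf n_q_p222) (net_leaf n_q_p232)) (net_leaf n_q_c2233))) au_nil
theorem u_1eaf0483e2ab3aa4 : RefU (c_1eaf0483e2ab3aa4) := run_u k_u_1eaf0483e2ab3aa4 (ok_st st_12_2_1_1_2 (net_node (net_node (net_leaf n_q_p222) (net_leaf n_T0)) (net_leaf n_q_p22))) au_nil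
theorem u_ceb5a22cc1c5fa9f : RefU (c_ceb5a22cc1c5fa9f) := run_u k_u_ceb5a22cc1c5fa9f (ok_st st_12_2_1_1_2 (net_leaf n_q_p222)) au_nil
theorem u_016b148954a9471c : RefU (c_016b148954a9471c) := run_u k_u_016b148954a9471c (ok_st st_12_2_1_1_2 (net_leaf n_T0)) au_nil
theorem u_0fd5ddda5b28fb6d : RefU (c_0fd5ddda5b28fb6d) := run_u k_u_0fd5ddda5b28fb6d (ok_st st_12_2_1_1_2 (net_node (net_leaf n_T0) (net_leaf n_Pb))) au_nil
theorem u_a09aa9864275b224 : RefU (c_a09aa9864275b224) := run_u k_u_a09aa9864275b224 (ok_st st_12_2_1_1_2 net0) au_nil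
theorem u_b91a2f867d246e73 : RefU (c_b91a2f867d246e73) := run_u k_u_b91a2f867d246e73 (ok_st st_12_2_1_1_2 net0) au_nil
theorem u_362afd94601e13ff : RefU (c_362afd94601e13ff) := run_u k_u_362afd94601e13ff (ok_st st_12_2_1_1_2 net0) au_nil
theorem u_0f3039de2484f846 : RefU (c_0f3039de2484f846) := run_u k_u_0f3039de2484f846 (ok_st st_12_2_1_1_2 net0) au_nil
theorem u_333f5df0884e8eb0 : RefU (c_333f5df0884e8eb0) := run_u k_u_333f5df0884e8eb0 (ok_st st_12_2_1_1_2 net0) au_nil
theorem u_e33698bcfcc1940c : RefU (c_e33698bcfcc1940c) := run_u k_u_e33698bcfcc1940c (ok_st st_12_2_1_1_2 (net_leaf n_q_g333332_01021323142405)) au_nil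
theorem u_bcd3d07336cf3755 : RefU (c_bcd3d07336cf3755) := run_u k_u_bcd3d07336cf3755 (ok_st st_12_2_1_1_2 net0) au_nil
theorem u_8a2eb0c1bd72db0b : RefU (c_8a2eb0c1bd72db0b) := run_u k_u_8a2eb0c1bd72db0b (ok_st st_12_2_1_1_2 net0) au_nil
theorem u_2bd995f348fc3ec5 : RefU (c_2bd995f348fc3ec5) := run_u k_u_2bd995f348fc3ec5 (ok_st st_12_2_1_1_2 net0) au_nil
theorem u_4c8383593ffade59 : RefU (c_4c8383593ffade59) := run_u k_u_4c8383593ffade59 (ok_st st_12_2_1_1_2 (net_node (net_leaf n_Pe) (net_leaf n_T0))) au_nil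
theorem u_c8faad2e5ced688f : RefU (c_c8faad2e5ced688f) := run_u k_u_c8faad2e5ced688f (ok_st st_12_2_1_1_2 net0) au_nil
theorem u_a83ae5ac7c155fd3 : RefU (c_a83ae5ac7c155fd3) := run_u k_u_a83ae5ac7c155fd3 (ok_st st_12_2_1_1_2 (net_node (net_node (net_leaf n_q_p232) (net_leaf n_q_g333332_01021323142405)) (net_node (net_leaf n_q_p222) (net_leaf n_T0)))) au_nil
theorem u_6367b8bc639f95e1 : RefU (c_6367b8bc639f95e1) := run_u k_u_6367b8bc639f95e1 (ok_st st_12_2_1_1_2 (net_node (net_leaf n_q_g333332_01021323142405) (net_leaf n_T0))) au_nil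
theorem u_4020a6ec43c5c453 : RefU (c_4020a6ec43c5c453) := run_u k_u_4020a6ec43c5c453 (ok_st st_12_2_1_1_2 (net_node (net_node (net_node (net_leaf n_q_g333332_01021323142405) (net_leaf n_Pe)) (net_leaf n_Pb)) (net_node (net_leaf n_T0) (net_leaf n_q_p22)))) au_nil
theorem u_cfddba66c506d2ec : RefU (c_cfddba66c506d2ec) := run_u k_u_cfddba66c506d2ec (ok_st st_12_2_1_1_2 (net_node (net_node (net_node (net_leaf n_q_g333332_01021323142405) (net_leaf n_q_p22)) (net_leaf n_q_c233)) (net_node (net_leaf n_T0) (net_leaf n_Pe)))) au_nil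
theorem u_d71fb57b3e309ba3 : RefU (c_d71fb57b3e309ba3) := run_u k_u_d71fb57b3e309ba3 (ok_st st_12_2_1_1_2 (net_leaf n_q_p222)) au_nil
theorem u_1bb4f4d712d09dae : RefU (c_1bb4f4d712d09dae) := run_u k_u_1bb4f4d712d09dae (ok_st st_12_2_1_1_2 (net_node (net_node (net_node (net_leaf n_Pe) (net_leaf n_q_p22)) (net_leaf n_T0)) (net_node (net_node (net_leaf n_q_g333333_0102132314240535) (net_leaf n_Pb)) (net_leaf n_q_g333332_01021323142405)))) au_nil
theorem u_17accebd99b21f64 : RefU (c_17accebd99b21f64) := run_u k_u_17accebd99b21f64 (ok_st st_12_2_1_1_2 (net_leaf n_q_p222)) au_nil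
theorem u_a1a2d72e951c1997 : RefU (c_a1a2d72e951c1997) := run_u k_u_a1a2d72e951c1997 (ok_st st_12_2_1_1_2 (net_node (net_node (net_leaf n_q_g333332_01021323142405) (net_leaf n_Pe)) (net_leaf n_T0))) au_nil
theorem u_64d89bbd6f1f9089 : RefU (c_64d89bbd6f1f9089) := run_u k_u_64d89bbd6f1f9089 (ok_st st_12_2_1_1_2 (net_node (net_node (net_leaf n_q_g333332_01021323142405) (net_leaf n_Pe)) (net_leaf n_T0))) au_nil
theorem u_124a3e48b409a374 : RefU (c_124a3e48b409a374) := run_u k_u_124a3e48b409a374 (ok_st st_12_2_1_1_2 (net_node (net_leaf n_q_g333332_01021323142405) (net_leaf n_T0))) au_nil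
theorem u_98c2000a543cedb0 : RefU (c_98c2000a543cedb0) := run_u k_u_98c2000a543cedb0 (ok_st st_12_2_1_1_2 (net_leaf n_T0)) au_nil
theorem u_7bf47c37494645d2 : RefU (c_7bf47c37494645d2) := run_u k_u_7bf47c37494645d2 (ok_st st_12_2_1_1_2 (net_node (net_node (net_leaf n_q_g333332_01021323142405) (net_leaf n_q_p22)) (net_leaf n_T0))) au_nil
theorem u_fece0517c31de3c6 : RefU (c_fece0517c31de3c6) := run_u k_u_fece0517c31de3c6 (ok_st st_12_2_1_1_2 (net_node (net_leaf n_Pe) (net_leaf n_T0))) au_nil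
theorem u_a2f6085b669c730e : RefU (c_a2f6085b669c730e) := run_u k_u_a2f6085b669c730e (ok_st st_12_2_1_1_2 (net_leaf n_T0)) au_nil
theorem u_907e06a3c1070f98 : RefU (c_907e06a3c1070f98) := run_u k_u_907e06a3c1070f98 (ok_st st_12_2_1_1_2 (net_node (net_leaf n_q_g333332_01021323142405) (net_leaf n_T0))) au_nil
theorem u_c31d3037635f7a85 : RefU (c_c31d3037635f7a85) := run_u k_u_c31d3037635f7a85 (ok_st st_12_2_1_1_2 (net_node (net_node (net_leaf n_q_g333332_01021323142405) (net_leaf n_q_g333333_0102132314240535)) (net_node (net_leaf n_T0) (net_leaf n_q_p22)))) au_nil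
theorem u_553468871872d190 : RefU (c_553468871872d190) := run_u k_u_553468871872d190 (ok_st st_12_2_1_1_2 (net_leaf n_q_p222)) au_nil
theorem u_d9869d9d37ad3564 : RefU (c_d9869d9d37ad3564) := run_u k_u_d9869d9d37ad3564 (ok_st st_12_2_1_1_2 net0) au_nil
theorem u_77bc2388dca6cae0 : RefU (c_77bc2388dca6cae0) := run_u k_u_77bc2388dca6cae0 (ok_st st_12_2_1_1_2 net0) au_nil
theorem u_f49a2e9f9c462466 : RefU (c_f49a2e9f9c462466) := run_u k_u_f49a2e9f9c462466 (ok_st st_12_2_1_1_2 net0) au_nil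
theorem u_fb2e97f4742b99ec : RefU (c_fb2e97f4742b99ec) := run_u k_u_fb2e97f4742b99ec (ok_st st_12_2_1_1_2 (net_node (net_node (net_node (net_leaf n_Pb) (net_leaf n_q_p22)) (net_leaf n_q_g333332_01021323142405)) (net_node (net_leaf n_T0) (net_leaf n_Pe)))) au_nil
theorem u_cdab37ab7d6145b6 : RefU (c_cdab37ab7d6145b6) := run_u k_u_cdab37ab7d6145b6 (ok_st st_12_2_1_1_2 (net_leaf n_q_g2333_01122313)) au_nil
theorem u_7637eda8d67f05de : RefU (c_7637eda8d67f05de) := run_u k_u_7637eda8d67f05de (ok_st st_12_2_1_1_2 (net_leaf n_q_p222)) au_nil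
theorem u_5847735fc0e780c0 : RefU (c_5847735fc0e780c0) := run_u k_u_5847735fc0e780c0 (ok_st st_12_2_1_1_2 net0) au_nil
theorem u_eb416c6bc23138b6 : RefU (c_eb416c6bc23138b6) := run_u k_u_eb416c6bc23138b6 (ok_st st_12_2_1_1_2 (net_leaf n_q_p222)) au_nil
theorem u_5be4ad83c2f0811b : RefU (c_5be4ad83c2f0811b) := run_u k_u_5be4ad83c2f0811b (ok_st st_12_2_1_1_2 (net_node (net_node (net_leaf n_q_p222) (net_leaf n_q_p232)) (net_leaf n_q_c2233))) au_nil
theorem u_10e2809ec8d8bad6 : RefU (c_10e2809ec8d8bad6) := run_u k_u_10e2809ec8d8bad6 (ok_st st_12_2_1_1_2 (net_leaf n_q_p222)) au_nil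
theorem u_7a91061847601495 : RefU (c_7a91061847601495) := run_u k_u_7a91061847601495 (ok_st st_12_2_1_1_2 (net_node (net_node (net_leaf n_Pb) (net_leaf n_q_c233)) (net_node (net_leaf n_Pe) (net_leaf n_q_p222)))) au_nil
theorem u_5b754d7599c3c048 : RefU (c_5b754d7599c3c048) := run_u k_u_5b754d7599c3c048 (ok_st st_12_2_1_1_2 (net_node (net_node (net_leaf n_q_g333332_01021323142405) (net_leaf n_Pb)) (net_node (net_leaf n_T0) (net_leaf n_Pe)))) au_nil
theorem u_d1b43ecb1ebd78b6 : RefU (c_d1b43ecb1ebd78b6) := run_u k_u_d1b43ecb1ebd78b6 (ok_st st_12_2_1_1_2 (net_node (net_leaf n_q_p22) (net_leaf n_T0))) au_nil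
theorem u_0c2c84cddcc7b253 : RefU (c_0c2c84cddcc7b253) := run_u k_u_0c2c84cddcc7b253 (ok_st st_12_2_1_1_2 (net_leaf n_T0)) au_nil
theorem u_3d8ca58181eacd5a : RefU (c_3d8ca58181eacd5a) := run_u k_u_3d8ca58181eacd5a (ok_st st_12_2_1_1_2 (net_node (net_leaf n_T0) (net_leaf n_Pb))) au_nil
theorem u_875c5de254e5c136 : RefU (c_875c5de254e5c136) := run_u k_u_875c5de254e5c136 (ok_st st_12_2_1_1_2 (net_leaf n_q_p22)) au_nil
theorem u_67cd4e701ce60d04 : RefU (c_67cd4e701ce60d04) := run_u k_u_67cd4e701ce60d04 (ok_st st_12_2_1_1_2 net0) au_nil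
theorem u_e3c090f062f52121 : RefU (c_e3c090f062f52121) := run_u k_u_e3c090f062f52121 (ok_st st_12_2_1_1_2 (net_node (net_leaf n_q_p22) (net_leaf n_T0))) au_nil
theorem u_6381393a48311af2 : RefU (c_6381393a48311af2) := run_u k_u_6381393a48311af2 (ok_st st_12_2_1_1_2 net0) au_nil
theorem u_ede26dd8f69e83ff : RefU (c_ede26dd8f69e83ff) := run_u k_u_ede26dd8f69e83ff (ok_st st_12_2_1_1_2 (net_node (net_leaf n_q_c233) (net_leaf n_q_p232))) au_nil
theorem u_a333fa3bbd7c79d5 : RefU (c_a333fa3bbd7c79d5) := run_u k_u_a333fa3bbd7c79d5 (ok_st st_12_2_1_1_2 net0) au_nil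
theorem u_e3e125318d3d0375 : RefU (c_e3e125318d3d0375) := run_u k_u_e3e125318d3d0375 (ok_st st_12_2_1_1_2 net0) au_nil
theorem u_723f22a36a53c325 : RefU (c_723f22a36a53c325) := run_u k_u_723f22a36a53c325 (ok_st st_12_2_1_1_2 net0) au_nil
theorem u_23b267259fff9f61 : RefU (c_23b267259fff9f61) := run_u k_u_23b267259fff9f61 (ok_st st_12_2_1_1_2 (net_node (net_leaf n_Pe) (net_leaf n_T0))) au_nil
theorem u_38fccf7b0d2fea3d : RefU (c_38fccf7b0d2fea3d) := run_u k_u_38fccf7b0d2fea3d (ok_st st_12_2_1_1_2 net0) au_nil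
theorem u_198d0bdd868314a0 : RefU (c_198d0bdd868314a0) := run_u k_u_198d0bdd868314a0 (ok_st st_12_2_1_1_2 (net_node (net_node (net_node (net_leaf n_q_c233) (net_leaf n_Pe)) (net_leaf n_q_p22)) (net_node (net_node (net_leaf n_q_p232) (net_leaf n_q_g333332_01021323142405)) (net_leaf n_T0)))) au_nil
theorem u_a0e8495181594b5a : RefU (c_a0e8495181594b5a) := run_u k_u_a0e8495181594b5a (ok_st st_12_2_1_1_2 (net_leaf n_q_p232)) au_nil
theorem u_1b8eef1fe0c5f1a8 : RefU (c_1b8eef1fe0c5f1a8) := run_u k_u_1b8eef1fe0c5f1a8 (ok_st st_12_2_1_1_2 (net_node (net_leaf n_q_c233) (net_leaf n_q_p222))) au_nil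
theorem u_9a278eeb67c73520 : RefU (c_9a278eeb67c73520) := run_u k_u_9a278eeb67c73520 (ok_st st_12_2_1_1_2 net0) au_nil
theorem u_e5a47cd0a2bf3e09 : RefU (c_e5a47cd0a2bf3e09) := run_u k_u_e5a47cd0a2bf3e09 (ok_st st_12_2_1_1_2 net0) au_nil
theorem u_1c2744efcb26bfcb : RefU (c_1c2744efcb26bfcb) := run_u k_u_1c2744efcb26bfcb (ok_st st_12_2_1_1_2 net0) au_nil
theorem u_d78f0035933b7c41 : RefU (c_d78f0035933b7c41) := run_u k_u_d78f0035933b7c41 (ok_st st_12_2_1_1_2 net0) au_nil
theorem u_83f0f750f851ac2d : RefU (c_83f0f750f851ac2d) := run_u k_u_83f0f750f851ac2d (ok_st st_12_2_1_1_2 net0) au_nil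
theorem u_caacd5e123556b1d : RefU (c_caacd5e123556b1d) := run_u k_u_caacd5e123556b1d (ok_st st_12_2_1_1_2 (net_node (net_leaf n_T0) (net_leaf n_Pb))) au_nil
theorem u_d0feda2f847f2893 : RefU (c_d0feda2f847f2893) := run_u k_u_d0feda2f847f2893 (ok_st st_12_2_1_1_2 net0) au_nil
theorem u_29729980d5d90f81 : RefU (c_29729980d5d90f81) := run_u k_u_29729980d5d90f81 (ok_st st_12_2_1_1_2 (net_node (net_node (net_node (net_leaf n_q_c233) (net_leaf n_q_g333332_01021323142405)) (net_leaf n_T0)) (net_node (net_leaf n_q_p232) (net_leaf n_Pb)))) au_nil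
theorem u_17e880c07c8d4375 : RefU (c_17e880c07c8d4375) := run_u k_u_17e880c07c8d4375 (ok_st st_12_2_1_1_2 net0) au_nil
theorem u_ed3a0dc9b5719dee : RefU (c_ed3a0dc9b5719dee) := run_u k_u_ed3a0dc9b5719dee (ok_st st_12_2_1_1_2 net0) au_nil
theorem u_c8d2d1508e57e45a : RefU (c_c8d2d1508e57e45a) := run_u k_u_c8d2d1508e57e45a (ok_st st_12_2_1_1_2 (net_leaf n_q_p22)) au_nil
theorem u_6f86e9cd41400930 : RefU (c_6f86e9cd41400930) := run_u k_u_6f86e9cd41400930 (ok_st st_12_2_1_1_2 net0) au_nil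
theorem u_40a769a3030fcfd4 : RefU (c_40a769a3030fcfd4) := run_u k_u_40a769a3030fcfd4 (ok_st st_12_2_1_1_2 net0) au_nil
theorem u_6117ed15d301d212 : RefU (c_6117ed15d301d212) := run_u k_u_6117ed15d301d212 (ok_st st_12_2_1_1_2 (net_node (net_leaf n_q_c233) (net_leaf n_q_p222))) au_nil
theorem u_64f1332957e817d6 : RefU (c_64f1332957e817d6) := run_u k_u_64f1332957e817d6 (ok_st st_12_2_1_1_2 net0) au_nil
theorem u_990ae083dd2c93c2 : RefU (c_990ae083dd2c93c2) := run_u k_u_990ae083dd2c93c2 (ok_st st_12_2_1_1_2 net0) au_nil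
theorem u_ffc3debcd602dbd4 : RefU (c_ffc3debcd602dbd4) := run_u k_u_ffc3debcd602dbd4 (ok_st st_12_2_1_1_2 (net_leaf n_q_p22)) au_nil
theorem u_4d2e431e1d70063e : RefU (c_4d2e431e1d70063e) := run_u k_u_4d2e431e1d70063e (ok_st st_12_2_1_1_2 net0) au_nil
theorem u_8c7eda91ff898234 : RefU (c_8c7eda91ff898234) := run_u k_u_8c7eda91ff898234 (ok_st st_12_2_1_1_2 (net_leaf n_q_p232)) au_nil
theorem u_64f843d29e04ec3f : RefU (c_64f843d29e04ec3f) := run_u k_u_64f843d29e04ec3f (ok_st st_12_2_1_1_2 net0) au_nil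
theorem u_c5fe040652efd8a5 : RefU (c_c5fe040652efd8a5) := run_u k_u_c5fe040652efd8a5 (ok_st st_12_2_1_1_2 net0) au_nil
theorem u_9c87e02f26ac2247 : RefU (c_9c87e02f26ac2247) := run_u k_u_9c87e02f26ac2247 (ok_st st_12_2_1_1_2 (net_node (net_leaf n_q_c233) (net_leaf n_q_p232))) au_nil
theorem u_024ed7e8ce621431 : RefU (c_024ed7e8ce621431) := run_u k_u_024ed7e8ce621431 (ok_st st_12_2_1_1_2 net0) au_nil
theorem u_7847d03e24d8181c : RefU (c_7847d03e24d8181c) := run_u k_u_7847d03e24d8181c (ok_st st_12_2_1_1_2 net0) au_nil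
theorem u_75fab2ff3ae279b7 : RefU (c_75fab2ff3ae279b7) := run_u k_u_75fab2ff3ae279b7 (ok_st st_12_2_1_1_2 net0) au_nil
theorem u_62aeb773373d1ed0 : RefU (c_62aeb773373d1ed0) := run_u k_u_62aeb773373d1ed0 (ok_st st_12_2_1_1_2 (net_leaf n_q_p222)) au_nil
theorem u_bb1cb0944a402622 : RefU (c_bb1cb0944a402622) := run_u k_u_bb1cb0944a402622 (ok_st st_12_2_1_1_2 (net_node (net_node (net_leaf n_T0) (net_leaf n_Pb)) (net_leaf n_q_g333332_01021323142405))) au_nil
theorem u_5df0973bac3958a6 : RefU (c_5df0973bac3958a6) := run_u k_u_5df0973bac3958a6 (ok_st st_12_2_1_1_2 (net_leaf n_q_p222)) au_nil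
theorem u_e42645a163dc2e39 : RefU (c_e42645a163dc2e39) := run_u k_u_e42645a163dc2e39 (ok_st st_12_2_1_1_2 net0) au_nil
theorem u_d0b1731a6e794dd9 : RefU (c_d0b1731a6e794dd9) := run_u k_u_d0b1731a6e794dd9 (ok_st st_12_2_1_1_2 (net_node (net_node (net_node (net_leaf n_T0) (net_leaf n_q_g333332_01021323142405)) (net_leaf n_Pe)) (net_node (net_leaf n_Pb) (net_leaf n_q_g2333_01122313)))) au_nil
theorem u_32c20e10caaaa72c : RefU (c_32c20e10caaaa72c) := run_u k_u_32c20e10caaaa72c (ok_st st_12_2_1_1_2 (net_leaf n_T0)) au_nil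
theorem u_980e78a4e234128b : RefU (c_980e78a4e234128b) := run_u k_u_980e78a4e234128b (ok_st st_12_2_1_1_2 (net_leaf n_q_p222)) au_nil
theorem u_0082139f127f2ce3 : RefU (c_0082139f127f2ce3) := run_u k_u_0082139f127f2ce3 (ok_st st_12_2_1_1_2 (net_node (net_leaf n_T0) (net_leaf n_Pb))) au_nil
theorem u_5e4a44ee6da051f0 : RefU (c_5e4a44ee6da051f0) := run_u k_u_5e4a44ee6da051f0 (ok_st st_12_2_1_1_2 (net_node (net_node (net_leaf n_q_p222) (net_leaf n_q_p232)) (net_leaf n_q_c2233))) au_nil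
theorem u_5d56d2dd5bb56abe : RefU (c_5d56d2dd5bb56abe) := run_u k_u_5d56d2dd5bb56abe (ok_st st_12_2_1_1_2 net0) au_nil
theorem u_b575f2da06a23447 : RefU (c_b575f2da06a23447) := run_u k_u_b575f2da06a23447 (ok_st st_12_2_1_1_2 net0) au_nil
theorem u_f8e2f24d0a2f180b : RefU (c_f8e2f24d0a2f180b) := run_u k_u_f8e2f24d0a2f180b (ok_st st_12_2_1_1_2 net0) au_nil
theorem u_94761c776ec48f42 : RefU (c_94761c776ec48f42) := run_u k_u_94761c776ec48f42 (ok_st st_12_2_1_1_2 net0) au_nil
theorem u_006d87c72db5e4e5 : RefU (c_006d87c72db5e4e5) := run_u k_u_006d87c72db5e4e5 (ok_st st_12_2_1_1_2 (net_leaf n_q_p222)) au_nil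
theorem u_5c64a637d468f3a6 : RefU (c_5c64a637d468f3a6) := run_u k_u_5c64a637d468f3a6 (ok_st st_12_2_1_1_2 (net_leaf n_q_p222)) au_nil
theorem u_6a59610d3d22e396 : RefU (c_6a59610d3d22e396) := run_u k_u_6a59610d3d22e396 (ok_st st_12_2_1_1_2 (net_node (net_node (net_leaf n_q_p222) (net_leaf n_q_p232)) (net_leaf n_q_c2233))) au_nil
theorem u_25ac475869b454ef : RefU (c_25ac475869b454ef) := run_u k_u_25ac475869b454ef (ok_st st_12_2_1_1_2 (net_node (net_node (net_leaf n_q_c2233) (net_leaf n_q_p222)) (net_leaf n_q_p232))) au_nil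
theorem u_f436db2bd2dc8656 : RefU (c_f436db2bd2dc8656) := run_u k_u_f436db2bd2dc8656 (ok_st st_12_2_1_1_2 net0) au_nil
theorem u_457209fe66cca14c : RefU (c_457209fe66cca14c) := run_u k_u_457209fe66cca14c (ok_st st_12_2_1_1_2 (net_node (net_node (net_leaf n_q_c2233) (net_leaf n_q_p222)) (net_leaf n_q_p232))) au_nil
theorem u_2f03a906276c5fe1 : RefU (c_2f03a906276c5fe1) := run_u k_u_2f03a906276c5fe1 (ok_st st_12_2_1_1_2 net0) au_nil
theorem u_a349285aa03630a9 : RefU (c_a349285aa03630a9) := run_u k_u_a349285aa03630a9 (ok_st st_12_2_1_1_2 net0) au_nil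
theorem u_a52a0c47d90d0b40 : RefU (c_a52a0c47d90d0b40) := run_u k_u_a52a0c47d90d0b40 (ok_st st_12_2_1_1_2 net0) au_nil
theorem u_859ae3d542f572f0 : RefU (c_859ae3d542f572f0) := run_u k_u_859ae3d542f572f0 (ok_st st_12_2_1_1_2 net0) au_nil
theorem u_5556a900dc882e53 : RefU (c_5556a900dc882e53) := run_u k_u_5556a900dc882e53 (ok_st st_12_2_1_1_2 net0) au_nil
theorem u_708adcb2246234a5 : RefU (c_708adcb2246234a5) := run_u k_u_708adcb2246234a5 (ok_st st_12_2_1_1_2 (net_node (net_node (net_leaf n_q_p222) (net_leaf n_q_p232)) (net_leaf n_q_c2233))) au_nil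
theorem u_d159b8b69d0171aa : RefU (c_d159b8b69d0171aa) := run_u k_u_d159b8b69d0171aa (ok_st st_12_2_1_1_2 net0) au_nil
theorem u_4da4f46e0ad27b1b : RefU (c_4da4f46e0ad27b1b) := run_u k_u_4da4f46e0ad27b1b (ok_st st_12_2_1_1_2 (net_node (net_node (net_node (net_leaf n_q_g2333_01122313) (net_leaf n_q_p222)) (net_leaf n_T0)) (net_node (net_leaf n_q_c2233) (net_leaf n_q_p232)))) au_nil
theorem u_43064c75bc558541 : RefU (c_43064c75bc558541) := run_u k_u_43064c75bc558541 (ok_st st_12_2_1_1_2 (net_node (net_node (net_leaf n_q_p222) (net_leaf n_q_p232)) (net_leaf n_q_c2233))) au_nil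
theorem u_51887b8e0b4f4104 : RefU (c_51887b8e0b4f4104) := run_u k_u_51887b8e0b4f4104 (ok_st st_12_2_1_1_2 (net_node (net_node (net_leaf n_q_p222) (net_leaf n_q_p232)) (net_leaf n_q_c2233))) au_nil
theorem u_be115e9d0046e8bd : RefU (c_be115e9d0046e8bd) := run_u k_u_be115e9d0046e8bd (ok_st st_12_2_1_1_2 (net_node (net_node (net_leaf n_q_p222) (net_leaf n_q_p232)) (net_leaf n_q_c2233))) au_nil
theorem u_fb50d122664bc79c : RefU (c_fb50d122664bc79c) := run_u k_u_fb50d122664bc79c (ok_st st_12_2_1_1_2 (net_node (net_node (net_leaf n_q_p222) (net_leaf n_q_p232)) (net_leaf n_q_c2233))) au_nil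
theorem u_e4351895f641ae67 : RefU (c_e4351895f641ae67) := run_u k_u_e4351895f641ae67 (ok_st st_12_2_1_1_2 net0) au_nil
theorem u_e81d1a7f9e903f40 : RefU (c_e81d1a7f9e903f40) := run_u k_u_e81d1a7f9e903f40 (ok_st st_12_2_1_1_2 (net_node (net_node (net_leaf n_q_p222) (net_leaf n_q_p232)) (net_leaf n_q_c2233))) au_nil
theorem u_21f7cc4dc80e951c : RefU (c_21f7cc4dc80e951c) := run_u k_u_21f7cc4dc80e951c (ok_st st_12_2_1_1_2 (net_leaf n_q_p222)) au_nil
theorem u_e0fbe049217e69cf : RefU (c_e0fbe049217e69cf) := run_u k_u_e0fbe049217e69cf (ok_st st_12_2_1_1_2 (net_node (net_node (net_leaf n_q_p222) (net_leaf n_q_p232)) (net_leaf n_q_c2233))) au_nil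
theorem u_bbdbba073f766c70 : RefU (c_bbdbba073f766c70) := run_u k_u_bbdbba073f766c70 (ok_st st_12_2_1_1_2 net0) au_nil
theorem u_f1a022798de7c05b : RefU (c_f1a022798de7c05b) := run_u k_u_f1a022798de7c05b (ok_st st_12_2_1_1_2 (net_node (net_node (net_leaf n_q_c2233) (net_leaf n_q_p222)) (net_leaf n_q_p232))) au_nil
theorem u_6cc0c98854268cf5 : RefU (c_6cc0c98854268cf5) := run_u k_u_6cc0c98854268cf5 (ok_st st_12_2_1_1_2 (net_leaf n_q_p222)) au_nil
theorem u_82118d1119c637c2 : RefU (c_82118d1119c637c2) := run_u k_u_82118d1119c637c2 (ok_st st_12_2_1_1_2 (net_node (net_node (net_node (net_leaf n_q_c233233) (net_leaf n_T0)) (net_node (net_leaf n_q_p22) (net_leaf n_q_g333332_01021323142405))) (net_node (net_node (net_leaf n_q_p232) (net_leaf n_q_g2333_01122313)) (net_node (net_leaf n_Pe) (net_leaf n_Pb))))) au_nil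
theorem u_24be290940b2a0ec : RefU (c_24be290940b2a0ec) := run_u k_u_24be290940b2a0ec (ok_st st_12_2_1_1_2 (net_node (net_node (net_leaf n_q_p232) (net_leaf n_q_p22)) (net_node (net_leaf n_q_c233233) (net_leaf n_q_c233)))) au_nil
theorem u_2f3ccd3e6f966deb : RefU (c_2f3ccd3e6f966deb) := run_u k_u_2f3ccd3e6f966deb (ok_st st_12_2_1_1_2 (net_node (net_node (net_leaf n_q_p232) (net_leaf n_q_p22)) (net_leaf n_q_c233233))) au_nil
theorem u_37ba52fe47cc1077 : RefU (c_37ba52fe47cc1077) := run_u k_u_37ba52fe47cc1077 (ok_st st_12_2_1_1_2 (net_node (net_node (net_leaf n_q_c233233) (net_leaf n_q_c233)) (net_leaf n_q_p22))) au_nil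
theorem u_9b66ec07fd7bcc47 : RefU (c_9b66ec07fd7bcc47) := run_u k_u_9b66ec07fd7bcc47 (ok_st st_12_2_1_1_2 (net_node (net_node (net_node (net_node (net_leaf n_q_p22) (net_leaf n_q_p232)) (net_leaf n_Pb)) (net_node (net_leaf n_T0) (net_leaf n_q_c233233))) (net_node (net_node (net_leaf n_q_g2333_01122313) (net_leaf n_q_g333332_01021323142405)) (net_node (net_leaf n_Pe) (net_leaf n_q_c233))))) au_nil
theorem u_ce9cc1037e802d25 : RefU (c_ce9cc1037e802d25) := run_u k_u_ce9cc1037e802d25 (ok_st st_12_2_1_1_2 (net_node (net_node (net_node (net_node (net_leaf n_q_g2333_01122313) (net_leaf n_q_p222)) (net_leaf n_Pe)) (net_node (net_leaf n_q_p22) (net_leaf n_q_g333332_01021323142405))) (net_node (net_node (net_node (net_leaf n_q_p232) (net_leaf n_q_c2233)) (net_leaf n_Pb)) (net_node (net_leaf n_T0) (net_leaf n_q_c233233))))) (au_cons u_222a8b4314efbe75 (au_cons u_4aaa5ec4664e3c2b (au_cons u_d97c23347ea29e06 (au_cons u_ea32c24238390f21 au_nil))))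
theorem u_c1db9126a82e37a3 : RefU (c_c1db9126a82e37a3) := run_u k_u_c1db9126a82e37a3 (ok_st st_12_2_1_1_2 (net_node (net_node (net_leaf n_q_p22) (net_leaf n_q_p232)) (net_leaf n_q_c233))) (au_cons u_cef6473eb5b13c2b au_nil)
theorem u_dcfd2a101c888eeb : RefU (c_dcfd2a101c888eeb) := run_u k_u_dcfd2a101c888eeb (ok_st st_12_2_1_1_2 (net_node (net_node (net_leaf n_q_p232) (net_leaf n_q_p22)) (net_leaf n_q_c233))) (au_cons u_afce2c8329c3aff2 au_nil)
theorem u_84bbbe192edec255 : RefU (c_84bbbe192edec255) := run_u k_u_84bbbe192edec255 (ok_st st_12_2_1_1_2 (net_leaf n_Pe)) (au_cons u_7a91061847601495 au_nil)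
theorem u_6364fafaf87e6ae4 : RefU (c_6364fafaf87e6ae4) := run_u k_u_6364fafaf87e6ae4 (ok_st st_12_2_1_1_2 (net_leaf n_Pe)) (au_cons u_d1b43ecb1ebd78b6 au_nil)
theorem u_86c0b001e91bbcc2 : RefU (c_86c0b001e91bbcc2) := run_u k_u_86c0b001e91bbcc2 (ok_st st_12_2_1_1_2 (net_leaf n_q_p232)) (au_cons u_a333fa3bbd7c79d5 au_nil)
theorem u_dc8da7cc87b4bf26 : RefU (c_dc8da7cc87b4bf26) := run_u k_u_dc8da7cc87b4bf26 (ok_st st_12_2_1_1_2 (net_node (net_leaf n_q_g2333_01122313) (net_leaf n_q_p232))) (au_cons u_1c2744efcb26bfcb (au_cons u_d78f0035933b7c41 au_nil))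
theorem u_d47bd8e6a62cd151 : RefU (c_d47bd8e6a62cd151) := run_u k_u_d47bd8e6a62cd151 (ok_st st_12_2_1_1_2 (net_leaf n_q_p232)) (au_cons u_83f0f750f851ac2d au_nil)
theorem u_2be4d59d6e701a3b : RefU (c_2be4d59d6e701a3b) := run_u k_u_2be4d59d6e701a3b (ok_st st_12_2_1_1_2 (net_leaf n_q_p232)) (au_cons u_8c7eda91ff898234 au_nil)
theorem u_6d2f4cd3e01ca406 : RefU (c_6d2f4cd3e01ca406) := run_u k_u_6d2f4cd3e01ca406 (ok_st st_12_2_1_1_2 net0) (au_cons u_62aeb773373d1ed0 au_nil)
theorem u_f823fe39244f09e7 : RefU (c_f823fe39244f09e7) := run_u k_u_f823fe39244f09e7 (ok_st st_12_2_1_1_2 (net_node (net_node (net_node (net_leaf n_q_p232) (net_leaf n_q_g333332_01021323142405)) (net_node (net_leaf n_q_p22) (net_leaf n_Pb))) (net_node (net_node (net_leaf n_q_c233233) (net_leaf n_Pe)) (net_leaf n_T0)))) (au_cons u_24be290940b2a0ec (au_cons u_2f3ccd3e6f966deb (au_cons u_94f078b64da9aa1d (au_cons u_6d1917522664d6c0 (au_cons u_093bf30675d4dc2f au_nil)))))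
theorem u_0756159fcf3b1b27 : RefU (c_0756159fcf3b1b27) := run_u k_u_0756159fcf3b1b27 (ok_st st_12_2_1_1_2 (net_node (net_node (net_node (net_leaf n_q_p22) (net_leaf n_q_g333332_01021323142405)) (net_leaf n_Pe)) (net_node (net_node (net_leaf n_q_p232) (net_leaf n_Pb)) (net_leaf n_T0)))) (au_cons u_37ba52fe47cc1077 au_nil)
theorem u_e8367daa15ff3c80 : RefU (c_e8367daa15ff3c80) := run_u k_u_e8367daa15ff3c80 (ok_st st_12_2_1_1_2 (net_node (net_node (net_node (net_leaf n_q_c233233) (net_leaf n_T0)) (net_node (net_leaf n_q_p232) (net_leaf n_q_c233))) (net_node (net_node (net_leaf n_q_p22) (net_leaf n_q_g333332_01021323142405)) (net_node (net_leaf n_Pe) (net_leaf n_Pb))))) (au_cons u_37ba52fe47cc1077 au_nil)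
theorem u_5156f5eca901c2ab : RefU (c_5156f5eca901c2ab) := run_u k_u_5156f5eca901c2ab (ok_st st_12_2_1_1_2 (net_node (net_node (net_node (net_node (net_leaf n_q_p232) (net_leaf n_q_p222)) (net_leaf n_q_g333332_01021323142405)) (net_node (net_leaf n_T0) (net_leaf n_q_p22))) (net_node (net_node (net_node (net_leaf n_Pe) (net_leaf n_q_c2233)) (net_leaf n_q_c233233)) (net_node (net_leaf n_Pb) (net_leaf n_q_g2333_01122313))))) (au_cons u_a92675a3f95767f0 (au_cons u_bef274862ed59114 (au_cons u_0f53e5cca3f1abd4 (au_cons u_6b8c185695d367ad (au_cons u_3872804a69f27269 (au_cons u_0af276de24ea0eb1 (au_cons u_9b66ec07fd7bcc47 au_nil)))))))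
theorem u_756362ce4ec6bcfb : RefU (c_756362ce4ec6bcfb) := run_u k_u_756362ce4ec6bcfb (ok_st st_12_2_1_1_2 (net_node (net_node (net_node (net_leaf n_q_c233) (net_leaf n_q_p222)) (net_leaf n_q_p232)) (net_node (net_leaf n_q_p22) (net_leaf n_q_c2233)))) (au_cons u_dcfd2a101c888eeb (au_cons u_afce2c8329c3aff2 au_nil))
theorem u_1d7137a12b90c4a2 : RefU (c_1d7137a12b90c4a2) := run_u k_u_1d7137a12b90c4a2 (ok_st st_12_2_1_1_2 (net_node (net_node (net_leaf n_q_p232) (net_leaf n_q_g333332_01021323142405)) (net_leaf n_T0))) (au_cons u_ede26dd8f69e83ff (au_cons u_86c0b001e91bbcc2 (au_cons u_a333fa3bbd7c79d5 au_nil)))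
theorem u_fd53403df8d697da : RefU (c_fd53403df8d697da) := run_u k_u_fd53403df8d697da (ok_st st_12_2_1_1_2 (net_node (net_node (net_leaf n_q_p232) (net_leaf n_q_p22)) (net_leaf n_q_c233233))) (au_cons u_24be290940b2a0ec (au_cons u_0756159fcf3b1b27 au_nil))
theorem u_75f1b6766d24b4b0 : RefU (c_75f1b6766d24b4b0) := run_u k_u_75f1b6766d24b4b0 (ok_st st_12_2_1_1_2 (net_node (net_node (net_node (net_node (net_leaf n_q_g2333_01122313) (net_leaf n_Pb)) (net_leaf n_q_c233)) (net_node (net_leaf n_T0) (net_leaf n_q_p222))) (net_node (net_node (net_node (net_leaf n_q_p232) (net_leaf n_Pe)) (net_leaf n_q_p22)) (net_node (net_leaf n_q_g333332_01021323142405) (net_leaf n_q_c2233))))) (au_cons u_6d59b2912ac0c554 (au_cons u_76d24688ac014eae (au_cons u_d9a768cbaaf9f1b0 (au_cons u_f0d031fe3b9fbdbc (au_cons u_f823fe39244f09e7 (au_cons u_fd53403df8d697da (au_cons u_4aaa5ec4664e3c2b au_nil)))))))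
theorem u_12ee10a11dd63115 : RefU (c_12ee10a11dd63115) := run_u k_u_12ee10a11dd63115 (ok_st st_12_2_1_1_2 (net_node (net_node (net_node (net_node (net_leaf n_q_g2333_01122313) (net_leaf n_q_c2233)) (net_leaf n_q_p22)) (net_node (net_node (net_leaf n_T0) (net_leaf n_Pe)) (net_leaf n_q_c233233))) (net_node (net_node (net_node (net_leaf n_q_p232) (net_leaf n_Pb)) (net_leaf n_q_p222)) (net_node (net_leaf n_q_g333332_01021323142405) (net_leaf n_q_c233))))) (au_cons u_82118d1119c637c2 (au_cons u_600a1cb73e20124b (au_cons u_58bef3a24c6c57ca (au_cons u_474ab2d158016afa (au_cons u_f9eb80144294a70f (au_cons u_c3162a750dedd05e (au_cons u_58114f0396bf0c10 (au_cons u_fd53403df8d697da (au_cons u_e8367daa15ff3c80 (au_cons u_4aaa5ec4664e3c2b (au_cons u_ce9cc1037e802d25 au_nil)))))))))))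
theorem u_d4ec9c85803c0e27 : RefU (c_d4ec9c85803c0e27) := run_u k_u_d4ec9c85803c0e27 (ok_st st_12_2_1_1_2 (net_node (net_node (net_node (net_node (net_leaf n_q_g2333_01122313) (net_leaf n_q_c2233)) (net_leaf n_T0)) (net_node (net_leaf n_q_p232) (net_leaf n_q_p22))) (net_node (net_node (net_leaf n_q_g333332_01021323142405) (net_leaf n_q_c233)) (net_node (net_leaf n_q_p222) (net_leaf n_q_c233233))))) (au_cons u_d89d302a48b605a7 (au_cons u_634b1d2a6f966701 (au_cons u_1fa640cf09c6827e (au_cons u_82118d1119c637c2 (au_cons u_600a1cb73e20124b (au_cons u_75f1b6766d24b4b0 (au_cons u_12ee10a11dd63115 (au_cons u_5156f5eca901c2ab au_nil))))))))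
theorem u_ceac48fbf83ff191 : RefU (c_ceac48fbf83ff191) := run_u k_u_ceac48fbf83ff191 (ok_st st_12_2_1_1_2 (net_node (net_node (net_node (net_node (net_leaf n_q_c233) (net_leaf n_Pe)) (net_leaf n_q_p22)) (net_node (net_leaf n_q_p232) (net_leaf n_T0))) (net_node (net_node (net_leaf n_q_g2333_01122313) (net_leaf n_q_g333332_01021323142405)) (net_node (net_leaf n_q_c233233) (net_leaf n_Pb))))) (au_cons u_2f614b41ca2b0ba9 (au_cons u_d4ec9c85803c0e27 au_nil))
theorem n_q_c2332333 : NE q_c2332333 := ne_u k_n_q_c2332333 (ok_st st_12_2_1_1_2 (net_node (net_node (net_node (net_leaf n_T0) (net_leaf n_Pb)) (net_node (net_leaf n_q_p232) (net_leaf n_q_c233))) (net_node (net_node (net_leaf n_q_c233233) (net_leaf n_Pe)) (net_node (net_leaf n_q_g333332_01021323142405) (net_leaf n_q_g2333_01122313))))) (au_cons u_2f614b41ca2b0ba9 (au_cons u_ceac48fbf83ff191 au_nil))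
theorem u_b19170541f02cdcb : RefU (c_b19170541f02cdcb) := run_u k_u_b19170541f02cdcb (ok_st st_12_2_1_1_2 (net_node (net_node (net_node (net_leaf n_q_c233) (net_leaf n_q_g333332_01021323142405)) (net_node (net_leaf n_q_p22) (net_leaf n_q_p222))) (net_node (net_node (net_leaf n_q_p232) (net_leaf n_T0)) (net_leaf n_q_c2332333)))) au_nil
theorem u_d3291055d4a653c2 : RefU (c_d3291055d4a653c2) := run_u k_u_d3291055d4a653c2 (ok_st st_12_2_1_1_2 (net_node (net_node (net_node (net_leaf n_q_c233) (net_leaf n_q_c233233)) (net_leaf n_q_p22)) (net_node (net_node (net_leaf n_q_c2332333) (net_leaf n_q_p232)) (net_leaf n_q_p222)))) au_nil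
theorem u_4a704a0de7c5c5a0 : RefU (c_4a704a0de7c5c5a0) := run_u k_u_4a704a0de7c5c5a0 (ok_st st_12_2_1_1_2 (net_node (net_node (net_node (net_leaf n_q_c2332333) (net_leaf n_Pe)) (net_node (net_leaf n_T0) (net_leaf n_q_p222))) (net_node (net_node (net_leaf n_Pb) (net_leaf n_q_p22)) (net_leaf n_q_g333332_01021323142405)))) au_nil
theorem u_231ec7d12fec77bc : RefU (c_231ec7d12fec77bc) := run_u k_u_231ec7d12fec77bc (ok_st st_12_2_1_1_2 (net_node (net_node (net_node (net_leaf n_q_p222) (net_leaf n_q_c233233)) (net_leaf n_q_p232)) (net_node (net_leaf n_q_c2233) (net_leaf n_q_c2332333)))) au_nil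
theorem u_5b12e8f74928c89f : RefU (c_5b12e8f74928c89f) := run_u k_u_5b12e8f74928c89f (ok_st st_12_2_1_1_2 (net_node (net_node (net_node (net_node (net_leaf n_q_p22) (net_leaf n_q_c233)) (net_leaf n_T0)) (net_node (net_leaf n_q_c233233) (net_leaf n_q_g333332_01021323142405))) (net_node (net_node (net_leaf n_q_c2332333) (net_leaf n_q_p232)) (net_node (net_leaf n_Pe) (net_leaf n_Pb))))) au_nil
theorem u_13bd0edf1c1f6425 : RefU (c_13bd0edf1c1f6425) := run_u k_u_13bd0edf1c1f6425 (ok_st st_12_2_1_1_2 (net_node (net_node (net_node (net_leaf n_q_c233) (net_leaf n_T0)) (net_leaf n_q_p22)) (net_node (net_node (net_leaf n_q_c2332333) (net_leaf n_Pb)) (net_leaf n_q_g333332_01021323142405)))) au_nil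
theorem u_6d073820813b9f84 : RefU (c_6d073820813b9f84) := run_u k_u_6d073820813b9f84 (ok_st st_12_2_1_1_2 (net_node (net_node (net_node (net_node (net_leaf n_q_c2332333) (net_leaf n_Pb)) (net_leaf n_q_g2333_01122313)) (net_node (net_leaf n_Pe) (net_leaf n_q_p222))) (net_node (net_node (net_leaf n_q_p22) (net_leaf n_q_g333332_01021323142405)) (net_node (net_leaf n_T0) (net_leaf n_q_p232))))) au_nil
theorem u_e2fee339a88cb014 : RefU (c_e2fee339a88cb014) := run_u k_u_e2fee339a88cb014 (ok_st st_12_2_1_1_2 (net_node (net_node (net_node (net_node (net_leaf n_q_c2332333) (net_leaf n_Pb)) (net_leaf n_Pe)) (net_node (net_leaf n_q_p22) (net_leaf n_q_g2333_01122313))) (net_node (net_node (net_leaf n_q_c233) (net_leaf n_q_g333332_01021323142405)) (net_node (net_leaf n_q_p232) (net_leaf n_T0))))) au_nil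
theorem u_91f1b57651cc200b : RefU (c_91f1b57651cc200b) := run_u k_u_91f1b57651cc200b (ok_st st_12_2_1_1_2 (net_node (net_node (net_node (net_node (net_leaf n_q_c233) (net_leaf n_Pb)) (net_leaf n_q_p232)) (net_node (net_leaf n_q_p22) (net_leaf n_q_g333332_01021323142405))) (net_node (net_node (net_leaf n_q_g2333_01122313) (net_leaf n_Pe)) (net_node (net_leaf n_q_c2332333) (net_leaf n_T0))))) au_nil
theorem u_c73775ba89e981e0 : RefU (c_c73775ba89e981e0) := run_u k_u_c73775ba89e981e0 (ok_st st_12_2_1_1_2 (net_node (net_node (net_node (net_leaf n_q_p22) (net_leaf n_q_p232)) (net_node (net_leaf n_Pe) (net_leaf n_q_g333332_01021323142405))) (net_node (net_node (net_leaf n_q_c2332333) (net_leaf n_Pb)) (net_leaf n_T0)))) au_nil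
theorem u_c300430885573b72 : RefU (c_c300430885573b72) := run_u k_u_c300430885573b72 (ok_st st_12_2_1_1_2 (net_node (net_node (net_node (net_leaf n_q_c2332333) (net_leaf n_q_g333332_01021323142405)) (net_leaf n_T0)) (net_node (net_node (net_leaf n_q_p232) (net_leaf n_Pe)) (net_leaf n_Pb)))) au_nil
theorem u_56f26ed0b46f3c47 : RefU (c_56f26ed0b46f3c47) := run_u k_u_56f26ed0b46f3c47 (ok_st st_12_2_1_1_2 (net_node (net_node (net_node (net_leaf n_q_c2332333) (net_leaf n_q_p222)) (net_leaf n_q_p22)) (net_node (net_leaf n_q_g333332_01021323142405) (net_leaf n_T0)))) au_nil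
theorem u_74111c4695e5756b : RefU (c_74111c4695e5756b) := run_u k_u_74111c4695e5756b (ok_st st_12_2_1_1_2 (net_node (net_node (net_node (net_leaf n_q_p232) (net_leaf n_Pb)) (net_leaf n_T0)) (net_node (net_leaf n_q_c2332333) (net_leaf n_q_g333332_01021323142405)))) au_nil
theorem u_55365c0d48bf39b7 : RefU (c_55365c0d48bf39b7) := run_u k_u_55365c0d48bf39b7 (ok_st st_12_2_1_1_2 (net_node (net_node (net_node (net_leaf n_T0) (net_leaf n_Pb)) (net_leaf n_q_c2332333)) (net_node (net_leaf n_q_p232) (net_leaf n_q_g333332_01021323142405)))) au_nil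
theorem u_920238c2c730a3ca : RefU (c_920238c2c730a3ca) := run_u k_u_920238c2c730a3ca (ok_st st_12_2_1_1_2 (net_node (net_node (net_node (net_leaf n_q_p222) (net_leaf n_Pe)) (net_node (net_leaf n_q_p232) (net_leaf n_Pb))) (net_node (net_node (net_leaf n_q_c2332333) (net_leaf n_q_g333332_01021323142405)) (net_leaf n_T0)))) au_nil
theorem u_8900d7d438b48b78 : RefU (c_8900d7d438b48b78) := run_u k_u_8900d7d438b48b78 (ok_st st_12_2_1_1_2 (net_node (net_node (net_node (net_leaf n_q_p22) (net_leaf n_q_p222)) (net_node (net_leaf n_q_c2332333) (net_leaf n_q_g333332_01021323142405))) (net_node (net_node (net_leaf n_T0) (net_leaf n_Pe)) (net_node (net_leaf n_q_p232) (net_leaf n_Pb))))) au_nil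
theorem u_feeadcecac51e954 : RefU (c_feeadcecac51e954) := run_u k_u_feeadcecac51e954 (ok_st st_12_2_1_1_2 (net_node (net_node (net_node (net_leaf n_q_c2332333) (net_leaf n_q_p222)) (net_leaf n_q_c2233)) (net_node (net_leaf n_q_c233233) (net_leaf n_q_p232)))) au_nil
theorem u_0aa230b01606983a : RefU (c_0aa230b01606983a) := run_u k_u_0aa230b01606983a (ok_st st_12_2_1_1_2 (net_node (net_node (net_node (net_leaf n_q_p22) (net_leaf n_q_p232)) (net_node (net_leaf n_T0) (net_leaf n_q_g333332_01021323142405))) (net_node (net_node (net_leaf n_q_c2332333) (net_leaf n_q_p222)) (net_node (net_leaf n_Pe) (net_leaf n_Pb))))) (au_cons u_a09aa9864275b224 (au_cons u_b91a2f867d246e73 (au_cons u_362afd94601e13ff (au_cons u_0f3039de2484f846 (au_cons u_333f5df0884e8eb0 au_nil)))))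
theorem u_41461675f2c4c318 : RefU (c_41461675f2c4c318) := run_u k_u_41461675f2c4c318 (ok_st st_12_2_1_1_2 (net_node (net_node (net_node (net_leaf n_q_p222) (net_leaf n_q_p22)) (net_node (net_leaf n_T0) (net_leaf n_q_p232))) (net_node (net_node (net_leaf n_q_g333332_01021323142405) (net_leaf n_q_c2332333)) (net_node (net_leaf n_Pe) (net_leaf n_Pb))))) au_nil
theorem u_410627f4483811e2 : RefU (c_410627f4483811e2) := run_u k_u_410627f4483811e2 (ok_st st_12_2_1_1_2 (net_node (net_node (net_node (net_leaf n_q_c2332333) (net_leaf n_q_g333332_01021323142405)) (net_node (net_leaf n_q_p22) (net_leaf n_Pb))) (net_node (net_node (net_leaf n_q_c233233) (net_leaf n_T0)) (net_leaf n_q_p232)))) au_nil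
theorem u_50197ec003ffde31 : RefU (c_50197ec003ffde31) := run_u k_u_50197ec003ffde31 (ok_st st_12_2_1_1_2 (net_node (net_node (net_node (net_leaf n_q_p232) (net_leaf n_q_c2332333)) (net_node (net_leaf n_T0) (net_leaf n_q_p22))) (net_node (net_node (net_leaf n_Pe) (net_leaf n_q_c233)) (net_node (net_leaf n_q_g333332_01021323142405) (net_leaf n_Pb))))) au_nil
theorem u_8936e0962594d00c : RefU (c_8936e0962594d00c) := run_u k_u_8936e0962594d00c (ok_st st_12_2_1_1_2 (net_node (net_node (net_leaf n_q_c2332333) (net_leaf n_T0)) (net_node (net_leaf n_Pe) (net_leaf n_q_g333332_01021323142405)))) au_nil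
theorem u_26fd06e8d82190df : RefU (c_26fd06e8d82190df) := run_u k_u_26fd06e8d82190df (ok_st st_12_2_1_1_2 (net_node (net_node (net_node (net_leaf n_q_c2332333) (net_leaf n_q_p22)) (net_leaf n_q_g333332_01021323142405)) (net_node (net_node (net_leaf n_q_p232) (net_leaf n_Pb)) (net_leaf n_T0)))) au_nil
theorem u_a729745231f28519 : RefU (c_a729745231f28519) := run_u k_u_a729745231f28519 (ok_st st_12_2_1_1_2 (net_node (net_node (net_node (net_leaf n_q_c2332333) (net_leaf n_T0)) (net_node (net_leaf n_q_c233) (net_leaf n_q_p222))) (net_node (net_node (net_leaf n_q_c2233) (net_leaf n_q_p22)) (net_leaf n_q_g333332_01021323142405)))) au_nil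
theorem u_d8ad3c471205e0d3 : RefU (c_d8ad3c471205e0d3) := run_u k_u_d8ad3c471205e0d3 (ok_st st_12_2_1_1_2 (net_node (net_node (net_node (net_leaf n_q_p22) (net_leaf n_q_p232)) (net_node (net_leaf n_Pe) (net_leaf n_q_g333332_01021323142405))) (net_node (net_node (net_leaf n_q_c2332333) (net_leaf n_Pb)) (net_leaf n_T0)))) au_nil
theorem u_2b197f6af5d60e00 : RefU (c_2b197f6af5d60e00) := run_u k_u_2b197f6af5d60e00 (ok_st st_12_2_1_1_2 (net_node (net_node (net_node (net_leaf n_Pe) (net_leaf n_q_p22)) (net_leaf n_T0)) (net_node (net_node (net_leaf n_Pb) (net_leaf n_q_c2332333)) (net_leaf n_q_g333332_01021323142405)))) au_nil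
theorem u_15caa087b4ecdda3 : RefU (c_15caa087b4ecdda3) := run_u k_u_15caa087b4ecdda3 (ok_st st_12_2_1_1_2 (net_node (net_node (net_node (net_leaf n_q_p22) (net_leaf n_q_p232)) (net_node (net_leaf n_Pe) (net_leaf n_q_g333332_01021323142405))) (net_node (net_node (net_leaf n_q_c2332333) (net_leaf n_Pb)) (net_leaf n_T0)))) au_nil
theorem u_051da5acc708f110 : RefU (c_051da5acc708f110) := run_u k_u_051da5acc708f110 (ok_st st_12_2_1_1_2 (net_node (net_node (net_leaf n_T0) (net_leaf n_Pb)) (net_node (net_leaf n_q_c2332333) (net_leaf n_q_g333332_01021323142405)))) au_nil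
theorem u_34bfee7ed762cb78 : RefU (c_34bfee7ed762cb78) := run_u k_u_34bfee7ed762cb78 (ok_st st_12_2_1_1_2 (net_node (net_node (net_leaf n_T0) (net_leaf n_Pb)) (net_node (net_leaf n_q_c2332333) (net_leaf n_q_g333332_01021323142405)))) au_nil
theorem u_91f790bc9ddf7eea : RefU (c_91f790bc9ddf7eea) := run_u k_u_91f790bc9ddf7eea (ok_st st_12_2_1_1_2 (net_node (net_node (net_leaf n_q_p222) (net_leaf n_q_p232)) (net_node (net_leaf n_q_c2233) (net_leaf n_q_c2332333)))) au_nil
theorem u_64802b4acefd67b9 : RefU (c_64802b4acefd67b9) := run_u k_u_64802b4acefd67b9 (ok_st st_12_2_1_1_2 (net_node (net_node (net_leaf n_q_g2333_01122313) (net_leaf n_q_c2233)) (net_node (net_leaf n_q_p222) (net_leaf n_q_p232)))) (au_cons u_b12049357e9c1343 (au_cons u_231ec7d12fec77bc au_nil))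
theorem u_cb57169c8bce69af : RefU (c_cb57169c8bce69af) := run_u k_u_cb57169c8bce69af (ok_st st_12_2_1_1_2 (net_leaf n_q_p222)) (au_cons u_b776355fb8e04cd0 (au_cons u_9f70cdf43b4b6aae (au_cons u_6d073820813b9f84 (au_cons u_d1f413fc1ff7ef28 au_nil))))
theorem u_29cd2826f849b0f5 : RefU (c_29cd2826f849b0f5) := run_u k_u_29cd2826f849b0f5 (ok_st st_12_2_1_1_2 net0) (au_cons u_b2343c41c08ccdae (au_cons u_e2fee339a88cb014 (au_cons u_d5c0a6f5ad55fa06 au_nil)))
theorem u_6a0dfcc3f20973fa : RefU (c_6a0dfcc3f20973fa) := run_u k_u_6a0dfcc3f20973fa (ok_st st_12_2_1_1_2 net0) (au_cons u_91f1b57651cc200b (au_cons u_ceb5a22cc1c5fa9f au_nil))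
theorem u_1eb62129d0ace1d0 : RefU (c_1eb62129d0ace1d0) := run_u k_u_1eb62129d0ace1d0 (ok_st st_12_2_1_1_2 (net_node (net_node (net_node (net_node (net_leaf n_q_p22) (net_leaf n_Pb)) (net_leaf n_T0)) (net_node (net_leaf n_q_c2332333) (net_leaf n_q_p232))) (net_node (net_node (net_node (net_leaf n_q_g2333_01122313) (net_leaf n_PP)) (net_leaf n_q_g333333_0102132314240535)) (net_node (net_leaf n_Pe) (net_leaf n_q_g333332_01021323142405))))) (au_cons u_1eaf0483e2ab3aa4 (au_cons u_c73775ba89e981e0 au_nil))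
theorem u_b81afb904c030fdd : RefU (c_b81afb904c030fdd) := run_u k_u_b81afb904c030fdd (ok_st st_12_2_1_1_2 (net_node (net_node (net_node (net_leaf n_q_c2332333) (net_leaf n_q_g333332_01021323142405)) (net_leaf n_T0)) (net_node (net_node (net_leaf n_q_p232) (net_leaf n_Pb)) (net_leaf n_Pe)))) (au_cons u_74111c4695e5756b (au_cons u_920238c2c730a3ca au_nil))
theorem u_129d21165f247cff : RefU (c_129d21165f247cff) := run_u k_u_129d21165f247cff (ok_st st_12_2_1_1_2 (net_node (net_node (net_node (net_leaf n_T0) (net_leaf n_q_g333332_01021323142405)) (net_node (net_leaf n_q_c2332333) (net_leaf n_Pb))) (net_node (net_node (net_leaf n_Pe) (net_leaf n_q_p22)) (net_leaf n_q_p232)))) (au_cons u_410627f4483811e2 (au_cons u_50197ec003ffde31 au_nil))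
theorem u_b360ee7775d02a79 : RefU (c_b360ee7775d02a79) := run_u k_u_b360ee7775d02a79 (ok_st st_12_2_1_1_2 (net_node (net_node (net_node (net_leaf n_q_g2333_01122313) (net_leaf n_T0)) (net_leaf n_q_p222)) (net_node (net_leaf n_q_p232) (net_leaf n_q_c2233)))) (au_cons u_b12049357e9c1343 (au_cons u_d3291055d4a653c2 (au_cons u_4a704a0de7c5c5a0 (au_cons u_64802b4acefd67b9 (au_cons u_231ec7d12fec77bc (au_cons u_5b12e8f74928c89f au_nil))))))
theorem u_cd80fefcae7b8d51 : RefU (c_cd80fefcae7b8d51) := run_u k_u_cd80fefcae7b8d51 (ok_st st_12_2_1_1_2 (net_node (net_node (net_leaf n_q_p232) (net_leaf n_q_c2233)) (net_node (net_leaf n_q_p222) (net_leaf n_T0)))) (au_cons u_73ea9dd2d96ac7e2 (au_cons u_014ed785b74e5208 (au_cons u_8e2b62f9d0f5c2b2 (au_cons u_29cd2826f849b0f5 (au_cons u_b2343c41c08ccdae (au_cons u_c1db9126a82e37a3 (au_cons u_47e7d53354d2559b (au_cons u_e2fee339a88cb014 (au_cons u_756362ce4ec6bcfb (au_cons u_d5c0a6f5ad55fa06 au_nil))))))))))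
theorem u_7019b4ebc2d80465 : RefU (c_7019b4ebc2d80465) := run_u k_u_7019b4ebc2d80465 (ok_st st_12_2_1_1_2 (net_node (net_node (net_leaf n_q_p232) (net_leaf n_q_c2233)) (net_node (net_leaf n_q_p222) (net_leaf n_T0)))) (au_cons u_6a0dfcc3f20973fa (au_cons u_91f1b57651cc200b (au_cons u_1eb62129d0ace1d0 (au_cons u_ceb5a22cc1c5fa9f au_nil))))
theorem u_6c9f70d2d711523d : RefU (c_6c9f70d2d711523d) := run_u k_u_6c9f70d2d711523d (ok_st st_12_2_1_1_2 (net_node (net_node (net_node (net_leaf n_q_c233) (net_leaf n_T0)) (net_node (net_leaf n_q_p232) (net_leaf n_q_g2333_01122313))) (net_node (net_node (net_leaf n_q_p22) (net_leaf n_q_p222)) (net_leaf n_q_c2233)))) (au_cons u_d9e4c62775aa1584 (au_cons u_b776355fb8e04cd0 (au_cons u_aca6b23c62291c03 (au_cons u_b360ee7775d02a79 (au_cons u_9f70cdf43b4b6aae (au_cons u_13bd0edf1c1f6425 (au_cons u_db445841fe06d16f (au_cons u_cb57169c8bce69af (au_cons u_6d073820813b9f84 (au_cons u_cd80fefcae7b8d51 (au_cons u_d1f413fc1ff7ef28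 au_nil)))))))))))
theorem u_3d3b2722e50222ea : RefU (c_3d3b2722e50222ea) := run_u k_u_3d3b2722e50222ea (ok_st st_12_2_1_1_2 (net_leaf n_T0)) (au_cons u_b19170541f02cdcb (au_cons u_7019b4ebc2d80465 au_nil))
theorem n_q_c333 : NE q_c333 := ne_u k_n_q_c333 (ok_st st_12_2_1_1_2 (net_node (net_node (net_node (net_leaf n_q_g2333_01122313) (net_leaf n_q_p222)) (net_leaf n_T0)) (net_node (net_leaf n_q_p232) (net_leaf n_q_c2233)))) (au_cons u_3d3b2722e50222ea (au_cons u_b19170541f02cdcb (au_cons u_6c9f70d2d711523d (au_cons u_7019b4ebc2d80465 au_nil))))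
theorem u_617f01268187bce5 : RefU (c_617f01268187bce5) := run_u k_u_617f01268187bce5 (ok_st st_12_2_1_1_2 (net_node (net_node (net_node (net_leaf n_q_c2332333) (net_leaf n_Pe)) (net_node (net_leaf n_q_p232) (net_leaf n_q_p22))) (net_node (net_node (net_leaf n_T0) (net_leaf n_q_g333332_01021323142405)) (net_node (net_leaf n_q_g2333_01122313) (net_leaf n_q_c333))))) au_nil
theorem u_6d05ac2951c313e7 : RefU (c_6d05ac2951c313e7) := run_u k_u_6d05ac2951c313e7 (ok_st st_12_2_1_1_2 (net_node (net_node (net_node (net_leaf n_q_c2332333) (net_leaf n_T0)) (net_node (net_leaf n_q_p222) (net_leaf n_q_g333332_01021323142405))) (net_node (net_node (net_leaf n_q_p232) (net_leaf n_Pe)) (net_node (net_leaf n_q_c333) (net_leaf n_Pb))))) (au_cons u_55365c0d48bf39b7 au_nil)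
theorem u_4a8ad8f6a9d6e71d : RefU (c_4a8ad8f6a9d6e71d) := run_u k_u_4a8ad8f6a9d6e71d (ok_st st_12_2_1_1_2 (net_node (net_node (net_node (net_node (net_leaf n_q_g2333_01122313) (net_leaf n_Pb)) (net_leaf n_q_p232)) (net_node (net_leaf n_q_c233233) (net_leaf n_T0))) (net_node (net_node (net_node (net_leaf n_q_c2332333) (net_leaf n_q_c333)) (net_leaf n_Pe)) (net_node (net_leaf n_q_p22) (net_leaf n_q_g333332_01021323142405))))) (au_cons u_e33698bcfcc1940c (au_cons u_bcd3d07336cf3755 (au_cons u_41461675f2c4c318 (au_cons u_129d21165f247cff au_nil))))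
theorem u_26386668ce895781 : RefU (c_26386668ce895781) := run_u k_u_26386668ce895781 (ok_st st_12_2_1_1_2 (net_node (net_node (net_node (net_leaf n_q_c333) (net_leaf n_q_p232)) (net_node (net_leaf n_T0) (net_leaf n_q_g333332_01021323142405))) (net_node (net_node (net_leaf n_q_c2332333) (net_leaf n_Pe)) (net_node (net_leaf n_q_p22) (net_leaf n_Pb))))) au_nil
theorem u_9f4027e8bc176964 : RefU (c_9f4027e8bc176964) := run_u k_u_9f4027e8bc176964 (ok_st st_12_2_1_1_2 (net_leaf n_q_c333)) (au_cons u_8a2eb0c1bd72db0b au_nil)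
theorem u_79ced420f4840279 : RefU (c_79ced420f4840279) := run_u k_u_79ced420f4840279 (ok_st st_12_2_1_1_2 (net_node (net_node (net_node (net_leaf n_q_c333) (net_leaf n_q_g333332_01021323142405)) (net_leaf n_T0)) (net_node (net_node (net_leaf n_q_c2332333) (net_leaf n_Pb)) (net_leaf n_q_p232)))) au_nil
theorem u_c3cd2eef4daf4a51 : RefU (c_c3cd2eef4daf4a51) := run_u k_u_c3cd2eef4daf4a51 (ok_st st_12_2_1_1_2 (net_node (net_node (net_leaf n_q_p232) (net_leaf n_T0)) (net_leaf n_q_c333))) (au_cons u_6367b8bc639f95e1 (au_cons u_cfddba66c506d2ec au_nil))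
theorem u_ab6545f9d55c93fd : RefU (c_ab6545f9d55c93fd) := run_u k_u_ab6545f9d55c93fd (ok_st st_12_2_1_1_2 (net_node (net_node (net_node (net_node (net_leaf n_q_p22) (net_leaf n_q_g333332_01021323142405)) (net_leaf n_Pe)) (net_node (net_node (net_leaf n_q_c333) (net_leaf n_Pb)) (net_leaf n_q_c233233))) (net_node (net_node (net_node (net_leaf n_q_c2332333) (net_leaf n_q_g333333_0102132314240535)) (net_leaf n_T0)) (net_node (net_node (net_leaf n_q_g2333_01122313) (net_leaf n_PP)) (net_leaf n_q_p232))))) au_nil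
theorem u_24a03b86e15be8c3 : RefU (c_24a03b86e15be8c3) := run_u k_u_24a03b86e15be8c3 (ok_st st_12_2_1_1_2 (net_node (net_node (net_node (net_leaf n_q_p22) (net_leaf n_q_c333)) (net_node (net_leaf n_T0) (net_leaf n_q_p222))) (net_node (net_node (net_leaf n_Pe) (net_leaf n_q_p232)) (net_node (net_leaf n_q_g333332_01021323142405) (net_leaf n_q_c2332333))))) au_nil
theorem u_abb3968b4d6c4162 : RefU (c_abb3968b4d6c4162) := run_u k_u_abb3968b4d6c4162 (ok_st st_12_2_1_1_2 (net_node (net_node (net_node (net_node (net_leaf n_q_p22) (net_leaf n_q_g333333_0102132314240535)) (net_leaf n_Pe)) (net_node (net_node (net_leaf n_q_c2332333) (net_leaf n_Pb)) (net_leaf n_q_c233233))) (net_node (net_node (net_node (net_leaf n_q_c333) (net_leaf n_q_g333332_01021323142405)) (net_leaf n_T0)) (net_node (net_node (net_leaf n_q_g2333_01122313) (net_leaf n_PP)) (net_leaf n_q_p232))))) (au_cons u_cdab37ab7d6145b6 au_nil)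
theorem u_24bf1bc4ea9d4762 : RefU (c_24bf1bc4ea9d4762) := run_u k_u_24bf1bc4ea9d4762 (ok_st st_12_2_1_1_2 (net_node (net_node (net_node (net_node (net_leaf n_q_c333) (net_leaf n_q_p22)) (net_leaf n_Pe)) (net_node (net_leaf n_q_g2333_01122313) (net_leaf n_T0))) (net_node (net_node (net_node (net_leaf n_q_c2332333) (net_leaf n_PP)) (net_leaf n_q_g333332_01021323142405)) (net_node (net_leaf n_q_p232) (net_leaf n_Pb))))) au_nil
theorem u_3dc110cac7f3103c : RefU (c_3dc110cac7f3103c) := run_u k_u_3dc110cac7f3103c (ok_st st_12_2_1_1_2 (net_node (net_node (net_node (net_leaf n_q_c333) (net_leaf n_q_g2333_01122313)) (net_node (net_leaf n_T0) (net_leaf n_q_p222))) (net_node (net_node (net_leaf n_PP) (net_leaf n_q_p232)) (net_leaf n_q_c2233)))) au_nil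
theorem u_d6afcad8c9da024f : RefU (c_d6afcad8c9da024f) := run_u k_u_d6afcad8c9da024f (ok_st st_12_2_1_1_2 (net_node (net_node (net_node (net_leaf n_T0) (net_leaf n_Pe)) (net_leaf n_q_c333)) (net_node (net_leaf n_Pb) (net_leaf n_q_g333332_01021323142405)))) (au_cons u_5b754d7599c3c048 au_nil)
theorem u_f1ab83b377dca353 : RefU (c_f1ab83b377dca353) := run_u k_u_f1ab83b377dca353 (ok_st st_12_2_1_1_2 (net_node (net_node (net_leaf n_q_c333) (net_leaf n_q_c233)) (net_leaf n_q_p232))) (au_cons u_875c5de254e5c136 (au_cons u_67cd4e701ce60d04 au_nil))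
theorem u_6ee121ee4e5e21c7 : RefU (c_6ee121ee4e5e21c7) := run_u k_u_6ee121ee4e5e21c7 (ok_st st_12_2_1_1_2 (net_node (net_leaf n_q_c233) (net_leaf n_q_p22))) (au_cons u_6d05ac2951c313e7 au_nil)
theorem u_69e7107336646c9f : RefU (c_69e7107336646c9f) := run_u k_u_69e7107336646c9f (ok_st st_12_2_1_1_2 net0) (au_cons u_f1ab83b377dca353 au_nil)
theorem u_26f59285591cbf10 : RefU (c_26f59285591cbf10) := run_u k_u_26f59285591cbf10 (ok_st st_12_2_1_1_2 (net_node (net_node (net_node (net_leaf n_q_c233) (net_leaf n_q_g2333_01122313)) (net_node (net_leaf n_q_p22) (net_leaf n_q_p222))) (net_node (net_node (net_leaf n_q_p232) (net_leaf n_q_c2233)) (net_leaf n_T0)))) (au_cons u_b81afb904c030fdd (au_cons u_6d05ac2951c313e7 (au_cons u_920238c2c730a3ca (au_cons u_6ee121ee4e5e21c7 (au_cons u_8900d7d438b48b78 (au_cons u_feeadcecac51e954 (au_cons u_0aa230b01606983a au_nil)))))))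
theorem u_aeb4b1227b8d7c07 : RefU (c_aeb4b1227b8d7c07) := run_u k_u_aeb4b1227b8d7c07 (ok_st st_12_2_1_1_2 (net_node (net_node (net_node (net_node (net_leaf n_q_c2332333) (net_leaf n_q_c233)) (net_leaf n_Pe)) (net_node (net_leaf n_q_g2333_01122313) (net_leaf n_T0))) (net_node (net_node (net_leaf n_q_p232) (net_leaf n_Pb)) (net_node (net_leaf n_q_g333332_01021323142405) (net_leaf n_q_p22))))) (au_cons u_26f59285591cbf10 (au_cons u_4a8ad8f6a9d6e71d (au_cons u_26386668ce895781 (au_cons u_9f4027e8bc176964 (au_cons u_2bd995f348fc3ec5 (au_cons u_8936e0962594d00c au_nil))))))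
theorem n_q_c23323333 : NE q_c23323333 := ne_u k_n_q_c23323333 (ok_st st_12_2_1_1_2 (net_node (net_node (net_node (net_node (net_leaf n_q_c233233) (net_leaf n_q_g333332_01021323142405)) (net_leaf n_q_c2332333)) (net_node (net_node (net_leaf n_q_p232) (net_leaf n_Pb)) (net_leaf n_T0))) (net_node (net_node (net_node (net_leaf n_q_g2333_01122313) (net_leaf n_q_p22)) (net_leaf n_q_p222)) (net_node (net_leaf n_q_c233) (net_leaf n_q_c2233))))) (au_cons u_617f01268187bce5 (au_cons u_016b148954a9471c (au_cons u_c300430885573b72 (au_cons u_56f26ed0b46f3c47 (au_cons u_0fd5ddda5b28fb6d (au_cons u_aeb4b1227b8d7c07 au_nil))))))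
theorem u_6918b8d7c73ab2f0 : RefU (c_6918b8d7c73ab2f0) := run_u k_u_6918b8d7c73ab2f0 (ok_st st_12_2_1_1_2 (net_node (net_node (net_node (net_node (net_leaf n_q_g333332_01021323142405) (net_leaf n_Pb)) (net_leaf n_q_p22)) (net_node (net_leaf n_q_p232) (net_leaf n_T0))) (net_node (net_node (net_leaf n_q_c233233) (net_leaf n_Pe)) (net_node (net_leaf n_q_c23323333) (net_leaf n_q_p222))))) au_nil
theorem u_6e380f17edbd92b2 : RefU (c_6e380f17edbd92b2) := run_u k_u_6e380f17edbd92b2 (ok_st st_12_2_1_1_2 (net_node (net_node (net_node (net_leaf n_q_c23323333) (net_leaf n_Pe)) (net_node (net_leaf n_q_p232) (net_leaf n_Pb))) (net_node (net_node (net_leaf n_q_c2332333) (net_leaf n_T0)) (net_node (net_leaf n_q_g333332_01021323142405) (net_leaf n_q_p22))))) au_nil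
theorem u_1f9b3e966a67cdbd : RefU (c_1f9b3e966a67cdbd) := run_u k_u_1f9b3e966a67cdbd (ok_st st_12_2_1_1_2 (net_node (net_node (net_node (net_node (net_leaf n_q_c333) (net_leaf n_q_c233233)) (net_leaf n_q_c2332333)) (net_node (net_leaf n_q_p22) (net_leaf n_q_g333332_01021323142405))) (net_node (net_node (net_node (net_leaf n_q_c233) (net_leaf n_q_c23323333)) (net_leaf n_q_p232)) (net_node (net_leaf n_T0) (net_leaf n_Pb))))) au_nil
theorem u_10b544e757b6ecd6 : RefU (c_10b544e757b6ecd6) := run_u k_u_10b544e757b6ecd6 (ok_st st_12_2_1_1_2 (net_node (net_node (net_node (net_node (net_leaf n_q_c333) (net_leaf n_Pb)) (net_leaf n_q_p22)) (net_node (net_node (net_leaf n_q_c2332333) (net_leaf n_q_c23323333)) (net_leaf n_q_g333332_01021323142405))) (net_node (net_node (net_node (net_leaf n_PP) (net_leaf n_q_c2233)) (net_leaf n_T0)) (net_node (net_leaf n_q_p232) (net_leaf n_q_p222))))) au_nil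
theorem u_2d2a1e45f3c0a54c : RefU (c_2d2a1e45f3c0a54c) := run_u k_u_2d2a1e45f3c0a54c (ok_st st_12_2_1_1_2 (net_node (net_node (net_node (net_node (net_leaf n_q_c233) (net_leaf n_Pe)) (net_leaf n_q_p232)) (net_node (net_leaf n_q_c2332333) (net_leaf n_T0))) (net_node (net_node (net_leaf n_q_c23323333) (net_leaf n_q_g333332_01021323142405)) (net_node (net_leaf n_q_p22) (net_leaf n_Pb))))) (au_cons u_4c8383593ffade59 au_nil)
theorem u_7d218e55a1a65524 : RefU (c_7d218e55a1a65524) := run_u k_u_7d218e55a1a65524 (ok_st st_12_2_1_1_2 (net_node (net_node (net_leaf n_q_c23323333) (net_leaf n_q_p22)) (net_leaf n_q_c2332333))) au_nil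
theorem u_fc22878f16303ce6 : RefU (c_fc22878f16303ce6) := run_u k_u_fc22878f16303ce6 (ok_st st_12_2_1_1_2 (net_node (net_node (net_node (net_node (net_leaf n_q_c233) (net_leaf n_q_p22)) (net_node (net_leaf n_q_p232) (net_leaf n_Pb))) (net_node (net_node (net_leaf n_q_c2332333) (net_leaf n_q_g333332_01021323142405)) (net_leaf n_T0))) (net_node (net_node (net_node (net_leaf n_q_c233233) (net_leaf n_q_c23323333)) (net_leaf n_q_c2233)) (net_node (net_node (net_leaf n_q_p222) (net_leaf n_Pe)) (net_leaf n_q_g2333_01122313))))) (au_cons u_c8faad2e5ced688f (au_cons u_a83ae5ac7c155fd3 au_nil))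
theorem u_ed721def96dbc878 : RefU (c_ed721def96dbc878) := run_u k_u_ed721def96dbc878 (ok_st st_12_2_1_1_2 (net_node (net_node (net_node (net_node (net_leaf n_q_c23323333) (net_leaf n_q_c2233)) (net_leaf n_Pe)) (net_node (net_node (net_leaf n_T0) (net_leaf n_q_p222)) (net_leaf n_q_c233))) (net_node (net_node (net_node (net_leaf n_Pb) (net_leaf n_q_p232)) (net_leaf n_q_c2332333)) (net_node (net_node (net_leaf n_q_g333332_01021323142405) (net_leaf n_q_c333)) (net_leaf n_q_p22))))) (au_cons u_4020a6ec43c5c453 (au_cons u_cfddba66c506d2ec (au_cons u_ab6545f9d55c93fd au_nil)))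
theorem u_f96ff2a30e474d26 : RefU (c_f96ff2a30e474d26) := run_u k_u_f96ff2a30e474d26 (ok_st st_12_2_1_1_2 (net_node (net_node (net_node (net_leaf n_q_c23323333) (net_leaf n_q_p222)) (net_node (net_leaf n_q_p22) (net_leaf n_q_p232))) (net_node (net_node (net_leaf n_q_c233) (net_leaf n_q_c2233)) (net_leaf n_q_c233233)))) au_nil
theorem u_d6d5dbae38333cfd : RefU (c_d6d5dbae38333cfd) := run_u k_u_d6d5dbae38333cfd (ok_st st_12_2_1_1_2 (net_node (net_node (net_node (net_leaf n_q_p22) (net_leaf n_q_g333332_01021323142405)) (net_node (net_leaf n_T0) (net_leaf n_q_p232))) (net_node (net_node (net_leaf n_Pe) (net_leaf n_q_c23323333)) (net_node (net_leaf n_q_c333) (net_leaf n_Pb))))) au_nil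
theorem u_1baae72195af7e70 : RefU (c_1baae72195af7e70) := run_u k_u_1baae72195af7e70 (ok_st st_12_2_1_1_2 (net_node (net_node (net_node (net_leaf n_q_c23323333) (net_leaf n_q_c2233)) (net_node (net_leaf n_q_c233233) (net_leaf n_q_p222))) (net_node (net_node (net_leaf n_q_c233) (net_leaf n_q_p22)) (net_leaf n_q_p232)))) au_nil
theorem u_64219cd3d3fb782e : RefU (c_64219cd3d3fb782e) := run_u k_u_64219cd3d3fb782e (ok_st st_12_2_1_1_2 (net_node (net_node (net_node (net_node (net_leaf n_q_c2332333) (net_leaf n_q_c333)) (net_leaf n_Pb)) (net_node (net_leaf n_q_g333332_01021323142405) (net_leaf n_q_p232))) (net_node (net_node (net_leaf n_Pe) (net_leaf n_q_c23323333)) (net_node (net_leaf n_T0) (net_leaf n_q_p22))))) au_nil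
theorem u_2ce6171860c911d9 : RefU (c_2ce6171860c911d9) := run_u k_u_2ce6171860c911d9 (ok_st st_12_2_1_1_2 (net_node (net_node (net_node (net_node (net_leaf n_q_c23323333) (net_leaf n_Pb)) (net_leaf n_T0)) (net_node (net_leaf n_q_p22) (net_leaf n_q_p222))) (net_node (net_node (net_leaf n_q_c233233) (net_leaf n_q_p232)) (net_node (net_leaf n_Pe) (net_leaf n_q_g333332_01021323142405))))) au_nil
theorem u_6e898001ade3622b : RefU (c_6e898001ade3622b) := run_u k_u_6e898001ade3622b (ok_st st_12_2_1_1_2 (net_node (net_node (net_node (net_leaf n_q_g333332_01021323142405) (net_leaf n_q_p22)) (net_leaf n_Pe)) (net_node (net_node (net_leaf n_T0) (net_leaf n_q_c23323333)) (net_leaf n_Pb)))) au_nil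
theorem u_6e01a74cb2c5f3a5 : RefU (c_6e01a74cb2c5f3a5) := run_u k_u_6e01a74cb2c5f3a5 (ok_st st_12_2_1_1_2 (net_node (net_node (net_node (net_node (net_leaf n_q_p22) (net_leaf n_q_p232)) (net_leaf n_T0)) (net_node (net_node (net_leaf n_q_c2332333) (net_leaf n_q_c233)) (net_leaf n_q_g333332_01021323142405))) (net_node (net_node (net_node (net_leaf n_q_c333) (net_leaf n_q_p222)) (net_leaf n_q_g2333_01122313)) (net_node (net_node (net_leaf n_Pe) (net_leaf n_Pb)) (net_leaf n_q_c23323333))))) (au_cons u_98c2000a543cedb0 au_nil)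
theorem u_cd45f3190a0ce4c9 : RefU (c_cd45f3190a0ce4c9) := run_u k_u_cd45f3190a0ce4c9 (ok_st st_12_2_1_1_2 (net_node (net_node (net_leaf n_q_c23323333) (net_leaf n_q_g333332_01021323142405)) (net_leaf n_T0))) au_nil
theorem u_7debcb2af233bdf4 : RefU (c_7debcb2af233bdf4) := run_u k_u_7debcb2af233bdf4 (ok_st st_12_2_1_1_2 (net_node (net_node (net_node (net_leaf n_q_c233) (net_leaf n_q_p222)) (net_leaf n_q_c2332333)) (net_node (net_leaf n_q_c23323333) (net_leaf n_q_p22)))) au_nil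
theorem u_b68f7b90eca7d79b : RefU (c_b68f7b90eca7d79b) := run_u k_u_b68f7b90eca7d79b (ok_st st_12_2_1_1_2 (net_node (net_node (net_node (net_leaf n_q_c23323333) (net_leaf n_q_c333)) (net_leaf n_T0)) (net_node (net_node (net_leaf n_Pb) (net_leaf n_q_g333332_01021323142405)) (net_leaf n_Pe)))) au_nil
theorem u_1c6e46017fffdaf8 : RefU (c_1c6e46017fffdaf8) := run_u k_u_1c6e46017fffdaf8 (ok_st st_12_2_1_1_2 (net_node (net_node (net_node (net_leaf n_q_p22) (net_leaf n_q_c2332333)) (net_node (net_leaf n_q_c23323333) (net_leaf n_q_p222))) (net_node (net_node (net_leaf n_q_c233) (net_leaf n_q_c2233)) (net_leaf n_q_p232)))) (au_cons u_fece0517c31de3c6 au_nil)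
theorem u_08a0195c4ed961b5 : RefU (c_08a0195c4ed961b5) := run_u k_u_08a0195c4ed961b5 (ok_st st_12_2_1_1_2 (net_node (net_node (net_node (net_node (net_leaf n_q_p22) (net_leaf n_q_p232)) (net_leaf n_q_g2333_01122313)) (net_node (net_node (net_leaf n_Pe) (net_leaf n_q_c233)) (net_leaf n_q_g333332_01021323142405))) (net_node (net_node (net_node (net_leaf n_q_c2332333) (net_leaf n_q_p222)) (net_leaf n_q_c23323333)) (net_node (net_node (net_leaf n_T0) (net_leaf n_Pb)) (net_leaf n_q_c333))))) (au_cons u_a2f6085b669c730e au_nil)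
theorem u_80ac3e708301b097 : RefU (c_80ac3e708301b097) := run_u k_u_80ac3e708301b097 (ok_st st_12_2_1_1_2 (net_node (net_node (net_node (net_node (net_leaf n_q_p22) (net_leaf n_q_p222)) (net_node (net_leaf n_Pe) (net_leaf n_q_c233))) (net_node (net_node (net_leaf n_q_c333) (net_leaf n_Pb)) (net_leaf n_q_c23323333))) (net_node (net_node (net_node (net_leaf n_q_c2332333) (net_leaf n_q_g333333_0102132314240535)) (net_node (net_leaf n_T0) (net_leaf n_PP))) (net_node (net_node (net_leaf n_q_g2333_01122313) (net_leaf n_q_p232)) (net_leaf n_q_g333332_01021323142405))))) (au_cons u_907e06a3c1070f98 (au_cons u_c31d3037635f7a85 au_nil))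
theorem u_f585f80af9ec8ce4 : RefU (c_f585f80af9ec8ce4) := run_u k_u_f585f80af9ec8ce4 (ok_st st_12_2_1_1_2 (net_node (net_node (net_node (net_node (net_leaf n_q_c233233) (net_leaf n_q_c2233)) (net_leaf n_q_c233)) (net_node (net_node (net_leaf n_Pe) (net_leaf n_Pb)) (net_leaf n_q_p232))) (net_node (net_node (net_node (net_leaf n_q_p22) (net_leaf n_q_p222)) (net_leaf n_q_c23323333)) (net_node (net_leaf n_T0) (net_leaf n_q_g333332_01021323142405))))) (au_cons u_d9869d9d37ad3564 au_nil)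
theorem u_ad8d3d7a4f797116 : RefU (c_ad8d3d7a4f797116) := run_u k_u_ad8d3d7a4f797116 (ok_st st_12_2_1_1_2 (net_node (net_node (net_leaf n_q_c2332333) (net_leaf n_q_c233)) (net_node (net_leaf n_q_c23323333) (net_leaf n_q_p22)))) (au_cons u_abb3968b4d6c4162 au_nil)
theorem u_65e1b6e16be46d2e : RefU (c_65e1b6e16be46d2e) := run_u k_u_65e1b6e16be46d2e (ok_st st_12_2_1_1_2 (net_node (net_node (net_node (net_leaf n_q_c2332333) (net_leaf n_T0)) (net_node (net_leaf n_q_c23323333) (net_leaf n_q_g2333_01122313))) (net_node (net_node (net_leaf n_q_p232) (net_leaf n_Pe)) (net_node (net_leaf n_Pb) (net_leaf n_q_g333332_01021323142405))))) au_nil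
theorem u_336552603721e063 : RefU (c_336552603721e063) := run_u k_u_336552603721e063 (ok_st st_12_2_1_1_2 (net_node (net_node (net_node (net_node (net_leaf n_q_p22) (net_leaf n_Pb)) (net_leaf n_q_c233233)) (net_node (net_leaf n_Pe) (net_leaf n_q_g333332_01021323142405))) (net_node (net_node (net_leaf n_q_c2332333) (net_leaf n_q_p232)) (net_node (net_leaf n_T0) (net_leaf n_q_c23323333))))) au_nil
theorem u_8eb954a4b1f60cde : RefU (c_8eb954a4b1f60cde) := run_u k_u_8eb954a4b1f60cde (ok_st st_12_2_1_1_2 (net_node (net_node (net_node (net_leaf n_q_c2332333) (net_leaf n_q_c23323333)) (net_leaf n_Pb)) (net_node (net_leaf n_T0) (net_leaf n_q_g333332_01021323142405)))) au_nil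
theorem u_3fa31d29800bd092 : RefU (c_3fa31d29800bd092) := run_u k_u_3fa31d29800bd092 (ok_st st_12_2_1_1_2 (net_node (net_node (net_node (net_leaf n_T0) (net_leaf n_q_g2333_01122313)) (net_node (net_leaf n_q_g333332_01021323142405) (net_leaf n_q_p232))) (net_node (net_node (net_leaf n_Pe) (net_leaf n_q_c2332333)) (net_node (net_leaf n_Pb) (net_leaf n_q_c23323333))))) au_nil
theorem u_839639baac943855 : RefU (c_839639baac943855) := run_u k_u_839639baac943855 (ok_st st_12_2_1_1_2 (net_node (net_node (net_node (net_leaf n_Pe) (net_leaf n_q_c23323333)) (net_leaf n_q_g333332_01021323142405)) (net_node (net_leaf n_T0) (net_leaf n_Pb)))) au_nil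
theorem u_a9798c22c6ee7c35 : RefU (c_a9798c22c6ee7c35) := run_u k_u_a9798c22c6ee7c35 (ok_st st_12_2_1_1_2 (net_node (net_node (net_node (net_leaf n_q_c333) (net_leaf n_q_c233)) (net_node (net_leaf n_q_p22) (net_leaf n_q_p222))) (net_node (net_node (net_leaf n_q_c2332333) (net_leaf n_q_c233233)) (net_node (net_leaf n_T0) (net_leaf n_q_g333332_01021323142405))))) (au_cons u_2d2a1e45f3c0a54c au_nil)
theorem u_110b8aa6bf63b48e : RefU (c_110b8aa6bf63b48e) := run_u k_u_110b8aa6bf63b48e (ok_st st_12_2_1_1_2 (net_node (net_node (net_node (net_leaf n_q_c333) (net_leaf n_q_c2332333)) (net_node (net_leaf n_q_c2233) (net_leaf n_q_c23323333))) (net_node (net_node (net_leaf n_q_p222) (net_leaf n_q_c233233)) (net_node (net_leaf n_q_p232) (net_leaf n_q_p22))))) (au_cons u_7d218e55a1a65524 au_nil)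
theorem u_b774d6e4f871d228 : RefU (c_b774d6e4f871d228) := run_u k_u_b774d6e4f871d228 (ok_st st_12_2_1_1_2 (net_node (net_node (net_node (net_node (net_leaf n_q_c333) (net_leaf n_q_c233)) (net_node (net_leaf n_q_g333332_01021323142405) (net_leaf n_q_g2333_01122313))) (net_node (net_node (net_leaf n_q_c2233) (net_leaf n_q_p232)) (net_leaf n_q_c233233))) (net_node (net_node (net_node (net_leaf n_q_c2332333) (net_leaf n_q_p22)) (net_leaf n_q_p222)) (net_node (net_node (net_leaf n_T0) (net_leaf n_Pe)) (net_leaf n_q_c23323333))))) (au_cons u_6367b8bc639f95e1 (au_cons u_4020a6ec43c5c453 (au_cons u_c3cd2eef4daf4a51 (au_cons u_ed721def96dbc878 au_nil))))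
theorem u_077113e39694a8c3 : RefU (c_077113e39694a8c3) := run_u k_u_077113e39694a8c3 (ok_st st_12_2_1_1_2 (net_node (net_node (net_leaf n_q_c233233) (net_leaf n_q_c233)) (net_node (net_leaf n_q_c23323333) (net_leaf n_q_p22)))) (au_cons u_64219cd3d3fb782e au_nil)
theorem u_74f8acbad5e0f11b : RefU (c_74f8acbad5e0f11b) := run_u k_u_74f8acbad5e0f11b (ok_st st_12_2_1_1_2 (net_node (net_node (net_node (net_node (net_leaf n_q_c23323333) (net_leaf n_Pb)) (net_leaf n_q_p22)) (net_node (net_leaf n_T0) (net_leaf n_q_c233233))) (net_node (net_node (net_leaf n_Pe) (net_leaf n_q_c233)) (net_node (net_leaf n_q_g333332_01021323142405) (net_leaf n_q_p232))))) (au_cons u_2ce6171860c911d9 au_nil)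
theorem u_fbf5b651650e34ea : RefU (c_fbf5b651650e34ea) := run_u k_u_fbf5b651650e34ea (ok_st st_12_2_1_1_2 (net_node (net_node (net_leaf n_q_c23323333) (net_leaf n_q_p232)) (net_leaf n_q_c2332333))) (au_cons u_a1a2d72e951c1997 (au_cons u_64d89bbd6f1f9089 (au_cons u_124a3e48b409a374 (au_cons u_6e898001ade3622b (au_cons u_6e01a74cb2c5f3a5 (au_cons u_cd45f3190a0ce4c9 (au_cons u_7debcb2af233bdf4 (au_cons u_b68f7b90eca7d79b (au_cons u_7bf47c37494645d2 (au_cons u_1c6e46017fffdaf8 (au_cons u_08a0195c4ed961b5 (au_cons u_80ac3e708301b097 au_nil))))))))))))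
theorem u_17d2f48e45830217 : RefU (c_17d2f48e45830217) := run_u k_u_17d2f48e45830217 (ok_st st_12_2_1_1_2 (net_node (net_node (net_node (net_node (net_leaf n_q_c333) (net_leaf n_q_p232)) (net_leaf n_q_c233)) (net_node (net_node (net_leaf n_T0) (net_leaf n_q_g2333_01122313)) (net_leaf n_q_p22))) (net_node (net_node (net_node (net_leaf n_Pe) (net_leaf n_q_p222)) (net_leaf n_q_c23323333)) (net_node (net_leaf n_q_g333332_01021323142405) (net_leaf n_q_c2233))))) (au_cons u_15caa087b4ecdda3 (au_cons u_fb2e97f4742b99ec (au_cons u_ad8d3d7a4f797116 (au_cons u_7637eda8d67f05de au_nil))))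
theorem u_f7487f4eee1b8f61 : RefU (c_f7487f4eee1b8f61) := run_u k_u_f7487f4eee1b8f61 (ok_st st_12_2_1_1_2 (net_node (net_node (net_node (net_node (net_leaf n_q_p222) (net_leaf n_q_g333332_01021323142405)) (net_leaf n_q_g2333_01122313)) (net_node (net_node (net_leaf n_T0) (net_leaf n_q_c233)) (net_leaf n_q_c2332333))) (net_node (net_node (net_node (net_leaf n_Pe) (net_leaf n_q_p22)) (net_leaf n_q_p232)) (net_node (net_node (net_leaf n_q_c2233) (net_leaf n_q_c233233)) (net_leaf n_q_c333))))) (au_cons u_b774d6e4f871d228 (au_cons u_f96ff2a30e474d26 (au_cons u_d6d5dbae38333cfd (au_cons u_1baae72195af7e70 (au_cons u_077113e39694a8c3 (au_cons u_74f8acbad5e0f11b (au_cons u_24a03b86e15be8c3 (au_cons u_a729745231f28519 (au_cons u_d71fb57b3e309ba3 (au_cons u_1bb4f4d712d09dae (au_cons u_17accebd99b21f64 (au_cons u_d8ad3c471205e0d3 (au_cons u_2b197f6af5d60e00 (au_cons u_fbf5b651650e34ea (au_cons u_553468871872d190 au_nil)))))))))))))))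
theorem u_233f02aedbba4f85 : RefU (c_233f02aedbba4f85) := run_u k_u_233f02aedbba4f85 (ok_st st_12_2_1_1_2 (net_node (net_node (net_node (net_node (net_leaf n_Pb) (net_leaf n_q_p232)) (net_leaf n_q_c333)) (net_node (net_leaf n_q_g333332_01021323142405) (net_leaf n_q_p22))) (net_node (net_node (net_leaf n_T0) (net_leaf n_q_c233)) (net_node (net_leaf n_Pe) (net_leaf n_q_c23323333))))) (au_cons u_f585f80af9ec8ce4 (au_cons u_77bc2388dca6cae0 (au_cons u_f49a2e9f9c462466 (au_cons u_17d2f48e45830217 au_nil))))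
theorem u_ef12cd4fb205330b : RefU (c_ef12cd4fb205330b) := run_u k_u_ef12cd4fb205330b (ok_st st_12_2_1_1_2 (net_node (net_node (net_node (net_node (net_leaf n_q_c333) (net_leaf n_q_p232)) (net_leaf n_q_p22)) (net_node (net_leaf n_q_c233233) (net_leaf n_Pb))) (net_node (net_node (net_node (net_leaf n_q_g333332_01021323142405) (net_leaf n_q_c233)) (net_leaf n_q_c2332333)) (net_node (net_leaf n_T0) (net_leaf n_Pe))))) (au_cons u_fc22878f16303ce6 (au_cons u_f7487f4eee1b8f61 au_nil))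
theorem n_q_c23333 : NE q_c23333 := ne_u k_n_q_c23333 (ok_st st_12_2_1_1_2 (net_node (net_node (net_node (net_node (net_leaf n_q_g2333_01122313) (net_leaf n_q_p222)) (net_node (net_leaf n_T0) (net_leaf n_q_c2233))) (net_node (net_node (net_leaf n_q_p232) (net_leaf n_Pb)) (net_leaf n_q_p22))) (net_node (net_node (net_node (net_leaf n_q_c233) (net_leaf n_q_c23323333)) (net_leaf n_q_c233233)) (net_node (net_node (net_leaf n_q_g333332_01021323142405) (net_leaf n_q_c333)) (net_leaf n_q_c2332333))))) (au_cons u_26fd06e8d82190df (au_cons u_6918b8d7c73ab2f0 (au_cons u_6e380f17edbd92b2 (au_cons u_79ced420f4840279 (au_cons u_1f9b3e966a67cdbd (au_cons u_10b544e757b6ecd6 (au_cons u_a9798c22c6ee7c35 (au_cons u_110b8aa6bf63b48e (au_cons u_ef12cd4fb205330b (au_cons u_233f02aedbba4f85 (au_cons u_65e1b6e16be46d2e (au_cons u_24bf1bc4ea9d4762 au_nil))))))))))))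
theorem u_b6b00a7ae20bd386 : RefU (c_b6b00a7ae20bd386) := run_u k_u_b6b00a7ae20bd386 (ok_st st_12_2_1_1_2 (net_node (net_node (net_node (net_node (net_leaf n_q_c23333) (net_leaf n_q_p22)) (net_leaf n_Pe)) (net_node (net_leaf n_q_p232) (net_leaf n_Pb))) (net_node (net_node (net_leaf n_q_c2332333) (net_leaf n_T0)) (net_node (net_leaf n_q_p222) (net_leaf n_q_g333332_01021323142405))))) au_nil
theorem u_618e8fb96ce8c60d : RefU (c_618e8fb96ce8c60d) := run_u k_u_618e8fb96ce8c60d (ok_st st_12_2_1_1_2 (net_node (net_node (net_node (net_node (net_leaf n_q_c233) (net_leaf n_Pe)) (net_leaf n_q_g333332_01021323142405)) (net_node (net_leaf n_q_c2332333) (net_leaf n_Pb))) (net_node (net_node (net_leaf n_q_c23333) (net_leaf n_T0)) (net_node (net_leaf n_q_p22) (net_leaf n_q_p232))))) au_nil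
theorem u_b1f0704a371e9e73 : RefU (c_b1f0704a371e9e73) := run_u k_u_b1f0704a371e9e73 (ok_st st_12_2_1_1_2 (net_node (net_node (net_leaf n_q_c23323333) (net_leaf n_q_c23333)) (net_node (net_leaf n_q_c233) (net_leaf n_q_p22)))) au_nil
theorem u_e6dd03b979bcb41a : RefU (c_e6dd03b979bcb41a) := run_u k_u_e6dd03b979bcb41a (ok_st st_12_2_1_1_2 (net_node (net_node (net_leaf n_q_c23333) (net_leaf n_q_p232)) (net_leaf n_q_c233233))) au_nil
theorem u_ab03f50213d975b5 : RefU (c_ab03f50213d975b5) := run_u k_u_ab03f50213d975b5 (ok_st st_12_2_1_1_2 (net_node (net_node (net_leaf n_Pe) (net_leaf n_q_c23323333)) (net_node (net_leaf n_q_c23333) (net_leaf n_q_p22)))) au_nil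
theorem u_2d85e8ebe4fac025 : RefU (c_2d85e8ebe4fac025) := run_u k_u_2d85e8ebe4fac025 (ok_st st_12_2_1_1_2 (net_node (net_node (net_node (net_node (net_leaf n_q_c23333) (net_leaf n_q_g333332_01021323142405)) (net_leaf n_Pe)) (net_node (net_leaf n_q_p232) (net_leaf n_Pb))) (net_node (net_node (net_node (net_leaf n_q_c2332333) (net_leaf n_q_p22)) (net_leaf n_T0)) (net_node (net_leaf n_q_p222) (net_leaf n_q_c333))))) au_nil
theorem u_d080287482470987 : RefU (c_d080287482470987) := run_u k_u_d080287482470987 (ok_st st_12_2_1_1_2 (net_node (net_node (net_node (net_node (net_leaf n_q_p22) (net_leaf n_Pb)) (net_leaf n_Pe)) (net_node (net_leaf n_q_c23333) (net_leaf n_q_p232))) (net_node (net_node (net_leaf n_q_c23323333) (net_leaf n_T0)) (net_node (net_leaf n_q_c2332333) (net_leaf n_q_g333332_01021323142405))))) au_nil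
theorem u_47be3d98a4f47367 : RefU (c_47be3d98a4f47367) := run_u k_u_47be3d98a4f47367 (ok_st st_12_2_1_1_2 (net_node (net_node (net_node (net_leaf n_q_p22) (net_leaf n_T0)) (net_node (net_leaf n_q_c23333) (net_leaf n_q_g333332_01021323142405))) (net_node (net_node (net_leaf n_q_c2332333) (net_leaf n_q_p232)) (net_node (net_leaf n_Pe) (net_leaf n_Pb))))) au_nil
theorem u_48855f81151f2aef : RefU (c_48855f81151f2aef) := run_u k_u_48855f81151f2aef (ok_st st_12_2_1_1_2 (net_node (net_node (net_node (net_node (net_leaf n_q_c23333) (net_leaf n_q_g333332_01021323142405)) (net_node (net_leaf n_Pe) (net_leaf n_q_c233233))) (net_node (net_node (net_leaf n_q_c23323333) (net_leaf n_q_p222)) (net_node (net_leaf n_q_p232) (net_leaf n_q_g2333_01122313)))) (net_node (net_node (net_node (net_leaf n_q_p22) (net_leaf n_Pb)) (net_node (net_leaf n_T0) (net_leaf n_q_c233))) (net_node (net_node (net_leaf n_q_c2332333) (net_leaf n_q_c2233)) (net_leaf n_q_c333)))))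 (au_cons u_336552603721e063 au_nil)
theorem u_ccd6c2a8201ad6a0 : RefU (c_ccd6c2a8201ad6a0) := run_u k_u_ccd6c2a8201ad6a0 (ok_st st_12_2_1_1_2 (net_node (net_node (net_leaf n_q_c2332333) (net_leaf n_q_c23333)) (net_node (net_leaf n_Pe) (net_leaf n_q_p22)))) au_nil
theorem u_0c432dd1093fe040 : RefU (c_0c432dd1093fe040) := run_u k_u_0c432dd1093fe040 (ok_st st_12_2_1_1_2 (net_node (net_node (net_node (net_leaf n_q_c333) (net_leaf n_q_c23333)) (net_node (net_leaf n_q_g333332_01021323142405) (net_leaf n_q_p22))) (net_node (net_node (net_leaf n_T0) (net_leaf n_q_p232)) (net_node (net_leaf n_Pe) (net_leaf n_Pb))))) (au_cons u_d1b43ecb1ebd78b6 au_nil)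
theorem u_1729e29586cfacf2 : RefU (c_1729e29586cfacf2) := run_u k_u_1729e29586cfacf2 (ok_st st_12_2_1_1_2 (net_node (net_node (net_node (net_node (net_leaf n_q_p22) (net_leaf n_q_g333332_01021323142405)) (net_leaf n_Pe)) (net_node (net_node (net_leaf n_q_c2332333) (net_leaf n_PP)) (net_leaf n_q_c23333))) (net_node (net_node (net_node (net_leaf n_q_g2333_01122313) (net_leaf n_Pb)) (net_leaf n_T0)) (net_node (net_leaf n_q_c233233) (net_leaf n_q_p232))))) au_nil
theorem u_6b1fd6160ea53c08 : RefU (c_6b1fd6160ea53c08) := run_u k_u_6b1fd6160ea53c08 (ok_st st_12_2_1_1_2 (net_node (net_node (net_node (net_node (net_leaf n_q_p22) (net_leaf n_q_g333332_01021323142405)) (net_leaf n_Pe)) (net_node (net_node (net_leaf n_q_c2332333) (net_leaf n_PP)) (net_leaf n_q_c23333))) (net_node (net_node (net_node (net_leaf n_q_g2333_01122313) (net_leaf n_Pb)) (net_leaf n_T0)) (net_node (net_leaf n_q_c233233) (net_leaf n_q_p232))))) au_nil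
theorem u_6e1a6921858c2b2a : RefU (c_6e1a6921858c2b2a) := run_u k_u_6e1a6921858c2b2a (ok_st st_12_2_1_1_2 (net_node (net_node (net_node (net_leaf n_q_c23333) (net_leaf n_Pe)) (net_leaf n_q_c233233)) (net_node (net_leaf n_q_c2332333) (net_leaf n_q_p22)))) (au_cons u_980e78a4e234128b au_nil)
theorem u_6e110b72a6411c67 : RefU (c_6e110b72a6411c67) := run_u k_u_6e110b72a6411c67 (ok_st st_12_2_1_1_2 (net_node (net_node (net_node (net_leaf n_q_c2332333) (net_leaf n_Pe)) (net_node (net_leaf n_T0) (net_leaf n_q_c23323333))) (net_node (net_node (net_leaf n_q_g333332_01021323142405) (net_leaf n_q_c23333)) (net_leaf n_Pb)))) au_nil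
theorem u_1c1e168ee9f76e17 : RefU (c_1c1e168ee9f76e17) := run_u k_u_1c1e168ee9f76e17 (ok_st st_12_2_1_1_2 (net_node (net_node (net_node (net_node (net_leaf n_T0) (net_leaf n_q_p232)) (net_leaf n_Pb)) (net_node (net_leaf n_q_c23333) (net_leaf n_q_p22))) (net_node (net_node (net_leaf n_Pe) (net_leaf n_q_g333332_01021323142405)) (net_node (net_leaf n_q_c2332333) (net_leaf n_q_c23323333))))) au_nil
theorem u_9266d738c517c4d2 : RefU (c_9266d738c517c4d2) := run_u k_u_9266d738c517c4d2 (ok_st st_12_2_1_1_2 (net_node (net_node (net_node (net_node (net_leaf n_q_p22) (net_leaf n_q_g333332_01021323142405)) (net_leaf n_T0)) (net_node (net_node (net_leaf n_q_c2332333) (net_leaf n_PP)) (net_leaf n_q_c23333))) (net_node (net_node (net_node (net_leaf n_q_g2333_01122313) (net_leaf n_Pb)) (net_leaf n_Pe)) (net_node (net_leaf n_q_c233233) (net_leaf n_q_p232))))) au_nil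
theorem u_c54055e2260cb5c3 : RefU (c_c54055e2260cb5c3) := run_u k_u_c54055e2260cb5c3 (ok_st st_12_2_1_1_2 (net_node (net_node (net_node (net_node (net_leaf n_q_c23333) (net_leaf n_q_p232)) (net_leaf n_Pe)) (net_node (net_leaf n_q_c23323333) (net_leaf n_Pb))) (net_node (net_node (net_node (net_leaf n_q_c2332333) (net_leaf n_q_g333332_01021323142405)) (net_leaf n_T0)) (net_node (net_leaf n_q_p22) (net_leaf n_q_p222))))) (au_cons u_e6dd03b979bcb41a (au_cons u_eb416c6bc23138b6 (au_cons u_ab03f50213d975b5 au_nil)))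
theorem u_5bc6fbc97100cbcb : RefU (c_5bc6fbc97100cbcb) := run_u k_u_5bc6fbc97100cbcb (ok_st st_12_2_1_1_2 (net_node (net_node (net_node (net_leaf n_q_c23333) (net_leaf n_T0)) (net_node (net_leaf n_q_c233233) (net_leaf n_q_c233))) (net_node (net_node (net_leaf n_q_c2332333) (net_leaf n_q_g333332_01021323142405)) (net_node (net_leaf n_q_p22) (net_leaf n_q_p232))))) (au_cons u_d080287482470987 (au_cons u_47be3d98a4f47367 (au_cons u_336552603721e063 (au_cons u_48855f81151f2aef au_nil))))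
theorem u_ac5346cb1267de31 : RefU (c_ac5346cb1267de31) := run_u k_u_ac5346cb1267de31 (ok_st st_12_2_1_1_2 (net_node (net_leaf n_Pb) (net_leaf n_Pe))) (au_cons u_ccd6c2a8201ad6a0 au_nil)
theorem u_5836272a1aa42ae6 : RefU (c_5836272a1aa42ae6) := run_u k_u_5836272a1aa42ae6 (ok_st st_12_2_1_1_2 (net_node (net_node (net_node (net_node (net_leaf n_q_p232) (net_leaf n_q_c2233)) (net_leaf n_q_c23333)) (net_node (net_leaf n_q_p22) (net_leaf n_q_p222))) (net_node (net_node (net_node (net_leaf n_q_c233) (net_leaf n_T0)) (net_leaf n_q_c2332333)) (net_node (net_leaf n_q_c233233) (net_leaf n_q_g2333_01122313))))) (au_cons u_1729e29586cfacf2 au_nil)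
theorem u_8a4b31e335e78e01 : RefU (c_8a4b31e335e78e01) := run_u k_u_8a4b31e335e78e01 (ok_st st_12_2_1_1_2 (net_node (net_node (net_node (net_node (net_leaf n_q_p232) (net_leaf n_q_c2233)) (net_leaf n_q_c23333)) (net_node (net_node (net_leaf n_q_p22) (net_leaf n_q_g333332_01021323142405)) (net_leaf n_q_p222))) (net_node (net_node (net_node (net_leaf n_q_c233) (net_leaf n_T0)) (net_leaf n_q_c2332333)) (net_node (net_leaf n_q_c233233) (net_leaf n_q_g2333_01122313))))) (au_cons u_6b1fd6160ea53c08 au_nil)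
theorem u_955a8723de75a25e : RefU (c_955a8723de75a25e) := run_u k_u_955a8723de75a25e (ok_st st_12_2_1_1_2 (net_node (net_node (net_node (net_leaf n_q_c333) (net_leaf n_q_c23333)) (net_leaf n_T0)) (net_node (net_leaf n_Pe) (net_leaf n_q_g333332_01021323142405)))) (au_cons u_b1f0704a371e9e73 (au_cons u_5bc6fbc97100cbcb au_nil))
theorem u_342c215abf96a09b : RefU (c_342c215abf96a09b) := run_u k_u_342c215abf96a09b (ok_st st_12_2_1_1_2 (net_node (net_node (net_node (net_node (net_leaf n_q_p222) (net_leaf n_q_c333)) (net_leaf n_q_p232)) (net_node (net_leaf n_Pe) (net_leaf n_q_g333332_01021323142405))) (net_node (net_node (net_node (net_leaf n_q_c23333) (net_leaf n_q_p22)) (net_leaf n_T0)) (net_node (net_leaf n_q_c2332333) (net_leaf n_Pb))))) (au_cons u_3dc110cac7f3103c (au_cons u_5be4ad83c2f0811b (au_cons u_10e2809ec8d8bad6 (au_cons u_ac5346cb1267de31 (au_cons u_84bbbe192edec255 au_nil)))))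
theorem u_8daa03752ac8515c : RefU (c_8daa03752ac8515c) := run_u k_u_8daa03752ac8515c (ok_st st_12_2_1_1_2 (net_node (net_node (net_leaf n_q_p232) (net_leaf n_q_c233)) (net_node (net_leaf n_q_p22) (net_leaf n_T0)))) (au_cons u_5836272a1aa42ae6 au_nil)
theorem u_96301b440934ac39 : RefU (c_96301b440934ac39) := run_u k_u_96301b440934ac39 (ok_st st_12_2_1_1_2 (net_node (net_node (net_leaf n_q_p232) (net_leaf n_q_c233)) (net_node (net_leaf n_q_p22) (net_leaf n_T0)))) (au_cons u_8a4b31e335e78e01 au_nil)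
theorem n_q_c233333 : NE q_c233333 := ne_u k_n_q_c233333 (ok_st st_12_2_1_1_2 (net_node (net_node (net_node (net_node (net_leaf n_q_g2333_01122313) (net_leaf n_q_p222)) (net_leaf n_q_c23333)) (net_node (net_node (net_leaf n_q_p232) (net_leaf n_q_c2233)) (net_leaf n_q_p22))) (net_node (net_node (net_node (net_leaf n_q_c233) (net_leaf n_q_c23323333)) (net_leaf n_q_c233233)) (net_node (net_node (net_leaf n_q_c333) (net_leaf n_T0)) (net_leaf n_q_c2332333))))) (au_cons u_5847735fc0e780c0 (au_cons u_b6b00a7ae20bd386 (au_cons u_955a8723de75a25e (au_cons u_618e8fb96ce8c60d (au_cons u_b1f0704a371e9e73 (au_cons u_c54055e2260cb5c3 (au_cons u_2d85e8ebe4fac025 (au_cons u_5bc6fbc97100cbcb (au_cons u_342c215abf96a09b au_nil)))))))))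
theorem u_4e8bfe1354715bd6 : RefU (c_4e8bfe1354715bd6) := run_u k_u_4e8bfe1354715bd6 (ok_st st_12_2_1_1_2 (net_node (net_node (net_node (net_node (net_leaf n_q_g2333_01122313) (net_leaf n_Pe)) (net_leaf n_q_c233333)) (net_node (net_leaf n_q_c233233) (net_leaf n_T0))) (net_node (net_node (net_node (net_leaf n_q_c23323333) (net_leaf n_PP)) (net_leaf n_q_g333332_01021323142405)) (net_node (net_leaf n_q_p232) (net_leaf n_Pb))))) au_nil
theorem u_2b7b5cee4fbb1e97 : RefU (c_2b7b5cee4fbb1e97) := run_u k_u_2b7b5cee4fbb1e97 (ok_st st_12_2_1_1_2 (net_node (net_node (net_leaf n_q_c233333) (net_leaf n_q_p22)) (net_leaf n_q_c23333))) au_nil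
theorem u_06e61e4f9312b7e0 : RefU (c_06e61e4f9312b7e0) := run_u k_u_06e61e4f9312b7e0 (ok_st st_12_2_1_1_2 (net_node (net_node (net_node (net_node (net_leaf n_q_c333) (net_leaf n_q_p222)) (net_leaf n_q_c23333)) (net_node (net_leaf n_q_c233333) (net_leaf n_q_c2233))) (net_node (net_node (net_leaf n_q_g2333_01122313) (net_leaf n_q_p22)) (net_node (net_leaf n_q_p232) (net_leaf n_q_c2332333))))) au_nil
theorem u_3794c396a751ef62 : RefU (c_3794c396a751ef62) := run_u k_u_3794c396a751ef62 (ok_st st_12_2_1_1_2 (net_node (net_node (net_leaf n_q_c233333) (net_leaf n_q_c23333)) (net_node (net_leaf n_T0) (net_leaf n_q_p22)))) au_nil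
theorem u_cd5ac9f8032be386 : RefU (c_cd5ac9f8032be386) := run_u k_u_cd5ac9f8032be386 (ok_st st_12_2_1_1_2 (net_node (net_node (net_node (net_leaf n_q_c233333) (net_leaf n_q_p22)) (net_node (net_leaf n_q_p232) (net_leaf n_q_g333332_01021323142405))) (net_node (net_node (net_leaf n_T0) (net_leaf n_Pe)) (net_leaf n_q_c233)))) au_nil
theorem u_d09ee713e6460dda : RefU (c_d09ee713e6460dda) := run_u k_u_d09ee713e6460dda (ok_st st_12_2_1_1_2 (net_node (net_node (net_node (net_node (net_leaf n_q_c233333) (net_leaf n_q_p232)) (net_leaf n_q_c2332333)) (net_node (net_leaf n_q_c2233) (net_leaf n_T0))) (net_node (net_node (net_node (net_leaf n_q_c23333) (net_leaf n_q_p222)) (net_leaf n_q_g333332_01021323142405)) (net_node (net_leaf n_q_p22) (net_leaf n_Pe))))) au_nil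
theorem u_fa950058d246202f : RefU (c_fa950058d246202f) := run_u k_u_fa950058d246202f (ok_st st_12_2_1_1_2 (net_node (net_node (net_node (net_leaf n_q_c233333) (net_leaf n_T0)) (net_node (net_leaf n_q_c233) (net_leaf n_q_c2233))) (net_node (net_node (net_leaf n_q_p22) (net_leaf n_q_g2333_01122313)) (net_node (net_leaf n_q_p232) (net_leaf n_q_p222))))) (au_cons u_a0e8495181594b5a au_nil)
theorem u_cea9798d6dd7c1e4 : RefU (c_cea9798d6dd7c1e4) := run_u k_u_cea9798d6dd7c1e4 (ok_st st_12_2_1_1_2 (net_node (net_node (net_leaf n_q_c233) (net_leaf n_q_c233333)) (net_node (net_leaf n_q_g2333_01122313) (net_leaf n_q_p232)))) au_nil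
theorem u_0dec58e14e43e159 : RefU (c_0dec58e14e43e159) := run_u k_u_0dec58e14e43e159 (ok_st st_12_2_1_1_2 (net_node (net_node (net_node (net_node (net_leaf n_q_c333) (net_leaf n_Pe)) (net_leaf n_q_p222)) (net_node (net_leaf n_q_c23333) (net_leaf n_q_c233333))) (net_node (net_node (net_leaf n_q_p22) (net_leaf n_q_p232)) (net_node (net_leaf n_T0) (net_leaf n_q_g333332_01021323142405))))) au_nil
theorem u_1a98416d9992c625 : RefU (c_1a98416d9992c625) := run_u k_u_1a98416d9992c625 (ok_st st_12_2_1_1_2 (net_node (net_node (net_node (net_leaf n_T0) (net_leaf n_q_p232)) (net_node (net_leaf n_q_c233) (net_leaf n_q_p222))) (net_node (net_node (net_leaf n_q_c233333) (net_leaf n_q_c2233)) (net_node (net_leaf n_q_p22) (net_leaf n_q_g2333_01122313))))) (au_cons u_64f843d29e04ec3f au_nil)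
theorem u_248d8336711feff6 : RefU (c_248d8336711feff6) := run_u k_u_248d8336711feff6 (ok_st st_12_2_1_1_2 (net_node (net_node (net_node (net_node (net_leaf n_q_c333) (net_leaf n_Pe)) (net_leaf n_q_p222)) (net_node (net_leaf n_q_c23333) (net_leaf n_q_c233333))) (net_node (net_node (net_leaf n_q_p22) (net_leaf n_q_p232)) (net_node (net_leaf n_T0) (net_leaf n_q_g333332_01021323142405))))) au_nil
theorem u_d6d284462cb599fb : RefU (c_d6d284462cb599fb) := run_u k_u_d6d284462cb599fb (ok_st st_12_2_1_1_2 (net_node (net_node (net_node (net_node (net_leaf n_q_c233) (net_leaf n_q_p222)) (net_node (net_leaf n_q_c233333) (net_leaf n_q_c2233))) (net_node (net_node (net_leaf n_q_g333332_01021323142405) (net_leaf n_Pe)) (net_leaf n_q_c333))) (net_node (net_node (net_node (net_leaf n_T0) (net_leaf n_q_p232)) (net_leaf n_q_p22)) (net_node (net_node (net_leaf n_Pb) (net_leaf n_q_g2333_01122313)) (net_leaf n_q_c23333))))) au_nil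
theorem u_c757623e10330f69 : RefU (c_c757623e10330f69) := run_u k_u_c757623e10330f69 (ok_st st_12_2_1_1_2 (net_node (net_node (net_leaf n_q_c233333) (net_leaf n_q_p222)) (net_leaf n_q_p22))) au_nil
theorem u_c6a83e1eb9890758 : RefU (c_c6a83e1eb9890758) := run_u k_u_c6a83e1eb9890758 (ok_st st_12_2_1_1_2 (net_node (net_node (net_leaf n_q_c233333) (net_leaf n_q_p22)) (net_leaf n_q_c233))) au_nil
theorem u_2441651c84b54c3d : RefU (c_2441651c84b54c3d) := run_u k_u_2441651c84b54c3d (ok_st st_12_2_1_1_2 (net_node (net_leaf n_q_c233333) (net_leaf n_q_p22))) au_nil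
theorem u_804e7586c9ddb998 : RefU (c_804e7586c9ddb998) := run_u k_u_804e7586c9ddb998 (ok_st st_12_2_1_1_2 (net_node (net_node (net_node (net_node (net_leaf n_q_p22) (net_leaf n_q_c233333)) (net_leaf n_T0)) (net_node (net_node (net_leaf n_q_c2332333) (net_leaf n_Pb)) (net_leaf n_q_g333332_01021323142405))) (net_node (net_node (net_node (net_leaf n_q_c233233) (net_leaf n_q_p232)) (net_leaf n_q_c23333)) (net_node (net_node (net_leaf n_Pe) (net_leaf n_q_c233)) (net_leaf n_q_c23323333))))) (au_cons u_e42645a163dc2e39 au_nil)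
theorem u_db845686a5d7ab02 : RefU (c_db845686a5d7ab02) := run_u k_u_db845686a5d7ab02 (ok_st st_12_2_1_1_2 (net_node (net_node (net_node (net_node (net_leaf n_q_p222) (net_leaf n_Pb)) (net_leaf n_q_p232)) (net_node (net_leaf n_q_c233333) (net_leaf n_q_g333332_01021323142405))) (net_node (net_node (net_leaf n_q_g2333_01122313) (net_leaf n_T0)) (net_node (net_leaf n_q_c2332333) (net_leaf n_Pe))))) au_nil
theorem u_0b0882bc60f8de56 : RefU (c_0b0882bc60f8de56) := run_u k_u_0b0882bc60f8de56 (ok_st st_12_2_1_1_2 (net_node (net_node (net_node (net_leaf n_q_c233333) (net_leaf n_Pb)) (net_node (net_leaf n_q_c2332333) (net_leaf n_Pe))) (net_node (net_node (net_leaf n_q_g333332_01021323142405) (net_leaf n_T0)) (net_leaf n_q_p232)))) au_nil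
theorem u_789bd4b413ed0747 : RefU (c_789bd4b413ed0747) := run_u k_u_789bd4b413ed0747 (ok_st st_12_2_1_1_2 (net_node (net_node (net_node (net_node (net_leaf n_q_c2233) (net_leaf n_q_p22)) (net_node (net_leaf n_q_c23333) (net_leaf n_q_g333332_01021323142405))) (net_node (net_node (net_leaf n_q_p222) (net_leaf n_T0)) (net_leaf n_q_c233333))) (net_node (net_node (net_node (net_leaf n_q_p232) (net_leaf n_Pe)) (net_leaf n_q_c23323333)) (net_node (net_node (net_leaf n_q_c2332333) (net_leaf n_q_c333)) (net_leaf n_q_c233233))))) au_nil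
theorem u_79b3faf8102c6dfe : RefU (c_79b3faf8102c6dfe) := run_u k_u_79b3faf8102c6dfe (ok_st st_12_2_1_1_2 (net_node (net_node (net_node (net_node (net_leaf n_q_p222) (net_leaf n_Pe)) (net_leaf n_q_c23323333)) (net_node (net_node (net_leaf n_q_p232) (net_leaf n_q_c333)) (net_leaf n_q_c233233))) (net_node (net_node (net_node (net_leaf n_q_c2233) (net_leaf n_T0)) (net_leaf n_q_c233333)) (net_node (net_node (net_leaf n_q_c23333) (net_leaf n_q_g333332_01021323142405)) (net_leaf n_q_p22))))) au_nil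
theorem u_0087068514835110 : RefU (c_0087068514835110) := run_u k_u_0087068514835110 (ok_st st_12_2_1_1_2 (net_node (net_node (net_leaf n_q_c233333) (net_leaf n_Pe)) (net_leaf n_q_c233233))) au_nil
theorem u_41e0615942937b3c : RefU (c_41e0615942937b3c) := run_u k_u_41e0615942937b3c (ok_st st_12_2_1_1_2 (net_node (net_leaf n_q_c233333) (net_leaf n_q_p232))) (au_cons u_1c1e168ee9f76e17 au_nil)
theorem u_99e08c8a6223322f : RefU (c_99e08c8a6223322f) := run_u k_u_99e08c8a6223322f (ok_st st_12_2_1_1_2 (net_node (net_leaf n_q_c233333) (net_leaf n_q_c233233))) (au_cons u_1c1e168ee9f76e17 au_nil)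
theorem u_a516e1a8e5b6a332 : RefU (c_a516e1a8e5b6a332) := run_u k_u_a516e1a8e5b6a332 (ok_st st_12_2_1_1_2 (net_node (net_node (net_leaf n_q_c333) (net_leaf n_q_c23323333)) (net_leaf n_q_c233333))) au_nil
theorem u_5864136b9a2fccd5 : RefU (c_5864136b9a2fccd5) := run_u k_u_5864136b9a2fccd5 (ok_st st_12_2_1_1_2 (net_node (net_node (net_node (net_leaf n_q_g333332_01021323142405) (net_leaf n_Pb)) (net_node (net_leaf n_q_c23323333) (net_leaf n_q_c233333))) (net_node (net_node (net_leaf n_T0) (net_leaf n_q_p232)) (net_node (net_leaf n_Pe) (net_leaf n_q_p22))))) au_nil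
theorem u_ae7db098643aca89 : RefU (c_ae7db098643aca89) := run_u k_u_ae7db098643aca89 (ok_st st_12_2_1_1_2 (net_node (net_node (net_node (net_node (net_leaf n_q_p222) (net_leaf n_Pe)) (net_leaf n_q_c23333)) (net_node (net_node (net_leaf n_q_p232) (net_leaf n_q_c333)) (net_leaf n_q_c233233))) (net_node (net_node (net_node (net_leaf n_q_c2233) (net_leaf n_T0)) (net_leaf n_q_c23323333)) (net_node (net_node (net_leaf n_q_c233333) (net_leaf n_q_g333332_01021323142405)) (net_leaf n_q_p22))))) au_nil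
theorem u_12fe6e9e0069a5b4 : RefU (c_12fe6e9e0069a5b4) := run_u k_u_12fe6e9e0069a5b4 (ok_st st_12_2_1_1_2 (net_node (net_node (net_node (net_node (net_leaf n_Pe) (net_leaf n_q_p22)) (net_leaf n_Pb)) (net_node (net_leaf n_q_c2332333) (net_leaf n_q_c233333))) (net_node (net_node (net_leaf n_q_c23333) (net_leaf n_q_g333332_01021323142405)) (net_node (net_leaf n_T0) (net_leaf n_q_g2333_01122313))))) au_nil
theorem u_dca95dd9d677ae74 : RefU (c_dca95dd9d677ae74) := run_u k_u_dca95dd9d677ae74 (ok_st st_12_2_1_1_2 (net_node (net_node (net_node (net_node (net_leaf n_q_c233333) (net_leaf n_Pe)) (net_leaf n_q_p232)) (net_node (net_leaf n_q_p22) (net_leaf n_Pb))) (net_node (net_node (net_leaf n_q_c23323333) (net_leaf n_T0)) (net_node (net_leaf n_q_c2332333) (net_leaf n_q_g333332_01021323142405))))) au_nil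
theorem u_69b5cf50e95fa6e6 : RefU (c_69b5cf50e95fa6e6) := run_u k_u_69b5cf50e95fa6e6 (ok_st st_12_2_1_1_2 (net_node (net_node (net_node (net_leaf n_q_c233333) (net_leaf n_q_p222)) (net_leaf n_q_c23333)) (net_node (net_leaf n_q_c2233) (net_leaf n_q_p232)))) au_nil
theorem u_85a7fa6964400231 : RefU (c_85a7fa6964400231) := run_u k_u_85a7fa6964400231 (ok_st st_12_2_1_1_2 (net_node (net_node (net_node (net_node (net_leaf n_q_c233333) (net_leaf n_q_g333332_01021323142405)) (net_leaf n_q_g333333_0102132314240535)) (net_node (net_leaf n_q_p232) (net_leaf n_T0))) (net_node (net_node (net_leaf n_q_c2233) (net_leaf n_Pb)) (net_node (net_leaf n_q_p222) (net_leaf n_Pe))))) au_nil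
theorem u_bb087e6d9bf3354a : RefU (c_bb087e6d9bf3354a) := run_u k_u_bb087e6d9bf3354a (ok_st st_12_2_1_1_2 (net_node (net_node (net_node (net_leaf n_q_p222) (net_leaf n_q_c233333)) (net_leaf n_q_p232)) (net_node (net_node (net_leaf n_q_c2233) (net_leaf n_q_c23323333)) (net_leaf n_q_c2332333)))) au_nil
theorem u_a0f4c1a88d87c73f : RefU (c_a0f4c1a88d87c73f) := run_u k_u_a0f4c1a88d87c73f (ok_st st_12_2_1_1_2 (net_node (net_node (net_node (net_leaf n_q_p222) (net_leaf n_q_c233333)) (net_leaf n_q_p232)) (net_node (net_node (net_leaf n_q_c2233) (net_leaf n_q_c23323333)) (net_leaf n_q_c2332333)))) au_nil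
theorem u_23499a544c8ca582 : RefU (c_23499a544c8ca582) := run_u k_u_23499a544c8ca582 (ok_st st_12_2_1_1_2 (net_node (net_node (net_node (net_leaf n_q_p222) (net_leaf n_q_c233333)) (net_leaf n_q_p232)) (net_node (net_node (net_leaf n_q_c2233) (net_leaf n_q_c23323333)) (net_leaf n_q_c2332333)))) au_nil
theorem u_8630fde29eccdfd7 : RefU (c_8630fde29eccdfd7) := run_u k_u_8630fde29eccdfd7 (ok_st st_12_2_1_1_2 (net_node (net_node (net_node (net_leaf n_q_p222) (net_leaf n_q_c233333)) (net_leaf n_q_p232)) (net_node (net_node (net_leaf n_q_c2233) (net_leaf n_q_c23323333)) (net_leaf n_q_c2332333)))) au_nil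
theorem u_06af9f013321868e : RefU (c_06af9f013321868e) := run_u k_u_06af9f013321868e (ok_st st_12_2_1_1_2 (net_node (net_node (net_node (net_node (net_leaf n_q_c2233) (net_leaf n_q_c233333)) (net_leaf n_q_p232)) (net_node (net_leaf n_q_p222) (net_leaf n_q_c2332333))) (net_node (net_node (net_node (net_leaf n_T0) (net_leaf n_q_c23323333)) (net_leaf n_q_c333)) (net_node (net_leaf n_q_g2333_01122313) (net_leaf n_Pe))))) au_nil
theorem u_d3fdcd5782d4aeca : RefU (c_d3fdcd5782d4aeca) := run_u k_u_d3fdcd5782d4aeca (ok_st st_12_2_1_1_2 (net_node (net_node (net_node (net_node (net_leaf n_q_c233333) (net_leaf n_q_g333332_01021323142405)) (net_leaf n_q_g333333_0102132314240535)) (net_node (net_leaf n_q_p232) (net_leaf n_T0))) (net_node (net_node (net_leaf n_q_c2233) (net_leaf n_Pb)) (net_node (net_leaf n_q_p222) (net_leaf n_Pe))))) au_nil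
theorem u_590528d0ee59d533 : RefU (c_590528d0ee59d533) := run_u k_u_590528d0ee59d533 (ok_st st_12_2_1_1_2 (net_node (net_node (net_node (net_leaf n_q_p222) (net_leaf n_q_c23333)) (net_node (net_leaf n_q_p232) (net_leaf n_q_c23323333))) (net_node (net_node (net_leaf n_q_c2233) (net_leaf n_q_c233333)) (net_leaf n_q_c2332333)))) au_nil
theorem u_b0021e6d095c3bf4 : RefU (c_b0021e6d095c3bf4) := run_u k_u_b0021e6d095c3bf4 (ok_st st_12_2_1_1_2 (net_node (net_node (net_node (net_leaf n_q_p222) (net_leaf n_q_c2332333)) (net_leaf n_q_p232)) (net_node (net_node (net_leaf n_q_c2233) (net_leaf n_q_c233333)) (net_leaf n_q_c23323333)))) au_nil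
theorem u_6da2b3da819d13dd : RefU (c_6da2b3da819d13dd) := run_u k_u_6da2b3da819d13dd (ok_st st_12_2_1_1_2 (net_node (net_node (net_node (net_leaf n_q_c2332333) (net_leaf n_q_c233)) (net_leaf n_q_p232)) (net_node (net_node (net_leaf n_q_c23323333) (net_leaf n_q_p22)) (net_leaf n_q_c233233)))) (au_cons u_4e8bfe1354715bd6 au_nil)
theorem u_d059be1716d79515 : RefU (c_d059be1716d79515) := run_u k_u_d059be1716d79515 (ok_st st_12_2_1_1_2 (net_leaf n_q_c333)) (au_cons u_6364fafaf87e6ae4 (au_cons u_2b7b5cee4fbb1e97 au_nil))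
theorem u_b7a3d287469dc0c3 : RefU (c_b7a3d287469dc0c3) := run_u k_u_b7a3d287469dc0c3 (ok_st st_12_2_1_1_2 (net_leaf n_q_c333)) (au_cons u_2b7b5cee4fbb1e97 (au_cons u_06e61e4f9312b7e0 (au_cons u_23b267259fff9f61 (au_cons u_198d0bdd868314a0 (au_cons u_caacd5e123556b1d au_nil)))))
theorem u_a3a34495dfc254e1 : RefU (c_a3a34495dfc254e1) := run_u k_u_a3a34495dfc254e1 (ok_st st_12_2_1_1_2 (net_node (net_leaf n_q_c333) (net_leaf n_q_c233))) (au_cons u_2b7b5cee4fbb1e97 (au_cons u_3794c396a751ef62 (au_cons u_d09ee713e6460dda (au_cons u_d0feda2f847f2893 au_nil))))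
theorem u_9c2f042aaa7d2ad9 : RefU (c_9c2f042aaa7d2ad9) := run_u k_u_9c2f042aaa7d2ad9 (ok_st st_12_2_1_1_2 (net_node (net_node (net_node (net_node (net_leaf n_q_c333) (net_leaf n_q_p222)) (net_leaf n_q_c233)) (net_node (net_leaf n_T0) (net_leaf n_q_g2333_01122313))) (net_node (net_node (net_leaf n_q_p232) (net_leaf n_q_p22)) (net_node (net_leaf n_q_c233333) (net_leaf n_q_c2233))))) (au_cons u_c8d2d1508e57e45a (au_cons u_6f86e9cd41400930 (au_cons u_fa950058d246202f (au_cons u_40a769a3030fcfd4 au_nil))))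
theorem u_1a6320f6234e97a2 : RefU (c_1a6320f6234e97a2) := run_u k_u_1a6320f6234e97a2 (ok_st st_12_2_1_1_2 (net_node (net_node (net_node (net_leaf n_q_c233333) (net_leaf n_q_p222)) (net_node (net_leaf n_q_p22) (net_leaf n_q_c2233))) (net_node (net_node (net_leaf n_q_p232) (net_leaf n_q_g2333_01122313)) (net_node (net_leaf n_q_c233) (net_leaf n_T0))))) (au_cons u_fa950058d246202f (au_cons u_1b8eef1fe0c5f1a8 (au_cons u_9a278eeb67c73520 (au_cons u_e5a47cd0a2bf3e09 (au_cons u_8daa03752ac8515c (au_cons u_1c2744efcb26bfcb (au_cons u_cea9798d6dd7c1e4 (au_cons u_dc8da7cc87b4bf26 (au_cons u_83f0f750f851ac2d au_nil)))))))))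
theorem u_3488a6639d5dd7a2 : RefU (c_3488a6639d5dd7a2) := run_u k_u_3488a6639d5dd7a2 (ok_st st_12_2_1_1_2 net0) (au_cons u_d6d284462cb599fb (au_cons u_c757623e10330f69 (au_cons u_6d2f4cd3e01ca406 au_nil)))
theorem u_145d42d6cae27641 : RefU (c_145d42d6cae27641) := run_u k_u_145d42d6cae27641 (ok_st st_12_2_1_1_2 (net_node (net_node (net_node (net_node (net_leaf n_q_c333) (net_leaf n_q_p222)) (net_leaf n_T0)) (net_node (net_leaf n_q_c233333) (net_leaf n_q_c2233))) (net_node (net_node (net_leaf n_q_c233) (net_leaf n_q_g2333_01122313)) (net_node (net_leaf n_q_p22) (net_leaf n_q_p232))))) (au_cons u_bb1cb0944a402622 (au_cons u_c6a83e1eb9890758 (au_cons u_2441651c84b54c3d (au_cons u_5df0973bac3958a6 (au_cons u_62aeb773373d1ed0 au_nil)))))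
theorem u_1e23a5c052706cd2 : RefU (c_1e23a5c052706cd2) := run_u k_u_1e23a5c052706cd2 (ok_st st_12_2_1_1_2 (net_node (net_node (net_node (net_node (net_leaf n_q_c2332333) (net_leaf n_q_c233333)) (net_leaf n_q_p22)) (net_node (net_leaf n_q_c233) (net_leaf n_q_p232))) (net_node (net_node (net_node (net_leaf n_q_c233233) (net_leaf n_q_c333)) (net_leaf n_q_c2233)) (net_node (net_leaf n_q_c23333) (net_leaf n_q_p222))))) (au_cons u_6e110b72a6411c67 (au_cons u_0b0882bc60f8de56 au_nil))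
theorem u_2db69c27cff7edf6 : RefU (c_2db69c27cff7edf6) := run_u k_u_2db69c27cff7edf6 (ok_st st_12_2_1_1_2 (net_node (net_leaf n_q_c233333) (net_leaf n_q_c233233))) (au_cons u_79b3faf8102c6dfe au_nil)
theorem u_584039c4d2e8c600 : RefU (c_584039c4d2e8c600) := run_u k_u_584039c4d2e8c600 (ok_st st_12_2_1_1_2 (net_node (net_node (net_node (net_node (net_leaf n_q_p22) (net_leaf n_q_p232)) (net_node (net_leaf n_T0) (net_leaf n_q_c333))) (net_node (net_node (net_leaf n_q_c2332333) (net_leaf n_Pb)) (net_leaf n_q_c23333))) (net_node (net_node (net_node (net_leaf n_q_g2333_01122313) (net_leaf n_q_g333332_01021323142405)) (net_leaf n_Pe)) (net_node (net_node (net_leaf n_q_c233233) (net_leaf n_PP)) (net_leaf n_q_c233333))))) (au_cons u_34bfee7ed762cb78 (au_cons u_ae7db098643aca89 (au_cons u_12fe6e9e0069a5b4 (au_cons u_5e4a44ee6da051f0 (au_cons u_9266d738c517c4d2 au_nil)))))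
theorem u_651914a386959987 : RefU (c_651914a386959987) := run_u k_u_651914a386959987 (ok_st st_12_2_1_1_2 (net_node (net_node (net_node (net_leaf n_q_c333) (net_leaf n_q_g333332_01021323142405)) (net_leaf n_T0)) (net_node (net_leaf n_q_g333333_0102132314240535) (net_leaf n_Pb)))) (au_cons u_d059be1716d79515 (au_cons u_6364fafaf87e6ae4 (au_cons u_e3c090f062f52121 (au_cons u_3794c396a751ef62 (au_cons u_6381393a48311af2 (au_cons u_a3a34495dfc254e1 (au_cons u_ede26dd8f69e83ff (au_cons u_86c0b001e91bbcc2 (au_cons u_e3e125318d3d0375 (au_cons u_723f22a36a53c325 au_nil))))))))))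
theorem u_f786aba797be7f7f : RefU (c_f786aba797be7f7f) := run_u k_u_f786aba797be7f7f (ok_st st_12_2_1_1_2 (net_node (net_node (net_node (net_node (net_leaf n_q_c233333) (net_leaf n_q_c233)) (net_leaf n_q_c2233)) (net_node (net_leaf n_q_p232) (net_leaf n_q_c333))) (net_node (net_node (net_leaf n_q_p222) (net_leaf n_T0)) (net_node (net_leaf n_q_g2333_01122313) (net_leaf n_q_p22))))) (au_cons u_9c2f042aaa7d2ad9 (au_cons u_6117ed15d301d212 (au_cons u_64f1332957e817d6 (au_cons u_990ae083dd2c93c2 (au_cons u_96301b440934ac39 (au_cons u_ffc3debcd602dbd4 (au_cons u_4d2e431e1d70063e (au_cons u_2be4d59d6e701a3b (au_cons u_8c7eda91ff898234 (au_cons u_1a98416d9992c625 (au_cons u_c5fe040652efd8a5 (au_cons u_9c87e02f26ac2247 (au_cons u_d47bd8e6a62cd151 (au_cons u_1c2744efcb26bfcb (au_cons u_cea9798d6dd7c1e4 (au_cons u_dc8da7cc87b4bf26 (au_cons u_d78f0035933b7c41 (au_cons u_024ed7e8ce621431 au_nil))))))))))))))))))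
theorem u_c486a43c5503b62f : RefU (c_c486a43c5503b62f) := run_u k_u_c486a43c5503b62f (ok_st st_12_2_1_1_2 (net_node (net_node (net_node (net_leaf n_q_p22) (net_leaf n_q_c2233)) (net_node (net_leaf n_T0) (net_leaf n_q_p222))) (net_node (net_node (net_leaf n_q_c233333) (net_leaf n_q_p232)) (net_node (net_leaf n_q_g2333_01122313) (net_leaf n_q_c233))))) (au_cons u_1a6320f6234e97a2 (au_cons u_0dec58e14e43e159 au_nil))
theorem u_df2525138b1c2a55 : RefU (c_df2525138b1c2a55) := run_u k_u_df2525138b1c2a55 (ok_st st_12_2_1_1_2 (net_node (net_leaf n_q_c233333) (net_leaf n_q_c233233))) (au_cons u_789bd4b413ed0747 (au_cons u_2db69c27cff7edf6 au_nil))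
theorem u_606e70c2636f0239 : RefU (c_606e70c2636f0239) := run_u k_u_606e70c2636f0239 (ok_st st_12_2_1_1_2 (net_node (net_node (net_leaf n_q_c233333) (net_leaf n_q_c23323333)) (net_node (net_leaf n_q_c23333) (net_leaf n_q_g333332_01021323142405)))) (au_cons u_1e23a5c052706cd2 (au_cons u_584039c4d2e8c600 au_nil))
theorem u_8d048efa28e40ead : RefU (c_8d048efa28e40ead) := run_u k_u_8d048efa28e40ead (ok_st st_12_2_1_1_2 (net_node (net_node (net_leaf n_q_c233333) (net_leaf n_q_p22)) (net_leaf n_q_c233))) (au_cons u_17e880c07c8d4375 (au_cons u_ed3a0dc9b5719dee (au_cons u_f786aba797be7f7f au_nil)))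
theorem u_2364a859081484f7 : RefU (c_2364a859081484f7) := run_u k_u_2364a859081484f7 (ok_st st_12_2_1_1_2 (net_node (net_node (net_node (net_leaf n_q_c233333) (net_leaf n_q_g2333_01122313)) (net_node (net_leaf n_q_p22) (net_leaf n_q_p232))) (net_node (net_node (net_leaf n_q_c233) (net_leaf n_q_c2233)) (net_node (net_leaf n_T0) (net_leaf n_q_p222))))) (au_cons u_8d048efa28e40ead (au_cons u_7847d03e24d8181c (au_cons u_248d8336711feff6 (au_cons u_75fab2ff3ae279b7 au_nil))))
theorem u_cefe7541ad779f99 : RefU (c_cefe7541ad779f99) := run_u k_u_cefe7541ad779f99 (ok_st st_12_2_1_1_2 (net_node (net_node (net_node (net_node (net_leaf n_T0) (net_leaf n_q_p222)) (net_leaf n_q_c333)) (net_node (net_leaf n_Pb) (net_leaf n_q_c2233))) (net_node (net_node (net_node (net_leaf n_q_g333333_0102132314240535) (net_leaf n_q_c233333)) (net_leaf n_q_g2333_01122313)) (net_node (net_leaf n_Pe) (net_leaf n_q_p232))))) (au_cons u_29729980d5d90f81 (au_cons u_2364a859081484f7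 (au_cons u_3488a6639d5dd7a2 (au_cons u_145d42d6cae27641 au_nil))))
theorem u_0fbdd2e171f52de5 : RefU (c_0fbdd2e171f52de5) := run_u k_u_0fbdd2e171f52de5 (ok_st st_12_2_1_1_2 (net_node (net_node (net_node (net_node (net_leaf n_q_c233333) (net_leaf n_q_p232)) (net_leaf n_q_p22)) (net_node (net_node (net_leaf n_q_c23333) (net_leaf n_Pb)) (net_leaf n_q_g2333_01122313))) (net_node (net_node (net_node (net_leaf n_q_c333) (net_leaf n_q_p222)) (net_leaf n_T0)) (net_node (net_node (net_leaf n_q_c233) (net_leaf n_Pe)) (net_leaf n_q_c2233))))) (au_cons u_0c432dd1093fe040 (au_cons u_d059be1716d79515 (au_cons u_0c2c84cddcc7b253 (au_cons u_6364fafaf87e6ae4 (au_cons u_3d8ca58181eacd5a (au_cons u_b7a3d287469dc0c3 (au_cons u_69e7107336646c9f (au_cons u_651914a386959987 (au_cons u_a3a34495dfc254e1 (au_cons u_06e61e4f9312b7e0 (au_cons u_3794c396a751ef62 (au_cons u_cd5ac9f8032be386 (au_cons u_1d7137a12b90c4a2 (au_cons u_23b267259fff9f61 (au_cons u_38fccf7b0d2fea3d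 (au_cons u_198d0bdd868314a0 (au_cons u_d09ee713e6460dda (au_cons u_c486a43c5503b62f (au_cons u_caacd5e123556b1d (au_cons u_d0feda2f847f2893 (au_cons u_cefe7541ad779f99 au_nil)))))))))))))))))))))
theorem n_q_c2333 : NE q_c2333 := ne_u k_n_q_c2333 (ok_st st_12_2_1_1_2 (net_node (net_node (net_node (net_node (net_leaf n_q_c233) (net_leaf n_q_c23323333)) (net_leaf n_q_c233233)) (net_node (net_leaf n_T0) (net_leaf n_q_c23333))) (net_node (net_node (net_node (net_leaf n_q_p232) (net_leaf n_q_c233333)) (net_leaf n_q_p22)) (net_node (net_leaf n_q_g2333_01122313) (net_leaf n_q_c2332333))))) (au_cons u_6da2b3da819d13dd (au_cons u_d6afcad8c9da024f (au_cons u_0fbdd2e171f52de5 au_nil)))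
theorem u_e01cd1a1e23b4bf9 : RefU (c_e01cd1a1e23b4bf9) := run_u k_u_e01cd1a1e23b4bf9 (ok_st st_12_2_1_1_2 (net_node (net_node (net_node (net_node (net_leaf n_q_p22) (net_leaf n_q_g333332_01021323142405)) (net_node (net_leaf n_T0) (net_leaf n_q_c233))) (net_node (net_node (net_leaf n_q_c2332333) (net_leaf n_q_c23333)) (net_leaf n_q_c233333))) (net_node (net_node (net_node (net_leaf n_q_c233233) (net_leaf n_Pb)) (net_leaf n_q_g2333_01122313)) (net_node (net_node (net_leaf n_Pe) (net_leaf n_q_p232)) (net_leaf n_q_c2333))))) (au_cons u_d0b1731a6e794dd9 au_nil)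
theorem u_09bfca7878ec631a : RefU (c_09bfca7878ec631a) := run_u k_u_09bfca7878ec631a (ok_st st_12_2_1_1_2 (net_node (net_node (net_node (net_node (net_leaf n_q_p22) (net_leaf n_q_c23323333)) (net_node (net_leaf n_T0) (net_leaf n_PP))) (net_node (net_node (net_leaf n_q_c2332333) (net_leaf n_q_g333332_01021323142405)) (net_leaf n_q_c23333))) (net_node (net_node (net_node (net_leaf n_q_g2333_01122313) (net_leaf n_q_c233333)) (net_node (net_leaf n_Pe) (net_leaf n_q_c2333))) (net_node (net_node (net_leaf n_q_c233233) (net_leaf n_Pb)) (net_leaf n_q_p232))))) (au_cons u_32c20e10caaaa72c (au_cons u_e42645a163dc2e39 (au_cons u_d0b1731a6e794dd9 au_nil)))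
theorem u_8e4597b2169487ee : RefU (c_8e4597b2169487ee) := run_u k_u_8e4597b2169487ee (ok_st st_12_2_1_1_2 (net_node (net_node (net_node (net_leaf n_q_c233233) (net_leaf n_q_c2332333)) (net_node (net_leaf n_q_c233) (net_leaf n_q_c2333))) (net_node (net_node (net_leaf n_q_c23333) (net_leaf n_q_c233333)) (net_node (net_leaf n_q_p22) (net_leaf n_q_p232))))) (au_cons u_0082139f127f2ce3 (au_cons u_051da5acc708f110 au_nil))
theorem u_719206dcf6e16b3a : RefU (c_719206dcf6e16b3a) := run_u k_u_719206dcf6e16b3a (ok_st st_12_2_1_1_2 (net_node (net_node (net_node (net_node (net_leaf n_q_c2332333) (net_leaf n_q_p222)) (net_leaf n_q_c233333)) (net_node (net_leaf n_T0) (net_leaf n_q_c2233))) (net_node (net_node (net_node (net_leaf n_Pe) (net_leaf n_q_c2333)) (net_leaf n_q_g2333_01122313)) (net_node (net_leaf n_q_c333) (net_leaf n_q_p232))))) (au_cons u_3fa31d29800bd092 au_nil)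
theorem u_79c48b5b1733a4f1 : RefU (c_79c48b5b1733a4f1) := run_u k_u_79c48b5b1733a4f1 (ok_st st_12_2_1_1_2 (net_node (net_node (net_node (net_node (net_leaf n_q_p22) (net_leaf n_Pb)) (net_leaf n_Pe)) (net_node (net_leaf n_q_c2333) (net_leaf n_q_p232))) (net_node (net_node (net_leaf n_q_c23333) (net_leaf n_T0)) (net_node (net_leaf n_q_c2332333) (net_leaf n_q_g333332_01021323142405))))) (au_cons u_5d56d2dd5bb56abe au_nil)
theorem u_693ab3d81f0c3c0e : RefU (c_693ab3d81f0c3c0e) := run_u k_u_693ab3d81f0c3c0e (ok_st st_12_2_1_1_2 (net_node (net_node (net_node (net_leaf n_q_c233333) (net_leaf n_T0)) (net_node (net_leaf n_q_p232) (net_leaf n_q_g333332_01021323142405))) (net_node (net_node (net_leaf n_q_c2333) (net_leaf n_Pb)) (net_node (net_leaf n_Pe) (net_leaf n_q_c2332333))))) (au_cons u_69b5cf50e95fa6e6 au_nil)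
theorem u_ecfb7e340dc8757c : RefU (c_ecfb7e340dc8757c) := run_u k_u_ecfb7e340dc8757c (ok_st st_12_2_1_1_2 (net_node (net_node (net_node (net_leaf n_q_p222) (net_leaf n_q_c233333)) (net_leaf n_q_p232)) (net_node (net_leaf n_q_c2233) (net_leaf n_q_c2333)))) au_nil
theorem u_0ba7bb4e75c4f309 : RefU (c_0ba7bb4e75c4f309) := run_u k_u_0ba7bb4e75c4f309 (ok_st st_12_2_1_1_2 (net_node (net_node (net_node (net_leaf n_q_p222) (net_leaf n_q_c233333)) (net_leaf n_q_p232)) (net_node (net_leaf n_q_c2233) (net_leaf n_q_c2333)))) au_nil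
theorem u_cb673b91a5ad15e5 : RefU (c_cb673b91a5ad15e5) := run_u k_u_cb673b91a5ad15e5 (ok_st st_12_2_1_1_2 (net_node (net_node (net_node (net_leaf n_q_p222) (net_leaf n_q_c233333)) (net_leaf n_q_p232)) (net_node (net_leaf n_q_c2233) (net_leaf n_q_c2333)))) au_nil
theorem u_5fccee84b993bf72 : RefU (c_5fccee84b993bf72) := run_u k_u_5fccee84b993bf72 (ok_st st_12_2_1_1_2 (net_node (net_node (net_leaf n_q_c233333) (net_leaf n_q_c2333)) (net_node (net_leaf n_q_c23333) (net_leaf n_q_p22)))) au_nil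
theorem u_e0f7c96f69ba24e7 : RefU (c_e0f7c96f69ba24e7) := run_u k_u_e0f7c96f69ba24e7 (ok_st st_12_2_1_1_2 (net_node (net_node (net_node (net_leaf n_q_p222) (net_leaf n_q_c233333)) (net_leaf n_q_p232)) (net_node (net_leaf n_q_c2233) (net_leaf n_q_c2333)))) au_nil
theorem u_365f351426691f30 : RefU (c_365f351426691f30) := run_u k_u_365f351426691f30 (ok_st st_12_2_1_1_2 (net_node (net_node (net_node (net_leaf n_q_c2333) (net_leaf n_q_p222)) (net_leaf n_q_c233333)) (net_node (net_leaf n_q_c2233) (net_leaf n_q_p232)))) au_nil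
theorem u_135f61bcbcde7f92 : RefU (c_135f61bcbcde7f92) := run_u k_u_135f61bcbcde7f92 (ok_st st_12_2_1_1_2 (net_node (net_node (net_node (net_node (net_leaf n_T0) (net_leaf n_q_c233333)) (net_leaf n_q_p222)) (net_node (net_leaf n_q_c2233) (net_leaf n_q_c2333))) (net_node (net_node (net_leaf n_q_g2333_01122313) (net_leaf n_q_c333)) (net_node (net_leaf n_q_p232) (net_leaf n_Pe))))) au_nil
theorem u_f7652e97ee2f9fab : RefU (c_f7652e97ee2f9fab) := run_u k_u_f7652e97ee2f9fab (ok_st st_12_2_1_1_2 (net_node (net_node (net_node (net_leaf n_q_c2333) (net_leaf n_q_p222)) (net_leaf n_q_c233333)) (net_node (net_leaf n_q_c2233) (net_leaf n_q_p232)))) au_nil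
theorem u_be2be6b0a6e0350c : RefU (c_be2be6b0a6e0350c) := run_u k_u_be2be6b0a6e0350c (ok_st st_12_2_1_1_2 (net_node (net_node (net_node (net_leaf n_q_c23323333) (net_leaf n_q_p22)) (net_leaf n_q_c233333)) (net_node (net_leaf n_q_c23333) (net_leaf n_q_c2333)))) au_nil
theorem u_2f54abababc66053 : RefU (c_2f54abababc66053) := run_u k_u_2f54abababc66053 (ok_st st_12_2_1_1_2 (net_node (net_node (net_node (net_leaf n_q_p222) (net_leaf n_q_c233333)) (net_leaf n_q_p232)) (net_node (net_leaf n_q_c2233) (net_leaf n_q_c2333)))) au_nil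
theorem u_0f68c69f0a32d8af : RefU (c_0f68c69f0a32d8af) := run_u k_u_0f68c69f0a32d8af (ok_st st_12_2_1_1_2 (net_node (net_node (net_node (net_leaf n_q_p222) (net_leaf n_q_c233333)) (net_leaf n_q_p232)) (net_node (net_leaf n_q_c2233) (net_leaf n_q_c2333)))) au_nil
theorem u_1bf6d798d9581bfe : RefU (c_1bf6d798d9581bfe) := run_u k_u_1bf6d798d9581bfe (ok_st st_12_2_1_1_2 (net_node (net_node (net_node (net_leaf n_q_p222) (net_leaf n_q_c233333)) (net_leaf n_q_p232)) (net_node (net_leaf n_q_c2233) (net_leaf n_q_c2333)))) au_nil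
theorem u_b8f3b5e0a5946d32 : RefU (c_b8f3b5e0a5946d32) := run_u k_u_b8f3b5e0a5946d32 (ok_st st_12_2_1_1_2 (net_node (net_node (net_node (net_node (net_leaf n_q_p22) (net_leaf n_q_c23333)) (net_node (net_leaf n_Pe) (net_leaf n_q_c2333))) (net_node (net_node (net_leaf n_q_c233233) (net_leaf n_q_p232)) (net_node (net_leaf n_q_g2333_01122313) (net_leaf n_q_c233)))) (net_node (net_node (net_node (net_leaf n_q_c2332333) (net_leaf n_q_c233333)) (net_node (net_leaf n_T0) (net_leaf n_PP))) (net_node (net_node (net_leaf n_q_c23323333) (net_leaf n_Pb)) (net_node (net_leaf n_q_g333332_01021323142405) (net_leaf n_q_p222)))))) (au_cons u_8eb954a4b1f60cde (au_cons u_804e7586c9ddb998 (au_cons u_e01cd1a1e23b4bf9 (au_cons u_db845686a5d7ab02 (au_cons u_09bfca7878ec631a (au_cons u_6e1a6921858c2b2a au_nil))))))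
theorem u_265761f083976189 : RefU (c_265761f083976189) := run_u k_u_265761f083976189 (ok_st st_12_2_1_1_2 (net_node (net_node (net_node (net_node (net_leaf n_q_p22) (net_leaf n_q_c233333)) (net_node (net_leaf n_q_g2333_01122313) (net_leaf n_Pb))) (net_node (net_node (net_leaf n_Pe) (net_leaf n_q_c233)) (net_node (net_leaf n_q_g333332_01021323142405) (net_leaf n_PP)))) (net_node (net_node (net_node (net_leaf n_q_c2332333) (net_leaf n_q_p232)) (net_node (net_leaf n_q_c233233) (net_leaf n_q_c2333))) (net_node (net_node (net_leaf n_T0) (net_leaf n_q_c23323333)) (net_leaf n_q_c23333))))) (au_cons u_8e4597b2169487ee (au_cons u_df2525138b1c2a55 (au_cons u_0087068514835110 (au_cons u_41e0615942937b3c (au_cons u_99e08c8a6223322f (au_cons u_a516e1a8e5b6a332 (au_cons u_719206dcf6e16b3a (au_cons u_db845686a5d7ab02 (au_cons u_5864136b9a2fccd5 (au_cons u_839639baac943855 au_nil))))))))))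
theorem u_0a513960dd507fb9 : RefU (c_0a513960dd507fb9) := run_u k_u_0a513960dd507fb9 (ok_st st_12_2_1_1_2 (net_node (net_node (net_node (net_leaf n_q_c2333) (net_leaf n_q_g333332_01021323142405)) (net_node (net_leaf n_Pe) (net_leaf n_Pb))) (net_node (net_node (net_leaf n_q_p232) (net_leaf n_q_p22)) (net_leaf n_T0)))) (au_cons u_79c48b5b1733a4f1 (au_cons u_b575f2da06a23447 (au_cons u_f8e2f24d0a2f180b (au_cons u_94761c776ec48f42 au_nil))))
theorem u_54aa5f750c0a6c59 : RefU (c_54aa5f750c0a6c59) := run_u k_u_54aa5f750c0a6c59 (ok_st st_12_2_1_1_2 (net_node (net_node (net_node (net_node (net_leaf n_q_c2333) (net_leaf n_T0)) (net_leaf n_q_c233333)) (net_node (net_node (net_leaf n_q_c2332333) (net_leaf n_q_c333)) (net_leaf n_q_c23323333))) (net_node (net_node (net_node (net_leaf n_q_c23333) (net_leaf n_q_p222)) (net_leaf n_q_g2333_01122313)) (net_node (net_node (net_leaf n_q_p232) (net_leaf n_q_g333333_0102132314240535)) (net_leaf n_q_c2233))))) (au_cons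 u_b8f3b5e0a5946d32 (au_cons u_606e70c2636f0239 (au_cons u_1e23a5c052706cd2 (au_cons u_265761f083976189 (au_cons u_584039c4d2e8c600 au_nil)))))
theorem n_q_p2332 : NE q_p2332 := ne_u k_n_q_p2332 (ok_st st_12_2_1_1_2 (net_node (net_node (net_node (net_node (net_leaf n_q_c233) (net_leaf n_q_c2332333)) (net_leaf n_q_c2333)) (net_node (net_leaf n_q_g2333_01122313) (net_leaf n_q_c23333))) (net_node (net_node (net_leaf n_q_p232) (net_leaf n_q_p22)) (net_node (net_leaf n_q_c2233) (net_leaf n_q_c233233))))) (au_cons u_54aa5f750c0a6c59 au_nil)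
theorem u_0046f24f2ff29f28 : RefU (c_0046f24f2ff29f28) := run_u k_u_0046f24f2ff29f28 (ok_st st_12_2_1_1_2 (net_node (net_node (net_node (net_leaf n_q_c233333) (net_leaf n_q_c2233)) (net_node (net_leaf n_q_p2332) (net_leaf n_q_g2333_01122313))) (net_node (net_node (net_leaf n_q_g333332_01021323142405) (net_leaf n_T0)) (net_node (net_leaf n_q_p222) (net_leaf n_q_p232))))) (au_cons u_0a513960dd507fb9 au_nil)
theorem u_ad0c61e15d6085db : RefU (c_ad0c61e15d6085db) := run_u k_u_ad0c61e15d6085db (ok_st st_12_2_1_1_2 (net_node (net_node (net_node (net_node (net_leaf n_q_c333) (net_leaf n_q_p232)) (net_node (net_leaf n_q_c23333) (net_leaf n_q_c233))) (net_node (net_node (net_leaf n_q_c233333) (net_leaf n_Pb)) (net_node (net_leaf n_q_p22) (net_leaf n_q_p2332)))) (net_node (net_node (net_node (net_leaf n_T0) (net_leaf n_q_g333332_01021323142405)) (net_node (net_leaf n_q_c23323333) (net_leaf n_q_c2332333))) (net_node (net_node (net_leaf n_q_p222) (net_leaf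 n_q_c2333)) (net_leaf n_q_c2233))))) (au_cons u_f8e2f24d0a2f180b (au_cons u_dca95dd9d677ae74 (au_cons u_693ab3d81f0c3c0e au_nil)))
theorem u_0feb82276697ff1a : RefU (c_0feb82276697ff1a) := run_u k_u_0feb82276697ff1a (ok_st st_12_2_1_1_2 (net_node (net_node (net_leaf n_q_c333) (net_leaf n_q_p2332)) (net_leaf n_q_c23333))) au_nil
theorem n_q_c2333333 : NE q_c2333333 := ne_u k_n_q_c2333333 (ok_st st_12_2_1_1_2 (net_node (net_node (net_node (net_node (net_leaf n_q_c333) (net_leaf n_q_g333332_01021323142405)) (net_leaf n_q_c233333)) (net_node (net_node (net_leaf n_q_c2333) (net_leaf n_q_c2233)) (net_leaf n_q_c233))) (net_node (net_node (net_node (net_leaf n_q_c23333) (net_leaf n_q_p222)) (net_leaf n_q_g2333_01122313)) (net_node (net_node (net_leaf n_q_p2332) (net_leaf n_T0)) (net_leaf n_q_p232))))) (au_cons u_0046f24f2ff29f28 (au_cons u_ad0c61e15d6085db au_nil))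
theorem u_a3113497ab6561bd : RefU (c_a3113497ab6561bd) := run_u k_u_a3113497ab6561bd (ok_st st_12_2_1_1_2 (net_node (net_node (net_node (net_node (net_leaf n_q_g2333_01122313) (net_leaf n_q_p222)) (net_leaf n_Pe)) (net_node (net_leaf n_q_c233333) (net_leaf n_q_p232))) (net_node (net_node (net_node (net_leaf n_q_c23333) (net_leaf n_q_c2233)) (net_leaf n_T0)) (net_node (net_leaf n_q_p2332) (net_leaf n_q_c2333333))))) (au_cons u_006d87c72db5e4e5 au_nil)
theorem u_3b16e64acdef87f1 : RefU (c_3b16e64acdef87f1) := run_u k_u_3b16e64acdef87f1 (ok_st st_12_2_1_1_2 (net_node (net_node (net_node (net_node (net_leaf n_q_c233333) (net_leaf n_q_c2233)) (net_leaf n_q_c2333333)) (net_node (net_leaf n_q_c23333) (net_leaf n_T0))) (net_node (net_node (net_leaf n_q_g2333_01122313) (net_leaf n_Pb)) (net_node (net_leaf n_q_p2332) (net_leaf n_q_p222))))) au_nil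
theorem u_459ae99870353ec2 : RefU (c_459ae99870353ec2) := run_u k_u_459ae99870353ec2 (ok_st st_12_2_1_1_2 (net_node (net_node (net_node (net_node (net_leaf n_T0) (net_leaf n_Pe)) (net_leaf n_q_g333332_01021323142405)) (net_node (net_leaf n_q_c2332333) (net_leaf n_Pb))) (net_node (net_node (net_node (net_leaf n_q_p22) (net_leaf n_q_c233333)) (net_leaf n_q_p232)) (net_node (net_leaf n_q_c2333333) (net_leaf n_PP))))) au_nil
theorem u_729b0b0bdd347339 : RefU (c_729b0b0bdd347339) := run_u k_u_729b0b0bdd347339 (ok_st st_12_2_1_1_2 (net_node (net_node (net_node (net_node (net_node (net_leaf n_q_c2333) (net_leaf n_q_g333332_01021323142405)) (net_leaf n_q_c23323333)) (net_node (net_leaf n_q_p222) (net_leaf n_T0))) (net_node (net_node (net_leaf n_q_c233333) (net_leaf n_q_g2333_01122313)) (net_node (net_leaf n_q_c2333333) (net_leaf n_Pb)))) (net_node (net_node (net_node (net_node (net_leaf n_q_c2233) (net_leaf n_PP)) (net_leaf n_q_c333)) (net_node (net_leaf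 n_q_p22) (net_leaf n_q_p2332))) (net_node (net_node (net_leaf n_q_p232) (net_leaf n_Pe)) (net_node (net_leaf n_q_c23333) (net_leaf n_q_g333333_0102132314240535)))))) (au_cons u_85a7fa6964400231 au_nil)
theorem u_e409f2e8cd5d307e : RefU (c_e409f2e8cd5d307e) := run_u k_u_e409f2e8cd5d307e (ok_st st_12_2_1_1_2 (net_node (net_node (net_node (net_node (net_leaf n_q_c233333) (net_leaf n_q_p232)) (net_leaf n_q_c2333333)) (net_node (net_node (net_leaf n_q_c2333) (net_leaf n_q_c233)) (net_leaf n_q_p222))) (net_node (net_node (net_node (net_leaf n_q_c23333) (net_leaf n_q_c2332333)) (net_leaf n_q_c333)) (net_node (net_node (net_leaf n_q_p22) (net_leaf n_q_p2332)) (net_leaf n_q_c2233))))) (au_cons u_5fccee84b993bf72 au_nil)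
theorem u_482d1554c32ca689 : RefU (c_482d1554c32ca689) := run_u k_u_482d1554c32ca689 (ok_st st_12_2_1_1_2 (net_node (net_node (net_node (net_leaf n_q_c2332333) (net_leaf n_q_p232)) (net_node (net_leaf n_q_c2233) (net_leaf n_q_c2333))) (net_node (net_node (net_leaf n_q_c233333) (net_leaf n_q_p222)) (net_node (net_leaf n_q_c23323333) (net_leaf n_q_c2333333))))) au_nil
theorem u_384c5a11e5dbdcf6 : RefU (c_384c5a11e5dbdcf6) := run_u k_u_384c5a11e5dbdcf6 (ok_st st_12_2_1_1_2 (net_node (net_node (net_node (net_node (net_leaf n_q_c2332333) (net_leaf n_Pb)) (net_leaf n_q_p232)) (net_node (net_node (net_leaf n_q_c2233) (net_leaf n_q_g333332_01021323142405)) (net_leaf n_q_c2333333))) (net_node (net_node (net_node (net_leaf n_q_c23323333) (net_leaf n_T0)) (net_leaf n_q_p222)) (net_node (net_node (net_leaf n_q_c233333) (net_leaf n_q_c333)) (net_leaf n_Pe))))) au_nil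
theorem u_805416e6a05c781f : RefU (c_805416e6a05c781f) := run_u k_u_805416e6a05c781f (ok_st st_12_2_1_1_2 (net_node (net_node (net_node (net_node (net_leaf n_q_c2332333) (net_leaf n_q_c23333)) (net_node (net_leaf n_q_p232) (net_leaf n_Pb))) (net_node (net_node (net_leaf n_q_c2233) (net_leaf n_q_g2333_01122313)) (net_node (net_leaf n_q_c2333) (net_leaf n_q_p2332)))) (net_node (net_node (net_node (net_leaf n_q_c23323333) (net_leaf n_Pe)) (net_node (net_leaf n_q_p222) (net_leaf n_T0))) (net_node (net_node (net_leaf n_q_c233333) (net_leaf n_q_g333332_01021323142405)) (net_node (net_leaf n_q_c2333333) (net_leaf n_q_p22)))))) au_nil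
theorem u_46cb4a0f84630215 : RefU (c_46cb4a0f84630215) := run_u k_u_46cb4a0f84630215 (ok_st st_12_2_1_1_2 (net_node (net_node (net_node (net_node (net_leaf n_q_c2332333) (net_leaf n_Pb)) (net_leaf n_q_p232)) (net_node (net_node (net_leaf n_q_c2233) (net_leaf n_q_g333332_01021323142405)) (net_leaf n_q_c2333333))) (net_node (net_node (net_node (net_leaf n_q_c23323333) (net_leaf n_T0)) (net_leaf n_q_p222)) (net_node (net_leaf n_q_c233333) (net_leaf n_Pe))))) au_nil
theorem u_831635fdc514af9b : RefU (c_831635fdc514af9b) := run_u k_u_831635fdc514af9b (ok_st st_12_2_1_1_2 (net_node (net_node (net_node (net_node (net_node (net_leaf n_q_c2233) (net_leaf n_q_g2333_01122313)) (net_leaf n_q_c23333)) (net_node (net_leaf n_q_c23323333) (net_leaf n_Pb))) (net_node (net_node (net_leaf n_q_p222) (net_leaf n_Pe)) (net_node (net_leaf n_q_c2333333) (net_leaf n_q_g333332_01021323142405)))) (net_node (net_node (net_node (net_leaf n_q_p232) (net_leaf n_q_c233233))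 (net_node (net_leaf n_q_c233333) (net_leaf n_q_p2332))) (net_node (net_node (net_leaf n_q_c2332333) (net_leaf n_T0)) (net_node (net_leaf n_q_p22) (net_leaf n_q_c2333)))))) au_nil
theorem u_9f0d68bb014421a6 : RefU (c_9f0d68bb014421a6) := run_u k_u_9f0d68bb014421a6 (ok_st st_12_2_1_1_2 (net_node (net_node (net_node (net_node (net_leaf n_T0) (net_leaf n_q_c233333)) (net_leaf n_q_p222)) (net_node (net_node (net_leaf n_q_c2233) (net_leaf n_q_c2333)) (net_leaf n_q_c2332333))) (net_node (net_node (net_node (net_leaf n_q_g2333_01122313) (net_leaf n_q_c23323333)) (net_leaf n_q_c333)) (net_node (net_node (net_leaf n_q_p232) (net_leaf n_q_c2333333)) (net_leaf n_Pe))))) au_nil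
theorem u_69f2459158590253 : RefU (c_69f2459158590253) := run_u k_u_69f2459158590253 (ok_st st_12_2_1_1_2 (net_node (net_node (net_node (net_node (net_leaf n_q_p222) (net_leaf n_Pb)) (net_leaf n_q_g333332_01021323142405)) (net_node (net_leaf n_q_p232) (net_leaf n_Pe))) (net_node (net_node (net_leaf n_q_c2233) (net_leaf n_T0)) (net_node (net_leaf n_q_p22) (net_leaf n_q_c2333333))))) au_nil
theorem u_95421359e953cbd6 : RefU (c_95421359e953cbd6) := run_u k_u_95421359e953cbd6 (ok_st st_12_2_1_1_2 (net_node (net_node (net_node (net_node (net_leaf n_q_p222) (net_leaf n_q_c2333333)) (net_leaf n_q_p22)) (net_node (net_leaf n_q_p232) (net_leaf n_T0))) (net_node (net_node (net_leaf n_q_c2233) (net_leaf n_Pb)) (net_node (net_leaf n_q_g333332_01021323142405) (net_leaf n_Pe))))) au_nil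
theorem u_9cb533c8d2678bc6 : RefU (c_9cb533c8d2678bc6) := run_u k_u_9cb533c8d2678bc6 (ok_st st_12_2_1_1_2 (net_node (net_node (net_node (net_node (net_node (net_leaf n_q_c2333) (net_leaf n_q_g333332_01021323142405)) (net_leaf n_q_c23323333)) (net_node (net_leaf n_q_p222) (net_leaf n_T0))) (net_node (net_node (net_leaf n_q_c233333) (net_leaf n_q_g2333_01122313)) (net_node (net_leaf n_q_c2333333) (net_leaf n_Pb)))) (net_node (net_node (net_node (net_node (net_leaf n_q_c2233) (net_leaf n_PP)) (net_leaf n_q_c333)) (net_node (net_leaf n_q_p22) (net_leaf n_q_p2332))) (net_node (net_node (net_leaf n_q_p232) (net_leaf n_Pe)) (net_node (net_leaf n_q_c23333) (net_leaf n_q_g333333_0102132314240535)))))) (au_cons u_d3fdcd5782d4aeca au_nil)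
theorem u_4f0445e2c343c3d5 : RefU (c_4f0445e2c343c3d5) := run_u k_u_4f0445e2c343c3d5 (ok_st st_12_2_1_1_2 (net_node (net_node (net_node (net_node (net_node (net_leaf n_q_c233333) (net_leaf n_q_c23323333)) (net_leaf n_q_c233)) (net_node (net_leaf n_q_p222) (net_leaf n_Pb))) (net_node (net_node (net_leaf n_q_p22) (net_leaf n_q_c333)) (net_node (net_leaf n_q_p232) (net_leaf n_Pe)))) (net_node (net_node (net_node (net_leaf n_q_c2333) (net_leaf n_q_p2332)) (net_node (net_leaf n_q_c2233) (net_leaf n_T0))) (net_node (net_node (net_leaf n_q_c2333333) (net_leaf n_q_g2333_01122313)) (net_node (net_leaf n_q_c2332333) (net_leaf n_PP)))))) (au_cons u_21f7cc4dc80e951c au_nil)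
theorem u_ac033c2017be928c : RefU (c_ac033c2017be928c) := run_u k_u_ac033c2017be928c (ok_st st_12_2_1_1_2 (net_node (net_node (net_node (net_node (net_leaf n_q_c233333) (net_leaf n_q_c2332333)) (net_leaf n_q_p2332)) (net_node (net_leaf n_q_c2333) (net_leaf n_q_p232))) (net_node (net_node (net_leaf n_q_c2333333) (net_leaf n_q_c2233)) (net_node (net_leaf n_q_p222) (net_leaf n_q_c23323333))))) au_nil
theorem u_40f5cb6cf9d203ad : RefU (c_40f5cb6cf9d203ad) := run_u k_u_40f5cb6cf9d203ad (ok_st st_12_2_1_1_2 (net_node (net_node (net_node (net_node (net_leaf n_q_p222) (net_leaf n_q_c233233)) (net_node (net_leaf n_q_c23323333) (net_leaf n_Pb))) (net_node (net_node (net_leaf n_q_p232) (net_leaf n_T0)) (net_leaf n_q_p22))) (net_node (net_node (net_node (net_leaf n_q_c2233) (net_leaf n_Pe)) (net_node (net_leaf n_q_c2332333) (net_leaf n_q_g333332_01021323142405))) (net_node (net_node (net_leaf n_q_c233333) (net_leaf n_q_c2333333)) (net_leaf n_q_c23333)))))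 au_nil
theorem u_98deb3b4771afcb3 : RefU (c_98deb3b4771afcb3) := run_u k_u_98deb3b4771afcb3 (ok_st st_12_2_1_1_2 (net_node (net_node (net_node (net_node (net_leaf n_q_c233333) (net_leaf n_q_c2333333)) (net_leaf n_q_g333332_01021323142405)) (net_node (net_leaf n_q_c2333) (net_leaf n_Pb))) (net_node (net_node (net_leaf n_q_p232) (net_leaf n_Pe)) (net_node (net_leaf n_T0) (net_leaf n_q_p22))))) au_nil
theorem u_9a08ac8ff7e07cf6 : RefU (c_9a08ac8ff7e07cf6) := run_u k_u_9a08ac8ff7e07cf6 (ok_st st_12_2_1_1_2 (net_node (net_node (net_node (net_leaf n_q_c233333) (net_leaf n_q_g333332_01021323142405)) (net_node (net_leaf n_q_c2333333) (net_leaf n_Pb))) (net_node (net_node (net_leaf n_q_c23333) (net_leaf n_T0)) (net_node (net_leaf n_q_p232) (net_leaf n_q_p2332))))) (au_cons u_a3113497ab6561bd au_nil)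
theorem u_cefcb8e783c8d397 : RefU (c_cefcb8e783c8d397) := run_u k_u_cefcb8e783c8d397 (ok_st st_12_2_1_1_2 (net_node (net_node (net_node (net_node (net_leaf n_q_c23333) (net_leaf n_q_p2332)) (net_leaf n_q_c2333333)) (net_node (net_leaf n_q_c2332333) (net_leaf n_q_g333332_01021323142405))) (net_node (net_node (net_node (net_leaf n_q_c233333) (net_leaf n_Pb)) (net_leaf n_T0)) (net_node (net_leaf n_q_p232) (net_leaf n_q_p22))))) (au_cons u_3b16e64acdef87f1 au_nil)
theorem n_q_c233323333 : NE q_c233323333 := ne_u k_n_q_c233323333 (ok_st st_12_2_1_1_2 (net_node (net_node (net_node (net_node (net_leaf n_q_g2333_01122313) (net_leaf n_q_c2333333)) (net_node (net_leaf n_q_p232) (net_leaf n_T0))) (net_node (net_node (net_leaf n_q_c2333) (net_leaf n_Pe)) (net_node (net_leaf n_q_c2332333) (net_leaf n_q_p222)))) (net_node (net_node (net_node (net_leaf n_q_c23333) (net_leaf n_q_g333332_01021323142405)) (net_node (net_leaf n_q_p2332) (net_leaf n_q_p22)))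 (net_node (net_node (net_leaf n_q_c233) (net_leaf n_Pb)) (net_node (net_leaf n_q_c233333) (net_leaf n_q_c2233)))))) (au_cons u_9a08ac8ff7e07cf6 (au_cons u_a3113497ab6561bd au_nil))
theorem u_073593fc068fbbc4 : RefU (c_073593fc068fbbc4) := run_u k_u_073593fc068fbbc4 (ok_st st_12_2_1_1_2 (net_node (net_node (net_node (net_leaf n_q_c23333) (net_leaf n_q_p2332)) (net_node (net_leaf n_q_p232) (net_leaf n_q_c2233))) (net_node (net_node (net_leaf n_q_c233333) (net_leaf n_q_p222)) (net_node (net_leaf n_q_c2333333) (net_leaf n_T0))))) (au_cons u_cefcb8e783c8d397 (au_cons u_3b16e64acdef87f1 (au_cons u_5c64a637d468f3a6 au_nil)))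
theorem u_e2cc0d79925bffde : RefU (c_e2cc0d79925bffde) := run_u k_u_e2cc0d79925bffde (ok_st st_12_2_1_1_2 (net_node (net_node (net_node (net_node (net_leaf n_q_c23323333) (net_leaf n_q_c2233)) (net_node (net_leaf n_q_c2333) (net_leaf n_q_c23333))) (net_node (net_node (net_leaf n_q_c233323333) (net_leaf n_q_p222)) (net_leaf n_q_c2333333))) (net_node (net_node (net_node (net_leaf n_q_c233) (net_leaf n_q_p232)) (net_leaf n_q_p22)) (net_node (net_node (net_leaf n_q_c233333) (net_leaf n_q_c2332333)) (net_leaf n_q_p2332))))) (au_cons u_25ac475869b454ef (au_cons u_457209fe66cca14c au_nil))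
theorem u_ca85934c3ad33ce4 : RefU (c_ca85934c3ad33ce4) := run_u k_u_ca85934c3ad33ce4 (ok_st st_12_2_1_1_2 (net_node (net_node (net_node (net_node (net_leaf n_q_c23323333) (net_leaf n_q_p232)) (net_node (net_leaf n_q_c2333) (net_leaf n_q_c23333))) (net_node (net_node (net_leaf n_q_c233) (net_leaf n_q_p2332)) (net_leaf n_q_c2333333))) (net_node (net_node (net_node (net_leaf n_q_c233323333) (net_leaf n_q_p222)) (net_leaf n_q_p22)) (net_node (net_node (net_leaf n_q_c233333) (net_leaf n_q_c2332333)) (net_leaf n_q_c2233))))) (au_cons u_ac033c2017be928c (au_cons u_590528d0ee59d533 au_nil))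
theorem n_q_p23332 : NE q_p23332 := ne_u k_n_q_p23332 (ok_st st_12_2_1_1_2 (net_node (net_node (net_node (net_node (net_leaf n_q_g2333_01122313) (net_leaf n_q_c2332333)) (net_node (net_leaf n_q_c23333) (net_leaf n_T0))) (net_node (net_node (net_leaf n_q_p22) (net_leaf n_q_c2333333)) (net_node (net_leaf n_q_p2332) (net_leaf n_q_c333)))) (net_node (net_node (net_node (net_leaf n_q_p232) (net_leaf n_q_g333332_01021323142405)) (net_node (net_leaf n_q_c2333) (net_leaf n_q_p222))) (net_node (net_node (net_leaf n_q_c233) (net_leaf n_q_c2233)) (net_node (net_leaf n_q_c233333) (net_leaf n_PP)))))) (au_cons u_0feb82276697ff1a (au_cons u_073593fc068fbbc4 (au_cons u_91f790bc9ddf7eea au_nil)))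
theorem u_8ff3dc6d41fe60a1 : RefU (c_8ff3dc6d41fe60a1) := run_u k_u_8ff3dc6d41fe60a1 (ok_st st_12_2_1_1_2 (net_node (net_node (net_node (net_leaf n_q_p222) (net_leaf n_q_c333)) (net_leaf n_q_p232)) (net_node (net_node (net_leaf n_q_c2233) (net_leaf n_q_p23332)) (net_leaf n_q_c2333333)))) (au_cons u_ecfb7e340dc8757c au_nil)
theorem u_88cda4dea0e18698 : RefU (c_88cda4dea0e18698) := run_u k_u_88cda4dea0e18698 (ok_st st_12_2_1_1_2 (net_node (net_node (net_node (net_leaf n_q_p222) (net_leaf n_q_c333)) (net_leaf n_q_p232)) (net_node (net_node (net_leaf n_q_c2233) (net_leaf n_q_p23332)) (net_leaf n_q_c2333333)))) (au_cons u_0ba7bb4e75c4f309 au_nil)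
theorem u_c9a263396861e722 : RefU (c_c9a263396861e722) := run_u k_u_c9a263396861e722 (ok_st st_12_2_1_1_2 (net_node (net_node (net_node (net_node (net_leaf n_q_c233333) (net_leaf n_q_p23332)) (net_leaf n_q_c233323333)) (net_node (net_leaf n_q_c333) (net_leaf n_q_p22))) (net_node (net_node (net_leaf n_q_c2333333) (net_leaf n_q_c2333)) (net_node (net_leaf n_q_c23323333) (net_leaf n_T0))))) (au_cons u_25ac475869b454ef (au_cons u_f436db2bd2dc8656 (au_cons u_457209fe66cca14c (au_cons u_459ae99870353ec2 au_nil))))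
theorem u_b84fc72a30ede318 : RefU (c_b84fc72a30ede318) := run_u k_u_b84fc72a30ede318 (ok_st st_12_2_1_1_2 (net_node (net_node (net_node (net_node (net_leaf n_q_c233333) (net_leaf n_Pe)) (net_leaf n_q_p232)) (net_node (net_node (net_leaf n_q_c2333) (net_leaf n_q_g333332_01021323142405)) (net_leaf n_Pb))) (net_node (net_node (net_node (net_leaf n_q_c2333333) (net_leaf n_q_c333)) (net_leaf n_q_p222)) (net_node (net_node (net_leaf n_q_c2233) (net_leaf n_q_p23332)) (net_leaf n_T0))))) (au_cons u_729b0b0bdd347339 au_nil)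
theorem u_e0ab9659eb596f8c : RefU (c_e0ab9659eb596f8c) := run_u k_u_e0ab9659eb596f8c (ok_st st_12_2_1_1_2 (net_node (net_node (net_node (net_node (net_leaf n_q_c2333333) (net_leaf n_q_c23323333)) (net_node (net_leaf n_q_g2333_01122313) (net_leaf n_q_p23332))) (net_node (net_node (net_leaf n_q_c233333) (net_leaf n_q_p222)) (net_node (net_leaf n_q_c2332333) (net_leaf n_Pe)))) (net_node (net_node (net_node (net_leaf n_q_c333) (net_leaf n_q_p232)) (net_node (net_leaf n_q_p2332) (net_leaf n_T0))) (net_node (net_node (net_leaf n_q_c23333) (net_leaf n_q_c2333)) (net_leaf n_q_c2233))))) (au_cons u_bb087e6d9bf3354a (au_cons u_2f03a906276c5fe1 au_nil))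
theorem u_d8243a1a5d9df650 : RefU (c_d8243a1a5d9df650) := run_u k_u_d8243a1a5d9df650 (ok_st st_12_2_1_1_2 (net_node (net_node (net_node (net_node (net_leaf n_q_c2333333) (net_leaf n_q_c333)) (net_leaf n_q_g2333_01122313)) (net_node (net_node (net_leaf n_q_p23332) (net_leaf n_Pe)) (net_leaf n_q_p232))) (net_node (net_node (net_node (net_leaf n_q_c233333) (net_leaf n_q_c2333)) (net_leaf n_q_c2233)) (net_node (net_leaf n_T0) (net_leaf n_q_p222))))) (au_cons u_a0f4c1a88d87c73f (au_cons u_482d1554c32ca689 (au_cons u_a52a0c47d90d0b40 (au_cons u_859ae3d542f572f0 (au_cons u_365f351426691f30 au_nil)))))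
theorem u_68732ace0e904f73 : RefU (c_68732ace0e904f73) := run_u k_u_68732ace0e904f73 (ok_st st_12_2_1_1_2 (net_node (net_node (net_node (net_node (net_leaf n_q_c2332333) (net_leaf n_q_p23332)) (net_leaf n_q_p232)) (net_node (net_leaf n_q_c2233) (net_leaf n_q_c2333))) (net_node (net_node (net_leaf n_q_c233333) (net_leaf n_q_p222)) (net_node (net_leaf n_q_c23323333) (net_leaf n_q_c2333333))))) (au_cons u_23499a544c8ca582 (au_cons u_5556a900dc882e53 (au_cons u_135f61bcbcde7f92 au_nil)))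
theorem u_8e21a8c3460e5f01 : RefU (c_8e21a8c3460e5f01) := run_u k_u_8e21a8c3460e5f01 (ok_st st_12_2_1_1_2 (net_node (net_node (net_node (net_node (net_leaf n_q_c233333) (net_leaf n_q_p2332)) (net_leaf n_q_p222)) (net_node (net_node (net_leaf n_q_c2233) (net_leaf n_q_c333)) (net_leaf n_q_c23333))) (net_node (net_node (net_node (net_leaf n_q_c2333333) (net_leaf n_q_c2333)) (net_leaf n_q_p23332)) (net_node (net_leaf n_q_p232) (net_leaf n_q_g333332_01021323142405))))) (au_cons u_708adcb2246234a5 (au_cons u_831635fdc514af9b au_nil))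
theorem u_e8801969e3f69b48 : RefU (c_e8801969e3f69b48) := run_u k_u_e8801969e3f69b48 (ok_st st_12_2_1_1_2 (net_node (net_node (net_node (net_node (net_leaf n_q_c2333333) (net_leaf n_q_c2333)) (net_node (net_leaf n_q_c2233) (net_leaf n_Pe))) (net_node (net_node (net_leaf n_q_p23332) (net_leaf n_q_g2333_01122313)) (net_leaf n_q_p232))) (net_node (net_node (net_node (net_leaf n_q_c233333) (net_leaf n_T0)) (net_leaf n_q_c23323333)) (net_node (net_node (net_leaf n_q_c2332333) (net_leaf n_q_c333)) (net_leaf n_q_p222))))) (au_cons u_f7652e97ee2f9fab (au_cons u_8630fde29eccdfd7 (au_cons u_d159b8b69d0171aa au_nil)))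
theorem u_ea9bf82fe9225682 : RefU (c_ea9bf82fe9225682) := run_u k_u_ea9bf82fe9225682 (ok_st st_12_2_1_1_2 (net_node (net_node (net_node (net_node (net_leaf n_q_p23332) (net_leaf n_q_c233333)) (net_leaf n_q_p232)) (net_node (net_node (net_leaf n_q_c233) (net_leaf n_q_c2332333)) (net_leaf n_q_c2233))) (net_node (net_node (net_node (net_leaf n_q_p222) (net_leaf n_q_c23323333)) (net_leaf n_q_g2333_01122313)) (net_node (net_leaf n_q_p2332) (net_leaf n_T0))))) (au_cons u_4da4f46e0ad27b1b au_nil)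
theorem u_2ed273806900a222 : RefU (c_2ed273806900a222) := run_u k_u_2ed273806900a222 (ok_st st_12_2_1_1_2 (net_node (net_node (net_leaf n_q_c2333333) (net_leaf n_q_p23332)) (net_leaf n_q_c333))) (au_cons u_e0f7c96f69ba24e7 au_nil)
theorem u_d571c1db5af80978 : RefU (c_d571c1db5af80978) := run_u k_u_d571c1db5af80978 (ok_st st_12_2_1_1_2 (net_node (net_node (net_node (net_node (net_leaf n_q_c233333) (net_leaf n_q_c23333)) (net_leaf n_q_c2233)) (net_node (net_leaf n_q_p23332) (net_leaf n_q_c233))) (net_node (net_node (net_node (net_leaf n_q_c2333333) (net_leaf n_q_c333)) (net_leaf n_q_p232)) (net_node (net_leaf n_q_p222) (net_leaf n_q_p2332))))) (au_cons u_be2be6b0a6e0350c (au_cons u_9cb533c8d2678bc6 au_nil))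
theorem u_71664c2754df87d4 : RefU (c_71664c2754df87d4) := run_u k_u_71664c2754df87d4 (ok_st st_12_2_1_1_2 (net_node (net_node (net_node (net_node (net_leaf n_q_c333) (net_leaf n_q_g2333_01122313)) (net_node (net_leaf n_q_c2233) (net_leaf n_q_c2332333))) (net_node (net_node (net_leaf n_q_p23332) (net_leaf n_T0)) (net_leaf n_q_c2333))) (net_node (net_node (net_node (net_leaf n_q_c2333333) (net_leaf n_Pb)) (net_node (net_leaf n_q_p232) (net_leaf n_q_c23323333))) (net_node (net_node (net_leaf n_q_p222) (net_leaf n_PP)) (net_leaf n_q_c233333))))) (au_cons u_e4351895f641ae67 au_nil)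
theorem u_63034ec112a1e05a : RefU (c_63034ec112a1e05a) := run_u k_u_63034ec112a1e05a (ok_st st_12_2_1_1_2 (net_node (net_node (net_node (net_node (net_leaf n_q_c2333333) (net_leaf n_q_g2333_01122313)) (net_leaf n_q_c233)) (net_node (net_node (net_leaf n_Pe) (net_leaf n_q_p232)) (net_leaf n_q_p222))) (net_node (net_node (net_node (net_leaf n_T0) (net_leaf n_q_c2233)) (net_leaf n_q_p2332)) (net_node (net_leaf n_Pb) (net_leaf n_q_p23332))))) au_nil
theorem u_2775f5fbde51d4e7 : RefU (c_2775f5fbde51d4e7) := run_u k_u_2775f5fbde51d4e7 (ok_st st_12_2_1_1_2 (net_node (net_node (net_leaf n_q_c233333) (net_leaf n_q_p23332)) (net_leaf n_q_c2333333))) au_nil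
theorem u_e10bb449c498cfb2 : RefU (c_e10bb449c498cfb2) := run_u k_u_e10bb449c498cfb2 (ok_st st_12_2_1_1_2 (net_node (net_node (net_node (net_node (net_leaf n_q_p222) (net_leaf n_q_c2333333)) (net_leaf n_q_c23333)) (net_node (net_leaf n_q_p232) (net_leaf n_q_c23323333))) (net_node (net_node (net_node (net_leaf n_q_c2233) (net_leaf n_q_c2332333)) (net_leaf n_q_p23332)) (net_node (net_leaf n_q_c233333) (net_leaf n_q_c2333))))) au_nil
theorem u_d43aef80e34f4ae3 : RefU (c_d43aef80e34f4ae3) := run_u k_u_d43aef80e34f4ae3 (ok_st st_12_2_1_1_2 (net_node (net_node (net_node (net_node (net_leaf n_q_p23332) (net_leaf n_q_p232)) (net_node (net_leaf n_q_c23333) (net_leaf n_q_p222))) (net_node (net_node (net_leaf n_q_g333332_01021323142405) (net_leaf n_q_c2332333)) (net_node (net_leaf n_q_g2333_01122313) (net_leaf n_q_c333)))) (net_node (net_node (net_node (net_leaf n_q_c2333333) (net_leaf n_q_c23323333)) (net_node (net_leaf n_q_p2332) (net_leaf n_T0)))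 (net_node (net_node (net_leaf n_q_c233333) (net_leaf n_q_c2233)) (net_node (net_leaf n_q_c2333) (net_leaf n_Pe)))))) (au_cons u_b0021e6d095c3bf4 (au_cons u_40f5cb6cf9d203ad au_nil))
theorem u_b9066b607ea94a69 : RefU (c_b9066b607ea94a69) := run_u k_u_b9066b607ea94a69 (ok_st st_12_2_1_1_2 (net_leaf n_q_p23332)) (au_cons u_98deb3b4771afcb3 au_nil)
theorem u_9983de8358e318a0 : RefU (c_9983de8358e318a0) := run_u k_u_9983de8358e318a0 (ok_st st_12_2_1_1_2 (net_node (net_node (net_node (net_leaf n_q_p23332) (net_leaf n_q_p232)) (net_leaf n_q_g2333_01122313)) (net_node (net_node (net_leaf n_T0) (net_leaf n_q_p222)) (net_leaf n_q_c2233)))) au_nil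
theorem u_27ceee35d69ae422 : RefU (c_27ceee35d69ae422) := run_u k_u_27ceee35d69ae422 (ok_st st_12_2_1_1_2 (net_node (net_node (net_node (net_node (net_leaf n_q_p23332) (net_leaf n_q_c233333)) (net_leaf n_q_p232)) (net_node (net_node (net_leaf n_q_c233) (net_leaf n_q_c2332333)) (net_leaf n_T0))) (net_node (net_node (net_node (net_leaf n_q_p222) (net_leaf n_q_c23323333)) (net_leaf n_q_c2233)) (net_node (net_leaf n_q_p2332) (net_leaf n_q_g2333_01122313))))) (au_cons u_bbdbba073f766c70 au_nil)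
theorem u_373f2e71609626fc : RefU (c_373f2e71609626fc) := run_u k_u_373f2e71609626fc (ok_st st_12_2_1_1_2 (net_node (net_node (net_node (net_leaf n_q_c233333) (net_leaf n_T0)) (net_node (net_leaf n_q_p23332) (net_leaf n_q_g333332_01021323142405))) (net_node (net_node (net_leaf n_q_c2333333) (net_leaf n_Pe)) (net_node (net_leaf n_q_c23323333) (net_leaf n_Pb))))) (au_cons u_b84fc72a30ede318 au_nil)
theorem u_9ab88fb560530e75 : RefU (c_9ab88fb560530e75) := run_u k_u_9ab88fb560530e75 (ok_st st_12_2_1_1_2 (net_node (net_node (net_node (net_node (net_leaf n_q_p23332) (net_leaf n_q_p232)) (net_leaf n_q_c23333)) (net_node (net_leaf n_q_g2333_01122313) (net_leaf n_q_g333332_01021323142405))) (net_node (net_node (net_leaf n_q_c2333333) (net_leaf n_q_p2332)) (net_node (net_leaf n_q_c233333) (net_leaf n_q_c2333))))) (au_cons u_e0ab9659eb596f8c au_nil)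
theorem u_e68dd50b9ff56049 : RefU (c_e68dd50b9ff56049) := run_u k_u_e68dd50b9ff56049 (ok_st st_12_2_1_1_2 (net_node (net_node (net_node (net_leaf n_q_c2333333) (net_leaf n_q_g2333_01122313)) (net_node (net_leaf n_q_c233333) (net_leaf n_q_p23332))) (net_node (net_node (net_leaf n_q_c333) (net_leaf n_q_p2332)) (net_leaf n_q_c23333)))) (au_cons u_805416e6a05c781f (au_cons u_46cb4a0f84630215 (au_cons u_68732ace0e904f73 au_nil)))
theorem u_b320b3fda607d624 : RefU (c_b320b3fda607d624) := run_u k_u_b320b3fda607d624 (ok_st st_12_2_1_1_2 (net_node (net_node (net_node (net_node (net_leaf n_q_c2333333) (net_leaf n_q_g2333_01122313)) (net_leaf n_q_c2233)) (net_node (net_node (net_leaf n_q_c333) (net_leaf n_q_p2332)) (net_leaf n_q_p23332))) (net_node (net_node (net_node (net_leaf n_q_c233333) (net_leaf n_q_c23333)) (net_leaf n_T0)) (net_node (net_leaf n_q_p222) (net_leaf n_q_p232))))) (au_cons u_384c5a11e5dbdcf6 (au_cons u_8e21a8c3460e5f01 au_nil))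
theorem u_c6daee0f0b1eb9d5 : RefU (c_c6daee0f0b1eb9d5) := run_u k_u_c6daee0f0b1eb9d5 (ok_st st_12_2_1_1_2 (net_node (net_node (net_node (net_node (net_leaf n_q_p222) (net_leaf n_q_c2332333)) (net_leaf n_q_c233333)) (net_node (net_leaf n_q_p232) (net_leaf n_q_c2333))) (net_node (net_node (net_leaf n_q_c2233) (net_leaf n_q_c23333)) (net_node (net_leaf n_q_c333) (net_leaf n_q_p22))))) (au_cons u_d571c1db5af80978 au_nil)
theorem u_fb8cc1adf86517e0 : RefU (c_fb8cc1adf86517e0) := run_u k_u_fb8cc1adf86517e0 (ok_st st_12_2_1_1_2 (net_node (net_node (net_node (net_node (net_leaf n_q_p2332) (net_leaf n_q_p232)) (net_leaf n_q_c2333)) (net_node (net_node (net_leaf n_q_c233) (net_leaf n_q_c2332333)) (net_leaf n_q_p222))) (net_node (net_node (net_node (net_leaf n_q_c233333) (net_leaf n_q_c333)) (net_leaf n_q_p22)) (net_node (net_leaf n_q_c23333) (net_leaf n_q_c2233))))) (au_cons u_e0fbe049217e69cf (au_cons u_e10bb449c498cfb2 au_nil))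
theorem u_8c26f21f06fc9851 : RefU (c_8c26f21f06fc9851) := run_u k_u_8c26f21f06fc9851 (ok_st st_12_2_1_1_2 (net_node (net_node (net_node (net_node (net_leaf n_q_p2332) (net_leaf n_q_p222)) (net_node (net_leaf n_q_c233) (net_leaf n_q_g2333_01122313))) (net_node (net_node (net_leaf n_q_c233333) (net_leaf n_q_c2332333)) (net_node (net_leaf n_q_c2233) (net_leaf n_Pe)))) (net_node (net_node (net_node (net_leaf n_q_p23332) (net_leaf n_q_c23323333)) (net_node (net_leaf n_q_p22) (net_leaf n_q_c333))) (net_node (net_node (net_leaf n_q_c2333) (net_leaf n_T0)) (net_leaf n_q_p232))))) (au_cons u_d43aef80e34f4ae3 (au_cons u_b9066b607ea94a69 (au_cons u_9983de8358e318a0 (au_cons u_98deb3b4771afcb3 au_nil))))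
theorem u_9040b4432392335d : RefU (c_9040b4432392335d) := run_u k_u_9040b4432392335d (ok_st st_12_2_1_1_2 (net_node (net_node (net_leaf n_q_c2333333) (net_leaf n_q_c333)) (net_node (net_leaf n_q_c233333) (net_leaf n_q_p23332)))) (au_cons u_71664c2754df87d4 (au_cons u_63034ec112a1e05a (au_cons u_2775f5fbde51d4e7 (au_cons u_ca85934c3ad33ce4 (au_cons u_27ceee35d69ae422 au_nil)))))
theorem u_8ffe3e5be98a4f8a : RefU (c_8ffe3e5be98a4f8a) := run_u k_u_8ffe3e5be98a4f8a (ok_st st_12_2_1_1_2 (net_node (net_node (net_leaf n_q_p222) (net_leaf n_q_p232)) (net_node (net_leaf n_q_c2233) (net_leaf n_q_c333)))) (au_cons u_373f2e71609626fc (au_cons u_5fccee84b993bf72 (au_cons u_e0f7c96f69ba24e7 au_nil)))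
theorem u_ccb800457a97ee4f : RefU (c_ccb800457a97ee4f) := run_u k_u_ccb800457a97ee4f (ok_st st_12_2_1_1_2 (net_node (net_node (net_node (net_node (net_leaf n_q_c2333333) (net_leaf n_q_p222)) (net_node (net_leaf n_q_p2332) (net_leaf n_q_c23323333))) (net_node (net_node (net_leaf n_q_c23333) (net_leaf n_q_c2332333)) (net_node (net_leaf n_q_c2233) (net_leaf n_q_p23332)))) (net_node (net_node (net_node (net_leaf n_q_c233333) (net_leaf n_q_c333)) (net_node (net_leaf n_T0) (net_leaf n_q_c2333))) (net_node (net_node (net_leaf n_q_g2333_01122313) (net_leaf n_Pe)) (net_leaf n_q_p232))))) (au_cons u_a349285aa03630a9 (au_cons u_d8243a1a5d9df650 (au_cons u_b320b3fda607d624 (au_cons u_e68dd50b9ff56049 (au_cons u_8e21a8c3460e5f01 (au_cons u_e8801969e3f69b48 (au_cons u_06af9f013321868e (au_cons u_9f0d68bb014421a6 (au_cons u_69f2459158590253 (au_cons u_95421359e953cbd6 au_nil))))))))))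
theorem u_f9cbd5640d28eea9 : RefU (c_f9cbd5640d28eea9) := run_u k_u_f9cbd5640d28eea9 (ok_st st_12_2_1_1_2 (net_node (net_node (net_leaf n_q_p222) (net_leaf n_q_p232)) (net_node (net_leaf n_q_c2233) (net_leaf n_q_c333)))) (au_cons u_fb50d122664bc79c (au_cons u_e81d1a7f9e903f40 (au_cons u_63034ec112a1e05a (au_cons u_fb8cc1adf86517e0 (au_cons u_1bf6d798d9581bfe au_nil)))))
theorem u_70481fdd05d38dfc : RefU (c_70481fdd05d38dfc) := run_u k_u_70481fdd05d38dfc (ok_st st_12_2_1_1_2 (net_node (net_node (net_node (net_leaf n_q_c233333) (net_leaf n_q_c2333333)) (net_leaf n_q_c333)) (net_node (net_node (net_leaf n_q_g333332_01021323142405) (net_leaf n_q_p23332)) (net_leaf n_q_p2332)))) (au_cons u_8ffe3e5be98a4f8a au_nil)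
theorem u_052ec4374db60e88 : RefU (c_052ec4374db60e88) := run_u k_u_052ec4374db60e88 (ok_st st_12_2_1_1_2 (net_node (net_node (net_leaf n_q_c2333333) (net_leaf n_q_p23332)) (net_leaf n_q_c333))) (au_cons u_8ffe3e5be98a4f8a au_nil)
theorem u_415352b73522f8c8 : RefU (c_415352b73522f8c8) := run_u k_u_415352b73522f8c8 (ok_st st_12_2_1_1_2 (net_node (net_node (net_node (net_node (net_leaf n_q_p2332) (net_leaf n_q_p232)) (net_leaf n_q_c233)) (net_node (net_leaf n_q_p23332) (net_leaf n_q_c2333333))) (net_node (net_node (net_leaf n_q_c233333) (net_leaf n_q_p22)) (net_node (net_leaf n_q_c2333) (net_leaf n_q_c23333))))) (au_cons u_9ab88fb560530e75 (au_cons u_e0ab9659eb596f8c (au_cons u_ccb800457a97ee4f au_nil)))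
theorem u_c4ecf97e6a5c9dd0 : RefU (c_c4ecf97e6a5c9dd0) := run_u k_u_c4ecf97e6a5c9dd0 (ok_st st_12_2_1_1_2 (net_node (net_node (net_node (net_node (net_leaf n_q_c2333333) (net_leaf n_q_g2333_01122313)) (net_leaf n_q_c333)) (net_node (net_node (net_leaf n_q_c2233) (net_leaf n_Pe)) (net_leaf n_q_c2333))) (net_node (net_node (net_node (net_leaf n_q_p222) (net_leaf n_T0)) (net_leaf n_q_p23332)) (net_node (net_leaf n_q_p232) (net_leaf n_q_c233333))))) (au_cons u_51887b8e0b4f4104 (au_cons u_c6daee0f0b1eb9d5 (au_cons u_be115e9d0046e8bd (au_cons u_fb50d122664bc79c (au_cons u_2f54abababc66053 (au_cons u_71664c2754df87d4 (au_cons u_e81d1a7f9e903f40 (au_cons u_4f0445e2c343c3d5 (au_cons u_0f68c69f0a32d8af (au_cons u_9040b4432392335d (au_cons u_f9cbd5640d28eea9 (au_cons u_ca85934c3ad33ce4 (au_cons u_fb8cc1adf86517e0 (au_cons u_8c26f21f06fc9851 (au_cons u_27ceee35d69ae422 (au_cons u_1bf6d798d9581bfe (au_cons u_f1a022798de7c05b (au_cons u_6cc0c98854268cf5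 au_nil))))))))))))))))))
theorem u_6d1eb1cc72799aa0 : RefU (c_6d1eb1cc72799aa0) := run_u k_u_6d1eb1cc72799aa0 (ok_st st_12_2_1_1_2 (net_node (net_node (net_node (net_node (net_leaf n_q_c23333) (net_leaf n_q_p232)) (net_node (net_leaf n_q_p2332) (net_leaf n_q_c2333))) (net_node (net_node (net_leaf n_q_c233333) (net_leaf n_T0)) (net_leaf n_q_p23332))) (net_node (net_node (net_node (net_leaf n_q_g333332_01021323142405) (net_leaf n_q_c2233)) (net_node (net_leaf n_q_c2333333) (net_leaf n_Pe))) (net_node (net_node (net_leaf n_q_c333) (net_leaf n_q_p222)) (net_leaf n_q_g2333_01122313))))) (au_cons u_8ff3dc6d41fe60a1 (au_cons u_88cda4dea0e18698 (au_cons u_6a59610d3d22e396 (au_cons u_cb673b91a5ad15e5 (au_cons u_c9a263396861e722 (au_cons u_70481fdd05d38dfc (au_cons u_e2cc0d79925bffde (au_cons u_e409f2e8cd5d307e (au_cons u_415352b73522f8c8 (au_cons u_ea9bf82fe9225682 (au_cons u_2ed273806900a222 au_nil)))))))))))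
theorem u_e65f0eefcad1511a : RefU (c_e65f0eefcad1511a) := run_u k_u_e65f0eefcad1511a (ok_st st_12_2_1_1_2 (net_node (net_node (net_node (net_leaf n_q_c233333) (net_leaf n_q_p222)) (net_node (net_leaf n_q_c333) (net_leaf n_q_p232))) (net_node (net_node (net_leaf n_q_c2333333) (net_leaf n_q_c2233)) (net_node (net_leaf n_q_p23332) (net_leaf n_q_c2333))))) (au_cons u_ecfb7e340dc8757c (au_cons u_43064c75bc558541 (au_cons u_052ec4374db60e88 (au_cons u_c4ecf97e6a5c9dd0 au_nil))))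
theorem u_9252ef3c3883ae81 : RefU (c_9252ef3c3883ae81) := run_u k_u_9252ef3c3883ae81 (ok_st st_12_2_1_1_2 (net_node (net_node (net_node (net_leaf n_q_c23333) (net_leaf n_q_p2332)) (net_leaf n_q_g333332_01021323142405)) (net_node (net_leaf n_q_c233333) (net_leaf n_q_c2333333)))) (au_cons u_e65f0eefcad1511a au_nil)
theorem u_V2 : RefU (newV empty 2 false) := run_u k_u_V2 (ok_st st_12_2_1_1_2 (net_node (net_node (net_node (net_node (net_leaf n_q_p22) (net_leaf n_q_c333)) (net_node (net_leaf n_q_g2333_01122313) (net_leaf n_T0))) (net_node (net_node (net_leaf n_q_p232) (net_leaf n_q_p23332)) (net_node (net_leaf n_q_p2332) (net_leaf n_q_g333333_0102132314240535)))) (net_node (net_node (net_node (net_leaf n_q_c233) (net_leaf n_q_c2333333)) (net_node (net_leaf n_q_c23333) (net_leaf n_q_p222))) (net_node (net_node (net_leaf n_q_c2333) (net_leaf n_q_c2233)) (net_leaf n_q_c233333))))) (au_cons u_6d1eb1cc72799aa0 (au_cons u_9252ef3c3883ae81 (au_cons u_e65f0eefcad1511a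 au_nil)))

end Pool.Agent.Lib.MP_5a2675_co.D7
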