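import Mathlib
import Pool.Agent.Lib.MP_5a2675_co.D7.Chk2

set_option autoImplicit false
set_option maxRecDepth 100000

namespace Pool.Agent.Lib.MP_5a2675_co.D7

def q_c223 : Pat := ⟨3, [2,2,3], [(0,1),(1,2),(2,0)]⟩
def q_c2233 : Pat := ⟨4, [2,2,3,3], [(0,1),(1,2),(2,3),(3,0)]⟩
def q_c233 : Pat := ⟨3, [2,3,3], [(0,1),(1,2),(2,0)]⟩
def q_c233233 : Pat := ⟨6, [2,3,3,2,3,3], [(0,1),(1,2),(2,3),(3,4),(4,5),(5,0)]⟩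
def q_c2332333 : Pat := ⟨7, [2,3,3,2,3,3,3], [(0,1),(1,2),(2,3),(3,4),(4,5),(5,6),(6,0)]⟩
def q_c23323333 : Pat := ⟨8, [2,3,3,2,3,3,3,3], [(0,1),(1,2),(2,3),(3,4),(4,5),(5,6),(6,7),(7,0)]⟩
def q_c2333 : Pat := ⟨4, [2,3,3,3], [(0,1),(1,2),(2,3),(3,0)]⟩
def q_c233323333 : Pat := ⟨9, [2,3,3,3,2,3,3,3,3], [(0,1),(1,2),(2,3),(3,4),(4,5),(5,6),(6,7),(7,8),(8,0)]⟩
def q_c23333 : Pat := ⟨5, [2,3,3,3,3], [(0,1),(1,2),(2,3),(3,4),(4,0)]⟩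
def q_c233333 : Pat := ⟨6, [2,3,3,3,3,3], [(0,1),(1,2),(2,3),(3,4),(4,5),(5,0)]⟩
def q_c2333333 : Pat := ⟨7, [2,3,3,3,3,3,3], [(0,1),(1,2),(2,3),(3,4),(4,5),(5,6),(6,0)]⟩
def q_c333 : Pat := ⟨3, [3,3,3], [(0,1),(1,2),(2,0)]⟩
def q_g2333_01122313 : Pat := ⟨4, [2,3,3,3], [(0,1),(1,2),(2,3),(1,3)]⟩
def q_g333332_01021323142405 : Pat := ⟨6, [3,3,3,3,3,2], [(0,1),(0,2),(1,3),(2,3),(1,4),(2,4),(0,5)]⟩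
def q_g333333_0102132314240535 : Pat := ⟨6, [3,3,3,3,3,3], [(0,1),(0,2),(1,3),(2,3),(1,4),(2,4),(0,5),(3,5)]⟩
def q_p22 : Pat := ⟨2, [2,2], [(0,1)]⟩
def q_p222 : Pat := ⟨3, [2,2,2], [(0,1),(1,2)]⟩
def q_p232 : Pat := ⟨3, [2,3,2], [(0,1),(1,2)]⟩
def q_p2332 : Pat := ⟨4, [2,3,3,2], [(0,1),(1,2),(2,3)]⟩
def q_p23332 : Pat := ⟨5, [2,3,3,3,2], [(0,1),(1,2),(2,3),(3,4)]⟩

end Pool.Agent.Lib.MP_5a2675_co.D7
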